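import Pool.Agent.VRR.Targets3

set_option autoImplicit false

/-!
# VRR, LIN: the maximal inequality for infinite sums of spherical harmonics
-/

namespace Pool.Agent.VRR

open MeasureTheory FourierTransform Set Filter Topology
open scoped ENNReal NNReal ComplexConjugate
open Pool.Agent.MBS (E ex)
open Pool.Agent.CRN (sg SH T_POLN)

namespace LIN_

variable {n : ℕ}

theorem ex_cont : Continuous fun p : E n × E n => ex p.1 p.2 := by
  unfold ex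
  fun_prop

theorem ex_norm (x ξ : E n) : ‖ex x ξ‖ = 1 := by
  unfold ex
  rw [show (2 * Real.pi * Complex.I * ((inner ℝ x ξ : ℝ) : ℂ)) =
    ((2 * Real.pi * inner ℝ x ξ : ℝ) : ℂ) * Complex.I by push_cast; ring]
  exact Complex.norm_exp_ofReal_mul_I _

theorem ex_enorm (x ξ : E n) : ‖ex x ξ‖ₑ = 1 := by
  rw [← ofReal_norm, ex_norm, ENNReal.ofReal_one]

theorem memLp {h : E n → ℂ} (hm : Measurable h) (h2 : ∫⁻ ξ, ‖h ξ‖ₑ ^ 2 ≠ ⊤) : MemLp h 2 := by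
  refine ⟨hm.aestronglyMeasurable, ?_⟩
  rw [eLpNorm_lt_top_iff_lintegral_rpow_enorm_lt_top two_ne_zero ENNReal.ofNat_ne_top]
  simpa using h2.lt_top

theorem eL2 (h : E n → ℂ) (μ : Measure (E n)) :
    eLpNorm h 2 μ = (∫⁻ ξ, ‖h ξ‖ₑ ^ 2 ∂μ) ^ (1 / 2 : ℝ) := by
  rw [eLpNorm_eq_lintegral_rpow_enorm_toReal two_ne_zero ENNReal.ofNat_ne_top]
  simp

theorem int_ball {h : E n → ℂ} (hm : Measurable h) (h2 : ∫⁻ ξ, ‖h ξ‖ₑ ^ 2 ≠ ⊤) (R : ℝ) :
    Integrable h (volume.restrict (Metric.closedBall (0 : E n) R)) := by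
  have : IsFiniteMeasure ((volume : Measure (E n)).restrict (Metric.closedBall 0 R)) :=
    ⟨by
      rw [Measure.restrict_apply_univ]
      exact measure_closedBall_lt_top⟩
  exact ((memLp hm h2).restrict _).integrable (by norm_num)

theorem int_ex {h : E n → ℂ} {μ : Measure (E n)} (hi : Integrable h μ) (x : E n) :
    Integrable (fun ξ => h ξ * ex x ξ) μ := by
  refine hi.mono ?_ (ae_of_all _ fun ξ => ?_)
  · exact hi.aestronglyMeasurable.mul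
      (ex_cont.comp (continuous_const.prodMk continuous_id)).aestronglyMeasurable
  · rw [norm_mul, ex_norm, mul_one]

theorem BN_sub_le {g h : E n → ℂ} (hg : Measurable g) (hh : Measurable h)
    (hg2 : ∫⁻ ξ, ‖g ξ‖ₑ ^ 2 ≠ ⊤) (hh2 : ∫⁻ ξ, ‖h ξ‖ₑ ^ 2 ≠ ⊤) (R : ℝ) (x : E n) :
    ‖BN g R x - BN h R x‖ₑ ≤ (∫⁻ ξ, ‖g ξ - h ξ‖ₑ ^ 2) ^ (1 / 2 : ℝ) *
      volume (Metric.closedBall (0 : E n) R) ^ (1 / 2 : ℝ) := by
  unfold BN
  rw [← integral_sub (int_ex (int_ball hg hg2 R) x) (int_ex (int_ball hh hh2 R) x)]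
  refine (enorm_integral_le_lintegral_enorm _).trans ?_
  have e : ∀ ξ, ‖g ξ * ex x ξ - h ξ * ex x ξ‖ₑ = ‖g ξ - h ξ‖ₑ := by
    intro ξ
    rw [← sub_mul, enorm_mul, ex_enorm, mul_one]
  simp only [e]
  rw [← eLpNorm_one_eq_lintegral_enorm (f := fun ξ => g ξ - h ξ)]
  refine (eLpNorm_le_eLpNorm_mul_rpow_measure_univ (p := 1) (q := 2) (by norm_num)
    (hg.sub hh).aestronglyMeasurable).trans ?_
  have e2 : (1 / (1 : ℝ≥0∞).toReal - 1 / (2 : ℝ≥0∞).toReal) = 1 / 2 := by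
    norm_num
  rw [eL2, Measure.restrict_apply_univ, e2]
  exact mul_le_mul' (ENNReal.rpow_le_rpow (lintegral_mono' Measure.restrict_le_self le_rfl)
    (by norm_num)) le_rfl

theorem BN_cont {h : E n → ℂ} {R : ℝ}
    (hi : Integrable h (volume.restrict (Metric.closedBall (0 : E n) R))) :
    Continuous (BN h R) := by
  unfold BN
  refine continuous_of_dominated (bound := fun ξ => ‖h ξ‖) (fun x => ?_) (fun x => ?_) hi.norm
    (ae_of_all _ fun ξ => ?_)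
  · exact (int_ex hi x).aestronglyMeasurable
  · refine ae_of_all _ fun ξ => ?_
    rw [norm_mul, ex_norm, mul_one]
  · exact continuous_const.mul (ex_cont.comp (continuous_id.prodMk continuous_const))

theorem sup_meas {h : E n → ℂ}
    (hi : ∀ R, Integrable h (volume.restrict (Metric.closedBall (0 : E n) R))) :
    Measurable fun x => (⨆ (R : ℝ) (_ : 0 < R), ‖BN h R x‖ₑ) := by
  refine LowerSemicontinuous.measurable ?_
  refine lowerSemicontinuous_iSup fun R => lowerSemicontinuous_iSup fun _ => ?_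
  exact (BN_cont (hi R)).enorm.lowerSemicontinuous

end LIN_

open LIN_ in
theorem p_LIN (h1 : T_LPN) (h2 : T_NRS) : T_LIN := by
  intro n hn
  obtain ⟨C, hC⟩ := h1 n hn
  refine ⟨C, ?_⟩
  intro p B l Y a g hp2 hp4 hS hL ha hnn hg hg2 hlim
  set f : ℕ → E n → ℂ := fun K => fs K a Y with hfdef
  have hf : ∀ K, Measurable (f K) ∧ ∫⁻ ξ, ‖f K ξ‖ₑ ^ 2 = ∑ i ∈ Finset.range K, nn n (a i) :=
    fun K => h2 n K l Y a (by omega) (hS K) ha hnn
  have hf2 : ∀ K, ∫⁻ ξ, ‖f K ξ‖ₑ ^ 2 ≠ ⊤ := by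
    intro K
    rw [(hf K).2]
    exact ENNReal.sum_ne_top.2 fun i _ => hnn i
  set D : ℕ → ℝ≥0∞ := fun K => ∫⁻ ξ, ‖g ξ - f K ξ‖ₑ ^ 2 with hD
  have hDr : Tendsto (fun K => D K ^ (1 / 2 : ℝ)) atTop (𝓝 0) := by
    have := hlim.ennrpow_const (1 / 2 : ℝ)
    rwa [ENNReal.zero_rpow_of_pos (by norm_num)] at this
  -- pointwise convergence
  have hpt : ∀ (R : ℝ) (x : E n),
      Tendsto (fun K => ‖BN (f K) R x‖ₑ ^ 2) atTop (𝓝 (‖BN g R x‖ₑ ^ 2)) := by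
    intro R x
    have k1 : Tendsto (fun K => BN (f K) R x) atTop (𝓝 (BN g R x)) := by
      rw [tendsto_iff_edist_tendsto_0]
      have k2 : Tendsto (fun K => D K ^ (1 / 2 : ℝ) *
          volume (Metric.closedBall (0 : E n) R) ^ (1 / 2 : ℝ)) atTop (𝓝 0) := by
        have := ENNReal.Tendsto.mul_const (b := volume (Metric.closedBall (0 : E n) R) ^
          (1 / 2 : ℝ)) hDr (Or.inr (ENNReal.rpow_ne_top_of_nonneg (by norm_num)
            measure_closedBall_lt_top.ne))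
        rwa [zero_mul] at this
      refine tendsto_of_tendsto_of_tendsto_of_le_of_le tendsto_const_nhds k2
        (fun K => zero_le) (fun K => ?_)
      rw [edist_comm, edist_eq_enorm_sub]
      exact BN_sub_le hg (hf K).1 hg2 (hf2 K) R x
    exact ENNReal.Tendsto.pow ((continuous_enorm.tendsto _).comp k1)
  -- the suprema
  have hsup : ∀ x : E n, (⨆ (R : ℝ) (_ : 0 < R), ‖BN g R x‖ₑ) ^ 2 ≤
      liminf (fun K => (⨆ (R : ℝ) (_ : 0 < R), ‖BN (f K) R x‖ₑ) ^ 2) atTop := by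
    intro x
    set Λ := liminf (fun K => (⨆ (R : ℝ) (_ : 0 < R), ‖BN (f K) R x‖ₑ) ^ 2) atTop with hΛ
    have k1 : ∀ R : ℝ, 0 < R → ‖BN g R x‖ₑ ^ 2 ≤ Λ := by
      intro R hR
      rw [← (hpt R x).liminf_eq]
      refine liminf_le_liminf (Eventually.of_forall fun K => ?_)
      gcongr
      exact le_iSup₂_of_le R hR le_rfl
    have k2 : (⨆ (R : ℝ) (_ : 0 < R), ‖BN g R x‖ₑ) ≤ Λ ^ (1 / 2 : ℝ) := by
      refine iSup₂_le fun R hR => ?_
      have k3 := ENNReal.rpow_le_rpow (k1 R hR) (show (0 : ℝ) ≤ 1 / 2 by norm_num)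
      rwa [← ENNReal.rpow_natCast, ← ENNReal.rpow_mul, show ((2 : ℕ) : ℝ) * (1 / 2) = 1 by norm_num,
        ENNReal.rpow_one] at k3
    calc (⨆ (R : ℝ) (_ : 0 < R), ‖BN g R x‖ₑ) ^ 2 ≤ (Λ ^ (1 / 2 : ℝ)) ^ 2 := by gcongr
      _ = Λ := by
        rw [← ENNReal.rpow_natCast, ← ENNReal.rpow_mul, show (1 / 2 : ℝ) * ((2 : ℕ) : ℝ) = 1 by
          norm_num, ENNReal.rpow_one]
  -- the norms
  set c : ℝ≥0∞ := C * ENNReal.ofReal ((1 / (p - 2)) ^ 16) * (1 + B ^ 2) with hc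
  have hctop : c ≠ ⊤ := by
    rw [hc]
    refine ENNReal.mul_ne_top (ENNReal.mul_ne_top ENNReal.coe_ne_top ENNReal.ofReal_ne_top) ?_
    refine ENNReal.add_ne_top.2 ⟨ENNReal.one_ne_top, ENNReal.pow_ne_top ENNReal.coe_ne_top⟩
  set G : ℝ≥0∞ := ∫⁻ ξ, ‖g ξ‖ₑ ^ 2 with hG
  have hnorm : ∀ K, ∫⁻ ξ, ‖f K ξ‖ₑ ^ 2 ≤ (G ^ (1 / 2 : ℝ) + D K ^ (1 / 2 : ℝ)) ^ 2 := by
    intro K
    have k1 : eLpNorm (f K) 2 volume ≤ G ^ (1 / 2 : ℝ) + D K ^ (1 / 2 : ℝ) := by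
      have k2 := eLpNorm_sub_le (μ := (volume : Measure (E n))) (p := 2)
        hg.aestronglyMeasurable (hg.sub (hf K).1).aestronglyMeasurable (by norm_num)
      have k3 : g - (g - f K) = f K := by
        rw [sub_sub_cancel]
      have k4 : eLpNorm (g - f K) 2 volume = D K ^ (1 / 2 : ℝ) := eL2 _ _
      rw [k3, k4, eL2 g] at k2
      exact k2
    rw [eL2] at k1
    calc ∫⁻ ξ, ‖f K ξ‖ₑ ^ 2 = ((∫⁻ ξ, ‖f K ξ‖ₑ ^ 2) ^ (1 / 2 : ℝ)) ^ 2 := by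
          rw [← ENNReal.rpow_natCast, ← ENNReal.rpow_mul, show (1 / 2 : ℝ) * ((2 : ℕ) : ℝ) = 1 by
            norm_num, ENNReal.rpow_one]
      _ ≤ _ := by gcongr
  have hGlim : Tendsto (fun K => c * (G ^ (1 / 2 : ℝ) + D K ^ (1 / 2 : ℝ)) ^ 2) atTop
      (𝓝 (c * G)) := by
    have k1 : Tendsto (fun K => (G ^ (1 / 2 : ℝ) + D K ^ (1 / 2 : ℝ)) ^ 2) atTop
        (𝓝 ((G ^ (1 / 2 : ℝ) + 0) ^ 2)) := ENNReal.Tendsto.pow (tendsto_const_nhds.add hDr)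
    have k2 : (G ^ (1 / 2 : ℝ) + 0) ^ 2 = G := by
      rw [add_zero, ← ENNReal.rpow_natCast, ← ENNReal.rpow_mul,
        show (1 / 2 : ℝ) * ((2 : ℕ) : ℝ) = 1 by norm_num, ENNReal.rpow_one]
    rw [k2] at k1
    exact ENNReal.Tendsto.const_mul k1 (Or.inr hctop)
  calc ∫⁻ x, (⨆ (R : ℝ) (_ : 0 < R), ‖BN g R x‖ₑ) ^ 2
      ≤ ∫⁻ x, liminf (fun K => (⨆ (R : ℝ) (_ : 0 < R), ‖BN (f K) R x‖ₑ) ^ 2) atTop :=
        lintegral_mono hsup
    _ ≤ liminf (fun K => ∫⁻ x, (⨆ (R : ℝ) (_ : 0 < R), ‖BN (f K) R x‖ₑ) ^ 2) atTop :=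
        lintegral_liminf_le fun K =>
          (sup_meas fun R => int_ball (hf K).1 (hf2 K) R).pow_const 2
    _ ≤ liminf (fun K => c * (G ^ (1 / 2 : ℝ) + D K ^ (1 / 2 : ℝ)) ^ 2) atTop := by
        refine liminf_le_liminf (Eventually.of_forall fun K => ?_)
        refine (hC p B K l Y a hp2 hp4 (hS K) (hL K) ha hnn).trans ?_
        rw [← (hf K).2]
        gcongr
        exact hnorm K
    _ = c * G := hGlim.liminf_eq

end Pool.Agent.VRR
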