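import Pool.Agent.VRR.Targets
import Pool.Agent.VRC.Targets4
import Pool.Agent.CRR.Targets2

set_option autoImplicit false

/-!
# VRR, second part: the `V^r` theorem for the Hankel transform, uniformly in the order, and radii with few values

Every target `T_X` is the landed target of the same name in `Pool/Agent/VRC/Targets4.lean`, `Targets7.lean` (proofs
`Pool/Agent/VRC/P_X.lean`) with `4` replaced by `r ∈ (2,4]`, `1/4` by `1/r`; constants `C` uniform in `r`, the dependence on `r`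
is in the written power of `K = kr r = r/(r-2) ≥ 2`.
-/

namespace Pool.Agent.VRR

open MeasureTheory FourierTransform Set Filter Topology
open scoped ENNReal NNReal ComplexConjugate
open Pool.Agent.MBS (E ex S)
open Pool.Agent.CAR (e1)
open Pool.Agent.CRN (sg SH S1 Nice T_POLN T_DSN)
open Pool.Agent.CRR (Ph StripD FS FA fh NN HH NSol kap aa de la si ww xc band EB pn co)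
open Pool.Agent.VRC (NF)

/-- `r`-variation of an interval function -/
noncomputable def Vo (r : ℝ) (F : ℝ → ℝ → ℂ) : ℝ≥0∞ :=
  ⨆ (L : ℕ) (N : ℕ → ℝ) (_ : Monotone N),
    (∑ j ∈ Finset.range L, ‖F (N j) (N (j + 1))‖ₑ ^ r) ^ (1 / r)

/-- `r`-variation of a sequence -/
noncomputable def Vs (r : ℝ) (z : ℕ → ℂ) : ℝ≥0∞ :=
  ⨆ (L : ℕ) (t : ℕ → ℕ) (_ : Monotone t),
    (∑ i ∈ Finset.range L, ‖z (t (i + 1)) - z (t i)‖ₑ ^ r) ^ (1 / r)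

/-- `r`-variation of the partial integrals on the window `(i w, (i+1) w]` at the frequency `X` -/
noncomputable def NV (r w : ℝ) (h : ℝ → ℂ) (i : ℤ) (X : ℝ) : ℝ≥0∞ := Vo r (NF w h i X)

/-! ### calculus -/

/-- **VCO** (30 min): calculus for `Vo`. -/
def T_VCO : Prop := ∀ r : ℝ, 2 < r → r ≤ 4 →
  (∀ (F : ℝ → ℝ → ℂ) (G : ℕ → ℝ → ℝ → ℂ),
    (∀ a b, a ≤ b → ‖F a b‖ₑ ≤ ∑' i, ‖G i a b‖ₑ) → Vo r F ≤ ∑' i, Vo r (G i)) ∧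
  (∀ (α : Type) [MeasurableSpace α] (μ : Measure α) (F : ℝ → ℝ → ℂ) (G : α → ℝ → ℝ → ℂ),
    (∀ a b, a ≤ b → AEMeasurable (fun s => G s a b) μ) →
    (∀ a b, a ≤ b → ‖F a b‖ₑ ≤ ∫⁻ s, ‖G s a b‖ₑ ∂μ) → Vo r F ≤ ∫⁻ s, Vo r (G s) ∂μ) ∧
  (∀ (F : ℝ → ℝ → ℂ) (a b : ℝ), a ≤ b → ‖F a b‖ₑ ≤ Vo r F) ∧
  (∀ (F : ℝ → ℝ → ℂ) (f : ℝ → ℝ≥0∞), Measurable f →
    (∀ a b, a ≤ b → ‖F a b‖ₑ ≤ ∫⁻ v in Ioc a b, f v) → Vo r F ≤ ∫⁻ v, f v) ∧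
  (∀ (F : ℝ → ℝ → ℂ) (G : ℕ → ℝ → ℝ → ℂ),
    (∀ a b, a ≤ b → Tendsto (fun n => G n a b) atTop (𝓝 (F a b))) →
    Vo r F ≤ liminf (fun n => Vo r (G n)) atTop) ∧
  (∀ (F G : ℝ → ℝ → ℂ) (c : ℝ≥0∞), (∀ a b, a ≤ b → ‖F a b‖ₑ ≤ c * ‖G a b‖ₑ) →
    Vo r F ≤ c * Vo r G) ∧
  (∀ (F G K : ℝ → ℝ → ℂ), (∀ a b, a ≤ b → ‖F a b‖ₑ ≤ ‖G a b‖ₑ + ‖K a b‖ₑ) →
    Vo r F ≤ Vo r G + Vo r K)

/-- **VCS** (30 min): calculus for `Vs`. -/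
def T_VCS : Prop := ∀ r : ℝ, 2 < r → r ≤ 4 →
  (∀ (z : ℕ → ℂ) (y : ℕ → ℕ → ℂ),
    (∀ a b, a ≤ b → ‖z b - z a‖ₑ ≤ ∑' i, ‖y i b - y i a‖ₑ) → Vs r z ≤ ∑' i, Vs r (y i)) ∧
  (∀ (α : Type) [MeasurableSpace α] (μ : Measure α) (z : ℕ → ℂ) (y : α → ℕ → ℂ),
    (∀ a, AEMeasurable (fun s => y s a) μ) →
    (∀ a b, a ≤ b → ‖z b - z a‖ₑ ≤ ∫⁻ s, ‖y s b - y s a‖ₑ ∂μ) → Vs r z ≤ ∫⁻ s, Vs r (y s) ∂μ) ∧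
  (∀ (z : ℕ → ℂ) (a b : ℕ), a ≤ b → ‖z b - z a‖ₑ ≤ Vs r z) ∧
  (∀ z : ℕ → ℂ, Vs r z ≤ 2 * (∑' n, ‖z n‖ₑ ^ 2) ^ (1 / 2 : ℝ)) ∧
  (∀ (z : ℕ → ℂ) (y : ℕ → ℕ → ℂ), (∀ a, Tendsto (fun n => y n a) atTop (𝓝 (z a))) →
    Vs r z ≤ liminf (fun n => Vs r (y n)) atTop) ∧
  (∀ (z y : ℕ → ℂ) (c : ℝ≥0∞), (∀ a b, a ≤ b → ‖z b - z a‖ₑ ≤ c * ‖y b - y a‖ₑ) →
    Vs r z ≤ c * Vs r y) ∧
  (∀ (z y m : ℕ → ℂ) (K K' : ℝ≥0∞),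
    (∀ a b, a ≤ b → z b - z a = ∑ i ∈ Finset.Ico a b, m i * (y (i + 1) - y i)) →
    (∀ i, ‖m i‖ₑ ≤ K) → ∑' i, ‖m (i + 1) - m i‖ₑ ≤ K' → Vs r z ≤ (K + K') * Vs r y) ∧
  (∀ (z : ℕ → ℂ) (F : ℝ → ℝ → ℂ) (N : ℕ → ℝ), Monotone N →
    (∀ a b, a ≤ b → z b - z a = F (N a) (N b)) → Vs r z ≤ Vo r F) ∧
  (∀ z : ℕ → ℂ, Vs r z ≤ ∑' n, ‖z (n + 1) - z n‖ₑ) ∧
  (∀ (z y x : ℕ → ℂ), (∀ a b, a ≤ b → ‖z b - z a‖ₑ ≤ ‖y b - y a‖ₑ + ‖x b - x a‖ₑ) →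
    Vs r z ≤ Vs r y + Vs r x)

/-- **VCM** (20 min): measurability. -/
def T_VCM : Prop := ∀ r : ℝ, 2 < r → r ≤ 4 →
  (∀ (α : Type) [MeasurableSpace α] (F : α → ℝ → ℝ → ℂ),
    (∀ a b, Measurable (fun u => F u a b)) →
    (∀ u, Continuous (fun p : ℝ × ℝ => F u p.1 p.2)) → Measurable (fun u => Vo r (F u))) ∧
  (∀ (α : Type) [MeasurableSpace α] (z : α → ℕ → ℂ), (∀ n, Measurable (fun u => z u n)) →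
    Measurable (fun u => Vs r (z u)))

/-! ### one strip -/

/-- **DCV** (30 min; from C4, VCS): constant `C K⁶`. -/
def T_DCV : Prop := ∀ A : ℝ, 1 ≤ A → ∃ C : ℝ≥0, ∀ (r : ℝ), 2 < r → r ≤ 4 →
  ∀ (w g : ℝ) (N : ℕ) (η : ℕ → ℝ)
  (a : ℕ → ℂ), 0 < w → 0 < g → 1 / A ≤ w * g → (∀ i, η i + g ≤ η (i + 1)) →
    ∫⁻ t in Icc (-w) w, Vs r (fun j => ∑ i ∈ Finset.range (min j N), a i * e1 (t * η i)) ^ 2 ≤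
      C * ENNReal.ofReal (kr r ^ 6) * ENNReal.ofReal w * ∑ i ∈ Finset.range N, ‖a i‖ₑ ^ 2

/-- **ACV** (30 min; from DCV, VCS): constant `C K⁶`. -/
def T_ACV : Prop := ∀ A : ℝ, 1 ≤ A → ∃ C : ℝ≥0, ∀ (r : ℝ), 2 < r → r ≤ 4 →
  ∀ (lam d w : ℝ) (Θ Θ1 Θ2 : ℝ → ℝ)
  (s x y : ℝ) (N : ℕ) (a : ℕ → ℂ), Ph A lam d Θ Θ1 Θ2 → 0 < lam → 0 < d → 0 < w →
  1 / A ≤ w ^ 2 * lam → w ^ 2 * lam ≤ 1 → (N : ℝ) * w ≤ 2 * d → (s = 1 ∨ s = -1) →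
    ∫⁻ u in Icc x (x + w), Vs r (fun j =>
      ∑ i ∈ Finset.range (min j N), a i * e1 (s * Θ (u + (y + i * w)))) ^ 2 ≤
      C * ENNReal.ofReal (kr r ^ 6) * ENNReal.ofReal w * ∑ i ∈ Finset.range N, ‖a i‖ₑ ^ 2

/-- **WIV** (20 min; from `Pool.Agent.VRC.T_WIV`, first part): inside a window, `C` uniform. -/
def T_WIV : Prop := ∀ A : ℝ, 1 ≤ A → ∃ C : ℝ≥0, ∀ (r : ℝ), 2 < r → r ≤ 4 →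
  ∀ (lam d w : ℝ)
  (Θ Θ1 Θ2 : ℝ → ℝ) (s u : ℝ) (i : ℤ) (b b' h : ℝ → ℂ), Ph A lam d Θ Θ1 Θ2 →
  0 < lam → 0 < d → 0 < w → w ≤ d → w ^ 2 * lam ≤ 1 → (s = 1 ∨ s = -1) → Continuous h →
  (∀ (L : ℕ) (N : ℕ → ℝ), Monotone N → i * w ≤ N 0 → N L ≤ (i + 1) * w →
    (∀ x ∈ Icc (u + N 0) (u + N L), HasDerivAt b (b' x) x ∧ ‖b x‖ ≤ A ∧ ‖b' x‖ ≤ A / w) →
    ContinuousOn b' (Icc (u + N 0) (u + N L)) →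
    (∑ j ∈ Finset.range L,
      ‖∫ v in Ioc (N j) (N (j + 1)), e1 (s * Θ (u + v)) * b (u + v) * h v‖ₑ ^ r) ^ (1 / r) ≤
      C * NV r w h i (s * Θ1 (u + i * w)))

/-- **VCV** (60 min; from `Pool.Agent.VRC.T_WIV`, WIV, ACV, VCO, VCS, VCM): one strip, constant `C K⁶`. -/
def T_VCV : Prop := ∀ A : ℝ, 1 ≤ A → ∃ C : ℝ≥0, ∀ (r : ℝ), 2 < r → r ≤ 4 →
  ∀ (a d lam w : ℝ) (κ h : ℝ → ℂ),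
  0 < d → 0 < lam → StripD A a d lam κ → 0 < w → w ≤ d / 32 → 1 / A ≤ w ^ 2 * lam →
  w ^ 2 * lam ≤ 1 → Continuous h →
    ∫⁻ u, Vo r (FS κ a d h u) ^ 2 ≤ C * ENNReal.ofReal (kr r ^ 6) *
      ∑' i : ℤ, ∫⁻ X in {X : ℝ | lam * d / A ≤ |X| ∧ |X| ≤ A * (lam * d)}, NV r w h i X ^ 2

/-! ### decay -/

/-- **OFV** (45 min; from REX, `Pool.Agent.CRR.T_OFD`): far frequencies, `C` uniform. `V2²` as in `VRC/P_OFV.lean`;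
`∑ |Δ|^r ≤ (max |Δ|)^(r-2) ∑ |Δ|²`, so `NV² ≤ C NN^(2-4/r) (V2²)^(2/r)`; Hölder in `(i, X)` with the exponents `1-2/r`, `2/r`. -/
def T_OFV : Prop := ∃ C : ℝ≥0, ∀ (r : ℝ), 2 < r → r ≤ 4 →
  ∀ (w D G : ℝ) (Om : Set ℝ) (H : ℝ → ℂ), 0 < w → 0 < D → 0 ≤ G →
  MeasurableSet Om → HH H → (∀ X ∈ Om, ∀ s, H s ≠ 0 → D ≤ |s + X| ∧ |s| ≤ G * |s + X|) →
    ∑' i : ℤ, ∫⁻ X in Om, NV r w (fh H) i X ^ 2 ≤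
      C * volume Om *
        ENNReal.ofReal (((w * D ^ 2)⁻¹ + G * D⁻¹) ^ (1 - 2 / r) * (D⁻¹) ^ (2 / r)) *
        ∫⁻ s, ‖H s‖ₑ ^ 2

/-- **DIV** (20 min; from C4): constant `C K⁶`. -/
def T_DIV : Prop := ∃ C : ℝ≥0, ∀ (r : ℝ), 2 < r → r ≤ 4 → ∀ (w : ℝ) (H : ℝ → ℂ), 0 < w → HH H →
  ∑' i : ℤ, ∫⁻ X : ℝ, NV r w (fh H) i X ^ 2 ≤
    C * ENNReal.ofReal (kr r ^ 6) * ∫⁻ s, ‖H s‖ₑ ^ 2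

/-- **DEV** (45 min; from REX, CRR.SEQ, OFV, DIV). Far: total at most `C (M_k^{-1/2} + σ_j/σ_k)^(1-2/r)`, and
`M_k^{-1/2} ≤ (4/5)^{(k-j)/2} ≤ (9/10)^{k-j}`, `σ_j/σ_k ≤ (5/7)^{k-j}`. Near (`|k-j| ≤ C(A)`): DIV, and
`((9/10)^C(A))^(1-2/r) ≥ (9/10)^C(A)`. -/
def T_DEV : Prop := ∀ A : ℝ, 1 ≤ A → ∃ C : ℝ≥0, ∀ (r : ℝ), 2 < r → r ≤ 4 →
  ∀ (ν : ℝ) (k j : ℕ) (H : ℝ → ℂ), 0 ≤ ν →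
  HH H → (∀ s, H s ≠ 0 → s ∈ band ν j) →
    ∑' i : ℤ, ∫⁻ X in {X : ℝ | si ν k / A ≤ |X| ∧ |X| ≤ A * si ν k}, NV r (ww ν k) (fh H) i X ^ 2 ≤
      C * ENNReal.ofReal (kr r ^ 6 * ((9 / 10 : ℝ) ^ (k - j + (j - k))) ^ (1 - 2 / r)) *
        ∫⁻ s, ‖H s‖ₑ ^ 2

/-- **SDV** (30 min; from CRR.SEQ, CRR.PHS, VCV, DEV): constant `C K¹²`. -/
def T_SDV : Prop := ∃ C : ℝ≥0, ∀ (r : ℝ), 2 < r → r ≤ 4 →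
  ∀ (ν : ℝ) (J J' : ℝ → ℝ) (k j : ℕ) (H : ℝ → ℂ), 0 ≤ ν →
  NSol ν J J' → HH H → (∀ s, H s ≠ 0 → s ∈ band ν j) →
    ∫⁻ u, Vo r (FS (kap J) (aa ν k) (de ν k) (fh H) u) ^ 2 ≤
      C * ENNReal.ofReal (kr r ^ 12 * ((9 / 10 : ℝ) ^ (k - j + (j - k))) ^ (1 - 2 / r)) *
        ∫⁻ s, ‖H s‖ₑ ^ 2

/-! ### summation over the strips -/

/-- **PAV** (45 min; from REX, CRR.SEQ, SDV, VCO, VCM): with `q = (9/10)^(1-2/r)`, `∑_j q^{|k-j|/2} ≤ 40 K` (REX), twice: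
constant `C K¹⁴`. -/
def T_PAV : Prop := ∃ C : ℝ≥0, ∀ (r : ℝ), 2 < r → r ≤ 4 → ∀ (ν : ℝ) (J J' : ℝ → ℝ) (H : ℝ → ℂ),
  0 ≤ ν → NSol ν J J' → HH H →
    ∫⁻ u, ∑' k : ℕ, Vo r (FS (kap J) (aa ν k) (de ν k) (fh H) u) ^ 2 ≤
      C * ENNReal.ofReal (kr r ^ 14) * ∫⁻ s, ‖H s‖ₑ ^ 2

/-- **TAV** (30 min; from CRR.SEQ, CRR.SD, CRR.MUL, C4, VCS, VCM): constant `C K⁶`. -/
def T_TAV : Prop := ∃ C : ℝ≥0, ∀ (r : ℝ), 2 < r → r ≤ 4 → ∀ (ν : ℝ) (J J' : ℝ → ℝ) (H : ℝ → ℂ),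
  0 ≤ ν → NSol ν J J' → HH H →
    ∫⁻ u, Vs r (fun n => ∑ k ∈ Finset.range n, FA (kap J) (aa ν k) (de ν k) (fh H) u) ^ 2 ≤
      C * ENNReal.ofReal (kr r ^ 6) * ∫⁻ s, ‖H s‖ₑ ^ 2

/-- **HIV** (45 min; from CRR.SEQ, PAV, TAV): constant `C K¹⁴`. -/
def T_HIV : Prop := ∃ C : ℝ≥0, ∀ (r : ℝ), 2 < r → r ≤ 4 → ∀ (ν : ℝ) (J J' : ℝ → ℝ) (H : ℝ → ℂ),
  0 ≤ ν → NSol ν J J' → HH H →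
    ∫⁻ u, Vo r (fun V1 V2 => ∫ v in Ioc V1 V2 ∩ {v | xc ν ≤ u + v}, kap J (u + v) * fh H v) ^ 2 ≤
      C * ENNReal.ofReal (kr r ^ 14) * ∫⁻ s, ‖H s‖ₑ ^ 2

/-- **HAV** (45 min; from CRR.LOW, HIV, VCO, VCM): constant `C K¹⁴`. -/
def T_HAV : Prop := ∃ C : ℝ≥0, ∀ (r : ℝ), 2 < r → r ≤ 4 → ∀ (ν : ℝ) (J J' : ℝ → ℝ) (g : ℝ → ℂ),
  0 ≤ ν → NSol ν J J' → Measurable g →
    ∫⁻ u, Vo r (fun V1 V2 => ∫ v in Ioc V1 V2, kap J (u + v) * g v) ^ 2 ≤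
      C * ENNReal.ofReal (kr r ^ 14) * ∫⁻ v, ‖g v‖ₑ ^ 2

/-! ### `ℝⁿ` -/

/-- the `q`-variation in the radius of the ball partial sums with values in `L²` of the sphere of radius `r` -/
noncomputable def VS {n : ℕ} (q : ℝ) (f : E n → ℂ) (r : ℝ) : ℝ≥0∞ :=
  ⨆ (L : ℕ) (N : ℕ → ℝ) (_ : Monotone N), (∑ j ∈ Finset.range L,
    (∫⁻ θ, ‖S f (N (j + 1)) (r • (θ : E n)) - S f (N j) (r • (θ : E n))‖ₑ ^ 2 ∂(sg n)) ^ (q / 2)) ^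
      (1 / q)

/-- **RAV** (45 min; from REX, HAV, CRR.EIG, CRR.GM, CRN.POLN, CRN.DSN): see `VRC/P_RAV.lean` (Minkowski in `ℓ^(q/2)`, `q/2 ≥ 1`). -/
def T_RAV : Prop := ∀ n : ℕ, 2 ≤ n → ∃ C : ℝ≥0, ∀ (q : ℝ), 2 < q → q ≤ 4 →
  ∀ f : E n → ℂ, Nice f →
  ∫⁻ r in Ioi (0 : ℝ), VS q f r ^ 2 * ENNReal.ofReal (r ^ (n - 1)) ≤
    C * ENNReal.ofReal (kr q ^ 14) * ∫⁻ x, ‖f x‖ₑ ^ 2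

/-- **NVD** (45 min; from REX, CRN.DSN): see `VRC/P_NVD.lean`. The `l`-th term is at most
`(2^{s-l})^{1/2-1/q} VS q f r`, the sum over `l ≤ s` at most `C K (2^s)^{1/2-1/q} VS q f r`, `2^s ≤ 2 M`. -/
def T_NVD : Prop := ∃ C : ℝ≥0, ∀ (q : ℝ), 2 < q → q ≤ 4 →
  ∀ (n M : ℕ) (f : E n → ℂ) (r : ℝ) (R : ℕ → ℝ), 2 ≤ n → 1 ≤ M →
  Nice f → (∀ j, 0 < R j) →
    ∫⁻ θ, (⨆ (j : ℕ) (_ : j < M), ‖S f (R j) (r • (θ : E n))‖ₑ) ^ 2 ∂(sg n) ≤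
      C * ENNReal.ofReal (kr q ^ 2 * (M : ℝ) ^ (1 - 2 / q)) * VS q f r ^ 2

/-- **NVR** (45 min; from RAV, NVD, CRN.POLN). Choose `q` with `1 - 2/q = 1/(2 + log M)` (`≤ 1/2`, so `2 < q ≤ 4`):
`kr q = 2 + log M ≤ 4 log (2 + M)`, `M^(1-2/q) ≤ e`. POLN, NVD, RAV (see `VRC/P_NVF.lean`, first part). -/
def T_NVR : Prop := ∀ n : ℕ, 2 ≤ n → ∃ C : ℝ≥0, ∀ (M : ℕ) (f : E n → ℂ) (ρ : ℕ → ℝ → ℝ),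
  1 ≤ M → Nice f → (∀ j, Measurable (ρ j)) → (∀ j t, 0 < ρ j t) →
    ∫⁻ x, (⨆ (j : ℕ) (_ : j < M), ‖S f (ρ j ‖x‖) x‖ₑ) ^ 2 ≤
      C * ENNReal.ofReal (Real.log (2 + M) ^ 16) * ∫⁻ x, ‖f x‖ₑ ^ 2

/-- **NVF** (30 min; from NVR, CRR.OSC): the final theorem; see `VRC/P_NVF.lean`. -/
def T_NVF : Prop := ∀ n : ℕ, 2 ≤ n → ∃ C : ℝ≥0, ∀ (M : ℕ) (A : ℝ) (f : E n → ℂ) (ρ : ℕ → ℝ → ℝ)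
  (R : E n → ℝ), 1 ≤ M → 0 ≤ A → Nice f → (∀ j, Measurable (ρ j)) → (∀ j t, 0 < ρ j t) →
  Measurable R → (∀ x, 0 < R x) → (∀ x, x ≠ 0 → ∃ j < M, |R x - ρ j ‖x‖| ≤ A / ‖x‖) →
    ∫⁻ x, ‖S f (R x) x‖ₑ ^ 2 ≤
      C * ENNReal.ofReal (Real.log (2 + M) ^ 16 + Real.log (2 + A) ^ 2) * ∫⁻ x, ‖f x‖ₑ ^ 2

end Pool.Agent.VRR
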