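import Pool.Agent.VRR.Targets
import Pool.Agent.VRC.P_VAVB

set_option autoImplicit false

/-!
# VRR: AVB: averages of the model operators
-/

namespace Pool.Agent.VRR

open MeasureTheory Set ComplexConjugate Filter Topology
open scoped ENNReal NNReal
open Pool.Agent.CAR
open Pool.Agent.VRC (PQ Act vc vav GG2 NJ da ps Gm bp Yk)

namespace AVB_

open Pool.Agent.CAR.AVB_
open Pool.Agent.VRC.VAVB_ (swap3 pq_shift gg_shift n2_shift' int_E VH VH_bd meas_VH pt_eq int_VH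
  meas_Y')

theorem a_le {r : ℝ} (h0 : 0 < rc r) {L : ℕ} {a : ℕ → ℝ → ℂ} {h : ℝ} {E : Set ℝ}
    (hA : AB r L a h E) {j : ℕ} (hj : j < L) (x : ℝ) :
    ‖a j x‖ ≤ h * E.indicator (fun _ => (1 : ℝ)) x := by
  by_cases hx : x ∈ E
  · rw [indicator_of_mem hx, mul_one]
    have h1 : ‖a j x‖ ^ rc r ≤ h ^ rc r := by
      refine le_trans ?_ (hA.bd x)
      exact Finset.single_le_sum (f := fun j => ‖a j x‖ ^ rc r)
        (fun i _ => by positivity) (Finset.mem_range.2 hj)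
    exact (Real.rpow_le_rpow_iff (norm_nonneg _) hA.h0 h0).1 h1
  · rw [indicator_of_notMem hx, hA.z j hj x hx, norm_zero, mul_zero]

/-- the bound with the exponent `4/3` and another constant -/
theorem ab_old {r : ℝ} (h0 : 0 < rc r) {L : ℕ} {a : ℕ → ℝ → ℂ} {h : ℝ} {E : Set ℝ}
    (hA : AB r L a h E) : Pool.Agent.VRC.AB L a ((L : ℝ) ^ (3 / 4 : ℝ) * h) E where
  ma := hA.ma
  mE := hA.mE
  fE := hA.fE
  h0 := mul_nonneg (by positivity) hA.h0
  bd x := by
    have h1 : ∀ j ∈ Finset.range L, ‖a j x‖ ^ (4 / 3 : ℝ) ≤ h ^ (4 / 3 : ℝ) := by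
      intro j hj
      refine Real.rpow_le_rpow (norm_nonneg _) ?_ (by norm_num)
      refine (a_le h0 hA (Finset.mem_range.1 hj) x).trans ?_
      refine mul_le_of_le_one_right hA.h0 ?_
      by_cases hx : x ∈ E
      · rw [indicator_of_mem hx]
      · rw [indicator_of_notMem hx]; exact zero_le_one
    refine (Finset.sum_le_sum h1).trans (le_of_eq ?_)
    rw [Finset.sum_const, Finset.card_range, nsmul_eq_mul, Real.mul_rpow (by positivity) hA.h0,
      ← Real.rpow_mul (by positivity)]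
    norm_num
  z := hA.z

theorem ab_shift {r : ℝ} {L : ℕ} {a : ℕ → ℝ → ℂ} {h : ℝ} {E : Set ℝ} (hA : AB r L a h E)
    (c : ℝ) : AB r L (fun j y => a j y * e1 (c * y)) h E where
  ma j := (hA.ma j).mul (cont_e1.measurable.comp (measurable_const.mul measurable_id))
  mE := hA.mE
  fE := hA.fE
  h0 := hA.h0
  bd x := by
    simp only [norm_mul, norm_e1, mul_one]
    exact hA.bd x
  z j hj x hx := by rw [hA.z j hj x hx, zero_mul]

theorem na_shift (r : ℝ) (L : ℕ) (a : ℕ → ℝ → ℂ) (c : ℝ) :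
    na r L (fun j y => a j y * e1 (c * y)) = na r L a := by
  unfold na amp
  simp only [norm_mul, norm_e1, mul_one]

theorem bound {r : ℝ} (h0 : 0 < rc r) {A : ℝ} {ρ : ℝ → ℝ} (hB : Bmp A ρ) {g : ℝ → ℂ}
    (hG : GG2 g) {L : ℕ} {p q : ℕ → ℝ → ℝ} {a : ℕ → ℝ → ℂ} {h : ℝ} {E : Set ℝ}
    (hP : PQ L p q) (hA : AB r L a h E) {C : ℝ} (hC : ∀ φ Φ g : ℝ → ℂ, WPk A φ Φ → GG2 g →
    ∀ (L : ℕ) (p q : ℕ → ℝ → ℝ) (a : ℕ → ℝ → ℂ) (h : ℝ) (E : Set ℝ), PQ L p q →
    AB r L a h E → ∀ S : Finset Tile,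
      ∑ s ∈ S, ‖co Φ g s‖ * ‖vav φ L p q a s‖ ≤ C * n2 g * na r L a) (K n : ℕ) :
    ‖∫ x, ∑ j ∈ Finset.range L, a j x * ∑ k ∈ Finset.Icc (-(K : ℤ)) K,
      {y | 5 / 4 ≤ (2 : ℝ) ^ k * (p j y - q j y)}.indicator
        (fun y => Yk ρ g K n k (p j y) y) x‖ ≤ C * n2 g * na r L a := by
  have hA' := ab_old h0 hA
  obtain ⟨M, hM⟩ := VH_bd hB hG hP hA' K n
  simp_rw [pt_eq hB hG hP hA']
  rw [swap3 _ (fun x => M * E.indicator (fun _ => (1 : ℝ)) x) (meas_VH hB hG hP hA' K n)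
    (int_E hA.mE hA.fE M) hM]
  have h1 : ∀ θ : ℝ, ∀ v ∈ Set.uIoc (0 : ℝ) 1, ‖∫ x, VH ρ g L p q a K n θ v x‖ ≤
      C * n2 g * na r L a := by
    intro θ v hv
    rw [Set.uIoc_of_le zero_le_one] at hv
    rw [int_VH hB hG hP hA']
    refine (norm_sum_le _ _).trans ?_
    have h2 := hC (pk ρ v) (pkf ρ v) _ (hB.wp v ⟨hv.1.le, hv.2⟩)
      (gg_shift hG (2 ^ K * θ)) L _ _ _ h E (pq_shift hP (2 ^ K * θ))
      (ab_shift hA (2 ^ K * θ)) (Sn K n)
    rw [n2_shift', na_shift] at h2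
    refine le_trans (le_of_eq ?_) h2
    exact Finset.sum_congr rfl fun s _ => norm_mul _ _
  have h3 : ∀ θ ∈ Set.uIoc (0 : ℝ) 1, ‖∫ v in (0 : ℝ)..1, ∫ x, VH ρ g L p q a K n θ v x‖ ≤
      C * n2 g * na r L a := by
    intro θ _
    have := intervalIntegral.norm_integral_le_of_norm_le_const (a := (0 : ℝ)) (b := 1)
      (f := fun v => ∫ x, VH ρ g L p q a K n θ v x) (fun v hv => h1 θ v hv)
    simpa using this
  have := intervalIntegral.norm_integral_le_of_norm_le_const (a := (0 : ℝ)) (b := 1)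
    (f := fun θ => ∫ v in (0 : ℝ)..1, ∫ x, VH ρ g L p q a K n θ v x) h3
  simpa using this

end AVB_

open AVB_ in
open Pool.Agent.VRC.VAVB_ (int_E meas_Y') in
theorem p_AVB (h0 : T_REX) (h1 : T_MODS) (h2 : Pool.Agent.VRC.T_VYN) : T_AVB := by
  intro A ρ hB
  obtain ⟨C, hC0, hC⟩ := h1 A
  refine ⟨C, hC0, ?_⟩
  intro r hr hr4 g L p q a h E hG hP hA K
  have hrc : 0 < rc r := by
    have := (h0 r hr hr4).1
    linarith
  have hA' := ab_old hrc hA
  have hY := fun (k : ℤ) (ha : -(K : ℤ) ≤ k) (hb : k ≤ K) => h2 A ρ hB g hG.mg hG.ig K k ha hb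
  choose! Cy hCy using hY
  have hlim : Tendsto (fun n => ∫ x, ∑ j ∈ Finset.range L, a j x *
      ∑ k ∈ Finset.Icc (-(K : ℤ)) K, {y | 5 / 4 ≤ (2 : ℝ) ^ k * (p j y - q j y)}.indicator
        (fun y => Yk ρ g K n k (p j y) y) x) atTop
      (𝓝 (∫ x, ∑ j ∈ Finset.range L, a j x * ∑ k ∈ Finset.Icc (-(K : ℤ)) K,
        {y | 5 / 4 ≤ (2 : ℝ) ^ k * (p j y - q j y)}.indicator
        (fun y => ∫ ξ, g ξ * (Bt ρ ((2 : ℝ) ^ k) (p j y - ξ) : ℂ) * e1 (y * ξ)) x)) := by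
    refine tendsto_integral_of_dominated_convergence
      (fun x => (L * (h * ∑ k ∈ Finset.Icc (-(K : ℤ)) K, Cy k)) *
        E.indicator (fun _ => (1 : ℝ)) x) ?_ (int_E hA.mE hA.fE _) ?_ ?_
    · intro n
      exact (meas_Y' hB hG hP hA' K n).aestronglyMeasurable
    · intro n
      refine Eventually.of_forall fun x => ?_
      refine (norm_sum_le _ _).trans ?_
      have h3 : ∀ j ∈ Finset.range L, ‖a j x * ∑ k ∈ Finset.Icc (-(K : ℤ)) K,
          {y | 5 / 4 ≤ (2 : ℝ) ^ k * (p j y - q j y)}.indicator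
          (fun y => Yk ρ g K n k (p j y) y) x‖ ≤
          h * E.indicator (fun _ => (1 : ℝ)) x * ∑ k ∈ Finset.Icc (-(K : ℤ)) K, Cy k := by
        intro j hj
        rw [norm_mul]
        have h4 := a_le hrc hA (Finset.mem_range.1 hj) x
        refine mul_le_mul h4 ?_ (norm_nonneg _) ((norm_nonneg _).trans h4)
        refine (norm_sum_le _ _).trans (Finset.sum_le_sum fun k hk => ?_)
        refine (norm_indicator_le_norm_self _ _).trans ?_
        rw [Finset.mem_Icc] at hk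
        exact (hCy k hk.1 hk.2).1 n (p j x) x
      refine (Finset.sum_le_sum h3).trans (le_of_eq ?_)
      rw [Finset.sum_const, Finset.card_range, nsmul_eq_mul]
      ring
    · refine Eventually.of_forall fun x => ?_
      refine tendsto_finsetSum _ fun j _ => ?_
      refine Tendsto.const_mul _ ?_
      refine tendsto_finsetSum _ fun k hk => ?_
      rw [Finset.mem_Icc] at hk
      by_cases hx : x ∈ {y | 5 / 4 ≤ (2 : ℝ) ^ k * (p j y - q j y)}
      · simp only [indicator_of_mem hx]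
        exact (hCy k hk.1 hk.2).2 (p j x) x
      · simp only [indicator_of_notMem hx]
        exact tendsto_const_nhds
  exact le_of_tendsto hlim.norm (Eventually.of_forall fun n =>
    bound hrc hB hG hP hA (fun φ Φ g hw hg => hC r hr hr4 φ Φ g hw hg) K n)

end Pool.Agent.VRR
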