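import Pool.Agent.VRR.Targets
import Pool.Agent.VRC.P_VAVG

set_option autoImplicit false

/-!
# VRR, target AVG: summation over stopping intervals
-/

namespace Pool.Agent.VRR

open MeasureTheory Set
open scoped ENNReal NNReal
open Pool.Agent.CAR

namespace AVG_

theorem hoelder {r : ℝ} (hc : (rc r).HolderConjugate r) (h1 : 1 / rc r = 1 - 1 / r)
    (hm : rc r * (1 - 1 / r) = 1) (h0 : 0 ≤ 1 - 1 / r) (h0' : 0 ≤ 1 / r)
    {S : Set ℝ} {w : ℝ → ℝ≥0∞} (hw : Measurable w) {Q : ℝ≥0∞}
    (h : ∫⁻ y in S, w y ≤ Q * volume S) :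
    ∫⁻ y in S, w y ^ (1 - 1 / r) ≤ Q ^ (1 - 1 / r) * volume S := by
  have h2 := ENNReal.lintegral_mul_le_Lp_mul_Lq (volume.restrict S)
    (p := rc r) (q := r) hc
    (f := fun y => w y ^ (1 - 1 / r)) (g := fun _ => 1)
    (hw.pow_const _).aemeasurable aemeasurable_const
  have e1 : ∀ y, (w y ^ (1 - 1 / r)) ^ rc r = w y := fun y => by
    rw [← ENNReal.rpow_mul, mul_comm, hm, ENNReal.rpow_one]
  simp only [Pi.mul_apply, mul_one, e1, ENNReal.one_rpow, lintegral_const,
    Measure.restrict_apply MeasurableSet.univ, univ_inter, one_mul, h1] at h2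
  refine h2.trans ?_
  calc (∫⁻ y in S, w y) ^ (1 - 1 / r) * volume S ^ (1 / r)
      ≤ (Q * volume S) ^ (1 - 1 / r) * volume S ^ (1 / r) := by gcongr
    _ = Q ^ (1 - 1 / r) * volume S := by
        rw [ENNReal.mul_rpow_of_nonneg _ _ h0, mul_assoc,
          ← ENNReal.rpow_add_of_nonneg _ _ h0 h0', sub_add_cancel, ENNReal.rpow_one]

end AVG_

open Pool.Agent.VRC.VAVG_ Pool.Agent.CAR.AVG_ in
theorem p_AVG (h0 : T_REX) : T_AVG := by
  intro r hr2 hr4 κ _ hκ W Q w h H hW _ hw hh hH h1 h2 h3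
  obtain ⟨_, _, hr1, hrm, hrh, _, hrq, _, _, _, _, _, hrc, _⟩ := h0 r hr2 hr4
  have hs0 : 0 < 1 - 1 / r := by linarith
  have hs1 : 0 ≤ 1 / r := by linarith
  rw [lint0 hκ, lint hκ hW, ← ENNReal.tsum_mul_left]
  apply ENNReal.tsum_le_tsum
  intro p
  rcases (cell κ p).eq_empty_or_nonempty with he | ⟨y0, hc0⟩
  · rw [he]; simp
  · obtain ⟨e1, e2⟩ := cell_eq hκ hc0
    have hJ : ∀ x ∈ cell κ p, Jx κ x = cell κ p := fun x hx => by
      rw [(cell_eq hκ hx).2, e1]
    have hm := measurableSet_cell hκ p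
    by_cases h0 : ∀ y ∈ cell κ p, w y = 0
    · have h5 : ∫⁻ x in cell κ p, h x = 0 := by
        rw [setLIntegral_congr_fun (g := fun _ => 0) hm]
        · simp
        · intro y hy
          have := h2 y0 y (by rw [hJ y0 hc0]; exact hy)
          rw [h0 y hy, ENNReal.zero_rpow_of_pos hs0, zero_mul] at this
          exact le_antisymm this zero_le
      rw [h5]; exact zero_le
    · push Not at h0
      obtain ⟨y1, hy1, hw1⟩ := h0
      have hsub : cell κ p ⊆ W := fun x hx => h3 x y1 (by rw [hJ x hx]; exact hy1) hw1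
      rw [inter_eq_self_of_subset_right hsub]
      have hv0 : volume (cell κ p) ≠ 0 := by
        rw [e1, volume_dy]; simp; positivity
      have hvt : volume (cell κ p) ≠ ⊤ := by
        rw [e1, volume_dy]; exact ENNReal.ofReal_ne_top
      have g1 : ∀ x ∈ cell κ p, ∫⁻ y in cell κ p, h y ≤
          Q ^ (1 - 1 / r) * volume (cell κ p) * H x := by
        intro x hx
        calc ∫⁻ y in cell κ p, h y ≤ ∫⁻ y in cell κ p, w y ^ (1 - 1 / r) * H x := by
              apply setLIntegral_mono' hm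
              intro y hy
              exact h2 x y (by rw [hJ x hx]; exact hy)
          _ = (∫⁻ y in cell κ p, w y ^ (1 - 1 / r)) * H x :=
              lintegral_mul_const _ (hw.pow_const _)
          _ ≤ _ := by
              gcongr
              apply AVG_.hoelder hrc hr1 hrm hs0.le hs1 hw
              have := h1 y0
              rwa [hJ y0 hc0] at this
      have g2 : (∫⁻ y in cell κ p, h y) * volume (cell κ p) ≤
          (Q ^ (1 - 1 / r) * ∫⁻ x in cell κ p, H x) * volume (cell κ p) := by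
        calc (∫⁻ y in cell κ p, h y) * volume (cell κ p)
            = ∫⁻ x in cell κ p, (∫⁻ y in cell κ p, h y) := by rw [setLIntegral_const]
          _ ≤ ∫⁻ x in cell κ p, Q ^ (1 - 1 / r) * volume (cell κ p) * H x :=
              setLIntegral_mono' hm g1
          _ = Q ^ (1 - 1 / r) * volume (cell κ p) * ∫⁻ x in cell κ p, H x :=
              lintegral_const_mul _ hH
          _ = _ := by ring
      exact (ENNReal.mul_le_mul_iff_left hv0 hvt).1 g2

end Pool.Agent.VRR
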