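import Pool.Agent.VRR.Targets
import Pool.Agent.VRC.P_VBAS

set_option autoImplicit false

/-!
# VRR, target BAS: basic facts
-/

namespace Pool.Agent.VRR

open MeasureTheory Set ComplexConjugate Filter Topology
open scoped ENNReal NNReal
open Pool.Agent.CAR
open Pool.Agent.VRC (PQ Act vc vav GG2 NJ da ps Gm bp Yk)

namespace BAS_

variable {r : ℝ} {L : ℕ} {p q : ℕ → ℝ → ℝ} {a : ℕ → ℝ → ℂ} {h : ℝ} {E : Set ℝ}

lemma term_nonneg (U : Set ℝ) (j : ℕ) (x : ℝ) :
    0 ≤ (p j ⁻¹' U).indicator (fun y => ‖a j y‖ ^ rc r) x :=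
  indicator_nonneg (fun _ _ => Real.rpow_nonneg (norm_nonneg _) _) x

lemma vm_nonneg (U : Set ℝ) (x : ℝ) : 0 ≤ vm r L p a U x :=
  Finset.sum_nonneg fun j _ => term_nonneg U j x

lemma vc_le (hr : rc r ≠ 0) (hP : PQ L p q) (s : Tile) (x : ℝ) :
    ‖vc L p q a s x‖ ^ rc r ≤ vm r L p a s.up x := by
  by_cases hex : ∃ j < L, x ∈ Act p q s j
  · obtain ⟨j, hj, hx⟩ := hex
    have e : vc L p q a s x = a j x := by
      unfold vc
      rw [Finset.sum_eq_single j]
      · exact indicator_of_mem hx _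
      · intro i hi hij
        refine indicator_of_notMem (fun h1 => hij ?_) _
        exact VRC.VBAS_.uniq hP (Finset.mem_range.1 hi) hj h1 hx
      · intro h1
        exact absurd (Finset.mem_range.2 hj) h1
    rw [e]
    unfold vm
    refine le_trans (le_of_eq ?_) (Finset.single_le_sum (fun i _ => term_nonneg s.up i x)
      (Finset.mem_range.2 hj))
    have hm : x ∈ p j ⁻¹' s.up := hx.1
    rw [indicator_of_mem hm]
  · push Not at hex
    have e : vc L p q a s x = 0 := by
      unfold vc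
      refine Finset.sum_eq_zero fun j hj => ?_
      exact indicator_of_notMem (hex j (Finset.mem_range.1 hj)) _
    rw [e, norm_zero, Real.zero_rpow hr]
    exact vm_nonneg _ _

lemma vm_mono {U V : Set ℝ} (x : ℝ) (h : U ⊆ V) : vm r L p a U x ≤ vm r L p a V x := by
  unfold vm
  refine Finset.sum_le_sum fun j _ => ?_
  exact indicator_le_indicator_of_subset (preimage_mono h)
    (fun y => Real.rpow_nonneg (norm_nonneg _) _) x

lemma vm_le (hA : AB r L a h E) (U : Set ℝ) (x : ℝ) : vm r L p a U x ≤ h ^ rc r := by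
  refine le_trans ?_ (hA.bd x)
  unfold vm
  refine Finset.sum_le_sum fun j _ => ?_
  by_cases hx : x ∈ p j ⁻¹' U
  · rw [indicator_of_mem hx]
  · rw [indicator_of_notMem hx]
    exact Real.rpow_nonneg (norm_nonneg _) _

lemma vm_zero (hr : rc r ≠ 0) (hA : AB r L a h E) (U : Set ℝ) (x : ℝ) (hx : x ∉ E) :
    vm r L p a U x = 0 := by
  unfold vm
  refine Finset.sum_eq_zero fun j hj => ?_
  by_cases hm : x ∈ p j ⁻¹' U
  · rw [indicator_of_mem hm, hA.z j (Finset.mem_range.1 hj) x hx, norm_zero,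
      Real.zero_rpow hr]
  · rw [indicator_of_notMem hm]

lemma sum_le (I : Finset Tile) (U : Tile → Set ℝ) (V : Set ℝ) (x : ℝ)
    (hd : ∀ s ∈ I, ∀ t ∈ I, s ≠ t → Disjoint (U s) (U t)) (hV : ∀ s ∈ I, U s ⊆ V) :
    ∑ s ∈ I, vm r L p a (U s) x ≤ vm r L p a V x := by
  unfold vm
  rw [Finset.sum_comm]
  refine Finset.sum_le_sum fun j _ => ?_
  by_cases hex : ∃ s ∈ I, x ∈ p j ⁻¹' U s
  · obtain ⟨s, hs, hx⟩ := hex
    rw [Finset.sum_eq_single s]
    · have hxV : x ∈ p j ⁻¹' V := hV s hs hx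
      rw [indicator_of_mem hx, indicator_of_mem hxV]
    · intro t ht hts
      refine indicator_of_notMem (fun h1 => ?_) _
      exact Set.disjoint_left.1 (hd t ht s hs hts) h1 hx
    · intro h1
      exact absurd hs h1
  · push Not at hex
    rw [Finset.sum_eq_zero fun s hs => indicator_of_notMem (hex s hs) _]
    exact term_nonneg V j x

end BAS_

open BAS_ in
theorem p_BAS (h0 : T_REX) : T_BAS := by
  intro r hr2 hr4 L p q a h E hP hA
  have hr : rc r ≠ 0 := by
    have := (h0 r hr2 hr4).1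
    intro e
    rw [e] at this
    norm_num at this
  refine ⟨fun s i j x hi hj h1 h2 => VRC.VBAS_.uniq hP hi hj h1 h2, fun s x => vc_le hr hP s x,
    fun U V x hUV => vm_mono x hUV,
    fun U x => ⟨vm_nonneg U x, vm_le hA U x, fun hx => vm_zero hr hA U x hx⟩, fun s => ?_,
    fun U hU => ?_, fun I U V x hd hV => sum_le I U V x hd hV⟩
  · unfold vc
    exact Finset.measurable_fun_sum _ fun j _ =>
      (hA.ma j).indicator (VRC.VBAS_.meas_act hP s j)
  · unfold vm
    exact Finset.measurable_fun_sum _ fun j _ =>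
      (((hA.ma j).norm.pow_const _).indicator (hP.mp j hU))

end Pool.Agent.VRR
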