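import Pool.Agent.VRR.Targets
import Pool.Agent.VRC.P_VC4

set_option autoImplicit false

/-!
# VRR: the variation norm Carleson theorem, exponent `r`, from its linearised form
-/

namespace Pool.Agent.VRR

open MeasureTheory Set ComplexConjugate Filter Topology
open scoped ENNReal NNReal
open Pool.Agent.CAR
open Pool.Agent.VRC (PQ Act vc vav GG2)

namespace C4_

open CARL1_ CARS_
open Pool.Agent.VRC.VC4_ (Sq rsq rsq_mono ico_eq)

/-- the sum of the powers of order `r` of the increments -/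
noncomputable def Q (r : ℝ) (g : ℝ → ℂ) (L : ℕ) (N : ℕ → ℝ) (x : ℝ) : ℝ :=
  ∑ j ∈ Finset.range L, ‖hl g (N (j + 1)) x - hl g (N j) x‖ ^ r

theorem Q_nonneg (r : ℝ) (g : ℝ → ℂ) (L : ℕ) (N : ℕ → ℝ) (x : ℝ) : 0 ≤ Q r g L N x :=
  Finset.sum_nonneg fun _ _ => by positivity

theorem Q_const {r : ℝ} (hr : 0 < r) {g : ℝ → ℂ} {L L' : ℕ} (hL : L ≤ L') {N : ℕ → ℝ}
    (hN : ∀ j, L ≤ j → N (j + 1) = N j) (x : ℝ) : Q r g L' N x = Q r g L N x := by
  unfold Q
  symm
  refine Finset.sum_subset (Finset.range_mono hL) ?_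
  intro j _ hj
  have h1 : L ≤ j := by simpa using hj
  rw [hN j h1, sub_self, norm_zero, Real.zero_rpow hr.ne']

theorem enn_eq {r : ℝ} (hr : 0 < r) (g : ℝ → ℂ) (L : ℕ) (N : ℕ → ℝ) (x : ℝ) :
    (∑ j ∈ Finset.range L, ‖hl g (N (j + 1)) x - hl g (N j) x‖ₑ ^ r) ^ (1 / r) =
      ENNReal.ofReal (Q r g L N x ^ (1 / r)) := by
  rw [← ENNReal.ofReal_rpow_of_nonneg (Q_nonneg _ _ _ _ _) (by positivity), Q,
    ENNReal.ofReal_sum_of_nonneg (fun _ _ => by positivity)]
  congr 1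
  refine Finset.sum_congr rfl fun j _ => ?_
  rw [← ENNReal.ofReal_rpow_of_nonneg (norm_nonneg _) hr.le, ofReal_norm]

theorem Q_cont {r : ℝ} (hr : 0 < r) {g : ℝ → ℂ} (mg : Measurable g) (ig : Integrable g) (L : ℕ)
    (x : ℝ) : Continuous fun N : ℕ → ℝ => Q r g L N x := by
  unfold Q
  refine continuous_finsetSum _ fun j _ => ?_
  refine Continuous.rpow_const ?_ fun _ => Or.inr hr.le
  refine Continuous.norm ?_
  exact ((hl_cont mg ig x).comp (continuous_apply (j + 1))).sub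
    ((hl_cont mg ig x).comp (continuous_apply j))

theorem VC_le {r : ℝ} (hr : 0 < r) {g : ℝ → ℂ} (mg : Measurable g) (ig : Integrable g) (x : ℝ) :
    VC r g x ≤ ⨆ i : Sq, ENNReal.ofReal (Q r g i.1.1 (rsq i) x ^ (1 / r)) := by
  unfold VC
  refine iSup_le fun L => iSup_le fun N => iSup_le fun hN => ?_
  have e : (∑ j ∈ Finset.range L, ‖∫ ξ in Ico (N j) (N (j + 1)), g ξ * e1 (x * ξ)‖ₑ ^ r) =
      ∑ j ∈ Finset.range L, ‖hl g (N (j + 1)) x - hl g (N j) x‖ₑ ^ r :=
    Finset.sum_congr rfl fun j _ => by rw [ico_eq mg ig x (hN (Nat.le_succ j))]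
  rw [e, enn_eq hr]
  -- rational approximation
  have ht : Tendsto (fun m : ℕ => fun j : ℕ => (⌊((m : ℝ) + 1) * N j⌋ : ℝ) / ((m : ℝ) + 1)) atTop
      (𝓝 N) := by
    rw [tendsto_pi_nhds]
    intro j
    rw [tendsto_iff_norm_sub_tendsto_zero]
    refine squeeze_zero (fun _ => norm_nonneg _) (fun m => ?_)
      tendsto_one_div_add_atTop_nhds_zero_nat
    have hm : (0 : ℝ) < (m : ℝ) + 1 := by positivity
    have e1' : (⌊((m : ℝ) + 1) * N j⌋ : ℝ) / ((m : ℝ) + 1) - N j =
        ((⌊((m : ℝ) + 1) * N j⌋ : ℝ) - ((m : ℝ) + 1) * N j) / ((m : ℝ) + 1) := by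
      field_simp
    rw [e1', norm_div, Real.norm_of_nonneg hm.le]
    refine div_le_div_of_nonneg_right ?_ hm.le
    rw [Real.norm_eq_abs, abs_le]
    have h1 := Int.floor_le (((m : ℝ) + 1) * N j)
    have h2 := Int.lt_floor_add_one (((m : ℝ) + 1) * N j)
    constructor <;> linarith
  have hc : Continuous fun N : ℕ → ℝ => ENNReal.ofReal (Q r g L N x ^ (1 / r)) :=
    ENNReal.continuous_ofReal.comp
      ((Q_cont hr mg ig L x).rpow_const fun _ => Or.inr (by positivity))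
  refine le_of_tendsto' ((hc.tendsto N).comp ht) fun m => ?_
  have hm : (0 : ℝ) < (m : ℝ) + 1 := by positivity
  have hm' : (0 : ℚ) < (m : ℚ) + 1 := by positivity
  let i : Sq := ⟨⟨L, fun j => (⌊((m : ℝ) + 1) * N j⌋ : ℚ) / ((m : ℚ) + 1)⟩, by
    intro a b hab
    have h1 : N (a : ℕ) ≤ N (b : ℕ) := hN hab
    have h2 : ⌊((m : ℝ) + 1) * N a⌋ ≤ ⌊((m : ℝ) + 1) * N b⌋ :=
      Int.floor_le_floor (mul_le_mul_of_nonneg_left h1 hm.le)
    have h3 : (⌊((m : ℝ) + 1) * N a⌋ : ℚ) ≤ (⌊((m : ℝ) + 1) * N b⌋ : ℚ) := by exact_mod_cast h2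
    exact div_le_div_of_nonneg_right h3 hm'.le⟩
  have hi : ∀ j, j ≤ L → rsq i j = (⌊((m : ℝ) + 1) * N j⌋ : ℝ) / ((m : ℝ) + 1) := by
    intro j hj
    have hmin : min j L = j := min_eq_left hj
    show (((⌊((m : ℝ) + 1) * N (min j L)⌋ : ℚ) / ((m : ℚ) + 1) : ℚ) : ℝ) = _
    rw [hmin]
    push_cast
    rfl
  have hQ : Q r g L (fun j : ℕ => (⌊((m : ℝ) + 1) * N j⌋ : ℝ) / ((m : ℝ) + 1)) x =
      Q r g i.1.1 (rsq i) x := by
    show Q r g L _ x = Q r g L (rsq i) x
    unfold Q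
    refine Finset.sum_congr rfl fun j hj => ?_
    have hj' : j < L := Finset.mem_range.1 hj
    rw [hi j hj'.le, hi (j + 1) hj']
  show ENNReal.ofReal (Q r g L (fun j : ℕ => (⌊((m : ℝ) + 1) * N j⌋ : ℝ) / ((m : ℝ) + 1)) x
    ^ (1 / r)) ≤ _
  rw [hQ]
  exact le_iSup (fun i : Sq => ENNReal.ofReal (Q r g i.1.1 (rsq i) x ^ (1 / r))) i

theorem Q_meas {r : ℝ} {g : ℝ → ℂ} {L : ℕ} {N : ℕ → ℝ → ℝ}
    (h3 : ∀ j, Measurable fun x => hl g (N j x) x) :
    Measurable fun x => Q r g L (fun j => N j x) x := by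
  unfold Q
  exact Finset.measurable_fun_sum _ fun j _ => (((h3 (j + 1)).sub (h3 j)).norm).pow_const r

/-- a measurable maximiser over a finite set -/
theorem sel (r : ℝ) {g : ℝ → ℂ} (mg : Measurable g) (L : ℕ) (S : Finset Sq) :
    ∃ N : ℕ → ℝ → ℝ, (∀ j, Measurable (N j)) ∧ (∀ x, Monotone fun j => N j x) ∧
      (∀ j, Measurable fun x => hl g (N j x) x) ∧
      ∀ x, ∀ i ∈ S, Q r g L (rsq i) x ≤ Q r g L (fun j => N j x) x := by
  classical
  induction S using Finset.induction_on with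
  | empty =>
    refine ⟨fun _ _ => 0, fun _ => measurable_const, fun _ => monotone_const,
      fun _ => hl_meas mg 0, fun x i hi => ?_⟩
    simp at hi
  | insert a S ha ih =>
    obtain ⟨N, h1, h2, h3, h4⟩ := ih
    have hm : MeasurableSet {x | Q r g L (fun j => N j x) x ≤ Q r g L (rsq a) x} :=
      measurableSet_le (Q_meas h3) (Q_meas (N := fun j _ => rsq a j) fun j => hl_meas mg _)
    refine ⟨fun j x => if Q r g L (fun j => N j x) x ≤ Q r g L (rsq a) x then rsq a j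
      else N j x, fun j => Measurable.ite hm measurable_const (h1 j), fun x => ?_,
      fun j => ?_, ?_⟩
    · dsimp only
      split_ifs
      · exact rsq_mono a
      · exact h2 x
    · have e : (fun x => hl g (if Q r g L (fun j => N j x) x ≤ Q r g L (rsq a) x then rsq a j
          else N j x) x) =
          fun x => if Q r g L (fun j => N j x) x ≤ Q r g L (rsq a) x then hl g (rsq a j) x
            else hl g (N j x) x := by
        funext x
        split_ifs <;> rfl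
      rw [e]
      exact Measurable.ite hm (hl_meas mg _) (h3 j)
    · intro x i hi
      dsimp only
      split_ifs with h
      · rcases Finset.mem_insert.1 hi with rfl | hi
        · exact le_refl _
        · exact (h4 x i hi).trans h
      · rcases Finset.mem_insert.1 hi with rfl | hi
        · exact le_of_lt (not_le.1 h)
        · exact h4 x i hi

theorem Q_le {r : ℝ} (hr : 0 < r) {g : ℝ → ℂ} (ig : Integrable g) (L : ℕ) (N : ℕ → ℝ) (x : ℝ) :
    Q r g L N x ≤ L * (2 * ∫ ξ, ‖g ξ‖) ^ r := by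
  unfold Q
  refine (Finset.sum_le_card_nsmul _ _ ((2 * ∫ ξ, ‖g ξ‖) ^ r) fun j _ => ?_).trans_eq ?_
  · refine Real.rpow_le_rpow (norm_nonneg _) ?_ hr.le
    refine (norm_sub_le _ _).trans ?_
    have h1 := hl_le ig (N (j + 1)) x
    have h2 := hl_le ig (N j) x
    linarith
  · rw [Finset.card_range, nsmul_eq_mul]

/-- the bound on a set of finite measure, for a measurable choice of the sequence -/
theorem core {r : ℝ} (hr : 2 < r) {C : ℝ} (hC : 0 < C)
    (h : ∀ (g : ℝ → ℂ) (L : ℕ) (p q : ℕ → ℝ → ℝ)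
      (a : ℕ → ℝ → ℂ) (h : ℝ) (E : Set ℝ), GG2 g → PQ L p q → AB r L a h E →
      ‖∫ x, ∑ j ∈ Finset.range L, a j x * ∫ ξ in Ico (q j x) (p j x), g ξ * e1 (x * ξ)‖ ≤
        C * n2 g * na r L a)
    {g : ℝ → ℂ} (hg : GG2 g) (L : ℕ)
    {N : ℕ → ℝ → ℝ} (h1 : ∀ j, Measurable (N j)) (h2 : ∀ x, Monotone fun j => N j x)
    (h3 : ∀ j, Measurable fun x => hl g (N j x) x)
    {E : Set ℝ} (mE : MeasurableSet E) (fE : volume E ≠ ⊤) :
    ∫ x in E, Q r g L (fun j => N j x) x ^ (2 / r) ≤ C ^ 2 * n2 g ^ 2 := by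
  have hr0 : 0 < r := by linarith
  have hr1 : 0 < r - 1 := by linarith
  have hrc : 0 < rc r := by unfold rc; positivity
  have mg := hg.mg
  have ig := hg.ig
  set D : ℕ → ℝ → ℂ := fun j x => hl g (N (j + 1) x) x - hl g (N j x) x with hD
  set q : ℝ → ℝ := fun x => Q r g L (fun j => N j x) x with hq
  have q0 : ∀ x, 0 ≤ q x := fun x => Q_nonneg _ _ _ _ _
  have mq : Measurable q := Q_meas h3
  have mD : ∀ j, Measurable (D j) := fun j => (h3 (j + 1)).sub (h3 j)
  have qD : ∀ x, q x = ∑ j ∈ Finset.range L, ‖D j x‖ ^ r := fun x => rfl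
  set a : ℕ → ℝ → ℂ := fun j => E.indicator fun x =>
    conj (D j x) * ((‖D j x‖ ^ (r - 2) / q x ^ (1 - 2 / r) : ℝ) : ℂ) with ha
  have na' : ∀ j, ∀ x ∈ E, ‖a j x‖ = ‖D j x‖ ^ (r - 1) / q x ^ (1 - 2 / r) := by
    intro j x hx
    have hq' : 0 ≤ q x ^ (1 - 2 / r) := Real.rpow_nonneg (q0 x) _
    have hpow : ‖D j x‖ * ‖D j x‖ ^ (r - 2) = ‖D j x‖ ^ (r - 1) := by
      have h7 := Real.rpow_one_add' (norm_nonneg (D j x)) (y := r - 2) (by linarith)
      rw [← h7]
      congr 1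
      ring
    rw [ha]
    dsimp only
    rw [indicator_of_mem hx, norm_mul, RCLike.norm_conj, Complex.norm_real,
      Real.norm_of_nonneg (by positivity), ← mul_div_assoc, hpow]
  have sa : ∀ x ∈ E, ∑ j ∈ Finset.range L, ‖a j x‖ ^ rc r = q x ^ (1 / (r - 1)) := by
    intro x hx
    have e1' : ∀ j ∈ Finset.range L, ‖a j x‖ ^ rc r =
        ‖D j x‖ ^ r / q x ^ ((r - 2) / (r - 1)) := by
      intro j _
      rw [na' j x hx, Real.div_rpow (by positivity) (Real.rpow_nonneg (q0 x) _),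
        ← Real.rpow_mul (q0 x), ← Real.rpow_mul (norm_nonneg _)]
      congr 2
      · unfold rc
        field_simp
      · unfold rc
        field_simp
    rw [Finset.sum_congr rfl e1', ← Finset.sum_div, ← qD x]
    rcases eq_or_lt_of_le (q0 x) with h0 | h0
    · rw [← h0, zero_div, Real.zero_rpow (by positivity)]
    · rw [div_eq_iff (Real.rpow_pos_of_pos h0 _).ne', ← Real.rpow_add h0]
      have e2 : 1 / (r - 1) + (r - 2) / (r - 1) = 1 := by
        field_simp
        ring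
      rw [e2, Real.rpow_one]
  set B : ℝ := L * (2 * ∫ ξ, ‖g ξ‖) ^ r with hB
  have B0 : 0 ≤ B := by
    have : 0 ≤ ∫ ξ, ‖g ξ‖ := integral_nonneg fun _ => norm_nonneg _
    positivity
  have hAB : AB r L a (B ^ (1 / r)) E := by
    refine ⟨fun j => ?_, mE, fE, Real.rpow_nonneg B0 _, fun x => ?_, fun j _ x hx => ?_⟩
    · refine Measurable.indicator ?_ mE
      exact (Complex.continuous_conj.measurable.comp (mD j)).mul
        (Complex.measurable_ofReal.comp (((mD j).norm.pow_const _).div (mq.pow_const _)))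
    · have e0 : (1 / r) * rc r = 1 / (r - 1) := by
        unfold rc
        field_simp
      rw [← Real.rpow_mul B0, e0]
      by_cases hx : x ∈ E
      · rw [sa x hx]
        exact Real.rpow_le_rpow (q0 x) (Q_le hr0 ig L _ x) (by positivity)
      · have e1' : ∀ j ∈ Finset.range L, ‖a j x‖ ^ rc r = 0 := by
          intro j _
          rw [ha]
          dsimp only
          rw [indicator_of_notMem hx, norm_zero, Real.zero_rpow hrc.ne']
        rw [Finset.sum_eq_zero e1']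
        exact Real.rpow_nonneg B0 _
    · rw [ha]
      dsimp only
      rw [indicator_of_notMem hx]
  have hPQ : PQ L (fun j => N (j + 1)) N := by
    refine ⟨fun j => h1 _, h1, fun j _ x => h2 x (Nat.le_succ j), fun i _ j _ hij x => ?_⟩
    exact h2 x hij
  have h5 := h g L _ _ a _ E hg hPQ hAB
  set I : ℝ := ∫ x in E, q x ^ (2 / r) with hI
  have hI0 : 0 ≤ I := integral_nonneg fun x => Real.rpow_nonneg (q0 x) _
  have e1' : (fun x => ∑ j ∈ Finset.range L, a j x *
      ∫ ξ in Ico (N j x) (N (j + 1) x), g ξ * e1 (x * ξ)) =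
      E.indicator fun x => ((q x ^ (2 / r) : ℝ) : ℂ) := by
    funext x
    by_cases hx : x ∈ E
    · rw [indicator_of_mem hx]
      have e2 : ∀ j ∈ Finset.range L, a j x *
          ∫ ξ in Ico (N j x) (N (j + 1) x), g ξ * e1 (x * ξ) =
          ((‖D j x‖ ^ r / q x ^ (1 - 2 / r) : ℝ) : ℂ) := by
        intro j _
        have hpow : ‖D j x‖ ^ 2 * ‖D j x‖ ^ (r - 2) = ‖D j x‖ ^ r := by
          have h7 := Real.rpow_add' (norm_nonneg (D j x)) (y := 2) (z := r - 2) (by linarith)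
          rw [← Real.rpow_natCast]
          push_cast
          rw [← h7]
          congr 1
          ring
        rw [ico_eq mg ig x (h2 x (Nat.le_succ j)), ha]
        dsimp only
        rw [indicator_of_mem hx]
        change conj (D j x) * ((‖D j x‖ ^ (r - 2) / q x ^ (1 - 2 / r) : ℝ) : ℂ) * D j x = _
        rw [mul_right_comm, mul_comm (conj _) (D j x), Complex.mul_conj,
          Complex.normSq_eq_norm_sq, ← Complex.ofReal_mul, ← mul_div_assoc, hpow]
      rw [Finset.sum_congr rfl e2, ← Complex.ofReal_sum, ← Finset.sum_div, ← qD x]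
      congr 1
      rcases eq_or_lt_of_le (q0 x) with h0 | h0
      · rw [← h0, zero_div, Real.zero_rpow (by positivity)]
      · rw [div_eq_iff (Real.rpow_pos_of_pos h0 _).ne', ← Real.rpow_add h0]
        have e2 : 2 / r + (1 - 2 / r) = 1 := by ring
        rw [e2, Real.rpow_one]
    · rw [indicator_of_notMem hx]
      refine Finset.sum_eq_zero fun j _ => ?_
      rw [ha]
      dsimp only
      rw [indicator_of_notMem hx, zero_mul]
  have e3 : ∫ x, amp r L a x ^ 2 = I := by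
    have e : (fun x => amp r L a x ^ 2) = E.indicator fun x => q x ^ (2 / r) := by
      funext x
      unfold amp
      by_cases hx : x ∈ E
      · rw [indicator_of_mem hx, sa x hx, ← Real.rpow_mul (q0 x), ← Real.rpow_natCast,
          ← Real.rpow_mul (q0 x)]
        congr 1
        push_cast
        field_simp
      · rw [indicator_of_notMem hx]
        have e1' : ∀ j ∈ Finset.range L, ‖a j x‖ ^ rc r = 0 := by
          intro j _
          rw [ha]
          dsimp only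
          rw [indicator_of_notMem hx, norm_zero, Real.zero_rpow hrc.ne']
        have e2 : (1 : ℝ) - 1 / r ≠ 0 := by
          have : 1 / r < 1 := by rw [div_lt_one hr0]; linarith
          linarith
        rw [Finset.sum_eq_zero e1', Real.zero_rpow e2]
        norm_num
    rw [e, integral_indicator mE]
  have e4 : na r L a = Real.sqrt I := by
    rw [na, e3]
  rw [e1', integral_indicator mE, integral_complex_ofReal, Complex.norm_real,
    Real.norm_of_nonneg hI0, e4] at h5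
  have hn : 0 ≤ n2 g := by unfold n2; positivity
  have h8 : Real.sqrt I ≤ C * n2 g := by
    by_cases h0 : Real.sqrt I = 0
    · rw [h0]; positivity
    · have hp : 0 < Real.sqrt I := lt_of_le_of_ne (Real.sqrt_nonneg _) (Ne.symm h0)
      have h9 : Real.sqrt I * Real.sqrt I ≤ C * n2 g * Real.sqrt I := by
        rw [Real.mul_self_sqrt hI0]; exact h5
      exact le_of_mul_le_mul_right h9 hp
  calc I = Real.sqrt I ^ 2 := (Real.sq_sqrt hI0).symm
    _ ≤ (C * n2 g) ^ 2 := pow_le_pow_left₀ (Real.sqrt_nonneg _) h8 2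
    _ = C ^ 2 * n2 g ^ 2 := by ring

/-- the square of the root of order `r` -/
theorem sq_root {r t : ℝ} (ht : 0 ≤ t) :
    ENNReal.ofReal (t ^ (1 / r)) ^ 2 = ENNReal.ofReal (t ^ (2 / r)) := by
  rw [← ENNReal.ofReal_pow (Real.rpow_nonneg ht _), ← Real.rpow_natCast, ← Real.rpow_mul ht]
  congr 2
  push_cast
  ring

/-- the bound on a set of finite measure, as a lower integral -/
theorem coreL {r : ℝ} (hr : 2 < r) {C : ℝ} (hC : 0 < C)
    (h : ∀ (g : ℝ → ℂ) (L : ℕ) (p q : ℕ → ℝ → ℝ)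
      (a : ℕ → ℝ → ℂ) (h : ℝ) (E : Set ℝ), GG2 g → PQ L p q → AB r L a h E →
      ‖∫ x, ∑ j ∈ Finset.range L, a j x * ∫ ξ in Ico (q j x) (p j x), g ξ * e1 (x * ξ)‖ ≤
        C * n2 g * na r L a)
    {g : ℝ → ℂ} (hg : GG2 g) (L : ℕ)
    {N : ℕ → ℝ → ℝ} (h1 : ∀ j, Measurable (N j)) (h2 : ∀ x, Monotone fun j => N j x)
    (h3 : ∀ j, Measurable fun x => hl g (N j x) x)
    {E : Set ℝ} (mE : MeasurableSet E) (fE : volume E ≠ ⊤) :
    ∫⁻ x in E, ENNReal.ofReal (Q r g L (fun j => N j x) x ^ (1 / r)) ^ 2 ≤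
      ENNReal.ofReal (C ^ 2) * ∫⁻ ξ, ‖g ξ‖ₑ ^ 2 := by
  have hr0 : 0 < r := by linarith
  have hi : IntegrableOn (fun x => Q r g L (fun j => N j x) x ^ (2 / r)) E := by
    refine Measure.integrableOn_of_bounded fE
      ((Q_meas h3).pow_const (2 / r)).aestronglyMeasurable
      (M := (L * (2 * ∫ ξ, ‖g ξ‖) ^ r) ^ (2 / r)) (ae_of_all _ fun x => ?_)
    rw [Real.norm_of_nonneg (Real.rpow_nonneg (Q_nonneg _ _ _ _ _) _)]
    exact Real.rpow_le_rpow (Q_nonneg _ _ _ _ _) (Q_le hr0 hg.ig L _ x) (by positivity)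
  have e2 : ∫⁻ x in E, ENNReal.ofReal (Q r g L (fun j => N j x) x ^ (1 / r)) ^ 2 =
      ENNReal.ofReal (∫ x in E, Q r g L (fun j => N j x) x ^ (2 / r)) := by
    rw [ofReal_integral_eq_lintegral_ofReal hi
      (ae_of_all _ fun _ => Real.rpow_nonneg (Q_nonneg _ _ _ _ _) _)]
    exact lintegral_congr fun x => sq_root (Q_nonneg _ _ _ _ _)
  rw [e2, ← ofReal_n2_sq hg.sg, ← ENNReal.ofReal_mul (sq_nonneg C)]
  exact ENNReal.ofReal_le_ofReal (core hr hC h hg L h1 h2 h3 mE fE)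

/-- the bound on the whole line -/
theorem coreW {r : ℝ} (hr : 2 < r) {C : ℝ} (hC : 0 < C)
    (h : ∀ (g : ℝ → ℂ) (L : ℕ) (p q : ℕ → ℝ → ℝ)
      (a : ℕ → ℝ → ℂ) (h : ℝ) (E : Set ℝ), GG2 g → PQ L p q → AB r L a h E →
      ‖∫ x, ∑ j ∈ Finset.range L, a j x * ∫ ξ in Ico (q j x) (p j x), g ξ * e1 (x * ξ)‖ ≤
        C * n2 g * na r L a)
    {g : ℝ → ℂ} (hg : GG2 g) (L : ℕ)
    {N : ℕ → ℝ → ℝ} (h1 : ∀ j, Measurable (N j)) (h2 : ∀ x, Monotone fun j => N j x)
    (h3 : ∀ j, Measurable fun x => hl g (N j x) x) :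
    ∫⁻ x, ENNReal.ofReal (Q r g L (fun j => N j x) x ^ (1 / r)) ^ 2 ≤
      ENNReal.ofReal (C ^ 2) * ∫⁻ ξ, ‖g ξ‖ₑ ^ 2 := by
  have hc : AECover (volume : Measure ℝ) atTop (fun R : ℝ => Icc (-R) R) :=
    aecover_Icc tendsto_neg_atTop_atBot tendsto_id
  have ht := hc.lintegral_tendsto_of_countably_generated
    (f := fun x => ENNReal.ofReal (Q r g L (fun j => N j x) x ^ (1 / r)) ^ 2)
    (((Q_meas h3).pow_const _).ennreal_ofReal.pow_const 2).aemeasurable
  refine le_of_tendsto' ht fun R => ?_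
  exact coreL hr hC h hg L h1 h2 h3 measurableSet_Icc (by simp)

end C4_

open CARL1_ CARS_ C4_ in
open Pool.Agent.VRC.VC4_ (Sq rsq rsq_mono ico_eq) in
/-- **C4** -/
theorem p_C4 (_h0 : T_REX) (h1 : T_CAR) : T_C4 := by
  obtain ⟨C, hC, h⟩ := h1
  refine ⟨(C ^ 2).toNNReal, fun r hr hr4 g hg => ?_⟩
  have hr0 : 0 < r := by linarith
  have hk : 0 < kr r := by
    unfold kr
    exact div_pos hr0 (by linarith)
  have hCk : 0 < C * kr r ^ 3 := by positivity
  have hcon : ENNReal.ofReal ((C * kr r ^ 3) ^ 2) =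
      ((C ^ 2).toNNReal : ℝ≥0∞) * ENNReal.ofReal (kr r ^ 6) := by
    have e1 : (C * kr r ^ 3) ^ 2 = C ^ 2 * kr r ^ 6 := by ring
    rw [e1, ENNReal.ofReal_mul (by positivity)]
    rfl
  rw [← hcon]
  have mg := hg.mg
  have ig := hg.ig
  have e0 : ∀ x, VC r g x ^ 2 ≤ ⨆ S : Finset Sq,
      (⨆ i ∈ S, ENNReal.ofReal (Q r g i.1.1 (rsq i) x ^ (1 / r))) ^ 2 := by
    intro x
    refine (pow_le_pow_left' (VC_le hr0 mg ig x) 2).trans ?_
    rw [iSup_eq_iSup_finset, sq_iSup]
  refine (lintegral_mono e0).trans ?_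
  rw [lintegral_iSup_directed]
  · refine iSup_le fun S => ?_
    obtain ⟨N, k1, k2, k3, k4⟩ := sel r mg (S.sup fun i => i.1.1) S
    have e2 : ∀ x, (⨆ i ∈ S, ENNReal.ofReal (Q r g i.1.1 (rsq i) x ^ (1 / r))) ≤
        ENNReal.ofReal (Q r g (S.sup fun i => i.1.1) (fun j => N j x) x ^ (1 / r)) := by
      intro x
      refine iSup_le fun i => iSup_le fun hi => ?_
      refine ENNReal.ofReal_le_ofReal (Real.rpow_le_rpow (Q_nonneg _ _ _ _ _) ?_ (by positivity))
      refine le_trans (le_of_eq ?_) (k4 x i hi)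
      refine (Q_const hr0 (Finset.le_sup (f := fun i : Sq => i.1.1) hi) (fun j hj => ?_) x).symm
      have hidx : (⟨min (j + 1) i.1.1, by omega⟩ : Fin (i.1.1 + 1)) = ⟨min j i.1.1, by omega⟩ :=
        Fin.ext ((min_eq_right (hj.trans (Nat.le_succ j))).trans (min_eq_right hj).symm)
      exact congrArg (fun k => ((i.1.2 k : ℚ) : ℝ)) hidx
    refine (lintegral_mono fun x => pow_le_pow_left' (e2 x) 2).trans ?_
    exact coreW hr hCk (fun g L p q a h' E hg hPQ hAB => h r hr hr4 g L p q a h' E hg hPQ hAB)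
      hg _ k1 k2 k3
  · intro S
    refine Measurable.aemeasurable ?_
    refine (Measurable.biSup _ (Finset.countable_toSet S) fun i _ => ?_).pow_const 2
    exact ((Q_meas (N := fun j _ => rsq i j) fun j => hl_meas mg _).pow_const _).ennreal_ofReal
  · intro S T
    classical
    refine ⟨S ∪ T, fun x => ?_, fun x => ?_⟩
    · exact pow_le_pow_left' (biSup_mono fun q hq => Finset.mem_union_left _ hq) 2
    · exact pow_le_pow_left' (biSup_mono fun q hq => Finset.mem_union_right _ hq) 2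

end Pool.Agent.VRR
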