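import Pool.Agent.VRR.Targets
import Pool.Agent.VRC.P_VCAR

set_option autoImplicit false

/-!
# VRR: the linearised theorem by absorption (CAR)
-/

namespace Pool.Agent.VRR

open MeasureTheory Set ComplexConjugate Filter Topology
open scoped ENNReal NNReal
open Pool.Agent.CAR
open Pool.Agent.VRC (PQ Act vc vav GG2 NJ da ps Gm bp Yk)
open Pool.Agent.VRC.VCAR_ (II int_g int_g1 norm_II Gm_bdd Gm_meas point meas_II meas_M norm_M
  ind_int)

namespace CAR_

/-- the exponents -/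
structure RR (r : ℝ) : Prop where
  p : 0 < rc r
  q : 0 < 1 - 1 / r
  m : rc r * (1 - 1 / r) = 1

/-! ### the weights -/

theorem a_le {r : ℝ} (hr : RR r) {L : ℕ} {a : ℕ → ℝ → ℂ} {h : ℝ} {E : Set ℝ} (hA : AB r L a h E) {j : ℕ} (hj : j < L)
    (x : ℝ) : ‖a j x‖ ≤ h := by
  have h1 := hA.bd x
  have h2 : ‖a j x‖ ^ rc r ≤ ∑ j ∈ Finset.range L, ‖a j x‖ ^ rc r :=
    Finset.single_le_sum (f := fun j => ‖a j x‖ ^ rc r)
      (fun i _ => Real.rpow_nonneg (norm_nonneg _) _) (Finset.mem_range.2 hj)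
  exact (Real.rpow_le_rpow_iff (norm_nonneg _) hA.h0 hr.p).1 (h2.trans h1)

theorem a_amp {r : ℝ} (hr : RR r) {L : ℕ} {a : ℕ → ℝ → ℂ} {j : ℕ} (hj : j < L) (x : ℝ) : ‖a j x‖ ≤ amp r L a x := by
  have h2 : ‖a j x‖ ^ rc r ≤ ∑ j ∈ Finset.range L, ‖a j x‖ ^ rc r :=
    Finset.single_le_sum (f := fun j => ‖a j x‖ ^ rc r)
      (fun i _ => Real.rpow_nonneg (norm_nonneg _) _) (Finset.mem_range.2 hj)
  have h3 := Real.rpow_le_rpow (Real.rpow_nonneg (norm_nonneg _) _) h2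
    hr.q.le
  rw [← Real.rpow_mul (norm_nonneg _), hr.m, Real.rpow_one] at h3
  exact h3

theorem amp_nn {r : ℝ} {L : ℕ} {a : ℕ → ℝ → ℂ} (x : ℝ) : 0 ≤ amp r L a x :=
  Real.rpow_nonneg (Finset.sum_nonneg fun _ _ => Real.rpow_nonneg (norm_nonneg _) _) _

theorem amp_le {r : ℝ} (hr : RR r) {L : ℕ} {a : ℕ → ℝ → ℂ} {h : ℝ} {E : Set ℝ} (hA : AB r L a h E) (x : ℝ) :
    amp r L a x ≤ E.indicator (fun _ => h) x := by
  by_cases hx : x ∈ E
  · rw [indicator_of_mem hx]
    have h3 := Real.rpow_le_rpow (Finset.sum_nonneg fun i _ =>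
      Real.rpow_nonneg (norm_nonneg _) _) (hA.bd x) hr.q.le
    rw [← Real.rpow_mul hA.h0, hr.m, Real.rpow_one] at h3
    exact h3
  · rw [indicator_of_notMem hx]
    unfold amp
    rw [Finset.sum_eq_zero, Real.zero_rpow hr.q.ne']
    intro j hj
    rw [hA.z j (Finset.mem_range.1 hj) x hx, norm_zero, Real.zero_rpow hr.p.ne']

theorem a_int {r : ℝ} (hr : RR r) {L : ℕ} {a : ℕ → ℝ → ℂ} {h : ℝ} {E : Set ℝ} (hA : AB r L a h E) {j : ℕ}
    (hj : j < L) : Integrable (a j) := by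
  refine (ind_int hA.mE hA.fE h).mono' (hA.ma j).aestronglyMeasurable (ae_of_all _ fun x => ?_)
  exact (a_amp hr hj x).trans (amp_le hr hA x)

theorem amp_sq_int {r : ℝ} (hr : RR r) {L : ℕ} {a : ℕ → ℝ → ℂ} {h : ℝ} {E : Set ℝ} (hA : AB r L a h E) :
    Integrable (fun x => amp r L a x ^ 2) := by
  refine (ind_int hA.mE hA.fE (h ^ 2)).mono' ?_ (ae_of_all _ fun x => ?_)
  · have h1 : Measurable (fun x => amp r L a x) := by
      unfold amp
      exact (Finset.measurable_sum _ fun j _ => (hA.ma j).norm.pow_const _).pow_const _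
    exact (h1.pow_const 2).aestronglyMeasurable
  · rw [Real.norm_eq_abs, abs_of_nonneg (sq_nonneg _)]
    have h1 := pow_le_pow_left₀ (amp_nn x) (amp_le hr hA x) 2
    refine h1.trans (le_of_eq ?_)
    by_cases hx : x ∈ E
    · simp only [indicator_of_mem hx]
    · simp only [indicator_of_notMem hx]
      norm_num

theorem n2_le {r : ℝ} (hr : RR r) {L : ℕ} {a : ℕ → ℝ → ℂ} {h : ℝ} {E : Set ℝ} (hA : AB r L a h E) {j : ℕ}
    (hj : j < L) : n2 (a j) ≤ na r L a := by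
  unfold n2 na
  refine Real.sqrt_le_sqrt ?_
  refine integral_mono_of_nonneg (ae_of_all _ fun x => sq_nonneg _) (amp_sq_int hr hA)
    (ae_of_all _ fun x => ?_)
  exact pow_le_pow_left₀ (norm_nonneg _) (a_amp hr hj x) 2

/-- the estimate with the constant `Θ` -/
def Bd (r : ℝ) (L : ℕ) (Θ : ℝ) : Prop := ∀ (g : ℝ → ℂ) (p q : ℕ → ℝ → ℝ) (a : ℕ → ℝ → ℂ) (h : ℝ)
  (E : Set ℝ), GG2 g → PQ L p q → AB r L a h E →
    ‖∫ x, ∑ j ∈ Finset.range L, a j x * II g (q j x) (p j x) x‖ ≤ Θ * n2 g * na r L a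

theorem int_sum {r : ℝ} (hr : RR r) {L : ℕ} {a : ℕ → ℝ → ℂ} {h : ℝ} {E : Set ℝ} (hA : AB r L a h E)
    {F : ℕ → ℝ → ℂ} (hF : ∀ j, StronglyMeasurable (F j)) {D : ℝ} (hD : ∀ j x, ‖F j x‖ ≤ D) :
    Integrable (fun x => ∑ j ∈ Finset.range L, a j x * F j x) := by
  refine integrable_finsetSum _ fun j hj => ?_
  refine ((a_int hr hA (Finset.mem_range.1 hj)).norm.mul_const D).mono'
    ((hA.ma j).aestronglyMeasurable.mul (hF j).aestronglyMeasurable) (ae_of_all _ fun x => ?_)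
  rw [norm_mul]
  exact mul_le_mul_of_nonneg_left (hD j x) (norm_nonneg _)

/-! ### the a priori bound -/

theorem start {r : ℝ} (hr : RR r) {C : ℝ} (hC : 0 < C) (hL : ∀ (g b : ℝ → ℂ) (N : ℝ → ℝ) (E : Set ℝ), Dat g b N E →
    ‖∫ x, b x * ∫ ξ in Iio (N x), g ξ * e1 (x * ξ)‖ ≤ C * n2 g * n2 b) (L : ℕ) :
    Bd r L (2 * L * C) := by
  intro g p q a h E hg hPQ hA
  have hn2 : 0 ≤ n2 g := Real.sqrt_nonneg _
  -- one term
  have one : ∀ (N : ℝ → ℝ) (j : ℕ), Measurable N → j < L →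
      ‖∫ x, a j x * ∫ ξ in Iio (N x), g ξ * e1 (x * ξ)‖ ≤ C * n2 g * na r L a := by
    intro N j hN hj
    rcases eq_or_lt_of_le hA.h0 with h0 | h0
    · have h1 : ∀ x, a j x = 0 := by
        intro x
        have h2 := a_le hr hA hj x
        rw [← h0] at h2
        exact norm_le_zero_iff.1 h2
      simp only [h1, zero_mul, integral_zero, norm_zero]
      have : 0 ≤ na r L a := Real.sqrt_nonneg _
      positivity
    · have hb : Dat g (fun x => ((h⁻¹ : ℝ) : ℂ) * a j x) N E := by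
        refine ⟨hg.mg, hg.ig, hg.sg, (hA.ma j).const_mul _, ?_, ?_, hN, hA.mE, hA.fE⟩
        · intro x _
          rw [norm_mul, Complex.norm_real, Real.norm_eq_abs, abs_of_pos (inv_pos.2 h0),
            inv_mul_le_iff₀ h0, mul_one]
          exact a_le hr hA hj x
        · intro x hx
          rw [hA.z j hj x hx, mul_zero]
      have h1 := hL g _ N E hb
      have h2 : (∫ x, ((h⁻¹ : ℝ) : ℂ) * a j x * ∫ ξ in Iio (N x), g ξ * e1 (x * ξ)) =
          ((h⁻¹ : ℝ) : ℂ) * ∫ x, a j x * ∫ ξ in Iio (N x), g ξ * e1 (x * ξ) := by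
        rw [← integral_const_mul]
        exact integral_congr_ae (ae_of_all _ fun x => mul_assoc _ _ _)
      have h3 : n2 (fun x => ((h⁻¹ : ℝ) : ℂ) * a j x) = h⁻¹ * n2 (a j) := by
        unfold n2
        have h4 : ∀ x, ‖((h⁻¹ : ℝ) : ℂ) * a j x‖ ^ 2 = h⁻¹ ^ 2 * ‖a j x‖ ^ 2 := by
          intro x
          rw [norm_mul, Complex.norm_real, Real.norm_eq_abs, abs_of_pos (inv_pos.2 h0), mul_pow]
        simp only [h4]
        rw [integral_const_mul, Real.sqrt_mul (sq_nonneg _), Real.sqrt_sq (inv_pos.2 h0).le]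
      rw [h2, h3, norm_mul, Complex.norm_real, Real.norm_eq_abs, abs_of_pos (inv_pos.2 h0)] at h1
      have h5 : h⁻¹ * ‖∫ x, a j x * ∫ ξ in Iio (N x), g ξ * e1 (x * ξ)‖ ≤
          h⁻¹ * (C * n2 g * n2 (a j)) := by
        refine h1.trans (le_of_eq ?_)
        ring
      have h6 := le_of_mul_le_mul_left h5 (inv_pos.2 h0)
      exact h6.trans (mul_le_mul_of_nonneg_left (n2_le hr hA hj) (by positivity))
  -- measurability of the half line integrals
  have hmI : ∀ N : ℝ → ℝ, Measurable N →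
      StronglyMeasurable (fun x : ℝ => ∫ ξ in Iio (N x), g ξ * e1 (x * ξ)) := by
    intro N hN
    have hS : MeasurableSet {r : ℝ × ℝ | r.2 < N r.1} :=
      measurableSet_lt measurable_snd (hN.comp measurable_fst)
    have h0 : Measurable (fun r : ℝ × ℝ => g r.2 * e1 (r.1 * r.2)) :=
      (hg.mg.comp measurable_snd).mul
        (LIM_.cont_e1.measurable.comp (measurable_fst.mul measurable_snd))
    have h1 : StronglyMeasurable (fun r : ℝ × ℝ => {r : ℝ × ℝ | r.2 < N r.1}.indicator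
        (fun r => g r.2 * e1 (r.1 * r.2)) r) := (h0.indicator hS).stronglyMeasurable
    have h2 := h1.integral_prod_right' (ν := (volume : Measure ℝ))
    have h3 : (fun x : ℝ => ∫ ξ in Iio (N x), g ξ * e1 (x * ξ)) = fun x : ℝ =>
        ∫ ξ, {r : ℝ × ℝ | r.2 < N r.1}.indicator (fun r => g r.2 * e1 (r.1 * r.2)) (x, ξ) := by
      funext z
      rw [← integral_indicator measurableSet_Iio]
      rfl
    rw [h3]
    exact h2
  have hnI : ∀ (N : ℝ → ℝ) (x : ℝ), ‖∫ ξ in Iio (N x), g ξ * e1 (x * ξ)‖ ≤ ∫ ξ, ‖g ξ‖ := by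
    intro N x
    refine (norm_integral_le_integral_norm _).trans ?_
    have h1 : ∀ ξ, ‖g ξ * e1 (x * ξ)‖ = ‖g ξ‖ := fun ξ => by
      rw [norm_mul, LIM_.norm_e1, mul_one]
    simp only [h1]
    exact setIntegral_le_integral hg.ig.norm (ae_of_all _ fun ξ => norm_nonneg _)
  have hiI : ∀ (N : ℝ → ℝ) (j : ℕ), Measurable N → j < L →
      Integrable (fun x => a j x * ∫ ξ in Iio (N x), g ξ * e1 (x * ξ)) := by
    intro N j hN hj
    refine ((a_int hr hA hj).norm.mul_const (∫ ξ, ‖g ξ‖)).mono'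
      ((hA.ma j).aestronglyMeasurable.mul (hmI N hN).aestronglyMeasurable)
      (ae_of_all _ fun x => ?_)
    rw [norm_mul]
    exact mul_le_mul_of_nonneg_left (hnI N x) (norm_nonneg _)
  have hsplit : ∀ j < L, ∀ x, a j x * II g (q j x) (p j x) x =
      a j x * (∫ ξ in Iio (p j x), g ξ * e1 (x * ξ)) -
      a j x * ∫ ξ in Iio (q j x), g ξ * e1 (x * ξ) := by
    intro j hj x
    have hG := int_g1 hg x
    have h2 : (∫ ξ in Iio (p j x), g ξ * e1 (x * ξ)) =
        (∫ ξ in Iio (q j x), g ξ * e1 (x * ξ)) + II g (q j x) (p j x) x := by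
      unfold II
      rw [← setIntegral_union (by
          rw [Set.disjoint_left]
          intro y hy hy'
          exact absurd hy'.1 (not_le.2 hy)) measurableSet_Ico hG.integrableOn hG.integrableOn,
        Iio_union_Ico_eq_Iio (hPQ.le j hj x)]
    rw [h2]
    ring
  have h1 : (∫ x, ∑ j ∈ Finset.range L, a j x * II g (q j x) (p j x) x) =
      ∑ j ∈ Finset.range L, ((∫ x, a j x * ∫ ξ in Iio (p j x), g ξ * e1 (x * ξ)) -
        ∫ x, a j x * ∫ ξ in Iio (q j x), g ξ * e1 (x * ξ)) := by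
    rw [integral_finsetSum]
    · refine Finset.sum_congr rfl fun j hj => ?_
      have hj' := Finset.mem_range.1 hj
      rw [← integral_sub (hiI _ j (hPQ.mp j) hj') (hiI _ j (hPQ.mq j) hj')]
      exact integral_congr_ae (ae_of_all _ fun x => hsplit j hj' x)
    · intro j hj
      have hj' := Finset.mem_range.1 hj
      refine ((hiI _ j (hPQ.mp j) hj').sub (hiI _ j (hPQ.mq j) hj')).congr
        (ae_of_all _ fun x => ?_)
      exact (hsplit j hj' x).symm
  rw [h1]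
  refine (norm_sum_le _ _).trans ?_
  have h2 : ∀ j ∈ Finset.range L, ‖(∫ x, a j x * ∫ ξ in Iio (p j x), g ξ * e1 (x * ξ)) -
        ∫ x, a j x * ∫ ξ in Iio (q j x), g ξ * e1 (x * ξ)‖ ≤ 2 * (C * n2 g * na r L a) := by
    intro j hj
    have hj' := Finset.mem_range.1 hj
    refine (norm_sub_le _ _).trans ?_
    have h3 := one _ j (hPQ.mp j) hj'
    have h4 := one _ j (hPQ.mq j) hj'
    linarith
  refine (Finset.sum_le_sum h2).trans (le_of_eq ?_)
  rw [Finset.sum_const, Finset.card_range, nsmul_eq_mul]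
  ring

/-! ### the absorption -/

theorem step {r : ℝ} (hr : RR r) {A : ℝ} {ρ : ℝ → ℝ} {c C₁ Θ : ℝ} (hB : Bmp A ρ) (hc : 0 < c) (hΘ : 0 ≤ Θ)
    (hi : IntegrableOn (bp ρ) (Ioo 0 1)) (h34 : ∫ w in Ioo (0 : ℝ) 1, |bp ρ w| ≤ 3 / 4 * c)
    (h0 : ∫ w in Ioo (0 : ℝ) 1, bp ρ w = 0)
    (hid : ∀ z : ℝ, (Ioo (0 : ℝ) 1).indicator (fun _ => c) z - Gm ρ z - Gm ρ (1 - z) =
      ∫ w in Ioo (0 : ℝ) 1 ∩ Iio z, bp ρ w)
    (hR1 : RB1 r ρ C₁) (hR2 : RB2 r ρ C₁) {L : ℕ} (hL : Bd r L Θ) :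
    Bd r L (2 * C₁ / c + 3 / 4 * Θ) := by
  intro g p q a h E hg hPQ hA
  obtain ⟨D, hD0, hD⟩ := Gm_bdd hB
  have hX : 0 ≤ n2 g * na r L a := mul_nonneg (Real.sqrt_nonneg _) (Real.sqrt_nonneg _)
  obtain ⟨G1, hG1⟩ : ∃ G1 : ℝ, G1 = ∫ ξ, ‖g ξ‖ := ⟨_, rfl⟩
  have hG10 : 0 ≤ G1 := by
    rw [hG1]
    exact integral_nonneg fun _ => norm_nonneg _
  -- the three parts
  obtain ⟨U, hU⟩ : ∃ U : ℕ → ℝ → ℂ, U = fun j x =>
    ∫ ξ, g ξ * (Gm ρ ((p j x - ξ) / (p j x - q j x)) : ℂ) * e1 (x * ξ) := ⟨_, rfl⟩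
  obtain ⟨V, hV⟩ : ∃ V : ℕ → ℝ → ℂ, V = fun j x =>
    ∫ ξ, g ξ * (Gm ρ ((ξ - q j x) / (p j x - q j x)) : ℂ) * e1 (x * ξ) := ⟨_, rfl⟩
  obtain ⟨K, hK⟩ : ∃ K : ℕ → ℝ → ℝ → ℂ, K = fun j x w =>
    II g (q j x) (p j x - w * (p j x - q j x)) x := ⟨_, rfl⟩
  obtain ⟨W, hW⟩ : ∃ W : ℕ → ℝ → ℂ, W = fun j x =>
    ∫ w in Ioo (0 : ℝ) 1, (bp ρ w : ℂ) * K j x w := ⟨_, rfl⟩
  have mU : ∀ j, StronglyMeasurable (U j) := by
    intro j
    rw [hU]
    exact meas_M hg (φ := fun r => Gm ρ ((p j r.1 - r.2) / (p j r.1 - q j r.1)))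
      ((Gm_meas hB.cont).comp ((((hPQ.mp j).comp measurable_fst).sub measurable_snd).div
        (((hPQ.mp j).comp measurable_fst).sub ((hPQ.mq j).comp measurable_fst))))
  have mV : ∀ j, StronglyMeasurable (V j) := by
    intro j
    rw [hV]
    exact meas_M hg (φ := fun r => Gm ρ ((r.2 - q j r.1) / (p j r.1 - q j r.1)))
      ((Gm_meas hB.cont).comp ((measurable_snd.sub ((hPQ.mq j).comp measurable_fst)).div
        (((hPQ.mp j).comp measurable_fst).sub ((hPQ.mq j).comp measurable_fst))))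
  have mK : ∀ j, StronglyMeasurable (fun r : ℝ × ℝ => K j r.1 r.2) := by
    intro j
    rw [hK]
    exact meas_II hg ((hPQ.mq j).comp measurable_fst)
      (((hPQ.mp j).comp measurable_fst).sub (measurable_snd.mul
        (((hPQ.mp j).comp measurable_fst).sub ((hPQ.mq j).comp measurable_fst)))) measurable_fst
  have bU : ∀ j x, ‖U j x‖ ≤ G1 * D := by
    intro j x
    rw [hU, hG1]
    exact norm_M hg (fun ξ => hD _) x
  have bV : ∀ j x, ‖V j x‖ ≤ G1 * D := by
    intro j x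
    rw [hV, hG1]
    exact norm_M hg (fun ξ => hD _) x
  have bK : ∀ j x w, ‖K j x w‖ ≤ G1 := by
    intro j x w
    rw [hK, hG1]
    exact norm_II hg _ _ _
  have hbc : Integrable (fun w => (bp ρ w : ℂ)) (volume.restrict (Ioo (0 : ℝ) 1)) := hi.ofReal
  have iF : ∀ j < L, Integrable (fun r : ℝ × ℝ => a j r.1 * ((bp ρ r.2 : ℂ) * K j r.1 r.2))
      (volume.prod (volume.restrict (Ioo (0 : ℝ) 1))) := by
    intro j hj
    have h1 : Integrable (fun r : ℝ × ℝ => ‖a j r.1‖ * (‖(bp ρ r.2 : ℂ)‖ * G1))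
        (volume.prod (volume.restrict (Ioo (0 : ℝ) 1))) :=
      (a_int hr hA hj).norm.mul_prod (hbc.norm.mul_const G1)
    refine h1.mono' ?_ (ae_of_all _ fun r => ?_)
    · have m1 : AEStronglyMeasurable (fun r : ℝ × ℝ => a j r.1)
          (volume.prod (volume.restrict (Ioo (0 : ℝ) 1))) :=
        ((hA.ma j).comp measurable_fst).aestronglyMeasurable
      have m2 : AEStronglyMeasurable (fun r : ℝ × ℝ => (bp ρ r.2 : ℂ))
          (volume.prod (volume.restrict (Ioo (0 : ℝ) 1))) := hbc.aestronglyMeasurable.comp_snd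
      exact m1.mul (m2.mul (mK j).aestronglyMeasurable)
    · rw [norm_mul, norm_mul]
      exact mul_le_mul_of_nonneg_left (mul_le_mul_of_nonneg_left (bK j _ _) (norm_nonneg _))
        (norm_nonneg _)
  have iS : Integrable (Function.uncurry fun x w : ℝ =>
      ∑ j ∈ Finset.range L, a j x * ((bp ρ w : ℂ) * K j x w))
      (volume.prod (volume.restrict (Ioo (0 : ℝ) 1))) := by
    exact integrable_finsetSum _ fun j hj => iF j (Finset.mem_range.1 hj)
  -- the identity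
  have hident : ∀ x, (c : ℂ) * ∑ j ∈ Finset.range L, a j x * II g (q j x) (p j x) x =
      (∑ j ∈ Finset.range L, a j x * U j x) + (∑ j ∈ Finset.range L, a j x * V j x) +
      ∫ w in Ioo (0 : ℝ) 1, ∑ j ∈ Finset.range L, a j x * ((bp ρ w : ℂ) * K j x w) := by
    intro x
    have hiw : ∀ j, Integrable (fun w => (bp ρ w : ℂ) * K j x w)
        (volume.restrict (Ioo (0 : ℝ) 1)) := by
      intro j
      have m1 : Measurable (fun w => K j x w) :=
        (mK j).measurable.comp (measurable_const.prodMk measurable_id)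
      refine (hbc.norm.mul_const G1).mono'
        (hbc.aestronglyMeasurable.mul m1.aestronglyMeasurable) (ae_of_all _ fun w => ?_)
      rw [norm_mul]
      exact mul_le_mul_of_nonneg_left (bK j _ _) (norm_nonneg _)
    rw [integral_finsetSum _ (fun j _ => (hiw j).const_mul _), Finset.mul_sum,
      ← Finset.sum_add_distrib, ← Finset.sum_add_distrib]
    refine Finset.sum_congr rfl fun j hj => ?_
    have h1 := point hB hi h0 hid hg (hPQ.le j (Finset.mem_range.1 hj) x) x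
    rw [integral_const_mul, mul_left_comm, h1]
    rw [hU, hV, hK]
    ring
  have iU : Integrable (fun x => ∑ j ∈ Finset.range L, a j x * U j x) := int_sum hr hA mU bU
  have iV : Integrable (fun x => ∑ j ∈ Finset.range L, a j x * V j x) := int_sum hr hA mV bV
  have iW : Integrable (fun x => ∫ w in Ioo (0 : ℝ) 1,
      ∑ j ∈ Finset.range L, a j x * ((bp ρ w : ℂ) * K j x w)) := iS.integral_prod_left
  have hsw := integral_integral_swap iS
  have iUV : Integrable (fun x => (∑ j ∈ Finset.range L, a j x * U j x) +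
      ∑ j ∈ Finset.range L, a j x * V j x) := iU.add iV
  have htot : (c : ℂ) * ∫ x, ∑ j ∈ Finset.range L, a j x * II g (q j x) (p j x) x =
      (∫ x, ∑ j ∈ Finset.range L, a j x * U j x) + (∫ x, ∑ j ∈ Finset.range L, a j x * V j x) +
      ∫ w in Ioo (0 : ℝ) 1, ∫ x, ∑ j ∈ Finset.range L, a j x * ((bp ρ w : ℂ) * K j x w) := by
    rw [← hsw, ← integral_add iU iV, ← integral_add iUV iW, ← integral_const_mul]
    exact integral_congr_ae (ae_of_all _ hident)
  have hJU : ‖∫ x, ∑ j ∈ Finset.range L, a j x * U j x‖ ≤ C₁ * n2 g * na r L a := by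
    rw [hU]
    exact hR1 g L p q a h E hg hPQ hA
  have hJV : ‖∫ x, ∑ j ∈ Finset.range L, a j x * V j x‖ ≤ C₁ * n2 g * na r L a := by
    rw [hV]
    exact hR2 g L p q a h E hg hPQ hA
  have hJW : ‖∫ w in Ioo (0 : ℝ) 1, ∫ x, ∑ j ∈ Finset.range L,
      a j x * ((bp ρ w : ℂ) * K j x w)‖ ≤ 3 / 4 * c * (Θ * n2 g * na r L a) := by
    have h1 : ∀ w ∈ Ioo (0 : ℝ) 1, ‖∫ x, ∑ j ∈ Finset.range L,
        a j x * ((bp ρ w : ℂ) * K j x w)‖ ≤ |bp ρ w| * (Θ * n2 g * na r L a) := by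
      intro w hw
      have h2 : (∫ x, ∑ j ∈ Finset.range L, a j x * ((bp ρ w : ℂ) * K j x w)) =
          (bp ρ w : ℂ) * ∫ x, ∑ j ∈ Finset.range L, a j x *
            II g (q j x) (p j x - w * (p j x - q j x)) x := by
        rw [← integral_const_mul]
        refine integral_congr_ae (ae_of_all _ fun x => ?_)
        simp only
        rw [Finset.mul_sum]
        refine Finset.sum_congr rfl fun j _ => ?_
        rw [hK]
        ring
      have hPQ' : PQ L (fun j x => p j x - w * (p j x - q j x)) q := by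
        refine ⟨fun j => (hPQ.mp j).sub (measurable_const.mul ((hPQ.mp j).sub (hPQ.mq j))),
          hPQ.mq, ?_, ?_⟩
        · intro j hj x
          have := hPQ.le j hj x
          nlinarith [hw.2]
        · intro i hi j hj hij x
          have h3 := hPQ.ord i hi j hj hij x
          have h4 := hPQ.le i hi x
          nlinarith [hw.1]
      rw [h2, norm_mul, Complex.norm_real, Real.norm_eq_abs]
      exact mul_le_mul_of_nonneg_left (hL g _ q a h E hg hPQ' hA) (abs_nonneg _)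
    have hint : Integrable (fun w => |bp ρ w| * (Θ * n2 g * na r L a))
        (volume.restrict (Ioo (0 : ℝ) 1)) := (Integrable.abs hi).mul_const _
    refine (norm_integral_le_of_norm_le hint ?_).trans ?_
    · exact (ae_restrict_iff' measurableSet_Ioo).2 (ae_of_all _ h1)
    · rw [integral_mul_const]
      refine mul_le_mul_of_nonneg_right h34 ?_
      rw [mul_assoc]
      exact mul_nonneg hΘ hX
  have hfin : c * ‖∫ x, ∑ j ∈ Finset.range L, a j x * II g (q j x) (p j x) x‖ ≤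
      c * ((2 * C₁ / c + 3 / 4 * Θ) * n2 g * na r L a) := by
    have h1 : c * ‖∫ x, ∑ j ∈ Finset.range L, a j x * II g (q j x) (p j x) x‖ =
        ‖(c : ℂ) * ∫ x, ∑ j ∈ Finset.range L, a j x * II g (q j x) (p j x) x‖ := by
      rw [norm_mul, Complex.norm_real, Real.norm_eq_abs, abs_of_pos hc]
    rw [h1, htot]
    refine (norm_add₃_le).trans ?_
    have h2 : c * ((2 * C₁ / c + 3 / 4 * Θ) * n2 g * na r L a) =
        C₁ * n2 g * na r L a + C₁ * n2 g * na r L a + 3 / 4 * c * (Θ * n2 g * na r L a) := by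
      field_simp
      ring
    rw [h2]
    exact add_le_add (add_le_add hJU hJV) hJW
  exact le_of_mul_le_mul_left hfin hc

end CAR_

open CAR_ in
theorem p_CAR (h0 : T_REX) (h1 : T_LIM) (h2 : T_REF) (h3 : Pool.Agent.VRC.T_VGB) : T_CAR := by
  obtain ⟨A, ρ, c, hB, hc, hi, h34, hz, hid⟩ := h3
  obtain ⟨C₂, hC₂, hR0⟩ := h1 A ρ hB
  obtain ⟨C₀, hC₀, hL⟩ := p_LIMS p_WPEX (p_SCKS (p_AVBS q_MODS q_YN)) p_BT
  refine ⟨8 * C₂ / c, by positivity, ?_⟩
  intro r hr2 hr4 g L p q a h E hg hPQ hA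
  obtain ⟨e1, e2, e3, e4, e5, e6, e7, e8, e9, -⟩ := h0 r hr2 hr4
  have hr : RR r := ⟨by linarith, by linarith, e4⟩
  obtain ⟨C₁, hC₁d⟩ : ∃ C₁ : ℝ, C₁ = C₂ * kr r ^ 3 := ⟨_, rfl⟩
  have hK : 0 < kr r := by linarith
  have hC₁ : 0 < C₁ := by
    rw [hC₁d]
    positivity
  have hR1 : RB1 r ρ C₁ := by
    rw [hC₁d]
    exact hR0 r hr2 hr4
  have hR2 := h2 r ρ C₁ hr2 hr4 hR1
  have key : ∀ k : ℕ, Bd r L (8 * C₁ / c + (3 / 4 : ℝ) ^ k * (2 * L * C₀)) := by
    intro k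
    induction k with
    | zero =>
      intro g p q a h E hg hPQ hA
      refine (start hr hC₀ hL L g p q a h E hg hPQ hA).trans ?_
      have hX : 0 ≤ n2 g * na r L a := mul_nonneg (Real.sqrt_nonneg _) (Real.sqrt_nonneg _)
      have hY : 0 ≤ 8 * C₁ / c := by positivity
      have hZ : (8 * C₁ / c + (3 / 4 : ℝ) ^ 0 * (2 * L * C₀)) * n2 g * na r L a =
          8 * C₁ / c * (n2 g * na r L a) + 2 * L * C₀ * n2 g * na r L a := by
        rw [pow_zero]
        ring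
      rw [hZ]
      exact le_add_of_nonneg_left (mul_nonneg hY hX)
    | succ k ih =>
      have h5 := step hr hB hc (by positivity) hi h34 hz hid hR1 hR2 ih
      have h6 : 2 * C₁ / c + 3 / 4 * (8 * C₁ / c + (3 / 4 : ℝ) ^ k * (2 * L * C₀)) =
          8 * C₁ / c + (3 / 4 : ℝ) ^ (k + 1) * (2 * L * C₀) := by
        rw [pow_succ]
        ring
      rwa [h6] at h5
  have hlim : Tendsto (fun k : ℕ => (8 * C₁ / c + (3 / 4 : ℝ) ^ k * (2 * L * C₀)) * n2 g *
      na r L a) atTop (𝓝 ((8 * C₁ / c + 0 * (2 * L * C₀)) * n2 g * na r L a)) :=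
    ((tendsto_const_nhds.add ((tendsto_pow_atTop_nhds_zero_of_lt_one (by norm_num)
      (by norm_num)).mul_const _)).mul_const _).mul_const _
  rw [zero_mul, add_zero] at hlim
  have hfin : 8 * C₂ / c * kr r ^ 3 = 8 * C₁ / c := by
    rw [hC₁d]
    ring
  rw [hfin]
  exact ge_of_tendsto' hlim fun k => key k g p q a h E hg hPQ hA

end Pool.Agent.VRR
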