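import Pool.Agent.VRR.Targets2
import Pool.Agent.VRC.P_DCV

set_option autoImplicit false

/-!
# Block DCV: discrete frequencies with gaps, r-variation
-/

namespace Pool.Agent.VRR

open MeasureTheory FourierTransform Set Filter Topology
open scoped ENNReal NNReal
open Pool.Agent.CAR (e1)

namespace DCV_

open Pool.Agent.CRR.DCAR_ Pool.Agent.VRC.DCV_

theorem vs_le {r : ℝ} (hr : 2 < r) {γ w : ℝ} (hγ : 0 < γ) (hγw : γ * w ≤ 1 / 8) (N : ℕ)
    {η : ℕ → ℝ} (a : ℕ → ℂ)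
    (hη : ∀ i, η i + γ ≤ η (i + 1)) {t : ℝ} (ht : |t| ≤ w) :
    Vs r (fun j => ∑ i ∈ Finset.range (min j N), a i * e1 (t * η i)) ≤
      2 * VC r (hh γ N η a) t := by
  have hr0 : 0 < r := by linarith
  have hm : Monotone η := monotone_nat_of_le_succ fun n => by linarith [hη n]
  have hk := kk_lower hγ hγw ht
  have key : ∀ j k : ℕ, j ≤ k →
      ‖∑ i ∈ Finset.range (min k N), a i * e1 (t * η i) -
        ∑ i ∈ Finset.range (min j N), a i * e1 (t * η i)‖ₑ ≤
      2 * ‖∫ ξ in Ico (η (min j N)) (η (min k N)), hh γ N η a ξ * e1 (t * ξ)‖ₑ := by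
    intro j k hjk
    rw [diff (fun i => a i * e1 (t * η i)) hjk, integral_Ico_eq_integral_Ioo,
      ← integral_Ioc_eq_integral_Ioo, int_part hγ N a hη t _ _ (min_le_right _ _)]
    rw [← ofReal_norm, ← ofReal_norm, norm_mul,
      show (2 : ℝ≥0∞) = ENNReal.ofReal 2 by simp, ← ENNReal.ofReal_mul (by norm_num)]
    refine ENNReal.ofReal_le_ofReal ?_
    nlinarith [norm_nonneg (∑ i ∈ Finset.Ico (min j N) (min k N), a i * e1 (t * η i))]
  unfold Vs
  refine iSup_le fun L => iSup_le fun s => iSup_le fun hs => ?_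
  have hmono : Monotone (fun r => η (min (s r) N)) := fun x y hxy =>
    hm (min_le_min_right N (hs hxy))
  have h1 : ∑ l ∈ Finset.range L,
      ‖∑ i ∈ Finset.range (min (s (l + 1)) N), a i * e1 (t * η i) -
        ∑ i ∈ Finset.range (min (s l) N), a i * e1 (t * η i)‖ₑ ^ r ≤
      2 ^ r * ∑ l ∈ Finset.range L,
        ‖∫ ξ in Ico (η (min (s l) N)) (η (min (s (l + 1)) N)),
          hh γ N η a ξ * e1 (t * ξ)‖ₑ ^ r := by
    rw [Finset.mul_sum]
    refine Finset.sum_le_sum fun l _ => ?_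
    have h2 := key (s l) (s (l + 1)) (hs (Nat.le_succ l))
    calc _ ≤ (2 * ‖∫ ξ in Ico (η (min (s l) N)) (η (min (s (l + 1)) N)),
          hh γ N η a ξ * e1 (t * ξ)‖ₑ) ^ r := ENNReal.rpow_le_rpow h2 hr0.le
      _ = _ := ENNReal.mul_rpow_of_nonneg _ _ hr0.le
  calc (∑ l ∈ Finset.range L,
      ‖∑ i ∈ Finset.range (min (s (l + 1)) N), a i * e1 (t * η i) -
        ∑ i ∈ Finset.range (min (s l) N), a i * e1 (t * η i)‖ₑ ^ r) ^ (1 / r)
      ≤ (2 ^ r * ∑ l ∈ Finset.range L,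
        ‖∫ ξ in Ico (η (min (s l) N)) (η (min (s (l + 1)) N)),
          hh γ N η a ξ * e1 (t * ξ)‖ₑ ^ r) ^ (1 / r) :=
        ENNReal.rpow_le_rpow h1 (by positivity)
    _ = 2 * (∑ l ∈ Finset.range L,
        ‖∫ ξ in Ico (η (min (s l) N)) (η (min (s (l + 1)) N)),
          hh γ N η a ξ * e1 (t * ξ)‖ₑ ^ r) ^ (1 / r) := by
        rw [ENNReal.mul_rpow_of_nonneg _ _ (by positivity), ← ENNReal.rpow_mul,
          mul_one_div_cancel hr0.ne', ENNReal.rpow_one]
    _ ≤ 2 * VC r (hh γ N η a) t := by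
        refine mul_le_mul_right ?_ 2
        exact le_iSup_of_le L (le_iSup_of_le (fun l => η (min (s l) N))
          (le_iSup_of_le hmono le_rfl))

end DCV_

open DCV_ Pool.Agent.CRR.DCAR_ Pool.Agent.VRC.DCV_ in
/-- **DCV**: discrete frequencies with gaps -/
theorem p_DCV (h0 : T_REX) (h1 : T_C4) (h2 : T_VCS) : T_DCV := by
  intro A hA
  obtain ⟨C₀, hC₀⟩ := h1
  refine ⟨4 * C₀ * (A.toNNReal + 8), fun r hr hr4 w g N η a hw hg hwg hη => ?_⟩
  set γ : ℝ := min g (1 / (8 * w)) with hγdef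
  have hγ : 0 < γ := lt_min hg (by positivity)
  have hγg : γ ≤ g := min_le_left _ _
  have hγw : γ * w ≤ 1 / 8 := by
    have : γ ≤ 1 / (8 * w) := min_le_right _ _
    calc γ * w ≤ 1 / (8 * w) * w := mul_le_mul_of_nonneg_right this hw.le
      _ = 1 / 8 := by field_simp
  have hη' : ∀ i, η i + γ ≤ η (i + 1) := fun i => by linarith [hη i]
  have hinv : γ⁻¹ ≤ (A + 8) * w := by
    rw [inv_le_iff_one_le_mul₀ hγ, hγdef]
    rcases le_total g (1 / (8 * w)) with h | h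
    · rw [min_eq_left h]
      have h2 : 1 ≤ A * (w * g) := by
        have := mul_le_mul_of_nonneg_left hwg (by linarith : (0 : ℝ) ≤ A)
        rwa [mul_one_div_cancel (by linarith)] at this
      nlinarith [mul_pos hw hg]
    · rw [min_eq_right h]
      have h2 : (A + 8) * w * (1 / (8 * w)) = (A + 8) / 8 := by
        field_simp
      rw [h2]
      linarith
  have hb : ∀ t ∈ Icc (-w) w,
      Vs r (fun j => ∑ i ∈ Finset.range (min j N), a i * e1 (t * η i)) ^ 2 ≤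
      4 * VC r (hh γ N η a) t ^ 2 := by
    intro t ht
    calc _ ≤ (2 * VC r (hh γ N η a) t) ^ 2 :=
          pow_le_pow_left' (vs_le hr hγ hγw N a hη' (abs_le.2 ⟨ht.1, ht.2⟩)) 2
      _ = _ := by
          rw [mul_pow]
          norm_num
  calc ∫⁻ t in Icc (-w) w,
        Vs r (fun j => ∑ i ∈ Finset.range (min j N), a i * e1 (t * η i)) ^ 2
      ≤ ∫⁻ t in Icc (-w) w, 4 * VC r (hh γ N η a) t ^ 2 :=
        setLIntegral_mono' measurableSet_Icc hb
    _ ≤ ∫⁻ t, 4 * VC r (hh γ N η a) t ^ 2 :=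
        lintegral_mono' Measure.restrict_le_self le_rfl
    _ = 4 * ∫⁻ t, VC r (hh γ N η a) t ^ 2 :=
        lintegral_const_mul' _ _ (by norm_num)
    _ ≤ 4 * (C₀ * ENNReal.ofReal (kr r ^ 6) * ∫⁻ x, ‖hh γ N η a x‖ₑ ^ 2) := by
        gcongr
        exact hC₀ r hr hr4 (hh γ N η a) (gg γ N η a)
    _ ≤ 4 * (C₀ * ENNReal.ofReal (kr r ^ 6) *
          (ENNReal.ofReal γ⁻¹ * ∑ i ∈ Finset.range N, ‖a i‖ₑ ^ 2)) := by
        gcongr
        have := hh_sq hγ N a hη' univ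
        rwa [Measure.restrict_univ] at this
    _ ≤ 4 * (C₀ * ENNReal.ofReal (kr r ^ 6) *
          (ENNReal.ofReal ((A + 8) * w) * ∑ i ∈ Finset.range N, ‖a i‖ₑ ^ 2)) := by
        gcongr
    _ = _ := by
        rw [ENNReal.ofReal_mul (by linarith), ENNReal.ofReal_add (by linarith) (by norm_num)]
        push_cast
        rw [show ENNReal.ofReal A = (A.toNNReal : ℝ≥0∞) from rfl,
          show ENNReal.ofReal 8 = 8 by simp]
        ring

end Pool.Agent.VRR
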