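import Pool.Agent.VRR.Targets2
import Pool.Agent.CRR.P_DEC

set_option autoImplicit false

/-!
# VRR, target DEV: decay between strip and band, `r`-variation
-/

namespace Pool.Agent.VRR

open MeasureTheory FourierTransform Set Filter Topology
open scoped ENNReal NNReal
open Pool.Agent.CAR (e1)
open Pool.Agent.CRR (Ph StripD FS FA fh NN HH NSol kap aa de la si ww xc band)
open Pool.Agent.VRC (NF)
open Pool.Agent.CRR.DEC_

namespace DEV_

/-- application of OFV -/
theorem far (C : ℝ≥0) (r : ℝ) (hC : ∀ (w D G : ℝ) (Om : Set ℝ) (H : ℝ → ℂ), 0 < w → 0 < D →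
      0 ≤ G → MeasurableSet Om → HH H →
      (∀ X ∈ Om, ∀ s, H s ≠ 0 → D ≤ |s + X| ∧ |s| ≤ G * |s + X|) →
      ∑' i : ℤ, ∫⁻ X in Om, NV r w (fh H) i X ^ 2 ≤
        C * volume Om *
          ENNReal.ofReal (((w * D ^ 2)⁻¹ + G * D⁻¹) ^ (1 - 2 / r) * (D⁻¹) ^ (2 / r)) *
          ∫⁻ s, ‖H s‖ₑ ^ 2)
    (A σ w D G K Q : ℝ) (H : ℝ → ℂ) (hw : 0 < w) (hD : 0 < D) (hG : 0 ≤ G)
    (hA : 0 < A) (hσ : 0 < σ) (hH : HH H) (hK : 0 ≤ K)
    (h : ∀ X ∈ Om A σ, ∀ s, H s ≠ 0 → D ≤ |s + X| ∧ |s| ≤ G * |s + X|)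
    (hb : 2 * A * σ * (((w * D ^ 2)⁻¹ + G * D⁻¹) ^ (1 - 2 / r) * (D⁻¹) ^ (2 / r)) ≤ K * Q) :
    ∑' i : ℤ, ∫⁻ X in Om A σ, NV r w (fh H) i X ^ 2 ≤
      C * ENNReal.ofReal K * ENNReal.ofReal Q * ∫⁻ s, ‖H s‖ₑ ^ 2 := by
  refine (hC w D G (Om A σ) H hw hD hG (meas_Om A σ) hH h).trans ?_
  gcongr ?_ * _
  calc (C : ℝ≥0∞) * volume (Om A σ) *
        ENNReal.ofReal (((w * D ^ 2)⁻¹ + G * D⁻¹) ^ (1 - 2 / r) * (D⁻¹) ^ (2 / r)) ≤
      C * ENNReal.ofReal (2 * A * σ) *
        ENNReal.ofReal (((w * D ^ 2)⁻¹ + G * D⁻¹) ^ (1 - 2 / r) * (D⁻¹) ^ (2 / r)) := by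
        gcongr
        exact vol_Om A σ
    _ = C * ENNReal.ofReal (2 * A * σ *
        (((w * D ^ 2)⁻¹ + G * D⁻¹) ^ (1 - 2 / r) * (D⁻¹) ^ (2 / r))) := by
        rw [mul_assoc, ← ENNReal.ofReal_mul (by positivity)]
    _ ≤ C * ENNReal.ofReal (K * Q) := by
        gcongr
    _ = C * ENNReal.ofReal K * ENNReal.ofReal Q := by
        rw [ENNReal.ofReal_mul hK, mul_assoc]

/-- from the bound without the powers to the bound with them -/
theorem bdV (A σ D x q r : ℝ) (hA : 1 ≤ A) (hσ : 0 < σ) (hx : 0 ≤ x) (hD0 : 0 < D)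
    (hD : D⁻¹ ≤ 2 * A / σ) (hq : 0 ≤ q) (hr0 : 0 < 1 - 2 / r) (hr1 : 1 - 2 / r ≤ 1)
    (h : 2 * A * σ * x ≤ 50 * A ^ 3 * q) :
    2 * A * σ * (x ^ (1 - 2 / r) * (D⁻¹) ^ (2 / r)) ≤ 50 * A ^ 3 * q ^ (1 - 2 / r) := by
  have hA0 : 0 < A := by linarith
  have hM : 0 < 25 * A ^ 2 / σ := by positivity
  have h1 : x ≤ 25 * A ^ 2 / σ * q := by
    have h0 : x ≤ 25 * A ^ 2 * q / σ := by
      rw [le_div_iff₀ hσ]
      have h2 : 2 * A * (x * σ) ≤ 2 * A * (25 * A ^ 2 * q) := by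
        calc 2 * A * (x * σ) = 2 * A * σ * x := by ring
          _ ≤ 50 * A ^ 3 * q := h
          _ = _ := by ring
      exact le_of_mul_le_mul_left h2 (by positivity)
    calc x ≤ 25 * A ^ 2 * q / σ := h0
      _ = _ := by ring
  have h2 : D⁻¹ ≤ 25 * A ^ 2 / σ := by
    have h6 : 2 * A ≤ 25 * A ^ 2 := by nlinarith
    exact hD.trans (div_le_div_of_nonneg_right h6 hσ.le)
  have h3 : x ^ (1 - 2 / r) ≤ (25 * A ^ 2 / σ) ^ (1 - 2 / r) * q ^ (1 - 2 / r) := by
    rw [← Real.mul_rpow hM.le hq]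
    exact Real.rpow_le_rpow hx h1 hr0.le
  have h4 : (D⁻¹) ^ (2 / r) ≤ (25 * A ^ 2 / σ) ^ (2 / r) :=
    Real.rpow_le_rpow (by positivity) h2 (by linarith)
  have h5 : (25 * A ^ 2 / σ) ^ (1 - 2 / r) * (25 * A ^ 2 / σ) ^ (2 / r) = 25 * A ^ 2 / σ := by
    rw [← Real.rpow_add hM, show 1 - 2 / r + 2 / r = 1 by ring, Real.rpow_one]
  calc 2 * A * σ * (x ^ (1 - 2 / r) * (D⁻¹) ^ (2 / r)) ≤
        2 * A * σ * (((25 * A ^ 2 / σ) ^ (1 - 2 / r) * q ^ (1 - 2 / r)) *
          (25 * A ^ 2 / σ) ^ (2 / r)) := by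
        gcongr
    _ = 2 * A * σ * q ^ (1 - 2 / r) *
          ((25 * A ^ 2 / σ) ^ (1 - 2 / r) * (25 * A ^ 2 / σ) ^ (2 / r)) := by ring
    _ = 50 * A ^ 3 * q ^ (1 - 2 / r) := by
        rw [h5]
        field_simp
        ring

end DEV_

open DEV_ in
/-- DEV -/
theorem p_DEV (h0 : T_REX) (h1 : Pool.Agent.CRR.T_SEQ) (h2 : T_OFV) (h3 : T_DIV) : T_DEV := by
  intro A hA
  obtain ⟨C1, hC1⟩ := h2
  obtain ⟨C3, hC3⟩ := h3
  obtain ⟨N, hN⟩ := pow_unbounded_of_one_lt (2 * A) (by norm_num : (1 : ℝ) < 7 / 5)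
  have hA0 : 0 < A := by linarith
  refine ⟨C1 * Real.toNNReal (50 * A ^ 3) + C3 * Real.toNNReal ((10 / 9) ^ (N + 1)), ?_⟩
  intro r hr2 hr4 ν k j H hν hH hb
  obtain ⟨-, -, -, -, -, -, -, -, hkr, -, hr0, hr1, -⟩ := h0 r hr2 hr4
  have hr1' : 1 - 2 / r ≤ 1 := by linarith
  replace hC1 := hC1 r hr2 hr4
  replace hC3 := hC3 r hr2 hr4
  have hk6 : (1 : ℝ) ≤ kr r ^ 6 := one_le_pow₀ (by linarith)
  have hk0 : (0 : ℝ) ≤ kr r ^ 6 := by linarith
  obtain ⟨-, -, hs⟩ := h1 ν hν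
  have hde : ∀ k, 0 < de ν k := fun k => (hs k).2.1
  have hla : ∀ k, 0 < la ν k := fun k => (hs k).2.2.2.2.1
  have hsg : ∀ k, 7 / 5 * si ν k ≤ si ν (k + 1) := fun k => (hs k).2.2.2.2.2.2.1
  have hM0 : ∀ k, 250 ≤ la ν k * de ν k ^ 2 := fun k => (hs k).2.2.2.2.2.2.2.2.1
  have hMg : ∀ k, 5 / 4 * (la ν k * de ν k ^ 2) ≤ la ν (k + 1) * de ν (k + 1) ^ 2 :=
    fun k => (hs k).2.2.2.2.2.2.2.2.2.1
  have hsi : ∀ k, 0 < si ν k := fun k => mul_pos (hla k) (hde k)
  have hL : ∀ k, 0 < Real.sqrt (la ν k) := fun k => Real.sqrt_pos.2 (hla k)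
  have hLs : ∀ k, Real.sqrt (la ν k) ^ 2 = la ν k := fun k => Real.sq_sqrt (hla k).le
  have hσL : ∀ k, si ν k = Real.sqrt (la ν k) ^ 2 * de ν k := fun k => by rw [hLs]; rfl
  have hw : 0 < ww ν k := by
    have := hL k
    unfold ww
    positivity
  have hC : ((C1 * Real.toNNReal (50 * A ^ 3) + C3 * Real.toNNReal ((10 / 9) ^ (N + 1)) : ℝ≥0) :
      ℝ≥0∞) = C1 * ENNReal.ofReal (50 * A ^ 3) + C3 * ENNReal.ofReal ((10 / 9) ^ (N + 1)) := by
    push_cast
    rfl
  rw [hC]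
  set q : ℝ := (9 / 10) ^ (k - j + (j - k)) with hq
  have hq0 : 0 < q := by positivity
  have hQ0 : 0 < q ^ (1 - 2 / r) := by positivity
  have first : ∀ x : ℝ≥0∞, x ≤ C1 * ENNReal.ofReal (50 * A ^ 3) *
      ENNReal.ofReal (q ^ (1 - 2 / r)) * ∫⁻ s, ‖H s‖ₑ ^ 2 →
      x ≤ (C1 * ENNReal.ofReal (50 * A ^ 3) + C3 * ENNReal.ofReal ((10 / 9) ^ (N + 1))) *
        ENNReal.ofReal (kr r ^ 6 * q ^ (1 - 2 / r)) * ∫⁻ s, ‖H s‖ₑ ^ 2 := by
    intro x hx
    refine hx.trans ?_
    gcongr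
    · exact le_self_add
    · nlinarith
  have third : k - j + (j - k) ≤ N + 1 →
      ∑' i : ℤ, ∫⁻ X in {X : ℝ | si ν k / A ≤ |X| ∧ |X| ≤ A * si ν k},
        NV r (ww ν k) (fh H) i X ^ 2 ≤ (C1 * ENNReal.ofReal (50 * A ^ 3) +
        C3 * ENNReal.ofReal ((10 / 9) ^ (N + 1))) *
        ENNReal.ofReal (kr r ^ 6 * q ^ (1 - 2 / r)) * ∫⁻ s, ‖H s‖ₑ ^ 2 := by
    intro hkj
    have e1 : ∑' i : ℤ, ∫⁻ X in {X : ℝ | si ν k / A ≤ |X| ∧ |X| ≤ A * si ν k},
        NV r (ww ν k) (fh H) i X ^ 2 ≤ C3 * ENNReal.ofReal (kr r ^ 6) * ∫⁻ s, ‖H s‖ₑ ^ 2 :=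
      (ENNReal.tsum_le_tsum fun i => setLIntegral_le_lintegral _ _).trans
        (hC3 (ww ν k) H hw hH)
    refine e1.trans ?_
    gcongr ?_ * _
    have e2 : (1 : ℝ) ≤ (10 / 9) ^ (N + 1) * q ^ (1 - 2 / r) := by
      have e3 : (9 / 10 : ℝ) ^ (N + 1) ≤ q :=
        pow_le_pow_of_le_one (by norm_num) (by norm_num) hkj
      have hb0 : (0 : ℝ) < (9 / 10) ^ (N + 1) := by positivity
      have hb1 : (9 / 10 : ℝ) ^ (N + 1) ≤ 1 := pow_le_one₀ (by norm_num) (by norm_num)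
      have e4 : (9 / 10 : ℝ) ^ (N + 1) ≤ ((9 / 10 : ℝ) ^ (N + 1)) ^ (1 - 2 / r) := by
        calc (9 / 10 : ℝ) ^ (N + 1) = ((9 / 10 : ℝ) ^ (N + 1)) ^ (1 : ℝ) :=
              (Real.rpow_one _).symm
          _ ≤ _ := Real.rpow_le_rpow_of_exponent_ge hb0 hb1 hr1'
      have e5 : ((9 / 10 : ℝ) ^ (N + 1)) ^ (1 - 2 / r) ≤ q ^ (1 - 2 / r) :=
        Real.rpow_le_rpow hb0.le e3 hr0.le
      calc (1 : ℝ) = (10 / 9) ^ (N + 1) * (9 / 10) ^ (N + 1) := by
            rw [← mul_pow]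
            norm_num
        _ ≤ (10 / 9) ^ (N + 1) * q ^ (1 - 2 / r) :=
            mul_le_mul_of_nonneg_left (e4.trans e5) (by positivity)
    calc (C3 : ℝ≥0∞) * ENNReal.ofReal (kr r ^ 6) =
          C3 * ENNReal.ofReal (kr r ^ 6 * 1) := by rw [mul_one]
      _ ≤ C3 * ENNReal.ofReal (kr r ^ 6 * ((10 / 9) ^ (N + 1) * q ^ (1 - 2 / r))) := by gcongr
      _ = C3 * ENNReal.ofReal ((10 / 9) ^ (N + 1)) *
          ENNReal.ofReal (kr r ^ 6 * q ^ (1 - 2 / r)) := by
          rw [mul_assoc, ← ENNReal.ofReal_mul (by positivity)]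
          congr 2
          ring
      _ ≤ _ := by
          gcongr
          exact le_add_self
  rcases lt_trichotomy j k with hjk | hjk | hjk
  · -- low frequencies
    obtain ⟨n, rfl⟩ := Nat.exists_eq_add_of_lt hjk
    have hg := grow (si ν) (7 / 5) (by norm_num) hsg j (n + 1)
    have hgM := grow (fun k => la ν k * de ν k ^ 2) (5 / 4) (by norm_num) hMg j (n + 1)
    rw [← add_assoc] at hg hgM
    have en : j + n + 1 - j + (j - (j + n + 1)) = n + 1 := by omega
    rw [en] at hq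
    by_cases hc : si ν j ≤ si ν (j + n + 1) / (2 * A)
    · apply first
      refine far C1 r hC1 A (si ν (j + n + 1)) (ww ν (j + n + 1)) (si ν (j + n + 1) / (2 * A))
        (2 * A * si ν j / si ν (j + n + 1)) (50 * A ^ 3) (q ^ (1 - 2 / r)) H hw ?_ ?_ hA0
        (hsi _) hH (by positivity) ?_ ?_
      · have := hsi (j + n + 1)
        positivity
      · have := hsi (j + n + 1)
        have := hsi j
        positivity
      · intro X hX s hs0
        have hs1 : |s| < si ν j := (hb s hs0).2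
        have hX1 : si ν (j + n + 1) / A ≤ |X| := hX.1
        have e1 : si ν (j + n + 1) / A = 2 * (si ν (j + n + 1) / (2 * A)) := by
          field_simp
        have e2 : |X| ≤ |s + X| + |s| := by
          calc |X| = |(s + X) - s| := by congr 1; ring
            _ ≤ |s + X| + |s| := abs_sub _ _
        have e3 : si ν (j + n + 1) / (2 * A) ≤ |s + X| := by linarith
        refine ⟨e3, ?_⟩
        have hσ := hsi (j + n + 1)
        calc |s| ≤ si ν j := hs1.le
          _ = 2 * A * si ν j / si ν (j + n + 1) * (si ν (j + n + 1) / (2 * A)) := by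
              field_simp
          _ ≤ _ := mul_le_mul_of_nonneg_left e3 (by have := hsi j; positivity)
      · have hσ := hsi (j + n + 1)
        have hσj := hsi j
        refine bdV A (si ν (j + n + 1)) (si ν (j + n + 1) / (2 * A)) _ q r hA hσ
          (by positivity) (by positivity) (by rw [inv_div]) hq0.le hr0 hr1' ?_
        refine bd1 A (Real.sqrt (la ν (j + n + 1))) (de ν (j + n + 1)) (si ν (j + n + 1))
          (si ν j) q hA (hL _) (hde _) (hσL _) (hsi j) ?_ ?_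
        · have e1 : (5 / 4 : ℝ) ^ (n + 1) ≤
              (Real.sqrt (la ν (j + n + 1)) * de ν (j + n + 1)) ^ 2 := by
            rw [mul_pow, hLs]
            refine le_trans ?_ hgM
            have := hM0 j
            have h5 : (0 : ℝ) < (5 / 4) ^ (n + 1) := by positivity
            nlinarith
          have e2 : 1 ≤ (q * (Real.sqrt (la ν (j + n + 1)) * de ν (j + n + 1))) ^ 2 := by
            rw [mul_pow, hq]
            calc (1 : ℝ) ≤ ((9 / 10) ^ 2 * (5 / 4)) ^ (n + 1) :=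
                  one_le_pow₀ (by norm_num)
              _ = ((9 / 10) ^ (n + 1)) ^ 2 * (5 / 4) ^ (n + 1) := by
                  rw [mul_pow, ← pow_mul, ← pow_mul]
                  congr 2
                  ring
              _ ≤ _ := mul_le_mul_of_nonneg_left e1 (by positivity)
          have e3 : 0 ≤ q * (Real.sqrt (la ν (j + n + 1)) * de ν (j + n + 1)) := by
            have := hL (j + n + 1)
            have := hde (j + n + 1)
            positivity
          nlinarith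
        · have e1 : (1 : ℝ) ≤ q * (7 / 5) ^ (n + 1) := by
            rw [hq, ← mul_pow]
            exact one_le_pow₀ (by norm_num)
          calc si ν j ≤ q * (7 / 5) ^ (n + 1) * si ν j := by
                have := hsi j
                nlinarith
            _ = q * ((7 / 5) ^ (n + 1) * si ν j) := by ring
            _ ≤ q * si ν (j + n + 1) := mul_le_mul_of_nonneg_left hg (by positivity)
    · apply third
      rw [en]
      by_contra hcon
      apply hc
      rw [le_div_iff₀ (by positivity)]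
      have e1 : (7 / 5 : ℝ) ^ N ≤ (7 / 5) ^ (n + 1) :=
        pow_le_pow_right₀ (by norm_num) (by omega)
      have := hsi j
      nlinarith
  · apply third
    subst hjk
    simp
  · -- high frequencies
    obtain ⟨n, rfl⟩ := Nat.exists_eq_add_of_lt hjk
    have hg := grow (si ν) (7 / 5) (by norm_num) hsg k n
    have en : k - (k + n + 1) + (k + n + 1 - k) = n + 1 := by omega
    rw [en] at hq
    have hone : (1 : ℝ) ≤ (7 / 5) ^ n := one_le_pow₀ (by norm_num)
    by_cases hc : 2 * A * si ν k ≤ si ν (k + n)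
    · apply first
      have hσ := hsi k
      have hτ := hsi (k + n)
      refine far C1 r hC1 A (si ν k) (ww ν k) (si ν (k + n) / 2)
        2 (50 * A ^ 3) (q ^ (1 - 2 / r)) H hw (by positivity) (by norm_num) hA0 (hsi _) hH
        (by positivity) ?_ ?_
      · intro X hX s hs0
        have hs1 : si ν (k + n) ≤ |s| := by
          rcases (hb s hs0).1 with h0 | h0
          · omega
          · simpa using h0
        have hX1 : |X| ≤ A * si ν k := hX.2
        have e2 : |s| ≤ |s + X| + |X| := by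
          calc |s| = |(s + X) - X| := by congr 1; ring
            _ ≤ |s + X| + |X| := abs_sub _ _
        constructor
        · linarith
        · linarith
      · refine bdV A (si ν k) (si ν (k + n) / 2) _ q r hA hσ (by positivity)
          (by positivity) ?_ hq0.le hr0 hr1' ?_
        · rw [inv_div, div_le_div_iff₀ hτ hσ]
          nlinarith [mul_pos hA0 hτ]
        have e0 : 40 * A ^ 3 * (5 / 7 : ℝ) ^ n ≤ 50 * A ^ 3 * q := by
          have e1 : (5 / 7 : ℝ) ^ n ≤ (9 / 10) ^ n :=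
            pow_le_pow_left₀ (by norm_num) (by norm_num) n
          have e2 : q = (9 / 10) ^ n * (9 / 10) := by
            rw [hq, pow_succ]
          have hA3 : 0 < A ^ 3 := by positivity
          have h9 : (0 : ℝ) < (9 / 10) ^ n := by positivity
          rw [e2]
          nlinarith [mul_le_mul_of_nonneg_left e1 hA3.le, mul_pos hA3 h9]
        refine le_trans ?_ e0
        refine bd2 A (Real.sqrt (la ν k)) (de ν k) (si ν k)
          (si ν (k + n)) ((5 / 7) ^ n) hA (hL _) (hde _) (hσL _) (hsi _) ?_ ?_ ?_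
        · have e1 : 1 ≤ (Real.sqrt (la ν k) * de ν k) ^ 2 := by
            rw [mul_pow, hLs]
            have := hM0 k
            linarith
          have e3 : 0 ≤ Real.sqrt (la ν k) * de ν k := by
            have := hL k
            have := hde k
            positivity
          nlinarith
        · calc si ν k = (5 / 7) ^ n * ((7 / 5) ^ n * si ν k) := by
                rw [← mul_assoc, ← mul_pow]
                norm_num
            _ ≤ (5 / 7) ^ n * si ν (k + n) := mul_le_mul_of_nonneg_left hg (by positivity)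
        · have := hsi k
          nlinarith
    · apply third
      rw [en]
      by_contra hcon
      apply hc
      have e1 : (7 / 5 : ℝ) ^ N ≤ (7 / 5) ^ n :=
        pow_le_pow_right₀ (by norm_num) (by omega)
      have := hsi k
      nlinarith

end Pool.Agent.VRR
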