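import Pool.Agent.VRR.Targets2
import Pool.Agent.VRC.P_DIV

set_option autoImplicit false

/-!
# VRR, target DIV: the diagonal case
-/

namespace Pool.Agent.VRR

open MeasureTheory FourierTransform Set Filter Topology
open scoped ENNReal NNReal
open Pool.Agent.CAR (e1)
open Pool.Agent.CRR (Ph StripD FS FA fh NN HH NSol kap aa de la si ww xc band)
open Pool.Agent.CRR.DIA_ (fh_cont fh_planch)
open Pool.Agent.VRC (NF GG2)
open Pool.Agent.VRC.DIV_ (NF_eq GG2_window)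

namespace DIV_

theorem NV_eq (r w : ℝ) (h : ℝ → ℂ) (i : ℤ) (X : ℝ) :
    NV r w h i X = VC r ((Ioc (i * w) ((i + 1) * w)).indicator h) X := by
  unfold NV Vo VC
  simp only [NF_eq]

end DIV_

open DIV_ in
theorem p_DIV (_h0 : T_REX) (h1 : T_C4) : T_DIV := by
  obtain ⟨C, hR⟩ := h1
  refine ⟨C, ?_⟩
  intro r hr2 hr4 w H hw hH
  set D : ℝ≥0∞ := C * ENNReal.ofReal (kr r ^ 6) with hD
  have hfc : Continuous (fh H) := fh_cont hH.int
  have hwin : ∀ i : ℤ, ∫⁻ X : ℝ, NV r w (fh H) i X ^ 2 ≤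
      D * ∫⁻ v in Ioc (i • w) ((i + 1) • w), ‖fh H v‖ₑ ^ 2 := by
    intro i
    have hG : GG2 ((Ioc (i * w) ((i + 1) * w)).indicator (fh H)) :=
      GG2_window hfc _ _
    have h2 := hR r hr2 hr4 _ hG
    simp only [← NV_eq] at h2
    refine h2.trans (mul_le_mul_right ?_ _)
    have h3 : (fun r => ‖(Ioc (i * w) ((i + 1) * w)).indicator (fh H) r‖ₑ ^ 2) =
        (Ioc (i * w) ((i + 1) * w)).indicator (fun r => ‖fh H r‖ₑ ^ 2) := by
      funext r
      by_cases hr : r ∈ Ioc (i * w) ((i + 1) * w)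
      · rw [indicator_of_mem hr, indicator_of_mem hr]
      · rw [indicator_of_notMem hr, indicator_of_notMem hr]
        simp
    have h4 : Ioc (i • w) ((i + 1) • w) = Ioc (i * w) ((i + 1) * w) := by
      rw [zsmul_eq_mul, zsmul_eq_mul]
      push_cast
      rfl
    rw [h3, h4, ← lintegral_indicator measurableSet_Ioc]
  calc ∑' i : ℤ, ∫⁻ X : ℝ, NV r w (fh H) i X ^ 2
      ≤ ∑' i : ℤ, D * ∫⁻ v in Ioc (i • w) ((i + 1) • w), ‖fh H v‖ₑ ^ 2 :=
        ENNReal.tsum_le_tsum hwin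
    _ = D * ∑' i : ℤ, ∫⁻ v in Ioc (i • w) ((i + 1) • w), ‖fh H v‖ₑ ^ 2 :=
        ENNReal.tsum_mul_left
    _ = D * ∫⁻ v in ⋃ i : ℤ, Ioc (i • w) ((i + 1) • w), ‖fh H v‖ₑ ^ 2 := by
        rw [lintegral_iUnion (fun i => measurableSet_Ioc) (pairwise_disjoint_Ioc_zsmul w)]
    _ ≤ D * ∫⁻ v, ‖fh H v‖ₑ ^ 2 := by
        gcongr
        exact Measure.restrict_le_self
    _ = D * ∫⁻ s, ‖H s‖ₑ ^ 2 := by rw [fh_planch hH]

end Pool.Agent.VRR
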