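import Pool.Agent.VRR.Targets2
import Pool.Agent.VRC.P_HAV

set_option autoImplicit false

/-!
# VRR: the `V^r` theorem for the Hankel transform, uniformly in the order (target HAV)
-/

namespace Pool.Agent.VRR

open MeasureTheory FourierTransform Set Filter Topology
open scoped ENNReal NNReal ComplexConjugate
open Pool.Agent.CAR (e1)
open Pool.Agent.CRR (Ph StripD FS FA fh NN HH NSol kap aa de la si ww xc band)
open Pool.Agent.CRR.HANK_ (T T_cont T_int T_sub_le set_meas two le_sqrt cs schur approx kap_cont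
  KK KK_meas lint_eq bdd_loc)
open Pool.Agent.VRC.HAV_ (sq_liminf int_loc)

namespace HAV_

variable {κ : ℝ → ℂ} {c : ℝ} {g : ℝ → ℂ} {r : ℝ}

/-- the variation in the oscillatory region -/
noncomputable def TV (r : ℝ) (κ : ℝ → ℂ) (c : ℝ) (g : ℝ → ℂ) (u : ℝ) : ℝ≥0∞ :=
  Vo r (T κ c g u)

theorem TV_meas (hκ : Continuous κ) (hg : MemLp g 2 volume) : Measurable (TV r κ c g) := by
  refine LowerSemicontinuous.measurable ?_
  refine lowerSemicontinuous_iSup fun L => lowerSemicontinuous_iSup fun N =>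
    lowerSemicontinuous_iSup fun hN => ?_
  refine Continuous.lowerSemicontinuous ?_
  refine ENNReal.continuous_rpow_const.comp (continuous_finsetSum _ fun j _ => ?_)
  exact ENNReal.continuous_rpow_const.comp (T_cont hκ hg (N j) (N (j + 1))).enorm

theorem limit (hr : 2 < r) (hr4 : r ≤ 4) (hV : T_VCO) (hκ : Continuous κ)
    (hg : MemLp g 2 volume) (C : ℝ≥0∞) (hC : C ≠ ⊤)
    {G : ℕ → ℝ → ℂ} (hG : ∀ n, MemLp (G n) 2 volume)
    (hlim : Tendsto (fun n => ∫⁻ v, ‖g v - G n v‖ₑ ^ 2) atTop (𝓝 0))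
    (hb : ∀ n, ∫⁻ u, TV r κ c (G n) u ^ 2 ≤ C * ∫⁻ v, ‖G n v‖ₑ ^ 2) :
    ∫⁻ u, TV r κ c g u ^ 2 ≤ 2 * C * ∫⁻ v, ‖g v‖ₑ ^ 2 := by
  have h1 : ∀ u, TV r κ c g u ^ 2 ≤ liminf (fun n => TV r κ c (G n) u ^ 2) atTop := by
    intro u
    rw [← sq_liminf]
    gcongr
    refine (hV r hr hr4).2.2.2.2.1 _ _ fun V1 V2 _ => ?_
    obtain ⟨M, hM, hMb⟩ := T_sub_le (c := c) hκ u V1 V2
    rw [tendsto_iff_edist_tendsto_0]
    have h2 : Tendsto (fun n => M * ∫⁻ v, ‖g v - G n v‖ₑ ^ 2) atTop (𝓝 0) := by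
      have := ENNReal.Tendsto.const_mul (a := M) hlim (Or.inr hM)
      rwa [mul_zero] at this
    have h3 : Tendsto (fun n => (M * ∫⁻ v, ‖g v - G n v‖ₑ ^ 2) ^ (1 / (2 : ℝ))) atTop (𝓝 0) := by
      have := h2.ennrpow_const (1 / (2 : ℝ))
      rwa [ENNReal.zero_rpow_of_pos (by norm_num)] at this
    refine tendsto_of_tendsto_of_tendsto_of_le_of_le tendsto_const_nhds h3
      (fun n => zero_le) fun n => ?_
    refine le_sqrt ?_
    rw [edist_comm, edist_eq_enorm_sub]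
    exact hMb g (G n) hg (hG n)
  calc ∫⁻ u, TV r κ c g u ^ 2
      ≤ ∫⁻ u, liminf (fun n => TV r κ c (G n) u ^ 2) atTop := lintegral_mono h1
    _ ≤ liminf (fun n => ∫⁻ u, TV r κ c (G n) u ^ 2) atTop :=
        lintegral_liminf_le fun n => (TV_meas hκ (hG n)).pow_const 2
    _ ≤ liminf (fun n => C * (2 * (∫⁻ v, ‖g v‖ₑ ^ 2) +
        2 * (∫⁻ v, ‖g v - G n v‖ₑ ^ 2))) atTop := by
        refine liminf_le_liminf (Eventually.of_forall fun n => (hb n).trans ?_)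
        gcongr
        rw [← lintegral_const_mul', ← lintegral_const_mul', ← lintegral_add_left']
        · refine lintegral_mono fun v => ?_
          refine le_trans ?_ (two _ _)
          gcongr
          calc ‖G n v‖ₑ = ‖g v - (g v - G n v)‖ₑ := by congr 1; ring
            _ ≤ ‖g v‖ₑ + ‖g v - G n v‖ₑ := enorm_sub_le
        · exact (hg.aestronglyMeasurable.enorm.pow_const 2).const_mul 2
        · norm_num
        · norm_num
    _ = C * (2 * (∫⁻ v, ‖g v‖ₑ ^ 2) + 2 * 0) := by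
        refine Tendsto.liminf_eq ?_
        refine ENNReal.Tendsto.const_mul ?_ (Or.inr hC)
        refine Tendsto.const_add _ ?_
        exact ENNReal.Tendsto.const_mul hlim (Or.inr (by norm_num))
    _ = _ := by ring

theorem point (hr : 2 < r) (hr4 : r ≤ 4) (hV : T_VCO) (hκ : Continuous κ) (hgm : Measurable g)
    (hg : MemLp g 2 volume) (c u : ℝ) :
    Vo r (fun V1 V2 => ∫ v in Ioc V1 V2, κ (u + v) * g v) ≤
      TV r κ c g u + ∫⁻ v, KK κ c (u + v) * ‖g v‖ₑ := by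
  have hms : MeasurableSet {v | c ≤ u + v} :=
    measurableSet_le measurable_const (measurable_const_add u)
  refine ((hV r hr hr4).2.2.2.2.2.2 _ (T κ c g u)
    (fun V1 V2 => ∫ v in Ioc V1 V2 \ {v | c ≤ u + v}, κ (u + v) * g v) fun a b _ => ?_).trans ?_
  · rw [← integral_inter_add_sdiff hms (int_loc hκ hg u a b)]
    exact enorm_add_le _ _
  · refine add_le_add le_rfl ?_
    refine (hV r hr hr4).2.2.2.1 _ _ ?_ fun a b _ => ?_
    · exact ((KK_meas hκ c).comp (measurable_const_add u)).mul hgm.enorm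
    · refine (enorm_integral_le_lintegral_enorm _).trans ?_
      rw [← lintegral_indicator (measurableSet_Ioc.diff hms), ← lintegral_indicator
        measurableSet_Ioc]
      refine lintegral_mono fun v => ?_
      by_cases hv : v ∈ Ioc a b \ {v | c ≤ u + v}
      · rw [indicator_of_mem hv, indicator_of_mem hv.1, enorm_mul]
        unfold KK
        rw [indicator_of_mem]
        have hv2 : ¬ c ≤ u + v := hv.2
        exact (not_le.1 hv2).le
      · rw [indicator_of_notMem hv]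
        exact zero_le

end HAV_

open HAV_ in
/-- HAV. -/
theorem p_HAV (h0 : T_REX) (h1 : Pool.Agent.CRR.T_LOW) (h2 : T_HIV) (h3 : T_VCO) (_h4 : T_VCM) :
    T_HAV := by
  obtain ⟨C1, hC1⟩ := h1
  obtain ⟨C2, hC2⟩ := h2
  refine ⟨2 * C1 ^ 2 + 4 * C2 + 1, fun r hr hr4 ν J J' g hν hJ hg => ?_⟩
  have hK : 1 ≤ ENNReal.ofReal (kr r ^ 14) := by
    have hk : 2 ≤ kr r := (h0 r hr hr4).2.2.2.2.2.2.2.2.1
    rw [ENNReal.one_le_ofReal]
    exact one_le_pow₀ (by linarith)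
  set K : ℝ≥0∞ := ENNReal.ofReal (kr r ^ 14) with hKd
  have hκ := kap_cont hJ.sol
  by_cases hfin : ∫⁻ v, ‖g v‖ₑ ^ 2 = ⊤
  · rw [hfin, ENNReal.mul_top]
    · exact le_top
    · refine mul_ne_zero ?_ (zero_lt_one.trans_le hK).ne'
      push_cast
      positivity
  have hgL : MemLp g 2 volume := by
    refine ⟨hg.aestronglyMeasurable, ?_⟩
    rw [lint_eq] at hfin
    exact lt_top_iff_ne_top.2 fun h0 => hfin (by rw [h0]; simp)
  obtain ⟨G, hG, hlim⟩ := approx hgL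
  have hT : ∫⁻ u, TV r (kap J) (xc ν) g u ^ 2 ≤ 2 * (C2 * K) * ∫⁻ v, ‖g v‖ₑ ^ 2 := by
    refine limit hr hr4 h3 hκ hgL (C2 * K)
      (ENNReal.mul_ne_top ENNReal.coe_ne_top ENNReal.ofReal_ne_top)
      (fun n => (hG n).1) hlim fun n => ?_
    obtain ⟨H, hH, hH1, hH2⟩ := (hG n).2
    have := hC2 r hr hr4 ν J J' H hν hJ hH
    rw [hH1, hH2] at this
    exact this
  have hS : ∫⁻ u, (∫⁻ v, KK (kap J) (xc ν) (u + v) * ‖g v‖ₑ) ^ 2 ≤
      C1 ^ 2 * ∫⁻ v, ‖g v‖ₑ ^ 2 := by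
    refine (schur (KK_meas hκ (xc ν)) hg.enorm).trans ?_
    gcongr
    unfold KK
    rw [lintegral_indicator measurableSet_Iic]
    exact hC1 ν J J' hν hJ
  have hm : Measurable fun u => ∫⁻ v, KK (kap J) (xc ν) (u + v) * ‖g v‖ₑ := by
    refine Measurable.lintegral_prod_right'
      (f := fun p : ℝ × ℝ => KK (kap J) (xc ν) (p.1 + p.2) * ‖g p.2‖ₑ) ?_
    exact ((KK_meas hκ (xc ν)).comp (measurable_fst.add measurable_snd)).mul
      (hg.comp measurable_snd).enorm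
  calc ∫⁻ u, Vo r (fun V1 V2 => ∫ v in Ioc V1 V2, kap J (u + v) * g v) ^ 2
      ≤ ∫⁻ u, (2 * (∫⁻ v, KK (kap J) (xc ν) (u + v) * ‖g v‖ₑ) ^ 2 +
          2 * TV r (kap J) (xc ν) g u ^ 2) := by
        refine lintegral_mono fun u => le_trans ?_ (two _ _)
        gcongr
        rw [add_comm]
        exact point hr hr4 h3 hκ hg hgL (xc ν) u
    _ = 2 * (∫⁻ u, (∫⁻ v, KK (kap J) (xc ν) (u + v) * ‖g v‖ₑ) ^ 2) +
          2 * (∫⁻ u, TV r (kap J) (xc ν) g u ^ 2) := by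
        rw [lintegral_add_left ((hm.pow_const 2).const_mul 2),
          lintegral_const_mul' _ _ (by norm_num), lintegral_const_mul' _ _ (by norm_num)]
    _ ≤ 2 * (C1 ^ 2 * ∫⁻ v, ‖g v‖ₑ ^ 2) + 2 * (2 * (C2 * K) * ∫⁻ v, ‖g v‖ₑ ^ 2) := by
        gcongr
    _ ≤ 2 * (C1 ^ 2 * K * ∫⁻ v, ‖g v‖ₑ ^ 2) + 2 * (2 * (C2 * K) * ∫⁻ v, ‖g v‖ₑ ^ 2) := by
        gcongr
        exact le_mul_of_one_le_right zero_le hK
    _ = ((2 * C1 ^ 2 + 4 * C2 : ℝ≥0) : ℝ≥0∞) * K * ∫⁻ v, ‖g v‖ₑ ^ 2 := by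
        push_cast
        ring
    _ ≤ _ := by
        refine mul_le_mul_left (mul_le_mul_left (ENNReal.coe_le_coe.2 ?_) _) _
        exact le_self_add

end Pool.Agent.VRR
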