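import Pool.Agent.VRR.Targets2
import Pool.Agent.VRC.P_HIV

set_option autoImplicit false

/-!
# VRR: HIV: the oscillatory region, `r`-variation norm
-/

namespace Pool.Agent.VRR

open MeasureTheory FourierTransform Set Filter Topology
open scoped ENNReal NNReal
open Pool.Agent.CAR (e1)
open Pool.Agent.CRR (Ph StripD FS FA fh NN HH NSol kap aa de la si ww xc band)

namespace HIV_

lemma rp {r : ℝ} (hr : 0 < r) (x y : ℝ≥0∞) : x ^ (1 / r) ≤ y ↔ x ≤ y ^ r := by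
  rw [one_div, ENNReal.rpow_inv_le_iff hr]

lemma self_rp {r : ℝ} (hr : 0 < r) (x : ℝ≥0∞) : (x ^ r) ^ (1 / r) = x := by
  rw [← ENNReal.rpow_mul, mul_one_div_cancel hr.ne', ENNReal.rpow_one]

lemma rp_self {r : ℝ} (hr : 0 < r) (x : ℝ≥0∞) : (x ^ (1 / r)) ^ r = x := by
  rw [← ENNReal.rpow_mul, one_div_mul_cancel hr.ne', ENNReal.rpow_one]

/-- `ℓ^p ≤ ℓ^1`, `p ≥ 1` -/
lemma tsum_rpow_le {p : ℝ} (hp : 1 ≤ p) (a : ℕ → ℝ≥0∞) : ∑' k, a k ^ p ≤ (∑' k, a k) ^ p := by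
  have h0 : (0 : ℝ) ≤ p - 1 := by linarith
  have e : ∀ x : ℝ≥0∞, x ^ p = x * x ^ (p - 1) := by
    intro x
    conv_lhs => rw [show p = 1 + (p - 1) by ring]
    rw [ENNReal.rpow_add_of_nonneg _ _ zero_le_one h0, ENNReal.rpow_one]
  calc ∑' k, a k ^ p ≤ ∑' k, a k * (∑' i, a i) ^ (p - 1) := by
        refine ENNReal.tsum_le_tsum fun k => ?_
        rw [e]
        gcongr
        exact ENNReal.le_tsum k
    _ = _ := by rw [ENNReal.tsum_mul_right, ← e]

/-- `ℓ^r ≤ ℓ²` -/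
lemma tsumr {r : ℝ} (hr : 2 ≤ r) (f : ℕ → ℝ≥0∞) :
    (∑' k, f k ^ r) ^ (1 / r) ≤ (∑' k, f k ^ 2) ^ (1 / 2 : ℝ) := by
  have h1 : ∑' k, f k ^ r ≤ (∑' k, f k ^ 2) ^ (r / 2) := by
    have h2 := tsum_rpow_le (p := r / 2) (by linarith) (fun k => f k ^ 2)
    refine le_trans (le_of_eq ?_) h2
    congr 1
    funext k
    rw [← ENNReal.rpow_natCast, ← ENNReal.rpow_mul]
    congr 1
    push_cast
    ring
  rw [rp (by linarith)]
  refine h1.trans (le_of_eq ?_)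
  rw [← ENNReal.rpow_mul]
  congr 1
  ring

lemma le_vo {r : ℝ} (hr : 0 < r) (F : ℝ → ℝ → ℂ) (L : ℕ) {N : ℕ → ℝ} (hN : Monotone N) :
    ∑ j ∈ Finset.range L, ‖F (N j) (N (j + 1))‖ₑ ^ r ≤ Vo r F ^ r := by
  rw [← rp hr]
  unfold Vo
  exact le_iSup_of_le L (le_iSup_of_le N (le_iSup_of_le hN le_rfl))

lemma le_vs {r : ℝ} (z : ℕ → ℂ) (L : ℕ) {t : ℕ → ℕ} (ht : Monotone t) :
    (∑ i ∈ Finset.range L, ‖z (t (i + 1)) - z (t i)‖ₑ ^ r) ^ (1 / r) ≤ Vs r z := by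
  unfold Vs
  exact le_iSup_of_le L (le_iSup_of_le t (le_iSup_of_le ht le_rfl))

/-- the sequence of the end points -/
lemma tail_bound {r : ℝ} (hr : 0 < r) (z : ℕ → ℂ) (L : ℕ) {n : ℕ → ℕ} (hn : Monotone n) :
    (∑ j ∈ Finset.range L, ‖z (max (n j) (n (j + 1) - 1)) - z (n j)‖ₑ ^ r) ^ (1 / r) ≤
      Vs r z := by
  set t : ℕ → ℕ := fun i => if i % 2 = 0 then n (i / 2) else max (n (i / 2)) (n (i / 2 + 1) - 1)
    with ht
  have e0 : ∀ j, t (2 * j) = n j := by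
    intro j
    simp only [ht]
    rw [if_pos (by omega)]
    congr 1
    omega
  have e1 : ∀ j, t (2 * j + 1) = max (n j) (n (j + 1) - 1) := by
    intro j
    simp only [ht]
    rw [if_neg (by omega)]
    have : (2 * j + 1) / 2 = j := by omega
    rw [this]
  have hmon : Monotone t := by
    refine monotone_nat_of_le_succ fun i => ?_
    rcases Nat.even_or_odd' i with ⟨q, rfl | rfl⟩
    · rw [e0, e1]
      exact le_max_left _ _
    · rw [e1, show 2 * q + 1 + 1 = 2 * (q + 1) by ring, e0]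
      have := hn (Nat.le_succ q)
      exact max_le this (Nat.sub_le _ _)
  have h1 := le_vs (r := r) z (2 * L) hmon
  refine le_trans ?_ h1
  have h2 := Pool.Agent.VRC.HIV_.even_sum (fun i => ‖z (t (i + 1)) - z (t i)‖ₑ ^ r) L
  refine ENNReal.rpow_le_rpow ?_ (by positivity)
  refine le_trans (le_of_eq ?_) h2
  refine Finset.sum_congr rfl fun j _ => ?_
  simp only [e0, e1]

/-- measurability of the variation of a sequence -/
lemma vs_meas {r : ℝ} {α : Type*} [MeasurableSpace α] {z : α → ℕ → ℂ}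
    (hz : ∀ n, Measurable (fun u => z u n)) : Measurable (fun u => Vs r (z u)) := by
  have h1 : ∀ u, Vs r (z u) = ⨆ (L : ℕ) (s : Fin (L + 1) → ℕ)
      (_ : Monotone fun i : ℕ => s ⟨min i L, by omega⟩),
      (∑ i ∈ Finset.range L, ‖z u (s ⟨min (i + 1) L, by omega⟩) -
        z u (s ⟨min i L, by omega⟩)‖ₑ ^ r) ^ (1 / r) := by
    intro u
    unfold Vs
    refine le_antisymm ?_ ?_
    · refine iSup_le fun L => iSup_le fun t => iSup_le fun ht => ?_
      refine le_iSup_of_le L (le_iSup_of_le (fun i => t i) (le_iSup_of_le ?_ ?_))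
      · intro i i' hi
        exact ht (min_le_min_right L hi)
      · refine le_of_eq ?_
        congr 1
        refine Finset.sum_congr rfl fun i hi => ?_
        rw [Finset.mem_range] at hi
        simp only
        rw [min_eq_left (by omega : i + 1 ≤ L), min_eq_left hi.le]
    · refine iSup_le fun L => iSup_le fun s => iSup_le fun hs => ?_
      exact le_iSup_of_le L (le_iSup_of_le (fun i : ℕ => s ⟨min i L, by omega⟩)
        (le_iSup_of_le hs le_rfl))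
  simp only [h1]
  refine Measurable.iSup fun L => Measurable.iSup fun s => Measurable.iSup fun _ => ?_
  refine Measurable.pow_const ?_ _
  refine Finset.measurable_sum _ fun i _ => ?_
  exact (((hz _).sub (hz _)).enorm).pow_const r

/-- Minkowski -/
lemma mink {r : ℝ} (hr : 1 ≤ r) (L : ℕ) (I x w : ℕ → ℝ≥0∞) (h : ∀ j, I j ≤ x j + x j + w j) :
    (∑ j ∈ Finset.range L, I j ^ r) ^ (1 / r) ≤
      2 * (∑ j ∈ Finset.range L, x j ^ r) ^ (1 / r) +
        (∑ j ∈ Finset.range L, w j ^ r) ^ (1 / r) := by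
  have h0 : (0 : ℝ) ≤ 1 / r := by positivity
  calc (∑ j ∈ Finset.range L, I j ^ r) ^ (1 / r)
      ≤ (∑ j ∈ Finset.range L, ((fun i => x i + x i) j + w j) ^ r) ^ (1 / r) := by
        refine ENNReal.rpow_le_rpow (Finset.sum_le_sum fun j _ => ?_) h0
        exact ENNReal.rpow_le_rpow (h j) (by linarith)
    _ ≤ (∑ j ∈ Finset.range L, (x j + x j) ^ r) ^ (1 / r) +
        (∑ j ∈ Finset.range L, w j ^ r) ^ (1 / r) := ENNReal.Lp_add_le _ _ _ hr
    _ ≤ ((∑ j ∈ Finset.range L, x j ^ r) ^ (1 / r) +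
          (∑ j ∈ Finset.range L, x j ^ r) ^ (1 / r)) +
        (∑ j ∈ Finset.range L, w j ^ r) ^ (1 / r) := by
        gcongr
        exact ENNReal.Lp_add_le _ _ _ hr
    _ = _ := by ring

end HIV_

open HIV_

theorem p_HIV (h0 : T_REX) (h1 : Pool.Agent.CRR.T_SEQ) (h2 : T_PAV) (h3 : T_TAV) : T_HIV := by
  obtain ⟨C2, hC2⟩ := h2
  obtain ⟨C3, hC3⟩ := h3
  refine ⟨8 * C2 + 2 * C3, fun r hr hr4 ν J J' H hν hN hH => ?_⟩
  have hr0 : 0 < r := by linarith
  have hr1 : 1 ≤ r := by linarith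
  have hk2 : 2 ≤ kr r := (h0 r hr hr4).2.2.2.2.2.2.2.2.1
  obtain ⟨-, hinf, hk⟩ := h1 ν hν
  have had : ∀ k, aa ν (k + 1) = aa ν k + de ν k := fun k => (hk k).2.2.2.1
  have hd : ∀ k, 0 < de ν k := fun k => (hk k).2.1
  have hκ := Pool.Agent.CRR.HI_.kap_cont hN.sol
  have hh := Pool.Agent.CRR.HI_.fh_cont hH.int
  have e2 := hC2 r hr hr4 ν J J' H hν hN hH
  have e3 := hC3 r hr hr4 ν J J' H hν hN hH
  obtain ⟨n, hnm, hn⟩ := Pool.Agent.VRC.HIV_.exists_index hinf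
  set G : ℕ → ℝ → ℝ → ℝ → ℂ := fun k u => FS (kap J) (aa ν k) (de ν k) (fh H) u with hG
  set S : ℝ → ℝ≥0∞ := fun u => ∑' k : ℕ, Vo r (G k u) ^ 2 with hS
  set z : ℝ → ℕ → ℂ := fun u n => ∑ k ∈ Finset.range n, FA (kap J) (aa ν k) (de ν k) (fh H) u
    with hz
  have hzm : Measurable (fun u => Vs r (z u)) := by
    refine vs_meas fun n => ?_
    exact Finset.measurable_sum _ fun k _ => Pool.Agent.CRR.HI_.fa_meas hκ hh _ _
  have hpt : ∀ u, Vo r (fun V1 V2 => ∫ v in Ioc V1 V2 ∩ {v | xc ν ≤ u + v},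
      kap J (u + v) * fh H v) ^ 2 ≤ 8 * S u + 2 * Vs r (z u) ^ 2 := by
    intro u
    have hmain : Vo r (fun V1 V2 => ∫ v in Ioc V1 V2 ∩ {v | xc ν ≤ u + v},
        kap J (u + v) * fh H v) ≤ 2 * S u ^ (1 / 2 : ℝ) + Vs r (z u) := by
      unfold Vo
      refine iSup_le fun L => iSup_le fun N => iSup_le fun hN' => ?_
      have hnj : Monotone (fun j => n (u + N j)) := fun i j hij =>
        hnm (by have := hN' hij; linarith)
      set x : ℕ → ℝ≥0∞ := fun j => (∑' k, ‖G k u (N j) (N (j + 1))‖ₑ ^ r) ^ (1 / r) with hx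
      have hle : ∀ j m, ‖G m u (N j) (N (j + 1))‖ₑ ≤ x j := by
        intro j m
        rw [hx]
        calc ‖G m u (N j) (N (j + 1))‖ₑ = (‖G m u (N j) (N (j + 1))‖ₑ ^ r) ^ (1 / r) :=
              (self_rp hr0 _).symm
          _ ≤ _ := by
            refine ENNReal.rpow_le_rpow ?_ (by positivity)
            exact ENNReal.le_tsum (f := fun k => ‖G k u (N j) (N (j + 1))‖ₑ ^ r) m
      have hb : ∀ j, ‖∫ v in Ioc (N j) (N (j + 1)) ∩ {v | xc ν ≤ u + v},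
          kap J (u + v) * fh H v‖ₑ ≤ x j + x j +
            ‖z u (max (n (u + N j)) (n (u + N (j + 1)) - 1)) - z u (n (u + N j))‖ₑ := by
        intro j
        have hp := Pool.Agent.VRC.HIV_.pw2 hκ hh had hd (hnj (Nat.le_succ j)) (hn (u + N j)).1
          (hn (u + N j)).2 (hn (u + N (j + 1))).1 (hn (u + N (j + 1))).2
        refine le_trans hp ?_
        gcongr
        · exact hle _ _
        · exact hle _ _
      refine (mink hr1 L _ x _ hb).trans ?_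
      have hX : (∑ j ∈ Finset.range L, x j ^ r) ^ (1 / r) ≤ S u ^ (1 / 2 : ℝ) := by
        have hs1 : ∑ j ∈ Finset.range L, x j ^ r ≤ ∑' k, Vo r (G k u) ^ r := by
          have e : ∀ j, x j ^ r = ∑' k, ‖G k u (N j) (N (j + 1))‖ₑ ^ r := fun j =>
            rp_self hr0 _
          simp only [e]
          rw [← Summable.tsum_finsetSum fun _ _ => ENNReal.summable]
          exact ENNReal.tsum_le_tsum fun k => le_vo hr0 (G k u) L hN'
        refine (ENNReal.rpow_le_rpow hs1 (by positivity)).trans ?_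
        exact tsumr hr.le fun k => Vo r (G k u)
      have hW := tail_bound hr0 (z u) L hnj
      gcongr
    calc _ ≤ (2 * S u ^ (1 / 2 : ℝ) + Vs r (z u)) ^ 2 := by gcongr
      _ ≤ 2 * ((2 * S u ^ (1 / 2 : ℝ)) ^ 2 + Vs r (z u) ^ 2) := Pool.Agent.CRR.HI_.sq2 _ _
      _ = _ := by
        have e : (S u ^ (1 / 2 : ℝ)) ^ 2 = S u := by
          rw [← ENNReal.rpow_natCast, ← ENNReal.rpow_mul]
          norm_num
        rw [mul_pow, e]
        ring
  have hK : ENNReal.ofReal (kr r ^ 6) ≤ ENNReal.ofReal (kr r ^ 14) :=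
    ENNReal.ofReal_le_ofReal (pow_le_pow_right₀ (by linarith) (by norm_num))
  calc _ ≤ ∫⁻ u, (8 * S u + 2 * Vs r (z u) ^ 2) := lintegral_mono hpt
    _ = (∫⁻ u, 8 * S u) + ∫⁻ u, 2 * Vs r (z u) ^ 2 :=
        lintegral_add_right _ ((hzm.pow_const 2).const_mul 2)
    _ = 8 * (∫⁻ u, S u) + 2 * ∫⁻ u, Vs r (z u) ^ 2 := by
        rw [lintegral_const_mul' _ _ (by norm_num), lintegral_const_mul' _ _ (by norm_num)]
    _ ≤ 8 * (C2 * ENNReal.ofReal (kr r ^ 14) * ∫⁻ s, ‖H s‖ₑ ^ 2) +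
        2 * (C3 * ENNReal.ofReal (kr r ^ 6) * ∫⁻ s, ‖H s‖ₑ ^ 2) := by gcongr
    _ ≤ 8 * (C2 * ENNReal.ofReal (kr r ^ 14) * ∫⁻ s, ‖H s‖ₑ ^ 2) +
        2 * (C3 * ENNReal.ofReal (kr r ^ 14) * ∫⁻ s, ‖H s‖ₑ ^ 2) := by gcongr
    _ = _ := by push_cast; ring

end Pool.Agent.VRR
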