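import Pool.Agent.VRR.Targets
import Pool.Agent.VRC.P_VINT

set_option autoImplicit false

/-!
# VRR-INT: Marcinkiewicz interpolation for the variational model sum
-/

namespace Pool.Agent.VRR

open MeasureTheory Set ComplexConjugate Filter Topology
open scoped ENNReal NNReal
open Pool.Agent.CAR
open Pool.Agent.VRC (PQ Act vc vav)

namespace INT_

open Pool.Agent.CAR.INT_
open Pool.Agent.VRC.VINT_ (meas_act meas_vc vc_ind vc_div vav_div sum_div dec ind_bd lin' lin2'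
  vav_lv)

variable {L : ℕ} {p q : ℕ → ℝ → ℝ} {a : ℕ → ℝ → ℂ} {r : ℝ}

/-! ### the amplitude as a function of class `BF` -/

lemma sum_nn (r : ℝ) (L : ℕ) (a : ℕ → ℝ → ℂ) (x : ℝ) :
    0 ≤ ∑ j ∈ Finset.range L, ‖a j x‖ ^ rc r :=
  Finset.sum_nonneg fun _ _ => Real.rpow_nonneg (norm_nonneg _) _

lemma amp_nn (r : ℝ) (L : ℕ) (a : ℕ → ℝ → ℂ) (x : ℝ) : 0 ≤ amp r L a x :=
  Real.rpow_nonneg (sum_nn r L a x) _

lemma amp_pow (hr : rc r * (1 - 1 / r) = 1) (L : ℕ) (a : ℕ → ℝ → ℂ) (x : ℝ) :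
    amp r L a x ^ rc r = ∑ j ∈ Finset.range L, ‖a j x‖ ^ rc r := by
  rw [amp, ← Real.rpow_mul (sum_nn r L a x), mul_comm (1 - 1 / r), hr, Real.rpow_one]

lemma amp_le_iff (h0 : 0 < rc r) (hr : rc r * (1 - 1 / r) = 1) (L : ℕ) (a : ℕ → ℝ → ℂ)
    (x : ℝ) {c : ℝ} (hc : 0 ≤ c) :
    amp r L a x ≤ c ↔ ∑ j ∈ Finset.range L, ‖a j x‖ ^ rc r ≤ c ^ rc r := by
  rw [← amp_pow hr]
  exact (Real.rpow_le_rpow_iff (amp_nn r L a x) hc h0).symm

lemma a_le_amp (h0 : 0 < rc r) (hr : rc r * (1 - 1 / r) = 1) (L : ℕ) (a : ℕ → ℝ → ℂ)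
    (x : ℝ) {j : ℕ} (hj : j < L) : ‖a j x‖ ≤ amp r L a x := by
  have h1 : ‖a j x‖ ^ rc r ≤ amp r L a x ^ rc r := by
    rw [amp_pow hr]
    exact Finset.single_le_sum (f := fun j => ‖a j x‖ ^ rc r)
      (fun _ _ => Real.rpow_nonneg (norm_nonneg _) _) (Finset.mem_range.2 hj)
  exact (Real.rpow_le_rpow_iff (norm_nonneg _) (amp_nn r L a x) h0).1 h1

/-- the amplitude, complex valued -/
noncomputable def G (r : ℝ) (L : ℕ) (a : ℕ → ℝ → ℂ) (x : ℝ) : ℂ := (amp r L a x : ℂ)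

lemma norm_G (r : ℝ) (L : ℕ) (a : ℕ → ℝ → ℂ) (x : ℝ) : ‖G r L a x‖ = amp r L a x := by
  rw [G, Complex.norm_real, Real.norm_of_nonneg (amp_nn r L a x)]

lemma n2_G (r : ℝ) (L : ℕ) (a : ℕ → ℝ → ℂ) : n2 (G r L a) = na r L a := by
  unfold n2 na
  simp only [norm_G]

lemma BF_G (h0 : 0 < rc r) (hr : rc r * (1 - 1 / r) = 1) {h : ℝ} {E : Set ℝ}
    (ha : AB r L a h E) : BF h E (G r L a) := by
  have h1 : (1 - 1 / r) ≠ 0 := by
    intro h
    rw [h, mul_zero] at hr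
    exact zero_ne_one hr
  refine ⟨?_, ha.mE, ha.fE, ha.h0, fun x => ?_, fun x hx => ?_⟩
  · refine Complex.measurable_ofReal.comp ?_
    unfold amp
    exact (Finset.measurable_fun_sum _ fun j _ => ((ha.ma j).norm.pow_const _)).pow_const _
  · rw [norm_G, amp_le_iff h0 hr L a x ha.h0]
    exact ha.bd x
  · have h2 : ∑ j ∈ Finset.range L, ‖a j x‖ ^ rc r = 0 := by
      refine Finset.sum_eq_zero fun j hj => ?_
      rw [ha.z j (Finset.mem_range.1 hj) x hx, norm_zero, Real.zero_rpow h0.ne']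
    rw [G, amp, h2, Real.zero_rpow h1]
    simp

lemma vc_bd (h0 : 0 < rc r) (hr : rc r * (1 - 1 / r) = 1) (s : Tile) (x : ℝ) :
    ‖vc L p q a s x‖ ≤ (L : ℝ) * ‖G r L a x‖ := by
  unfold vc
  refine (norm_sum_le _ _).trans ?_
  have : ∑ j ∈ Finset.range L, ‖(Act p q s j).indicator (a j) x‖ ≤
      ∑ _j ∈ Finset.range L, ‖G r L a x‖ := by
    refine Finset.sum_le_sum fun j hj => ?_
    rw [norm_G]
    exact (norm_indicator_le_norm_self _ _).trans
      (a_le_amp h0 hr L a x (Finset.mem_range.1 hj))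
  refine this.trans (le_of_eq ?_)
  rw [Finset.sum_const, Finset.card_range, nsmul_eq_mul]

/-! ### the classes `AB` -/

lemma AB_div {h c : ℝ} (hc : 0 < c) {E : Set ℝ} (ha : AB r L a h E) :
    AB r L (fun j y => a j y / (c : ℂ)) (h / c) E := by
  refine ⟨fun j => (ha.ma j).div_const _, ha.mE, ha.fE, div_nonneg ha.h0 hc.le, fun x => ?_,
    fun j hj x hx => ?_⟩
  · have e : ∀ j, ‖a j x / (c : ℂ)‖ ^ rc r = ‖a j x‖ ^ rc r / c ^ rc r := by
      intro j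
      rw [norm_div, Complex.norm_real, Real.norm_of_nonneg hc.le,
        Real.div_rpow (norm_nonneg _) hc.le]
    simp only [e]
    rw [← Finset.sum_div, Real.div_rpow ha.h0 hc.le]
    exact div_le_div_of_nonneg_right (ha.bd x) (Real.rpow_nonneg hc.le _)
  · show a j x / (c : ℂ) = 0
    rw [ha.z j hj x hx, zero_div]

lemma amp_div (hr : rc r * (1 - 1 / r) = 1) {c : ℝ} (hc : 0 < c) (x : ℝ) :
    amp r L (fun j y => a j y / (c : ℂ)) x = amp r L a x / c := by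
  have e : ∀ j, ‖a j x / (c : ℂ)‖ ^ rc r = ‖a j x‖ ^ rc r / c ^ rc r := by
    intro j
    rw [norm_div, Complex.norm_real, Real.norm_of_nonneg hc.le,
      Real.div_rpow (norm_nonneg _) hc.le]
  unfold amp
  simp only [e]
  rw [← Finset.sum_div, Real.div_rpow (sum_nn r L a x) (Real.rpow_nonneg hc.le _),
    ← Real.rpow_mul hc.le, hr, Real.rpow_one]

lemma AB_lv (h0 : 0 < rc r) (hr : rc r * (1 - 1 / r) = 1) {h : ℝ} {E : Set ℝ}
    (ha : AB r L a h E) (k : ℤ) :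
    AB r L (fun j => (lv (G r L a) k).indicator (a j)) ((2 : ℝ) ^ (k + 1))
      (lv (G r L a) k) := by
  have hG := BF_G h0 hr ha
  refine ⟨fun j => (ha.ma j).indicator (lv_meas hG.m k), lv_meas hG.m k, lv_fin hG k,
    (two_zpow_pos _).le, fun x => ?_, fun j _ x hx => indicator_of_notMem hx _⟩
  by_cases hx : x ∈ lv (G r L a) k
  · simp only [indicator_of_mem hx]
    rw [← amp_le_iff h0 hr L a x (two_zpow_pos _).le, ← norm_G]
    exact hx.2
  · simp only [indicator_of_notMem hx, norm_zero]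
    rw [Real.zero_rpow h0.ne', Finset.sum_const_zero]
    exact Real.rpow_nonneg (two_zpow_pos _).le _

lemma swap_le {x y : ℝ} (hx : 0 ≤ x) (hxy : x ≤ y) (h2 : 0 < 1 - 2 / r) (h3 : 0 < 1 / r) :
    x ^ (1 - 1 / r) * y ^ (1 / r) ≤ y ^ (1 - 1 / r) * x ^ (1 / r) := by
  have hy : 0 ≤ y := hx.trans hxy
  have e : 1 - 1 / r = (1 - 2 / r) + 1 / r := by ring
  rw [e, Real.rpow_add_of_nonneg hx h2.le h3.le, Real.rpow_add_of_nonneg hy h2.le h3.le]
  have h := Real.rpow_le_rpow hx hxy h2.le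
  have a1 := Real.rpow_nonneg hx (1 / r)
  have a2 := Real.rpow_nonneg hy (1 / r)
  calc x ^ (1 - 2 / r) * x ^ (1 / r) * y ^ (1 / r)
      = x ^ (1 - 2 / r) * (x ^ (1 / r) * y ^ (1 / r)) := by ring
    _ ≤ y ^ (1 - 2 / r) * (x ^ (1 / r) * y ^ (1 / r)) :=
        mul_le_mul_of_nonneg_right h (mul_nonneg a1 a2)
    _ = y ^ (1 - 2 / r) * y ^ (1 / r) * x ^ (1 / r) := by ring

/-- restricted estimate, both cases -/
lemma restr (hX : T_REX) (hRA : T_RA) (hRB : T_RB) (A : ℝ) :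
    ∃ C : ℝ, 0 < C ∧ ∀ (r : ℝ), 2 < r → r ≤ 4 → ∀ φ Φ : ℝ → ℂ, WPk A φ Φ →
    ∀ (f : ℝ → ℂ) (F : Set ℝ) (L : ℕ) (p q : ℕ → ℝ → ℝ) (a : ℕ → ℝ → ℂ) (E : Set ℝ)
      (c c' : ℝ), 0 < c → 0 < c' → BF c F f → PQ L p q → AB r L a c' E → ∀ S : Finset Tile,
      ∑ s ∈ S, ‖cf φ f s‖ * ‖vav φ L p q a s‖ ≤
        c * c' * (C * kr r ^ 2 * min (vol F ^ (1 - 1 / r) * vol E ^ (1 / r))
          (vol E ^ (1 - 1 / r) * vol F ^ (1 / r))) := by
  obtain ⟨C1, hC1, h1⟩ := hRA A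
  obtain ⟨C2, hC2, h2⟩ := hRB A
  refine ⟨C1 + C2, by positivity, ?_⟩
  intro r hr2 hr4 φ Φ hφ f F L p q a E c c' hc hc' hf hpq ha S
  obtain ⟨-, -, -, -, -, -, r1, -, -, -, r2, -⟩ := hX r hr2 hr4
  have hi : 0 < 1 / r := by linarith
  have hf' := BF_div hc hf
  have ha' := AB_div hc' ha
  rw [div_self hc.ne'] at hf'
  rw [div_self hc'.ne'] at ha'
  rw [sum_div φ f hc hc' S]
  refine mul_le_mul_of_nonneg_left ?_ (by positivity)
  have hE := vol_nonneg E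
  have hF := vol_nonneg F
  have k2 : 0 ≤ kr r ^ 2 := sq_nonneg _
  rcases le_total (vol E) (vol F) with h | h
  · refine (h1 r hr2 hr4 φ Φ hφ _ F L p q _ E hf' hpq ha' h S).trans ?_
    rw [min_eq_right (swap_le hE h r2 hi)]
    refine mul_le_mul_of_nonneg_right ?_
      (mul_nonneg (Real.rpow_nonneg hE _) (Real.rpow_nonneg hF _))
    exact mul_le_mul_of_nonneg_right (by linarith) k2
  · refine (h2 r hr2 hr4 φ Φ hφ _ F L p q _ E hf' hpq ha' h S).trans ?_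
    rw [min_eq_left (swap_le hF h r2 hi)]
    refine mul_le_mul_of_nonneg_right ?_
      (mul_nonneg (Real.rpow_nonneg hF _) (Real.rpow_nonneg hE _))
    exact mul_le_mul_of_nonneg_right (by linarith) k2

lemma vav_zero (h0' : 0 < rc r) (hr : rc r * (1 - 1 / r) = 1) {h : ℝ} {E : Set ℝ}
    (ha : AB r L a h E) (h0 : na r L a = 0) (φ : ℝ → ℂ) (s : Tile) :
    vav φ L p q a s = 0 := by
  have hG := BF_G h0' hr ha
  have hnn : 0 ≤ ∫ x, ‖G r L a x‖ ^ 2 := integral_nonneg fun x => sq_nonneg _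
  have h1 : ∫ x, ‖G r L a x‖ ^ 2 = 0 := by
    rw [← n2_G, n2, Real.sqrt_eq_zero hnn] at h0
    exact h0
  have h2 := (integral_eq_zero_iff_of_nonneg (fun x => sq_nonneg ‖G r L a x‖)
    (sq_int hG)).1 h1
  unfold vav
  apply integral_eq_zero_of_ae
  filter_upwards [h2] with x hx
  have h3 : ‖G r L a x‖ ^ 2 = 0 := hx
  have h4 : ‖G r L a x‖ = 0 := by
    rw [pow_eq_zero_iff (by norm_num)] at h3
    exact h3
  have h5 := vc_bd (L := L) (p := p) (q := q) (a := a) h0' hr s x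
  rw [h4, mul_zero] at h5
  rw [norm_le_zero_iff.1 h5, zero_mul]
  rfl

end INT_

open INT_ Pool.Agent.CAR.INT_
open Pool.Agent.VRC.VINT_ (meas_vc lin' lin2' vav_lv)

theorem p_INT (h0 : T_REX) (h1 : T_RA) (h2 : T_RB) (h3 : T_MAR) : T_INT := by
  intro A
  obtain ⟨C, hC, hre⟩ := INT_.restr h0 h1 h2 A
  obtain ⟨C', hC', hmar⟩ := h3
  refine ⟨4 * C * C', by positivity, ?_⟩
  intro r hr2 hr4 φ Φ hφ
  obtain ⟨r1, -, -, hr, -, -, -, -, r2, -⟩ := h0 r hr2 hr4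
  have hrc : 0 < rc r := by linarith
  have hK : 0 < kr r := by linarith
  -- normalised case
  have key : ∀ (f : ℝ → ℂ) (F : Set ℝ) (h h' : ℝ) (L : ℕ) (p q : ℕ → ℝ → ℝ)
      (a : ℕ → ℝ → ℂ) (E : Set ℝ), BF h F f → PQ L p q → AB r L a h' E →
      ∫ x, ‖f x‖ ^ 2 ≤ 1 → ∫ x, ‖G r L a x‖ ^ 2 ≤ 1 → ∀ S : Finset Tile,
      ∑ s ∈ S, ‖cf φ f s‖ * ‖vav φ L p q a s‖ ≤ 4 * C * kr r ^ 2 * (C' * kr r) := by
    intro f F h h' L p q a E hf hpq ha hf1 hb1 S
    have hb := BF_G hrc hr ha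
    have hM : (0 : ℝ) ≤ (L : ℝ) := Nat.cast_nonneg L
    have hfx : ∀ s : Tile, Integrable (fx φ s) := fun s =>
      ((p_FXB A φ Φ hφ s).2.2.2.2.2.1)
    set D : Tile → ℝ := fun s => ∫ x, ‖fx φ s x‖ with hD
    have hD0 : ∀ s, 0 ≤ D s := fun s => integral_nonneg fun x => norm_nonneg _
    have hK1 : ∀ s : Tile, Integrable (fun x => conj (fx φ s x)) := fun s => by
      refine (hfx s).norm.mono' ?_ ?_
      · exact Complex.continuous_conj.comp_aestronglyMeasurable (hfx s).aestronglyMeasurable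
      · refine Filter.Eventually.of_forall fun x => ?_
        rw [RCLike.norm_conj]
    have hK1' : ∀ s : Tile, ∫ x, ‖conj (fx φ s x)‖ = D s := fun s => by
      simp only [hD, RCLike.norm_conj]
    set R : ℝ := ∑ s ∈ S, D s ^ 2 * (h * L + L * h' + L) with hR
    have hR0 : 0 ≤ R := Finset.sum_nonneg fun s _ =>
      mul_nonneg (sq_nonneg _) (by
        have := mul_nonneg hf.h0 hM
        have := mul_nonneg hM hb.h0
        linarith)
    refine le_of_forall_pos_le_add fun ε hε => ?_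
    obtain ⟨n1, hn1⟩ := pow_unbounded_of_one_lt h (by norm_num : (1 : ℝ) < 2)
    obtain ⟨n2', hn2⟩ := pow_unbounded_of_one_lt h' (by norm_num : (1 : ℝ) < 2)
    obtain ⟨n3, hn3⟩ := pow_unbounded_of_one_lt ((R + 1) / ε) (by norm_num : (1 : ℝ) < 2)
    set n : ℕ := n1 + n2' + n3 with hn
    have hmono : ∀ {a : ℕ}, a ≤ n → (2 : ℝ) ^ a ≤ (2 : ℝ) ^ (n : ℤ) := by
      intro a ha
      rw [zpow_natCast]
      exact pow_le_pow_right₀ (by norm_num) ha
    have e1' : h ≤ (2 : ℝ) ^ (n : ℤ) := hn1.le.trans (hmono (by omega))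
    have e2' : h' ≤ (2 : ℝ) ^ (n : ℤ) := hn2.le.trans (hmono (by omega))
    have e3' : (R + 1) / ε < (2 : ℝ) ^ (n : ℤ) := hn3.trans_le (hmono (by omega))
    set δ : ℝ := (2 : ℝ) ^ (-(n : ℤ)) with hδ
    have hδ0 : 0 < δ := two_zpow_pos _
    have hδ1 : δ ≤ 1 := by
      have : (2 : ℝ) ^ (-(n : ℤ)) ≤ (2 : ℝ) ^ (0 : ℤ) := two_zpow_le (by omega)
      rw [zpow_zero] at this
      exact this
    have hδR : δ * R ≤ ε := by
      have h1 : δ * (2 : ℝ) ^ (n : ℤ) = 1 := two_zpow_neg_mul _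
      rw [div_lt_iff₀ hε] at e3'
      have h2 := mul_le_mul_of_nonneg_left e3'.le hδ0.le
      rw [← mul_assoc, h1, one_mul] at h2
      have h3 : δ * R ≤ δ * (R + 1) := mul_le_mul_of_nonneg_left (by linarith) hδ0.le
      linarith
    set I : Finset ℤ := Finset.Icc (-(n : ℤ)) n with hI
    set al : ℤ → ℕ → ℝ → ℂ := fun l j => (lv (G r L a) l).indicator (a j) with hal
    have hpt : ∀ s ∈ S, ‖cf φ f s‖ * ‖vav φ L p q a s‖ ≤
        (∑ k ∈ I, ‖cf φ (pc f k) s‖) * (∑ l ∈ I, ‖vav φ L p q (al l) s‖) +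
        δ * (D s ^ 2 * (h * L + L * h' + L)) := by
      intro s _
      have a1 : ‖cf φ f s‖ ≤ ∑ k ∈ I, ‖cf φ (pc f k) s‖ + δ * D s := by
        have := lin hf (hK1 s) n e1'
        rw [hK1' s] at this
        exact this
      have a2 : ∑ k ∈ I, ‖cf φ (pc f k) s‖ ≤ h * D s := by
        have := lin2 hf (hK1 s) I
        rw [hK1' s] at this
        exact this
      have a3 : ‖vav φ L p q a s‖ ≤ ∑ l ∈ I, ‖vav φ L p q (al l) s‖ + L * δ * D s := by
        have := lin' hb hM (meas_vc hpq ha.ma s) (fun x => vc_bd hrc hr s x) (hfx s) n e2'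
        simp only [hal, vav_lv]
        exact this
      have a4 : ∑ l ∈ I, ‖vav φ L p q (al l) s‖ ≤ L * h' * D s := by
        have := lin2' hb hM (meas_vc hpq ha.ma s) (fun x => vc_bd hrc hr s x) (hfx s) I
        simp only [hal, vav_lv]
        exact this
      have x0 : 0 ≤ ∑ k ∈ I, ‖cf φ (pc f k) s‖ := Finset.sum_nonneg fun _ _ => norm_nonneg _
      have y0 : 0 ≤ ∑ l ∈ I, ‖vav φ L p q (al l) s‖ := Finset.sum_nonneg fun _ _ => norm_nonneg _
      have d0 := hD0 s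
      have m1 := mul_le_mul a1 a3 (norm_nonneg _) (by positivity)
      refine m1.trans ?_
      have m2 : (∑ k ∈ I, ‖cf φ (pc f k) s‖) * (L * δ * D s) ≤ h * D s * (L * δ * D s) :=
        mul_le_mul_of_nonneg_right a2 (by positivity)
      have m3 : (∑ l ∈ I, ‖vav φ L p q (al l) s‖) * (δ * D s) ≤ L * h' * D s * (δ * D s) :=
        mul_le_mul_of_nonneg_right a4 (by positivity)
      have m4 : δ * D s * (L * δ * D s) ≤ 1 * D s * (L * δ * D s) := by
        refine mul_le_mul_of_nonneg_right ?_ (by positivity)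
        exact mul_le_mul_of_nonneg_right hδ1 d0
      nlinarith [m2, m3, m4]
    refine (Finset.sum_le_sum hpt).trans ?_
    rw [Finset.sum_add_distrib, ← Finset.mul_sum, ← hR]
    refine add_le_add ?_ hδR
    have hexp : ∑ s ∈ S, (∑ k ∈ I, ‖cf φ (pc f k) s‖) * (∑ l ∈ I, ‖vav φ L p q (al l) s‖) =
        ∑ k ∈ I, ∑ l ∈ I, ∑ s ∈ S, ‖cf φ (pc f k) s‖ * ‖vav φ L p q (al l) s‖ := by
      simp only [Finset.sum_mul_sum]
      rw [Finset.sum_comm]
      refine Finset.sum_congr rfl fun k _ => ?_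
      rw [Finset.sum_comm]
    rw [hexp]
    have hkl : ∀ k ∈ I, ∀ l ∈ I, ∑ s ∈ S, ‖cf φ (pc f k) s‖ * ‖vav φ L p q (al l) s‖ ≤
        4 * C * kr r ^ 2 * ((2 : ℝ) ^ k * (2 : ℝ) ^ l *
          min (vol (lv f k) ^ (1 - 1 / r) * vol (lv (G r L a) l) ^ (1 / r))
            (vol (lv (G r L a) l) ^ (1 - 1 / r) * vol (lv f k) ^ (1 / r))) := by
      intro k _ l _
      refine (hre r hr2 hr4 φ Φ hφ _ _ L p q _ _ _ _ (two_zpow_pos _) (two_zpow_pos _) (pc_BF hf k)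
        hpq (AB_lv hrc hr ha l) S).trans (le_of_eq ?_)
      rw [two_zpow_succ, two_zpow_succ]
      ring
    refine (Finset.sum_le_sum fun k hk => Finset.sum_le_sum fun l hl => hkl k hk l hl).trans ?_
    simp only [← Finset.mul_sum]
    refine mul_le_mul_of_nonneg_left ?_ (by positivity)
    exact hmar r hr2 hr4 I (fun k => vol (lv f k)) (fun l => vol (lv (G r L a) l)) (fun k => vol_nonneg _)
      (fun l => vol_nonneg _) ((sum_vol hf I).trans hf1) ((sum_vol hb I).trans hb1)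
  intro f F h h' L p q a E hf hpq ha S
  have hf0 : 0 ≤ n2 f := Real.sqrt_nonneg _
  have hb0 : 0 ≤ na r L a := Real.sqrt_nonneg _
  have hsq : ∀ (g : ℝ → ℂ), 0 < n2 g → ∫ x, ‖g x / (n2 g : ℂ)‖ ^ 2 ≤ 1 := by
    intro g hg
    have hnn : 0 ≤ ∫ x, ‖g x‖ ^ 2 := integral_nonneg fun x => sq_nonneg _
    have e : ∀ x, ‖g x / (n2 g : ℂ)‖ ^ 2 = ‖g x‖ ^ 2 / (n2 g) ^ 2 := by
      intro x
      rw [norm_div, Complex.norm_real, Real.norm_of_nonneg hg.le, div_pow]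
    simp only [e]
    rw [integral_div]
    have e2 : n2 g ^ 2 = ∫ x, ‖g x‖ ^ 2 := Real.sq_sqrt hnn
    rw [e2]
    exact div_self_le_one _
  rcases hf0.eq_or_lt with h0 | h0
  · rw [← h0, mul_zero, zero_mul]
    refine le_of_eq (Finset.sum_eq_zero fun s _ => ?_)
    have : cf φ f s = 0 := zero_of_n2 hf h0.symm _
    rw [this, norm_zero, zero_mul]
  rcases hb0.eq_or_lt with h0' | h0'
  · rw [← h0', mul_zero]
    refine le_of_eq (Finset.sum_eq_zero fun s _ => ?_)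
    rw [vav_zero hrc hr ha h0'.symm φ s, norm_zero, mul_zero]
  have hG1 : ∫ x, ‖G r L (fun j y => a j y / (na r L a : ℂ)) x‖ ^ 2 ≤ 1 := by
    have e : ∀ x, ‖G r L (fun j y => a j y / (na r L a : ℂ)) x‖ = ‖G r L a x / (n2 (G r L a) : ℂ)‖ := by
      intro x
      rw [norm_G, amp_div hr h0', norm_div, norm_G, n2_G, Complex.norm_real,
        Real.norm_of_nonneg h0'.le]
    simp only [e]
    refine hsq _ ?_
    rw [n2_G]
    exact h0'
  rw [Pool.Agent.VRC.VINT_.sum_div φ f h0 h0' S]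
  have := key _ F _ _ L p q _ E (BF_div h0 hf) hpq (AB_div h0' ha) (hsq f h0) hG1 S
  calc n2 f * na r L a * ∑ s ∈ S, ‖cf φ (fun x => f x / (n2 f : ℂ)) s‖ *
        ‖vav φ L p q (fun j y => a j y / (na r L a : ℂ)) s‖ ≤ n2 f * na r L a * (4 * C * kr r ^ 2 * (C' * kr r)) :=
        mul_le_mul_of_nonneg_left this (by positivity)
    _ = 4 * C * C' * kr r ^ 3 * n2 f * na r L a := by ring

end Pool.Agent.VRR
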