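import Pool.Agent.VRR.Targets
import Pool.Agent.VRC.P_VJM

set_option autoImplicit false

/-!
# VRR: the `r`-variation of the dyadic averages (JM)
-/

namespace Pool.Agent.VRR

open MeasureTheory Set ComplexConjugate Filter Topology
open scoped ENNReal NNReal
open Pool.Agent.CAR
open Pool.Agent.VRC (PQ Act vc vav GG2 NJ da ps Gm bp Yk)

namespace JM_

open Pool.Agent.VRC.VJM_ (count_le meas_da meas_NJ)

theorem sum_rpow {ι : Type*} {r : ℝ} (hr : 1 ≤ r) (a : ι → ℝ≥0∞) :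
    ∑' i, a i ^ r ≤ (∑' i, a i) ^ r := by
  set S := ∑' i, a i with hS
  have e : ∀ x : ℝ≥0∞, x ^ r = x * x ^ (r - 1) := by
    intro x
    have h := ENNReal.rpow_add_of_nonneg (x := x) 1 (r - 1) zero_le_one (by linarith)
    rw [ENNReal.rpow_one, add_sub_cancel] at h
    exact h
  calc ∑' i, a i ^ r ≤ ∑' i, a i * S ^ (r - 1) := by
        refine ENNReal.tsum_le_tsum fun i => ?_
        rw [e]
        exact mul_le_mul_right (ENNReal.rpow_le_rpow (ENNReal.le_tsum i) (by linarith)) _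
    _ = S ^ r := by
        rw [ENNReal.tsum_mul_right, ← hS, e S]

theorem single {r : ℝ} (hr : 1 ≤ r) {e0 x : ℝ≥0∞} (h0 : e0 ≠ 0) (ht : e0 ≠ ⊤) (hx : x ≠ ⊤) :
    x ^ r ≤ ∑' i : ℤ, (2 * ((2 : ℝ≥0∞) ^ i * e0)) ^ r *
      (if (2 : ℝ≥0∞) ^ i * e0 ≤ x then (1 : ℝ≥0∞) else 0) := by
  rcases eq_or_ne x 0 with h | h
  · rw [h, ENNReal.zero_rpow_of_pos (by linarith)]
    exact zero_le
  · obtain ⟨n, hn1, hn2⟩ := ENNReal.exists_mem_Ico_zpow (x := x / e0) (y := 2)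
      (ENNReal.div_ne_zero.mpr ⟨h, ht⟩) (ENNReal.div_ne_top hx h0) (by norm_num) (by norm_num)
    have h1 : (2 : ℝ≥0∞) ^ n * e0 ≤ x := by
      rwa [ENNReal.le_div_iff_mul_le (Or.inl h0) (Or.inl ht)] at hn1
    have h2 : x ≤ 2 * ((2 : ℝ≥0∞) ^ n * e0) := by
      have h3 := hn2.le
      rw [ENNReal.div_le_iff_le_mul (Or.inl h0) (Or.inl ht)] at h3
      refine h3.trans (le_of_eq ?_)
      rw [ENNReal.zpow_add (by norm_num) (by norm_num), zpow_one]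
      ring
    refine le_trans ?_ (ENNReal.le_tsum n)
    rw [if_pos h1, mul_one]
    exact ENNReal.rpow_le_rpow h2 (by linarith)

theorem Vz_le {r : ℝ} (hr : 1 ≤ r) (z : ℤ → ℂ) (m M : ℤ) {e0 : ℝ≥0∞} (h0 : e0 ≠ 0)
    (ht : e0 ≠ ⊤) :
    Vz r z m M ≤ ∑' i : ℤ, 2 * ((2 : ℝ≥0∞) ^ i * e0) *
      NJ z m M ((2 : ℝ≥0∞) ^ i * e0) ^ (1 / r) := by
  have hr0 : 0 < r := by linarith
  have hr1 : 1 / r * r = 1 := one_div_mul_cancel hr0.ne'
  unfold Vz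
  refine iSup₂_le fun P hP => ?_
  set a : ℤ → ℝ≥0∞ := fun i => 2 * ((2 : ℝ≥0∞) ^ i * e0) *
    NJ z m M ((2 : ℝ≥0∞) ^ i * e0) ^ (1 / r) with ha
  have h1 : ∑ c ∈ P, ‖z c.2 - z c.1‖ₑ ^ r ≤ ∑' i, a i ^ r := by
    calc ∑ c ∈ P, ‖z c.2 - z c.1‖ₑ ^ r
        ≤ ∑ c ∈ P, ∑' i : ℤ, (2 * ((2 : ℝ≥0∞) ^ i * e0)) ^ r *
          (if (2 : ℝ≥0∞) ^ i * e0 ≤ ‖z c.2 - z c.1‖ₑ then (1 : ℝ≥0∞) else 0) :=
          Finset.sum_le_sum fun c _ => single hr h0 ht enorm_ne_top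
      _ = ∑' i : ℤ, ∑ c ∈ P, (2 * ((2 : ℝ≥0∞) ^ i * e0)) ^ r *
          (if (2 : ℝ≥0∞) ^ i * e0 ≤ ‖z c.2 - z c.1‖ₑ then (1 : ℝ≥0∞) else 0) :=
          (Summable.tsum_finsetSum fun _ _ => ENNReal.summable).symm
      _ ≤ ∑' i, a i ^ r := by
          refine ENNReal.tsum_le_tsum fun i => ?_
          have h3 : (NJ z m M ((2 : ℝ≥0∞) ^ i * e0) ^ (1 / r)) ^ r =
              NJ z m M ((2 : ℝ≥0∞) ^ i * e0) := by
            rw [← ENNReal.rpow_mul, hr1, ENNReal.rpow_one]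
          have h4 : a i ^ r = (2 * ((2 : ℝ≥0∞) ^ i * e0)) ^ r *
              NJ z m M ((2 : ℝ≥0∞) ^ i * e0) := by
            simp only [ha]
            rw [ENNReal.mul_rpow_of_nonneg _ _ hr0.le, h3]
          rw [← Finset.mul_sum, h4]
          exact mul_le_mul_right (count_le z m M _ P hP.1 hP.2) _
  calc (∑ c ∈ P, ‖z c.2 - z c.1‖ₑ ^ r) ^ (1 / r)
      ≤ ((∑' i, a i) ^ r) ^ (1 / r) :=
        ENNReal.rpow_le_rpow (h1.trans (sum_rpow hr a)) (by positivity)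
    _ = ∑' i, a i := by
        rw [← ENNReal.rpow_mul, mul_comm, hr1, ENNReal.rpow_one]

theorem NJ_rpow_le (z : ℤ → ℂ) (m M : ℤ) (lam : ℝ≥0∞) {s : ℝ} (hs : 0 < s) (hs1 : s ≤ 1) :
    NJ z m M lam ^ s ≤ NJ z m M lam := by
  rcases eq_or_ne (NJ z m M lam) 0 with h | h
  · rw [h, ENNReal.zero_rpow_of_pos hs]
  · have h1 : 1 ≤ NJ z m M lam := by
      by_contra hlt
      push Not at hlt
      refine h ?_
      unfold NJ at hlt ⊢
      refine le_antisymm (iSup₂_le fun P hP => ?_) zero_le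
      have h2 : (P.card : ℝ≥0∞) < 1 := lt_of_le_of_lt (le_iSup₂_of_le P hP le_rfl) hlt
      have h3 : P.card < 1 := by exact_mod_cast h2
      have h4 : P.card = 0 := by omega
      rw [h4]
      simp
    calc NJ z m M lam ^ s ≤ NJ z m M lam ^ (1 : ℝ) :=
          ENNReal.rpow_le_rpow_of_exponent_le h1 hs1
      _ = _ := ENNReal.rpow_one _

theorem holder {r : ℝ} (hr : 0 < r) (hc : (rc r).HolderConjugate r) (hc1 : 1 / rc r = 1 - 1 / r)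
    {g : ℝ → ℝ≥0∞} (hg : Measurable g) (W : Set ℝ) :
    ∫⁻ x in W, g x ^ (1 / r) ≤ volume W ^ (1 - 1 / r) * (∫⁻ x, g x) ^ (1 / r) := by
  have h := ENNReal.lintegral_mul_le_Lp_mul_Lq (volume.restrict W) hc
    (f := fun _ => (1 : ℝ≥0∞)) (g := fun x => g x ^ (1 / r)) aemeasurable_const
    (hg.pow_const _).aemeasurable
  have e1 : ∫⁻ x in W, ((fun _ : ℝ => (1 : ℝ≥0∞)) * (fun y : ℝ => g y ^ (1 / r)) :
      ℝ → ℝ≥0∞) x = ∫⁻ x in W, g x ^ (1 / r) := by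
    refine lintegral_congr fun x => ?_
    rw [Pi.mul_apply, one_mul]
  have e2 : (∫⁻ _ in W, (1 : ℝ≥0∞) ^ (rc r)) ^ (1 / rc r) = volume W ^ (1 - 1 / r) := by
    rw [ENNReal.one_rpow, setLIntegral_const, one_mul, hc1]
  have e3 : (∫⁻ x in W, (g x ^ (1 / r)) ^ r) ^ (1 / r) ≤ (∫⁻ x, g x) ^ (1 / r) := by
    refine ENNReal.rpow_le_rpow ?_ (by positivity)
    refine (setLIntegral_le_lintegral _ _).trans (le_of_eq ?_)
    refine lintegral_congr fun x => ?_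
    rw [← ENNReal.rpow_mul, one_div_mul_cancel hr.ne', ENNReal.rpow_one]
  rw [e1, e2] at h
  exact h.trans (mul_le_mul_right e3 _)

/-- the ratio -/
noncomputable def Q (r : ℝ) : ℝ≥0∞ := (2 : ℝ≥0∞) ^ (-(1 - 2 / r))

theorem Q_eq (r : ℝ) : Q r = ENNReal.ofReal ((2 : ℝ) ^ (-(1 - 2 / r))) := by
  unfold Q
  rw [← ENNReal.ofReal_rpow_of_pos (by norm_num)]
  norm_num

theorem sum_int (f : ℕ → ℝ≥0∞) (hf : ∀ n, f (n + 1) ≤ f n) :
    ∑' i : ℤ, f i.natAbs ≤ 2 * ∑' n : ℕ, f n := by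
  have h1 : HasSum (fun n : ℕ => f ((n : ℤ)).natAbs) (∑' n : ℕ, f n) := by
    have e : (fun n : ℕ => f ((n : ℤ)).natAbs) = f := by
      funext n
      rw [Int.natAbs_natCast]
    rw [e]
    exact ENNReal.summable.hasSum
  have h2 : HasSum (fun n : ℕ => f (-((n : ℤ) + 1)).natAbs) (∑' n : ℕ, f (n + 1)) := by
    have e : (fun n : ℕ => f (-((n : ℤ) + 1)).natAbs) = fun n => f (n + 1) := by
      funext n
      have h : (-((n : ℤ) + 1)).natAbs = n + 1 := by omega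
      rw [h]
    rw [e]
    exact ENNReal.summable.hasSum
  have h3 := HasSum.of_nat_of_neg_add_one (f := fun i : ℤ => f i.natAbs) h1 h2
  rw [h3.tsum_eq, two_mul]
  exact add_le_add le_rfl (ENNReal.tsum_le_tsum hf)

theorem sum_Q {r : ℝ} (hk : 0 < kr r) (h : 1 / (2 * kr r) ≤ 1 - (2 : ℝ) ^ (-(1 - 2 / r))) :
    ∑' i : ℤ, Q r ^ i.natAbs ≤ 4 * ENNReal.ofReal (kr r) := by
  have hp : 0 < (2 : ℝ) ^ (-(1 - 2 / r)) := Real.rpow_pos_of_pos (by norm_num) _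
  have hx : 0 < 1 / (2 * kr r) := by positivity
  have hQ1 : Q r ≤ 1 := by
    rw [Q_eq, ← ENNReal.ofReal_one]
    exact ENNReal.ofReal_le_ofReal (by linarith)
  refine (sum_int (fun n => Q r ^ n) fun n => ?_).trans ?_
  · simp only [pow_succ]
    exact mul_le_of_le_one_right zero_le hQ1
  · rw [ENNReal.tsum_geometric]
    have h1 : ENNReal.ofReal (1 / (2 * kr r)) ≤ 1 - Q r := by
      rw [Q_eq, ← ENNReal.ofReal_one, ← ENNReal.ofReal_sub _ hp.le]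
      exact ENNReal.ofReal_le_ofReal h
    have h2 : (1 - Q r)⁻¹ ≤ ENNReal.ofReal (2 * kr r) := by
      calc (1 - Q r)⁻¹ ≤ (ENNReal.ofReal (1 / (2 * kr r)))⁻¹ := ENNReal.inv_le_inv.2 h1
        _ = ENNReal.ofReal (2 * kr r) := by
            rw [← ENNReal.ofReal_inv_of_pos hx, one_div, inv_inv]
    calc 2 * (1 - Q r)⁻¹ ≤ 2 * ENNReal.ofReal (2 * kr r) := mul_le_mul_right h2 _
      _ = 4 * ENNReal.ofReal (kr r) := by
          rw [ENNReal.ofReal_mul (by norm_num), ← mul_assoc]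
          norm_num

/-- negative scales -/
theorem q_neg (r : ℝ) {i : ℤ} (hi : i < 0) :
    ((2 : ℝ≥0∞) ^ i) ^ (1 - 2 / r) = Q r ^ i.natAbs := by
  unfold Q
  rw [← ENNReal.rpow_intCast, ← ENNReal.rpow_mul, ← ENNReal.rpow_natCast,
    ← ENNReal.rpow_mul]
  congr 1
  have : ((i.natAbs : ℕ) : ℝ) = -(i : ℝ) := by
    have h : ((i.natAbs : ℕ) : ℤ) = -i := by omega
    rw [← Int.cast_neg, ← h, Int.cast_natCast]
  rw [this]
  ring

/-- nonnegative scales -/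
theorem q_pos {r : ℝ} (hr : 1 - 2 / r ≤ 1 / 2) {i : ℤ} (hi : 0 ≤ i) :
    ((2 : ℝ≥0∞) ^ i)⁻¹ ≤ Q r ^ i.natAbs := by
  unfold Q
  rw [← ENNReal.rpow_intCast, ← ENNReal.rpow_neg, ← ENNReal.rpow_natCast,
    ← ENNReal.rpow_mul]
  refine ENNReal.rpow_le_rpow_of_exponent_le (by norm_num) ?_
  have : ((i.natAbs : ℕ) : ℝ) = (i : ℝ) := by
    have h : ((i.natAbs : ℕ) : ℤ) = i := by omega
    conv_rhs => rw [← h]
    rw [Int.cast_natCast]
  rw [this]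
  have : (0 : ℝ) ≤ i := by exact_mod_cast hi
  nlinarith

/-- one scale -/
theorem scale (h1 : Pool.Agent.VRC.T_VJ1) {r : ℝ} (hr2 : 2 < r)
    (hc : (rc r).HolderConjugate r) (hc1 : 1 / rc r = 1 - 1 / r) (hr5 : 1 - 2 / r ≤ 1 / 2)
    {H : ℝ → ℂ} (m M : ℤ) {W : Set ℝ} (hH : Measurable H)
    (hI : Integrable H) {e0 : ℝ≥0∞} (h0 : e0 ≠ 0) (ht : e0 ≠ ⊤)
    (he : ∫⁻ x, ‖H x‖ₑ ^ 2 = e0 ^ 2 * volume W) (i : ℤ) :
    ∫⁻ x in W, 2 * ((2 : ℝ≥0∞) ^ i * e0) *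
      NJ (fun k => da H k x) m M ((2 : ℝ≥0∞) ^ i * e0) ^ (1 / r) ≤
      8 * Q r ^ i.natAbs * (e0 * volume W) := by
  have hr0 : 0 < r := by linarith
  have hir : 0 < 1 / r := by positivity
  have hir1 : 1 / r ≤ 1 := by
    rw [div_le_one hr0]
    linarith
  set t : ℝ≥0∞ := (2 : ℝ≥0∞) ^ i with htd
  have ht0 : t ≠ 0 := (ENNReal.zpow_pos (by norm_num) (by norm_num) i).ne'
  have htt : t ≠ ⊤ := (ENNReal.zpow_lt_top (by norm_num) (by norm_num) i).ne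
  set V := volume W with hV
  have hl0 : 0 < t * e0 := by
    rw [pos_iff_ne_zero]
    exact mul_ne_zero ht0 h0
  have hX := h1 H m M (t * e0) hH hI hl0 (ENNReal.mul_ne_top htt ht)
  set X := ∫⁻ x, NJ (fun k => da H k x) m M (t * e0) with hXd
  have hX' : X ≤ 4 * (t⁻¹ ^ 2 * V) := by
    rw [he, ENNReal.mul_le_iff_le_inv (pow_ne_zero 2 hl0.ne')
      (ENNReal.pow_ne_top (ENNReal.mul_ne_top htt ht))] at hX
    refine hX.trans (le_of_eq ?_)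
    have e1 : ((t * e0) ^ 2)⁻¹ = t⁻¹ ^ 2 * (e0⁻¹) ^ 2 := by
      rw [mul_pow, ENNReal.mul_inv (Or.inl (pow_ne_zero 2 ht0)) (Or.inl (ENNReal.pow_ne_top htt)),
        ENNReal.inv_pow, ENNReal.inv_pow]
    rw [e1]
    calc t⁻¹ ^ 2 * e0⁻¹ ^ 2 * (4 * (e0 ^ 2 * V)) = 4 * (t⁻¹ ^ 2 * V) * (e0⁻¹ * e0) ^ 2 := by ring
      _ = 4 * (t⁻¹ ^ 2 * V) := by rw [ENNReal.inv_mul_cancel h0 ht, one_pow, mul_one]
  have hm : Measurable fun x => NJ (fun k => da H k x) m M (t * e0) := meas_NJ H m M _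
  rw [lintegral_const_mul _ (hm.pow_const _)]
  rcases lt_or_ge i 0 with hi | hi
  · have h2 := holder hr0 hc hc1 hm W
    rw [← hXd, ← hV] at h2
    have h3 : X ^ (1 / r) ≤ 4 * ((t ^ (2 / r))⁻¹ * V ^ (1 / r)) := by
      refine (ENNReal.rpow_le_rpow hX' hir.le).trans ?_
      rw [ENNReal.mul_rpow_of_nonneg _ _ hir.le, ENNReal.mul_rpow_of_nonneg _ _ hir.le]
      have e1 : (t⁻¹ ^ 2) ^ (1 / r) = (t ^ (2 / r))⁻¹ := by
        rw [← ENNReal.rpow_natCast, ← ENNReal.rpow_mul, ← ENNReal.inv_rpow]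
        congr 1
        push_cast
        ring
      have e2 : (4 : ℝ≥0∞) ^ (1 / r) ≤ 4 := by
        calc (4 : ℝ≥0∞) ^ (1 / r) ≤ 4 ^ (1 : ℝ) :=
              ENNReal.rpow_le_rpow_of_exponent_le (by norm_num) hir1
          _ = 4 := ENNReal.rpow_one _
      rw [e1]
      gcongr
    have hth : t ^ (1 - 2 / r) = Q r ^ i.natAbs := q_neg r hi
    have hs0 : t ^ (2 / r) ≠ 0 := by
      rw [Ne, ENNReal.rpow_eq_zero_iff]
      rintro (⟨h, -⟩ | ⟨h, -⟩)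
      · exact ht0 h
      · exact htt h
    have hst : t ^ (2 / r) ≠ ⊤ := ENNReal.rpow_ne_top_of_nonneg (by positivity) htt
    have htsq : t = t ^ (1 - 2 / r) * t ^ (2 / r) := by
      rw [← ENNReal.rpow_add _ _ ht0 htt, sub_add_cancel, ENNReal.rpow_one]
    have hts : t * (t ^ (2 / r))⁻¹ = t ^ (1 - 2 / r) := by
      calc t * (t ^ (2 / r))⁻¹ = t ^ (1 - 2 / r) * t ^ (2 / r) * (t ^ (2 / r))⁻¹ := by
            rw [← htsq]
        _ = t ^ (1 - 2 / r) := by rw [mul_assoc, ENNReal.mul_inv_cancel hs0 hst, mul_one]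
    have hVV : V ^ (1 - 1 / r) * V ^ (1 / r) = V := by
      rw [← ENNReal.rpow_add_of_nonneg _ _ (by linarith) hir.le, sub_add_cancel,
        ENNReal.rpow_one]
    rw [← hth]
    calc 2 * (t * e0) * ∫⁻ x in W, NJ (fun k => da H k x) m M (t * e0) ^ (1 / r)
        ≤ 2 * (t * e0) * (V ^ (1 - 1 / r) * (4 * ((t ^ (2 / r))⁻¹ * V ^ (1 / r)))) := by
          gcongr
          exact h2.trans (by gcongr)
      _ = 8 * (t * (t ^ (2 / r))⁻¹) * (e0 * (V ^ (1 - 1 / r) * V ^ (1 / r))) := by ring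
      _ = 8 * t ^ (1 - 2 / r) * (e0 * V) := by rw [hts, hVV]
  · have h2 : ∫⁻ x in W, NJ (fun k => da H k x) m M (t * e0) ^ (1 / r) ≤ X :=
      (lintegral_mono fun x => NJ_rpow_le _ m M _ hir hir1).trans (setLIntegral_le_lintegral _ _)
    have hq := q_pos hr5 hi
    rw [← htd] at hq
    calc 2 * (t * e0) * ∫⁻ x in W, NJ (fun k => da H k x) m M (t * e0) ^ (1 / r)
        ≤ 2 * (t * e0) * (4 * (t⁻¹ ^ 2 * V)) := by
          gcongr
          exact h2.trans hX'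
      _ = 8 * t⁻¹ * (e0 * V) * (t * t⁻¹) := by ring
      _ = 8 * t⁻¹ * (e0 * V) := by rw [ENNReal.mul_inv_cancel ht0 htt, mul_one]
      _ ≤ 8 * Q r ^ i.natAbs * (e0 * V) := by gcongr

theorem Vz_zero {r : ℝ} (hr : 0 < r) (m M : ℤ) : Vz r (fun _ => (0 : ℂ)) m M = 0 := by
  unfold Vz
  refine le_antisymm (iSup₂_le fun P _ => ?_) zero_le
  have h : ∑ c ∈ P, ‖(fun _ : ℤ => (0 : ℂ)) c.2 - (fun _ : ℤ => (0 : ℂ)) c.1‖ₑ ^ r = 0 := by
    refine Finset.sum_eq_zero fun c _ => ?_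
    simp only [sub_self, enorm_zero]
    exact ENNReal.zero_rpow_of_pos hr
  rw [h, ENNReal.zero_rpow_of_pos (by positivity)]

end JM_

open JM_ Pool.Agent.VRC.VJM_ in
/-- the `r`-variation of the dyadic averages -/
theorem p_JM (h0 : T_REX) (h1 : Pool.Agent.VRC.T_VJ1) : T_JM := by
  refine ⟨32, fun r hr2 hr4 H m M W hH hI hW hWt => ?_⟩
  obtain ⟨-, -, hc1, -, -, -, -, -, hk2, -, -, hr5, hc, hQ, -⟩ := h0 r hr2 hr4
  have hr0 : 0 < r := by linarith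
  have hk0 : 0 < kr r := by linarith
  set V := volume W with hV
  set h2 := ∫⁻ x, ‖H x‖ₑ ^ 2 with hh2
  rcases eq_or_ne V 0 with hV0 | hV0
  · have : volume.restrict W = 0 := Measure.restrict_eq_zero.mpr hV0
    rw [this, lintegral_zero_measure]
    exact zero_le
  rcases eq_or_ne h2 0 with h20 | h20
  · have e1 : ∀ᵐ x, H x = 0 := by
      rw [hh2, lintegral_eq_zero_iff (by fun_prop)] at h20
      filter_upwards [h20] with x hx
      simpa using hx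
    have e2 : ∀ (k : ℤ) (x : ℝ), da H k x = 0 := by
      intro k x
      unfold da
      have e4 : ∫ y in dy k ⌊(2 : ℝ) ^ (-k) * x⌋, H y = 0 :=
        (integral_congr_ae (g := fun _ => (0 : ℂ)) (ae_restrict_of_ae e1)).trans (by simp)
      rw [e4, mul_zero]
    have e3 : ∫⁻ x in W, Vz r (fun k => da H k x) m M = 0 := by
      simp only [e2, Vz_zero hr0, lintegral_zero]
    rw [e3]
    exact zero_le
  rcases eq_or_ne h2 ⊤ with h2t | h2t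
  · rw [h2t, ENNReal.top_rpow_of_pos (by norm_num), ENNReal.mul_top]
    · exact le_top
    · refine mul_ne_zero (mul_ne_zero (by norm_num) ?_) ?_
      · exact (ENNReal.ofReal_pos.2 hk0).ne'
      · rw [Ne, ENNReal.rpow_eq_zero_iff]
        rintro (⟨h, -⟩ | ⟨h, -⟩)
        · exact hV0 h
        · exact hWt h
  set e0 : ℝ≥0∞ := (h2 / V) ^ (1 / 2 : ℝ) with he0
  have hd0 : h2 / V ≠ 0 := ENNReal.div_ne_zero.mpr ⟨h20, hWt⟩
  have hdt : h2 / V ≠ ⊤ := ENNReal.div_ne_top h2t hV0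
  have he00 : e0 ≠ 0 := by
    rw [he0, Ne, ENNReal.rpow_eq_zero_iff]
    rintro (⟨h, -⟩ | ⟨h, -⟩)
    · exact hd0 h
    · exact hdt h
  have he0t : e0 ≠ ⊤ := ENNReal.rpow_ne_top_of_nonneg (by norm_num) hdt
  have hesq : h2 = e0 ^ 2 * V := by
    rw [he0, ← ENNReal.rpow_natCast, ← ENNReal.rpow_mul]
    norm_num
    rw [ENNReal.div_mul_cancel hV0 hWt]
  have heV : e0 * V = V ^ (1 / 2 : ℝ) * h2 ^ (1 / 2 : ℝ) := by
    rw [hesq, ENNReal.mul_rpow_of_nonneg _ _ (by norm_num), ← ENNReal.rpow_natCast e0,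
      ← ENNReal.rpow_mul]
    have e1 : V = V ^ (1 / 2 : ℝ) * V ^ (1 / 2 : ℝ) := by
      rw [← ENNReal.rpow_add _ _ hV0 hWt]
      norm_num
    have e2 : ((2 : ℕ) : ℝ) * (1 / 2) = 1 := by norm_num
    rw [e2, ENNReal.rpow_one]
    conv_lhs => rw [e1]
    ring
  calc ∫⁻ x in W, Vz r (fun k => da H k x) m M
      ≤ ∫⁻ x in W, ∑' i : ℤ, 2 * ((2 : ℝ≥0∞) ^ i * e0) *
        NJ (fun k => da H k x) m M ((2 : ℝ≥0∞) ^ i * e0) ^ (1 / r) :=
        lintegral_mono fun x => Vz_le (by linarith) _ m M he00 he0t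
    _ = ∑' i : ℤ, ∫⁻ x in W, 2 * ((2 : ℝ≥0∞) ^ i * e0) *
        NJ (fun k => da H k x) m M ((2 : ℝ≥0∞) ^ i * e0) ^ (1 / r) :=
        lintegral_tsum fun i => (((meas_NJ H m M _).pow_const _).const_mul _).aemeasurable
    _ ≤ ∑' i : ℤ, 8 * Q r ^ i.natAbs * (e0 * V) :=
        ENNReal.tsum_le_tsum fun i =>
          JM_.scale h1 hr2 hc hc1 hr5 m M hH hI he00 he0t hesq i
    _ = 8 * (∑' i : ℤ, Q r ^ i.natAbs) * (e0 * V) := by
        rw [ENNReal.tsum_mul_right, ENNReal.tsum_mul_left]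
    _ ≤ 8 * (4 * ENNReal.ofReal (kr r)) * (e0 * V) := by
        gcongr
        exact sum_Q hk0 hQ
    _ = ((32 : ℝ≥0) : ℝ≥0∞) * ENNReal.ofReal (kr r) * V ^ (1 / 2 : ℝ) * h2 ^ (1 / 2 : ℝ) := by
        rw [heV]
        push_cast
        ring

end Pool.Agent.VRR
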