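import Pool.Agent.VRR.Targets

set_option autoImplicit false

/-!
# VRR, block MAR (MP_ee701d_an, helper75): the sum over the two families of levels
-/

namespace Pool.Agent.VRR

open MeasureTheory Set ComplexConjugate Filter Topology
open scoped ENNReal NNReal

namespace MAR_

lemma geo1 (J : Finset ℤ) (f : ℤ → ℕ) (hf : ∀ i ∈ J, ∀ j ∈ J, f i = f j → i = j) {ρ : ℝ}
    (h0 : 0 ≤ ρ) (h1 : ρ < 1) : ∑ l ∈ J, ρ ^ f l ≤ (1 - ρ)⁻¹ := by
  classical
  have e : ∑ l ∈ J, ρ ^ f l = ∑ n ∈ J.image f, ρ ^ n := by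
    rw [Finset.sum_image]
    exact fun i hi j hj h => hf i hi j hj h
  rw [e, ← tsum_geometric_of_lt_one h0 h1]
  exact (summable_geometric_of_lt_one h0 h1).sum_le_tsum _ fun n _ => pow_nonneg h0 n

lemma geo (I : Finset ℤ) (k : ℤ) {ρ : ℝ} (h0 : 0 ≤ ρ) (h1 : ρ < 1) :
    ∑ l ∈ I, ρ ^ (k - l).natAbs ≤ 2 * (1 - ρ)⁻¹ := by
  rw [← Finset.sum_filter_add_sum_filter_not I (fun l => l ≤ k)]
  have a1 := geo1 (I.filter fun l => l ≤ k) (fun l => (k - l).natAbs) (by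
    intro i hi j hj h
    have h2 := (Finset.mem_filter.1 hi).2
    have h3 := (Finset.mem_filter.1 hj).2
    omega) h0 h1
  have a2 := geo1 (I.filter fun l => ¬ l ≤ k) (fun l => (k - l).natAbs) (by
    intro i hi j hj h
    have h2 := (Finset.mem_filter.1 hi).2
    have h3 := (Finset.mem_filter.1 hj).2
    omega) h0 h1
  linarith

lemma scale {r a b : ℝ} (ha : 0 ≤ a) (hb : 0 ≤ b) (k l : ℤ) :
    (2 : ℝ) ^ k * (2 : ℝ) ^ l * (a ^ (1 - 1 / r) * b ^ (1 / r)) =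
      ((4 : ℝ) ^ k * a) ^ (1 - 1 / r) * ((4 : ℝ) ^ l * b) ^ (1 / r) *
        (2 : ℝ) ^ (((l : ℝ) - k) * (1 - 2 / r)) := by
  have h4 : ∀ m : ℤ, (4 : ℝ) ^ m = (2 : ℝ) ^ (2 * (m : ℝ)) := by
    intro m
    rw [Real.rpow_mul (by norm_num), Real.rpow_intCast]
    norm_num
  have h2 : ∀ m : ℤ, (2 : ℝ) ^ m = (2 : ℝ) ^ (m : ℝ) := fun m => (Real.rpow_intCast _ _).symm
  have hp : ∀ x : ℝ, 0 < (2 : ℝ) ^ x := fun x => Real.rpow_pos_of_pos (by norm_num) x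
  rw [Real.mul_rpow (by positivity) ha, Real.mul_rpow (by positivity) hb, h4, h4,
    ← Real.rpow_mul (by norm_num), ← Real.rpow_mul (by norm_num), h2, h2]
  have e : (2 : ℝ) ^ (k : ℝ) * (2 : ℝ) ^ (l : ℝ) =
      (2 : ℝ) ^ (2 * (k : ℝ) * (1 - 1 / r)) * (2 : ℝ) ^ (2 * (l : ℝ) * (1 / r)) *
        (2 : ℝ) ^ (((l : ℝ) - k) * (1 - 2 / r)) := by
    rw [← Real.rpow_add (by norm_num), ← Real.rpow_add (by norm_num),
      ← Real.rpow_add (by norm_num)]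
    congr 1
    ring
  rw [e]
  ring

lemma amgm {r x y : ℝ} (hr : 2 < r) (hx : 0 ≤ x) (hy : 0 ≤ y) :
    x ^ (1 - 1 / r) * y ^ (1 / r) ≤ x + y := by
  have h0 : 0 < 1 / r := by positivity
  have h1 : 1 / r < 1 := by
    rw [div_lt_one (by linarith)]
    linarith
  have h := Real.geom_mean_le_arith_mean2_weighted (w₁ := 1 - 1 / r) (w₂ := 1 / r)
    (by linarith) h0.le hx hy (by ring)
  nlinarith

lemma term {r a b : ℝ} (hr : 2 < r) (ha : 0 ≤ a) (hb : 0 ≤ b) {k l : ℤ} (hkl : l ≤ k) :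
    (2 : ℝ) ^ k * (2 : ℝ) ^ l * (a ^ (1 - 1 / r) * b ^ (1 / r)) ≤
      ((4 : ℝ) ^ k * a + (4 : ℝ) ^ l * b) * ((2 : ℝ) ^ (-(1 - 2 / r))) ^ (k - l).natAbs := by
  rw [scale ha hb]
  have e : (2 : ℝ) ^ (((l : ℝ) - k) * (1 - 2 / r)) =
      ((2 : ℝ) ^ (-(1 - 2 / r))) ^ (k - l).natAbs := by
    rw [← Real.rpow_natCast, ← Real.rpow_mul (by norm_num)]
    congr 1
    have h1 : (((k - l).natAbs : ℕ) : ℝ) = (k : ℝ) - l := by
      have h2 : (((k - l).natAbs : ℕ) : ℤ) = k - l := Int.natAbs_of_nonneg (by omega)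
      have h3 : (((k - l).natAbs : ℕ) : ℝ) = ((((k - l).natAbs : ℕ) : ℤ) : ℝ) :=
        (Int.cast_natCast _).symm
      rw [h3, h2]
      push_cast
      ring
    rw [h1]
    ring
  rw [e]
  gcongr
  exact amgm hr (by positivity) (by positivity)

end MAR_

open MAR_ in
theorem p_MAR (h0 : T_REX) : T_MAR := by
  refine ⟨8, by norm_num, fun r hr hr4 I al be hal hbe h1 h2 => ?_⟩
  obtain ⟨-, -, -, -, -, -, -, -, hk2, -, hs0, -, -, hrho, -⟩ := h0 r hr hr4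
  set ρ : ℝ := (2 : ℝ) ^ (-(1 - 2 / r)) with hρ
  have hρ0 : 0 ≤ ρ := by positivity
  have hK : 0 < 1 / (2 * kr r) := by
    have : 0 < kr r := by linarith
    positivity
  have hρ1 : ρ < 1 := by linarith
  have hgeo : ∀ k : ℤ, ∑ l ∈ I, ρ ^ (k - l).natAbs ≤ 4 * kr r := by
    intro k
    refine (geo I k hρ0 hρ1).trans ?_
    have h3 : (1 - ρ)⁻¹ ≤ (1 / (2 * kr r))⁻¹ := inv_anti₀ hK hrho
    rw [one_div, inv_inv] at h3
    linarith
  have hterm : ∀ k l : ℤ, (2 : ℝ) ^ k * (2 : ℝ) ^ l *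
      min (al k ^ (1 - 1 / r) * be l ^ (1 / r)) (be l ^ (1 - 1 / r) * al k ^ (1 / r)) ≤
      ((4 : ℝ) ^ k * al k + (4 : ℝ) ^ l * be l) * ρ ^ (k - l).natAbs := by
    intro k l
    rcases le_total l k with h | h
    · refine le_trans ?_ (term hr (hal k) (hbe l) h)
      gcongr
      exact min_le_left _ _
    · have h3 := term hr (hbe l) (hal k) h
      have e1 : (l - k).natAbs = (k - l).natAbs := by omega
      rw [e1] at h3
      calc (2 : ℝ) ^ k * (2 : ℝ) ^ l *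
          min (al k ^ (1 - 1 / r) * be l ^ (1 / r)) (be l ^ (1 - 1 / r) * al k ^ (1 / r))
          ≤ (2 : ℝ) ^ k * (2 : ℝ) ^ l * (be l ^ (1 - 1 / r) * al k ^ (1 / r)) := by
            gcongr
            exact min_le_right _ _
        _ = (2 : ℝ) ^ l * (2 : ℝ) ^ k * (be l ^ (1 - 1 / r) * al k ^ (1 / r)) := by ring
        _ ≤ _ := h3
        _ = _ := by ring
  calc ∑ k ∈ I, ∑ l ∈ I, (2 : ℝ) ^ k * (2 : ℝ) ^ l *
      min (al k ^ (1 - 1 / r) * be l ^ (1 / r)) (be l ^ (1 - 1 / r) * al k ^ (1 / r))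
      ≤ ∑ k ∈ I, ∑ l ∈ I, ((4 : ℝ) ^ k * al k + (4 : ℝ) ^ l * be l) * ρ ^ (k - l).natAbs :=
        Finset.sum_le_sum fun k _ => Finset.sum_le_sum fun l _ => hterm k l
    _ = ∑ k ∈ I, (4 : ℝ) ^ k * al k * ∑ l ∈ I, ρ ^ (k - l).natAbs +
        ∑ l ∈ I, (4 : ℝ) ^ l * be l * ∑ k ∈ I, ρ ^ (l - k).natAbs := by
        have e2 : ∀ k l : ℤ, (k - l).natAbs = (l - k).natAbs := fun k l => by omega
        simp only [add_mul, Finset.sum_add_distrib, Finset.mul_sum]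
        congr 1
        rw [Finset.sum_comm]
        refine Finset.sum_congr rfl fun l _ => Finset.sum_congr rfl fun k _ => ?_
        rw [e2 k l]
    _ ≤ ∑ k ∈ I, (4 : ℝ) ^ k * al k * (4 * kr r) + ∑ l ∈ I, (4 : ℝ) ^ l * be l * (4 * kr r) := by
        gcongr with k _ l _
        · exact mul_nonneg (by positivity) (hal k)
        · exact hgeo k
        · exact mul_nonneg (by positivity) (hbe l)
        · exact hgeo l
    _ = (∑ k ∈ I, (4 : ℝ) ^ k * al k + ∑ l ∈ I, (4 : ℝ) ^ l * be l) * (4 * kr r) := by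
        rw [← Finset.sum_mul, ← Finset.sum_mul]
        ring
    _ ≤ (1 + 1) * (4 * kr r) := by
        have : 0 ≤ 4 * kr r := by linarith
        gcongr
    _ = 8 * kr r := by ring

end Pool.Agent.VRR
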