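import Pool.Agent.VRR.Targets
import Pool.Agent.VRC.P_VMASS

/-!
# VRR, target MASS: the mass lemma
-/

set_option autoImplicit false

namespace Pool.Agent.VRR

open MeasureTheory Set ComplexConjugate Filter Topology
open scoped ENNReal NNReal
open Pool.Agent.CAR
open Pool.Agent.VRC (PQ Act vc vav)

open Pool.Agent.VRC.VMASS_ in
theorem p_MASS (_ : T_REX) (h1 : T_BAS) (_ : T_DNB) : T_MASS := by
  classical
  refine ⟨24576, by norm_num, fun r hr2 hr4 L p q a E hPQ hAB S mu hmu => ?_⟩
  obtain ⟨-, -, -, b4, -, b6, b7⟩ := h1 r hr2 hr4 L p q a 1 E hPQ hAB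
  set f : Tile → ℝ → ℝ≥0∞ := fun u x => ENNReal.ofReal (vm r L p a u.om x) with hf
  have hmeas : ∀ u : Tile, Measurable (vm r L p a u.om) := fun u =>
    b6 u.om (Pool.Agent.CAR.MASS.measurableSet_om u)
  have hfm : ∀ u, Measurable (f u) := fun u => (hmeas u).ennreal_ofReal
  have hs : Spl f E := by
    intro I x hI
    have h2 := b7 I (fun s => s.om) univ x hI (fun s _ => subset_univ _)
    simp only [hf]
    rw [← ENNReal.ofReal_sum_of_nonneg fun s _ => (b4 s.om x).1]
    by_cases hx : x ∈ E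
    · rw [indicator_of_mem hx, ← ENNReal.ofReal_one]
      refine ENNReal.ofReal_le_ofReal (h2.trans ?_)
      have h3 := (b4 univ x).2.1
      rwa [Real.one_rpow] at h3
    · rw [(b4 univ x).2.2 hx] at h2
      rw [ENNReal.ofReal_of_nonpos h2]
      exact zero_le
  have hd : ∀ u : Tile, vdn r L p a u = dens f u := by
    intro u
    rw [vdn, dens, integral_const_mul, integral_eq_lintegral_of_nonneg_ae]
    · congr 2
      refine lintegral_congr fun x => ?_
      rw [ENNReal.ofReal_mul (Pool.Agent.CAR.MASS.wt_nonneg 8 _)]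
    · exact Filter.Eventually.of_forall fun x =>
        mul_nonneg (Pool.Agent.CAR.MASS.wt_nonneg 8 _) (b4 u.om x).1
    · exact ((Pool.Agent.CAR.MASS.measurable_wt 8 u).mul (hmeas u)).aestronglyMeasurable
  obtain ⟨U, k1, k2⟩ := mass hAB.mE hAB.fE hfm hs (show 0 < 4 * mu by linarith) S
  refine ⟨S.filter (fun s => ∀ u ∈ U, ¬ TLE s u), U, Finset.filter_subset _ _, ?_, ?_, ?_⟩
  · intro s hs' u hu
    rw [Finset.mem_filter] at hs'
    rw [hd]
    have := k2 s hs'.1 hs'.2 u hu
    linarith
  · intro s hs' hs''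
    by_contra hcon
    push Not at hcon
    exact hs'' (Finset.mem_filter.2 ⟨hs', hcon⟩)
  · refine le_trans k1 ?_
    have hvol : 0 ≤ vol E := ENNReal.toReal_nonneg
    apply div_le_div_of_nonneg_left (by positivity) hmu
    linarith

end Pool.Agent.VRR
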