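import Pool.Agent.VRR.Targets
import Pool.Agent.VRC.P_VMIN

set_option autoImplicit false

/-!
# VRR, target MIN: (-)-trees
-/

namespace Pool.Agent.VRR

namespace MIN_

open MeasureTheory Set ComplexConjugate
open scoped ENNReal NNReal
open Pool.Agent.CAR
open Pool.Agent.VRC (PQ Act vc vav)
open Pool.Agent.VRC.VMIN_ (UU mUU act_of_ne)

theorem vc_le {r : ℝ} (h2r : 2 < r) (hr4 : r ≤ 4) (h0 : T_REX) {L : ℕ} {p q : ℕ → ℝ → ℝ}
    {a : ℕ → ℝ → ℂ} {E : Set ℝ} (h1 : T_BAS)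
    (hPQ : PQ L p q) (hAB : AB r L a 1 E) {T : Finset Tile} {s : Tile} (hs : s ∈ T) {k0 : ℤ}
    (hk : k0 + 2 ≤ s.k) (x : ℝ) :
    ‖vc L p q a s x‖ ≤ vm r L p a (UU T k0) x ^ (1 - 1 / r) := by
  obtain ⟨-, b2, b3, -⟩ := h1 r h2r hr4 L p q a 1 E hPQ hAB
  obtain ⟨-, -, -, c1, c2, -⟩ := h0 r h2r hr4
  have e1 : ‖vc L p q a s x‖ ^ rc r ≤ vm r L p a (UU T k0) x :=
    (b2 s x).trans (b3 _ _ x fun f hf => ⟨s, hs, hk, up_sub s hf⟩)
  have e2 : ‖vc L p q a s x‖ = (‖vc L p q a s x‖ ^ rc r) ^ (1 - 1 / r) := by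
    rw [← Real.rpow_mul (norm_nonneg _), c1, Real.rpow_one]
  rw [e2]
  exact Real.rpow_le_rpow (by positivity) e1 (by linarith)

open Classical in
theorem pt {r : ℝ} (h2r : 2 < r) (hr4 : r ≤ 4) (h0' : T_REX) {φ : ℝ → ℂ} {L : ℕ} {p q : ℕ → ℝ → ℝ} {a : ℕ → ℝ → ℂ} {E : Set ℝ} (h1 : T_BAS)
    (h2 : Pool.Agent.VRC.T_VTR) (hPQ : PQ L p q) (hAB : AB r L a 1 E) {T : Finset Tile} {K Λ : ℤ} {ξ : ℝ}
    (hT : MTree T K Λ ξ) {w : Tile → ℂ} {B x : ℝ} {k0 : ℤ} (hB : 0 ≤ B)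
    (h : ∀ j : ℤ, ∑ s ∈ T.filter (fun s => s.k = j), ‖w s‖ * ‖fx φ s x‖ ≤ B) :
    ‖∑ s ∈ T, if k0 + 2 ≤ s.k then w s * fx φ s x * vc L p q a s x else 0‖ ≤
      vm r L p a (UU T k0) x ^ (1 - 1 / r) * B := by
  have hv0 : 0 ≤ vm r L p a (UU T k0) x ^ (1 - 1 / r) :=
    Real.rpow_nonneg ((h1 r h2r hr4 L p q a 1 E hPQ hAB).2.2.2.1 _ x).1 _
  by_cases hne : ∃ t ∈ T, k0 + 2 ≤ t.k ∧ vc L p q a t x ≠ 0
  · obtain ⟨t, ht, hkt, hvt⟩ := hne
    obtain ⟨j, hj, hxj⟩ := act_of_ne hvt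
    refine (norm_sum_le _ _).trans ?_
    have e1 : ∀ s ∈ T, ‖(if k0 + 2 ≤ s.k then w s * fx φ s x * vc L p q a s x else 0)‖ ≤
        vm r L p a (UU T k0) x ^ (1 - 1 / r) *
          (if s.k = t.k then ‖w s‖ * ‖fx φ s x‖ else 0) := by
      intro s hs
      by_cases hk : k0 + 2 ≤ s.k
      · rw [if_pos hk]
        by_cases hv : vc L p q a s x = 0
        · rw [hv, mul_zero, norm_zero]
          refine mul_nonneg hv0 ?_
          split_ifs <;> positivity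
        · obtain ⟨i, hi, hxi⟩ := act_of_ne hv
          have e2 := ((h2 L p q hPQ T K Λ ξ).1 hT s hs t ht i hi j hj x hxi hxj).2
          rw [if_pos e2, norm_mul, norm_mul, mul_comm]
          exact mul_le_mul_of_nonneg_right (vc_le h2r hr4 h0' h1 hPQ hAB hs hk x) (by positivity)
      · rw [if_neg hk, norm_zero]
        refine mul_nonneg hv0 ?_
        split_ifs <;> positivity
    refine (Finset.sum_le_sum e1).trans ?_
    rw [← Finset.mul_sum, ← Finset.sum_filter]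
    exact mul_le_mul_of_nonneg_left (h t.k) hv0
  · have h0 : ∑ s ∈ T, (if k0 + 2 ≤ s.k then w s * fx φ s x * vc L p q a s x else 0) = 0 := by
      refine Finset.sum_eq_zero fun s hs => ?_
      by_cases hk : k0 + 2 ≤ s.k
      · rw [if_pos hk]
        have : vc L p q a s x = 0 := by
          by_contra hv
          exact hne ⟨s, hs, hk, hv⟩
        rw [this, mul_zero]
      · rw [if_neg hk]
    rw [h0, norm_zero]
    exact mul_nonneg hv0 hB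

theorem meas_vm {r : ℝ} (h2r : 2 < r) (hr4 : r ≤ 4) {L : ℕ} {p q : ℕ → ℝ → ℝ} {a : ℕ → ℝ → ℂ} {E : Set ℝ} (h1 : T_BAS)
    (hPQ : PQ L p q) (hAB : AB r L a 1 E) (T : Finset Tile) {κ : ℝ → ℤ} (hκ : Measurable κ) :
    Measurable (fun x => ENNReal.ofReal (vm r L p a (UU T (κ x)) x)) := by
  have e1 : Measurable (fun z : ℤ × ℝ => vm r L p a (UU T z.1) z.2) :=
    measurable_from_prod_countable_right fun k =>
      (h1 r h2r hr4 L p q a 1 E hPQ hAB).2.2.2.2.2.1 _ (mUU T k)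
  exact (e1.comp (hκ.prodMk measurable_id)).ennreal_ofReal

open Classical in
theorem meas_sum {r : ℝ} (h2r : 2 < r) (hr4 : r ≤ 4) {φ : ℝ → ℂ} (hφ : Continuous φ) {L : ℕ} {p q : ℕ → ℝ → ℝ} {a : ℕ → ℝ → ℂ}
    {E : Set ℝ} (h1 : T_BAS) (hPQ : PQ L p q) (hAB : AB r L a 1 E) (T : Finset Tile) {κ : ℝ → ℤ}
    (hκ : Measurable κ) (w : Tile → ℂ) :
    Measurable (fun x => ∑ s ∈ T,
      if κ x + 2 ≤ s.k then w s * fx φ s x * vc L p q a s x else 0) := by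
  refine Finset.measurable_fun_sum _ fun s _ => Measurable.ite ?_ ?_ measurable_const
  · exact measurableSet_le (hκ.add_const 2) measurable_const
  · exact (measurable_const.mul (SPL_.cont_fx hφ s).measurable).mul
      ((h1 r h2r hr4 L p q a 1 E hPQ hAB).2.2.2.2.1 s)

open Classical in
theorem large {r : ℝ} (h2r : 2 < r) (hr4 : r ≤ 4) (h0' : T_REX) {C3 B : ℝ} {φ : ℝ → ℂ} (hφ : Continuous φ) (h1 : T_BAS) (h2 : Pool.Agent.VRC.T_VTR)
    (h4 : T_AVG) {L : ℕ} {p q : ℕ → ℝ → ℝ} {a : ℕ → ℝ → ℂ} {E : Set ℝ} (hPQ : PQ L p q)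
    (hAB : AB r L a 1 E) {T : Finset Tile} {K Λ : ℤ} {ξ mu : ℝ} (hT : MTree T K Λ ξ) {κ : ℝ → ℤ}
    (hκ : Stop T κ) (hB : 0 ≤ B) (hmu : 0 ≤ mu) (hC3 : 0 < C3) {w : Tile → ℂ}
    (hC : ∀ (j : ℤ) (x : ℝ), ∑ s ∈ T.filter (fun s => s.k = j), ‖w s‖ * ‖fx φ s x‖ ≤ B)
    (hP2 : ∀ x, ∫⁻ y in Jx κ x, ENNReal.ofReal (vm r L p a (UU T (κ x)) y) ≤
      ENNReal.ofReal (C3 * mu) * volume (Jx κ x)) :
    ∫⁻ x, ‖∑ s ∈ T, if κ x + 2 ≤ s.k then w s * fx φ s x * vc L p q a s x else 0‖ₑ ≤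
      ENNReal.ofReal (C3 ^ (1 - 1 / r) * mu ^ (1 - 1 / r) * (B * (3 * (2 : ℝ) ^ K))) := by
  set W : Set ℝ := Icc ((2 : ℝ) ^ K * (Λ - 1)) ((2 : ℝ) ^ K * (Λ + 2)) with hWd
  have hK := two_zpow_pos K
  have hs0 : 0 ≤ 1 - 1 / r := by
    obtain ⟨-, -, -, -, c2, -⟩ := h0' r h2r hr4
    linarith
  have hvW : volume W = ENNReal.ofReal (3 * (2 : ℝ) ^ K) := by
    rw [hWd, Real.volume_Icc]
    congr 1
    ring
  have hTr : Tree T K Λ ξ := fun s hs => ⟨(hT s hs).1, lo_sub s (hT s hs).2⟩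
  have e2 := h4 r h2r hr4 κ hκ.meas hκ.const W (ENNReal.ofReal (C3 * mu))
    (fun x => ENNReal.ofReal (vm r L p a (UU T (κ x)) x))
    (fun x => ‖∑ s ∈ T, if κ x + 2 ≤ s.k then w s * fx φ s x * vc L p q a s x else 0‖ₑ)
    (fun _ => ENNReal.ofReal B) measurableSet_Icc ENNReal.ofReal_ne_top
    (meas_vm h2r hr4 h1 hPQ hAB T hκ.meas) (meas_sum h2r hr4 hφ h1 hPQ hAB T hκ.meas w).enorm
    measurable_const (fun x => ?_) (fun x y hy => ?_) (fun x y hxy hy => ?_)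
  · refine e2.trans (le_of_eq ?_)
    rw [setLIntegral_const, hvW, ← ENNReal.ofReal_mul hB,
      ENNReal.ofReal_rpow_of_nonneg (by positivity) hs0,
      Real.mul_rpow hC3.le hmu, ← ENNReal.ofReal_mul (by positivity)]
  · refine le_trans (le_of_eq ?_) (hP2 x)
    refine setLIntegral_congr_fun (measurableSet_dy _ _) fun y hy => ?_
    rw [hκ.const x y hy]
  · have hv0 : 0 ≤ vm r L p a (UU T (κ y)) y := ((h1 r h2r hr4 L p q a 1 E hPQ hAB).2.2.2.1 _ y).1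
    rw [ENNReal.ofReal_rpow_of_nonneg hv0 hs0,
      ← ENNReal.ofReal_mul (by positivity), ← ofReal_norm]
    exact ENNReal.ofReal_le_ofReal (pt h2r hr4 h0' h1 h2 hPQ hAB hT hB fun j => hC j y)
  · have hne : vm r L p a (UU T (κ y)) y ≠ 0 := by
      intro h0
      exact hy (by simp only [h0, ENNReal.ofReal_zero])
    unfold vm at hne
    obtain ⟨j, -, hj⟩ := Finset.exists_ne_zero_of_sum_ne_zero hne
    have hm : y ∈ p j ⁻¹' UU T (κ y) := by_contra fun hx => hj (indicator_of_notMem hx _)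
    obtain ⟨s, hs, hk, -⟩ := hm
    rw [hκ.const x y hxy] at hk
    have h5 : s.k ≤ K := le_of_dy_sub (hT s hs).1
    exact p_NEAR T K Λ ξ κ hTr hκ x (by omega)

end MIN_

open MeasureTheory Set ComplexConjugate
open scoped ENNReal NNReal
open Pool.Agent.CAR

open Pool.Agent.VRC (PQ Act vc vav)

/-- **MIN** -/
theorem p_MIN (h0 : T_REX) (h1 : T_BAS) (h2 : Pool.Agent.VRC.T_VTR) (h3 : T_P2) (h4 : T_AVG)
    (h5 : T_SMA) (h6 : T_SPL) : T_MIN := by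
  classical
  intro A
  obtain ⟨C1, hC1, hONE⟩ := p_ONE p_WTS p_FXB A
  obtain ⟨C3, hC3, hP2⟩ := h3
  obtain ⟨C4, hC4, hSMA⟩ := h5 A
  obtain ⟨C5, hC5, hSMB⟩ := p_SMB
  refine ⟨C4 * C5 + (C3 + 1) * (C1 * 3), by positivity, ?_⟩
  intro r h2r hr4 φ Φ hW L p q a E hPQ hAB c T K Λ ξ eps mu hT heps hmu hc hMs
  have hK := two_zpow_pos K
  rcases T.eq_empty_or_nonempty with rfl | hne
  · rw [Finset.sum_empty]
    positivity
  obtain ⟨κ, hκ⟩ := p_STOP T hne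
  obtain ⟨ε, hε, hle⟩ := h6 r h2r hr4 A φ Φ hW L p q a E hPQ hAB c T κ (fun s hs => (hc s hs).1) hκ.meas
  have hTr : Tree T K Λ ξ := fun s hs => ⟨(hT s hs).1, lo_sub s (hT s hs).2⟩
  have hsmall : ∑ s ∈ T, c s *
      ∫ x in {x | s.k ≤ κ x + 1}, ‖vc L p q a s x‖ * ‖fx φ s x‖ ≤
      C4 * C5 * (eps * mu ^ (1 - 1 / r) * 2 ^ K) := by
    calc ∑ s ∈ T, c s * ∫ x in {x | s.k ≤ κ x + 1}, ‖vc L p q a s x‖ * ‖fx φ s x‖
        ≤ ∑ s ∈ T, eps * (C4 * mu ^ (1 - 1 / r) *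
            ∫ x in {x | s.k ≤ κ x + 1}, wt 10 (s.u x)) := by
          refine Finset.sum_le_sum fun s hs => ?_
          refine le_trans (mul_le_mul_of_nonneg_right (hc s hs).2
            (integral_nonneg fun x => by positivity)) ?_
          rw [mul_assoc]
          exact mul_le_mul_of_nonneg_left
            (hSMA r h2r hr4 φ Φ hW L p q a E hPQ hAB T κ mu hκ hMs hmu s hs) heps
      _ = eps * (C4 * mu ^ (1 - 1 / r)) *
            ∑ s ∈ T, ∫ x in {x | s.k ≤ κ x + 1}, wt 10 (s.u x) := by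
          rw [Finset.mul_sum]
          exact Finset.sum_congr rfl fun s _ => by ring
      _ ≤ eps * (C4 * mu ^ (1 - 1 / r)) * (C5 * 2 ^ K) :=
          mul_le_mul_of_nonneg_left (hSMB T K Λ ξ κ hTr hκ) (by positivity)
      _ = _ := by ring
  have hlarge := MIN_.large h2r hr4 h0 (φ := φ) (C3 := C3) (B := C1 * eps) (E := E)
    (K := K) (Λ := Λ) (mu := mu) (w := fun s => ε s * ((c s : ℝ) : ℂ)) hW.cφ h1 h2 h4 hPQ hAB hT hκ
    (by positivity) hmu hC3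
    (fun j x => by
      have e1 : ∑ s ∈ T.filter (fun s => s.k = j), ‖ε s * ((c s : ℝ) : ℂ)‖ * ‖fx φ s x‖ =
          ∑ s ∈ T.filter (fun s => s.k = j), c s * ‖fx φ s x‖ := by
        refine Finset.sum_congr rfl fun s hs => ?_
        rw [norm_mul, hε s, one_mul, Complex.norm_real,
          Real.norm_of_nonneg (hc s (Finset.mem_filter.1 hs).1).1]
      rw [e1]
      exact hONE φ Φ hW T K Λ ξ hTr c eps heps hc j x)
    (hP2 r h2r hr4 L p q a E hPQ hAB T K Λ ξ mu κ hTr hκ hMs)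
  have hfin : ENNReal.ofReal (∑ s ∈ T, c s * ‖vav φ L p q a s‖) ≤
      ENNReal.ofReal ((C4 * C5 + (C3 + 1) * (C1 * 3)) * eps * mu ^ (1 - 1 / r) *
        2 ^ K) := by
    refine hle.trans ((add_le_add (ENNReal.ofReal_le_ofReal hsmall) hlarge).trans ?_)
    rw [← ENNReal.ofReal_add (by positivity) (by positivity)]
    refine ENNReal.ofReal_le_ofReal ?_
    have hC3' : C3 ^ (1 - 1 / r) ≤ C3 + 1 := by
      obtain ⟨-, -, -, -, c2, c3, -⟩ := h0 r h2r hr4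
      refine (Real.rpow_le_rpow hC3.le (by linarith : C3 ≤ C3 + 1) (by linarith)).trans ?_
      refine (Real.rpow_le_rpow_of_exponent_le (by linarith) (by linarith :
        1 - 1 / r ≤ 1)).trans (le_of_eq (Real.rpow_one _))
    have h7 : C3 ^ (1 - 1 / r) * (mu ^ (1 - 1 / r) * (C1 * eps * (3 * (2 : ℝ) ^ K))) ≤
        (C3 + 1) * (mu ^ (1 - 1 / r) * (C1 * eps * (3 * (2 : ℝ) ^ K))) :=
      mul_le_mul_of_nonneg_right hC3' (by positivity)
    linarith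
  exact (ENNReal.ofReal_le_ofReal_iff (by positivity)).1 hfin

end Pool.Agent.VRR
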