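import Pool.Agent.VRR.Targets
import Pool.Agent.CAR.P_MODS

set_option autoImplicit false

/-!
# VRR, target MODS: strong form of the model estimate
-/

namespace Pool.Agent.VRR

open MeasureTheory Set ComplexConjugate
open scoped ENNReal NNReal
open Pool.Agent.CAR
open Pool.Agent.VRC (PQ Act vc vav GG2)

/-- MODS -/
theorem p_MODS (h0 : T_REX) (h1 : T_INT) : T_MODS := by
  intro A
  obtain ⟨C, hC, h⟩ := h1 A
  refine ⟨C, hC, ?_⟩
  intro r hr2 hr4 φ Φ g hW hD L p q a h' E hPQ hAB S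
  obtain ⟨-, -, -, -, -, -, -, -, hkr, -⟩ := h0 r hr2 hr4
  have hk : 0 ≤ C * kr r ^ 3 := by
    have : 0 ≤ kr r := by linarith
    positivity
  set f : ℝ → ℂ := MODS_.fg g with hf
  set M : ℝ := ∫ ξ, ‖g ξ‖ with hM
  have hM0 : 0 ≤ M := integral_nonneg fun ξ => norm_nonneg _
  have hfc : Continuous f := MODS_.continuous_fg hD.ig
  have hfM : ∀ x, ‖f x‖ ≤ M := MODS_.norm_fg_le g
  obtain ⟨hf2, hfe⟩ := MODS_.fg_sq hD.mg hD.ig hD.sg
  have hn : ∀ n : ℕ, ∑ s ∈ S, ‖cf φ ((Icc (-(n : ℝ)) n).indicator f) s‖ *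
      ‖vav φ L p q a s‖ ≤ C * kr r ^ 3 * n2 g * na r L a := by
    intro n
    have hB : BF M (Icc (-(n : ℝ)) n) ((Icc (-(n : ℝ)) n).indicator f) :=
      ⟨hfc.measurable.indicator measurableSet_Icc, measurableSet_Icc,
        by rw [Real.volume_Icc]; exact ENNReal.ofReal_ne_top, hM0,
        fun x => (norm_indicator_le_norm_self _ _).trans (hfM x),
        fun x hx => indicator_of_notMem hx f⟩
    have h2 := h r hr2 hr4 φ Φ hW _ _ M h' L p q a E hB hPQ hAB S
    refine h2.trans ?_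
    have h3 : n2 ((Icc (-(n : ℝ)) n).indicator f) ≤ n2 g := by
      unfold n2
      refine Real.sqrt_le_sqrt ?_
      rw [← hfe]
      refine integral_mono_of_nonneg (Filter.Eventually.of_forall fun x => by positivity) hf2
        (Filter.Eventually.of_forall fun x => ?_)
      exact pow_le_pow_left₀ (norm_nonneg _) (norm_indicator_le_norm_self _ _) 2
    have h4 : 0 ≤ na r L a := Real.sqrt_nonneg _
    exact mul_le_mul_of_nonneg_right (mul_le_mul_of_nonneg_left h3 hk) h4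
  have hlim : Filter.Tendsto (fun n : ℕ =>
      ∑ s ∈ S, ‖cf φ ((Icc (-(n : ℝ)) n).indicator f) s‖ * ‖vav φ L p q a s‖) Filter.atTop
      (nhds (∑ s ∈ S, ‖cf φ f s‖ * ‖vav φ L p q a s‖)) := by
    refine tendsto_finsetSum _ fun s _ => ?_
    obtain ⟨-, -, -, -, -, hfi, -⟩ := p_FXB A φ Φ hW s
    exact ((MODS_.cf_tendsto hfi hfc hfM).norm).mul_const _
  have hfin := le_of_tendsto' hlim hn
  refine le_trans (le_of_eq ?_) hfin
  refine Finset.sum_congr rfl fun s _ => ?_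
  rw [hf, MODS_.cf_fg hW hD.mg hD.ig s]

end Pool.Agent.VRR
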