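import Pool.Agent.VRR.Targets2
import Pool.Agent.VRC.P_NVF

set_option autoImplicit false

/-!
# VRR-NVF: radii with few values on the spheres about the origin, the final theorem
-/

namespace Pool.Agent.VRR

open MeasureTheory FourierTransform Set Filter Topology
open scoped ENNReal NNReal ComplexConjugate
open Pool.Agent.MBS (E ex S)
open Pool.Agent.CRN (sg SH S1 Nice T_POLN T_DSN)
open Pool.Agent.CRR (EB pn co)
open Pool.Agent.VRC.NVF_ (G G_meas)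

theorem p_NVF (h1 : T_NVR) (h2 : Pool.Agent.CRR.T_OSC) (_h3 : Pool.Agent.CRN.T_POLN)
    (_h4 : Pool.Agent.CRN.T_DSN) : T_NVF := by
  intro n hn
  obtain ⟨C1, h1⟩ := h1 n hn
  obtain ⟨C3, h3⟩ := h2 n hn
  refine ⟨2 * C1 + 2 * C3, fun M A f ρ R hM hA hf hρ hρ0 hR hR0 hosc => ?_⟩
  have : Nonempty (Fin n) := ⟨⟨0, by omega⟩⟩
  -- the first part
  have a1 : ∫⁻ x, G f ρ M x ^ 2 ≤
      C1 * ENNReal.ofReal (Real.log (2 + M) ^ 16) * ∫⁻ x, ‖f x‖ₑ ^ 2 :=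
    h1 M f ρ hM hf hρ hρ0
  have a2 := h3 A f hA hf
  have hpt : ∀ᵐ x : E n, ‖S f (R x) x‖ₑ ^ 2 ≤ 2 * G f ρ M x ^ 2 +
      2 * (⨆ (R : ℝ) (R' : ℝ) (_ : 0 < R ∧ 0 < R' ∧ |R - R'| ≤ A / ‖x‖),
        ‖S f R x - S f R' x‖ₑ) ^ 2 := by
    have hae : ∀ᵐ x : E n, x ≠ 0 := Measure.ae_ne volume 0
    filter_upwards [hae] with x hx
    obtain ⟨j, hj, hd⟩ := hosc x hx
    have b1 : ‖S f (R x) x - S f (ρ j ‖x‖) x‖ₑ ≤
        ⨆ (R : ℝ) (R' : ℝ) (_ : 0 < R ∧ 0 < R' ∧ |R - R'| ≤ A / ‖x‖),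
          ‖S f R x - S f R' x‖ₑ :=
      le_iSup_of_le (R x) (le_iSup_of_le (ρ j ‖x‖)
        (le_iSup_of_le ⟨hR0 x, hρ0 j ‖x‖, hd⟩ le_rfl))
    have b3 : ‖S f (ρ j ‖x‖) x‖ₑ ≤ G f ρ M x :=
      le_iSup_of_le j (le_iSup_of_le hj le_rfl)
    have b2 : ‖S f (R x) x‖ₑ ≤ ‖S f (ρ j ‖x‖) x‖ₑ + ‖S f (R x) x - S f (ρ j ‖x‖) x‖ₑ := by
      have := enorm_add_le (S f (ρ j ‖x‖) x) (S f (R x) x - S f (ρ j ‖x‖) x)
      rwa [add_sub_cancel] at this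
    refine (pow_le_pow_left' (b2.trans (add_le_add b3 b1)) 2).trans ?_
    exact Pool.Agent.CRR.RCH_.sq_add _ _
  have hm : Measurable (fun x : E n => 2 * G f ρ M x ^ 2) :=
    ((G_meas hf.int hρ M).pow_const 2).const_mul 2
  have h6 : ∫⁻ x, ‖S f (R x) x‖ₑ ^ 2 ≤
      2 * (∫⁻ x, G f ρ M x ^ 2) +
      2 * (∫⁻ x, (⨆ (R : ℝ) (R' : ℝ) (_ : 0 < R ∧ 0 < R' ∧ |R - R'| ≤ A / ‖x‖),
        ‖S f R x - S f R' x‖ₑ) ^ 2) := by
    refine (lintegral_mono_ae hpt).trans ?_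
    rw [lintegral_add_left hm, lintegral_const_mul' _ _ (by norm_num),
      lintegral_const_mul' _ _ (by norm_num)]
  refine h6.trans ?_
  rw [ENNReal.ofReal_add (by positivity) (by positivity)]
  set L := ENNReal.ofReal (Real.log (2 + A) ^ 2) with hL
  set q := ENNReal.ofReal (Real.log (2 + M) ^ 16) with hq
  set N := ∫⁻ x, ‖f x‖ₑ ^ 2 with hN
  calc 2 * (∫⁻ x, G f ρ M x ^ 2) +
      2 * (∫⁻ x, (⨆ (R : ℝ) (R' : ℝ) (_ : 0 < R ∧ 0 < R' ∧ |R - R'| ≤ A / ‖x‖),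
        ‖S f R x - S f R' x‖ₑ) ^ 2) ≤ 2 * (C1 * q * N) + 2 * (C3 * L * N) := by gcongr
    _ = (2 * C1 * q + 2 * C3 * L) * N := by ring
    _ ≤ ((2 * C1 + 2 * C3) * q + (2 * C1 + 2 * C3) * L) * N := by
        gcongr
        · exact le_self_add
        · exact le_add_self
    _ = ((2 * C1 + 2 * C3 : ℝ≥0) : ℝ≥0∞) * (q + L) * N := by
        push_cast
        ring

end Pool.Agent.VRR
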