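import Pool.Agent.VRR.Targets2
import Pool.Agent.CRR.P_RCH

set_option autoImplicit false

/-!
# VRR, block NVR (MP_ee701d_an, helper75): radii with `M` values on every sphere, the choice of `q`
-/

namespace Pool.Agent.VRR

open MeasureTheory FourierTransform Set Filter Topology
open scoped ENNReal NNReal ComplexConjugate
open Pool.Agent.MBS (E ex S)
open Pool.Agent.CRN (sg SH S1 Nice T_POLN T_DSN)

namespace NVR_

lemma log3 : (1 : ℝ) ≤ Real.log 3 := by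
  rw [Real.le_log_iff_exp_le (by norm_num)]
  have := Real.exp_one_lt_d9
  linarith

/-- the parameters -/
lemma par {M : ℕ} (hM : 1 ≤ M) : ∃ q : ℝ, 2 < q ∧ q ≤ 4 ∧ kr q = 2 + Real.log M ∧
    (M : ℝ) ^ (1 - 2 / q) ≤ 3 := by
  have hM1 : (1 : ℝ) ≤ M := by exact_mod_cast hM
  have hl : 0 ≤ Real.log M := Real.log_nonneg hM1
  set w : ℝ := 2 + Real.log M with hw
  have hw2 : 2 ≤ w := by linarith
  have hw0 : 0 < w := by linarith
  have hw1 : 0 < w - 1 := by linarith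
  refine ⟨2 * w / (w - 1), ?_, ?_, ?_, ?_⟩
  · rw [lt_div_iff₀ hw1]
    linarith
  · rw [div_le_iff₀ hw1]
    linarith
  · unfold kr
    have : 2 * w / (w - 1) - 2 = 2 / (w - 1) := by
      field_simp
      ring
    rw [this]
    field_simp
  · have e : 1 - 2 / (2 * w / (w - 1)) = 1 / w := by
      field_simp
      ring
    rw [e, Real.rpow_def_of_pos (by linarith)]
    have h1 : Real.log M * (1 / w) ≤ 1 := by
      rw [mul_one_div, div_le_one hw0]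
      linarith
    calc Real.exp (Real.log M * (1 / w)) ≤ Real.exp 1 := Real.exp_le_exp.2 h1
      _ ≤ 3 := by linarith [Real.exp_one_lt_d9]

lemma w_le {M : ℕ} (hM : 1 ≤ M) : 2 + Real.log M ≤ 4 * Real.log (2 + M) := by
  have hM1 : (1 : ℝ) ≤ M := by exact_mod_cast hM
  have h1 : Real.log 3 ≤ Real.log (2 + M) := Real.log_le_log (by norm_num) (by linarith)
  have h2 : Real.log M ≤ Real.log (2 + M) := Real.log_le_log (by linarith) (by linarith)
  linarith [log3]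

end NVR_

open NVR_ in
theorem p_NVR (_h0 : T_REX) (h1 : T_RAV) (h2 : T_NVD) (h3 : Pool.Agent.CRN.T_POLN)
    (_h4 : Pool.Agent.CRN.T_DSN) : T_NVR := by
  intro n hn
  obtain ⟨C1, hC1⟩ := h1 n hn
  obtain ⟨C2, hC2⟩ := h2
  refine ⟨C2 * 3 * C1 * 4 ^ 16, ?_⟩
  intro M f ρ hM hf hρ hρ0
  obtain ⟨q, hq2, hq4, hkr, hMq⟩ := par hM
  have hlog := w_le hM
  have hM1 : (1 : ℝ) ≤ M := by exact_mod_cast hM
  have hl : 0 ≤ Real.log M := Real.log_nonneg hM1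
  have hk0 : 0 ≤ kr q := by rw [hkr]; linarith
  obtain ⟨hpol, -, -⟩ := h3 n (by omega)
  have hmeas : Measurable fun x : E n => (⨆ (j : ℕ) (_ : j < M), ‖S f (ρ j ‖x‖) x‖ₑ) ^ 2 := by
    refine Measurable.pow_const ?_ 2
    refine Measurable.iSup fun j => Measurable.iSup fun _ => ?_
    exact (Pool.Agent.CRR.RCH_.S_meas hf.int ((hρ j).comp measurable_norm)).enorm
  rw [hpol _ hmeas]
  -- one sphere
  have hsph : ∀ r ∈ Ioi (0 : ℝ), ∫⁻ ω, ENNReal.ofReal (r ^ (n - 1)) *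
      (⨆ (j : ℕ) (_ : j < M), ‖S f (ρ j ‖r • (ω : E n)‖) (r • (ω : E n))‖ₑ) ^ 2 ∂(sg n) ≤
      C2 * ENNReal.ofReal (kr q ^ 2 * (M : ℝ) ^ (1 - 2 / q)) *
        (VS q f r ^ 2 * ENNReal.ofReal (r ^ (n - 1))) := by
    intro r hr
    have hr0 : (0 : ℝ) < r := hr
    have e1 : ∀ ω : Metric.sphere (0 : E n) 1, ‖r • (ω : E n)‖ = r := by
      intro ω
      rw [norm_smul, Real.norm_eq_abs, abs_of_pos hr0, norm_eq_of_mem_sphere, mul_one]
    simp only [e1]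
    rw [lintegral_const_mul' _ _ ENNReal.ofReal_ne_top]
    have h5 := hC2 q hq2 hq4 n M f r (fun j => ρ j r) hn hM hf (fun j => hρ0 j r)
    calc ENNReal.ofReal (r ^ (n - 1)) *
        ∫⁻ ω, (⨆ (j : ℕ) (_ : j < M), ‖S f (ρ j r) (r • (ω : E n))‖ₑ) ^ 2 ∂(sg n)
        ≤ ENNReal.ofReal (r ^ (n - 1)) *
          (C2 * ENNReal.ofReal (kr q ^ 2 * (M : ℝ) ^ (1 - 2 / q)) * VS q f r ^ 2) := by
          gcongr
      _ = _ := by ring
  calc ∫⁻ r in Ioi (0 : ℝ), ∫⁻ ω, ENNReal.ofReal (r ^ (n - 1)) *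
      (⨆ (j : ℕ) (_ : j < M), ‖S f (ρ j ‖r • (ω : E n)‖) (r • (ω : E n))‖ₑ) ^ 2 ∂(sg n)
      ≤ ∫⁻ r in Ioi (0 : ℝ), C2 * ENNReal.ofReal (kr q ^ 2 * (M : ℝ) ^ (1 - 2 / q)) *
        (VS q f r ^ 2 * ENNReal.ofReal (r ^ (n - 1))) :=
        setLIntegral_mono' measurableSet_Ioi hsph
    _ = C2 * ENNReal.ofReal (kr q ^ 2 * (M : ℝ) ^ (1 - 2 / q)) *
        ∫⁻ r in Ioi (0 : ℝ), VS q f r ^ 2 * ENNReal.ofReal (r ^ (n - 1)) := by
        rw [lintegral_const_mul']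
        exact ENNReal.mul_ne_top ENNReal.coe_ne_top ENNReal.ofReal_ne_top
    _ ≤ C2 * ENNReal.ofReal (kr q ^ 2 * (M : ℝ) ^ (1 - 2 / q)) *
        (C1 * ENNReal.ofReal (kr q ^ 14) * ∫⁻ x, ‖f x‖ₑ ^ 2) := by
        gcongr
        exact hC1 q hq2 hq4 f hf
    _ ≤ C2 * ENNReal.ofReal (kr q ^ 2 * 3) *
        (C1 * ENNReal.ofReal (kr q ^ 14) * ∫⁻ x, ‖f x‖ₑ ^ 2) := by
        gcongr
    _ = C2 * 3 * C1 * ENNReal.ofReal (kr q ^ 16) * ∫⁻ x, ‖f x‖ₑ ^ 2 := by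
        have e2 : ENNReal.ofReal (kr q ^ 16) =
            ENNReal.ofReal (kr q ^ 2) * ENNReal.ofReal (kr q ^ 14) := by
          rw [← ENNReal.ofReal_mul (by positivity)]
          congr 1
          ring
        rw [e2, ENNReal.ofReal_mul (by positivity), ENNReal.ofReal_ofNat]
        ring
    _ ≤ C2 * 3 * C1 * ENNReal.ofReal (4 ^ 16 * Real.log (2 + M) ^ 16) * ∫⁻ x, ‖f x‖ₑ ^ 2 := by
        gcongr
        rw [← mul_pow]
        gcongr
        rw [hkr]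
        exact hlog
    _ = _ := by
        rw [ENNReal.ofReal_mul (by positivity), ENNReal.ofReal_pow (by norm_num),
          ENNReal.ofReal_ofNat]
        push_cast
        ring

end Pool.Agent.VRR
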