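import Pool.Agent.VRR.Targets2
import Pool.Agent.VRC.P_OFV

set_option autoImplicit false

/-!
# VRR, target OFV: far frequencies, `r`-variation
-/

namespace Pool.Agent.VRR

open MeasureTheory FourierTransform Set Filter Topology
open scoped ENNReal NNReal
open Pool.Agent.CAR (e1)
open Pool.Agent.CRR (Ph StripD FS FA fh NN HH NSol kap aa de la si ww xc band)
open Pool.Agent.VRC (NF)
open Pool.Agent.CRR.OFD_ (e1_norm e1_cont e1_deriv plancherel int_e1 fh_cont ms fh_deriv le_root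
  root_sq tsum_lint_le tsum_windows sup_window' enorm_sq NN_le)
open Pool.Agent.VRC.OFV_ (csm one many cl cl_mono cl_mem cl_Ioc setup)

namespace OFV_

/-- Hölder for sums -/
theorem hst (f g : ℤ → ℝ≥0∞) {p q : ℝ} (hp : 0 ≤ p) (hq : 0 ≤ q) (hpq : p + q = 1) :
    ∑' i, f i ^ p * g i ^ q ≤ (∑' i, f i) ^ p * (∑' i, g i) ^ q := by
  have h := ENNReal.lintegral_mul_norm_pow_le (μ := (Measure.count : Measure ℤ)) (f := f) (g := g)
    (measurable_of_countable f).aemeasurable (measurable_of_countable g).aemeasurable hp hq hpq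
  simpa only [lintegral_count] using h

/-- the variation in one window -/
theorem NV_le {r : ℝ} (hr2 : 2 < r) {Q Q1 h : ℝ → ℂ} {X w D : ℝ} (hw : 0 < w) (hD : 0 < D)
    (hd : ∀ y, HasDerivAt Q (Q1 y) y) (hh : Continuous h)
    (heq : ∀ y, 2 * Real.pi * Complex.I * X * Q y + Q1 y = h y) (i : ℤ) :
    NV r w h i X ^ 2 ≤ (4 * NN w h i X ^ 2) ^ (1 - 2 / r) *
      (∫⁻ v in Ioc ((i : ℝ) * w) (((i : ℝ) + 1) * w),
        (8 * ENNReal.ofReal D * ‖Q v‖ₑ ^ 2 + 4 * ENNReal.ofReal D⁻¹ * ‖h v‖ₑ ^ 2)) ^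
          (2 / r) := by
  set A : ℝ := (i : ℝ) * w with hA
  set B : ℝ := ((i : ℝ) + 1) * w with hB
  have hAB : A ≤ B := by
    rw [hA, hB]
    linarith
  set F : ℝ → ℂ := fun y => e1 (X * y) * Q y with hF
  set F1 : ℝ → ℂ := fun y => h y * e1 (X * y) with hF1
  have hFd : ∀ y, HasDerivAt F (F1 y) y := by
    intro y
    have h3 := (e1_deriv X y).mul (hd y)
    refine h3.congr_deriv ?_
    rw [hF1]
    simp only []
    rw [← heq y]
    ring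
  have hF1c : Continuous F1 := hh.mul (e1_cont.comp (continuous_const.mul continuous_id))
  have en : ∀ z : ℝ, ‖e1 z‖ₑ = 1 := fun z => by
    rw [← ofReal_norm, e1_norm, ENNReal.ofReal_one]
  have hFn : ∀ y, ‖F y‖ₑ = ‖Q y‖ₑ := fun y => by
    rw [hF]
    simp only []
    rw [enorm_mul, en, one_mul]
  have hF1n : ∀ y, ‖F1 y‖ₑ = ‖h y‖ₑ := fun y => by
    rw [hF1]
    simp only []
    rw [enorm_mul, en, mul_one]
  have hint : ∀ p q : ℝ, p ≤ q → ∫ v in Ioc p q, F1 v = F q - F p := by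
    intro p q hpq
    rw [← intervalIntegral.integral_of_le hpq]
    exact intervalIntegral.integral_eq_sub_of_hasDerivAt (fun y _ => hFd y)
      (hF1c.intervalIntegrable p q)
  have hNF : ∀ a b : ℝ, a ≤ b → NF w h i X a b = F (cl A B b) - F (cl A B a) := by
    intro a b hab
    unfold NF
    rw [← hA, ← hB, cl_Ioc]
    exact hint _ _ (cl_mono A B hab)
  have hNN : ∀ c ∈ Icc A B, ‖F c - F A‖ₑ ≤ NN w h i X := by
    intro c hc
    rw [← hint A c hc.1]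
    unfold NN
    refine le_trans (le_of_eq ?_) (le_iSup _ c)
    rw [← hA, ← hB, min_eq_left hc.2]
  have hdel : ∀ a b : ℝ, a ≤ b → ‖NF w h i X a b‖ₑ ≤ 2 * NN w h i X := by
    intro a b hab
    rw [hNF a b hab]
    have e : F (cl A B b) - F (cl A B a) = (F (cl A B b) - F A) - (F (cl A B a) - F A) := by ring
    rw [e, two_mul]
    exact (enorm_sub_le).trans (add_le_add (hNN _ (cl_mem hAB b)) (hNN _ (cl_mem hAB a)))
  set g : ℝ → ℝ≥0∞ := fun v => 8 * ENNReal.ofReal D * ‖Q v‖ₑ ^ 2 +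
    4 * ENNReal.ofReal D⁻¹ * ‖h v‖ₑ ^ 2 with hg
  set J : ℝ≥0∞ := ∫⁻ v in Ioc A B, g v with hJ
  have hsq : ∀ (L : ℕ) (N : ℕ → ℝ), Monotone N →
      ∑ j ∈ Finset.range L, ‖NF w h i X (N j) (N (j + 1))‖ₑ ^ 2 ≤ J := by
    intro L N hN
    have h1 : ∀ j ∈ Finset.range L, ‖NF w h i X (N j) (N (j + 1))‖ₑ ^ 2 ≤
        ∫⁻ v in Ioc (cl A B (N j)) (cl A B (N (j + 1))), g v := by
      intro j _
      rw [hNF _ _ (hN (Nat.le_succ j))]
      have h2 := one hFd hF1c hD (cl_mono A B (hN (Nat.le_succ j)))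
      simp only [hFn, hF1n] at h2
      exact h2
    refine (Finset.sum_le_sum h1).trans ?_
    rw [many g (c := fun j => cl A B (N j)) (fun x y hxy => cl_mono A B (hN hxy)) L]
    exact lintegral_mono_set (Ioc_subset_Ioc (cl_mem hAB _).1 (cl_mem hAB _).2)
  unfold NV Vo
  refine Pool.Agent.CRR.OFD_.iSup_sq_le _ _ fun L =>
    Pool.Agent.CRR.OFD_.iSup_sq_le _ _ fun N =>
    Pool.Agent.CRR.OFD_.iSup_sq_le _ _ fun hN => ?_
  have hr0 : 0 < r := by linarith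
  have h4 : ∑ j ∈ Finset.range L, ‖NF w h i X (N j) (N (j + 1))‖ₑ ^ r ≤
      (2 * NN w h i X) ^ (r - 2) * J := by
    calc ∑ j ∈ Finset.range L, ‖NF w h i X (N j) (N (j + 1))‖ₑ ^ r
        ≤ ∑ j ∈ Finset.range L, (2 * NN w h i X) ^ (r - 2) *
            ‖NF w h i X (N j) (N (j + 1))‖ₑ ^ 2 := by
          refine Finset.sum_le_sum fun j _ => ?_
          have e : ‖NF w h i X (N j) (N (j + 1))‖ₑ ^ r =
              ‖NF w h i X (N j) (N (j + 1))‖ₑ ^ (r - 2) *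
                ‖NF w h i X (N j) (N (j + 1))‖ₑ ^ 2 := by
            rw [← ENNReal.rpow_two, ← ENNReal.rpow_add_of_nonneg _ _ (by linarith) (by norm_num)]
            congr 1
            ring
          rw [e]
          exact mul_le_mul' (ENNReal.rpow_le_rpow (hdel _ _ (hN (Nat.le_succ j))) (by linarith))
            le_rfl
      _ = (2 * NN w h i X) ^ (r - 2) *
            ∑ j ∈ Finset.range L, ‖NF w h i X (N j) (N (j + 1))‖ₑ ^ 2 := by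
          rw [Finset.mul_sum]
      _ ≤ _ := mul_le_mul' le_rfl (hsq L N hN)
  calc ((∑ j ∈ Finset.range L, ‖NF w h i X (N j) (N (j + 1))‖ₑ ^ r) ^ (1 / r)) ^ 2
      = (∑ j ∈ Finset.range L, ‖NF w h i X (N j) (N (j + 1))‖ₑ ^ r) ^ (2 / r) := by
        rw [← ENNReal.rpow_two, ← ENNReal.rpow_mul]
        congr 1
        ring
    _ ≤ ((2 * NN w h i X) ^ (r - 2) * J) ^ (2 / r) := ENNReal.rpow_le_rpow h4 (by positivity)
    _ = (4 * NN w h i X ^ 2) ^ (1 - 2 / r) * J ^ (2 / r) := by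
        rw [ENNReal.mul_rpow_of_nonneg _ _ (by positivity), ← ENNReal.rpow_mul]
        congr 1
        have e : (4 * NN w h i X ^ 2 : ℝ≥0∞) = (2 * NN w h i X) ^ (2 : ℝ) := by
          rw [ENNReal.rpow_two]
          ring
        rw [e, ← ENNReal.rpow_mul]
        congr 1
        field_simp

/-- one frequency `X` -/
theorem key {r w D G X : ℝ} {H : ℝ → ℂ} (hr2 : 2 < r) (hw : 0 < w) (hD : 0 < D) (hG : 0 ≤ G)
    (hH : HH H) (hHX : ∀ s, H s ≠ 0 → D ≤ |s + X| ∧ |s| ≤ G * |s + X|) :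
    ∑' i : ℤ, NV r w (fh H) i X ^ 2 ≤
      32 * ENNReal.ofReal (((w * D ^ 2)⁻¹ + G * D⁻¹) ^ (1 - 2 / r) * (D⁻¹) ^ (2 / r)) *
        ∫⁻ s, ‖H s‖ₑ ^ 2 := by
  obtain ⟨K, hKi, hK1i, heq, hP1, hP2⟩ := setup hD hG hH hHX
  set N : ℝ≥0∞ := ∫⁻ s, ‖H s‖ₑ ^ 2 with hN
  set c : ℝ≥0∞ := ENNReal.ofReal ((w * D ^ 2)⁻¹ + G * D⁻¹) with hc
  have hr : ∀ x : ℝ≥0∞, (x ^ 2) ^ (1 / 2 : ℝ) = x := fun x => by
    rw [← ENNReal.rpow_natCast, ← ENNReal.rpow_mul]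
    norm_num
  -- the maximal function
  have hbound := fun i => NN_le hw (fh_deriv hKi hK1i) (fh_cont hK1i) (fh_cont hH.int) heq i
  have hsum : ∑' i : ℤ, NN w (fh H) i X ^ 2 ≤ 4 * (ENNReal.ofReal w⁻¹ *
      (∫⁻ x, ‖fh K x‖ₑ ^ 2) + 2 * ∫⁻ x, ‖fh K x‖ₑ * ‖fh (ms K) x‖ₑ) := by
    refine (ENNReal.tsum_le_tsum hbound).trans (le_of_eq ?_)
    rw [ENNReal.tsum_mul_left, ENNReal.tsum_add, ENNReal.tsum_mul_left, ENNReal.tsum_mul_left,
      tsum_windows w hw, tsum_windows w hw]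
  have hcs : ∫⁻ x, ‖fh K x‖ₑ * ‖fh (ms K) x‖ₑ ≤ ENNReal.ofReal (G * D⁻¹) * N := by
    refine (csm volume (fh_cont hKi).enorm.measurable.aemeasurable
      (fh_cont hK1i).enorm.measurable.aemeasurable).trans ?_
    have r1 := ENNReal.rpow_le_rpow hP1 (by norm_num : (0 : ℝ) ≤ 1 / 2)
    have r2 := ENNReal.rpow_le_rpow hP2 (by norm_num : (0 : ℝ) ≤ 1 / 2)
    refine (mul_le_mul' r1 r2).trans (le_of_eq ?_)
    rw [ENNReal.mul_rpow_of_nonneg _ _ (by norm_num), ENNReal.mul_rpow_of_nonneg _ _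
      (by norm_num), hr, hr, ENNReal.ofReal_mul hG]
    have hNN : N ^ (1 / 2 : ℝ) * N ^ (1 / 2 : ℝ) = N := by
      rw [← pow_two, root_sq]
    calc ENNReal.ofReal D⁻¹ * N ^ (1 / 2 : ℝ) * (ENNReal.ofReal G * N ^ (1 / 2 : ℝ))
        = ENNReal.ofReal G * ENNReal.ofReal D⁻¹ * (N ^ (1 / 2 : ℝ) * N ^ (1 / 2 : ℝ)) := by
          ring
      _ = _ := by rw [hNN]
  have hc' : c = ENNReal.ofReal w⁻¹ * ENNReal.ofReal D⁻¹ ^ 2 + ENNReal.ofReal (G * D⁻¹) := by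
    rw [hc, ENNReal.ofReal_add (by positivity) (by positivity), mul_inv,
      ENNReal.ofReal_mul (by positivity), ← ENNReal.ofReal_pow (by positivity), inv_pow]
  have hA : ∑' i : ℤ, 4 * NN w (fh H) i X ^ 2 ≤ 32 * c * N := by
    rw [ENNReal.tsum_mul_left]
    calc 4 * ∑' i : ℤ, NN w (fh H) i X ^ 2
        ≤ 4 * (4 * (ENNReal.ofReal w⁻¹ * (∫⁻ x, ‖fh K x‖ₑ ^ 2) +
            2 * ∫⁻ x, ‖fh K x‖ₑ * ‖fh (ms K) x‖ₑ)) := mul_le_mul' le_rfl hsum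
      _ ≤ 4 * (4 * (ENNReal.ofReal w⁻¹ * (ENNReal.ofReal D⁻¹ ^ 2 * N) +
            2 * (ENNReal.ofReal (G * D⁻¹) * N))) := by gcongr
      _ ≤ 4 * (4 * (2 * (ENNReal.ofReal w⁻¹ * (ENNReal.ofReal D⁻¹ ^ 2 * N)) +
            2 * (ENNReal.ofReal (G * D⁻¹) * N))) := by
          have h12 : ENNReal.ofReal w⁻¹ * (ENNReal.ofReal D⁻¹ ^ 2 * N) ≤
              2 * (ENNReal.ofReal w⁻¹ * (ENNReal.ofReal D⁻¹ ^ 2 * N)) := by
            rw [two_mul]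
            exact le_add_right le_rfl
          gcongr
      _ = 32 * c * N := by
          rw [hc']
          ring
  -- the square function
  set g : ℝ → ℝ≥0∞ := fun v => 8 * ENNReal.ofReal D * ‖fh K v‖ₑ ^ 2 +
    4 * ENNReal.ofReal D⁻¹ * ‖fh H v‖ₑ ^ 2 with hg
  have hH2 : MemLp H 2 :=
    (memLp_two_iff_integrable_sq_norm hH.meas.aestronglyMeasurable).mpr hH.sq
  have hDD : ENNReal.ofReal D * ENNReal.ofReal D⁻¹ ^ 2 = ENNReal.ofReal D⁻¹ := by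
    rw [pow_two, ← mul_assoc, ← ENNReal.ofReal_mul hD.le, mul_inv_cancel₀ hD.ne',
      ENNReal.ofReal_one, one_mul]
  have hB : ∑' i : ℤ, ∫⁻ v in Ioc ((i : ℝ) * w) (((i : ℝ) + 1) * w), g v ≤
      32 * ENNReal.ofReal D⁻¹ * N := by
    rw [tsum_windows w hw]
    have hm1 : Measurable fun v => ‖fh K v‖ₑ ^ 2 := ((fh_cont hKi).enorm.measurable).pow_const 2
    have hm2 : Measurable fun v => ‖fh H v‖ₑ ^ 2 :=
      ((fh_cont hH.int).enorm.measurable).pow_const 2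
    have e : ∫⁻ v, g v = 8 * ENNReal.ofReal D * (∫⁻ v, ‖fh K v‖ₑ ^ 2) +
        4 * ENNReal.ofReal D⁻¹ * ∫⁻ v, ‖fh H v‖ₑ ^ 2 := by
      rw [hg, lintegral_add_left (hm1.const_mul _), lintegral_const_mul _ hm1,
        lintegral_const_mul _ hm2]
    rw [e, plancherel hH.int hH2, ← hN]
    calc 8 * ENNReal.ofReal D * (∫⁻ v, ‖fh K v‖ₑ ^ 2) + 4 * ENNReal.ofReal D⁻¹ * N
        ≤ 8 * ENNReal.ofReal D * (ENNReal.ofReal D⁻¹ ^ 2 * N) +
          4 * ENNReal.ofReal D⁻¹ * N := by gcongr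
      _ = 8 * (ENNReal.ofReal D * ENNReal.ofReal D⁻¹ ^ 2) * N +
          4 * ENNReal.ofReal D⁻¹ * N := by ring
      _ = 12 * (ENNReal.ofReal D⁻¹ * N) := by
          rw [hDD]
          ring
      _ ≤ 32 * (ENNReal.ofReal D⁻¹ * N) := mul_le_mul' (by norm_num) le_rfl
      _ = _ := by ring
  -- together
  have hNV := fun i => NV_le (D := D) hr2 hw hD (fh_deriv hKi hK1i) (fh_cont hH.int) heq i
  have hr0 : 0 < r := by linarith
  have hp0 : 0 ≤ 1 - 2 / r := by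
    rw [sub_nonneg, div_le_one hr0]
    linarith
  have hq0 : 0 ≤ 2 / r := by positivity
  have hcpos : 0 ≤ (w * D ^ 2)⁻¹ + G * D⁻¹ := by positivity
  have hcD : c ^ (1 - 2 / r) * ENNReal.ofReal D⁻¹ ^ (2 / r) =
      ENNReal.ofReal (((w * D ^ 2)⁻¹ + G * D⁻¹) ^ (1 - 2 / r) * (D⁻¹) ^ (2 / r)) := by
    rw [hc, ENNReal.ofReal_mul (by positivity), ENNReal.ofReal_rpow_of_nonneg hcpos hp0,
      ENNReal.ofReal_rpow_of_nonneg (by positivity) hq0]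
  have h1 : ∀ x : ℝ≥0∞, x ^ (1 - 2 / r) * x ^ (2 / r) = x := fun x => by
    rw [← ENNReal.rpow_add_of_nonneg _ _ hp0 hq0]
    norm_num
  calc ∑' i : ℤ, NV r w (fh H) i X ^ 2
      ≤ ∑' i : ℤ, (4 * NN w (fh H) i X ^ 2) ^ (1 - 2 / r) *
          (∫⁻ v in Ioc ((i : ℝ) * w) (((i : ℝ) + 1) * w), g v) ^ (2 / r) :=
        ENNReal.tsum_le_tsum fun i => hNV i
    _ ≤ (∑' i : ℤ, 4 * NN w (fh H) i X ^ 2) ^ (1 - 2 / r) *
          (∑' i : ℤ, ∫⁻ v in Ioc ((i : ℝ) * w) (((i : ℝ) + 1) * w), g v) ^ (2 / r) :=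
        hst _ _ hp0 hq0 (by ring)
    _ ≤ (32 * c * N) ^ (1 - 2 / r) * (32 * ENNReal.ofReal D⁻¹ * N) ^ (2 / r) :=
        mul_le_mul' (ENNReal.rpow_le_rpow hA hp0) (ENNReal.rpow_le_rpow hB hq0)
    _ = ((32 : ℝ≥0∞) ^ (1 - 2 / r) * (32 : ℝ≥0∞) ^ (2 / r)) *
          (c ^ (1 - 2 / r) * ENNReal.ofReal D⁻¹ ^ (2 / r)) *
            (N ^ (1 - 2 / r) * N ^ (2 / r)) := by
        rw [ENNReal.mul_rpow_of_nonneg _ _ hp0, ENNReal.mul_rpow_of_nonneg _ _ hp0,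
          ENNReal.mul_rpow_of_nonneg _ _ hq0, ENNReal.mul_rpow_of_nonneg _ _ hq0]
        ring
    _ = _ := by rw [h1, h1, hcD]

end OFV_

open OFV_

theorem p_OFV (_h0 : T_REX) (_h1 : Pool.Agent.CRR.T_OFD) : T_OFV := by
  refine ⟨32, fun r hr2 _ w D G Om H hw hD hG hOm hH hX => ?_⟩
  calc ∑' i : ℤ, ∫⁻ X in Om, NV r w (fh H) i X ^ 2
      ≤ ∫⁻ X in Om, ∑' i : ℤ, NV r w (fh H) i X ^ 2 := tsum_lint_le _ _
    _ ≤ ∫⁻ _X in Om, 32 *
          ENNReal.ofReal (((w * D ^ 2)⁻¹ + G * D⁻¹) ^ (1 - 2 / r) * (D⁻¹) ^ (2 / r)) *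
          ∫⁻ s, ‖H s‖ₑ ^ 2 := setLIntegral_mono' hOm fun X hXO => key hr2 hw hD hG hH (hX X hXO)
    _ = 32 * ENNReal.ofReal (((w * D ^ 2)⁻¹ + G * D⁻¹) ^ (1 - 2 / r) * (D⁻¹) ^ (2 / r)) *
          (∫⁻ s, ‖H s‖ₑ ^ 2) * volume Om := by rw [setLIntegral_const]
    _ = _ := by
        push_cast
        ring

end Pool.Agent.VRR
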