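import Pool.Agent.VRR.Targets2
import Pool.Agent.VRC.P_PAV

set_option autoImplicit false

/-!
# VRR: PAV, sum over the bands
-/

namespace Pool.Agent.VRR

open MeasureTheory FourierTransform Set Filter Topology
open scoped ENNReal NNReal
open Pool.Agent.CAR (e1)
open Pool.Agent.CRR (Ph StripD FS FA fh NN HH NSol kap aa de la si ww xc band)

namespace PAV_

open Pool.Agent.CRR.PART_

theorem V_meas (h4 : T_VCM) {r : ℝ} (hr2 : 2 < r) (hr4 : r ≤ 4) {κ h : ℝ → ℂ}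
    (hκ : Continuous κ) (hh : Continuous h) {B : ℝ}
    (hB : ∀ v, ‖h v‖ ≤ B) (a d : ℝ) : Measurable (fun u => Vo r (FS κ a d h u)) :=
  (h4 r hr2 hr4).1 ℝ (fun u => FS κ a d h u)
    (fun V1 V2 => (FS_cont hκ hh hB a d V1 V2).measurable)
    (fun u => Pool.Agent.VRC.PAV_.FS_cont2 hκ hh hB a d u)

/-- the geometric sum -/
theorem geoK (h0 : T_REX) {r : ℝ} (hr2 : 2 < r) (hr4 : r ≤ 4) :
    2 * ∑' n : ℕ, ENNReal.ofReal (((9 / 10 : ℝ) ^ ((1 - 2 / r) / 2)) ^ n) ≤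
      ENNReal.ofReal (40 * kr r) := by
  obtain ⟨-, -, -, -, -, -, -, -, hK, -, hx0, -, -, -, hs⟩ := h0 r hr2 hr4
  set s : ℝ := (9 / 10 : ℝ) ^ ((1 - 2 / r) / 2) with hsd
  have hs0 : 0 ≤ s := by positivity
  have hK0 : 0 < kr r := by linarith
  have h1 : 0 < 1 / (20 * kr r) := by positivity
  have hs1 : s < 1 := by linarith
  rw [← ENNReal.ofReal_tsum_of_nonneg (fun n => pow_nonneg hs0 n)
    (summable_geometric_of_lt_one hs0 hs1), tsum_geometric_of_lt_one hs0 hs1]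
  have h2 : (1 - s)⁻¹ ≤ 20 * kr r := by
    rw [inv_le_comm₀ (by linarith) (by positivity)]
    rw [one_div] at hs
    exact hs
  have h3 : (2 : ℝ≥0∞) = ENNReal.ofReal 2 := by simp
  rw [h3, ← ENNReal.ofReal_mul (by norm_num)]
  exact ENNReal.ofReal_le_ofReal (by linarith)

theorem pow4 (r : ℝ) (n : ℕ) : ((9 / 10 : ℝ) ^ n) ^ (1 - 2 / r) =
    ((((9 / 10 : ℝ) ^ ((1 - 2 / r) / 4)) ^ 4)) ^ n := by
  have h1 : (((9 / 10 : ℝ) ^ ((1 - 2 / r) / 4)) ^ 4) = (9 / 10 : ℝ) ^ (1 - 2 / r) := by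
    rw [← Real.rpow_natCast, ← Real.rpow_mul (by norm_num)]
    congr 1
    push_cast
    ring
  rw [h1, ← Real.rpow_natCast, ← Real.rpow_natCast, ← Real.rpow_mul (by norm_num),
    ← Real.rpow_mul (by norm_num), mul_comm]

theorem pow2 (r : ℝ) : ((9 / 10 : ℝ) ^ ((1 - 2 / r) / 4)) ^ 2 =
    (9 / 10 : ℝ) ^ ((1 - 2 / r) / 2) := by
  rw [← Real.rpow_natCast, ← Real.rpow_mul (by norm_num)]
  congr 1
  push_cast
  ring

end PAV_

open Pool.Agent.CRR.PART_ in
/-- **PAV**: the partial strips. -/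
theorem p_PAV (h0 : T_REX) (h1 : Pool.Agent.CRR.T_SEQ) (h2 : T_SDV) (h3 : T_VCO) (h4 : T_VCM) :
    T_PAV := by
  obtain ⟨C, hC⟩ := h2
  refine ⟨1600 * C, ?_⟩
  intro r hr2 hr4 ν J J' H hν hJ hH
  have hκ := kap_cont hJ.sol
  obtain ⟨-, -, -, -, -, -, -, -, hK, -⟩ := h0 r hr2 hr4
  have hK0 : 0 < kr r := by linarith
  set t : ℝ := (9 / 10 : ℝ) ^ ((1 - 2 / r) / 4) with ht
  have ht0 : 0 < t := by positivity
  have hg : 2 * ∑' n : ℕ, ENNReal.ofReal ((t ^ 2) ^ n) ≤ ENNReal.ofReal (40 * kr r) := by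
    rw [ht, PAV_.pow2]
    exact PAV_.geoK h0 hr2 hr4
  set K1 : ℝ≥0∞ := 2 * ∑' n : ℕ, ENNReal.ofReal ((t ^ 2) ^ n) with hK1
  set A : ℕ → ℕ → ℝ → ℝ≥0∞ := fun k j u =>
    Vo r (FS (kap J) (aa ν k) (de ν k) (fh (Hj ν H j)) u) with hA
  have hAm : ∀ k j, Measurable (A k j) := fun k j =>
    PAV_.V_meas h4 hr2 hr4 hκ (fh_cont (Hj_HH hH j)) (fh_bd _) _ _
  have hAC : ∀ k j, ∫⁻ u, A k j u ^ 2 ≤
      C * ENNReal.ofReal (kr r ^ 12 * (t ^ 4) ^ D k j) * ∫⁻ s, ‖Hj ν H j s‖ₑ ^ 2 := by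
    intro k j
    have h5 := hC r hr2 hr4 ν J J' k j (Hj ν H j) hν hJ (Hj_HH hH j) (by
      intro s hs
      by_contra hcon
      exact hs (indicator_of_notMem hcon _))
    rw [PAV_.pow4] at h5
    exact h5
  have hSle : ∀ k u, Vo r (FS (kap J) (aa ν k) (de ν k) (fh H) u) ≤ ∑' j, A k j u := by
    intro k u
    refine (h3 r hr2 hr4).1 _ (fun j => FS (kap J) (aa ν k) (de ν k) (fh (Hj ν H j)) u) ?_
    intro V1 V2 _
    exact FS_sum h1 hν hH hκ _ _ u V1 V2
  have hw : ∀ k j, ENNReal.ofReal (t ^ D k j) * ENNReal.ofReal (t⁻¹ ^ D k j) = 1 := by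
    intro k j
    rw [← ENNReal.ofReal_mul (by positivity), ← mul_pow, mul_inv_cancel₀ ht0.ne', one_pow,
      ENNReal.ofReal_one]
  have hS2 : ∀ k u, Vo r (FS (kap J) (aa ν k) (de ν k) (fh H) u) ^ 2 ≤
      K1 * ∑' j, ENNReal.ofReal ((t⁻¹ ^ 2) ^ D k j) * A k j u ^ 2 := by
    intro k u
    calc Vo r (FS (kap J) (aa ν k) (de ν k) (fh H) u) ^ 2
        ≤ (∑' j, A k j u) ^ 2 := by gcongr; exact hSle k u
      _ = (∑' j, ENNReal.ofReal (t ^ D k j) *
            (ENNReal.ofReal (t⁻¹ ^ D k j) * A k j u)) ^ 2 := by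
          congr 2
          funext j
          rw [← mul_assoc, hw, one_mul]
      _ ≤ _ := cs _ _
      _ ≤ _ := by
          gcongr ?_ * ?_
          · have := sumD (fun n => ENNReal.ofReal ((t ^ 2) ^ n)) k
            refine le_trans (le_of_eq ?_) this
            congr 1
            funext j
            rw [← ENNReal.ofReal_pow (by positivity), ← pow_mul, ← pow_mul, mul_comm]
          · apply le_of_eq
            congr 1
            funext j
            rw [mul_pow, ← ENNReal.ofReal_pow (by positivity), ← pow_mul, ← pow_mul,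
              mul_comm (D k j) 2]
  have hx : t⁻¹ ^ 2 * t ^ 4 = t ^ 2 := by
    field_simp
  calc ∫⁻ u, ∑' k : ℕ, Vo r (FS (kap J) (aa ν k) (de ν k) (fh H) u) ^ 2
      ≤ ∫⁻ u, ∑' k : ℕ, K1 * ∑' j, ENNReal.ofReal ((t⁻¹ ^ 2) ^ D k j) * A k j u ^ 2 :=
        lintegral_mono fun u => ENNReal.tsum_le_tsum fun k => hS2 k u
    _ = ∑' k : ℕ, K1 * ∑' j, ENNReal.ofReal ((t⁻¹ ^ 2) ^ D k j) * ∫⁻ u, A k j u ^ 2 := by
        rw [lintegral_tsum]
        · congr 1
          funext k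
          rw [lintegral_const_mul _ (Measurable.tsum fun j =>
            ((hAm k j).pow_const 2).const_mul _), lintegral_tsum]
          · congr 2
            funext j
            rw [lintegral_const_mul _ ((hAm k j).pow_const 2)]
          · exact fun j => (((hAm k j).pow_const 2).const_mul _).aemeasurable
        · exact fun k => ((Measurable.tsum fun j =>
            ((hAm k j).pow_const 2).const_mul _).const_mul _).aemeasurable
    _ ≤ ∑' k : ℕ, K1 * ∑' j, ENNReal.ofReal ((t⁻¹ ^ 2) ^ D k j) *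
          (C * ENNReal.ofReal (kr r ^ 12 * (t ^ 4) ^ D k j) * ∫⁻ s, ‖Hj ν H j s‖ₑ ^ 2) := by
        gcongr with k j
        exact hAC k j
    _ = K1 * C * ENNReal.ofReal (kr r ^ 12) * ∑' j, (∫⁻ s, ‖Hj ν H j s‖ₑ ^ 2) *
          ∑' k, ENNReal.ofReal ((t ^ 2) ^ D j k) := by
        simp_rw [← ENNReal.tsum_mul_left]
        rw [ENNReal.tsum_comm]
        congr 1
        funext j
        congr 1
        funext k
        rw [D_comm j k, ENNReal.ofReal_mul (by positivity), ← hx, mul_pow,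
          ENNReal.ofReal_mul (by positivity)]
        ring
    _ ≤ K1 * C * ENNReal.ofReal (kr r ^ 12) * ∑' j, (∫⁻ s, ‖Hj ν H j s‖ₑ ^ 2) * K1 := by
        gcongr with j
        exact sumD (fun n => ENNReal.ofReal ((t ^ 2) ^ n)) j
    _ = K1 * K1 * (C * ENNReal.ofReal (kr r ^ 12)) * ∫⁻ s, ‖H s‖ₑ ^ 2 := by
        rw [ENNReal.tsum_mul_right, n2_sum h1 hν]
        ring
    _ ≤ ENNReal.ofReal (40 * kr r) * ENNReal.ofReal (40 * kr r) *
          (C * ENNReal.ofReal (kr r ^ 12)) * ∫⁻ s, ‖H s‖ₑ ^ 2 := by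
        gcongr
    _ = ((1600 * C : ℝ≥0) : ℝ≥0∞) * ENNReal.ofReal (kr r ^ 14) * ∫⁻ s, ‖H s‖ₑ ^ 2 := by
        congr 1
        have e1 : ENNReal.ofReal (40 * kr r) * ENNReal.ofReal (40 * kr r) *
            ENNReal.ofReal (kr r ^ 12) = ENNReal.ofReal 1600 * ENNReal.ofReal (kr r ^ 14) := by
          rw [← ENNReal.ofReal_mul (by positivity), ← ENNReal.ofReal_mul (by positivity),
            ← ENNReal.ofReal_mul (by norm_num)]
          congr 1
          ring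
        have e2 : ENNReal.ofReal 1600 = 1600 := by
          have := ENNReal.ofReal_natCast 1600
          exact_mod_cast this
        rw [ENNReal.coe_mul, ← mul_assoc, mul_right_comm, e1, e2]
        push_cast
        ring

end Pool.Agent.VRR
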