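import Pool.Agent.VRR.Targets
import Pool.Agent.VRC.P_VPLU

set_option autoImplicit false

/-!
# VRR, target PLU: (+)-trees
-/

namespace Pool.Agent.VRR

open MeasureTheory Set ComplexConjugate Filter Topology
open scoped ENNReal NNReal
open Pool.Agent.CAR
open Pool.Agent.VRC (PQ Act vc vav GG2 NJ da ps Gm bp Yk)

namespace PLU_

open Pool.Agent.VRC.VPLU_ (UU)

/-- the `ℓ^r` norm is at most the `ℓ¹` norm -/
theorem lr_le {r : ℝ} (hr : 1 ≤ r) {ι : Type*} (J : Finset ι) (g : ι → ℝ≥0∞) :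
    (∑ j ∈ J, g j ^ r) ^ (1 / r) ≤ ∑ j ∈ J, g j := by
  have hr0 : 0 ≤ r - 1 := by linarith
  have hx : ∀ x : ℝ≥0∞, x ^ r = x ^ (r - 1) * x := by
    intro x
    conv_lhs => rw [show r = (r - 1) + 1 by ring]
    rw [ENNReal.rpow_add_of_nonneg _ _ hr0 (by norm_num), ENNReal.rpow_one]
  have h1 : ∑ j ∈ J, g j ^ r ≤ (∑ j ∈ J, g j) ^ r := by
    calc ∑ j ∈ J, g j ^ r ≤ ∑ j ∈ J, (∑ i ∈ J, g i) ^ (r - 1) * g j := by
          refine Finset.sum_le_sum fun j hj => ?_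
          have h2 : g j ≤ ∑ i ∈ J, g i := Finset.single_le_sum (fun _ _ => bot_le) hj
          rw [hx (g j)]
          exact mul_le_mul' (ENNReal.rpow_le_rpow h2 hr0) le_rfl
      _ = (∑ i ∈ J, g i) ^ (r - 1) * ∑ j ∈ J, g j := by rw [Finset.mul_sum]
      _ = (∑ j ∈ J, g j) ^ r := (hx _).symm
  calc (∑ j ∈ J, g j ^ r) ^ (1 / r) ≤ ((∑ j ∈ J, g j) ^ r) ^ (1 / r) :=
        ENNReal.rpow_le_rpow h1 (by positivity)
    _ = ∑ j ∈ J, g j := by
        rw [one_div, ENNReal.rpow_rpow_inv (by linarith)]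

/-- the `r`-variation of a choice of intervals -/
theorem le_Vz {r : ℝ} {z : ℤ → ℂ} {m M : ℤ} {J : Finset ℕ} {α β : ℕ → ℤ}
    (h1 : ∀ j ∈ J, m ≤ α j ∧ α j < β j ∧ β j ≤ M)
    (h2 : ∀ i ∈ J, ∀ j ∈ J, i ≠ j → β i ≤ α j ∨ β j ≤ α i) :
    (∑ j ∈ J, ‖z (β j) - z (α j)‖ₑ ^ r) ^ (1 / r) ≤ Vz r z m M := by
  classical
  have hinj : Set.InjOn (fun j => (α j, β j)) (J : Set ℕ) := by
    intro i hi j hj hij
    by_contra hne
    have h3 := h2 i hi j hj hne
    simp only [Prod.mk.injEq] at hij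
    have h4 := h1 i hi
    have h5 := h1 j hj
    omega
  have e : ∑ j ∈ J, ‖z (β j) - z (α j)‖ₑ ^ r =
      ∑ c ∈ J.image (fun j => (α j, β j)), ‖z c.2 - z c.1‖ₑ ^ r := by
    rw [Finset.sum_image hinj]
  rw [e]
  unfold Vz
  refine le_iSup₂_of_le (J.image (fun j => (α j, β j))) ⟨?_, ?_⟩ le_rfl
  · intro c hc
    obtain ⟨j, hj, rfl⟩ := Finset.mem_image.1 hc
    obtain ⟨h3, h4, h5⟩ := h1 j hj
    exact ⟨h3, h4.le, h5⟩
  · intro c hc d hd hcd
    obtain ⟨i, hi, rfl⟩ := Finset.mem_image.1 hc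
    obtain ⟨j, hj, rfl⟩ := Finset.mem_image.1 hd
    exact h2 i hi j hj (fun h => hcd (by rw [h]))

/-- the pointwise bound of the large part -/
theorem large_pt {r : ℝ} (hr : 2 < r) (hcr : (rc r).HolderConjugate r) (hir : 1 / rc r = 1 - 1 / r)
    (hrc0 : 0 < rc r)
    {C eps : ℝ} {L : ℕ} {p q : ℕ → ℝ → ℝ} {a : ℕ → ℝ → ℂ} {φ : ℝ → ℂ}
    {T : Finset Tile} {ξ : ℝ} (hT : ∀ s ∈ T, ξ ∈ s.up)
    (hA : ∀ (s : Tile) (i j : ℕ) (x : ℝ), i < L → j < L → x ∈ Act p q s i → x ∈ Act p q s j →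
      i = j)
    (hV : ∀ s ∈ T, ∀ t ∈ T, ∀ r ∈ T, s.k ≤ r.k → r.k ≤ t.k → ∀ (j : ℕ) (x : ℝ),
      x ∈ Act p q s j → x ∈ Act p q t j → x ∈ Act p q r j)
    (hC : 0 ≤ C) (heps : 0 ≤ eps)
    (hO : ∀ s ∈ T, ∀ x y : ℝ, |x - y| ≤ (2 : ℝ) ^ s.k →
      ‖fx φ s x * e1 (-(x * ξ)) - fx φ s y * e1 (-(y * ξ))‖ ≤
        C * Pool.Agent.CAR.hs s * ((2 : ℝ) ^ (-s.k) * |x - y|) * wt 10 (s.u x))
    {w : Tile → ℂ} (hw : ∀ s ∈ T, ‖w s‖ ≤ eps * √((2 : ℝ) ^ s.k)) {κ m M : ℤ}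
    (hm : ∀ s ∈ T, m ≤ s.k) (hM : ∀ s ∈ T, s.k + 1 ≤ M) {x y : ℝ}
    (hxy : |x - y| ≤ (2 : ℝ) ^ κ) {U : Set ℝ} (hU : ∀ s ∈ T, κ + 2 ≤ s.k → s.up ⊆ U) :
    ‖∑ s ∈ T, if κ + 2 ≤ s.k then w s * fx φ s y * vc L p q a s y else 0‖ₑ ≤
      ENNReal.ofReal (vm r L p a U y) ^ (1 - 1 / r) *
        (Vz r (fun b => ps φ T w ξ b x) m M + ENNReal.ofReal (16 * C * eps)) := by
  classical
  have hr0 : 0 < r := by linarith
  obtain ⟨J, α, β, hJL, h1, h2, h3, h4⟩ :=
    Pool.Agent.VRC.VPLU_.struct (φ := φ) (ξ := ξ) (a := a) hA hV w (κ + 2) M hM y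
  rw [h4, enorm_mul]
  have e1n : ‖e1 (y * ξ)‖ₑ = 1 := by
    rw [← ofReal_norm, PK.norm_e1, ENNReal.ofReal_one]
  rw [e1n, one_mul]
  set z : ℝ → ℤ → ℂ := fun x b => ps φ T w ξ b x with hz
  have hH : ‖∑ j ∈ J, a j y * (z y (α j) - z y (β j))‖ₑ ≤
      (∑ j ∈ J, ‖a j y‖ₑ ^ rc r) ^ (1 - 1 / r) *
        (∑ j ∈ J, ‖z y (β j) - z y (α j)‖ₑ ^ r) ^ (1 / r) := by
    have h5 := ENNReal.inner_le_Lp_mul_Lq J (fun j => ‖a j y‖ₑ)
      (fun j => ‖z y (β j) - z y (α j)‖ₑ) hcr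
    rw [hir] at h5
    refine (enorm_sum_le _ _).trans ?_
    refine le_trans (le_of_eq (Finset.sum_congr rfl fun j _ => ?_)) h5
    rw [enorm_mul, ← enorm_neg (z y (α j) - z y (β j)), neg_sub]
  have hθ : 0 ≤ 1 - 1 / r := by rw [← hir]; positivity
  refine hH.trans (mul_le_mul' ?_ ?_)
  · refine ENNReal.rpow_le_rpow ?_ hθ
    have e2 : ∀ j, ‖a j y‖ₑ ^ rc r = ENNReal.ofReal (‖a j y‖ ^ rc r) := by
      intro j
      rw [← ofReal_norm, ENNReal.ofReal_rpow_of_nonneg (norm_nonneg _) hrc0.le]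
    rw [Finset.sum_congr rfl fun j _ => e2 j, ← ENNReal.ofReal_sum_of_nonneg
      (fun j _ => by positivity)]
    refine ENNReal.ofReal_le_ofReal ?_
    unfold vm
    calc ∑ j ∈ J, ‖a j y‖ ^ rc r
        = ∑ j ∈ J, (p j ⁻¹' U).indicator (fun y => ‖a j y‖ ^ rc r) y := by
          refine Finset.sum_congr rfl fun j hj => ?_
          obtain ⟨s, hs, hk, hp⟩ := h3 j hj
          rw [indicator_of_mem]
          exact hU s hs hk hp
      _ ≤ _ := by
          refine Finset.sum_le_sum_of_subset_of_nonneg hJL fun j _ _ => ?_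
          exact indicator_nonneg (fun _ _ => by positivity) _
  · set g : ℕ → ℝ≥0∞ := fun j => ‖z x (β j) - z x (α j)‖ₑ with hg
    set D : ℕ → ℝ≥0∞ := fun j => ENNReal.ofReal (32 * C * eps * (2 : ℝ) ^ (κ - α j)) with hD
    have h6 : ∀ j ∈ J, ‖z y (β j) - z y (α j)‖ₑ ≤ g j + D j := by
      intro j hj
      obtain ⟨h7, -, h8, -⟩ := h1 j hj
      have h9 := Pool.Agent.VRC.VPLU_.ps_sub (φ := φ) hT hC heps hO hw (a := κ) (b := α j)
        (by omega) hxy
      have h10 := Pool.Agent.VRC.VPLU_.ps_sub (φ := φ) hT hC heps hO hw (a := κ) (b := β j)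
        (by omega) hxy
      have h11 : (2 : ℝ) ^ (κ - β j) ≤ (2 : ℝ) ^ (κ - α j) := two_zpow_le (by omega)
      have h12 : ‖(z y (β j) - z x (β j)) - (z y (α j) - z x (α j))‖ ≤
          32 * C * eps * (2 : ℝ) ^ (κ - α j) := by
        refine (norm_sub_le _ _).trans ?_
        have h13 : 16 * C * eps * (2 : ℝ) ^ (κ - β j) ≤ 16 * C * eps * (2 : ℝ) ^ (κ - α j) :=
          mul_le_mul_of_nonneg_left h11 (by positivity)
        have h14 : ‖z y (β j) - z x (β j)‖ ≤ 16 * C * eps * (2 : ℝ) ^ (κ - β j) := h10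
        have h15 : ‖z y (α j) - z x (α j)‖ ≤ 16 * C * eps * (2 : ℝ) ^ (κ - α j) := h9
        linarith
      have e3 : z y (β j) - z y (α j) = (z x (β j) - z x (α j)) +
          ((z y (β j) - z x (β j)) - (z y (α j) - z x (α j))) := by ring
      rw [e3]
      refine (enorm_add_le _ _).trans (add_le_add le_rfl ?_)
      rw [← ofReal_norm]
      exact ENNReal.ofReal_le_ofReal h12
    have h7 : (∑ j ∈ J, ‖z y (β j) - z y (α j)‖ₑ ^ r) ^ (1 / r) ≤
        (∑ j ∈ J, (g j + D j) ^ r) ^ (1 / r) := by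
      refine ENNReal.rpow_le_rpow (Finset.sum_le_sum fun j hj => ?_) (by positivity)
      exact ENNReal.rpow_le_rpow (h6 j hj) hr0.le
    have h8 := ENNReal.Lp_add_le J g D (p := r) (by linarith)
    refine h7.trans (h8.trans (add_le_add ?_ ?_))
    · exact le_Vz (z := z x) (fun j hj => by
        obtain ⟨-, ⟨s, hs, hs'⟩, h9, h10⟩ := h1 j hj
        exact ⟨hs' ▸ hm s hs, h9, h10⟩) h2
    · refine (lr_le (by linarith) J D).trans ?_
      rw [hD, ← ENNReal.ofReal_sum_of_nonneg (fun j _ => by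
        have := two_zpow_pos (κ - α j)
        positivity)]
      refine ENNReal.ofReal_le_ofReal ?_
      rw [← Finset.mul_sum]
      have hinj : Set.InjOn α (J : Set ℕ) := by
        intro i hi j hj hij
        by_contra hne
        have h3 := h2 i hi j hj hne
        have h4 := h1 i hi
        have h5 := h1 j hj
        omega
      have h9 : ∑ j ∈ J, (2 : ℝ) ^ (κ - α j) ≤ 1 / 2 := by
        have e4 : ∑ j ∈ J, (2 : ℝ) ^ (κ - α j) =
            (2 : ℝ) ^ κ * ∑ i ∈ J.image α, (2 : ℝ) ^ (-i) := by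
          rw [Finset.sum_image hinj, Finset.mul_sum]
          refine Finset.sum_congr rfl fun j _ => ?_
          rw [sub_eq_add_neg, zpow_add₀ (by norm_num)]
        rw [e4]
        have h10 := Pool.Agent.VRC.VPLU_.geo (J.image α) (κ + 2) (by
          intro i hi
          obtain ⟨j, hj, rfl⟩ := Finset.mem_image.1 hi
          exact (h1 j hj).1)
        calc (2 : ℝ) ^ κ * ∑ i ∈ J.image α, (2 : ℝ) ^ (-i)
            ≤ (2 : ℝ) ^ κ * (2 * (2 : ℝ) ^ (-(κ + 2))) :=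
              mul_le_mul_of_nonneg_left h10 (two_zpow_pos _).le
          _ = 2 * (2 : ℝ) ^ (κ + -(κ + 2)) := by
              rw [zpow_add₀ (by norm_num : (2 : ℝ) ≠ 0) κ (-(κ + 2))]
              ring
          _ = 1 / 2 := by
              rw [show κ + -(κ + 2) = -2 by ring]
              norm_num
      calc 32 * C * eps * ∑ j ∈ J, (2 : ℝ) ^ (κ - α j) ≤ 32 * C * eps * (1 / 2) :=
            mul_le_mul_of_nonneg_left h9 (by positivity)
        _ = 16 * C * eps := by ring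

theorem measurable_Vz {r : ℝ} {z : ℝ → ℤ → ℂ} (hz : ∀ b, Measurable fun x => z x b) (m M : ℤ) :
    Measurable fun x => Vz r (z x) m M := by
  unfold Vz
  refine Measurable.iSup fun P => ?_
  refine Measurable.iSup_Prop _ ?_
  refine Measurable.pow_const ?_ _
  refine Finset.measurable_fun_sum _ fun c _ => ?_
  exact (((hz c.2).sub (hz c.1)).enorm).pow_const _

theorem measurable_w {r : ℝ} {L : ℕ} {p : ℕ → ℝ → ℝ} {a : ℕ → ℝ → ℂ}
    (hp : ∀ j, Measurable (p j))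
    (ha : ∀ j, Measurable (a j)) {κ : ℝ → ℤ} (hκ : Measurable κ) (T : Finset Tile) :
    Measurable fun y => ENNReal.ofReal (vm r L p a (UU T (κ y)) y) := by
  refine Measurable.ennreal_ofReal ?_
  unfold vm
  refine Finset.measurable_fun_sum _ fun j _ => ?_
  have hs : MeasurableSet {y | p j y ∈ UU T (κ y)} := by
    have : {y | p j y ∈ UU T (κ y)} = ⋃ s ∈ T, {y | κ y + 2 ≤ s.k ∧ p j y ∈ s.om} := by
      ext y
      simp only [UU, mem_ofPred_eq, mem_iUnion, exists_prop]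
    rw [this]
    refine Finset.measurableSet_biUnion T fun s _ => ?_
    have h1 : MeasurableSet {y | κ y + 2 ≤ s.k} :=
      measurableSet_le (hκ.add_const 2) measurable_const
    exact h1.inter (hp j (measurableSet_dy _ _))
  have e : (fun y => (p j ⁻¹' UU T (κ y)).indicator (fun y => ‖a j y‖ ^ rc r) y) =
      {y | p j y ∈ UU T (κ y)}.indicator (fun y => ‖a j y‖ ^ rc r) := by
    funext y
    by_cases h : p j y ∈ UU T (κ y)
    · rw [indicator_of_mem (show y ∈ p j ⁻¹' UU T (κ y) from h), indicator_of_mem (by exact h)]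
    · rw [indicator_of_notMem (show y ∉ p j ⁻¹' UU T (κ y) from h),
        indicator_of_notMem (by exact h)]
  rw [e]
  exact ((ha j).norm.pow_const _).indicator hs

/-- a power with exponent in `[0,1]` -/
theorem rpow_le {x t : ℝ} (hx : 0 < x) (ht : 0 ≤ t) (ht1 : t ≤ 1) : x ^ t ≤ 1 + x := by
  rcases le_total x 1 with h | h
  · have := Real.rpow_le_one hx.le h ht
    linarith
  · have := Real.rpow_le_rpow_of_exponent_le h ht1
    rw [Real.rpow_one] at this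
    linarith

end PLU_

open PLU_ in
theorem p_PLU (h0 : T_REX) (h1 : T_BAS) (h2 : Pool.Agent.VRC.T_VTR) (h3 : T_P2) (h4 : T_AVG)
    (h5 : T_SMA) (h6 : T_SPL) (h7 : T_V4) : T_PLU := by
  classical
  intro A
  obtain ⟨C3, hC3, hP2⟩ := h3
  obtain ⟨C4, hC4, hSMA⟩ := h5 A
  obtain ⟨C5, hC5, hSMB⟩ := p_SMB
  obtain ⟨C7, hV4⟩ := h7 A
  obtain ⟨C8, hC8, hOSC⟩ := p_OSC p_CHI2 A
  refine ⟨C4 * C5 + (1 + C3) * (C7 * √3 + 48 * C8), by positivity, ?_⟩
  intro r hr hr4 φ Φ hW L p q a E hPQ hAB c T K Λ ξ eps mu hc hT heps hmu hEn hMs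
  obtain ⟨g1, g2, g3, g4, g5, g6, g7, g8, g9, g10, g11, g12, g13, g14, g15⟩ := h0 r hr hr4
  have hK := two_zpow_pos K
  have hkr : 0 < kr r := by linarith
  have hmu34 : 0 ≤ mu ^ (1 - 1 / r) := Real.rpow_nonneg hmu _
  rcases T.eq_empty_or_nonempty with rfl | hne
  · rw [Finset.sum_empty]
    positivity
  obtain ⟨κ, hκ⟩ := p_STOP T hne
  obtain ⟨ε, hε, hle⟩ := h6 r hr hr4 A φ Φ hW L p q a E hPQ hAB c T κ (fun s _ => hc s) hκ.meas
  have hTr : Tree T K Λ ξ := fun s hs => ⟨(hT s hs).1, up_sub s (hT s hs).2⟩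
  have hsing : ∀ s ∈ T, c s ≤ eps * √((2 : ℝ) ^ s.k) :=
    fun s hs => Pool.Agent.CAR.PLU_.single heps hEn hs
  have hw : ∀ s, ‖ε s * ((c s : ℝ) : ℂ)‖ = c s := by
    intro s
    rw [norm_mul, hε s, one_mul, Complex.norm_real, Real.norm_of_nonneg (hc s)]
  have hsmall : ∑ s ∈ T, c s *
      ∫ x in {x | s.k ≤ κ x + 1}, ‖vc L p q a s x‖ * ‖fx φ s x‖ ≤
      C4 * C5 * (eps * mu ^ (1 - 1 / r) * 2 ^ K) := by
    calc ∑ s ∈ T, c s * ∫ x in {x | s.k ≤ κ x + 1}, ‖vc L p q a s x‖ * ‖fx φ s x‖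
        ≤ ∑ s ∈ T, eps * (C4 * mu ^ (1 - 1 / r) * ∫ x in {x | s.k ≤ κ x + 1}, wt 10 (s.u x)) := by
          refine Finset.sum_le_sum fun s hs => ?_
          refine le_trans (mul_le_mul_of_nonneg_right (hsing s hs)
            (integral_nonneg fun x => by positivity)) ?_
          rw [mul_assoc]
          exact mul_le_mul_of_nonneg_left
            (hSMA r hr hr4 φ Φ hW L p q a E hPQ hAB T κ mu hκ hMs hmu s hs) heps
      _ = eps * (C4 * mu ^ (1 - 1 / r)) * ∑ s ∈ T, ∫ x in {x | s.k ≤ κ x + 1}, wt 10 (s.u x) := by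
          rw [Finset.mul_sum]
          exact Finset.sum_congr rfl fun s _ => by ring
      _ ≤ eps * (C4 * mu ^ (1 - 1 / r)) * (C5 * 2 ^ K) :=
          mul_le_mul_of_nonneg_left (hSMB T K Λ ξ κ hTr hκ) (by positivity)
      _ = _ := by ring
  obtain ⟨b1, b2, b3, b4, b5, b6, b7⟩ := h1 r hr hr4 L p q a 1 E hPQ hAB
  have hVT := (h2 L p q hPQ T K Λ ξ).2 hT
  obtain ⟨m, hm⟩ : ∃ m : ℤ, ∀ s ∈ T, m ≤ s.k := by
    obtain ⟨s, hs, hs'⟩ := Finset.exists_min_image T (fun s => s.k) hne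
    exact ⟨s.k, hs'⟩
  obtain ⟨M, hM⟩ : ∃ M : ℤ, ∀ s ∈ T, s.k + 1 ≤ M := by
    obtain ⟨s, hs, hs'⟩ := Finset.exists_max_image T (fun s => s.k) hne
    exact ⟨s.k + 1, fun t ht => by have := hs' t ht; omega⟩
  set w : Tile → ℂ := fun s => ε s * ((c s : ℝ) : ℂ) with hwd
  set W : Set ℝ := Icc ((2 : ℝ) ^ K * (Λ - 1)) ((2 : ℝ) ^ K * (Λ + 2)) with hWd
  have hvW : volume W = ENNReal.ofReal (3 * (2 : ℝ) ^ K) := by
    rw [hWd, Real.volume_Icc]
    congr 1
    ring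
  set H : ℝ → ℝ≥0∞ := fun x =>
    Vz r (fun b => ps φ T w ξ b x) m M + ENNReal.ofReal (16 * C8 * eps) with hH
  have hmV : Measurable fun x => Vz r (fun b => ps φ T w ξ b x) m M :=
    measurable_Vz (z := fun x b => ps φ T w ξ b x)
      (fun b => Pool.Agent.VRC.VPLU_.measurable_ps hW T w ξ b) m M
  have hlarge := h4 r hr hr4 κ hκ.meas hκ.const W (ENNReal.ofReal (C3 * mu))
    (fun y => ENNReal.ofReal (vm r L p a (Pool.Agent.VRC.VPLU_.UU T (κ y)) y))
    (fun y => ‖∑ s ∈ T, if κ y + 2 ≤ s.k then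
      ε s * ((c s : ℝ) : ℂ) * fx φ s y * vc L p q a s y else 0‖ₑ) H measurableSet_Icc
    ENNReal.ofReal_ne_top (measurable_w hPQ.mp hAB.ma hκ.meas T) ?_
    (hmV.add measurable_const) ?_ ?_ ?_
  · have hV := hV4 r hr hr4 φ Φ hW T K Λ ξ hT w m M W hm measurableSet_Icc
      (by rw [hvW]; exact ENNReal.ofReal_ne_top)
    have hsq : (∑ s ∈ T, ‖w s‖ₑ ^ 2) ≤ ENNReal.ofReal (eps ^ 2 * 2 ^ K) := by
      have e1' : ∑ s ∈ T, ‖w s‖ₑ ^ 2 = ENNReal.ofReal (∑ s ∈ T, c s ^ 2) := by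
        rw [ENNReal.ofReal_sum_of_nonneg (fun s _ => sq_nonneg _)]
        refine Finset.sum_congr rfl fun s _ => ?_
        rw [← ofReal_norm, hwd, hw s, ENNReal.ofReal_pow (hc s)]
      rw [e1']
      exact ENNReal.ofReal_le_ofReal (hEn T K Λ ξ subset_rfl hT)
    have hHW : ∫⁻ x in W, H x ≤
        ENNReal.ofReal ((C7 * √3 * kr r + 48 * C8) * (eps * 2 ^ K)) := by
      rw [hH]
      simp only
      rw [lintegral_add_right _ measurable_const, setLIntegral_const, hvW]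
      have e2 : (C7 : ℝ≥0∞) * ENNReal.ofReal (kr r) * volume W ^ (1 / 2 : ℝ) *
          (∑ s ∈ T, ‖w s‖ₑ ^ 2) ^ (1 / 2 : ℝ) ≤
          ENNReal.ofReal (C7 * √3 * kr r * (eps * 2 ^ K)) := by
        have e3 : (∑ s ∈ T, ‖w s‖ₑ ^ 2) ^ (1 / 2 : ℝ) ≤ ENNReal.ofReal (eps * √(2 ^ K)) := by
          refine (ENNReal.rpow_le_rpow hsq (by norm_num)).trans (le_of_eq ?_)
          rw [ENNReal.ofReal_rpow_of_nonneg (by positivity) (by norm_num), ← Real.sqrt_eq_rpow,
            Real.sqrt_mul (by positivity), Real.sqrt_sq heps]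
        have e4 : volume W ^ (1 / 2 : ℝ) = ENNReal.ofReal (√3 * √(2 ^ K)) := by
          rw [hvW, ENNReal.ofReal_rpow_of_nonneg (by positivity) (by norm_num),
            ← Real.sqrt_eq_rpow, Real.sqrt_mul (by norm_num)]
        rw [e4]
        refine (mul_le_mul' le_rfl e3).trans ?_
        rw [← ENNReal.ofReal_coe_nnreal, ← ENNReal.ofReal_mul (by positivity),
          ← ENNReal.ofReal_mul (by positivity), ← ENNReal.ofReal_mul (by positivity)]
        refine ENNReal.ofReal_le_ofReal (le_of_eq ?_)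
        have e5 : √((2 : ℝ) ^ K) * √((2 : ℝ) ^ K) = 2 ^ K := Real.mul_self_sqrt hK.le
        calc (C7 : ℝ) * kr r * (√3 * √(2 ^ K)) * (eps * √(2 ^ K)) =
            C7 * √3 * kr r * (eps * (√(2 ^ K) * √(2 ^ K))) := by ring
          _ = _ := by rw [e5]
      rw [← ENNReal.ofReal_mul (by positivity)]
      refine (add_le_add (hV.trans e2) le_rfl).trans ?_
      rw [← ENNReal.ofReal_add (by positivity) (by positivity)]
      refine ENNReal.ofReal_le_ofReal (le_of_eq ?_)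
      ring
    have hfin : ENNReal.ofReal (∑ s ∈ T, c s * ‖vav φ L p q a s‖) ≤
        ENNReal.ofReal ((C4 * C5 + (1 + C3) * (C7 * √3 + 48 * C8)) * kr r * eps *
          mu ^ (1 - 1 / r) * 2 ^ K) := by
      have e6 : ENNReal.ofReal (C3 * mu) ^ (1 - 1 / r) ≤
          ENNReal.ofReal ((1 + C3) * mu ^ (1 - 1 / r)) := by
        rw [ENNReal.ofReal_rpow_of_nonneg (by positivity) (by linarith),
          Real.mul_rpow hC3.le hmu]
        refine ENNReal.ofReal_le_ofReal (mul_le_mul_of_nonneg_right ?_ hmu34)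
        exact rpow_le hC3 (by linarith) (by linarith)
      have e7 := hlarge.trans (mul_le_mul' e6 hHW)
      rw [← ENNReal.ofReal_mul (by positivity)] at e7
      refine hle.trans ((add_le_add (ENNReal.ofReal_le_ofReal hsmall) e7).trans ?_)
      rw [← ENNReal.ofReal_add (by positivity) (by positivity)]
      refine ENNReal.ofReal_le_ofReal ?_
      have hX : 0 ≤ eps * mu ^ (1 - 1 / r) * (2 : ℝ) ^ K := by positivity
      have h11 : C4 * C5 * 1 ≤ C4 * C5 * kr r :=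
        mul_le_mul_of_nonneg_left (by linarith) (by positivity)
      have h12 : (1 + C3) * (C7 * √3 * kr r + 48 * C8) ≤
          (1 + C3) * ((C7 * √3 + 48 * C8) * kr r) := by
        refine mul_le_mul_of_nonneg_left ?_ (by positivity)
        have h13 : 48 * C8 * 1 ≤ 48 * C8 * kr r :=
          mul_le_mul_of_nonneg_left (by linarith) (by positivity)
        calc C7 * √3 * kr r + 48 * C8 = C7 * √3 * kr r + 48 * C8 * 1 := by ring
          _ ≤ C7 * √3 * kr r + 48 * C8 * kr r := by linarith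
          _ = _ := by ring
      calc C4 * C5 * (eps * mu ^ (1 - 1 / r) * 2 ^ K) +
            (1 + C3) * mu ^ (1 - 1 / r) * ((C7 * √3 * kr r + 48 * C8) * (eps * 2 ^ K))
          = (C4 * C5 * 1 + (1 + C3) * (C7 * √3 * kr r + 48 * C8)) *
            (eps * mu ^ (1 - 1 / r) * 2 ^ K) := by ring
        _ ≤ (C4 * C5 * kr r + (1 + C3) * ((C7 * √3 + 48 * C8) * kr r)) *
            (eps * mu ^ (1 - 1 / r) * 2 ^ K) :=
            mul_le_mul_of_nonneg_right (add_le_add h11 h12) hX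
        _ = _ := by ring
    exact (ENNReal.ofReal_le_ofReal_iff (by positivity)).1 hfin
  · refine Measurable.enorm (Finset.measurable_fun_sum _ fun s _ => ?_)
    refine Measurable.ite ?_ ?_ measurable_const
    · exact measurableSet_le (hκ.meas.add_const 2) measurable_const
    · exact (measurable_const.mul (PK.continuous_fx hW s).measurable).mul (b5 s)
  · intro x
    refine le_trans (le_of_eq ?_) (hP2 r hr hr4 L p q a E hPQ hAB T K Λ ξ mu κ hTr hκ hMs x)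
    refine setLIntegral_congr_fun (measurableSet_dy _ _) fun y hy => ?_
    rw [hκ.const x y hy]
    rfl
  · intro x y hy
    have hk := hκ.const x y hy
    rw [hk]
    exact large_pt (q := q) hr g13 g3 (by linarith) (fun s hs => (hT s hs).2) b1 hVT hC8.le heps
      (fun s hs x y hxy => hOSC φ Φ hW s ξ (hT s hs).2 x y hxy)
      (fun s hs => by rw [hw s]; exact hsing s hs) hm hM (Pool.Agent.CAR.PLU_.Jx_dist hy)
      (fun s hs hks f hf => ⟨s, hs, hks, up_sub s hf⟩)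
  · intro x y hy hne0
    have hk := hκ.const x y hy
    by_contra hx
    apply hne0
    have h8 : Pool.Agent.VRC.VPLU_.UU T (κ y) = ∅ := by
      rw [Set.eq_empty_iff_forall_notMem]
      rintro f ⟨s, hs, hks, -⟩
      rw [hk] at hks
      have h9 : s.k ≤ K := le_of_dy_sub (hT s hs).1
      exact hx (p_NEAR T K Λ ξ κ hTr hκ x (by omega))
    rw [h8]
    unfold vm
    simp

end Pool.Agent.VRR
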