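import Pool.Agent.VRR.Targets
import Pool.Agent.CAR.P_RA
import Pool.Agent.CAR.P_TRF
import Pool.Agent.CAR.P_ENB
import Pool.Agent.CAR.P_DSQ

set_option autoImplicit false

/-!
# VRR: RA, restricted estimate for `|E| ≤ |F|`
-/

namespace Pool.Agent.VRR

open MeasureTheory Set ComplexConjugate
open scoped ENNReal NNReal
open Pool.Agent.CAR
open Pool.Agent.VRC (PQ GG2 Act vc vav)

namespace RA_

theorem vav_zero {r : ℝ} {L : ℕ} {p q : ℕ → ℝ → ℝ} {a : ℕ → ℝ → ℂ} {E : Set ℝ} (h : AB r L a 1 E)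
    (hE : vol E = 0) (φ : ℝ → ℂ) (s : Tile) : vav φ L p q a s = 0 := by
  have h0 : volume E = 0 := by
    have h1 : volume E = 0 ∨ volume E = ⊤ := (ENNReal.toReal_eq_zero_iff _).1 hE
    rcases h1 with h1 | h1
    · exact h1
    · exact absurd h1 h.fE
  have h2 : ∀ᵐ x, x ∉ E := by
    rw [ae_iff]
    simpa using h0
  unfold vav
  rw [integral_eq_zero_of_ae]
  filter_upwards [h2] with x hx
  show vc L p q a s x * fx φ s x = 0
  have h3 : vc L p q a s x = 0 := by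
    unfold vc
    refine Finset.sum_eq_zero fun j hj => ?_
    by_cases hx2 : x ∈ Act p q s j
    · rw [indicator_of_mem hx2]
      exact h.z j (Finset.mem_range.1 hj) x hx
    · rw [indicator_of_notMem hx2]
  rw [h3, zero_mul]

theorem sum_bound {r ρ e0 : ℝ} (hr : 2 < r) (hρ : 1 ≤ ρ) (he : 1 ≤ e0) :
    e0 + ρ ^ (2 / r) * e0 ^ (1 - 2 / r) ≤ 2 * e0 * ρ ^ (2 / r) := by
  have h1 : 1 ≤ ρ ^ (2 / r) := Real.one_le_rpow hρ (by positivity)
  have h3 : e0 ^ (1 - 2 / r) ≤ e0 := by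
    calc e0 ^ (1 - 2 / r) ≤ e0 ^ (1 : ℝ) := by
          refine Real.rpow_le_rpow_of_exponent_le he ?_
          have : 0 < 2 / r := by positivity
          linarith
      _ = e0 := Real.rpow_one _
  nlinarith [mul_le_mul_of_nonneg_left h3 (by linarith : (0 : ℝ) ≤ ρ ^ (2 / r)),
    mul_le_mul_of_nonneg_left h1 (by linarith : (0 : ℝ) ≤ e0)]

theorem final_eq {r x y : ℝ} (hr : 2 < r) (hx : 0 < x) (hy : 0 < y) :
    x * Real.sqrt (y / x) ^ (2 / r) = x ^ (1 - 1 / r) * y ^ (1 / r) := by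
  have h0 : 0 < y / x := by positivity
  rw [Real.sqrt_eq_rpow, ← Real.rpow_mul h0.le]
  have h1 : (1 / 2 : ℝ) * (2 / r) = 1 / r := by
    have : r ≠ 0 := by linarith
    field_simp
  rw [h1, Real.div_rpow hy.le hx.le, Real.rpow_sub hx, Real.rpow_one]
  have h2 : x ^ (1 / r) ≠ 0 := (Real.rpow_pos_of_pos hx _).ne'
  field_simp

end RA_

open RA_ in
theorem p_RA (_h0 : T_REX) (h1 : T_SUM) : T_RA := by
  intro A
  obtain ⟨C1, hC1, hE1⟩ := (p_ENB p_DSQ) A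
  obtain ⟨C2, hC2, hS2⟩ := h1 A
  have hs1 : 0 ≤ Real.sqrt C1 := Real.sqrt_nonneg _
  set e0 : ℝ := Real.sqrt C1 + 1 with he0
  have he1 : 1 ≤ e0 := by linarith
  refine ⟨C2 * (2 * e0), by positivity, ?_⟩
  intro r hr2 hr4 φ Φ hW f F L p q a E hf hpq hab hEF S
  have hk : 0 ≤ kr r := by
    unfold kr
    have : 0 < r - 2 := by linarith
    positivity
  have hVE : 0 ≤ vol E := ENNReal.toReal_nonneg
  have hVF0 : 0 ≤ vol F := ENNReal.toReal_nonneg
  rcases hVE.eq_or_lt with hV | hV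
  · have h1 : ∑ s ∈ S, ‖cf φ f s‖ * ‖vav φ L p q a s‖ = 0 := by
      refine Finset.sum_eq_zero fun s _ => ?_
      rw [vav_zero hab hV.symm, norm_zero, mul_zero]
    rw [h1]
    positivity
  have hFp : 0 < vol F := lt_of_lt_of_le hV hEF
  obtain ⟨hfs, hfv⟩ := Pool.Agent.CAR.RA_.bf_sq hf
  obtain ⟨g, hmg, hig, hsg, hn, hco⟩ := p_TRF A φ Φ hW f hf.m (Pool.Agent.CAR.RA_.bf_int hf) hfs S
  have hD : GG2 g := { mg := hmg, ig := hig, sg := hsg }
  set ρ : ℝ := Real.sqrt (vol F / vol E) with hρ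
  have hr1 : 1 ≤ ρ := by
    rw [hρ, Real.one_le_sqrt, le_div_iff₀ hV, one_mul]
    exact hEF
  have hn2 : n2 g ≤ ρ * Real.sqrt (vol E) := by
    have h1 : n2 f ≤ Real.sqrt (vol F) := Real.sqrt_le_sqrt hfv
    have h2 : ρ * Real.sqrt (vol E) = Real.sqrt (vol F) := by
      rw [hρ, ← Real.sqrt_mul (by positivity), div_mul_cancel₀ _ hV.ne']
    rw [h2]
    exact hn.trans h1
  have hcc : ∀ s ∈ S, cc Φ g s = ‖cf φ f s‖ := by
    intro s hs
    unfold cc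
    rw [hco s hs]
  have hEn : En (cc Φ g) S e0 := by
    intro T K Λ ξ hT hP
    have h1 := hE1 φ Φ hW f 1 hf.m zero_le_one hf.bd T K Λ ξ hP
    have h2 : ∑ s ∈ T, cc Φ g s ^ 2 = ∑ s ∈ T, ‖cf φ f s‖ ^ 2 :=
      Finset.sum_congr rfl fun s hs => by rw [hcc s (hT hs)]
    rw [h2]
    refine h1.trans ?_
    rw [one_pow, mul_one]
    refine mul_le_mul_of_nonneg_right ?_ (two_zpow_pos K).le
    have h3 : C1 = Real.sqrt C1 ^ 2 := (Real.sq_sqrt hC1.le).symm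
    rw [h3]
    exact pow_le_pow_left₀ hs1 (by linarith) 2
  have hmain := hS2 r hr2 hr4 φ Φ g hW hD L p q a E hpq hab S ρ e0 (by linarith) (by linarith)
    hn2 hEn
  have hl := sum_bound hr2 hr1 he1
  have h3 : ∑ s ∈ S, ‖cf φ f s‖ * ‖vav φ L p q a s‖ =
      ∑ s ∈ S, cc Φ g s * ‖vav φ L p q a s‖ :=
    Finset.sum_congr rfl fun s hs => by rw [hcc s hs]
  rw [h3]
  refine hmain.trans ?_
  have h4 : C2 * kr r ^ 2 * vol E * (e0 + ρ ^ (2 / r) * e0 ^ (1 - 2 / r)) ≤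
      C2 * kr r ^ 2 * vol E * (2 * e0 * ρ ^ (2 / r)) :=
    mul_le_mul_of_nonneg_left hl (by positivity)
  refine h4.trans (le_of_eq ?_)
  rw [← final_eq hr2 hV hFp]
  ring

end Pool.Agent.VRR
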