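import Pool.Agent.VRR.Targets2
import Pool.Agent.VRC.P_RAV

set_option autoImplicit false

/-! VRR-RAV: the main theorem with the `q`-variation in the radius, `2 < q ≤ 4`. -/

namespace Pool.Agent.VRR

open MeasureTheory FourierTransform Set Filter Topology
open scoped ENNReal NNReal ComplexConjugate
open Pool.Agent.MBS (E ex S)
open Pool.Agent.CRN (sg SH S1 Nice T_POLN T_DSN)
open Pool.Agent.CRR (EB pn co NSol kap nu)
open Pool.Agent.CRR.RAD_ (f_cont S_eq lint_log lint_G inj der enorm_real pow_eq)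
open Pool.Agent.VRC.RAV_ (S_neg S_max S_jc Q Q_cont Q_int Q_sub Q_eq image_Ioc int_log2)

namespace RAV_

variable {n : ℕ}

/-- the `q`-variation of a Hankel transform -/
noncomputable def HV (q : ℝ) (J : ℝ → ℝ) (g : ℝ → ℂ) (u : ℝ) : ℝ≥0∞ :=
  Vo q (fun V1 V2 => ∫ v in Ioc V1 V2, kap J (u + v) * g v)

theorem powq (q : ℝ) (x : ℝ≥0∞) : (x ^ (1 / q)) ^ 2 = x ^ (2 / q) := by
  rw [← ENNReal.rpow_natCast, ← ENNReal.rpow_mul]
  congr 1
  push_cast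
  ring

theorem pow2 {q : ℝ} (hq : 0 < q) (x : ℝ≥0∞) : (x ^ (q / 2)) ^ (2 / q) = x := by
  rw [← ENNReal.rpow_mul, show q / 2 * (2 / q) = 1 by field_simp, ENNReal.rpow_one]

theorem pow2' {q : ℝ} (hq : 0 < q) (x : ℝ≥0∞) : (x ^ (2 / q)) ^ (q / 2) = x := by
  rw [← ENNReal.rpow_mul, show 2 / q * (q / 2) = 1 by field_simp, ENNReal.rpow_one]

theorem pow24 {q : ℝ} (hq : 0 < q) (x : ℝ≥0∞) : ((x ^ (q / 2)) ^ (1 / q)) ^ 2 = x := by
  rw [powq, pow2 hq]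

theorem sqq (q : ℝ) (x : ℝ≥0∞) : (x ^ 2) ^ (q / 2) = x ^ q := by
  rw [← ENNReal.rpow_natCast, ← ENNReal.rpow_mul]
  congr 1
  push_cast
  ring

theorem sum_scale {q : ℝ} (hq : 0 < q) (s : Finset ℕ) (c : ℝ≥0∞) (x : ℕ → ℝ≥0∞) :
    c * (∑ j ∈ s, x j ^ (q / 2)) ^ (2 / q) = (∑ j ∈ s, (c * x j) ^ (q / 2)) ^ (2 / q) := by
  have h1 : (0 : ℝ) ≤ q / 2 := by positivity
  have h2 : (0 : ℝ) ≤ 2 / q := by positivity
  simp only [ENNReal.mul_rpow_of_nonneg _ _ h1]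
  rw [← Finset.mul_sum, ENNReal.mul_rpow_of_nonneg _ _ h2, pow2 hq]

theorem mink2 {q : ℝ} (hq : 2 < q) {M : ℕ} (s : Finset ℕ) (x : ℕ → Fin M → ℝ≥0∞)
    (t : Finset (Fin M)) :
    (∑ j ∈ s, (∑ m ∈ t, x j m) ^ (q / 2)) ^ (2 / q) ≤
      ∑ m ∈ t, (∑ j ∈ s, x j m ^ (q / 2)) ^ (2 / q) := by
  classical
  have hq0 : 0 < q := by linarith
  induction t using Finset.induction_on with
  | empty =>
    have h1 : (0 : ℝ) < q / 2 := by positivity
    have h2 : (0 : ℝ) < 2 / q := by positivity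
    simp [ENNReal.zero_rpow_of_pos h1, ENNReal.zero_rpow_of_pos h2]
  | insert a t ha ih =>
    rw [Finset.sum_insert ha]
    simp only [Finset.sum_insert ha]
    have h := ENNReal.Lp_add_le s (fun j => x j a) (fun j => ∑ m ∈ t, x j m)
      (p := q / 2) (by linarith)
    rw [one_div_div] at h
    exact h.trans (add_le_add le_rfl ih)

/-- the key estimate for positive radii -/
theorem key_pos {q : ℝ} (hq : 2 < q) [IsFiniteMeasure (sg n)] (h5 : T_DSN) (hn : 2 ≤ n) {f : E n → ℂ}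
    (hf : Nice f) {Y : E n → ℂ} (hY : Continuous Y) {J : ℝ → ℝ} {G : ℝ → ℂ} {r : ℝ}
    (hr : 0 < r)
    (hG : ∀ ρ, 0 < ρ → ((r ^ (((n : ℝ) - 2) / 2) : ℝ) : ℂ) * co Y (𝓕 f) ρ r =
      G ρ * J (Real.log (2 * Real.pi * r * ρ)))
    (L : ℕ) (N : ℕ → ℝ) (hN : Monotone N) (hp : ∀ j, 0 < N j) :
    ENNReal.ofReal (r ^ (n - 1)) * (∑ j ∈ Finset.range L,
      (‖Q Y f (N (j + 1)) r - Q Y f (N j) r‖ₑ ^ 2) ^ (q / 2)) ^ (2 / q) ≤
      ENNReal.ofReal r⁻¹ * HV q J (fun v => G (Real.exp v / (2 * Real.pi))) (Real.log r) ^ 2 := by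
  have hq0 : 0 < q := by linarith
  have hw : 0 ≤ r ^ (((n : ℝ) - 2) / 2) := Real.rpow_nonneg hr.le _
  obtain ⟨V, hV⟩ : ∃ V : ℕ → ℝ, V = fun j => Real.log (2 * Real.pi * N j) := ⟨_, rfl⟩
  obtain ⟨F, hF⟩ : ∃ F : ℝ → ℝ → ℂ, F = fun V1 V2 => ∫ v in Ioc V1 V2,
    kap J (Real.log r + v) * G (Real.exp v / (2 * Real.pi)) := ⟨_, rfl⟩
  have hVm : Monotone V := by
    intro i j hij
    rw [hV]
    have h1 := hp i
    have h2 := hN hij
    exact Real.log_le_log (by positivity) (by gcongr)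
  have e1 : ∀ j, ((r ^ (((n : ℝ) - 2) / 2) : ℝ) : ℂ) *
      (Q Y f (N (j + 1)) r - Q Y f (N j) r) =
      (((2 * Real.pi * r)⁻¹ : ℝ) : ℂ) * F (V j) (V (j + 1)) := by
    intro j
    rw [Q_eq h5 hn hf hY (hp j).le (hN (Nat.le_succ j)), ← integral_const_mul, hF, hV]
    simp only []
    rw [← int_log2 G J hr (hp j) (hp (j + 1))]
    exact setIntegral_congr_fun measurableSet_Ioc fun ρ hρ => hG ρ ((hp j).trans hρ.1)
  have h1 : r * ((2 * Real.pi * r)⁻¹) ^ 2 ≤ r⁻¹ := by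
    have hpi : 1 ≤ 2 * Real.pi := by linarith [Real.pi_gt_three]
    have h2 : r * ((2 * Real.pi * r)⁻¹) ^ 2 = ((2 * Real.pi) ^ 2)⁻¹ * r⁻¹ := by
      field_simp
    rw [h2]
    have h3 : ((2 * Real.pi) ^ 2)⁻¹ ≤ 1 := inv_le_one_of_one_le₀ (one_le_pow₀ hpi)
    calc ((2 * Real.pi) ^ 2)⁻¹ * r⁻¹ ≤ 1 * r⁻¹ := by gcongr
      _ = r⁻¹ := one_mul _
  have h0 : (0 : ℝ) ≤ (2 * Real.pi * r)⁻¹ := by positivity
  have h2 : ∀ j, ENNReal.ofReal (r ^ (n - 1)) *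
      ‖Q Y f (N (j + 1)) r - Q Y f (N j) r‖ₑ ^ 2 ≤
      ENNReal.ofReal r⁻¹ * ‖F (V j) (V (j + 1))‖ₑ ^ 2 := by
    intro j
    calc ENNReal.ofReal (r ^ (n - 1)) * ‖Q Y f (N (j + 1)) r - Q Y f (N j) r‖ₑ ^ 2
        = ENNReal.ofReal r * ‖((r ^ (((n : ℝ) - 2) / 2) : ℝ) : ℂ) *
            (Q Y f (N (j + 1)) r - Q Y f (N j) r)‖ₑ ^ 2 := by
          rw [pow_eq hn hr, ENNReal.ofReal_mul hr.le, ENNReal.ofReal_pow hw, enorm_mul,
            enorm_real hw]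
          ring
      _ = ENNReal.ofReal (r * ((2 * Real.pi * r)⁻¹) ^ 2) * ‖F (V j) (V (j + 1))‖ₑ ^ 2 := by
          rw [e1, ENNReal.ofReal_mul hr.le, ENNReal.ofReal_pow h0, enorm_mul, enorm_real h0]
          ring
      _ ≤ ENNReal.ofReal r⁻¹ * ‖F (V j) (V (j + 1))‖ₑ ^ 2 := by gcongr
  have h3 : (∑ j ∈ Finset.range L, (‖F (V j) (V (j + 1))‖ₑ ^ 2) ^ (q / 2)) ^ (2 / q) ≤
      HV q J (fun v => G (Real.exp v / (2 * Real.pi))) (Real.log r) ^ 2 := by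
    have h4 : (∑ j ∈ Finset.range L, ‖F (V j) (V (j + 1))‖ₑ ^ q) ^ (1 / q) ≤
        HV q J (fun v => G (Real.exp v / (2 * Real.pi))) (Real.log r) := by
      unfold HV Vo
      rw [← hF]
      exact le_iSup_of_le L (le_iSup₂_of_le V hVm le_rfl)
    simp only [sqq]
    rw [← powq]
    exact pow_le_pow_left' h4 2
  rw [sum_scale hq0]
  calc (∑ j ∈ Finset.range L, (ENNReal.ofReal (r ^ (n - 1)) *
        ‖Q Y f (N (j + 1)) r - Q Y f (N j) r‖ₑ ^ 2) ^ (q / 2)) ^ (2 / q)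
      ≤ (∑ j ∈ Finset.range L, (ENNReal.ofReal r⁻¹ *
        ‖F (V j) (V (j + 1))‖ₑ ^ 2) ^ (q / 2)) ^ (2 / q) := by
        refine ENNReal.rpow_le_rpow ?_ (by positivity)
        exact Finset.sum_le_sum fun j _ => ENNReal.rpow_le_rpow (h2 j) (by positivity)
    _ = ENNReal.ofReal r⁻¹ *
        (∑ j ∈ Finset.range L, (‖F (V j) (V (j + 1))‖ₑ ^ 2) ^ (q / 2)) ^ (2 / q) :=
        (sum_scale hq0 _ _ _).symm
    _ ≤ _ := by gcongr

/-- the key estimate -/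
theorem key {q : ℝ} (hq : 2 < q) [IsFiniteMeasure (sg n)] (h5 : T_DSN) (hn : 2 ≤ n) {f : E n → ℂ}
    (hf : Nice f) {Y : E n → ℂ} (hY : Continuous Y) {J : ℝ → ℝ} {G : ℝ → ℂ} {r : ℝ}
    (hr : 0 < r)
    (hG : ∀ ρ, 0 < ρ → ((r ^ (((n : ℝ) - 2) / 2) : ℝ) : ℂ) * co Y (𝓕 f) ρ r =
      G ρ * J (Real.log (2 * Real.pi * r * ρ)))
    (L : ℕ) (N : ℕ → ℝ) (hN : Monotone N) :
    ENNReal.ofReal (r ^ (n - 1)) * (∑ j ∈ Finset.range L,
      (‖Q Y f (N (j + 1)) r - Q Y f (N j) r‖ₑ ^ 2) ^ (q / 2)) ^ (2 / q) ≤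
      ENNReal.ofReal r⁻¹ * HV q J (fun v => G (Real.exp v / (2 * Real.pi))) (Real.log r) ^ 2 := by
  have hQm : ∀ R, Q Y f R r = Q Y f (max R 0) r := by
    intro R
    unfold Q
    refine integral_congr_ae (Eventually.of_forall fun θ => ?_)
    simp only []
    rw [S_max hn]
  have hc : Continuous (fun R : ℝ => Q Y f R r) :=
    (Q_cont h5 hn hf hY).comp (f := fun R : ℝ => (R, r)) (by fun_prop)
  have hT : Tendsto (fun k : ℕ => ENNReal.ofReal (r ^ (n - 1)) * (∑ j ∈ Finset.range L,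
      (‖Q Y f (max (N (j + 1)) (1 / ((k : ℝ) + 1))) r -
        Q Y f (max (N j) (1 / ((k : ℝ) + 1))) r‖ₑ ^ 2) ^ (q / 2)) ^ (2 / q)) atTop
      (𝓝 (ENNReal.ofReal (r ^ (n - 1)) * (∑ j ∈ Finset.range L,
      (‖Q Y f (max (N (j + 1)) 0) r - Q Y f (max (N j) 0) r‖ₑ ^ 2) ^ (q / 2)) ^ (2 / q))) := by
    have h1 : Continuous (fun ε : ℝ => ENNReal.ofReal (r ^ (n - 1)) * (∑ j ∈ Finset.range L,
        (‖Q Y f (max (N (j + 1)) ε) r - Q Y f (max (N j) ε) r‖ₑ ^ 2) ^ (q / 2)) ^ (2 / q)) := by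
      refine (ENNReal.continuous_const_mul ENNReal.ofReal_ne_top).comp ?_
      refine ENNReal.continuous_rpow_const.comp ?_
      refine continuous_finsetSum _ fun j _ => ?_
      refine ENNReal.continuous_rpow_const.comp ((ENNReal.continuous_pow 2).comp ?_)
      exact Continuous.enorm ((hc.comp (by fun_prop)).sub (hc.comp (by fun_prop)))
    exact (h1.tendsto 0).comp tendsto_one_div_add_atTop_nhds_zero_nat
  have e : (∑ j ∈ Finset.range L,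
      (‖Q Y f (N (j + 1)) r - Q Y f (N j) r‖ₑ ^ 2) ^ (q / 2)) = (∑ j ∈ Finset.range L,
      (‖Q Y f (max (N (j + 1)) 0) r - Q Y f (max (N j) 0) r‖ₑ ^ 2) ^ (q / 2)) := by
    refine Finset.sum_congr rfl fun j _ => ?_
    rw [hQm (N (j + 1)), hQm (N j)]
  rw [e]
  refine le_of_tendsto' hT fun k => ?_
  have hk : (0 : ℝ) < 1 / ((k : ℝ) + 1) := by positivity
  exact key_pos hq h5 hn hf hY hr hG L (fun j => max (N j) (1 / ((k : ℝ) + 1)))
    (fun i j hij => max_le_max (hN hij) le_rfl) fun j => lt_max_of_lt_right hk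

theorem Hv_le {q : ℝ} (hq : 2 < q) {CH : ℝ≥0∞} (hH : ∀ (ν : ℝ) (J J' : ℝ → ℝ) (g : ℝ → ℂ), 0 ≤ ν →
    NSol ν J J' → Measurable g →
    ∫⁻ u, Vo q (fun V1 V2 => ∫ v in Ioc V1 V2, kap J (u + v) * g v) ^ 2 ≤
      CH * ∫⁻ v, ‖g v‖ₑ ^ 2)
    {l : ℝ} {J J' : ℝ → ℝ} {G : ℝ → ℂ} (hGm : Measurable G)
    (hNS : (∀ ρ, G ρ = 0) ∨ NSol (nu n l) J J') :
    ∫⁻ r in Ioi (0 : ℝ), ENNReal.ofReal r⁻¹ *
      HV q J (fun v => G (Real.exp v / (2 * Real.pi))) (Real.log r) ^ 2 ≤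
      CH * ∫⁻ ρ in Ioi (0 : ℝ), ‖G ρ‖ₑ ^ 2 * ENNReal.ofReal ρ⁻¹ := by
  rw [lint_log (fun u => HV q J (fun v => G (Real.exp v / (2 * Real.pi))) u ^ 2), ← lint_G]
  rcases hNS with h | h
  · have h0 : ∀ u, HV q J (fun v => G (Real.exp v / (2 * Real.pi))) u = 0 := by
      intro u
      have hq0 : 0 < q := by linarith
      have hq1 : 0 < 1 / q := by positivity
      unfold HV Vo
      simp only [h, mul_zero, integral_zero, enorm_zero, ENNReal.zero_rpow_of_pos hq0,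
        Finset.sum_const_zero, ENNReal.zero_rpow_of_pos hq1]
      simp
    simp only [h0, ne_eq, OfNat.ofNat_ne_zero, not_false_eq_true, zero_pow, lintegral_zero]
    exact zero_le
  · exact hH (nu n l) J J' _ (Real.sqrt_nonneg _) h (hGm.comp (by fun_prop))

end RAV_

open RAV_ in
theorem p_RAV (_h0 : T_REX) (h1 : T_HAV) (h2 : Pool.Agent.CRR.T_EIG) (h3 : Pool.Agent.CRR.T_GM)
    (h4 : Pool.Agent.CRN.T_POLN) (h5 : Pool.Agent.CRN.T_DSN) : T_RAV := by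
  intro n hn
  obtain ⟨CH, hH⟩ := h1
  obtain ⟨CG, hG⟩ := h3 n hn
  obtain ⟨M, Y, lam, hEB, hY⟩ := h2 n hn
  have hfin : IsFiniteMeasure (sg n) := (h4 n (by omega)).2.2
  refine ⟨CH * CG, fun q hq hq4 f hf => ?_⟩
  have hq0 : 0 < q := by linarith
  replace hH := hH q hq hq4
  obtain ⟨c, hc⟩ : ∃ c : ℝ≥0∞, c = CH * ENNReal.ofReal (kr q ^ 14) := ⟨_, rfl⟩
  rw [← hc] at hH
  have hpl : ∫⁻ ξ, ‖𝓕 f ξ‖ₑ ^ 2 = ∫⁻ x, ‖f x‖ₑ ^ 2 :=
    Pool.Agent.CRN.ENN_.plancherel hf.int hf.sq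
  obtain ⟨A, hA⟩ : ∃ A : ℕ → ℝ → ℝ≥0∞, A = fun K r => ⨆ (L : ℕ) (N : ℕ → ℝ) (_ : Monotone N),
    (∑ j ∈ Finset.range L, (pn (Y K) (fun x => S f (N (j + 1)) (r • x) -
      S f (N j) (r • x))) ^ (q / 2)) ^ (2 / q) := ⟨_, rfl⟩
  have hcS : ∀ R1 R2 r : ℝ, Continuous (fun x : E n => S f R2 (r • x) - S f R1 (r • x)) := by
    intro R1 R2 r
    exact ((S_jc h5 hn hf).comp (f := fun x : E n => (R2, r • x)) (by fun_prop)).sub
      ((S_jc h5 hn hf).comp (f := fun x : E n => (R1, r • x)) (by fun_prop))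
  have hpn : ∀ (K : ℕ) (R1 R2 r : ℝ), pn (Y K) (fun x => S f R2 (r • x) - S f R1 (r • x)) =
      ∑ m, ‖Q (Y K m) f R2 r - Q (Y K m) f R1 r‖ₑ ^ 2 := by
    intro K R1 R2 r
    unfold pn
    refine Finset.sum_congr rfl fun m _ => ?_
    rw [Q_sub h5 hn hf ((hEB K).cont m)]
  have hpnm : ∀ R1 R2 r : ℝ, Monotone (fun K => pn (Y K)
      (fun x => S f R2 (r • x) - S f R1 (r • x))) := fun R1 R2 r =>
    monotone_nat_of_le_succ fun K => (hY _ (hcS R1 R2 r)).1 K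
  have hA1 : ∀ r, VS q f r ^ 2 ≤ ⨆ K, A K r := by
    intro r
    obtain ⟨T, hT⟩ : ∃ T : ℝ≥0∞, T = ⨆ K, A K r := ⟨_, rfl⟩
    have h6 : VS q f r ≤ (T ^ (q / 2)) ^ (1 / q) := by
      unfold VS
      refine iSup_le fun L => iSup₂_le fun N hN => ?_
      refine ENNReal.rpow_le_rpow ?_ (by positivity)
      have h7 : Tendsto (fun K : ℕ => ∑ j ∈ Finset.range L, (pn (Y K)
          (fun x => S f (N (j + 1)) (r • x) - S f (N j) (r • x))) ^ (q / 2)) atTop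
          (𝓝 (∑ j ∈ Finset.range L,
          (∫⁻ θ, ‖S f (N (j + 1)) (r • (θ : E n)) - S f (N j) (r • (θ : E n))‖ₑ ^ 2
            ∂(sg n)) ^ (q / 2))) := by
        refine tendsto_finsetSum _ fun j _ => ?_
        refine (ENNReal.continuous_rpow_const.tendsto _).comp ?_
        have h8 := tendsto_atTop_iSup (hpnm (N j) (N (j + 1)) r)
        rw [(hY _ (hcS (N j) (N (j + 1)) r)).2] at h8
        exact h8
      refine le_of_tendsto' h7 fun K => ?_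
      have h9 : (∑ j ∈ Finset.range L, (pn (Y K)
          (fun x => S f (N (j + 1)) (r • x) - S f (N j) (r • x))) ^ (q / 2)) ^ (2 / q) ≤ T := by
        rw [hT]
        refine le_trans ?_ (le_iSup (fun K => A K r) K)
        rw [hA]
        exact le_iSup_of_le L (le_iSup₂_of_le N hN le_rfl)
      have h10 := ENNReal.rpow_le_rpow h9 (show (0 : ℝ) ≤ q / 2 by positivity)
      rwa [pow2' hq0] at h10
    rw [← hT]
    exact (pow_le_pow_left' h6 2).trans (pow24 hq0 T).le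
  have hAmono : Monotone A := by
    refine monotone_nat_of_le_succ fun K r => ?_
    rw [hA]
    refine iSup_mono fun L => iSup₂_mono fun N hN => ?_
    refine ENNReal.rpow_le_rpow ?_ (by positivity)
    exact Finset.sum_le_sum fun j _ => ENNReal.rpow_le_rpow ((hY _ (hcS _ _ r)).1 K)
      (by positivity)
  have hQc : ∀ (K : ℕ) (m : Fin (M K)) (R1 R2 : ℝ),
      Continuous (fun r : ℝ => ‖Q (Y K m) f R2 r - Q (Y K m) f R1 r‖ₑ ^ 2) := by
    intro K m R1 R2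
    refine (ENNReal.continuous_pow 2).comp (Continuous.enorm (Continuous.sub ?_ ?_))
    · exact (Q_cont h5 hn hf ((hEB K).cont m)).comp (f := fun r : ℝ => (R2, r)) (by fun_prop)
    · exact (Q_cont h5 hn hf ((hEB K).cont m)).comp (f := fun r : ℝ => (R1, r)) (by fun_prop)
  have hAm : ∀ K, Measurable (A K) := by
    intro K
    have hl : LowerSemicontinuous (A K) := by
      rw [hA]
      refine lowerSemicontinuous_iSup fun L => lowerSemicontinuous_iSup fun N =>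
        lowerSemicontinuous_iSup fun hN => ?_
      simp only [hpn]
      refine Continuous.lowerSemicontinuous (ENNReal.continuous_rpow_const.comp ?_)
      refine continuous_finsetSum _ fun j _ => ENNReal.continuous_rpow_const.comp ?_
      exact continuous_finsetSum _ fun m _ => hQc K m _ _
    exact hl.measurable
  have hpm : Measurable (fun r : ℝ => ENNReal.ofReal (r ^ (n - 1))) := by fun_prop
  have bound : ∀ K, ∫⁻ r in Ioi (0 : ℝ), A K r * ENNReal.ofReal (r ^ (n - 1)) ≤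
      ((CH * CG : ℝ≥0) : ℝ≥0∞) * ENNReal.ofReal (kr q ^ 14) * ∫⁻ x, ‖f x‖ₑ ^ 2 := by
    intro K
    obtain ⟨J, J', G, hGm, hNS, hco, hsum⟩ :=
      hG (M K) (Y K) (lam K) (𝓕 f) (hEB K) (f_cont hf)
    obtain ⟨B, hB⟩ : ∃ B : Fin (M K) → ℝ → ℝ≥0∞, B = fun m r =>
      ⨆ (L : ℕ) (N : ℕ → ℝ) (_ : Monotone N), (∑ j ∈ Finset.range L,
        (‖Q (Y K m) f (N (j + 1)) r - Q (Y K m) f (N j) r‖ₑ ^ 2) ^ (q / 2)) ^ (2 / q) :=
      ⟨_, rfl⟩
    have hBm : ∀ m, Measurable (B m) := by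
      intro m
      have hl : LowerSemicontinuous (B m) := by
        rw [hB]
        refine lowerSemicontinuous_iSup fun L => lowerSemicontinuous_iSup fun N =>
          lowerSemicontinuous_iSup fun hN => ?_
        refine Continuous.lowerSemicontinuous (ENNReal.continuous_rpow_const.comp ?_)
        exact continuous_finsetSum _ fun j _ => ENNReal.continuous_rpow_const.comp
          (hQc K m _ _)
      exact hl.measurable
    have hAB : ∀ r, A K r ≤ ∑ m, B m r := by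
      intro r
      rw [hA]
      refine iSup_le fun L => iSup₂_le fun N hN => ?_
      simp only [hpn]
      refine (mink2 hq (Finset.range L) (fun j m =>
        ‖Q (Y K m) f (N (j + 1)) r - Q (Y K m) f (N j) r‖ₑ ^ 2) Finset.univ).trans ?_
      refine Finset.sum_le_sum fun m _ => ?_
      rw [hB]
      exact le_iSup_of_le L (le_iSup₂_of_le N hN le_rfl)
    have hB1 : ∀ m, ∀ r ∈ Ioi (0 : ℝ), B m r * ENNReal.ofReal (r ^ (n - 1)) ≤
        ENNReal.ofReal r⁻¹ *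
          HV q (J m) (fun v => G m (Real.exp v / (2 * Real.pi))) (Real.log r) ^ 2 := by
      intro m r hr
      rw [hB]
      simp only [ENNReal.iSup_mul]
      refine iSup_le fun L => iSup₂_le fun N hN => ?_
      rw [mul_comm]
      exact key hq h5 hn hf ((hEB K).cont m) hr (fun ρ hρ => hco m ρ r hρ hr) L N hN
    calc ∫⁻ r in Ioi (0 : ℝ), A K r * ENNReal.ofReal (r ^ (n - 1))
        ≤ ∫⁻ r in Ioi (0 : ℝ), ∑ m, B m r * ENNReal.ofReal (r ^ (n - 1)) := by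
          refine lintegral_mono fun r => ?_
          rw [← Finset.sum_mul]
          exact mul_le_mul_left (hAB r) _
      _ = ∑ m, ∫⁻ r in Ioi (0 : ℝ), B m r * ENNReal.ofReal (r ^ (n - 1)) :=
          lintegral_finsetSum _ fun m _ => (hBm m).mul hpm
      _ ≤ ∑ m, c * ∫⁻ ρ in Ioi (0 : ℝ), ‖G m ρ‖ₑ ^ 2 * ENNReal.ofReal ρ⁻¹ := by
          refine Finset.sum_le_sum fun m _ => ?_
          refine le_trans ?_ (Hv_le hq hH (hGm m) (hNS m))
          exact setLIntegral_mono' measurableSet_Ioi (hB1 m)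
      _ = c * ∑ m, ∫⁻ ρ in Ioi (0 : ℝ), ‖G m ρ‖ₑ ^ 2 * ENNReal.ofReal ρ⁻¹ := by
          rw [Finset.mul_sum]
      _ ≤ c * (CG * ∫⁻ ξ, ‖𝓕 f ξ‖ₑ ^ 2) := by gcongr
      _ = ((CH * CG : ℝ≥0) : ℝ≥0∞) * ENNReal.ofReal (kr q ^ 14) * ∫⁻ x, ‖f x‖ₑ ^ 2 := by
          rw [hpl, hc]
          push_cast
          ring
  calc ∫⁻ r in Ioi (0 : ℝ), VS q f r ^ 2 * ENNReal.ofReal (r ^ (n - 1))
      ≤ ∫⁻ r in Ioi (0 : ℝ), ⨆ K, A K r * ENNReal.ofReal (r ^ (n - 1)) := by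
        refine lintegral_mono fun r => ?_
        rw [← ENNReal.iSup_mul]
        exact mul_le_mul_left (hA1 r) _
    _ = ⨆ K, ∫⁻ r in Ioi (0 : ℝ), A K r * ENNReal.ofReal (r ^ (n - 1)) := by
        refine lintegral_iSup (fun K => (hAm K).mul hpm) fun a b hab r => ?_
        exact mul_le_mul_left (hAmono hab r) _
    _ ≤ _ := iSup_le bound

end Pool.Agent.VRR
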