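import Pool.Agent.VRR.Targets
import Pool.Agent.VRC.P_VRB

set_option autoImplicit false

/-!
# VRR: restricted estimate, `vol F ≤ vol E`
-/

namespace Pool.Agent.VRR

open MeasureTheory Set ComplexConjugate
open scoped ENNReal NNReal
open Pool.Agent.CAR
open Pool.Agent.VRC (PQ Act vc vav GG2 NJ da ps Gm bp Yk)

namespace RB_

open Pool.Agent.CAR.RB_ (bf_integrable bf_sq bf_integrable_sq bf_n2 cf_zero)
open Pool.Agent.VRC.VRB_ (meas_act vc_add q_ENF')

/-! ### real numbers -/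

/-- `vf^(1-1/r) ve^(1/r)` -/
noncomputable def X (r vf ve : ℝ) : ℝ := vf ^ (1 - 1 / r) * ve ^ (1 / r)

theorem X_nonneg {r vf ve : ℝ} (hf : 0 ≤ vf) (he : 0 ≤ ve) : 0 ≤ X r vf ve :=
  mul_nonneg (Real.rpow_nonneg hf _) (Real.rpow_nonneg he _)

theorem X_mono {r vf v v' : ℝ} (hr : 0 < r) (hf : 0 ≤ vf) (hv : 0 ≤ v') (h : v' ≤ v) :
    X r vf v' ≤ X r vf v :=
  mul_le_mul_of_nonneg_left (Real.rpow_le_rpow hv h (by positivity)) (Real.rpow_nonneg hf _)

theorem X_half {r vf ve : ℝ} (hr : 0 < r) (hr4 : r ≤ 4) (hf : 0 ≤ vf) (he : 0 ≤ ve) :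
    X r vf (ve / 16) ≤ X r vf ve / 2 := by
  unfold X
  have h1 : (ve / 16) ^ (1 / r) = ve ^ (1 / r) / 16 ^ (1 / r) :=
    Real.div_rpow he (by norm_num) _
  have h2 : (2 : ℝ) ≤ 16 ^ (1 / r) := by
    have h3 : (2 : ℝ) = 16 ^ (1 / 4 : ℝ) := by
      rw [show (16 : ℝ) = 2 ^ (4 : ℝ) by norm_num, ← Real.rpow_mul (by norm_num)]
      norm_num
    have h4 : (16 : ℝ) ^ (1 / 4 : ℝ) ≤ 16 ^ (1 / r) :=
      Real.rpow_le_rpow_of_exponent_le (by norm_num) (one_div_le_one_div_of_le hr hr4)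
    linarith
  rw [h1, mul_div_assoc]
  refine mul_le_mul_of_nonneg_left ?_ (Real.rpow_nonneg hf _)
  exact div_le_div_of_nonneg_left (Real.rpow_nonneg he _) (by norm_num) h2

/-- `X = ve δ^(1-1/r)` -/
theorem X_eq {r vf ve : ℝ} (hf : 0 < vf) (he : 0 < ve) :
    X r vf ve = ve * (vf / ve) ^ (1 - 1 / r) := by
  unfold X
  have h1 : ve ^ (1 / r) = ve / ve ^ (1 - 1 / r) := by
    rw [eq_div_iff (Real.rpow_pos_of_pos he _).ne', ← Real.rpow_add he]
    ring_nf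
    exact Real.rpow_one ve
  rw [h1, Real.div_rpow hf.le he.le]
  ring

/-- `X = vf δ^(-1/r)` -/
theorem X_eq2 {r vf ve : ℝ} (hf : 0 < vf) (he : 0 < ve) :
    X r vf ve = vf * (vf / ve) ^ (-(1 / r)) := by
  unfold X
  have h1 : vf ^ (1 - 1 / r) = vf * vf ^ (-(1 / r)) := by
    rw [sub_eq_add_neg, Real.rpow_add hf, Real.rpow_one]
  have h2 : (vf / ve) ^ (-(1 / r)) = vf ^ (-(1 / r)) * ve ^ (1 / r) := by
    rw [Real.div_rpow hf.le he.le, Real.rpow_neg he.le (1 / r), div_inv_eq_mul]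
  rw [h1, h2]
  ring

/-- the bound for the light tiles -/
theorem light {C1 C2 C3 vf ve r : ℝ} (h1 : 0 < C1) (h2 : 0 < C2) (h3 : 0 < C3) (hf : 0 < vf)
    (h : vf ≤ ve) (hr : 2 < r) :
    C3 * ve * (Real.sqrt C2 * (16 * C1 * vf / ve) +
      Real.sqrt (vf / ve) ^ (2 / r) * (Real.sqrt C2 * (16 * C1 * vf / ve)) ^ (1 - 2 / r)) ≤
    C3 * (1 + 2 * (16 * C1 * Real.sqrt C2)) * X r vf ve := by
  have he : 0 < ve := lt_of_lt_of_le hf h
  have hr0 : 0 < r := by linarith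
  have hs2 : 0 < Real.sqrt C2 := Real.sqrt_pos.2 h2
  rw [X_eq hf he]
  obtain ⟨δ, hδ⟩ : ∃ δ, δ = vf / ve := ⟨_, rfl⟩
  have hδ0 : 0 < δ := by rw [hδ]; positivity
  have hδ1 : δ ≤ 1 := by rw [hδ, div_le_one he]; exact h
  obtain ⟨c, hc⟩ : ∃ c, c = 16 * C1 * Real.sqrt C2 := ⟨_, rfl⟩
  have hc0 : 0 < c := by rw [hc]; positivity
  have e0 : Real.sqrt C2 * (16 * C1 * vf / ve) = c * δ := by
    rw [hc, hδ]
    ring
  have i1 : 1 / r ≤ 1 := by rw [div_le_one hr0]; linarith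
  have i0 : 0 < 1 / r := by positivity
  have i2 : 2 / r ≤ 1 := by rw [div_le_one hr0]; linarith
  have i3 : 0 < 2 / r := by positivity
  have e1 : Real.sqrt δ ^ (2 / r) = δ ^ (1 / r) := by
    rw [Real.sqrt_eq_rpow, ← Real.rpow_mul hδ0.le]
    congr 1
    ring
  have e2 : (c * δ) ^ (1 - 2 / r) = c ^ (1 - 2 / r) * δ ^ (1 - 2 / r) :=
    Real.mul_rpow hc0.le hδ0.le
  have e3 : δ ^ (1 / r) * δ ^ (1 - 2 / r) = δ ^ (1 - 1 / r) := by
    rw [← Real.rpow_add hδ0]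
    congr 1
    ring
  have e4 : δ ≤ δ ^ (1 - 1 / r) := by
    have := Real.rpow_le_rpow_of_exponent_ge hδ0 hδ1 (show 1 - 1 / r ≤ 1 by linarith)
    rwa [Real.rpow_one] at this
  have e5 : c ^ (1 - 2 / r) ≤ 1 + c := by
    rcases le_total c 1 with h7 | h7
    · have := Real.rpow_le_one hc0.le h7 (show 0 ≤ 1 - 2 / r by linarith)
      linarith
    · have := Real.rpow_le_rpow_of_exponent_le h7 (show 1 - 2 / r ≤ 1 by linarith)
      rw [Real.rpow_one] at this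
      linarith
  have hD : 0 < δ ^ (1 - 1 / r) := Real.rpow_pos_of_pos hδ0 _
  rw [← hδ, e0, e1, e2]
  have e6 : δ ^ (1 / r) * (c ^ (1 - 2 / r) * δ ^ (1 - 2 / r)) =
      c ^ (1 - 2 / r) * δ ^ (1 - 1 / r) := by
    rw [← e3]
    ring
  rw [e6]
  have e7 : c * δ + c ^ (1 - 2 / r) * δ ^ (1 - 1 / r) ≤ (1 + 2 * c) * δ ^ (1 - 1 / r) := by
    have := mul_le_mul_of_nonneg_left e4 hc0.le
    have := mul_le_mul_of_nonneg_right e5 hD.le
    linarith
  have e8 := mul_le_mul_of_nonneg_left e7 (show 0 ≤ C3 * ve by positivity)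
  rw [← hc]
  linarith

/-- the bound for the heavy tiles outside the exceptional set -/
theorem heavyR {C1 vf ve r : ℝ} (h1 : 0 < C1) (hf : 0 < vf) (he : 0 < ve) (hr : 2 < r) :
    vf * (16 * C1 * vf / ve) ^ (-(1 / r)) ≤ (1 + (16 * C1)⁻¹) * X r vf ve := by
  rw [X_eq2 hf he]
  have hr0 : 0 < r := by linarith
  have i1 : 1 / r ≤ 1 := by rw [div_le_one hr0]; linarith
  have i0 : 0 < 1 / r := by positivity
  have e2 : 16 * C1 * vf / ve = 16 * C1 * (vf / ve) := by ring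
  have e3 : (16 * C1) ^ (-(1 / r)) ≤ 1 + (16 * C1)⁻¹ := by
    obtain ⟨c, hc⟩ : ∃ c, c = 16 * C1 := ⟨_, rfl⟩
    have hc0 : 0 < c := by rw [hc]; positivity
    rw [← hc]
    rcases le_total c 1 with h7 | h7
    · have := Real.rpow_le_rpow_of_exponent_ge hc0 h7 (show (-1 : ℝ) ≤ -(1 / r) by linarith)
      rw [Real.rpow_neg_one] at this
      linarith
    · have := Real.rpow_le_one_of_one_le_of_nonpos h7 (show -(1 / r) ≤ 0 by linarith)
      have : 0 < c⁻¹ := by positivity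
      linarith
  rw [e2, Real.mul_rpow (by positivity) (by positivity)]
  have h5 : 0 ≤ vf * (vf / ve) ^ (-(1 / r)) := by positivity
  have := mul_le_mul_of_nonneg_right e3 h5
  linarith

/-! ### the weights -/

theorem a_le_one {r : ℝ} (hr : 0 < rc r) {L : ℕ} {a : ℕ → ℝ → ℂ} {E : Set ℝ}
    (h : AB r L a 1 E) {j : ℕ} (hj : j < L) (x : ℝ) : ‖a j x‖ ≤ 1 := by
  have h1 := h.bd x
  rw [Real.one_rpow] at h1
  have h2 : ‖a j x‖ ^ rc r ≤ 1 :=
    (Finset.single_le_sum (f := fun j => ‖a j x‖ ^ rc r)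
      (fun i _ => Real.rpow_nonneg (norm_nonneg _) _) (Finset.mem_range.2 hj)).trans h1
  by_contra h3
  push Not at h3
  exact absurd h2 (not_le.2 (Real.one_lt_rpow h3 hr))

theorem ab_ind {r : ℝ} (hr : 0 < rc r) {L : ℕ} {a : ℕ → ℝ → ℂ} {E G : Set ℝ}
    (h : AB r L a 1 E) (hG : MeasurableSet G) :
    AB r L (fun j => G.indicator (a j)) 1 (E ∩ G) := by
  refine ⟨fun j => (h.ma j).indicator hG, h.mE.inter hG, ?_, h.h0, fun x => ?_,
    fun j hj x hx => ?_⟩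
  · exact ne_top_of_le_ne_top h.fE (measure_mono inter_subset_left)
  · by_cases hx : x ∈ G
    · simp only [indicator_of_mem hx]
      exact h.bd x
    · simp only [indicator_of_notMem hx, norm_zero]
      rw [Real.one_rpow, Real.zero_rpow hr.ne', Finset.sum_const_zero]
      exact zero_le_one
  · show G.indicator (a j) x = 0
    by_cases hxG : x ∈ G
    · rw [indicator_of_mem hxG]
      exact h.z j hj x (fun hxE => hx ⟨hxE, hxG⟩)
    · exact indicator_of_notMem hxG _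

theorem meas_vc {r : ℝ} {L : ℕ} {p q : ℕ → ℝ → ℝ} {a : ℕ → ℝ → ℂ} {E : Set ℝ} (h : PQ L p q)
    (ha : AB r L a 1 E) (s : Tile) : Measurable (vc L p q a s) := by
  unfold vc
  exact Finset.measurable_fun_sum _ fun j _ => (ha.ma j).indicator (meas_act h s j)

theorem vc_le {r : ℝ} (hr : 0 < rc r) {L : ℕ} {p q : ℕ → ℝ → ℝ} {a : ℕ → ℝ → ℂ} {E : Set ℝ}
    (ha : AB r L a 1 E) (s : Tile) (x : ℝ) : ‖vc L p q a s x‖ ≤ L := by
  unfold vc
  calc ‖∑ j ∈ Finset.range L, (Act p q s j).indicator (a j) x‖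
      ≤ ∑ j ∈ Finset.range L, ‖(Act p q s j).indicator (a j) x‖ := norm_sum_le _ _
    _ ≤ ∑ _j ∈ Finset.range L, (1 : ℝ) := by
        refine Finset.sum_le_sum fun j hj => ?_
        refine (norm_indicator_le_norm_self _ _).trans ?_
        exact a_le_one hr ha (Finset.mem_range.1 hj) x
    _ = L := by simp

theorem vav_split {r : ℝ} (hr : 0 < rc r) {A : ℝ} {φ Φ : ℝ → ℂ} {L : ℕ} {p q : ℕ → ℝ → ℝ}
    {a : ℕ → ℝ → ℂ}
    {E G : Set ℝ} (hW : WPk A φ Φ) (hP : PQ L p q) (h : AB r L a 1 E) (hG : MeasurableSet G)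
    (s : Tile) : ‖vav φ L p q a s‖ ≤ ‖vav φ L p q (fun j => Gᶜ.indicator (a j)) s‖ +
      ‖vav φ L p q (fun j => G.indicator (a j)) s‖ := by
  have hfx := (p_FXB A φ Φ hW s).2.2.2.2.2.1
  have h1 := ab_ind hr h hG
  have h2 := ab_ind hr h hG.compl
  have i1 : Integrable (fun x => vc L p q (fun j => G.indicator (a j)) s x * fx φ s x) :=
    hfx.bdd_mul (c := L) (meas_vc hP h1 s).aestronglyMeasurable
      (Filter.Eventually.of_forall (vc_le hr h1 s))
  have i2 : Integrable (fun x => vc L p q (fun j => Gᶜ.indicator (a j)) s x * fx φ s x) :=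
    hfx.bdd_mul (c := L) (meas_vc hP h2 s).aestronglyMeasurable
      (Filter.Eventually.of_forall (vc_le hr h2 s))
  have e : vav φ L p q a s = vav φ L p q (fun j => Gᶜ.indicator (a j)) s +
      vav φ L p q (fun j => G.indicator (a j)) s := by
    unfold vav
    rw [← integral_add i2 i1]
    refine integral_congr_ae (Filter.Eventually.of_forall fun x => ?_)
    show vc L p q a s x * fx φ s x = vc L p q (fun j => Gᶜ.indicator (a j)) s x * fx φ s x +
      vc L p q (fun j => G.indicator (a j)) s x * fx φ s x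
    rw [vc_add L p q a G s x, add_mul]
  rw [e]
  exact norm_add_le _ _

/-- light tiles -/
theorem lightS {A C1 C2 C3 r : ℝ} (h1 : 0 < C1) (h2 : 0 < C2) (h3 : 0 < C3) (hr2 : 2 < r)
    (hENF : ∀ φ Φ : ℝ → ℂ, WPk A φ Φ → ∀ (F : Set ℝ) (f : ℝ → ℂ) (lam : ℝ), BF 1 F f →
      0 < lam → ∀ (T : Finset Tile) (K Λ : ℤ) (ξ : ℝ), PTree T K Λ ξ →
      (∀ s ∈ T, ∀ k l : ℤ, s.I ⊆ dy k l → ¬ heavy lam F k l) →
        ∑ s ∈ T, ‖cf φ f s‖ ^ 2 ≤ C2 * lam ^ 2 * (2 : ℝ) ^ K)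
    (hSUM : ∀ φ Φ g : ℝ → ℂ, WPk A φ Φ → GG2 g →
      ∀ (L : ℕ) (p q : ℕ → ℝ → ℝ) (a : ℕ → ℝ → ℂ) (E : Set ℝ), PQ L p q → AB r L a 1 E →
      ∀ (S : Finset Tile) (ρ e0 : ℝ), 0 < ρ → 0 < e0 → n2 g ≤ ρ * Real.sqrt (vol E) →
      En (cc Φ g) S e0 →
        ∑ s ∈ S, cc Φ g s * ‖vav φ L p q a s‖ ≤
          C3 * vol E * (e0 + ρ ^ (2 / r) * e0 ^ (1 - 2 / r)))
    {φ Φ : ℝ → ℂ} (hW : WPk A φ Φ) {f : ℝ → ℂ} {F : Set ℝ} {L : ℕ} {p q : ℕ → ℝ → ℝ}
    {a : ℕ → ℝ → ℂ} {E : Set ℝ} (hf : BF 1 F f) (hP : PQ L p q)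
    (ha : AB r L a 1 E) (hvF : 0 < vol F) (h : vol F ≤ vol E) (S : Finset Tile)
    (hS : ∀ s ∈ S, ∀ k l : ℤ, s.I ⊆ dy k l → ¬ heavy (16 * C1 * vol F / vol E) F k l) :
    ∑ s ∈ S, ‖cf φ f s‖ * ‖vav φ L p q a s‖ ≤
      C3 * (1 + 2 * (16 * C1 * Real.sqrt C2)) * X r (vol F) (vol E) := by
  obtain ⟨g, hgm, hgi, hgs, hg2, hgc⟩ :=
    p_TRF A φ Φ hW f hf.m (bf_integrable hf) (bf_integrable_sq hf) S
  have hvE : 0 < vol E := lt_of_lt_of_le hvF h
  have hD : GG2 g := ⟨hgm, hgi, hgs⟩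
  have hl : 0 < 16 * C1 * vol F / vol E := by positivity
  have hs2 : 0 < Real.sqrt C2 := Real.sqrt_pos.2 h2
  have hEn : En (cc Φ g) S (Real.sqrt C2 * (16 * C1 * vol F / vol E)) := by
    intro T K Λ ξ hTS hT
    have h4 := hENF φ Φ hW F f _ hf hl T K Λ ξ hT (fun s hs => hS s (hTS hs))
    calc ∑ s ∈ T, cc Φ g s ^ 2 = ∑ s ∈ T, ‖cf φ f s‖ ^ 2 :=
          Finset.sum_congr rfl fun s hs => by rw [cc, hgc s (hTS hs)]
      _ ≤ _ := h4
      _ = _ := by rw [mul_pow, Real.sq_sqrt h2.le]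
  have hr : n2 g ≤ Real.sqrt (vol F / vol E) * Real.sqrt (vol E) := by
    rw [← Real.sqrt_mul (by positivity), div_mul_cancel₀ _ hvE.ne']
    exact hg2.trans (bf_n2 hf)
  have h5 := hSUM φ Φ g hW hD L p q a E hP ha S (Real.sqrt (vol F / vol E))
    (Real.sqrt C2 * (16 * C1 * vol F / vol E)) (Real.sqrt_pos.2 (by positivity))
    (by positivity) hr hEn
  calc ∑ s ∈ S, ‖cf φ f s‖ * ‖vav φ L p q a s‖ = ∑ s ∈ S, cc Φ g s * ‖vav φ L p q a s‖ :=
        Finset.sum_congr rfl fun s hs => by rw [cc, hgc s hs]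
    _ ≤ _ := h5
    _ ≤ _ := light h1 h2 h3 hvF h hr2

end RB_

open RB_ in
open Pool.Agent.CAR.RB_ (cf_zero) in
open Pool.Agent.VRC.VRB_ (q_ENF') in
open Classical in
theorem p_RB (h0 : T_REX) (h1 : T_SUM) (h2 : T_TAI) (h3 : T_RA) : T_RB := by
  intro A
  obtain ⟨C1, h1', hEXC⟩ := p_EXC
  obtain ⟨C2, h2', hENF⟩ := q_ENF' A
  obtain ⟨D3, hD3, hSUM'⟩ := h1 A
  obtain ⟨D5, hD5, hTAI⟩ := h2 A
  obtain ⟨D6, hD6, hRA'⟩ := h3 A
  have hs2 : 0 < Real.sqrt C2 := Real.sqrt_pos.2 h2'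
  refine ⟨2 * (D3 * (1 + 2 * (16 * C1 * Real.sqrt C2)) + D5 * (1 + (16 * C1)⁻¹) + D6),
    by positivity, ?_⟩
  intro r hr2 hr4 φ Φ hW f F L p q a E hf hP ha hFE S
  obtain ⟨hrc, -, -, -, -, -, -, -, hK2, -⟩ := h0 r hr2 hr4
  have hr0 : 0 < r := by linarith
  have hrc0 : 0 < rc r := by linarith
  have hK : 1 ≤ kr r ^ 2 := by nlinarith
  have hKp : 0 < kr r ^ 2 := by linarith
  have i1 : 1 / r ≤ 1 := by rw [div_le_one hr0]; linarith
  have i0 : 0 < 1 / r := by positivity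
  have hSUM := hSUM' r hr2 hr4
  have hRA := hRA' r hr2 hr4
  obtain ⟨C4, hC4⟩ : ∃ C4, C4 = D3 * kr r ^ 2 * (1 + 2 * (16 * C1 * Real.sqrt C2)) := ⟨_, rfl⟩
  obtain ⟨C5, hC5⟩ : ∃ C5, C5 = D5 * (1 + (16 * C1)⁻¹) * kr r ^ 2 := ⟨_, rfl⟩
  obtain ⟨C6, hC6⟩ : ∃ C6, C6 = D6 * kr r ^ 2 := ⟨_, rfl⟩
  have h4 : 0 < C4 := by
    rw [hC4]
    positivity
  have h5 : 0 < C5 := by
    rw [hC5]
    positivity
  have h6 : 0 < C6 := by
    rw [hC6]
    positivity
  rw [← hC6] at hRA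
  have hCC : 2 * (D3 * (1 + 2 * (16 * C1 * Real.sqrt C2)) + D5 * (1 + (16 * C1)⁻¹) + D6) *
      kr r ^ 2 = 2 * (C4 + C5 + C6) := by
    rw [hC4, hC5, hC6]
    ring
  rw [hCC]
  change _ ≤ 2 * (C4 + C5 + C6) * X r (vol F) (vol E)
  have hvE0 : 0 ≤ vol E := ENNReal.toReal_nonneg
  rcases (ENNReal.toReal_nonneg : 0 ≤ vol F).eq_or_lt with h0 | hvF
  · have : ∑ s ∈ S, ‖cf φ f s‖ * ‖vav φ L p q a s‖ = 0 :=
      Finset.sum_eq_zero fun s _ => by rw [cf_zero hf h0.symm s, norm_zero, zero_mul]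
    rw [this]
    have := X_nonneg (r := r) (vf := vol F) (ve := vol E) ENNReal.toReal_nonneg hvE0
    positivity
  change 0 < vol F at hvF
  have key : ∀ n : ℕ, ∀ (a : ℕ → ℝ → ℂ) (E : Set ℝ), AB r L a 1 E → vol F ≤ vol E →
      vol E ≤ 16 ^ n * vol F → ∀ S : Finset Tile, ∑ s ∈ S, ‖cf φ f s‖ * ‖vav φ L p q a s‖ ≤
        2 * (C4 + C5 + C6) * X r (vol F) (vol E) := by
    intro n
    induction n with
    | zero =>
      intro a E ha hFE hEn S
      rw [pow_zero, one_mul] at hEn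
      have e : vol E = vol F := le_antisymm hEn hFE
      have h7 := hRA φ Φ hW f F L p q a E hf hP ha hEn S
      have hX := X_nonneg (r := r) (vf := vol F) (ve := vol E) hvF.le ENNReal.toReal_nonneg
      rw [e] at h7 hX ⊢
      exact h7.trans (mul_le_mul_of_nonneg_right (by linarith) hX)
    | succ n ih =>
      intro a E ha hFE hEn S
      have hvE : 0 < vol E := lt_of_lt_of_le hvF hFE
      obtain ⟨lam, hlam⟩ : ∃ lam, lam = 16 * C1 * vol F / vol E := ⟨_, rfl⟩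
      have hl : 0 < lam := by rw [hlam]; positivity
      obtain ⟨hGm, hGv⟩ := hEXC lam F hf.mF hf.fF hl
      have hGv' : volume (GG lam F) ≤ ENNReal.ofReal (vol E / 16) := by
        refine hGv.trans (le_of_eq ?_)
        congr 1
        rw [hlam]
        field_simp
      have hhalf := X_half (vf := vol F) (ve := vol E) hr0 hr4 hvF.le hvE.le
      have hXnn : 0 ≤ X r (vol F) (vol E) := X_nonneg hvF.le hvE.le
      obtain ⟨P, hPd⟩ : ∃ P : Tile → Prop,
        P = fun s => ∃ k l : ℤ, s.I ⊆ dy k l ∧ heavy lam F k l := ⟨_, rfl⟩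
      rw [← Finset.sum_filter_add_sum_filter_not S P]
      have hlight : ∑ s ∈ S.filter (fun s => ¬ P s), ‖cf φ f s‖ * ‖vav φ L p q a s‖ ≤
          C4 * X r (vol F) (vol E) := by
        rw [hC4]
        refine lightS h1' h2' (by positivity) hr2 hENF hSUM hW hf hP ha hvF hFE _ ?_
        intro s hs k l hsub hh
        rw [← hlam] at hh
        apply (Finset.mem_filter.1 hs).2
        rw [hPd]
        exact ⟨k, l, hsub, hh⟩
      have ha1 := ab_ind hrc0 ha hGm.compl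
      have ha2 := ab_ind hrc0 ha hGm
      have hheavy : ∑ s ∈ S.filter P, ‖cf φ f s‖ * ‖vav φ L p q a s‖ ≤
          ∑ s ∈ S.filter P, ‖cf φ f s‖ *
            ‖vav φ L p q (fun j => (GG lam F)ᶜ.indicator (a j)) s‖ +
          ∑ s ∈ S.filter P, ‖cf φ f s‖ *
            ‖vav φ L p q (fun j => (GG lam F).indicator (a j)) s‖ := by
        rw [← Finset.sum_add_distrib]
        refine Finset.sum_le_sum fun s _ => ?_
        rw [← mul_add]
        exact mul_le_mul_of_nonneg_left (vav_split hrc0 hW hP ha hGm s) (norm_nonneg _)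
      have hfirst : ∑ s ∈ S.filter P, ‖cf φ f s‖ *
          ‖vav φ L p q (fun j => (GG lam F)ᶜ.indicator (a j)) s‖ ≤
          C5 * X r (vol F) (vol E) := by
        refine (hTAI r hr2 hr4 φ Φ hW f F L p q _ _ lam hf hP ha1 hl (fun x hx => hx.2) _
          (fun s hs => ?_)).trans ?_
        · have := (Finset.mem_filter.1 hs).2
          rwa [hPd] at this
        · have h15 := heavyR h1' hvF hvE hr2
          rw [← hlam] at h15
          have h16 := mul_le_mul_of_nonneg_left h15 hD5.le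
          have h17 : 0 ≤ D5 * (1 + (16 * C1)⁻¹) * X r (vol F) (vol E) := by positivity
          have h18 := mul_le_mul_of_nonneg_left hK h17
          rw [hC5]
          calc D5 * vol F * lam ^ (-(1 / r)) = D5 * (vol F * lam ^ (-(1 / r))) := by ring
            _ ≤ _ := h16
            _ = D5 * (1 + (16 * C1)⁻¹) * X r (vol F) (vol E) * 1 := by ring
            _ ≤ _ := h18
            _ = _ := by ring
      have hvE1 : vol (E ∩ GG lam F) ≤ vol E / 16 := by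
        have h8 : volume (E ∩ GG lam F) ≤ ENNReal.ofReal (vol E / 16) :=
          (measure_mono inter_subset_right).trans hGv'
        exact ENNReal.toReal_le_of_le_ofReal (by positivity) h8
      have hvE2 : 0 ≤ vol (E ∩ GG lam F) := ENNReal.toReal_nonneg
      have hsecond : ∑ s ∈ S.filter P, ‖cf φ f s‖ *
          ‖vav φ L p q (fun j => (GG lam F).indicator (a j)) s‖ ≤
          C6 * X r (vol F) (vol E) + (C4 + C5 + C6) * X r (vol F) (vol E) := by
        rcases le_total (vol (E ∩ GG lam F)) (vol F) with h9 | h9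
        · have h10 := hRA φ Φ hW f F L p q _ _ hf hP ha2 h9 (S.filter P)
          have h11 : vol (E ∩ GG lam F) ^ (1 - 1 / r) * vol F ^ (1 / r) ≤
              X r (vol F) (vol E) :=
            mul_le_mul (Real.rpow_le_rpow hvE2 h9 (by linarith))
              (Real.rpow_le_rpow hvF.le hFE i0.le) (Real.rpow_nonneg hvF.le _)
              (Real.rpow_nonneg hvF.le _)
          have h12 := mul_le_mul_of_nonneg_left h11 h6.le
          have h13 : 0 ≤ (C4 + C5 + C6) * X r (vol F) (vol E) := by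
            positivity
          linarith
        · have h10 := ih _ _ ha2 h9 (by rw [pow_succ] at hEn; linarith) (S.filter P)
          have h11 := (X_mono hr0 hvF.le hvE2 hvE1).trans hhalf
          have h12 := mul_le_mul_of_nonneg_left h11
            (show (0 : ℝ) ≤ 2 * (C4 + C5 + C6) by positivity)
          have h13 : 0 ≤ C6 * X r (vol F) (vol E) := by
            positivity
          have h14 : 2 * (C4 + C5 + C6) * (X r (vol F) (vol E) / 2) =
            (C4 + C5 + C6) * X r (vol F) (vol E) := by ring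
          linarith
      linarith
  obtain ⟨n, hn⟩ := pow_unbounded_of_one_lt (vol E / vol F) (by norm_num : (1 : ℝ) < 16)
  refine key n a E ha hFE ?_ S
  rw [div_lt_iff₀ hvF] at hn
  exact hn.le

end Pool.Agent.VRR
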