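import Pool.Agent.VRR.Targets
import Pool.Agent.VRC.P_VREF

/-!
# VRR, target REF: reflection
-/

set_option autoImplicit false

namespace Pool.Agent.VRR

open MeasureTheory Set ComplexConjugate
open scoped ENNReal NNReal
open Pool.Agent.CAR
open Pool.Agent.VRC (PQ Act vc vav GG2 NJ da ps Gm bp Yk)

namespace REF_

open Pool.Agent.VRC.VREF_ (rf)

lemma ab {r : ℝ} {L : ℕ} {a : ℕ → ℝ → ℂ} {h : ℝ} {E : Set ℝ} (hA : AB r L a h E) :
    AB r L (rf L a) h (Neg.neg ⁻¹' E) where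
  ma j := (hA.ma (L - 1 - j)).comp measurable_neg
  mE := measurable_neg hA.mE
  fE := by
    rw [(Measure.measurePreserving_neg (volume : Measure ℝ)).measure_preimage
      hA.mE.nullMeasurableSet]
    exact hA.fE
  h0 := hA.h0
  bd x := by
    have e : ∑ j ∈ Finset.range L, ‖rf L a j x‖ ^ rc r =
        ∑ j ∈ Finset.range L, ‖a j (-x)‖ ^ rc r :=
      Finset.sum_range_reflect (fun j => ‖a j (-x)‖ ^ rc r) L
    rw [e]
    exact hA.bd (-x)
  z j hj x hx := hA.z (L - 1 - j) (by omega) (-x) hx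

lemma amp_rf (r : ℝ) (L : ℕ) (a : ℕ → ℝ → ℂ) (x : ℝ) :
    amp r L (rf L a) x = amp r L a (-x) := by
  unfold amp
  congr 1
  exact Finset.sum_range_reflect (fun j => ‖a j (-x)‖ ^ rc r) L

lemma na_rf (r : ℝ) (L : ℕ) (a : ℕ → ℝ → ℂ) : na r L (rf L a) = na r L a := by
  unfold na
  have e : (fun x => amp r L (rf L a) x ^ 2) = fun x => (fun y => amp r L a y ^ 2) (-x) := by
    funext x
    rw [amp_rf]
  rw [e, integral_neg_eq_self (fun y => amp r L a y ^ 2)]

end REF_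

open REF_ in
open Pool.Agent.VRC.VREF_ (rf pq gg n2_neg inner) in
theorem p_REF : T_REF := by
  intro r ρ C _ _ hR g L p q a h E hg hpq hA
  have key := hR (fun ξ => g (-ξ)) L (fun j x => -rf L q j x) (fun j x => -rf L p j x) (rf L a) h
    (Neg.neg ⁻¹' E) (gg hg) (pq hpq) (ab hA)
  rw [n2_neg, na_rf] at key
  have e : (∫ x, ∑ j ∈ Finset.range L, rf L a j x *
      ∫ ξ, g (-ξ) * (Gm ρ ((-rf L q j x - ξ) / (-rf L q j x - -rf L p j x)) : ℂ) *
        e1 (x * ξ)) =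
      ∫ x, ∑ j ∈ Finset.range L, a j x *
        ∫ ξ, g ξ * (Gm ρ ((ξ - q j x) / (p j x - q j x)) : ℂ) * e1 (x * ξ) := by
    rw [← integral_neg_eq_self (fun x => ∑ j ∈ Finset.range L, a j x *
        ∫ ξ, g ξ * (Gm ρ ((ξ - q j x) / (p j x - q j x)) : ℂ) * e1 (x * ξ))]
    congr 1
    funext x
    rw [← Finset.sum_range_reflect (fun j => a j (-x) *
        ∫ ξ, g ξ * (Gm ρ ((ξ - q j (-x)) / (p j (-x) - q j (-x))) : ℂ) * e1 (-x * ξ)) L]
    refine Finset.sum_congr rfl fun j _ => ?_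
    rw [inner ρ g (rf L p j x) (rf L q j x) x]
    rfl
  rw [e] at key
  exact key

end Pool.Agent.VRR
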