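import Pool.Agent.VRR.Targets
import Pool.Agent.VRC.P_VSCK

set_option autoImplicit false

/-!
# SCK: all dilations, by scaling (variation exponent `r`)
-/

namespace Pool.Agent.VRR

open MeasureTheory Set ComplexConjugate Filter Topology
open scoped ENNReal NNReal
open Pool.Agent.CAR
open Pool.Agent.VRC (PQ GG2)

namespace SCK_

theorem ab {r : ℝ} {L : ℕ} {a : ℕ → ℝ → ℂ} {h : ℝ} {E : Set ℝ} (H : AB r L a h E) {τ : ℝ}
    (hr : 0 < τ) : AB r L (fun j x => a j (τ * x)) h ((fun x => τ * x) ⁻¹' E) := by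
  have hm : Measurable (fun x : ℝ => τ * x) := measurable_const_mul τ
  refine ⟨fun j => (H.ma j).comp hm, hm H.mE, ?_, H.h0, fun x => H.bd _, fun j hj x hx =>
    H.z j hj _ hx⟩
  rw [Real.volume_preimage_mul_left hr.ne']
  exact ENNReal.mul_ne_top ENNReal.ofReal_ne_top H.fE

theorem na_eq (r : ℝ) (L : ℕ) (a : ℕ → ℝ → ℂ) {τ : ℝ} (hr : 0 < τ) :
    na r L (fun j x => a j (τ * x)) = (Real.sqrt τ)⁻¹ * na r L a := by
  unfold na
  have h1 : (∫ x, amp r L (fun j x => a j (τ * x)) x ^ 2) = ∫ x, amp r L a (τ * x) ^ 2 := rfl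
  rw [h1, Measure.integral_comp_mul_left (fun x => amp r L a x ^ 2) τ, abs_of_pos (inv_pos.2 hr),
    smul_eq_mul, Real.sqrt_mul (inv_pos.2 hr).le, Real.sqrt_inv]

end SCK_

open SCK_ Pool.Agent.VRC.VSCK_ in
/-- **SCK** -/
theorem p_SCK (h1 : T_AVB) : T_SCK := by
  intro A ρ hρ
  obtain ⟨C, hC, h⟩ := h1 A ρ hρ
  refine ⟨C, hC, ?_⟩
  intro r hr2 hr4 g L p q a h' E hg hpq hab K τ hτ
  have h2 := h r hr2 hr4 _ L _ _ _ h' _ (gg hg hτ) (pq hpq hτ) (SCK_.ab hab hτ) K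
  have e1' : C * kr r ^ 3 * n2 (fun ξ => g (ξ / τ)) * na r L (fun j x => a j (τ * x)) =
      C * kr r ^ 3 * n2 g * na r L a := by
    rw [SCKS_.n2_eq g hτ, SCK_.na_eq r L a hτ]
    have : Real.sqrt τ ≠ 0 := (Real.sqrt_pos.2 hτ).ne'
    field_simp
  rw [e1'] at h2
  refine le_trans (le_of_eq ?_) h2
  congr 1
  have e2' : (∫ x, GGG ρ (fun ξ => g (ξ / τ)) L (fun j x => τ * p j (τ * x))
      (fun j x => τ * q j (τ * x)) (fun j x => a j (τ * x)) K x) =
      ∫ x, FF ρ g L p q a K τ x := by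
    have e3 := Measure.integral_comp_mul_left (fun x => (τ : ℂ) * FF ρ g L p q a K τ x) τ
    have e4 : (∫ y, (τ : ℂ) * FF ρ g L p q a K τ y) = (τ : ℂ) * ∫ y, FF ρ g L p q a K τ y :=
      integral_const_mul _ _
    rw [abs_of_pos (inv_pos.2 hτ), Complex.real_smul, e4, ← mul_assoc,
      ← Complex.ofReal_mul, inv_mul_cancel₀ hτ.ne', Complex.ofReal_one, one_mul] at e3
    rw [← e3]
    exact integral_congr_ae (Eventually.of_forall fun x => scale ρ g L p q a K hτ x)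
  exact e2'.symm

end Pool.Agent.VRR
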