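import Pool.Agent.VRR.Targets2
import Pool.Agent.CRR.P_SD

set_option autoImplicit false

/-!
VRR-SDV: decay of the strips for the `r`-variation (one strip, one band), constant `C K¹²`.
-/

namespace Pool.Agent.VRR

open MeasureTheory Set Filter Topology
open scoped ENNReal NNReal
open Pool.Agent.CRR (StripD FS fh HH NSol kap aa de la si ww band)

open Pool.Agent.CRR.SD_ in
theorem p_SDV (h0 : T_REX) (h1 : Pool.Agent.CRR.T_SEQ) (h2 : Pool.Agent.CRR.T_PHS) (h3 : T_VCV)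
    (h4 : T_DEV) : T_SDV := by
  obtain ⟨A0, hA0, hP⟩ := h2
  obtain ⟨A, hA⟩ : ∃ A : ℝ, A = max A0 16 := ⟨_, rfl⟩
  have hA1 : A0 ≤ A := by rw [hA]; exact le_max_left _ _
  have hA16 : 16 ≤ A := by rw [hA]; exact le_max_right _ _
  have hAone : 1 ≤ A := by linarith
  obtain ⟨C1, hC1⟩ := h3 A hAone
  obtain ⟨C2, hC2⟩ := h4 A hAone
  refine ⟨C1 * C2, fun r hr2 hr4 ν J J' k j H hν hN hH hb => ?_⟩
  have hK : 2 ≤ kr r := (h0 r hr2 hr4).2.2.2.2.2.2.2.2.1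
  obtain ⟨-, -, hseq⟩ := h1 ν hν
  obtain ⟨-, hd, -, -, hl, -, -, -, h250, -, -⟩ := hseq k
  have hsl : 0 < Real.sqrt (la ν k) := Real.sqrt_pos.2 hl
  have hss : Real.sqrt (la ν k) ^ 2 = la ν k := Real.sq_sqrt hl.le
  have hw0 : 0 < ww ν k := by unfold ww; positivity
  have hw2 : ww ν k ^ 2 * la ν k = 1 / 16 := by
    unfold ww
    rw [div_pow, inv_pow, hss]
    field_simp
    norm_num
  have hwd : ww ν k ≤ de ν k / 32 := by
    have h5 : 8 ≤ Real.sqrt (la ν k) * de ν k := by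
      refine (pow_le_pow_iff_left₀ (by norm_num) (by positivity) two_ne_zero).1 ?_
      rw [mul_pow, hss]
      linarith
    unfold ww
    have h6 : (Real.sqrt (la ν k))⁻¹ * 8 ≤ de ν k := by
      rw [inv_mul_le_iff₀ hsl]
      exact h5
    linarith
  have hinv : 1 / A ≤ 1 / 16 := one_div_le_one_div_of_le (by norm_num) hA16
  have hS : StripD A (aa ν k) (de ν k) (la ν k) (kap J) :=
    stripD_mono (by linarith) hA1 hd hl.le (hP ν J J' k hν hN)
  have key := hC1 r hr2 hr4 (aa ν k) (de ν k) (la ν k) (ww ν k) (kap J) (fh H) hd hl hS hw0 hwd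
    (by rw [hw2]; exact hinv) (by rw [hw2]; norm_num) (fh_cont hH)
  refine key.trans ?_
  have key2 := hC2 r hr2 hr4 ν k j H hν hH hb
  have hq : (0 : ℝ) ≤ ((9 / 10 : ℝ) ^ (k - j + (j - k))) ^ (1 - 2 / r) := by positivity
  calc (C1 : ℝ≥0∞) * ENNReal.ofReal (kr r ^ 6) *
        ∑' i : ℤ, ∫⁻ X in {X : ℝ | la ν k * de ν k / A ≤ |X| ∧
          |X| ≤ A * (la ν k * de ν k)}, NV r (ww ν k) (fh H) i X ^ 2
      ≤ C1 * ENNReal.ofReal (kr r ^ 6) * (C2 * ENNReal.ofReal (kr r ^ 6 *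
          ((9 / 10 : ℝ) ^ (k - j + (j - k))) ^ (1 - 2 / r)) * ∫⁻ s, ‖H s‖ₑ ^ 2) := by
        refine mul_le_mul_right ?_ _
        exact key2
    _ = _ := by
        have e : kr r ^ 12 * ((9 / 10 : ℝ) ^ (k - j + (j - k))) ^ (1 - 2 / r) =
            kr r ^ 6 * (kr r ^ 6 * ((9 / 10 : ℝ) ^ (k - j + (j - k))) ^ (1 - 2 / r)) := by ring
        have e2 : ENNReal.ofReal (kr r ^ 12 * ((9 / 10 : ℝ) ^ (k - j + (j - k))) ^ (1 - 2 / r)) =
            ENNReal.ofReal (kr r ^ 6) *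
              ENNReal.ofReal (kr r ^ 6 * ((9 / 10 : ℝ) ^ (k - j + (j - k))) ^ (1 - 2 / r)) := by
          rw [e, ENNReal.ofReal_mul (by positivity : (0 : ℝ) ≤ kr r ^ 6)]
        rw [e2, ENNReal.coe_mul]
        ring

end Pool.Agent.VRR
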