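import Pool.Agent.VRR.Targets
import Pool.Agent.CAR.P_SMA

set_option autoImplicit false

/-!
# VRR: small tiles (target SMA)
-/

namespace Pool.Agent.VRR

open MeasureTheory Set
open scoped ENNReal NNReal
open Pool.Agent.CAR
open Pool.Agent.VRC (PQ Act vc vav GG2 NJ da ps Gm bp Yk)

namespace SMA_

/-- the final computation -/
theorem fin {r A k2 kn mu V : ℝ} (hr : 2 < r) (hA : 0 < A) (hk : 0 < k2) (hkn : 0 < kn)
    (e : k2 * kn = 1) (hmu : 0 ≤ mu) (hV : 0 ≤ V) :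
    A * ((k2 * mu) ^ (1 - 1 / r) * ((2048 * kn * V) ^ (r - 1) * V) ^ (1 / r)) ≤
      2048 * A * mu ^ (1 - 1 / r) * V := by
  have hr0 : 0 < r := by linarith
  have hB : 0 ≤ 2048 * kn * V := by positivity
  have hir : 1 / r ≤ 1 := by
    rw [div_le_one hr0]
    linarith
  have hir0 : 0 ≤ 1 / r := by positivity
  have ex1 : (r - 1) * (1 / r) = 1 - 1 / r := by
    field_simp
  have e1 : ((2048 * kn * V) ^ (r - 1) * V) ^ (1 / r) =
      (2048 * kn * V) ^ (1 - 1 / r) * V ^ (1 / r) := by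
    rw [Real.mul_rpow (Real.rpow_nonneg hB _) hV, ← Real.rpow_mul hB, ex1]
  have e2 : (k2 * mu) ^ (1 - 1 / r) * (2048 * kn * V) ^ (1 - 1 / r) =
      (2048 : ℝ) ^ (1 - 1 / r) * mu ^ (1 - 1 / r) * V ^ (1 - 1 / r) := by
    rw [← Real.mul_rpow (by positivity) hB, ← Real.mul_rpow (by norm_num) hmu,
      ← Real.mul_rpow (by positivity) hV]
    congr 1
    calc k2 * mu * (2048 * kn * V) = (k2 * kn) * (2048 * mu * V) := by ring
      _ = _ := by rw [e, one_mul]
  have e3 : V ^ (1 - 1 / r) * V ^ (1 / r) = V := by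
    rw [← Real.rpow_add_of_nonneg hV (by linarith) hir0]
    rw [sub_add_cancel, Real.rpow_one]
  have e4 : (2048 : ℝ) ^ (1 - 1 / r) ≤ 2048 := by
    have := Real.rpow_le_rpow_of_exponent_le (show (1 : ℝ) ≤ 2048 by norm_num)
      (show 1 - 1 / r ≤ 1 by linarith)
    rwa [Real.rpow_one] at this
  have h0 : 0 ≤ mu ^ (1 - 1 / r) := Real.rpow_nonneg hmu _
  calc A * ((k2 * mu) ^ (1 - 1 / r) * ((2048 * kn * V) ^ (r - 1) * V) ^ (1 / r))
      = A * (((k2 * mu) ^ (1 - 1 / r) * (2048 * kn * V) ^ (1 - 1 / r)) * V ^ (1 / r)) := by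
        rw [e1]; ring
    _ = A * ((2048 : ℝ) ^ (1 - 1 / r) * mu ^ (1 - 1 / r) *
          (V ^ (1 - 1 / r) * V ^ (1 / r))) := by rw [e2]; ring
    _ = (2048 : ℝ) ^ (1 - 1 / r) * (A * mu ^ (1 - 1 / r) * V) := by rw [e3]; ring
    _ ≤ 2048 * (A * mu ^ (1 - 1 / r) * V) :=
        mul_le_mul_of_nonneg_right e4 (by positivity)
    _ = _ := by ring

/-- powers of numbers in `[0, 1]` -/
theorem rpow_le_self {t p : ℝ} (h0 : 0 ≤ t) (h1 : t ≤ 1) (hp : 1 ≤ p) : t ^ p ≤ t := by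
  have := Real.rpow_le_rpow_of_exponent_ge' h0 h1 zero_le_one hp
  rwa [Real.rpow_one] at this

theorem wt12 {r : ℝ} (hr : 2 < r) (t : ℝ) : wt 12 t ^ r ≤ wt 10 t ^ (r - 1) * wt 10 t := by
  have h1 : wt 12 t ≤ wt 10 t := wt_anti (by norm_num) t
  have h2 : wt 10 t ^ (r - 1) * wt 10 t = wt 10 t ^ r := by
    nth_rewrite 2 [← Real.rpow_one (wt 10 t)]
    rw [← Real.rpow_add_of_nonneg (wt_nonneg _ _) (by linarith) zero_le_one]
    congr 1
    ring
  rw [h2]
  exact Real.rpow_le_rpow (wt_nonneg _ _) h1 (by linarith)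

end SMA_


open SMA_ in
/-- **SMA** -/
theorem p_SMA (h0 : T_REX) (h1 : T_BAS) : T_SMA := by
  intro A
  by_cases hA : 0 < A
  swap
  · exact ⟨1, one_pos, fun r _ _ φ Φ hW => absurd hW.pos hA⟩
  refine ⟨2048 * A, by positivity, ?_⟩
  intro r hr2 hr4 φ Φ hW L p q a E hPQ hAB T κ mu hS hM hmu s hs
  obtain ⟨-, b2, b3, b4, b5, b6, -⟩ := h1 r hr2 hr4 L p q a 1 E hPQ hAB
  obtain ⟨x1, -, x3, -, -, -, -, -, -, -, -, -, hpq, -, -⟩ := h0 r hr2 hr4
  have hrc1 : 1 ≤ rc r := by linarith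
  have hrc0 : 0 < rc r := by linarith
  have hr0 : 0 < r := by linarith
  have hk := two_zpow_pos s.k
  have hkn := two_zpow_pos (-s.k)
  have hr : 0 < Real.sqrt ((2 : ℝ) ^ s.k) := Real.sqrt_pos.2 hk
  have hi : ∀ n, 2 ≤ n → Integrable fun x => wt n (s.u x) := fun n hn => integrable_wt_u hn s
  have mwt : ∀ n, Measurable fun x => wt n (s.u x) := by
    intro n
    have hu : Continuous s.u := by unfold Tile.u; fun_prop
    exact ((continuous_wt n).comp hu).measurable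
  set R : Set ℝ := {x | s.k ≤ κ x + 1} with hR
  have mR : MeasurableSet R := SMB_.meas_R hS.meas s.k
  set V : ℝ := ∫ x in R, wt 10 (s.u x) with hV
  have hV0 : 0 ≤ V := setIntegral_nonneg mR fun x _ => wt_nonneg _ _
  have hvc1 : ∀ x, ‖vc L p q a s x‖ ^ rc r ≤ 1 := by
    intro x
    have h := (b2 s x).trans (b4 s.up x).2.1
    rwa [Real.one_rpow] at h
  -- the two factors
  set f : ℝ → ℝ := fun x => ‖vc L p q a s x‖ * wt 8 (s.u x) with hf
  set g : ℝ → ℝ := fun x => wt 12 (s.u x) with hg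
  have f0 : ∀ x, 0 ≤ f x := fun x => mul_nonneg (norm_nonneg _) (wt_nonneg _ _)
  have g0 : ∀ x, 0 ≤ g x := fun x => wt_nonneg _ _
  have mf : Measurable f := (b5 s).norm.mul (mwt 8)
  have mg : Measurable g := mwt 12
  have fp : ∀ x, f x ^ rc r ≤ ‖vc L p q a s x‖ ^ rc r * wt 8 (s.u x) := by
    intro x
    simp only [hf]
    rw [Real.mul_rpow (norm_nonneg _) (wt_nonneg _ _)]
    exact mul_le_mul_of_nonneg_left (rpow_le_self (wt_nonneg _ _) (wt_le_one _ _) hrc1)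
      (Real.rpow_nonneg (norm_nonneg _) _)
  have if1 : Integrable (fun x => f x ^ rc r) := by
    refine (hi 8 (by norm_num)).mono' (mf.pow_const _).aestronglyMeasurable
      (ae_of_all _ fun x => ?_)
    rw [Real.norm_of_nonneg (Real.rpow_nonneg (f0 x) _)]
    exact (fp x).trans (mul_le_of_le_one_left (wt_nonneg _ _) (hvc1 x))
  have ig1 : Integrable (fun x => g x ^ r) := by
    refine (hi 12 (by norm_num)).mono' (mg.pow_const _).aestronglyMeasurable
      (ae_of_all _ fun x => ?_)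
    rw [Real.norm_of_nonneg (Real.rpow_nonneg (g0 x) _)]
    exact rpow_le_self (wt_nonneg _ _) (wt_le_one _ _) (by linarith)
  have Mf : MemLp f (ENNReal.ofReal (rc r)) (volume.restrict R) := by
    refine (integrable_norm_rpow_iff mf.aestronglyMeasurable ?_ ENNReal.ofReal_ne_top).1 ?_
    · rw [Ne, ENNReal.ofReal_eq_zero]; linarith
    · rw [ENNReal.toReal_ofReal (by linarith)]
      simp only [Real.norm_of_nonneg (f0 _)]
      exact if1.integrableOn
  have Mg : MemLp g (ENNReal.ofReal r) (volume.restrict R) := by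
    refine (integrable_norm_rpow_iff mg.aestronglyMeasurable ?_ ENNReal.ofReal_ne_top).1 ?_
    · rw [Ne, ENNReal.ofReal_eq_zero]; linarith
    · rw [ENNReal.toReal_ofReal (by linarith)]
      simp only [Real.norm_of_nonneg (g0 _)]
      exact ig1.integrableOn
  have hH := integral_mul_le_Lp_mul_Lq_of_nonneg hpq (μ := volume.restrict R)
    (ae_of_all _ f0) (ae_of_all _ g0) Mf Mg
  -- first factor
  have F1 : ∫ x in R, f x ^ rc r ≤ (2 : ℝ) ^ s.k * mu := by
    have c1 : ∫ x in R, f x ^ rc r ≤ ∫ x, f x ^ rc r :=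
      setIntegral_le_integral if1 (ae_of_all _ fun x => Real.rpow_nonneg (f0 x) _)
    have iv : Integrable fun x => wt 8 (s.u x) * vm r L p a s.om x := by
      refine (hi 8 (by norm_num)).mono'
        ((mwt 8).mul (b6 s.om (measurableSet_dy _ _))).aestronglyMeasurable
        (ae_of_all _ fun x => ?_)
      rw [Real.norm_of_nonneg (mul_nonneg (wt_nonneg _ _) (b4 _ _).1)]
      have h := (b4 s.om x).2.1
      rw [Real.one_rpow] at h
      exact mul_le_of_le_one_right (wt_nonneg _ _) h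
    have c2 : ∫ x, f x ^ rc r ≤ ∫ x, wt 8 (s.u x) * vm r L p a s.om x := by
      refine integral_mono if1 iv fun x => ?_
      dsimp only
      refine (fp x).trans ?_
      rw [mul_comm]
      exact mul_le_mul_of_nonneg_left ((b2 s x).trans (b3 _ _ x (up_sub s))) (wt_nonneg _ _)
    have c3 : vdn r L p a s ≤ mu := hM s hs s ⟨subset_rfl, subset_rfl⟩
    have c4 : ∫ x, wt 8 (s.u x) * vm r L p a s.om x = (2 : ℝ) ^ s.k * vdn r L p a s := by
      rw [vdn, integral_const_mul, ← mul_assoc, two_zpow_mul_neg, one_mul]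
    rw [c4] at c2
    exact (c1.trans c2).trans (mul_le_mul_of_nonneg_left c3 hk.le)
  -- second factor
  have F2 : ∫ x in R, g x ^ r ≤ (2048 * (2 : ℝ) ^ (-s.k) * V) ^ (r - 1) * V := by
    rw [hV, ← integral_const_mul]
    refine setIntegral_mono_on ig1.integrableOn ((hi 10 (by norm_num)).integrableOn.const_mul _)
      mR fun x hx => ?_
    refine (wt12 hr2 _).trans ?_
    refine mul_le_mul_of_nonneg_right ?_ (wt_nonneg _ _)
    exact Real.rpow_le_rpow (wt_nonneg _ _) (Pool.Agent.CAR.SMA_.av hS s hx) (by linarith)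
  -- the integrand
  have ifg : Integrable (fun x => f x * g x) := by
    refine (hi 12 (by norm_num)).mono' (mf.mul mg).aestronglyMeasurable
      (ae_of_all _ fun x => ?_)
    rw [Real.norm_of_nonneg (mul_nonneg (f0 x) (g0 x))]
    refine mul_le_of_le_one_left (g0 x) ?_
    have hn : ‖vc L p q a s x‖ ≤ 1 := by
      by_contra hc
      push Not at hc
      have := Real.one_lt_rpow hc hrc0
      linarith [hvc1 x]
    exact mul_le_one₀ hn (wt_nonneg _ _) (wt_le_one _ _)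
  have G1 : ∫ x in R, ‖vc L p q a s x‖ * ‖fx φ s x‖ ≤
      ∫ x in R, (Real.sqrt ((2 : ℝ) ^ s.k))⁻¹ * A * (f x * g x) := by
    refine integral_mono_of_nonneg
      (ae_of_all _ fun x => mul_nonneg (norm_nonneg _) (norm_nonneg _))
      (ifg.integrableOn.const_mul _) (ae_of_all _ fun x => ?_)
    dsimp only
    have e0 : ‖fx φ s x‖ = (Real.sqrt ((2 : ℝ) ^ s.k))⁻¹ * ‖φ (s.u x)‖ := by
      unfold fx
      rw [norm_mul, norm_mul, Complex.norm_real, Real.norm_of_nonneg (by positivity)]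
      have e2 : ‖e1 ((2 : ℝ) ^ (-s.k) * s.m * x)‖ = 1 := by
        unfold e1
        rw [show (2 * Real.pi * Complex.I * (((2 : ℝ) ^ (-s.k) * s.m * x : ℝ) : ℂ)) =
          ((2 * Real.pi * ((2 : ℝ) ^ (-s.k) * s.m * x) : ℝ) : ℂ) * Complex.I by push_cast; ring]
        exact Complex.norm_exp_ofReal_mul_I _
      rw [e2, mul_one]
    have h3 : wt 20 (s.u x) = wt 8 (s.u x) * wt 12 (s.u x) := by rw [← wt_mul]
    have h4 := hW.dec (s.u x)
    rw [h3] at h4
    rw [e0]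
    calc ‖vc L p q a s x‖ * ((Real.sqrt ((2 : ℝ) ^ s.k))⁻¹ * ‖φ (s.u x)‖)
        ≤ ‖vc L p q a s x‖ * ((Real.sqrt ((2 : ℝ) ^ s.k))⁻¹ *
            (A * (wt 8 (s.u x) * wt 12 (s.u x)))) := by
          refine mul_le_mul_of_nonneg_left ?_ (norm_nonneg _)
          exact mul_le_mul_of_nonneg_left h4 (by positivity)
      _ = _ := by simp only [hf, hg]; ring
  rw [integral_const_mul] at G1
  have G2 : ∫ x in R, f x * g x ≤ ((2 : ℝ) ^ s.k * mu) ^ (1 - 1 / r) *
      ((2048 * (2 : ℝ) ^ (-s.k) * V) ^ (r - 1) * V) ^ (1 / r) := by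
    refine hH.trans ?_
    rw [x3]
    refine mul_le_mul ?_ ?_ (Real.rpow_nonneg ?_ _) (Real.rpow_nonneg (by positivity) _)
    · exact Real.rpow_le_rpow (setIntegral_nonneg mR fun x _ => Real.rpow_nonneg (f0 x) _) F1
        (by rw [← x3]; positivity)
    · exact Real.rpow_le_rpow (setIntegral_nonneg mR fun x _ => Real.rpow_nonneg (g0 x) _) F2
        (by positivity)
    · exact setIntegral_nonneg mR fun x _ => Real.rpow_nonneg (g0 x) _
  have hc0 : 0 ≤ (Real.sqrt ((2 : ℝ) ^ s.k))⁻¹ * A := by positivity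
  have e3 : Real.sqrt ((2 : ℝ) ^ s.k) * (Real.sqrt ((2 : ℝ) ^ s.k))⁻¹ = 1 :=
    mul_inv_cancel₀ hr.ne'
  calc Real.sqrt ((2 : ℝ) ^ s.k) * ∫ x in R, ‖vc L p q a s x‖ * ‖fx φ s x‖
      ≤ Real.sqrt ((2 : ℝ) ^ s.k) * ((Real.sqrt ((2 : ℝ) ^ s.k))⁻¹ * A *
          (((2 : ℝ) ^ s.k * mu) ^ (1 - 1 / r) *
            ((2048 * (2 : ℝ) ^ (-s.k) * V) ^ (r - 1) * V) ^ (1 / r))) :=
        mul_le_mul_of_nonneg_left (G1.trans (mul_le_mul_of_nonneg_left G2 hc0)) hr.le
    _ = (Real.sqrt ((2 : ℝ) ^ s.k) * (Real.sqrt ((2 : ℝ) ^ s.k))⁻¹) *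
          (A * (((2 : ℝ) ^ s.k * mu) ^ (1 - 1 / r) *
            ((2048 * (2 : ℝ) ^ (-s.k) * V) ^ (r - 1) * V) ^ (1 / r))) := by ring
    _ = A * (((2 : ℝ) ^ s.k * mu) ^ (1 - 1 / r) *
            ((2048 * (2 : ℝ) ^ (-s.k) * V) ^ (r - 1) * V) ^ (1 / r)) := by rw [e3, one_mul]
    _ ≤ 2048 * A * mu ^ (1 - 1 / r) * V :=
        fin hr2 hA hk hkn (two_zpow_mul_neg s.k) hmu hV0

end Pool.Agent.VRR
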