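import Pool.Agent.VRR.Targets
import Pool.Agent.CAR.P_SPL

set_option autoImplicit false

/-!
# Small and large tiles: splitting and duality (target SPL)
-/

namespace Pool.Agent.VRR

open MeasureTheory Set ComplexConjugate Filter Topology
open scoped ENNReal NNReal
open Pool.Agent.CAR
open Pool.Agent.VRC (PQ Act vc vav)

namespace SPL_

theorem vc_le {r : ℝ} (hr2 : 2 < r) (hr4 : r ≤ 4) {L : ℕ} {p q : ℕ → ℝ → ℝ} {a : ℕ → ℝ → ℂ}
    {E : Set ℝ} (h0 : T_REX) (h1 : T_BAS)
    (hP : PQ L p q) (hA : AB r L a 1 E) (s : Tile) (x : ℝ) : ‖vc L p q a s x‖ ≤ 1 := by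
  have hrc : 0 < rc r := by
    have := (h0 r hr2 hr4).1
    linarith
  obtain ⟨-, b2, -, b4, -⟩ := h1 r hr2 hr4 L p q a 1 E hP hA
  have e1 : ‖vc L p q a s x‖ ^ rc r ≤ 1 := by
    have := (b2 s x).trans (b4 s.up x).2.1
    rwa [Real.one_rpow] at this
  by_contra hcon
  push Not at hcon
  exact absurd e1 (not_le.2 (Real.one_lt_rpow hcon hrc))

end SPL_

open Pool.Agent.CAR.SPL_ Pool.Agent.VRR.SPL_ in
/-- **SPL** -/
theorem p_SPL (h0 : T_REX) (h1 : T_BAS) : T_SPL := by
  classical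
  intro r hr2 hr4 A φ Φ hW L p q a E hP hA c T κ hc hκ
  set S1 : Tile → Set ℝ := fun s => {x | s.k ≤ κ x + 1} with hS1
  set S2 : Tile → Set ℝ := fun s => {x | κ x + 2 ≤ s.k} with hS2
  have m1 : ∀ s, MeasurableSet (S1 s) := fun s =>
    hκ (MeasurableSet.of_discrete (s := {n : ℤ | s.k ≤ n + 1}))
  have m2 : ∀ s, MeasurableSet (S2 s) := fun s =>
    hκ (MeasurableSet.of_discrete (s := {n : ℤ | n + 2 ≤ s.k}))
  have mv : ∀ s, Measurable (vc L p q a s) := (h1 r hr2 hr4 L p q a 1 E hP hA).2.2.2.2.1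
  have hb := Pool.Agent.VRR.SPL_.vc_le hr2 hr4 h0 h1 hP hA
  have ifx := int_fx hW
  have ibf : ∀ s, Integrable fun x => vc L p q a s x * fx φ s x := by
    intro s
    refine (ifx s).norm.mono' ((mv s).aestronglyMeasurable.mul
      (cont_fx hW.cφ s).aestronglyMeasurable) (ae_of_all _ fun x => ?_)
    rw [norm_mul]
    exact mul_le_of_le_one_left (norm_nonneg _) (hb s x)
  set z : Tile → ℂ := fun s => ∫ x in S2 s, vc L p q a s x * fx φ s x with hz
  choose eps he1 he2 using fun s => exists_eps (z s)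
  refine ⟨eps, he1, ?_⟩
  have hav : ∀ s, ‖vav φ L p q a s‖ ≤
      (∫ x in {x | s.k ≤ κ x + 1}, ‖vc L p q a s x‖ * ‖fx φ s x‖) + ‖z s‖ := by
    intro s
    have e1 : (univ : Set ℝ) = S1 s ∪ S2 s := by
      ext x
      simp only [hS1, hS2, mem_univ, mem_union, mem_ofPred_eq, true_iff]
      omega
    have e2 : Disjoint (S1 s) (S2 s) := by
      rw [Set.disjoint_left]
      intro x h1 h2
      simp only [hS1, hS2, mem_ofPred_eq] at h1 h2
      omega
    have e3 : vav φ L p q a s = (∫ x in S1 s, vc L p q a s x * fx φ s x) + z s := by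
      rw [vav, ← setIntegral_univ, e1,
        setIntegral_union e2 (m2 s) (ibf s).integrableOn (ibf s).integrableOn]
    rw [e3]
    refine (norm_add_le _ _).trans ?_
    gcongr
    refine (norm_integral_le_integral_norm _).trans (le_of_eq ?_)
    exact integral_congr_ae (ae_of_all _ fun x => norm_mul _ _)
  have h2 : ∑ s ∈ T, c s * ‖vav φ L p q a s‖ ≤
      (∑ s ∈ T, c s * ∫ x in {x | s.k ≤ κ x + 1}, ‖vc L p q a s x‖ * ‖fx φ s x‖) +
      ∑ s ∈ T, c s * ‖z s‖ := by
    rw [← Finset.sum_add_distrib]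
    refine Finset.sum_le_sum fun s hs => ?_
    rw [← mul_add]
    exact mul_le_mul_of_nonneg_left (hav s) (hc s hs)
  refine (ENNReal.ofReal_le_ofReal h2).trans (ENNReal.ofReal_add_le.trans ?_)
  gcongr
  -- the large part
  set H : ℝ → ℂ := fun x => ∑ s ∈ T, if κ x + 2 ≤ s.k then
    eps s * ((c s : ℝ) : ℂ) * fx φ s x * vc L p q a s x else 0 with hH
  have h3 : ((∑ s ∈ T, c s * ‖z s‖ : ℝ) : ℂ) = ∫ x, H x := by
    have e1 : ∀ x, H x = ∑ s ∈ T, (S2 s).indicator
        (fun x => eps s * ((c s : ℝ) : ℂ) * (vc L p q a s x * fx φ s x)) x := by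
      intro x
      rw [hH]
      dsimp only
      refine Finset.sum_congr rfl fun s _ => ?_
      by_cases h : κ x + 2 ≤ s.k
      · rw [if_pos h, indicator_of_mem (show x ∈ S2 s from h)]
        ring
      · rw [if_neg h, indicator_of_notMem (show x ∉ S2 s from h)]
    simp_rw [e1]
    rw [integral_finsetSum]
    · push_cast
      refine Finset.sum_congr rfl fun s _ => ?_
      rw [integral_indicator (m2 s), integral_const_mul]
      have := he2 s
      rw [hz] at this
      dsimp only at this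
      rw [mul_assoc, mul_left_comm, ← this]
    · intro s _
      exact ((ibf s).const_mul _).indicator (m2 s)
  have h4 : 0 ≤ ∑ s ∈ T, c s * ‖z s‖ :=
    Finset.sum_nonneg fun s hs => mul_nonneg (hc s hs) (norm_nonneg _)
  have h5 : ENNReal.ofReal (∑ s ∈ T, c s * ‖z s‖) = ‖∫ x, H x‖ₑ := by
    rw [← h3, ← ofReal_norm, Complex.norm_real, Real.norm_of_nonneg h4]
  rw [h5]
  exact enorm_integral_le_lintegral_enorm _

end Pool.Agent.VRR
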