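import Pool.Agent.VRR.Targets
import Pool.Agent.VRC.P_VSUM

set_option autoImplicit false

/-!
# VRR: SUM, the final summation
-/

namespace Pool.Agent.VRR

open MeasureTheory Set ComplexConjugate
open scoped ENNReal NNReal
open Pool.Agent.CAR
open Pool.Agent.VRC (PQ Act vc vav GG2)

namespace SUM_

open Pool.Agent.CAR.SUM_

/-- `2^(-d|n|)` -/
noncomputable def hd (d : ℝ) (n : ℤ) : ℝ := ((2 : ℝ) ^ (-d)) ^ n.natAbs

theorem hd_nonneg (d : ℝ) (n : ℤ) : 0 ≤ hd d n := by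
  unfold hd
  positivity

theorem b_lt {d : ℝ} (h : 0 < d) : (2 : ℝ) ^ (-d) < 1 :=
  Real.rpow_lt_one_of_one_lt_of_neg (by norm_num) (by linarith)

theorem summable_hd {d : ℝ} (h : 0 < d) : Summable (hd d) := by
  have h1 : Summable (fun n : ℕ => ((2 : ℝ) ^ (-d)) ^ n) :=
    summable_geometric_of_lt_one (by positivity) (b_lt h)
  refine Summable.of_nat_of_neg ?_ ?_
  · exact h1.congr fun n => by simp [hd]
  · exact h1.congr fun n => by simp [hd]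

theorem sum_hd_le {d : ℝ} (h : 0 < d) (n0 : ℤ) (m : ℕ) :
    ∑ j ∈ Finset.range m, hd d (n0 - j) ≤ ∑' z, hd d z := by
  classical
  have hinj : Set.InjOn (fun j : ℕ => n0 - (j : ℤ)) (Finset.range m) := by
    intro a _ b _ hab
    simp only at hab
    omega
  rw [← Finset.sum_image (f := hd d) hinj]
  exact (summable_hd h).sum_le_tsum _ fun z _ => hd_nonneg d z

theorem tsum_hd_le {d K : ℝ} (h : 0 < d) (hK0 : 0 < K)
    (hK : 1 / (2 * K) ≤ 1 - (2 : ℝ) ^ (-d)) : ∑' z, hd d z ≤ 4 * K := by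
  obtain ⟨x, hx⟩ : ∃ x : ℝ, x = (2 : ℝ) ^ (-d) := ⟨_, rfl⟩
  have hx0 : 0 ≤ x := by rw [hx]; positivity
  have hx1 : x < 1 := by rw [hx]; exact b_lt h
  rw [← hx] at hK
  have h1 : Summable (fun n : ℕ => x ^ n) := summable_geometric_of_lt_one hx0 hx1
  have h1' : Summable (fun n : ℕ => x ^ (n + 1)) := (summable_nat_add_iff 1).2 h1
  have e1 : ∀ n : ℕ, hd d (n : ℤ) = x ^ n := fun n => by simp [hd, hx]
  have e2 : ∀ n : ℕ, hd d (-((n : ℤ) + 1)) = x ^ (n + 1) := fun n => by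
    unfold hd
    rw [← hx]
    congr 1
  have h2 : ∑' z, hd d z = ∑' n : ℕ, hd d (n : ℤ) + ∑' n : ℕ, hd d (-((n : ℤ) + 1)) :=
    tsum_of_nat_of_neg_add_one (h1.congr fun n => (e1 n).symm) (h1'.congr fun n => (e2 n).symm)
  rw [h2, tsum_congr e1, tsum_congr e2]
  have h3 : ∑' n : ℕ, x ^ n = (1 - x)⁻¹ := tsum_geometric_of_lt_one hx0 hx1
  have h4 : ∑' n : ℕ, x ^ (n + 1) ≤ ∑' n : ℕ, x ^ n :=
    h1'.tsum_le_tsum (fun n => pow_le_pow_of_le_one hx0 hx1.le (Nat.le_succ n)) h1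
  have h5 : (1 - x)⁻¹ ≤ 2 * K := by
    rw [inv_le_comm₀ (by linarith) (by positivity)]
    rwa [one_div] at hK
  linarith

theorem hd_eq (d : ℝ) (n : ℤ) : hd d n = (2 : ℝ) ^ (-(d * |(n : ℝ)|)) := by
  unfold hd
  rw [← Real.rpow_natCast, ← Real.rpow_mul (by norm_num), Nat.cast_natAbs]
  congr 1
  push_cast
  ring

/-- `min y 1` for `2^k ≤ y < 2^(k+1)` -/
theorem min_hd {y d : ℝ} {k : ℤ} (hd0 : 0 < d) (hd1 : d ≤ 1 / 2) (h1 : (2 : ℝ) ^ k ≤ y)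
    (h2 : y < (2 : ℝ) ^ (k + 1)) : min y 1 ≤ y ^ (1 - d) * (2 * hd d k) := by
  have hk0 : (0 : ℝ) < 2 ^ k := zpow_pos (by norm_num) k
  have hy0 : 0 < y := hk0.trans_le h1
  rw [hd_eq]
  rw [← Real.rpow_intCast] at h1 h2
  rcases le_or_gt 0 k with hk | hk
  · have hk' : (0 : ℝ) ≤ k := by exact_mod_cast hk
    have h3 : (2 : ℝ) ^ ((k : ℝ) * (1 - d)) ≤ y ^ (1 - d) := by
      rw [Real.rpow_mul (by norm_num)]
      exact Real.rpow_le_rpow (by positivity) h1 (by linarith)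
    have h4 : (1 : ℝ) ≤ (2 : ℝ) ^ ((k : ℝ) * (1 - d)) * (2 : ℝ) ^ (-(d * |(k : ℝ)|)) := by
      rw [← Real.rpow_add (by norm_num), abs_of_nonneg hk']
      refine Real.one_le_rpow (by norm_num) ?_
      nlinarith
    have h5 : (0 : ℝ) < (2 : ℝ) ^ (-(d * |(k : ℝ)|)) := by positivity
    calc min y 1 ≤ 1 := min_le_right _ _
      _ ≤ (2 : ℝ) ^ ((k : ℝ) * (1 - d)) * (2 : ℝ) ^ (-(d * |(k : ℝ)|)) := h4
      _ ≤ y ^ (1 - d) * (2 : ℝ) ^ (-(d * |(k : ℝ)|)) := mul_le_mul_of_nonneg_right h3 h5.le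
      _ ≤ y ^ (1 - d) * (2 * (2 : ℝ) ^ (-(d * |(k : ℝ)|))) := by
          refine mul_le_mul_of_nonneg_left ?_ (by positivity)
          linarith
  · have hk' : (k : ℝ) < 0 := by exact_mod_cast hk
    have h3 : y ^ d ≤ 2 * (2 : ℝ) ^ (-(d * |(k : ℝ)|)) := by
      calc y ^ d ≤ ((2 : ℝ) ^ (((k + 1 : ℤ)) : ℝ)) ^ d :=
            Real.rpow_le_rpow hy0.le h2.le hd0.le
        _ = (2 : ℝ) ^ (((k : ℝ) + 1) * d) := by
            rw [← Real.rpow_mul (by norm_num)]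
            push_cast
            rfl
        _ = (2 : ℝ) ^ d * (2 : ℝ) ^ (-(d * |(k : ℝ)|)) := by
            rw [← Real.rpow_add (by norm_num), abs_of_neg hk']
            congr 1
            ring
        _ ≤ 2 * (2 : ℝ) ^ (-(d * |(k : ℝ)|)) := by
            refine mul_le_mul_of_nonneg_right ?_ (by positivity)
            calc (2 : ℝ) ^ d ≤ (2 : ℝ) ^ (1 : ℝ) :=
                  Real.rpow_le_rpow_of_exponent_le (by norm_num) (by linarith)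
              _ = 2 := Real.rpow_one 2
    calc min y 1 ≤ y := min_le_left _ _
      _ = y ^ (1 - d) * y ^ d := by
          rw [← Real.rpow_add hy0]
          norm_num
      _ ≤ _ := mul_le_mul_of_nonneg_left h3 (by positivity)

/-- the majorant -/
noncomputable def Q (d : ℝ) (K : ℤ) (ρ e0 : ℝ) (n : ℤ) : ℝ :=
  2 * e0 * hz n + 2 * (ρ ^ (1 - d) * e0 ^ d) * hd d (n + K)

theorem rp {r t : ℝ} (ht : 0 < t) (ht1 : t ≤ 1) :
    (min (t ^ 2) 2) ^ (1 - 1 / r) / t ^ 2 * t ^ (2 / r) = 1 := by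
  have h1 : min (t ^ 2) 2 = t ^ 2 := min_eq_left (by nlinarith)
  rw [h1, ← Real.rpow_natCast t 2, ← Real.rpow_mul ht.le,
    ← Real.rpow_sub ht, ← Real.rpow_add ht]
  have : ((2 : ℕ) : ℝ) * (1 - 1 / r) - ((2 : ℕ) : ℝ) + 2 / r = 0 := by
    push_cast
    ring
  rw [this, Real.rpow_zero]

theorem Q_le {r ρ e0 : ℝ} (h2r : 2 < r) (hr4 : r ≤ 4) (hρ : 0 < ρ) (he0 : 0 < e0) {K : ℤ}
    (hK1 : (2 : ℝ) ^ K ≤ ρ / e0)
    (hK2 : ρ / e0 < (2 : ℝ) ^ (K + 1)) (n : ℤ) :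
    min ((2 : ℝ) ^ n * ρ) e0 * ((min ((4 : ℝ) ^ n) 2) ^ (1 - 1 / r) / (4 : ℝ) ^ n) ≤
      Q (1 - 2 / r) K ρ e0 n := by
  have hr0 : 0 < r := by linarith
  have hd0 : 0 < 1 - 2 / r := by
    rw [sub_pos, div_lt_one hr0]
    exact h2r
  have hd1 : 1 - 2 / r ≤ 1 / 2 := by
    have : 1 / 2 ≤ 2 / r := by
      rw [div_le_div_iff₀ (by norm_num) hr0]
      linarith
    linarith
  have hx1 : 1 - 1 / r ≤ 1 := by
    have : 0 < 1 / r := by positivity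
    linarith
  have hx0 : 0 ≤ 1 - 1 / r := by
    have : 1 / r ≤ 1 := by
      rw [div_le_one hr0]
      linarith
    linarith
  rw [four_zpow]
  set t : ℝ := (2 : ℝ) ^ n with ht
  have ht0 : 0 < t := zpow_pos (by norm_num) n
  have hm0 : 0 ≤ min (t * ρ) e0 := by positivity
  have h1 := hz_nonneg n
  have h2 := hd_nonneg (1 - 2 / r) (n + K)
  rcases le_or_gt n 0 with hn | hn
  · have ht1 : t ≤ 1 := by
      rw [ht]
      exact zpow_le_one_of_nonpos₀ (by norm_num) hn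
    obtain ⟨y, hy⟩ : ∃ y, y = t * (ρ / e0) := ⟨_, rfl⟩
    have hy1 : (2 : ℝ) ^ (n + K) ≤ y := by
      rw [hy, zpow_add₀ (by norm_num)]
      exact mul_le_mul_of_nonneg_left hK1 ht0.le
    have hy2 : y < (2 : ℝ) ^ (n + K + 1) := by
      rw [hy, add_assoc, zpow_add₀ (by norm_num)]
      exact mul_lt_mul_of_pos_left hK2 ht0
    have hy0 : 0 < y := by rw [hy]; positivity
    have h3 := min_hd hd0 hd1 hy1 hy2
    have h4 : min (t * ρ) e0 = e0 * min y 1 := by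
      rw [mul_min_of_nonneg _ _ he0.le, mul_one, hy]
      congr 1
      field_simp
    have h5 : e0 * y ^ (1 - (1 - 2 / r)) =
        ρ ^ (1 - (1 - 2 / r)) * e0 ^ (1 - 2 / r) * t ^ (2 / r) := by
      have e1 : 1 - (1 - 2 / r) = 2 / r := by ring
      have e2 : e0 = e0 ^ (1 - 2 / r) * e0 ^ (2 / r) := by
        rw [← Real.rpow_add he0]
        norm_num
      rw [e1, hy, Real.mul_rpow ht0.le (by positivity), Real.div_rpow hρ.le he0.le]
      have e3 : 0 < e0 ^ (2 / r) := by positivity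
      calc e0 * (t ^ (2 / r) * (ρ ^ (2 / r) / e0 ^ (2 / r)))
          = (e0 ^ (1 - 2 / r) * e0 ^ (2 / r)) *
            (t ^ (2 / r) * (ρ ^ (2 / r) / e0 ^ (2 / r))) := by rw [← e2]
        _ = _ := by field_simp
    have h7 := rp (r := r) ht0 ht1
    obtain ⟨τ, hτ⟩ : ∃ τ, τ = (min (t ^ 2) 2) ^ (1 - 1 / r) / t ^ 2 := ⟨_, rfl⟩
    rw [← hτ] at h7 ⊢
    have hτ0 : 0 ≤ τ := by rw [hτ]; positivity
    have h8 : 0 ≤ 2 * e0 * hz n := by positivity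
    calc min (t * ρ) e0 * τ = e0 * min y 1 * τ := by rw [h4]
      _ ≤ e0 * (y ^ (1 - (1 - 2 / r)) * (2 * hd (1 - 2 / r) (n + K))) * τ := by
          refine mul_le_mul_of_nonneg_right ?_ hτ0
          exact mul_le_mul_of_nonneg_left h3 he0.le
      _ = (e0 * y ^ (1 - (1 - 2 / r))) * (2 * hd (1 - 2 / r) (n + K)) * τ := by ring
      _ = 2 * (ρ ^ (1 - (1 - 2 / r)) * e0 ^ (1 - 2 / r)) * hd (1 - 2 / r) (n + K) *
            (τ * t ^ (2 / r)) := by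
          rw [h5]
          ring
      _ = 2 * (ρ ^ (1 - (1 - 2 / r)) * e0 ^ (1 - 2 / r)) * hd (1 - 2 / r) (n + K) := by
          rw [h7, mul_one]
      _ ≤ Q (1 - 2 / r) K ρ e0 n := by
          rw [Q]
          linarith
  · have h4 : hz n * t = 1 := Pool.Agent.VRC.VSUM_.hz_nonneg' hn.le
    have ht1 : 1 ≤ t := by
      rw [ht]
      exact one_le_zpow₀ (by norm_num) hn.le
    have h6 : (min (t ^ 2) 2) ^ (1 - 1 / r) ≤ 2 := by
      calc (min (t ^ 2) 2) ^ (1 - 1 / r) ≤ (2 : ℝ) ^ (1 - 1 / r) :=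
            Real.rpow_le_rpow (by positivity) (min_le_right _ _) hx0
        _ ≤ (2 : ℝ) ^ (1 : ℝ) := Real.rpow_le_rpow_of_exponent_le (by norm_num) hx1
        _ = 2 := Real.rpow_one 2
    have h5 : (min (t ^ 2) 2) ^ (1 - 1 / r) / t ^ 2 ≤ 2 * hz n := by
      rw [div_le_iff₀ (by positivity)]
      calc (min (t ^ 2) 2) ^ (1 - 1 / r) ≤ 2 := h6
        _ = 2 * (hz n * t) := by rw [h4]; ring
        _ ≤ 2 * (hz n * t) * t := le_mul_of_one_le_right (by rw [h4]; norm_num) ht1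
        _ = 2 * hz n * t ^ 2 := by ring
    have h7 : 0 ≤ 2 * (ρ ^ (1 - (1 - 2 / r)) * e0 ^ (1 - 2 / r)) * hd (1 - 2 / r) (n + K) := by
      positivity
    calc min (t * ρ) e0 * ((min (t ^ 2) 2) ^ (1 - 1 / r) / t ^ 2) ≤ e0 * (2 * hz n) :=
          mul_le_mul (min_le_right _ _) h5 (by positivity) he0.le
      _ ≤ Q (1 - 2 / r) K ρ e0 n := by
          rw [Q]
          linarith

/-- the cost of one step -/
theorem cost {r V ρ e0 G : ℝ} (h2r : 2 < r) (hr4 : r ≤ 4) (hV : 0 ≤ V) (hρ : 0 < ρ)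
    (he0 : 0 < e0) (hG0 : 0 ≤ G)
    (hG : G ≤ ρ * Real.sqrt V) {K : ℤ} (hK1 : (2 : ℝ) ^ K ≤ ρ / e0)
    (hK2 : ρ / e0 < (2 : ℝ) ^ (K + 1)) (n : ℤ) :
    min ((2 : ℝ) ^ n * ρ) e0 * (min ((4 : ℝ) ^ n) 2) ^ (1 - 1 / r) *
      (G ^ 2 / ((2 : ℝ) ^ n * ρ) ^ 2 + V / (4 : ℝ) ^ n) ≤ 2 * V * Q (1 - 2 / r) K ρ e0 n := by
  have h1 := Q_le h2r hr4 hρ he0 hK1 hK2 n
  have ht0 : (0 : ℝ) < 2 ^ n := zpow_pos (by norm_num) n
  have h40 : (0 : ℝ) < 4 ^ n := zpow_pos (by norm_num) n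
  have h2 : G ^ 2 ≤ ρ ^ 2 * V := by
    calc G ^ 2 ≤ (ρ * Real.sqrt V) ^ 2 := pow_le_pow_left₀ hG0 hG 2
      _ = ρ ^ 2 * V := by rw [mul_pow, Real.sq_sqrt hV]
  have h3 : G ^ 2 / ((2 : ℝ) ^ n * ρ) ^ 2 ≤ V / (4 : ℝ) ^ n := by
    rw [mul_pow, ← four_zpow, div_le_div_iff₀ (by positivity) h40]
    calc G ^ 2 * (4 : ℝ) ^ n ≤ ρ ^ 2 * V * (4 : ℝ) ^ n := mul_le_mul_of_nonneg_right h2 h40.le
      _ = V * ((4 : ℝ) ^ n * ρ ^ 2) := by ring
  have h4 : 0 ≤ min ((2 : ℝ) ^ n * ρ) e0 * (min ((4 : ℝ) ^ n) 2) ^ (1 - 1 / r) := by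
    positivity
  calc min ((2 : ℝ) ^ n * ρ) e0 * (min ((4 : ℝ) ^ n) 2) ^ (1 - 1 / r) *
      (G ^ 2 / ((2 : ℝ) ^ n * ρ) ^ 2 + V / (4 : ℝ) ^ n) ≤
        min ((2 : ℝ) ^ n * ρ) e0 * (min ((4 : ℝ) ^ n) 2) ^ (1 - 1 / r) *
          (V / (4 : ℝ) ^ n + V / (4 : ℝ) ^ n) :=
        mul_le_mul_of_nonneg_left (by linarith) h4
    _ = 2 * V * (min ((2 : ℝ) ^ n * ρ) e0 *
          ((min ((4 : ℝ) ^ n) 2) ^ (1 - 1 / r) / (4 : ℝ) ^ n)) := by
        field_simp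
        ring
    _ ≤ 2 * V * Q (1 - 2 / r) K ρ e0 n := mul_le_mul_of_nonneg_left h1 (by positivity)

theorem sum_Q_le {d ρ e0 : ℝ} (hd0 : 0 < d) (hρ : 0 < ρ) (he0 : 0 < e0) (K : ℤ) (n0 : ℤ)
    (m : ℕ) :
    ∑ j ∈ Finset.range m, Q d K ρ e0 (n0 - j) ≤
      2 * e0 * (∑' z, hz z) + 2 * (ρ ^ (1 - d) * e0 ^ d) * (∑' z, hd d z) := by
  have h1 := sum_hz_le n0 m
  have h2 := sum_hd_le hd0 (n0 + K) m
  have h6 : ∑ j ∈ Finset.range m, Q d K ρ e0 (n0 - j) =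
      2 * e0 * ∑ j ∈ Finset.range m, hz (n0 - j) +
      2 * (ρ ^ (1 - d) * e0 ^ d) * ∑ j ∈ Finset.range m, hd d (n0 + K - j) := by
    rw [Finset.mul_sum, Finset.mul_sum, ← Finset.sum_add_distrib]
    refine Finset.sum_congr rfl fun j _ => ?_
    rw [Q, show n0 - (j : ℤ) + K = n0 + K - j by ring]
  rw [h6]
  have h3 : 0 ≤ 2 * (ρ ^ (1 - d) * e0 ^ d) := by positivity
  have h4 := mul_le_mul_of_nonneg_left h1 (show 0 ≤ 2 * e0 by positivity)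
  have h5 := mul_le_mul_of_nonneg_left h2 h3
  linarith

end SUM_

open Pool.Agent.CAR.SUM_ SUM_ in
/-- SUM -/
theorem p_SUM (h0 : T_REX) (h1 : T_DNB) (h2 : T_STP) : T_SUM := by
  classical
  intro A
  obtain ⟨C0, hC0, hstep⟩ := h2 A
  obtain ⟨Z, hZ⟩ : ∃ Z : ℝ, Z = ∑' z, hz z := ⟨_, rfl⟩
  have hZ0 : 0 ≤ Z := by rw [hZ]; exact tsum_hz_nonneg
  refine ⟨2 * C0 * (Z + 8), by positivity, ?_⟩
  intro r h2r hr4 φ Φ g hW hg L p q a E hPQ hAB S ρ e0 hρ he0 hgr hEn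
  obtain ⟨-, -, -, -, -, -, -, -, hkr2, -, hd0, -, -, hkr, -⟩ := h0 r h2r hr4
  obtain ⟨κ, hκ⟩ : ∃ κ : ℝ, κ = kr r := ⟨_, rfl⟩
  rw [← hκ] at hkr2 hkr ⊢
  have hY := tsum_hd_le hd0 (by linarith) hkr
  set f : Tile → ℝ := fun s => cc Φ g s * ‖vav φ L p q a s‖ with hf
  have hf0 : ∀ s, 0 ≤ f s := fun s => mul_nonneg (norm_nonneg _) (norm_nonneg _)
  change ∑ s ∈ S, f s ≤ _
  have hV0 : 0 ≤ vol E := ENNReal.toReal_nonneg
  rcases hV0.eq_or_lt with he | he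
  · -- `a = 0`
    have h2 : volume E = 0 := by
      rcases (ENNReal.toReal_eq_zero_iff _).1 he.symm with h | h
      · exact h
      · exact absurd h hAB.fE
    have h4 : ∀ᵐ x, ∀ j < L, a j x = 0 := by
      have h3 : ∀ᵐ x, x ∉ E := measure_eq_zero_iff_ae_notMem.1 h2
      filter_upwards [h3] with x h
      exact fun j hj => hAB.z j hj x h
    have h5 : ∑ s ∈ S, f s = 0 := by
      refine Finset.sum_eq_zero fun s _ => ?_
      simp only [hf, Pool.Agent.VRC.VSUM_.vav_zero h4 s, norm_zero, mul_zero]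
    rw [h5, ← he]
    simp
  -- the main case
  obtain ⟨K, hK1, hK2⟩ := exists_mem_Ico_zpow (x := ρ / e0) (y := 2) (by positivity) (by norm_num)
  have hc0 : ∀ s, 0 ≤ cc Φ g s := fun s => norm_nonneg _
  have hG0 : 0 ≤ n2 g := Real.sqrt_nonneg _
  obtain ⟨n0, hn0, hEn0⟩ := start (c := cc Φ g) S hρ one_pos
  rw [div_one] at hEn0
  have key : ∀ m : ℕ, ∃ S' ⊆ S, En (cc Φ g) S' ((2 : ℝ) ^ ((n0 : ℤ) - m) * ρ) ∧
      VMs r L p a S' ((4 : ℝ) ^ ((n0 : ℤ) - m)) ∧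
      ∑ s ∈ S \ S', f s ≤ C0 * κ * (2 * vol E) *
        ∑ j ∈ Finset.range m, Q (1 - 2 / r) K ρ e0 ((n0 : ℤ) - j) := by
    intro m
    induction m with
    | zero =>
      refine ⟨S, subset_refl _, ?_, ?_, ?_⟩
      · simpa using hEn0
      · intro s hs u hu
        have h3 := (h1 r h2r hr4 L p q a E hPQ hAB u).2.1
        simp only [Nat.cast_zero, sub_zero, zpow_natCast]
        exact h3.trans hn0.le
      · simp
    | succ m ih =>
      obtain ⟨S', hS', hE', hM', hsum'⟩ := ih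
      set n : ℤ := (n0 : ℤ) - m with hn
      have hn1 : (n0 : ℤ) - ((m + 1 : ℕ) : ℤ) = n - 1 := by rw [hn]; push_cast; ring
      have hEnS' : En (cc Φ g) S' e0 := by
        intro T K' Λ ξ hT hP
        exact hEn T K' Λ ξ (hT.trans hS') hP
      obtain ⟨S'', hS'', hE'', hM'', hsum''⟩ := hstep r h2r hr4 φ Φ g hW hg L p q a E hPQ hAB S'
        ((2 : ℝ) ^ n * ρ) ((4 : ℝ) ^ n) e0 (by positivity) (by positivity) he0.le hEnS' hE' hM'
      refine ⟨S'', hS''.trans hS', ?_, ?_, ?_⟩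
      · rw [hn1]
        have h3 : (2 : ℝ) ^ (n - 1) * ρ = (2 : ℝ) ^ n * ρ / 2 := by
          rw [zpow_sub_one₀ (by norm_num)]
          ring
        rw [h3]
        exact hE''
      · rw [hn1]
        have h3 : (4 : ℝ) ^ (n - 1) = (4 : ℝ) ^ n / 4 := by
          rw [zpow_sub_one₀ (by norm_num)]
          ring
        rw [h3]
        exact hM''
      · have hsub : S \ S'' ⊆ (S \ S') ∪ (S' \ S'') := by
          intro s hs
          rw [Finset.mem_sdiff] at hs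
          rw [Finset.mem_union, Finset.mem_sdiff, Finset.mem_sdiff]
          by_cases h : s ∈ S'
          · right; exact ⟨h, hs.2⟩
          · left; exact ⟨hs.1, h⟩
        have hdis : Disjoint (S \ S') (S' \ S'') := by
          rw [Finset.disjoint_left]
          intro s hs hs'
          exact (Finset.mem_sdiff.1 hs).2 (Finset.mem_sdiff.1 hs').1
        have h3 : ∑ s ∈ S \ S'', f s ≤ ∑ s ∈ S \ S', f s + ∑ s ∈ S' \ S'', f s := by
          rw [← Finset.sum_union hdis]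
          exact Finset.sum_le_sum_of_subset_of_nonneg hsub fun s _ _ => hf0 s
        have h4 := cost h2r hr4 hV0 hρ he0 hG0 hgr hK1 hK2 n
        have h5 : ∑ s ∈ S' \ S'', f s ≤ C0 * κ * (2 * vol E * Q (1 - 2 / r) K ρ e0 n) := by
          refine hsum''.trans ?_
          have h6 := mul_le_mul_of_nonneg_left h4 (show 0 ≤ C0 * κ by positivity)
          refine le_trans (le_of_eq ?_) h6
          rw [hκ]
          ring
        rw [Finset.sum_range_succ, mul_add]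
        calc ∑ s ∈ S \ S'', f s ≤ ∑ s ∈ S \ S', f s + ∑ s ∈ S' \ S'', f s := h3
          _ ≤ C0 * κ * (2 * vol E) * ∑ j ∈ Finset.range m, Q (1 - 2 / r) K ρ e0 ((n0 : ℤ) - j) +
              C0 * κ * (2 * vol E * Q (1 - 2 / r) K ρ e0 n) := add_le_add hsum' h5
          _ = C0 * κ * (2 * vol E) * ∑ j ∈ Finset.range m, Q (1 - 2 / r) K ρ e0 ((n0 : ℤ) - j) +
              C0 * κ * (2 * vol E) * Q (1 - 2 / r) K ρ e0 ((n0 : ℤ) - m) := by rw [hn]; ring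
  -- the limit
  obtain ⟨B', hB'⟩ : ∃ B' : ℝ,
      B' = ∑ s ∈ S, Real.sqrt ((2 : ℝ) ^ s.k) * ‖vav φ L p q a s‖ := ⟨_, rfl⟩
  obtain ⟨W, hWdef⟩ : ∃ W : ℝ,
      W = 2 * e0 * Z + 2 * (ρ ^ (2 / r) * e0 ^ (1 - 2 / r)) * (4 * κ) := ⟨_, rfl⟩
  have hbound : ∀ m : ℕ, ∑ s ∈ S, f s ≤ C0 * κ * (2 * vol E) * W +
      (2 : ℝ) ^ n0 * ρ * B' * (1 / 2 : ℝ) ^ m := by
    intro m
    obtain ⟨S', hS', hE', -, hsum'⟩ := key m
    have h3 : ∑ s ∈ S, f s = ∑ s ∈ S \ S', f s + ∑ s ∈ S', f s :=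
      (Finset.sum_sdiff hS').symm
    have heps : (2 : ℝ) ^ ((n0 : ℤ) - m) * ρ = (2 : ℝ) ^ n0 * ρ * (1 / 2 : ℝ) ^ m := by
      rw [zpow_sub₀ (by norm_num), zpow_natCast, zpow_natCast, one_div, inv_pow]
      ring
    have h4 : ∑ s ∈ S', f s ≤ (2 : ℝ) ^ n0 * ρ * B' * (1 / 2 : ℝ) ^ m := by
      have h5 : ∀ s ∈ S', f s ≤ (2 : ℝ) ^ ((n0 : ℤ) - m) * ρ *
          (Real.sqrt ((2 : ℝ) ^ s.k) * ‖vav φ L p q a s‖) := by
        intro s hs
        have h6 := cc_le hc0 (by positivity) hE' hs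
        calc f s = cc Φ g s * ‖vav φ L p q a s‖ := rfl
          _ ≤ ((2 : ℝ) ^ ((n0 : ℤ) - m) * ρ * Real.sqrt ((2 : ℝ) ^ s.k)) *
              ‖vav φ L p q a s‖ := mul_le_mul_of_nonneg_right h6 (norm_nonneg _)
          _ = _ := by ring
      calc ∑ s ∈ S', f s ≤ ∑ s ∈ S', (2 : ℝ) ^ ((n0 : ℤ) - m) * ρ *
            (Real.sqrt ((2 : ℝ) ^ s.k) * ‖vav φ L p q a s‖) := Finset.sum_le_sum h5
        _ = (2 : ℝ) ^ ((n0 : ℤ) - m) * ρ *
            ∑ s ∈ S', Real.sqrt ((2 : ℝ) ^ s.k) * ‖vav φ L p q a s‖ := by rw [Finset.mul_sum]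
        _ ≤ (2 : ℝ) ^ ((n0 : ℤ) - m) * ρ * B' := by
            refine mul_le_mul_of_nonneg_left ?_ (by positivity)
            rw [hB']
            exact Finset.sum_le_sum_of_subset_of_nonneg hS' fun s _ _ => by positivity
        _ = _ := by rw [heps]; ring
    have h5 : C0 * κ * (2 * vol E) * ∑ j ∈ Finset.range m, Q (1 - 2 / r) K ρ e0 ((n0 : ℤ) - j) ≤
        C0 * κ * (2 * vol E) * W := by
      refine mul_le_mul_of_nonneg_left ?_ (by positivity)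
      rw [hWdef, hZ]
      refine (sum_Q_le hd0 hρ he0 K n0 m).trans ?_
      rw [show 1 - (1 - 2 / r) = 2 / r by ring]
      exact add_le_add le_rfl (mul_le_mul_of_nonneg_left hY (by positivity))
    rw [h3]
    exact add_le_add (hsum'.trans h5) h4
  have hlim : Filter.Tendsto (fun m : ℕ => C0 * κ * (2 * vol E) * W +
      (2 : ℝ) ^ n0 * ρ * B' * (1 / 2 : ℝ) ^ m) Filter.atTop
      (nhds (C0 * κ * (2 * vol E) * W + (2 : ℝ) ^ n0 * ρ * B' * 0)) := by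
    refine Filter.Tendsto.const_add _ (Filter.Tendsto.const_mul _ ?_)
    exact tendsto_pow_atTop_nhds_zero_of_lt_one (by norm_num) (by norm_num)
  have hfin := ge_of_tendsto' hlim hbound
  rw [mul_zero, add_zero] at hfin
  obtain ⟨P, hP⟩ : ∃ P : ℝ, P = ρ ^ (2 / r) * e0 ^ (1 - 2 / r) := ⟨_, rfl⟩
  have hP0 : 0 ≤ P := by rw [hP]; positivity
  rw [← hP] at hWdef ⊢
  have h7 : W ≤ (Z + 8) * κ * (e0 + P) := by
    rw [hWdef]
    have h8 : 0 ≤ (κ - 2) * (Z * e0) := by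
      refine mul_nonneg (by linarith) (by positivity)
    have h9 : 0 ≤ Z * κ * P := by positivity
    have h10 : 0 ≤ κ * e0 := by positivity
    linarith
  calc ∑ s ∈ S, f s ≤ C0 * κ * (2 * vol E) * W := hfin
    _ ≤ C0 * κ * (2 * vol E) * ((Z + 8) * κ * (e0 + P)) :=
        mul_le_mul_of_nonneg_left h7 (by positivity)
    _ = _ := by ring

end Pool.Agent.VRR
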