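import Pool.Agent.VRR.Targets
import Pool.Agent.VRC.P_VTA1

set_option autoImplicit false

/-!
# VRR, TA1: one interval (Bessel, Hoelder), exponent `r`
-/

namespace Pool.Agent.VRR

open MeasureTheory Set ComplexConjugate Filter Topology
open scoped ENNReal NNReal
open Pool.Agent.CAR
open Pool.Agent.VRC (PQ Act vc vav)
open Pool.Agent.VRC.VTA1_ (bes)

namespace TA1_

/-- the sum of the `r`-th powers -/
theorem powr {A : ℝ} {φ Φ : ℝ → ℂ} (h : WPk A φ Φ) {f : ℝ → ℂ} {F : Set ℝ} (hf : BF 1 F f)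
    {k l : ℤ} {S : Finset Tile} (hS : ∀ s ∈ S, s.k = k ∧ s.l = l) {r : ℝ} (hr : 2 < r) :
    ∑ s ∈ S, ‖cf φ f s‖ ^ r ≤ (A * (Real.sqrt ((2 : ℝ) ^ k))⁻¹ *
      ∫ x in F, wt 10 ((2 : ℝ) ^ (-k) * x - l)) ^ (r - 2) *
      (2 ^ 31 * A ^ 2 * ∫ x in F, wt 10 ((2 : ℝ) ^ (-k) * x - l)) := by
  set IF : ℝ := ∫ x in F, wt 10 ((2 : ℝ) ^ (-k) * x - l) with hIF
  have hA := h.pos
  have hIF0 : 0 ≤ IF := integral_nonneg fun x => CAR.TA1_.wt_nonneg _ _
  set B : ℝ := A * (Real.sqrt ((2 : ℝ) ^ k))⁻¹ * IF with hB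
  have h1 : ∀ s ∈ S, ‖cf φ f s‖ ≤ B := by
    intro s hsS
    obtain ⟨k1, l1⟩ := hS s hsS
    have h2 := CAR.TA1_.cf_le h k1 l1 hf
    have h3 : ∫ x in F, wt 20 ((2 : ℝ) ^ (-k) * x - l) ≤ IF := by
      refine integral_mono (p_WTI 20 k l (by norm_num)).1.integrableOn
        (p_WTI 10 k l (by norm_num)).1.integrableOn fun x => ?_
      unfold wt
      refine inv_anti₀ (by positivity) (pow_le_pow_right₀ ?_ (by norm_num))
      have := abs_nonneg ((2 : ℝ) ^ (-k) * x - l)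
      linarith
    have h4 : ‖cf φ f s‖ ≤ A * hs s * IF :=
      h2.trans (mul_le_mul_of_nonneg_left h3 (mul_nonneg hA.le (CAR.TA1_.hs_nonneg s)))
    rw [hs, k1] at h4
    exact h4
  calc ∑ s ∈ S, ‖cf φ f s‖ ^ r ≤ ∑ s ∈ S, B ^ (r - 2) * ‖cf φ f s‖ ^ 2 := by
        refine Finset.sum_le_sum fun s hs => ?_
        have e : r = (r - 2) + 2 := by ring
        conv_lhs => rw [e]
        rw [Real.rpow_add_of_nonneg (norm_nonneg _) (by linarith) (by norm_num),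
          Real.rpow_two]
        exact mul_le_mul_of_nonneg_right
          (Real.rpow_le_rpow (norm_nonneg _) (h1 s hs) (by linarith)) (by positivity)
    _ = B ^ (r - 2) * ∑ s ∈ S, ‖cf φ f s‖ ^ 2 := by rw [Finset.mul_sum]
    _ ≤ B ^ (r - 2) * (2 ^ 31 * A ^ 2 * IF) :=
        mul_le_mul_of_nonneg_left (bes h hf hS) (by
          refine Real.rpow_nonneg ?_ _
          rw [hB]
          positivity)

/-- the root -/
theorem root {A y IF r X : ℝ} (hr : 2 < r) (hA : 0 < A) (hy : 0 < y) (hIF0 : 0 ≤ IF)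
    (hX : 0 ≤ X) (h : X ≤ (A * y ^ (-(1 / 2) : ℝ) * IF) ^ (r - 2) * (2 ^ 31 * A ^ 2 * IF)) :
    X ^ (1 / r) ≤ 2 ^ 16 * A * (y ^ (-(1 / 2 - 1 / r)) * IF ^ (1 - 1 / r)) := by
  have hr0 : 0 < r := by linarith
  have hr1 : 0 < 1 / r := by positivity
  have hr2 : 1 / r < 1 / 2 := one_div_lt_one_div_of_lt (by norm_num) hr
  have hyp : 0 < y ^ (-(1 / 2) : ℝ) := Real.rpow_pos_of_pos hy _
  refine (Real.rpow_le_rpow hX h hr1.le).trans ?_
  rw [Real.mul_rpow (by positivity) (by positivity), ← Real.rpow_mul (by positivity),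
    show (r - 2) * (1 / r) = 1 - 2 * (1 / r) by field_simp,
    Real.mul_rpow (by positivity) hIF0, Real.mul_rpow hA.le hyp.le,
    Real.mul_rpow (by positivity) hIF0, Real.mul_rpow (by norm_num) (by positivity),
    ← Real.rpow_mul hy.le]
  have e1 : (A ^ 2) ^ (1 / r) = A ^ (2 * (1 / r)) := by
    rw [Real.rpow_mul hA.le, Real.rpow_two]
  have e2 : A ^ (1 - 2 * (1 / r)) * A ^ (2 * (1 / r)) = A := by
    rw [← Real.rpow_add hA]
    norm_num
  have e3 : IF ^ (1 - 2 * (1 / r)) * IF ^ (1 / r) = IF ^ (1 - 1 / r) := by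
    rw [← Real.rpow_add_of_nonneg hIF0 (by linarith) hr1.le]
    congr 1
    ring
  have e4 : y ^ (-(1 / 2) * (1 - 2 * (1 / r))) = y ^ (-(1 / 2 - 1 / r)) := by
    congr 1
    ring
  have e5 : ((2 : ℝ) ^ 31) ^ (1 / r) ≤ 2 ^ 16 := by
    calc ((2 : ℝ) ^ 31) ^ (1 / r) ≤ ((2 : ℝ) ^ 32) ^ (1 / r) :=
          Real.rpow_le_rpow (by norm_num) (by norm_num) hr1.le
      _ ≤ ((2 : ℝ) ^ 32) ^ (1 / 2 : ℝ) :=
          Real.rpow_le_rpow_of_exponent_le (by norm_num) hr2.le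
      _ = 2 ^ 16 := by
          rw [← Real.sqrt_eq_rpow, show (2 : ℝ) ^ 32 = (2 ^ 16) ^ 2 by norm_num]
          exact Real.sqrt_sq (by norm_num)
  rw [e1, e4]
  have hy4 : 0 ≤ y ^ (-(1 / 2 - 1 / r)) := Real.rpow_nonneg hy.le _
  have hI4 : 0 ≤ IF ^ (1 - 1 / r) := Real.rpow_nonneg hIF0 _
  calc A ^ (1 - 2 * (1 / r)) * y ^ (-(1 / 2 - 1 / r)) * IF ^ (1 - 2 * (1 / r)) *
      (((2 : ℝ) ^ 31) ^ (1 / r) * A ^ (2 * (1 / r)) * IF ^ (1 / r)) =
      ((2 : ℝ) ^ 31) ^ (1 / r) * ((A ^ (1 - 2 * (1 / r)) * A ^ (2 * (1 / r))) *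
        (y ^ (-(1 / 2 - 1 / r)) * (IF ^ (1 - 2 * (1 / r)) * IF ^ (1 / r)))) := by ring
    _ = ((2 : ℝ) ^ 31) ^ (1 / r) * (A * (y ^ (-(1 / 2 - 1 / r)) * IF ^ (1 - 1 / r))) := by
        rw [e2, e3]
    _ ≤ 2 ^ 16 * (A * (y ^ (-(1 / 2 - 1 / r)) * IF ^ (1 - 1 / r))) :=
        mul_le_mul_of_nonneg_right e5 (by positivity)
    _ = _ := by ring

end TA1_

open TA1_ in
/-- TA1 -/
theorem p_TA1 (h0 : T_REX) (h1 : T_BAS) : T_TA1 := by
  intro A
  refine ⟨2 ^ 16 * A ^ 2 + 1, by positivity, ?_⟩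
  intro r hr2 hr4 φ Φ h f F L p q a E hf hpq hab k l S hS
  obtain ⟨hx1, hx2, hx3, -, -, -, -, -, -, -, -, -, hconj, -, -⟩ := h0 r hr2 hr4
  obtain ⟨-, hb2, hb3, hb4, hb5, hb6, hb7⟩ := h1 r hr2 hr4 L p q a 1 E hpq hab
  have hrc0 : 0 < rc r := by linarith
  have hr0 : 0 < r := by linarith
  set IF : ℝ := ∫ x in F, wt 10 ((2 : ℝ) ^ (-k) * x - l) with hIF
  set IE : ℝ := ∫ x in E, wt 20 ((2 : ℝ) ^ (-k) * x - l) with hIE
  have hA := h.pos
  have hIF0 : 0 ≤ IF := integral_nonneg fun x => CAR.TA1_.wt_nonneg _ _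
  have hIE0 : 0 ≤ IE := integral_nonneg fun x => CAR.TA1_.wt_nonneg _ _
  have hk := two_zpow_pos k
  have hk' := two_zpow_pos (-k)
  set d : ℝ := (Real.sqrt ((2 : ℝ) ^ k))⁻¹ with hd
  have hd0 : 0 ≤ d := by positivity
  -- the root
  set N4 : ℝ := (∑ s ∈ S, ‖cf φ f s‖ ^ r) ^ (1 / r) with hN4
  have hsr0 : 0 ≤ ∑ s ∈ S, ‖cf φ f s‖ ^ r :=
    Finset.sum_nonneg fun s _ => Real.rpow_nonneg (norm_nonneg _) _
  have hN40 : 0 ≤ N4 := Real.rpow_nonneg hsr0 _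
  have h4 : ∑ s ∈ S, ‖cf φ f s‖ ^ r ≤ (A * d * IF) ^ (r - 2) * (2 ^ 31 * A ^ 2 * IF) :=
    powr h hf hS hr2
  -- pointwise
  have hpt : ∀ x : ℝ, ∑ s ∈ S, ‖cf φ f s‖ * ‖vc L p q a s x‖ ≤
      E.indicator (fun _ => N4) x := by
    intro x
    have hdis : ∀ s ∈ S, ∀ t ∈ S, s ≠ t → Disjoint s.up t.up := by
      intro s hs' t ht hst
      rw [Set.disjoint_left]
      intro y hx1 hx2
      apply hst
      obtain ⟨k1, l1⟩ := hS s hs'
      obtain ⟨k2, l2⟩ := hS t ht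
      rw [Tile.up, k1] at hx1
      rw [Tile.up, k2] at hx2
      have hm := dy_eq_of_mem hx1 hx2
      exact Tile.ext (k1.trans k2.symm) (l1.trans l2.symm) (by omega)
    have h5 : ∑ s ∈ S, ‖vc L p q a s x‖ ^ rc r ≤ vm r L p a univ x :=
      (Finset.sum_le_sum fun s _ => hb2 s x).trans
        (hb7 S (fun s => s.up) univ x hdis fun s _ => subset_univ _)
    obtain ⟨h6, h7, h8⟩ := hb4 univ x
    have hc : r.HolderConjugate (rc r) := hconj.symm
    have h9 := Real.inner_le_Lp_mul_Lq_of_nonneg S hc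
      (f := fun s => ‖cf φ f s‖) (g := fun s => ‖vc L p q a s x‖)
      (fun s _ => norm_nonneg _) (fun s _ => norm_nonneg _)
    have h10 : (∑ s ∈ S, ‖vc L p q a s x‖ ^ rc r) ^ (1 / rc r) ≤
        (vm r L p a univ x) ^ (1 / rc r) :=
      Real.rpow_le_rpow (Finset.sum_nonneg fun s _ => by positivity) h5 (by positivity)
    by_cases hx : x ∈ E
    · rw [indicator_of_mem hx]
      have h11 : (vm r L p a univ x) ^ (1 / rc r) ≤ 1 := by
        refine Real.rpow_le_one h6 ?_ (by positivity)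
        rwa [Real.one_rpow] at h7
      calc _ ≤ _ := h9
        _ ≤ N4 * 1 := mul_le_mul_of_nonneg_left (h10.trans h11) hN40
        _ = N4 := mul_one _
    · rw [indicator_of_notMem hx]
      have h11 : (vm r L p a univ x) ^ (1 / rc r) = 0 := by
        rw [h8 hx, Real.zero_rpow (by positivity)]
      calc _ ≤ _ := h9
        _ ≤ N4 * 0 := mul_le_mul_of_nonneg_left (h10.trans h11.le) hN40
        _ = 0 := mul_zero _
  -- each term
  have hw20 : Integrable (fun x : ℝ => wt 20 ((2 : ℝ) ^ (-k) * x - l)) :=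
    (p_WTI 20 k l (by norm_num)).1
  have hvc1 : ∀ s x, ‖vc L p q a s x‖ ≤ 1 := by
    intro s x
    have h5 := hb2 s x
    have h6 := (hb4 s.up x).2.1
    rw [Real.one_rpow] at h6
    by_contra h7
    push Not at h7
    have h8 := Real.one_lt_rpow h7 hrc0
    linarith
  have hti : ∀ s ∈ S, Integrable (fun x => ‖vc L p q a s x‖ * (A * d *
      wt 20 ((2 : ℝ) ^ (-k) * x - l))) := by
    intro s _
    refine (hw20.const_mul (A * d)).mono' ?_ (Eventually.of_forall fun x => ?_)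
    · exact ((hb5 s).norm.aestronglyMeasurable).mul (hw20.const_mul (A * d)).aestronglyMeasurable
    · have h5 : 0 ≤ A * d * wt 20 ((2 : ℝ) ^ (-k) * x - l) :=
        mul_nonneg (mul_nonneg hA.le hd0) (CAR.TA1_.wt_nonneg _ _)
      rw [Real.norm_eq_abs, abs_of_nonneg (mul_nonneg (norm_nonneg _) h5)]
      exact mul_le_of_le_one_left h5 (hvc1 s x)
  have hterm : ∀ s ∈ S, ‖vav φ L p q a s‖ ≤
      ∫ x, ‖vc L p q a s x‖ * (A * d * wt 20 ((2 : ℝ) ^ (-k) * x - l)) := by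
    intro s hsS
    obtain ⟨k1, l1⟩ := hS s hsS
    refine norm_integral_le_of_norm_le (hti s hsS) (Eventually.of_forall fun x => ?_)
    rw [norm_mul]
    refine mul_le_mul_of_nonneg_left ?_ (norm_nonneg _)
    have h5 := CAR.TA1_.norm_fx h k1 l1 x
    rw [hs, k1] at h5
    exact h5
  have hsum : ∑ s ∈ S, ‖cf φ f s‖ * ‖vav φ L p q a s‖ ≤ A * d * N4 * IE := by
    calc ∑ s ∈ S, ‖cf φ f s‖ * ‖vav φ L p q a s‖
        ≤ ∑ s ∈ S, ‖cf φ f s‖ * ∫ x, ‖vc L p q a s x‖ * (A * d *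
            wt 20 ((2 : ℝ) ^ (-k) * x - l)) :=
          Finset.sum_le_sum fun s hsS => mul_le_mul_of_nonneg_left (hterm s hsS) (norm_nonneg _)
      _ = ∫ x, ∑ s ∈ S, ‖cf φ f s‖ * (‖vc L p q a s x‖ * (A * d *
            wt 20 ((2 : ℝ) ^ (-k) * x - l))) := by
          rw [integral_finsetSum _ fun s hsS => (hti s hsS).const_mul _]
          refine Finset.sum_congr rfl fun s _ => ?_
          rw [integral_const_mul]
      _ ≤ ∫ x, E.indicator (fun x => A * d * N4 * wt 20 ((2 : ℝ) ^ (-k) * x - l)) x := by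
          refine integral_mono (integrable_finsetSum _ fun s hsS => (hti s hsS).const_mul _)
            ((hw20.const_mul _).indicator hab.mE) fun x => ?_
          have h5 : 0 ≤ A * d * wt 20 ((2 : ℝ) ^ (-k) * x - l) :=
            mul_nonneg (mul_nonneg hA.le hd0) (CAR.TA1_.wt_nonneg _ _)
          have h6 : ∑ s ∈ S, ‖cf φ f s‖ * (‖vc L p q a s x‖ * (A * d *
              wt 20 ((2 : ℝ) ^ (-k) * x - l))) = (∑ s ∈ S, ‖cf φ f s‖ * ‖vc L p q a s x‖) *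
              (A * d * wt 20 ((2 : ℝ) ^ (-k) * x - l)) := by
            rw [Finset.sum_mul]
            exact Finset.sum_congr rfl fun s _ => by ring
          have h7 := mul_le_mul_of_nonneg_right (hpt x) h5
          simp only [h6]
          refine h7.trans (le_of_eq ?_)
          by_cases hx : x ∈ E
          · rw [indicator_of_mem hx, indicator_of_mem hx]
            ring
          · rw [indicator_of_notMem hx, indicator_of_notMem hx, zero_mul]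
      _ = A * d * N4 * IE := by
          rw [integral_indicator hab.mE, integral_const_mul]
  refine hsum.trans ?_
  -- constants
  set y : ℝ := (2 : ℝ) ^ k with hy
  have hyi : (2 : ℝ) ^ (-k) = y⁻¹ := by rw [zpow_neg]
  have hdy : d = y ^ (-(1 / 2) : ℝ) := by
    rw [hd, Real.sqrt_eq_rpow, Real.rpow_neg hk.le]
  rw [hdy] at h4
  have hN4b : N4 ≤ 2 ^ 16 * A * (y ^ (-(1 / 2 - 1 / r)) * IF ^ (1 - 1 / r)) :=
    root hr2 hA hk hIF0 hsr0 h4
  rw [hyi]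
  have e5 : (y⁻¹ * IF) ^ (1 - 1 / r) = y ^ (-(1 - 1 / r)) * IF ^ (1 - 1 / r) := by
    rw [Real.mul_rpow (by positivity) hIF0, Real.inv_rpow hk.le, Real.rpow_neg hk.le]
  have e6 : y ^ (-(1 / 2) : ℝ) * y ^ (-(1 / 2 - 1 / r)) = y ^ (-(1 - 1 / r)) := by
    rw [← Real.rpow_add hk]
    congr 1
    ring
  rw [e5]
  have hY0 : 0 ≤ y ^ (-(1 - 1 / r)) := Real.rpow_nonneg hk.le _
  have hI0 : 0 ≤ IF ^ (1 - 1 / r) := Real.rpow_nonneg hIF0 _
  calc A * d * N4 * IE ≤ A * d * (2 ^ 16 * A * (y ^ (-(1 / 2 - 1 / r)) *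
        IF ^ (1 - 1 / r))) * IE :=
        mul_le_mul_of_nonneg_right (mul_le_mul_of_nonneg_left hN4b (by positivity)) hIE0
    _ = 2 ^ 16 * A ^ 2 * ((y ^ (-(1 / 2) : ℝ) * y ^ (-(1 / 2 - 1 / r))) *
        IF ^ (1 - 1 / r) * IE) := by
        rw [hdy]
        ring
    _ ≤ (2 ^ 16 * A ^ 2 + 1) * (y ^ (-(1 - 1 / r)) * IF ^ (1 - 1 / r) * IE) := by
        rw [e6]
        have h7 : 0 ≤ y ^ (-(1 - 1 / r)) * IF ^ (1 - 1 / r) * IE := by positivity
        nlinarith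
    _ = (2 ^ 16 * A ^ 2 + 1) * y * (y ^ (-(1 - 1 / r)) * IF ^ (1 - 1 / r)) * (y⁻¹ * IE) := by
        field_simp

end Pool.Agent.VRR
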