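import Pool.Agent.VRR.Targets
import Pool.Agent.VRC.P_VTA2

set_option autoImplicit false

/-!
# VRR: one interval in the exceptional set (target TA2)
-/

namespace Pool.Agent.VRR

open MeasureTheory Set ComplexConjugate Filter Topology
open scoped ENNReal NNReal
open Pool.Agent.CAR

theorem p_TA2 (h0 : T_REX) : T_TA2 := by
  refine ⟨162 * 8, by positivity, ?_⟩
  intro r hr2 hr4 lam F E k l hF hfF hE hlam hne hEG
  obtain ⟨-, -, -, -, ha1, ha2, -⟩ := h0 r hr2 hr4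
  set a : ℝ := 1 - 1 / r with ha
  set W : Set ℝ := {d | ∃ x, x ∉ GG lam F ∧ d = |(2 : ℝ) ^ (-k) * x - l|} with hW
  have hWne : W.Nonempty := by
    obtain ⟨x, hx⟩ := hne
    exact ⟨_, x, hx, rfl⟩
  have hWbd : BddBelow W := ⟨0, by rintro d ⟨x, _, rfl⟩; exact abs_nonneg _⟩
  have hD0 : 0 ≤ sInf W := le_csInf hWne (by rintro d ⟨x, _, rfl⟩; exact abs_nonneg _)
  obtain ⟨d, ⟨z, hz, rfl⟩, hzd⟩ := exists_lt_of_csInf_lt hWne (lt_add_one (sInf W))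
  refine ⟨sInf W, hD0, ⟨z, hz, hzd.le⟩, ?_⟩
  have h1 := TA2_.part_E hE k l hD0 fun x hx => csInf_le hWbd ⟨x, hEG x hx, rfl⟩
  have h2 := VRC.VTA2_.part_F hF hfF hlam hz hzd.le
  have h3 := TA2_.fin hD0
  have hp : (0 : ℝ) < (2 : ℝ) ^ k := two_zpow_pos k
  have hn : (0 : ℝ) < (2 : ℝ) ^ (-k) := two_zpow_pos (-k)
  have hkk : (2 : ℝ) ^ (-k) * (2 : ℝ) ^ k = 1 := two_zpow_neg_mul k
  set D := sInf W with hD
  have hE0 : 0 ≤ ∫ x in E, wt 20 ((2 : ℝ) ^ (-k) * x - l) :=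
    integral_nonneg fun x => TA2_.wt_nonneg _ _
  have hF0 : 0 ≤ ∫ x in F, wt 10 ((2 : ℝ) ^ (-k) * x - l) :=
    integral_nonneg fun x => TA2_.wt_nonneg _ _
  have h4 : (2 : ℝ) ^ (-k) * (∫ x in F, wt 10 ((2 : ℝ) ^ (-k) * x - l)) ≤
      (3 + D) ^ 4 * (8 * lam) := by
    calc (2 : ℝ) ^ (-k) * (∫ x in F, wt 10 ((2 : ℝ) ^ (-k) * x - l))
        ≤ (2 : ℝ) ^ (-k) * ((3 + D) ^ 4 * (8 * lam * (2 : ℝ) ^ k)) :=
          mul_le_mul_of_nonneg_left h2 hn.le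
      _ = ((2 : ℝ) ^ (-k) * (2 : ℝ) ^ k) * ((3 + D) ^ 4 * (8 * lam)) := by ring
      _ = (3 + D) ^ 4 * (8 * lam) := by rw [hkk, one_mul]
  have h5 : (2 : ℝ) ^ (-k) * (∫ x in E, wt 20 ((2 : ℝ) ^ (-k) * x - l)) ≤ 2 * wt 18 D := by
    calc (2 : ℝ) ^ (-k) * (∫ x in E, wt 20 ((2 : ℝ) ^ (-k) * x - l))
        ≤ (2 : ℝ) ^ (-k) * (2 * (2 : ℝ) ^ k * wt 18 D) := mul_le_mul_of_nonneg_left h1 hn.le
      _ = ((2 : ℝ) ^ (-k) * (2 : ℝ) ^ k) * (2 * wt 18 D) := by ring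
      _ = 2 * wt 18 D := by rw [hkk, one_mul]
  have h6 : ((3 + D) ^ 4 * (8 * lam)) ^ a ≤ (3 + D) ^ 3 * (8 * lam ^ a) := by
    rw [Real.mul_rpow (by positivity) (by positivity), Real.mul_rpow (by norm_num) hlam.le]
    have e1 : ((3 + D) ^ 4) ^ a ≤ (3 + D) ^ 3 := by
      rw [← Real.rpow_natCast (3 + D) 4, ← Real.rpow_mul (by positivity),
        ← Real.rpow_natCast (3 + D) 3]
      apply Real.rpow_le_rpow_of_exponent_le (by linarith)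
      push_cast
      linarith
    have e2 : (8 : ℝ) ^ a ≤ 8 := by
      calc (8 : ℝ) ^ a ≤ (8 : ℝ) ^ (1 : ℝ) :=
            Real.rpow_le_rpow_of_exponent_le (by norm_num) (by linarith)
        _ = 8 := Real.rpow_one 8
    exact mul_le_mul e1 (mul_le_mul_of_nonneg_right e2 (Real.rpow_nonneg hlam.le _))
      (by positivity) (by positivity)
  have h7 : ((2 : ℝ) ^ (-k) * (∫ x in F, wt 10 ((2 : ℝ) ^ (-k) * x - l))) ^ a ≤
      (3 + D) ^ 3 * (8 * lam ^ a) :=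
    (Real.rpow_le_rpow (mul_nonneg hn.le hF0) h4 (by linarith)).trans h6
  have h8 : (3 + D) ^ 3 * wt 18 D ≤ 81 * wt 10 D := by
    refine le_trans ?_ h3
    exact mul_le_mul_of_nonneg_right (pow_le_pow_right₀ (by linarith) (by norm_num))
      (TA2_.wt_nonneg _ _)
  calc ((2 : ℝ) ^ (-k) * (∫ x in F, wt 10 ((2 : ℝ) ^ (-k) * x - l))) ^ a *
        ((2 : ℝ) ^ (-k) * (∫ x in E, wt 20 ((2 : ℝ) ^ (-k) * x - l)))
      ≤ (3 + D) ^ 3 * (8 * lam ^ a) * (2 * wt 18 D) :=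
        mul_le_mul h7 h5 (mul_nonneg hn.le hE0) (by positivity)
    _ = 2 * (8 * lam ^ a) * ((3 + D) ^ 3 * wt 18 D) := by ring
    _ ≤ 2 * (8 * lam ^ a) * (81 * wt 10 D) :=
        mul_le_mul_of_nonneg_left h8 (by positivity)
    _ = 162 * 8 * lam ^ a * wt 10 D := by ring

end Pool.Agent.VRR
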