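import Pool.Agent.VRR.Targets
import Pool.Agent.CAR.P_EXC
import Pool.Agent.CAR.P_TA3
import Pool.Agent.CAR.P_TAI

set_option autoImplicit false

/-!
# VRR, target TAI: tiles in the exceptional set
-/

namespace Pool.Agent.VRR

open MeasureTheory Set ComplexConjugate
open scoped ENNReal NNReal
open Pool.Agent.CAR
open Pool.Agent.VRC (PQ Act vc vav)

theorem p_TAI (_h0 : T_REX) (h1 : T_TA1) (h2 : T_TA2) : T_TAI := by
  classical
  intro A
  obtain ⟨C4, hC4, hEXC⟩ := p_EXC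
  obtain ⟨C1, hC1, hTA1⟩ := h1 A
  obtain ⟨C2, hC2, hTA2⟩ := h2
  obtain ⟨C3, hC3, hTA3⟩ := p_TA3
  refine ⟨C1 * C2 * C3 * C4, by positivity, ?_⟩
  intro r hr2 hr4 φ Φ hW f F L p q a E lam hf hpq hab hlam hE S hS
  obtain ⟨hGm, hGv⟩ := hEXC lam F hf.mF hf.fF hlam
  have hGf : volume (GG lam F) ≠ ⊤ := ne_top_of_le_ne_top ENNReal.ofReal_ne_top hGv
  have hvF : 0 ≤ vol F := ENNReal.toReal_nonneg
  have hvG : vol (GG lam F) ≤ C4 * vol F / lam :=
    ENNReal.toReal_le_of_le_ofReal (by positivity) hGv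
  have hex : ∃ x, x ∉ GG lam F := by
    by_contra h
    push Not at h
    exact hGf (by rw [eq_univ_of_forall h, Real.volume_univ])
  choose D hD0 hDx hDb using fun t : ℤ × ℤ =>
    hTA2 r hr2 hr4 lam F E t.1 t.2 hf.mF hf.fF hab.mE hlam hex hE
  set P : Finset (ℤ × ℤ) := S.image (fun s => (s.k, s.l)) with hP
  have hJ : ∀ t : ℤ × ℤ, ∃ v : ℤ × ℤ, t ∈ P → dy t.1 t.2 ⊆ dy v.1 v.2 ∧
      heavy lam F v.1 v.2 ∧ ∀ k l : ℤ, dy t.1 t.2 ⊆ dy k l → heavy lam F k l → k ≤ v.1 := by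
    intro t
    by_cases hp : t ∈ P
    · obtain ⟨s, hs, rfl⟩ := Finset.mem_image.1 hp
      obtain ⟨v, hv⟩ := Pool.Agent.CAR.TAI_.exists_J hlam hf.fF (s.k, s.l) (hS s hs)
      exact ⟨v, fun _ => hv⟩
    · exact ⟨t, fun h => absurd h hp⟩
  choose J hJ using hJ
  have hJG : ∀ t ∈ P, dy (J t).1 (J t).2 ⊆ GG lam F := fun t hp x hx =>
    ⟨(J t).1, (J t).2, hx, (hJ t hp).2.1⟩
  have h3 := hTA3 (GG lam F) hGm hGf P J D (fun t hp => ⟨(hJ t hp).1, hJG t hp⟩)
    (fun t hp v hq => ?_) (fun t hp => ⟨hD0 t, ?_⟩)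
  · have hmaps : ∀ s ∈ S, (s.k, s.l) ∈ P := fun s hs => Finset.mem_image_of_mem _ hs
    have hl : lam ^ (1 - 1 / r) * (vol F / lam) = vol F * lam ^ (-(1 / r)) := by
      have e1 : lam ^ (-(1 / r)) = lam ^ (1 - 1 / r) / lam := by
        rw [show -(1 / r) = (1 - 1 / r) - 1 by ring, Real.rpow_sub hlam, Real.rpow_one]
      rw [e1]
      ring
    calc ∑ s ∈ S, ‖cf φ f s‖ * ‖vav φ L p q a s‖
        = ∑ t ∈ P, ∑ s ∈ S with (s.k, s.l) = t, ‖cf φ f s‖ * ‖vav φ L p q a s‖ :=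
          (Finset.sum_fiberwise_of_maps_to hmaps _).symm
      _ ≤ ∑ t ∈ P, C1 * C2 * lam ^ (1 - 1 / r) * ((2 : ℝ) ^ t.1 * wt 10 (D t)) := by
          refine Finset.sum_le_sum fun t _ => ?_
          have h4 := hTA1 r hr2 hr4 φ Φ hW f F L p q a E hf hpq hab t.1 t.2
            (S.filter (fun s => (s.k, s.l) = t)) (fun s hs => by
              have := (Finset.mem_filter.1 hs).2
              exact ⟨congrArg Prod.fst this, congrArg Prod.snd this⟩)
          refine h4.trans ?_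
          have h6 : 0 ≤ C1 * (2 : ℝ) ^ t.1 := by
            have := two_zpow_pos t.1
            positivity
          have h5 := mul_le_mul_of_nonneg_left (hDb t) h6
          rw [mul_assoc (C1 * (2 : ℝ) ^ t.1)]
          refine h5.trans (le_of_eq ?_)
          ring
      _ = C1 * C2 * lam ^ (1 - 1 / r) * ∑ t ∈ P, (2 : ℝ) ^ t.1 * wt 10 (D t) := by
          rw [Finset.mul_sum]
      _ ≤ C1 * C2 * lam ^ (1 - 1 / r) * (C3 * (C4 * vol F / lam)) := by
          refine mul_le_mul_of_nonneg_left (h3.trans ?_) (by positivity)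
          exact mul_le_mul_of_nonneg_left hvG hC3.le
      _ = C1 * C2 * C3 * C4 * (lam ^ (1 - 1 / r) * (vol F / lam)) := by ring
      _ = _ := by
          rw [hl]
          ring
  · rcases le_total (J t).1 (J v).1 with h | h
    · exact Pool.Agent.CAR.TAI_.J_alt (hJ t hp).1 (hJ t hp).2.2 (hJ v hq).2.1 h
    · rcases Pool.Agent.CAR.TAI_.J_alt (hJ v hq).1 (hJ v hq).2.2 (hJ t hp).2.1 h with h1 | h1
      · exact Or.inl h1.symm
      · exact Or.inr h1.symm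
  · obtain ⟨x, hx, hx2⟩ := hDx t
    exact ⟨x, fun h => hx (hJG t hp h), hx2⟩

end Pool.Agent.VRR
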