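import Pool.Agent.VRR.Targets2
import Pool.Agent.VRC.P_TAV

set_option autoImplicit false

/-!
# VRR: sums of whole strips (target TAV)

The `V^r` version of `Pool/Agent/VRC/P_TAV.lean`.
-/

namespace Pool.Agent.VRR

open MeasureTheory FourierTransform Set Filter Topology
open scoped ENNReal NNReal
open Pool.Agent
open Pool.Agent.CAR (e1)
open Pool.Agent.CRR (Ph StripD FS FA fh NN HH NSol kap aa de la si ww xc band mk)
open Pool.Agent.CRR.TAIL_ (R seq bands g2 e1_norm e1_cont neg_lint fourier_eq memLp_of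
  fourier_cont mul_HH)
open Pool.Agent.VRC.TAV_ (e1_int split_int neg_HH gg2 ico_cont three)

namespace TAV_

/-- the sequence of the truncated integrals over `[0, R_n)` -/
theorem vc_seq (ρ : ℝ) (G : ℝ → ℂ) (hG : Integrable G) (u : ℝ) (R : ℕ → ℝ) (h0 : ∀ n, 0 ≤ R n)
    (hR : Monotone R) :
    Vs ρ (fun n => ∫ s in Ico 0 (R n), G s * e1 (u * s)) ≤ VC ρ G u := by
  have hi := e1_int hG u
  have hd : ∀ a b, a ≤ b → (∫ s in Ico 0 (R b), G s * e1 (u * s)) -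
      (∫ s in Ico 0 (R a), G s * e1 (u * s)) = ∫ s in Ico (R a) (R b), G s * e1 (u * s) := by
    intro a b hab
    have h3 := setIntegral_union (μ := volume) (f := fun s => G s * e1 (u * s))
      (s := Ico 0 (R a)) (t := Ico (R a) (R b)) (Set.disjoint_left.2 fun x hx hx2 =>
        absurd hx2.1 (not_le.2 hx.2)) measurableSet_Ico hi.integrableOn hi.integrableOn
    rw [Ico_union_Ico_eq_Ico (h0 a) (hR hab)] at h3
    rw [h3]
    ring
  refine iSup_le fun L => iSup_le fun t => iSup_le fun ht => ?_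
  have e : ∀ r ∈ Finset.range L,
      ‖(∫ s in Ico 0 (R (t (r + 1))), G s * e1 (u * s)) -
        (∫ s in Ico 0 (R (t r)), G s * e1 (u * s))‖ₑ ^ ρ =
      ‖∫ s in Ico (R (t r)) (R (t (r + 1))), G s * e1 (u * s)‖ₑ ^ ρ := by
    intro r _
    rw [hd _ _ (ht (Nat.le_succ r))]
  show (∑ r ∈ Finset.range L, ‖(∫ s in Ico 0 (R (t (r + 1))), G s * e1 (u * s)) -
        (∫ s in Ico 0 (R (t r)), G s * e1 (u * s))‖ₑ ^ ρ) ^ (1 / ρ) ≤ _
  rw [Finset.sum_congr rfl e]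
  exact le_iSup_of_le L (le_iSup_of_le (fun r => R (t r)) (le_iSup_of_le (hR.comp ht) le_rfl))

theorem vc_meas {ρ : ℝ} (hρ : 2 < ρ) (hρ4 : ρ ≤ 4) (h6 : T_VCM) {G : ℝ → ℂ}
    (hG : Integrable G) : Measurable fun u => VC ρ G u := by
  refine (h6 ρ hρ hρ4).1 ℝ (fun u a b => ∫ ξ in Ico a b, G ξ * e1 (u * ξ)) (fun a b => ?_)
    (fun u => ico_cont (e1_int hG u))
  refine (MeasureTheory.continuous_of_dominated (bound := fun ξ => ‖G ξ‖) (fun u =>
    (e1_int hG u).integrableOn.aestronglyMeasurable) (fun u => ae_of_all _ fun ξ => ?_)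
    hG.norm.integrableOn (ae_of_all _ fun ξ => ?_)).measurable
  · rw [norm_mul, e1_norm, mul_one]
  · exact continuous_const.mul (e1_cont.comp (continuous_id.mul continuous_const))

end TAV_

open TAV_ in
/-- TAV. -/
theorem p_TAV (h00 : T_REX) (h0 : Pool.Agent.CRN.T_CARLS) (h1 : Pool.Agent.CRR.T_SEQ)
    (_h2 : Pool.Agent.CRR.T_SD) (h3 : Pool.Agent.CRR.T_MUL) (h4 : T_C4) (h5 : T_VCS)
    (h6 : T_VCM) : T_TAV := by
  obtain ⟨C, hC0, hM⟩ := h3 h0
  obtain ⟨CC, hCC⟩ := h4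
  obtain ⟨r, hr0, hr1, hr2⟩ : ∃ r : ℝ, 0 ≤ r ∧ r < 1 ∧ r ^ 2 = 9 / 10 := by
    refine ⟨Real.sqrt (9 / 10), Real.sqrt_nonneg _, ?_, Real.sq_sqrt (by norm_num)⟩
    rw [Real.sqrt_lt' one_pos]
    norm_num
  obtain ⟨c, hc0, hc2⟩ : ∃ c : ℝ, 0 ≤ c ∧ c ^ 2 = C :=
    ⟨Real.sqrt C, Real.sqrt_nonneg _, Real.sq_sqrt hC0.le⟩
  have h1r : 0 < 1 - r := by linarith
  refine ⟨8 * CC * ((2 * c / (1 - r)) ^ 2).toNNReal + 8 * ((c / (1 - r)) ^ 2 * 20).toNNReal,
    fun ρ hρ hρ4 ν J J' H hν hJ hH => ?_⟩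
  obtain ⟨-, -, -, hV4, -, -, -, -, -, hV10⟩ := h5 ρ hρ hρ4
  have hK2 : 2 ≤ kr ρ := (h00 ρ hρ hρ4).2.2.2.2.2.2.2.2.1
  have hK6 : (1 : ℝ≥0∞) ≤ ENNReal.ofReal (kr ρ ^ 6) := by
    rw [← ENNReal.ofReal_one]
    exact ENNReal.ofReal_le_ofReal (one_le_pow₀ (by linarith))
  set KK : ℝ≥0∞ := ENNReal.ofReal (kr ρ ^ 6) with hKK
  obtain ⟨-, -, hS⟩ := h1 ν hν
  have hsi0 : ∀ k, 0 < si ν k := fun k => mul_pos (hS k).2.2.2.2.1 (hS k).2.1
  have hsi1 : ∀ k, 7 / 5 * si ν k ≤ si ν (k + 1) := fun k => (hS k).2.2.2.2.2.2.1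
  obtain ⟨j, hj1, hj2⟩ := bands hsi0 hsi1
  have hR0 : ∀ n, 0 ≤ R ν n := by
    intro n
    unfold R
    split_ifs
    · exact le_rfl
    · exact (hsi0 _).le
  have hRm : Monotone (R ν) := by
    refine monotone_nat_of_le_succ fun n => ?_
    rcases n with _ | n
    · have h := hR0 1
      unfold R at h ⊢
      simpa using h
    · unfold R
      simp only [Nat.succ_ne_zero, if_false, Nat.add_sub_cancel]
      have := hsi0 n
      have := hsi1 n
      linarith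
  have hmc : ∀ k, Continuous (mk ν J k) := fun k => (hM ν J J' k hν hJ).1
  have hFA := fun k => (hM ν J J' k hν hJ).2.1
  have hbd : ∀ s k, ‖mk ν J k s‖ ≤ c * r ^ (k - j s + (j s - k)) := by
    intro s k
    have h := (hM ν J J' k hν hJ).2.2 (j s) s (hj1 s)
    refine abs_le_of_sq_le_sq' ?_ (by positivity) |>.2
    rw [mul_pow, hc2, ← pow_mul, mul_comm _ 2, pow_mul, hr2]
    exact h
  have hbd1 : ∀ s k, ‖mk ν J k s‖ ≤ c := fun s k => (hbd s k).trans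
    (mul_le_of_le_one_right hc0 (pow_le_one₀ hr0 hr1.le))
  have hsq := fun s => seq hc0 hr0 hr1 (hbd s)
  -- the full multiplier
  let m : ℝ → ℂ := fun s => ∑' k, mk ν J k s
  have hm : Measurable m := by
    refine measurable_of_tendsto_metrizable (f := fun n s => ∑ k ∈ Finset.range n, mk ν J k s)
      (fun n => ?_) (tendsto_pi_nhds.2 fun s => (hsq s).1.hasSum.tendsto_sum_nat)
    exact Finset.measurable_fun_sum _ fun k _ => (hmc k).measurable
  have hmb : ∀ s, ‖m s‖ ≤ 2 * c / (1 - r) := fun s => (hsq s).2.1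
  have hA : ∀ n, MeasurableSet {s : ℝ | |s| < R ν n} := fun n =>
    measurableSet_lt measurable_norm measurable_const
  -- the differences
  let E : ℕ → ℝ → ℂ := fun n s => ∑ k ∈ Finset.range n, mk ν J k s -
    {s : ℝ | |s| < R ν n}.indicator m s
  have hE : ∀ n, Measurable (E n) := fun n =>
    (Finset.measurable_fun_sum _ fun k _ => (hmc k).measurable).sub (hm.indicator (hA n))
  have hEb : ∀ n s, ‖E n s‖ ≤ c / (1 - r) * r ^ (n - j s + (j s - n)) := by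
    intro n s
    have h := (hsq s).2.2 n
    have e : {s : ℝ | |s| < R ν n}.indicator m s = if j s < n then ∑' k, mk ν J k s else 0 := by
      by_cases hs : |s| < R ν n
      · rw [if_pos ((hj2 s n).2 hs), indicator_of_mem (show s ∈ {s : ℝ | |s| < R ν n} from hs)]
      · rw [if_neg (fun h0 => hs ((hj2 s n).1 h0)),
          indicator_of_notMem (show s ∉ {s : ℝ | |s| < R ν n} from hs)]
    show ‖∑ k ∈ Finset.range n, mk ν J k s - {s : ℝ | |s| < R ν n}.indicator m s‖ ≤ _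
    rw [e]
    exact h
  have hEb1 : ∀ n s, ‖E n s‖ ≤ c / (1 - r) := fun n s => (hEb n s).trans
    (mul_le_of_le_one_right (by positivity) (pow_le_one₀ hr0 hr1.le))
  have hHm : HH fun s => H s * m s := mul_HH hH hm hmb
  have hHE : ∀ n, HH fun s => H s * E n s := fun n => mul_HH hH (hE n) (hEb1 n)
  -- decomposition
  let Y : ℕ → ℝ → ℂ := fun n u => 𝓕 (fun s => H s * E n s) u
  have hdec : ∀ n u, ∑ k ∈ Finset.range n, FA (kap J) (aa ν k) (de ν k) (fh H) u =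
      (∫ s in {s : ℝ | |s| < R ν n}, H s * m s * e1 (-(u * s))) + Y n u := by
    intro n u
    have hi : ∀ {G : ℝ → ℂ}, Integrable G → Integrable fun s => G s * e1 (-(u * s)) := fun hG =>
      hG.mul_bdd (c := 1) (e1_cont.comp
        (continuous_const.mul continuous_id).neg).aestronglyMeasurable
        (ae_of_all _ fun s => (e1_norm _).le)
    have hik : ∀ k, Integrable fun s => H s * mk ν J k s := fun k =>
      (mul_HH hH (hmc k).measurable fun s => hbd1 s k).int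
    show _ = _ + 𝓕 (fun s => H s * E n s) u
    rw [fourier_eq, ← integral_indicator (hA n), ← integral_add
      ((hi hHm.int).indicator (hA n)) (hi (hHE n).int)]
    simp only [hFA _ H u hH]
    rw [← integral_finsetSum _ fun k _ => hi (hik k)]
    refine integral_congr_ae (ae_of_all _ fun s => ?_)
    simp only [E]
    rw [← Finset.sum_mul, ← Finset.mul_sum]
    by_cases hs : s ∈ {s : ℝ | |s| < R ν n}
    · rw [indicator_of_mem hs, indicator_of_mem hs]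
      ring
    · rw [indicator_of_notMem hs, indicator_of_notMem hs]
      ring
  let G1 : ℝ → ℂ := fun s => H s * m s
  have hG1 : HH G1 := hHm
  have hG2 : HH fun s => G1 (-s) := neg_HH hG1
  have hYm : ∀ n, Measurable fun u => ‖Y n u‖ₑ ^ 2 := fun n =>
    ((fourier_cont (hHE n).int).measurable.enorm).pow_const 2
  have hpt : ∀ u, Vs ρ (fun n => ∑ k ∈ Finset.range n,
      FA (kap J) (aa ν k) (de ν k) (fh H) u) ^ 2 ≤
      4 * VC ρ G1 (-u) ^ 2 + 4 * VC ρ (fun s => G1 (-s)) u ^ 2 + 8 * ∑' n, ‖Y n u‖ₑ ^ 2 := by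
    intro u
    let p : ℕ → ℂ := fun n => ∫ s in Ico 0 (R ν n), G1 s * e1 (-u * s)
    let q : ℕ → ℂ := fun n => ∫ s in Ico 0 (R ν n), G1 (-s) * e1 (u * s)
    have hz : ∀ n, ∑ k ∈ Finset.range n, FA (kap J) (aa ν k) (de ν k) (fh H) u =
        p n + q n + Y n u := by
      intro n
      rw [hdec, split_int G1 hG1.int u (R ν n) (hR0 n)]
    have hp : Vs ρ p ≤ VC ρ G1 (-u) := vc_seq ρ G1 hG1.int (-u) (R ν) hR0 hRm
    have hq : Vs ρ q ≤ VC ρ (fun s => G1 (-s)) u :=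
      vc_seq ρ (fun s => G1 (-s)) hG2.int u (R ν) hR0 hRm
    have hY := hV4 (fun n => Y n u)
    have hpq : Vs ρ (fun n => p n + q n) ≤ Vs ρ p + Vs ρ q := by
      refine hV10 _ _ _ fun a b _ => ?_
      rw [add_sub_add_comm]
      exact enorm_add_le _ _
    have hall : Vs ρ (fun n => ∑ k ∈ Finset.range n, FA (kap J) (aa ν k) (de ν k) (fh H) u) ≤
        Vs ρ (fun n => p n + q n) + Vs ρ (fun n => Y n u) := by
      refine hV10 _ _ _ fun a b _ => ?_
      rw [hz, hz, add_sub_add_comm]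
      exact enorm_add_le _ _
    refine le_trans ?_ (three _ _ _)
    gcongr
    refine hall.trans (add_le_add (hpq.trans (add_le_add hp hq)) hY)
  -- the estimates
  have hb : ∫⁻ s, ‖G1 s‖ₑ ^ 2 ≤ ((2 * c / (1 - r)) ^ 2).toNNReal * ∫⁻ s, ‖H s‖ₑ ^ 2 := by
    rw [← lintegral_const_mul' _ _ ENNReal.coe_ne_top]
    refine lintegral_mono fun s => ?_
    show ‖H s * m s‖ₑ ^ 2 ≤ _
    rw [enorm_mul, mul_pow, mul_comm]
    gcongr
    rw [← ofReal_norm, ← ENNReal.ofReal_pow (norm_nonneg _)]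
    exact ENNReal.ofReal_le_ofReal (pow_le_pow_left₀ (norm_nonneg _) (hmb s) 2)
  have hI1 : ∫⁻ u, VC ρ G1 (-u) ^ 2 ≤
      CC * KK * (((2 * c / (1 - r)) ^ 2).toNNReal * ∫⁻ s, ‖H s‖ₑ ^ 2) := by
    rw [neg_lint fun u => VC ρ G1 u ^ 2]
    refine (hCC ρ hρ hρ4 G1 (gg2 hG1)).trans ?_
    gcongr
  have hI2 : ∫⁻ u, VC ρ (fun s => G1 (-s)) u ^ 2 ≤
      CC * KK * (((2 * c / (1 - r)) ^ 2).toNNReal * ∫⁻ s, ‖H s‖ₑ ^ 2) := by
    refine (hCC ρ hρ hρ4 _ (gg2 hG2)).trans ?_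
    rw [neg_lint fun s => ‖G1 s‖ₑ ^ 2]
    gcongr
  have hII : ∫⁻ u, ∑' n, ‖Y n u‖ₑ ^ 2 ≤
      ((c / (1 - r)) ^ 2 * 20).toNNReal * ∫⁻ s, ‖H s‖ₑ ^ 2 := by
    rw [lintegral_tsum fun n => (hYm n).aemeasurable]
    have e : ∀ n, ∫⁻ u, ‖Y n u‖ₑ ^ 2 = ∫⁻ s, ‖H s‖ₑ ^ 2 * ‖E n s‖ₑ ^ 2 := by
      intro n
      show ∫⁻ u, ‖𝓕 (fun s => H s * E n s) u‖ₑ ^ 2 = _
      rw [CRR.HANK_.plancherel (hHE n).int (memLp_of (hHE n).int (hHE n).sq)]
      refine lintegral_congr fun s => ?_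
      rw [enorm_mul, mul_pow]
    simp only [e]
    have hme : ∀ n, Measurable fun s => ‖H s‖ₑ ^ 2 * ‖E n s‖ₑ ^ 2 := fun n =>
      (hH.meas.enorm.pow_const 2).mul ((hE n).enorm.pow_const 2)
    rw [← lintegral_tsum fun n => (hme n).aemeasurable,
      ← lintegral_const_mul' _ _ ENNReal.coe_ne_top]
    refine lintegral_mono fun s => ?_
    rw [ENNReal.tsum_mul_left, mul_comm]
    gcongr
    have h5 : ∀ n, ‖E n s‖ₑ ^ 2 ≤ ENNReal.ofReal ((c / (1 - r)) ^ 2 *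
        (9 / 10) ^ (n - j s + (j s - n))) := by
      intro n
      rw [← ofReal_norm, ← ENNReal.ofReal_pow (norm_nonneg _)]
      refine ENNReal.ofReal_le_ofReal ?_
      refine (pow_le_pow_left₀ (norm_nonneg _) (hEb n s) 2).trans (le_of_eq ?_)
      rw [mul_pow, ← pow_mul, mul_comm _ 2, pow_mul, hr2]
    refine (ENNReal.tsum_le_tsum h5).trans ?_
    rw [ENNReal.tsum_eq_iSup_nat]
    refine iSup_le fun N => ?_
    rw [← ENNReal.ofReal_sum_of_nonneg fun n _ => by positivity, ← Finset.mul_sum]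
    refine ENNReal.ofReal_le_ofReal ?_
    gcongr
    refine (g2 (by norm_num) (by norm_num) (j s) N).trans (by norm_num)
  have hYM : Measurable fun u => ∑' n, ‖Y n u‖ₑ ^ 2 := Measurable.tsum hYm
  have hV2 : Measurable fun u => VC ρ (fun s => G1 (-s)) u := vc_meas hρ hρ4 h6 hG2.int
  calc ∫⁻ u, Vs ρ (fun n => ∑ k ∈ Finset.range n, FA (kap J) (aa ν k) (de ν k) (fh H) u) ^ 2
      ≤ ∫⁻ u, (4 * VC ρ G1 (-u) ^ 2 + 4 * VC ρ (fun s => G1 (-s)) u ^ 2 +
          8 * ∑' n, ‖Y n u‖ₑ ^ 2) := lintegral_mono hpt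
    _ = 4 * (∫⁻ u, VC ρ G1 (-u) ^ 2) + 4 * (∫⁻ u, VC ρ (fun s => G1 (-s)) u ^ 2) +
          8 * ∫⁻ u, ∑' n, ‖Y n u‖ₑ ^ 2 := by
        rw [lintegral_add_right _ (hYM.const_mul 8),
          lintegral_add_right _ ((hV2.pow_const 2).const_mul 4),
          lintegral_const_mul' _ _ (by norm_num), lintegral_const_mul' _ _ (by norm_num),
          lintegral_const_mul' _ _ (by norm_num)]
    _ ≤ 4 * (CC * KK * (((2 * c / (1 - r)) ^ 2).toNNReal * ∫⁻ s, ‖H s‖ₑ ^ 2)) +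
          4 * (CC * KK * (((2 * c / (1 - r)) ^ 2).toNNReal * ∫⁻ s, ‖H s‖ₑ ^ 2)) +
          8 * (KK * (((c / (1 - r)) ^ 2 * 20).toNNReal * ∫⁻ s, ‖H s‖ₑ ^ 2)) := by
        gcongr
        exact hII.trans (le_mul_of_one_le_left zero_le hK6)
    _ = _ := by
        push_cast
        ring

end Pool.Agent.VRR
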