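import Pool.Agent.VRR.Targets
import Pool.Agent.CAR.P_TREE

set_option autoImplicit false

/-!
# VRR: the tree lemma (TREE)
-/

namespace Pool.Agent.VRR

open MeasureTheory Set ComplexConjugate
open scoped ENNReal NNReal
open Pool.Agent.CAR
open Pool.Agent.VRC (PQ Act vc vav)

theorem p_TREE (h0 : T_REX) (h1 : T_MIN) (h2 : T_PLU) : T_TREE := by
  classical
  intro A
  obtain ⟨C1, hC1, h1⟩ := h1 A
  obtain ⟨C2, hC2, h2⟩ := h2 A
  refine ⟨C1 + C2, add_pos hC1 hC2, ?_⟩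
  intro r hr hr4 φ Φ hW L p q a E hPQ hAB c T K Λ ξ eps mu hc hT heps hmu hEn hMs
  obtain ⟨-, -, -, -, -, -, -, -, hk, -⟩ := h0 r hr hr4
  have hp := h2 r hr hr4 φ Φ hW L p q a E hPQ hAB c (T.filter (fun s => ξ ∈ s.up)) K Λ ξ eps mu hc
    (fun s hs => ⟨(hT s (Finset.mem_filter.1 hs).1).1, (Finset.mem_filter.1 hs).2⟩) heps hmu
    (fun T' K' Λ' ξ' hT' => hEn T' K' Λ' ξ' (hT'.trans (Finset.filter_subset _ _)))
    (fun s hs => hMs s (Finset.mem_filter.1 hs).1)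
  have hm := h1 r hr hr4 φ Φ hW L p q a E hPQ hAB c (T.filter (fun s => ¬ ξ ∈ s.up)) K Λ ξ eps mu
    (fun s hs => by
      have h3 := Finset.mem_filter.1 hs
      refine ⟨(hT s h3.1).1, ?_⟩
      have h4 := (hT s h3.1).2
      rw [om_eq] at h4
      exact h4.resolve_right h3.2) heps hmu
    (fun s hs => ⟨hc s, TREE_.single heps hEn hc (Finset.mem_filter.1 hs).1⟩)
    (fun s hs => hMs s (Finset.mem_filter.1 hs).1)
  rw [← Finset.sum_filter_add_sum_filter_not T (fun s => ξ ∈ s.up)]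
  have hX : 0 ≤ C1 * eps * mu ^ (1 - 1 / r) * (2 : ℝ) ^ K := by
    have h5 : 0 ≤ mu ^ (1 - 1 / r) := Real.rpow_nonneg hmu _
    positivity
  have hm' : C1 * eps * mu ^ (1 - 1 / r) * (2 : ℝ) ^ K ≤
      kr r * (C1 * eps * mu ^ (1 - 1 / r) * (2 : ℝ) ^ K) :=
    le_mul_of_one_le_left hX (by linarith)
  calc _ ≤ C2 * kr r * eps * mu ^ (1 - 1 / r) * (2 : ℝ) ^ K +
        kr r * (C1 * eps * mu ^ (1 - 1 / r) * (2 : ℝ) ^ K) :=
        add_le_add hp (hm.trans hm')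
    _ = _ := by ring

end Pool.Agent.VRR
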