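import Pool.Agent.VRR.Targets
import Pool.Agent.CAR.P_HL
import Pool.Agent.CAR.P_FXB
import Pool.Agent.VRC.P_VV4

set_option autoImplicit false

/-! # V4: the r-variation of the partial sums of a (+)-tree -/

namespace Pool.Agent.VRR

open MeasureTheory Set ComplexConjugate
open scoped ENNReal NNReal
open Pool.Agent.CAR
open Pool.Agent.VRC (PQ Act vc vav GG2 NJ da ps Gm bp Yk)

namespace V4_

/-- `(sum x^r)^(1/r) <= (sum x^2)^(1/2)` for `2 < r` -/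
theorem r_le_two {ι : Type*} (s : Finset ι) (f : ι → ℝ≥0∞) (r : ℝ) (hr : 2 < r) :
    (∑ i ∈ s, f i ^ r) ^ (1 / r) ≤ (∑ i ∈ s, f i ^ 2) ^ (1 / 2 : ℝ) := by
  have hr0 : 0 < r := by linarith
  set F : ℝ≥0∞ := ∑ i ∈ s, f i ^ 2 with hF
  have h1 : ∑ i ∈ s, f i ^ r ≤ F ^ (r / 2) := by
    calc ∑ i ∈ s, f i ^ r = ∑ i ∈ s, f i ^ 2 * f i ^ (r - 2) := by
          refine Finset.sum_congr rfl fun i _ => ?_
          rw [← ENNReal.rpow_two, ← ENNReal.rpow_add_of_nonneg _ _ (by norm_num) (by linarith)]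
          congr 1
          ring
      _ ≤ ∑ i ∈ s, f i ^ 2 * F ^ ((r - 2) / 2) := by
          refine Finset.sum_le_sum fun i hi => ?_
          have h2 : f i ^ 2 ≤ F :=
            Finset.single_le_sum (f := fun j => f j ^ 2) (fun j _ => zero_le) hi
          have h3 : f i ^ (r - 2) ≤ F ^ ((r - 2) / 2) := by
            calc f i ^ (r - 2) = (f i ^ 2) ^ ((r - 2) / 2) := by
                  rw [← ENNReal.rpow_two, ← ENNReal.rpow_mul]
                  congr 1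
                  ring
              _ ≤ _ := ENNReal.rpow_le_rpow h2 (by linarith)
          exact mul_le_mul_right h3 _
      _ = F ^ (r / 2) := by
          rw [← Finset.sum_mul, ← hF]
          calc F * F ^ ((r - 2) / 2) = F ^ (1 : ℝ) * F ^ ((r - 2) / 2) := by
                rw [ENNReal.rpow_one]
            _ = F ^ (r / 2) := by
                rw [← ENNReal.rpow_add_of_nonneg _ _ (by norm_num) (by linarith)]
                congr 1
                ring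
  calc (∑ i ∈ s, f i ^ r) ^ (1 / r) ≤ (F ^ (r / 2)) ^ (1 / r) :=
        ENNReal.rpow_le_rpow h1 (by positivity)
    _ = F ^ (1 / 2 : ℝ) := by
        rw [← ENNReal.rpow_mul]
        congr 1
        field_simp

/-- the triangle inequality for the r-variation -/
theorem v_le (r : ℝ) (hr : 2 < r) (z y : ℤ → ℂ) (m M : ℤ) :
    Vz r z m M ≤ Vz r y m M + 2 * (∑ b ∈ Finset.Icc m M, ‖z b - y b‖ₑ ^ 2) ^ (1 / 2 : ℝ) := by
  classical
  have hr0 : 0 < r := by linarith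
  have hr1 : 0 ≤ 1 / r := by positivity
  refine iSup₂_le fun P hP => ?_
  obtain ⟨hP1, hP2⟩ := hP
  set P' := P.filter (fun c => c.1 < c.2) with hP'
  set D : ℤ → ℝ≥0∞ := fun b => ‖z b - y b‖ₑ with hD
  -- the degenerate intervals do not contribute
  have h0 : ∑ c ∈ P, ‖z c.2 - z c.1‖ₑ ^ r = ∑ c ∈ P', ‖z c.2 - z c.1‖ₑ ^ r := by
    rw [hP', Finset.sum_filter]
    refine Finset.sum_congr rfl fun c hc => ?_
    split_ifs with hlt
    · rfl
    · have : c.1 = c.2 := le_antisymm (hP1 c hc).2.1 (not_lt.1 hlt)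
      rw [this, sub_self, enorm_zero, ENNReal.zero_rpow_of_pos hr0]
  have hsum2 : ∀ e : ℤ × ℤ → ℤ, (∀ c ∈ P', e c ∈ Finset.Icc m M) →
      (∀ c ∈ P', ∀ d ∈ P', e c = e d → c = d) →
      (∑ c ∈ P', D (e c) ^ r) ^ (1 / r) ≤
        (∑ b ∈ Finset.Icc m M, D b ^ 2) ^ (1 / 2 : ℝ) := by
    intro e he1 he2
    refine le_trans ?_ (r_le_two (Finset.Icc m M) D r hr)
    refine ENNReal.rpow_le_rpow ?_ hr1
    rw [← Finset.sum_image (f := fun b => D b ^ r) (s := P') (g := e)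
      (fun c hc d hd h => he2 c hc d hd h)]
    refine Finset.sum_le_sum_of_subset ?_
    intro b hb
    obtain ⟨c, hc, rfl⟩ := Finset.mem_image.1 hb
    exact he1 c hc
  have hmem : ∀ c ∈ P', c ∈ P ∧ c.1 < c.2 := fun c hc => Finset.mem_filter.1 hc
  have hA := hsum2 Prod.snd
    (fun c hc => by
      obtain ⟨h1, h2⟩ := hmem c hc
      obtain ⟨h3, h4, h5⟩ := hP1 c h1
      exact Finset.mem_Icc.2 ⟨h3.trans h4, h5⟩)
    (fun c hc d hd h => by
      by_contra hne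
      obtain ⟨h1, h2⟩ := hmem c hc
      obtain ⟨h3, h4⟩ := hmem d hd
      rcases hP2 c h1 d h3 hne with h5 | h5
      · omega
      · omega)
  have hB := hsum2 Prod.fst
    (fun c hc => by
      obtain ⟨h1, h2⟩ := hmem c hc
      obtain ⟨h3, h4, h5⟩ := hP1 c h1
      exact Finset.mem_Icc.2 ⟨h3, h4.trans h5⟩)
    (fun c hc d hd h => by
      by_contra hne
      obtain ⟨h1, h2⟩ := hmem c hc
      obtain ⟨h3, h4⟩ := hmem d hd
      rcases hP2 c h1 d h3 hne with h5 | h5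
      · omega
      · omega)
  have hY : (∑ c ∈ P', ‖y c.2 - y c.1‖ₑ ^ r) ^ (1 / r) ≤ Vz r y m M := by
    refine le_trans (ENNReal.rpow_le_rpow ?_ hr1)
      (le_iSup₂_of_le (f := fun (P : Finset (ℤ × ℤ)) (_ : (∀ c ∈ P, m ≤ c.1 ∧ c.1 ≤ c.2 ∧
        c.2 ≤ M) ∧ ∀ c ∈ P, ∀ d ∈ P, c ≠ d → c.2 ≤ d.1 ∨ d.2 ≤ c.1) =>
          (∑ c ∈ P, ‖y c.2 - y c.1‖ₑ ^ r) ^ (1 / r)) P ⟨hP1, hP2⟩ le_rfl)
    exact Finset.sum_le_sum_of_subset (Finset.filter_subset _ _)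
  have hpt : ∀ c : ℤ × ℤ, ‖z c.2 - z c.1‖ₑ ≤ ‖y c.2 - y c.1‖ₑ + (D c.2 + D c.1) := by
    intro c
    have : z c.2 - z c.1 = (y c.2 - y c.1) + ((z c.2 - y c.2) - (z c.1 - y c.1)) := by ring
    rw [this]
    refine (enorm_add_le _ _).trans ?_
    gcongr
    exact enorm_sub_le
  calc (∑ c ∈ P, ‖z c.2 - z c.1‖ₑ ^ r) ^ (1 / r)
      = (∑ c ∈ P', ‖z c.2 - z c.1‖ₑ ^ r) ^ (1 / r) := by rw [h0]
    _ ≤ (∑ c ∈ P', (‖y c.2 - y c.1‖ₑ + (D c.2 + D c.1)) ^ r) ^ (1 / r) := by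
        refine ENNReal.rpow_le_rpow (Finset.sum_le_sum fun c _ => ?_) hr1
        exact ENNReal.rpow_le_rpow (hpt c) hr0.le
    _ ≤ (∑ c ∈ P', ‖y c.2 - y c.1‖ₑ ^ r) ^ (1 / r) +
        (∑ c ∈ P', (D c.2 + D c.1) ^ r) ^ (1 / r) :=
        ENNReal.Lp_add_le P' _ _ (by linarith)
    _ ≤ (∑ c ∈ P', ‖y c.2 - y c.1‖ₑ ^ r) ^ (1 / r) +
        ((∑ c ∈ P', D c.2 ^ r) ^ (1 / r) +
          (∑ c ∈ P', D c.1 ^ r) ^ (1 / r)) := by
        gcongr
        exact ENNReal.Lp_add_le P' _ _ (by linarith)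
    _ ≤ Vz r y m M + ((∑ b ∈ Finset.Icc m M, D b ^ 2) ^ (1 / 2 : ℝ) +
        (∑ b ∈ Finset.Icc m M, D b ^ 2) ^ (1 / 2 : ℝ)) :=
        add_le_add hY (add_le_add hA hB)
    _ = _ := by rw [← two_mul]

end V4_

open V4_ in
open Pool.Agent.VRC.VV4_ in
theorem p_V4 (h0 : T_REX) (h1 : T_JM) (h2 : Pool.Agent.VRC.T_VJD) : T_V4 := by
  classical
  intro A
  obtain ⟨CJ, hCJ⟩ := h1
  obtain ⟨CD, hCD⟩ := h2 A
  obtain ⟨C1, hC1, hSQ⟩ := p_SQ A
  refine ⟨CJ * (C1.toNNReal) ^ (1 / 2 : ℝ) + 2 * CD ^ (1 / 2 : ℝ), ?_⟩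
  intro r hr2 hr4 φ Φ hW T K Λ ξ hT w m M W hm hWm hWf
  obtain ⟨-, -, -, -, -, -, -, -, hk2, -⟩ := h0 r hr2 hr4
  have hk1 : (1 : ℝ≥0∞) ≤ ENNReal.ofReal (kr r) := by
    rw [← ENNReal.ofReal_one]
    exact ENNReal.ofReal_le_ofReal (by linarith)
  set H : ℝ → ℂ := fun y => ps φ T w ξ m y with hH
  set S : ℝ≥0∞ := ∑ s ∈ T, ‖w s‖ₑ ^ 2 with hS
  have hHc : Continuous H := cont_ps hW T w ξ m
  have hHi : Integrable H := int_ps hW T w ξ m
  -- the square function bound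
  have hH2 : ∫⁻ x, ‖H x‖ₑ ^ 2 ≤ (C1.toNNReal : ℝ≥0∞) * S := by
    have e1' : ∀ x, ‖H x‖ₑ ^ 2 = ‖∑ s ∈ T, w s * fx φ s x‖ₑ ^ 2 := by
      intro x
      have hf : T.filter (fun s => m ≤ s.k) = T := Finset.filter_true_of_mem hm
      simp only [hH, ps, hf]
      rw [enorm_mul]
      have : ‖e1 (-(x * ξ))‖ₑ = 1 := by
        rw [← ofReal_norm, norm_e1, ENNReal.ofReal_one]
      rw [this, mul_one]
    rw [lintegral_congr e1']
    refine (hSQ φ Φ hW T K Λ ξ hT w).trans (le_of_eq ?_)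
    rw [ENNReal.ofReal_mul hC1.le, ENNReal.ofReal_sum_of_nonneg (fun s _ => by positivity), hS]
    congr 1
    refine Finset.sum_congr rfl fun s _ => ?_
    rw [ENNReal.ofReal_pow (norm_nonneg _), ofReal_norm]
  -- the differences
  set G : ℝ → ℝ≥0∞ := fun x => ∑ b ∈ Finset.Icc m M, ‖ps φ T w ξ b x - da H b x‖ₑ ^ 2 with hG
  have hGm1 : ∀ b, Measurable fun x => ‖ps φ T w ξ b x - da H b x‖ₑ ^ 2 := by
    intro b
    exact ((cont_ps hW T w ξ b).measurable.sub (meas_da H b)).enorm.pow_const 2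
  have hGm : Measurable G := Finset.measurable_sum _ fun b _ => hGm1 b
  have hGi : ∫⁻ x, G x ≤ CD * S := by
    rw [hG, lintegral_finsetSum _ fun b _ => hGm1 b]
    exact hCD φ Φ hW T K Λ ξ hT w m M hm
  have hpt : ∀ x, Vz r (fun b => ps φ T w ξ b x) m M ≤
      Vz r (fun b => da H b x) m M + 2 * G x ^ (1 / 2 : ℝ) := fun x =>
    v_le r hr2 (fun b => ps φ T w ξ b x) (fun b => da H b x) m M
  have hgm2 : Measurable fun x => 2 * G x ^ (1 / 2 : ℝ) :=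
    (hGm.pow_const _).const_mul _
  calc ∫⁻ x in W, Vz r (fun b => ps φ T w ξ b x) m M
      ≤ ∫⁻ x in W, (Vz r (fun b => da H b x) m M + 2 * G x ^ (1 / 2 : ℝ)) :=
        lintegral_mono fun x => hpt x
    _ = (∫⁻ x in W, Vz r (fun b => da H b x) m M) + ∫⁻ x in W, 2 * G x ^ (1 / 2 : ℝ) :=
        lintegral_add_right _ hgm2
    _ ≤ CJ * ENNReal.ofReal (kr r) * volume W ^ (1 / 2 : ℝ) *
          (∫⁻ x, ‖H x‖ₑ ^ 2) ^ (1 / 2 : ℝ) +
        1 * (2 * (volume W ^ (1 / 2 : ℝ) * (∫⁻ x, G x) ^ (1 / 2 : ℝ))) := by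
        refine add_le_add (hCJ r hr2 hr4 H m M W hHc.measurable hHi hWm hWf) ?_
        rw [one_mul, lintegral_const_mul _ (hGm.pow_const _)]
        gcongr
        exact half_le G hGm W
    _ ≤ CJ * ENNReal.ofReal (kr r) * volume W ^ (1 / 2 : ℝ) *
          ((C1.toNNReal : ℝ≥0∞) * S) ^ (1 / 2 : ℝ) +
        ENNReal.ofReal (kr r) * (2 * (volume W ^ (1 / 2 : ℝ) * (CD * S) ^ (1 / 2 : ℝ))) := by
        gcongr
    _ = _ := by
        rw [ENNReal.mul_rpow_of_nonneg _ _ (by norm_num : (0 : ℝ) ≤ 1 / 2),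
          ENNReal.mul_rpow_of_nonneg _ _ (by norm_num : (0 : ℝ) ≤ 1 / 2)]
        push_cast
        rw [ENNReal.coe_rpow_of_nonneg _ (by norm_num : (0 : ℝ) ≤ 1 / 2),
          ENNReal.coe_rpow_of_nonneg _ (by norm_num : (0 : ℝ) ≤ 1 / 2)]
        ring

end Pool.Agent.VRR
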