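import Pool.Agent.VRR.Targets2

set_option autoImplicit false

/-!
# VRR: calculus of the `r`-variation of sequences (VCS), an edit of `VRC/P_VCS.lean`
-/

namespace Pool.Agent.VRR

open MeasureTheory Set Filter Topology
open scoped ENNReal NNReal

namespace VCS_

variable {p : ℝ}

theorem rp_succ (hp : 2 < p) (x : ℝ≥0∞) : x ^ p = x ^ (p - 1) * x := by
  have h := ENNReal.rpow_add_of_nonneg (x := x) (p - 1) 1 (by linarith) zero_le_one
  rw [sub_add_cancel, ENNReal.rpow_one] at h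
  exact h

theorem quart (hp : 2 < p) {x : ℝ≥0∞} : (x ^ p) ^ (1 / p) = x := by
  rw [← ENNReal.rpow_mul, mul_one_div_cancel (by linarith), ENNReal.rpow_one]

/-- finite sums -/
theorem sum_rp_le {ι : Type} (s : Finset ι) (f : ι → ℝ≥0∞) {a : ℝ} (ha : 1 ≤ a) :
    ∑ i ∈ s, f i ^ a ≤ (∑ i ∈ s, f i) ^ a := by
  have h0 : ∀ x : ℝ≥0∞, x ^ a = x ^ (a - 1) * x := by
    intro x
    have h := ENNReal.rpow_add_of_nonneg (x := x) (a - 1) 1 (by linarith) zero_le_one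
    rw [sub_add_cancel, ENNReal.rpow_one] at h
    exact h
  calc ∑ i ∈ s, f i ^ a ≤ ∑ i ∈ s, (∑ j ∈ s, f j) ^ (a - 1) * f i := by
        refine Finset.sum_le_sum (fun i hi => ?_)
        rw [h0]
        refine mul_le_mul_left (ENNReal.rpow_le_rpow ?_ (by linarith)) _
        exact Finset.single_le_sum (fun _ _ => zero_le) hi
    _ = _ := by rw [← Finset.mul_sum, ← h0]

theorem four_le_one (hp : 2 < p) {ι : Type} (s : Finset ι) (f : ι → ℝ≥0∞) :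
    (∑ i ∈ s, f i ^ p) ^ (1 / p) ≤ ∑ i ∈ s, f i := by
  calc _ ≤ ((∑ i ∈ s, f i) ^ p) ^ (1 / p) :=
        ENNReal.rpow_le_rpow (sum_rp_le s f (by linarith)) (by positivity)
    _ = _ := quart hp

theorem four_le_two (hp : 2 < p) {ι : Type} (s : Finset ι) (f : ι → ℝ≥0∞) :
    (∑ i ∈ s, f i ^ p) ^ (1 / p) ≤ (∑ i ∈ s, f i ^ 2) ^ (1 / 2 : ℝ) := by
  have h1 : ∑ i ∈ s, f i ^ p ≤ (∑ i ∈ s, f i ^ 2) ^ (p / 2) := by
    refine le_trans (le_of_eq ?_) (sum_rp_le s (fun i => f i ^ 2) (by linarith))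
    refine Finset.sum_congr rfl (fun i _ => ?_)
    rw [← ENNReal.rpow_natCast, ← ENNReal.rpow_mul]
    congr 1
    push_cast
    ring
  calc _ ≤ ((∑ i ∈ s, f i ^ 2) ^ (p / 2)) ^ (1 / p) :=
        ENNReal.rpow_le_rpow h1 (by positivity)
    _ = _ := by
      rw [← ENNReal.rpow_mul]
      congr 1
      have : p ≠ 0 := by linarith
      field_simp

theorem four_const (hp : 2 < p) (c : ℝ≥0∞) {ι : Type} (s : Finset ι) (f : ι → ℝ≥0∞) :
    (∑ i ∈ s, (c * f i) ^ p) ^ (1 / p) = c * (∑ i ∈ s, f i ^ p) ^ (1 / p) := by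
  have h1 : ∑ i ∈ s, (c * f i) ^ p = c ^ p * ∑ i ∈ s, f i ^ p := by
    rw [Finset.mul_sum]
    exact Finset.sum_congr rfl (fun i _ => ENNReal.mul_rpow_of_nonneg _ _ (by linarith))
  rw [h1, ENNReal.mul_rpow_of_nonneg _ _ (by positivity), quart hp]

theorem four_mono (hp : 2 < p) {ι : Type} (s : Finset ι) (f g : ι → ℝ≥0∞)
    (h : ∀ i ∈ s, f i ≤ g i) :
    (∑ i ∈ s, f i ^ p) ^ (1 / p) ≤ (∑ i ∈ s, g i ^ p) ^ (1 / p) := by
  refine ENNReal.rpow_le_rpow (Finset.sum_le_sum (fun i hi => ?_)) (by positivity)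
  exact ENNReal.rpow_le_rpow (h i hi) (by linarith)

theorem four_add (hp : 2 < p) {ι : Type} (s : Finset ι) (f g : ι → ℝ≥0∞) :
    (∑ i ∈ s, (f i + g i) ^ p) ^ (1 / p) ≤
      (∑ i ∈ s, f i ^ p) ^ (1 / p) + (∑ i ∈ s, g i ^ p) ^ (1 / p) :=
  ENNReal.Lp_add_le s f g (by linarith)

/-- Minkowski's inequality for integrals in `ℓ^p` -/
theorem mink (hp : 2 < p) {α : Type} [MeasurableSpace α] (μ : Measure α) {ι : Type}
    (s : Finset ι) (f : ι → α → ℝ≥0∞) (hf : ∀ i, AEMeasurable (f i) μ) :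
    (∑ i ∈ s, (∫⁻ x, f i x ∂μ) ^ p) ^ (1 / p) ≤
      ∫⁻ x, (∑ i ∈ s, f i x ^ p) ^ (1 / p) ∂μ := by
  have hp0 : p ≠ 0 := by linarith
  have hp1 : p - 1 ≠ 0 := by linarith
  obtain ⟨I, hI⟩ : ∃ I : ι → ℝ≥0∞, I = fun i => ∫⁻ x, f i x ∂μ := ⟨_, rfl⟩
  have hI' : ∀ i, ∫⁻ x, f i x ∂μ = I i := fun i => by rw [hI]
  simp only [hI']
  obtain ⟨S, hS⟩ : ∃ S, S = ∑ i ∈ s, I i ^ p := ⟨_, rfl⟩
  obtain ⟨R, hR⟩ : ∃ R, R = ∫⁻ x, (∑ i ∈ s, f i x ^ p) ^ (1 / p) ∂μ := ⟨_, rfl⟩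
  rw [← hS, ← hR]
  have hone : ∀ i ∈ s, I i ≤ R := by
    intro i hi
    rw [← hI', hR]
    refine lintegral_mono (fun x => ?_)
    calc f i x = (f i x ^ p) ^ (1 / p) := (quart hp).symm
      _ ≤ _ := ENNReal.rpow_le_rpow
        (Finset.single_le_sum (f := fun i => f i x ^ p) (fun _ _ => zero_le) hi) (by positivity)
  have hcj : (p / (p - 1)).HolderConjugate p := by
    rw [Real.holderConjugate_iff]
    refine ⟨?_, ?_⟩
    · rw [lt_div_iff₀ (by linarith)]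
      linarith
    · field_simp
      ring
  have hmain : S ≤ S ^ (1 - 1 / p) * R := by
    have h1 : S = ∫⁻ x, ∑ i ∈ s, I i ^ (p - 1) * f i x ∂μ := by
      rw [lintegral_finsetSum' s (fun i _ => (hf i).const_mul _), hS]
      refine Finset.sum_congr rfl (fun i _ => ?_)
      rw [lintegral_const_mul'' _ (hf i), hI', ← rp_succ hp]
    have h2 : ∀ x, ∑ i ∈ s, I i ^ (p - 1) * f i x ≤ S ^ (1 - 1 / p) *
        (∑ i ∈ s, f i x ^ p) ^ (1 / p) := by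
      intro x
      have h3 := ENNReal.inner_le_Lp_mul_Lq s (fun i => I i ^ (p - 1)) (fun i => f i x)
        (p := p / (p - 1)) (q := p) hcj
      refine h3.trans (le_of_eq ?_)
      congr 1
      have h4 : ∀ i, (I i ^ (p - 1)) ^ (p / (p - 1)) = I i ^ p := by
        intro i
        rw [← ENNReal.rpow_mul]
        congr 1
        field_simp
      simp only [h4]
      rw [← hS]
      congr 1
      field_simp
    calc S = ∫⁻ x, ∑ i ∈ s, I i ^ (p - 1) * f i x ∂μ := h1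
      _ ≤ ∫⁻ x, S ^ (1 - 1 / p) * (∑ i ∈ s, f i x ^ p) ^ (1 / p) ∂μ := lintegral_mono h2
      _ = S ^ (1 - 1 / p) * R := by
        rw [lintegral_const_mul'', ← hR]
        exact (Finset.aemeasurable_fun_sum s (fun i _ => (hf i).pow_const p)).pow_const _
  have hpi : 1 / p < 1 := by
    rw [div_lt_one (by linarith)]
    linarith
  by_cases h0 : S = 0
  · rw [h0, ENNReal.zero_rpow_of_pos (by positivity)]
    exact zero_le
  by_cases ht : S = ⊤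
  · have h1 : ∃ i ∈ s, I i ^ p = ⊤ := by
      rw [hS] at ht
      exact (ENNReal.sum_eq_top).1 ht
    obtain ⟨i, hi, h2⟩ := h1
    have h3 : I i = ⊤ := (ENNReal.rpow_eq_top_iff_of_pos (by linarith)).1 h2
    have h4 : R = ⊤ := top_unique (h3 ▸ hone i hi)
    rw [h4]
    exact le_top
  · have hpp : S = S ^ (1 - 1 / p) * S ^ (1 / p) := by
      rw [← ENNReal.rpow_add _ _ h0 ht, sub_add_cancel, ENNReal.rpow_one]
    have h1 : S ^ (1 - 1 / p) ≠ 0 := by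
      intro h2
      rw [ENNReal.rpow_eq_zero_iff] at h2
      rcases h2 with h2 | h2
      · exact h0 h2.1
      · exact ht h2.1
    have h2 : S ^ (1 - 1 / p) ≠ ⊤ := ENNReal.rpow_ne_top_of_nonneg (by linarith) ht
    have h3 : S ^ (1 - 1 / p) * S ^ (1 / p) ≤ S ^ (1 - 1 / p) * R := by
      rw [← hpp]
      exact hmain
    exact (ENNReal.mul_le_mul_iff_right h1 h2).1 h3

theorem le_V (z : ℕ → ℂ) (L : ℕ) (t : ℕ → ℕ) (ht : Monotone t) :
    (∑ r ∈ Finset.range L, ‖z (t (r + 1)) - z (t r)‖ₑ ^ p) ^ (1 / p) ≤ Vs p z := by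
  unfold Vs
  exact le_iSup_of_le L (le_iSup_of_le t (le_iSup_of_le ht le_rfl))

theorem V_le {z : ℕ → ℂ} {B : ℝ≥0∞} (h : ∀ (L : ℕ) (t : ℕ → ℕ), Monotone t →
    (∑ r ∈ Finset.range L, ‖z (t (r + 1)) - z (t r)‖ₑ ^ p) ^ (1 / p) ≤ B) : Vs p z ≤ B := by
  unfold Vs
  exact iSup_le (fun L => iSup_le (fun t => iSup_le (fun ht => h L t ht)))

theorem part2 (hp : 2 < p) (α : Type) [MeasurableSpace α] (μ : Measure α) (z : ℕ → ℂ)
    (y : α → ℕ → ℂ)
    (hy : ∀ a, AEMeasurable (fun s => y s a) μ)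
    (h : ∀ a b, a ≤ b → ‖z b - z a‖ₑ ≤ ∫⁻ s, ‖y s b - y s a‖ₑ ∂μ) :
    Vs p z ≤ ∫⁻ s, Vs p (y s) ∂μ := by
  refine V_le (fun L t ht => ?_)
  calc _ ≤ (∑ r ∈ Finset.range L, (∫⁻ s, ‖y s (t (r + 1)) - y s (t r)‖ₑ ∂μ) ^ p) ^
          (1 / p) := four_mono hp _ _ _ (fun r _ => h _ _ (ht (Nat.le_succ r)))
    _ ≤ ∫⁻ s, (∑ r ∈ Finset.range L, ‖y s (t (r + 1)) - y s (t r)‖ₑ ^ p) ^ (1 / p) ∂μ :=
        mink hp μ _ (fun r s => ‖y s (t (r + 1)) - y s (t r)‖ₑ)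
          (fun r => ((hy _).sub (hy _)).enorm)
    _ ≤ _ := lintegral_mono (fun s => le_V (y s) L t ht)

theorem part1 (hp : 2 < p) (z : ℕ → ℂ) (y : ℕ → ℕ → ℂ)
    (h : ∀ a b, a ≤ b → ‖z b - z a‖ₑ ≤ ∑' i, ‖y i b - y i a‖ₑ) : Vs p z ≤ ∑' i, Vs p (y i) := by
  have h1 := part2 hp ℕ Measure.count z y (fun a => (measurable_of_countable _).aemeasurable)
    (fun a b hab => by
      rw [lintegral_count]
      exact h a b hab)
  rwa [lintegral_count] at h1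

theorem part3 (hp : 2 < p) (z : ℕ → ℂ) (a b : ℕ) (hab : a ≤ b) : ‖z b - z a‖ₑ ≤ Vs p z := by
  have h1 := le_V (p := p) z 1 (fun r => if r = 0 then a else b) (by
    refine monotone_nat_of_le_succ (fun n => ?_)
    by_cases hn : n = 0
    · simp [hn, hab]
    · simp [hn])
  rw [Finset.sum_range_one, quart hp] at h1
  simpa using h1

theorem inj1 {t : ℕ → ℕ} (ht : Monotone t) {r r' : ℕ} (h : t r < t (r + 1))
    (h' : t r' < t (r' + 1)) (he : t r = t r') : r = r' := by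
  rcases lt_trichotomy r r' with h1 | h1 | h1
  · have h2 : t (r + 1) ≤ t r' := ht h1
    omega
  · exact h1
  · have h2 : t (r' + 1) ≤ t r := ht h1
    omega

theorem inj2 {t : ℕ → ℕ} (ht : Monotone t) {r r' : ℕ} (h : t r < t (r + 1))
    (h' : t r' < t (r' + 1)) (he : t (r + 1) = t (r' + 1)) : r = r' := by
  rcases lt_trichotomy r r' with h1 | h1 | h1
  · have h2 : t (r + 1) ≤ t r' := ht h1
    omega
  · exact h1
  · have h2 : t (r' + 1) ≤ t r := ht h1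
    omega

theorem sq_sub (a b : ℂ) : ‖a - b‖ₑ ^ 2 ≤ 2 * ‖b‖ₑ ^ 2 + 2 * ‖a‖ₑ ^ 2 := by
  have h1 := ENNReal.rpow_add_le_mul_rpow_add_rpow ‖a‖ₑ ‖b‖ₑ (p := ((2 : ℕ) : ℝ)) (by norm_num)
  simp only [ENNReal.rpow_natCast] at h1
  calc ‖a - b‖ₑ ^ 2 ≤ (‖a‖ₑ + ‖b‖ₑ) ^ 2 := by
        gcongr
        exact enorm_sub_le
    _ ≤ 2 ^ (((2 : ℕ) : ℝ) - 1) * (‖a‖ₑ ^ 2 + ‖b‖ₑ ^ 2) := h1
    _ = _ := by
        norm_num
        ring

theorem part4 (hp : 2 < p) (z : ℕ → ℂ) : Vs p z ≤ 2 * (∑' n, ‖z n‖ₑ ^ 2) ^ (1 / 2 : ℝ) := by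
  classical
  refine V_le (fun L t ht => ?_)
  obtain ⟨S, hS⟩ : ∃ S, S = ∑' n, ‖z n‖ₑ ^ 2 := ⟨_, rfl⟩
  rw [← hS]
  refine (four_le_two hp _ _).trans ?_
  have h1 : ∑ r ∈ Finset.range L, ‖z (t (r + 1)) - z (t r)‖ₑ ^ 2 ≤ 4 * S := by
    have h2 : ∑ r ∈ Finset.range L, ‖z (t (r + 1)) - z (t r)‖ₑ ^ 2 =
        ∑ r ∈ (Finset.range L).filter (fun r => t r < t (r + 1)),
          ‖z (t (r + 1)) - z (t r)‖ₑ ^ 2 := by
      symm
      refine Finset.sum_subset (Finset.filter_subset _ _) (fun r hr hr' => ?_)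
      have h3 : ¬ t r < t (r + 1) := fun h4 => hr' (Finset.mem_filter.2 ⟨hr, h4⟩)
      have h4 : t (r + 1) = t r := le_antisymm (not_lt.1 h3) (ht (Nat.le_succ r))
      rw [h4, sub_self, enorm_zero]
      norm_num
    have h3 : ∑ r ∈ (Finset.range L).filter (fun r => t r < t (r + 1)), ‖z (t r)‖ₑ ^ 2 ≤ S := by
      rw [← Finset.sum_image (f := fun n => ‖z n‖ₑ ^ 2) (g := t), hS]
      · exact ENNReal.sum_le_tsum _
      · intro r hr r' hr' he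
        exact inj1 ht (Finset.mem_filter.1 hr).2 (Finset.mem_filter.1 hr').2 he
    have h4 : ∑ r ∈ (Finset.range L).filter (fun r => t r < t (r + 1)), ‖z (t (r + 1))‖ₑ ^ 2 ≤
        S := by
      rw [← Finset.sum_image (f := fun n => ‖z n‖ₑ ^ 2) (g := fun r => t (r + 1)), hS]
      · exact ENNReal.sum_le_tsum _
      · intro r hr r' hr' he
        exact inj2 ht (Finset.mem_filter.1 hr).2 (Finset.mem_filter.1 hr').2 he
    rw [h2]
    calc _ ≤ ∑ r ∈ (Finset.range L).filter (fun r => t r < t (r + 1)),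
          (2 * ‖z (t r)‖ₑ ^ 2 + 2 * ‖z (t (r + 1))‖ₑ ^ 2) :=
          Finset.sum_le_sum (fun r _ => sq_sub _ _)
      _ ≤ 2 * S + 2 * S := by
          rw [Finset.sum_add_distrib, ← Finset.mul_sum, ← Finset.mul_sum]
          gcongr
      _ = 4 * S := by ring
  calc _ ≤ (4 * S) ^ (1 / 2 : ℝ) := ENNReal.rpow_le_rpow h1 (by norm_num)
    _ = _ := by
      rw [ENNReal.mul_rpow_of_nonneg _ _ (by norm_num)]
      congr 1
      have h5 : (4 : ℝ≥0∞) = 2 ^ ((2 : ℕ) : ℝ) := by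
        rw [ENNReal.rpow_natCast]
        norm_num
      rw [h5, ← ENNReal.rpow_mul]
      norm_num

theorem part5 (_hp : 2 < p) (z : ℕ → ℂ) (y : ℕ → ℕ → ℂ)
    (h : ∀ a, Tendsto (fun n => y n a) atTop (𝓝 (z a))) :
    Vs p z ≤ liminf (fun n => Vs p (y n)) atTop := by
  refine V_le (fun L t ht => ?_)
  have h1 : Tendsto (fun n => (∑ r ∈ Finset.range L, ‖y n (t (r + 1)) - y n (t r)‖ₑ ^ p) ^
      (1 / p)) atTop (𝓝 ((∑ r ∈ Finset.range L, ‖z (t (r + 1)) - z (t r)‖ₑ ^ p) ^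
      (1 / p))) := by
    refine (ENNReal.continuous_rpow_const.tendsto _).comp ?_
    refine tendsto_finsetSum _ (fun r _ => ?_)
    refine ((ENNReal.continuous_rpow_const (y := p)).tendsto _).comp ?_
    exact ((h _).sub (h _)).enorm
  rw [← h1.liminf_eq]
  exact liminf_le_liminf (Eventually.of_forall (fun n => le_V (y n) L t ht))

theorem part6 (hp : 2 < p) (z y : ℕ → ℂ) (c : ℝ≥0∞)
    (h : ∀ a b, a ≤ b → ‖z b - z a‖ₑ ≤ c * ‖y b - y a‖ₑ) : Vs p z ≤ c * Vs p y := by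
  refine V_le (fun L t ht => ?_)
  calc _ ≤ (∑ r ∈ Finset.range L, (c * ‖y (t (r + 1)) - y (t r)‖ₑ) ^ p) ^ (1 / p) :=
        four_mono hp _ _ _ (fun r _ => h _ _ (ht (Nat.le_succ r)))
    _ = c * (∑ r ∈ Finset.range L, ‖y (t (r + 1)) - y (t r)‖ₑ ^ p) ^ (1 / p) :=
        four_const hp _ _ _
    _ ≤ _ := by
        gcongr
        exact le_V y L t ht

theorem abel (m y : ℕ → ℂ) (a k : ℕ) :
    ∑ i ∈ Finset.Ico a (a + k + 1), m i * (y (i + 1) - y i) =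
      m (a + k) * (y (a + k + 1) - y a) -
        ∑ i ∈ Finset.Ico a (a + k), (m (i + 1) - m i) * (y (i + 1) - y a) := by
  induction k with
  | zero => simp
  | succ k ih =>
    rw [Finset.sum_Ico_succ_top (by omega), ← add_assoc, ih,
      Finset.sum_Ico_succ_top (by omega)]
    ring

theorem step7 (z y m : ℕ → ℂ) (K K' : ℝ≥0∞)
    (h : ∀ a b, a ≤ b → z b - z a = ∑ i ∈ Finset.Ico a b, m i * (y (i + 1) - y i))
    (hK : ∀ i, ‖m i‖ₑ ≤ K) (hK' : ∑' i, ‖m (i + 1) - m i‖ₑ ≤ K') (a b : ℕ) (hab : a ≤ b) :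
    ∃ c, a ≤ c ∧ c ≤ b ∧ ‖z b - z a‖ₑ ≤ (K + K') * ‖y c - y a‖ₑ := by
  rcases hab.eq_or_lt with he | hlt
  · refine ⟨a, le_rfl, hab, ?_⟩
    rw [← he, sub_self, enorm_zero]
    exact zero_le
  · obtain ⟨c, hc, hmax⟩ := Finset.exists_max_image (Finset.Icc a b) (fun i => ‖y i - y a‖ₑ)
      ⟨a, Finset.mem_Icc.2 ⟨le_rfl, hab⟩⟩
    rw [Finset.mem_Icc] at hc
    refine ⟨c, hc.1, hc.2, ?_⟩
    obtain ⟨k, hk⟩ : ∃ k, b = a + k + 1 := ⟨b - a - 1, by omega⟩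
    rw [h a b hab, hk, abel]
    have h1 : ‖y (a + k + 1) - y a‖ₑ ≤ ‖y c - y a‖ₑ :=
      hmax _ (Finset.mem_Icc.2 ⟨by omega, by omega⟩)
    have h2 : ‖∑ i ∈ Finset.Ico a (a + k), (m (i + 1) - m i) * (y (i + 1) - y a)‖ₑ ≤
        K' * ‖y c - y a‖ₑ := by
      calc _ ≤ ∑ i ∈ Finset.Ico a (a + k), ‖(m (i + 1) - m i) * (y (i + 1) - y a)‖ₑ :=
            enorm_sum_le _ _
        _ ≤ ∑ i ∈ Finset.Ico a (a + k), ‖m (i + 1) - m i‖ₑ * ‖y c - y a‖ₑ := by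
            refine Finset.sum_le_sum (fun i hi => ?_)
            rw [Finset.mem_Ico] at hi
            rw [enorm_mul]
            gcongr
            exact hmax _ (Finset.mem_Icc.2 ⟨by omega, by omega⟩)
        _ ≤ _ := by
            rw [← Finset.sum_mul]
            gcongr
            exact (ENNReal.sum_le_tsum _).trans hK'
    calc _ ≤ ‖m (a + k) * (y (a + k + 1) - y a)‖ₑ +
          ‖∑ i ∈ Finset.Ico a (a + k), (m (i + 1) - m i) * (y (i + 1) - y a)‖ₑ := enorm_sub_le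
      _ ≤ K * ‖y c - y a‖ₑ + K' * ‖y c - y a‖ₑ := by
          rw [enorm_mul]
          gcongr
          exact hK _
      _ = _ := by rw [add_mul]

theorem even_le (g : ℕ → ℝ≥0∞) (L : ℕ) :
    ∑ r ∈ Finset.range L, g (2 * r) ≤ ∑ s ∈ Finset.range (2 * L), g s := by
  induction L with
  | zero => simp
  | succ L ih =>
    rw [Finset.sum_range_succ, show 2 * (L + 1) = 2 * L + 1 + 1 by ring,
      Finset.sum_range_succ, Finset.sum_range_succ]
    calc _ ≤ ∑ s ∈ Finset.range (2 * L), g s + g (2 * L) := by gcongr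
      _ ≤ _ := le_self_add

theorem part7 (hp : 2 < p) (z y m : ℕ → ℂ) (K K' : ℝ≥0∞)
    (h : ∀ a b, a ≤ b → z b - z a = ∑ i ∈ Finset.Ico a b, m i * (y (i + 1) - y i))
    (hK : ∀ i, ‖m i‖ₑ ≤ K) (hK' : ∑' i, ‖m (i + 1) - m i‖ₑ ≤ K') :
    Vs p z ≤ (K + K') * Vs p y := by
  refine V_le (fun L t ht => ?_)
  have h1 : ∀ r, ∃ c, t r ≤ c ∧ c ≤ t (r + 1) ∧
      ‖z (t (r + 1)) - z (t r)‖ₑ ≤ (K + K') * ‖y c - y (t r)‖ₑ :=
    fun r => step7 z y m K K' h hK hK' _ _ (ht (Nat.le_succ r))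
  choose c hc1 hc2 hc3 using h1
  obtain ⟨τ, hτ⟩ : ∃ τ : ℕ → ℕ, τ = fun n => if n % 2 = 0 then t (n / 2) else c (n / 2) :=
    ⟨_, rfl⟩
  have hev : ∀ r, τ (2 * r) = t r := by
    intro r
    rw [hτ]
    simp
  have hodd : ∀ r, τ (2 * r + 1) = c r := by
    intro r
    rw [hτ]
    have h2 : (2 * r + 1) % 2 = 1 := by omega
    have h3 : (2 * r + 1) / 2 = r := by omega
    simp [h2, h3]
  have hmono : Monotone τ := by
    refine monotone_nat_of_le_succ (fun n => ?_)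
    rcases Nat.even_or_odd' n with ⟨r, hr | hr⟩
    · rw [hr, hev, hodd]
      exact hc1 r
    · rw [hr, hodd, show 2 * r + 1 + 1 = 2 * (r + 1) by ring, hev]
      exact hc2 r
  calc _ ≤ (∑ r ∈ Finset.range L, ((K + K') * ‖y (c r) - y (t r)‖ₑ) ^ p) ^ (1 / p) :=
        four_mono hp _ _ _ (fun r _ => hc3 r)
    _ = (K + K') * (∑ r ∈ Finset.range L, ‖y (c r) - y (t r)‖ₑ ^ p) ^ (1 / p) :=
        four_const hp _ _ _
    _ ≤ _ := by
        gcongr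
        refine le_trans (ENNReal.rpow_le_rpow ?_ (one_div_nonneg.2 (by linarith)))
          (le_V y (2 * L) τ hmono)
        have h4 := even_le (fun s => ‖y (τ (s + 1)) - y (τ s)‖ₑ ^ p) L
        refine le_trans (le_of_eq ?_) h4
        refine Finset.sum_congr rfl (fun r _ => ?_)
        rw [hodd, hev]

theorem part9 (hp : 2 < p) (z : ℕ → ℂ) : Vs p z ≤ ∑' n, ‖z (n + 1) - z n‖ₑ := by
  refine V_le (fun L t ht => ?_)
  refine (four_le_one hp _ _).trans ?_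
  have h1 : ∀ a k, ‖z (a + k) - z a‖ₑ ≤ ∑ i ∈ Finset.Ico a (a + k), ‖z (i + 1) - z i‖ₑ := by
    intro a k
    induction k with
    | zero => simp
    | succ k ih =>
      rw [← add_assoc, Finset.sum_Ico_succ_top (by omega)]
      have h2 : z (a + k + 1) - z a = (z (a + k) - z a) + (z (a + k + 1) - z (a + k)) := by ring
      rw [h2]
      exact (enorm_add_le _ _).trans (add_le_add ih le_rfl)
  have h2 : ∀ L : ℕ, ∑ r ∈ Finset.range L, ‖z (t (r + 1)) - z (t r)‖ₑ ≤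
      ∑ i ∈ Finset.Ico (t 0) (t L), ‖z (i + 1) - z i‖ₑ := by
    intro L
    induction L with
    | zero => simp
    | succ L ih =>
      rw [Finset.sum_range_succ]
      have h3 : t L ≤ t (L + 1) := ht (Nat.le_succ L)
      have h4 := h1 (t L) (t (L + 1) - t L)
      rw [Nat.add_sub_cancel' h3] at h4
      refine (add_le_add ih h4).trans (le_of_eq ?_)
      exact Finset.sum_Ico_consecutive _ (ht (Nat.zero_le L)) h3
  exact (h2 L).trans (ENNReal.sum_le_tsum _)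

theorem part10 (hp : 2 < p) (z y x : ℕ → ℂ)
    (h : ∀ a b, a ≤ b → ‖z b - z a‖ₑ ≤ ‖y b - y a‖ₑ + ‖x b - x a‖ₑ) :
    Vs p z ≤ Vs p y + Vs p x := by
  refine V_le (fun L t ht => ?_)
  calc _ ≤ (∑ r ∈ Finset.range L, (‖y (t (r + 1)) - y (t r)‖ₑ +
          ‖x (t (r + 1)) - x (t r)‖ₑ) ^ p) ^ (1 / p) :=
        four_mono hp _ _ _ (fun r _ => h _ _ (ht (Nat.le_succ r)))
    _ ≤ _ := four_add hp _ _ _
    _ ≤ _ := add_le_add (le_V y L t ht) (le_V x L t ht)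

theorem part8 (z : ℕ → ℂ) (F : ℝ → ℝ → ℂ) (N : ℕ → ℝ) (hN : Monotone N)
    (h : ∀ a b, a ≤ b → z b - z a = F (N a) (N b)) : Vs p z ≤ Vo p F := by
  refine V_le (fun L t ht => ?_)
  unfold Vo
  refine le_iSup_of_le L (le_iSup_of_le (fun r => N (t r))
    (le_iSup_of_le (hN.comp ht) (le_of_eq ?_)))
  congr 1
  refine Finset.sum_congr rfl (fun r _ => ?_)
  rw [h _ _ (ht (Nat.le_succ r))]

end VCS_

open VCS_ in
theorem p_VCS (_h0 : T_REX) : T_VCS := fun _ hp _ =>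
  ⟨part1 hp, fun α _ μ z y hy h => part2 hp α μ z y hy h, part3 hp, part4 hp, part5 hp, part6 hp,
    part7 hp, part8, part9 hp, part10 hp⟩

end Pool.Agent.VRR
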