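import Pool.Agent.VRR.Targets2
import Pool.Agent.VRC.P_WIV

set_option autoImplicit false

/-!
# VRR, target WIV: inside a window
-/

namespace Pool.Agent.VRR

open MeasureTheory FourierTransform Set Filter Topology
open scoped ENNReal NNReal
open Pool.Agent.CAR (e1)
open Pool.Agent.CRR (Ph)
open Pool.Agent.VRC (NF)

namespace WIV_

/-- `ℓ^r` norms over disjoint pieces of the window -/
theorem sum_le_NV {r : ℝ} (hr : 0 < r) {w : ℝ} {h : ℝ → ℂ} {i : ℤ} {X : ℝ} (L : ℕ)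
    (N V : ℕ → ℝ) (h0 : i * w ≤ N 0) (hL : N L ≤ (i + 1) * w) (hN : Monotone N)
    (hV : ∀ j, N j ≤ V j ∧ V j ≤ N (j + 1)) :
    (∑ j ∈ Finset.range L, ‖∫ v in Ioc (N j) (V j), h v * e1 (X * v)‖ₑ ^ r) ^ (1 / r) ≤
      NV r w h i X := by
  set t : ℕ → ℝ := fun m => if m % 2 = 0 then N (m / 2) else V (m / 2) with ht
  have te : ∀ j, t (2 * j) = N j := by
    intro j
    simp only [ht]
    rw [if_pos (by omega), show 2 * j / 2 = j by omega]
  have tod : ∀ j, t (2 * j + 1) = V j := by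
    intro j
    simp only [ht]
    rw [if_neg (by omega), show (2 * j + 1) / 2 = j by omega]
  have tm : Monotone t := by
    refine monotone_nat_of_le_succ fun m => ?_
    rcases Nat.even_or_odd' m with ⟨j, rfl | rfl⟩
    · rw [te, tod]
      exact (hV j).1
    · rw [tod, show 2 * j + 1 + 1 = 2 * (j + 1) by ring, te]
      exact (hV j).2
  have h1 : (∑ m ∈ Finset.range (2 * L), ‖NF w h i X (t m) (t (m + 1))‖ₑ ^ r) ^ (1 / r) ≤
      NV r w h i X := by
    unfold NV Vo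
    exact le_iSup_of_le (2 * L) (le_iSup_of_le t (le_iSup_of_le tm le_rfl))
  refine le_trans (ENNReal.rpow_le_rpow ?_ (by positivity)) h1
  have h2 : ∀ j ∈ Finset.range L, ‖∫ v in Ioc (N j) (V j), h v * e1 (X * v)‖ₑ ^ r =
      ‖NF w h i X (t (2 * j)) (t (2 * j + 1))‖ₑ ^ r := by
    intro j hj
    rw [Finset.mem_range] at hj
    rw [te, tod, NF]
    congr 3
    rw [inter_eq_left.2]
    exact Ioc_subset_Ioc (h0.trans (hN (Nat.zero_le j)))
      (((hV j).2.trans (hN hj)).trans hL)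
  rw [Finset.sum_congr rfl h2]
  have h3 : ∑ j ∈ Finset.range L, ‖NF w h i X (t (2 * j)) (t (2 * j + 1))‖ₑ ^ r =
      ∑ m ∈ (Finset.range L).image (fun j => 2 * j), ‖NF w h i X (t m) (t (m + 1))‖ₑ ^ r := by
    rw [Finset.sum_image]
    intro a _ b _ hab
    simp only at hab
    omega
  rw [h3]
  refine Finset.sum_le_sum_of_subset fun m hm => ?_
  obtain ⟨j, hj, rfl⟩ := Finset.mem_image.1 hm
  rw [Finset.mem_range] at hj ⊢
  omega

end WIV_

open WIV_ in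
/-- WIV -/
theorem p_WIV (_h0 : T_REX) (h1 : Pool.Agent.VRC.T_WIV) : T_WIV := by
  intro A hA
  obtain ⟨C, hC⟩ := h1 A hA
  refine ⟨C, fun r hr2 _hr4 lam d w Θ Θ1 Θ2 s u i b b' h hPh hlam hd hw hwd hwl hs hh L N hN h0
    hL hb hb' => ?_⟩
  have hr : 0 < r := by linarith
  have hloc := (hC lam d w Θ Θ1 Θ2 s u i b b' h hPh hlam hd hw hwd hwl hs hh).1
  set X : ℝ := s * Θ1 (u + i * w) with hX
  have hDc : Continuous fun v => h v * e1 (X * v) :=
    hh.mul (Pool.Agent.CRR.WIN_.continuous_e1.comp (continuous_const.mul continuous_id))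
  have hex : ∀ j, ∃ V, (N j ≤ V ∧ V ≤ N (j + 1)) ∧ ∀ t ∈ Icc (N j) (N (j + 1)),
      ‖∫ v in Ioc (N j) t, h v * e1 (X * v)‖ₑ ≤ ‖∫ v in Ioc (N j) V, h v * e1 (X * v)‖ₑ := by
    intro j
    obtain ⟨V, hV, h2⟩ := Pool.Agent.VRC.WIV_.exists_max hDc (hN (Nat.le_succ j))
    exact ⟨V, hV, h2⟩
  choose V hV hmax using hex
  have hterm : ∀ j ∈ Finset.range L,
      ‖∫ v in Ioc (N j) (N (j + 1)), e1 (s * Θ (u + v)) * b (u + v) * h v‖ₑ ^ r ≤
        (C : ℝ≥0∞) ^ r * ‖∫ v in Ioc (N j) (V j), h v * e1 (X * v)‖ₑ ^ r := by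
    intro j hj
    rw [Finset.mem_range] at hj
    have hsub : Icc (u + N j) (u + N (j + 1)) ⊆ Icc (u + N 0) (u + N L) :=
      Icc_subset_Icc (by linarith [hN (Nat.zero_le j)]) (by
        have : N (j + 1) ≤ N L := hN hj
        linarith)
    have h2 := hloc (N j) (N (j + 1)) (h0.trans (hN (Nat.zero_le j))) (hN (Nat.le_succ j))
      ((hN hj).trans hL) (fun x hx => hb x (hsub hx)) (hb'.mono hsub)
    have h3 : (⨆ t ∈ Icc (N j) (N (j + 1)), ‖∫ v in Ioc (N j) t, h v * e1 (X * v)‖ₑ) ≤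
        ‖∫ v in Ioc (N j) (V j), h v * e1 (X * v)‖ₑ := iSup₂_le fun t ht => hmax j t ht
    rw [← ENNReal.mul_rpow_of_nonneg _ _ hr.le]
    exact ENNReal.rpow_le_rpow (h2.trans (mul_le_mul_right h3 _)) hr.le
  calc (∑ j ∈ Finset.range L,
      ‖∫ v in Ioc (N j) (N (j + 1)), e1 (s * Θ (u + v)) * b (u + v) * h v‖ₑ ^ r) ^ (1 / r)
      ≤ (∑ j ∈ Finset.range L, (C : ℝ≥0∞) ^ r *
          ‖∫ v in Ioc (N j) (V j), h v * e1 (X * v)‖ₑ ^ r) ^ (1 / r) :=
        ENNReal.rpow_le_rpow (Finset.sum_le_sum hterm) (by positivity)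
    _ = C * (∑ j ∈ Finset.range L,
          ‖∫ v in Ioc (N j) (V j), h v * e1 (X * v)‖ₑ ^ r) ^ (1 / r) := by
        rw [← Finset.mul_sum, ENNReal.mul_rpow_of_nonneg _ _ (by positivity)]
        congr 1
        rw [← ENNReal.rpow_mul, mul_one_div_cancel hr.ne', ENNReal.rpow_one]
    _ ≤ C * NV r w h i X := mul_le_mul_right (sum_le_NV hr L N V h0 hL hN hV) _

end Pool.Agent.VRR
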