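import Pool.Agent.VRC.All
import Pool.Agent.VRR.P_ACV
import Pool.Agent.VRR.P_AVB
import Pool.Agent.VRR.P_AVG
import Pool.Agent.VRR.P_BAS
import Pool.Agent.VRR.P_C4
import Pool.Agent.VRR.P_CAR
import Pool.Agent.VRR.P_DCV
import Pool.Agent.VRR.P_DEV
import Pool.Agent.VRR.P_DIV
import Pool.Agent.VRR.P_DNB
import Pool.Agent.VRR.P_HAV
import Pool.Agent.VRR.P_HIV
import Pool.Agent.VRR.P_INT
import Pool.Agent.VRR.P_JM
import Pool.Agent.VRR.P_LIM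
import Pool.Agent.VRR.P_MAR
import Pool.Agent.VRR.P_MASS
import Pool.Agent.VRR.P_MIN
import Pool.Agent.VRR.P_MODS
import Pool.Agent.VRR.P_NVD
import Pool.Agent.VRR.P_NVR
import Pool.Agent.VRR.P_NVF
import Pool.Agent.VRR.P_OFV
import Pool.Agent.VRR.P_P2
import Pool.Agent.VRR.P_PAV
import Pool.Agent.VRR.P_PLU
import Pool.Agent.VRR.P_RA
import Pool.Agent.VRR.P_RAV
import Pool.Agent.VRR.P_RB
import Pool.Agent.VRR.P_REF
import Pool.Agent.VRR.P_REX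
import Pool.Agent.VRR.P_SCK
import Pool.Agent.VRR.P_SDV
import Pool.Agent.VRR.P_SMA
import Pool.Agent.VRR.P_SPL
import Pool.Agent.VRR.P_STP
import Pool.Agent.VRR.P_SUM
import Pool.Agent.VRR.P_TA1
import Pool.Agent.VRR.P_TA2
import Pool.Agent.VRR.P_TAI
import Pool.Agent.VRR.P_TAV
import Pool.Agent.VRR.P_TREE
import Pool.Agent.VRR.P_V4
import Pool.Agent.VRR.P_VCM
import Pool.Agent.VRR.P_VCO
import Pool.Agent.VRR.P_VCS
import Pool.Agent.VRR.P_VCV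
import Pool.Agent.VRR.P_WIV

set_option autoImplicit false

/-!
# VRR: assembly (MP_ee701d_an): variation norm Carleson theorem with constants polynomial in `r/(r-2)` on the line and
for the Hankel transform; radii with few values
-/

namespace Pool.Agent.VRR

/-! ### the line -/

theorem q_BAS : T_BAS := p_BAS p_REX

theorem q_DNB : T_DNB := p_DNB p_REX q_BAS

theorem q_MASS : T_MASS := p_MASS p_REX q_BAS q_DNB

theorem q_P2 : T_P2 := p_P2 p_REX q_BAS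

theorem q_AVG : T_AVG := p_AVG p_REX

theorem q_SMA : T_SMA := p_SMA p_REX q_BAS

theorem q_SPL : T_SPL := p_SPL p_REX q_BAS

theorem q_MIN : T_MIN := p_MIN p_REX q_BAS Pool.Agent.VRC.p_VTR q_P2 q_AVG q_SMA q_SPL

theorem q_JM : T_JM := p_JM p_REX Pool.Agent.VRC.p_VJ1

theorem q_V4 : T_V4 := p_V4 p_REX q_JM Pool.Agent.VRC.q_VJD

theorem q_PLU : T_PLU := p_PLU p_REX q_BAS Pool.Agent.VRC.p_VTR q_P2 q_AVG q_SMA q_SPL q_V4

theorem q_TREE : T_TREE := p_TREE p_REX q_MIN q_PLU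

theorem q_STP : T_STP := p_STP p_REX q_DNB q_MASS q_TREE

theorem q_SUM : T_SUM := p_SUM p_REX q_DNB q_STP

theorem q_TA1 : T_TA1 := p_TA1 p_REX q_BAS

theorem q_TA2 : T_TA2 := p_TA2 p_REX

theorem q_TAI : T_TAI := p_TAI p_REX q_TA1 q_TA2

theorem q_RA : T_RA := p_RA p_REX q_SUM

theorem q_RB : T_RB := p_RB p_REX q_SUM q_TAI q_RA

theorem q_MAR : T_MAR := p_MAR p_REX

theorem q_INT : T_INT := p_INT p_REX q_RA q_RB q_MAR

theorem q_MODS : T_MODS := p_MODS p_REX q_INT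

theorem q_AVB : T_AVB := p_AVB p_REX q_MODS Pool.Agent.VRC.p_VYN

theorem q_SCK : T_SCK := p_SCK q_AVB

theorem q_LIM : T_LIM := p_LIM p_REX q_SCK

theorem q_CAR : T_CAR := p_CAR p_REX q_LIM p_REF Pool.Agent.VRC.p_VGB

theorem q_C4 : T_C4 := p_C4 p_REX q_CAR

/-! ### the Hankel transform -/

theorem q_VCO : T_VCO := p_VCO p_REX

theorem q_VCS : T_VCS := p_VCS p_REX

theorem q_DCV : T_DCV := p_DCV p_REX q_C4 q_VCS

theorem q_ACV : T_ACV := p_ACV p_REX q_DCV q_VCS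

theorem q_WIV : T_WIV := p_WIV p_REX Pool.Agent.VRC.q_WIV

theorem q_VCV : T_VCV := p_VCV Pool.Agent.VRC.q_WIV q_WIV q_ACV q_VCO q_VCS p_VCM

theorem q_OFV : T_OFV := p_OFV p_REX Pool.Agent.CRR.p_OFD

theorem q_DIV : T_DIV := p_DIV p_REX q_C4

theorem q_DEV : T_DEV := p_DEV p_REX Pool.Agent.CRR.p_SEQ q_OFV q_DIV

theorem q_SDV : T_SDV := p_SDV p_REX Pool.Agent.CRR.p_SEQ Pool.Agent.CRR.q_PHS q_VCV q_DEV

theorem q_PAV : T_PAV := p_PAV p_REX Pool.Agent.CRR.p_SEQ q_SDV q_VCO p_VCM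

theorem q_TAV : T_TAV := p_TAV p_REX Pool.Agent.CRR.q_CARLS Pool.Agent.CRR.p_SEQ Pool.Agent.CRR.q_SD
  Pool.Agent.CRR.q_MUL q_C4 q_VCS p_VCM

theorem q_HIV : T_HIV := p_HIV p_REX Pool.Agent.CRR.p_SEQ q_PAV q_TAV

theorem q_HAV : T_HAV := p_HAV p_REX Pool.Agent.CRR.q_LOW q_HIV q_VCO p_VCM

/-! ### `ℝⁿ` -/

theorem q_RAV : T_RAV := p_RAV p_REX q_HAV Pool.Agent.CRR.q_EIG Pool.Agent.CRR.q_GM
  Pool.Agent.CRN.p_POLN Pool.Agent.CRN.q_DSN

theorem q_NVD : T_NVD := p_NVD p_REX Pool.Agent.CRN.q_DSN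

theorem q_NVR : T_NVR := p_NVR p_REX q_RAV q_NVD Pool.Agent.CRN.p_POLN Pool.Agent.CRN.q_DSN

theorem q_NVF : T_NVF := p_NVF q_NVR Pool.Agent.CRR.q_OSC Pool.Agent.CRN.p_POLN
  Pool.Agent.CRN.q_DSN

end Pool.Agent.VRR
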