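import Pool.Agent.VRR.P_SYF

set_option autoImplicit false

/-!
# VRR: LFF, finite systems of spherical harmonics with an `L^p` bound
-/

namespace Pool.Agent.VRR

open MeasureTheory FourierTransform Set Filter Topology
open scoped ENNReal NNReal ComplexConjugate
open Pool.Agent.MBS (E ex)
open Pool.Agent.CRN (sg)

/-- finite `Λ(p)` systems -/
def T_LFF : Prop := ∀ n : ℕ, 2 ≤ n → ∃ C : ℝ≥0,
    ∀ (l : ℕ → ℕ) (Y : ℕ → E n → ℂ) (a : ℕ → ℝ → ℂ) (g : E n → ℂ), (∀ i, Measurable (a i)) →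
    (∀ i, nn n (a i) ≠ ⊤) → Measurable g → ∫⁻ ξ, ‖g ξ‖ₑ ^ 2 ≠ ⊤ →
    ∀ (p : ℝ) (B : ℝ≥0) (K : ℕ), 2 < p → p ≤ 4 → Sys n K l Y → LPS n K p Y B →
      (∀ᵐ ξ, g ξ = fs K a Y ξ) →
      ∫⁻ x, (⨆ (R : ℝ) (_ : 0 < R), ‖BN g R x‖ₑ) ^ 2 ≤
        C * ENNReal.ofReal ((1 / (p - 2)) ^ 16) * (1 + B ^ 2) * ∫⁻ ξ, ‖g ξ‖ₑ ^ 2 ∧
      ∃ F : E n → ℂ, MemLp F 2 ∧
        Tendsto (fun R : ℝ => ∫⁻ x, ‖BN g R x - F x‖ₑ ^ 2) atTop (𝓝 0) ∧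
        ∀ᵐ x, Tendsto (fun R : ℝ => BN g R x) atTop (𝓝 (F x))

open SYF_ in
theorem p_LFF (h1 : T_LPN) (h3 : T_NRS) (h4 : T_CVG) : T_LFF := by
  intro n hn
  obtain ⟨C, hC⟩ := h1 n hn
  refine ⟨C, fun l Y a g ha hnn hg hg2 p B K hp hp4 hS hL hgf => ?_⟩
  have key : ∀ (b : ℕ → ℝ → ℂ) (f : E n → ℂ), (∀ i, Measurable (b i)) → (∀ i, nn n (b i) ≠ ⊤) →
      (∀ᵐ ξ, f ξ = fs K b Y ξ) →
      ∫⁻ x, (⨆ (R : ℝ) (_ : 0 < R), ‖BN f R x‖ₑ) ^ 2 ≤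
        C * ENNReal.ofReal ((1 / (p - 2)) ^ 16) * (1 + B ^ 2) * ∫⁻ ξ, ‖f ξ‖ₑ ^ 2 := by
    intro b f hb hbn hf
    have e1 : ∫⁻ x, (⨆ (R : ℝ) (_ : 0 < R), ‖BN f R x‖ₑ) ^ 2 =
        ∫⁻ x, (⨆ (R : ℝ) (_ : 0 < R), ‖BN (fs K b Y) R x‖ₑ) ^ 2 := by
      refine lintegral_congr fun x => ?_
      simp only [BN_congr hf]
    have e2 : ∫⁻ ξ, ‖f ξ‖ₑ ^ 2 = ∫⁻ ξ, ‖fs K b Y ξ‖ₑ ^ 2 := by
      refine lintegral_congr_ae ?_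
      filter_upwards [hf] with ξ hξ
      rw [hξ]
    rw [e1, e2, (h3 n K l Y b (by omega) hS hb hbn).2]
    exact hC p B K l Y b hp hp4 hS hL hb hbn
  refine ⟨key a g ha hnn hgf, ?_⟩
  refine h4 n g (C * Real.toNNReal ((1 / (p - 2)) ^ 16) * (1 + B ^ 2)) (by omega) hg
    hg2 fun ρ hρ => ?_
  have e1 : ((C * Real.toNNReal ((1 / (p - 2)) ^ 16) * (1 + B ^ 2) : ℝ≥0) : ℝ≥0∞) =
      C * ENNReal.ofReal ((1 / (p - 2)) ^ 16) * (1 + B ^ 2) := by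
    rw [ENNReal.ofReal]
    push_cast
    rfl
  rw [e1, ← far_norm]
  refine key (cut ρ a) _ (cut_meas ha) (cut_nn hnn) ?_
  filter_upwards [hgf] with ξ hξ
  rw [fs_cut]
  by_cases h : ξ ∈ {ξ : E n | ρ < ‖ξ‖}
  · rw [Set.indicator_of_mem h, Set.indicator_of_mem h, hξ]
  · rw [Set.indicator_of_notMem h, Set.indicator_of_notMem h]

end Pool.Agent.VRR
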