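import Pool.Agent.VRR.Targets4
import Pool.Agent.VRC.P_CHN

set_option autoImplicit false

/-!
# VRR-NET: one net.
-/

namespace Pool.Agent.VRR

open MeasureTheory FourierTransform Set Filter Topology
open scoped ENNReal NNReal ComplexConjugate

namespace NET_

theorem two_le {D : ℕ → ℕ → ℝ≥0∞} {M : ℕ} {q : ℝ} {V : ℝ≥0∞}
    (h : ∀ (l : ℕ) (t : ℕ → ℕ), Monotone t → (∀ r, t r ≤ M) →
      ∑ r ∈ Finset.range l, D (t (r + 1)) (t r) ^ q ≤ V ^ q)
    (hc : ∀ j k, D j k = D k j) {j k : ℕ} (hj : j ≤ M) (hk : k ≤ M) : D j k ^ q ≤ V ^ q := by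
  have key : ∀ i l : ℕ, i ≤ l → l ≤ M → D l i ^ q ≤ V ^ q := by
    intro i l hil hl
    have h1 := h 1 (fun r => if r = 0 then i else l) (by
      intro a b hab
      show (if a = 0 then i else l) ≤ (if b = 0 then i else l)
      split_ifs <;> omega) (by
      intro r
      show (if r = 0 then i else l) ≤ M
      split_ifs <;> omega)
    simpa using h1
  rcases le_total j k with h1 | h1
  · rw [hc j k]
    exact key j k h1 hk
  · exact key k j h1 hj

theorem pow_eq {q : ℝ} (hq : 0 < q) (m : ℕ) (V : ℝ≥0∞) :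
    (ENNReal.ofReal ((2 : ℝ) ^ (-((m : ℝ) / q))) * V) ^ q =
      ENNReal.ofReal (1 / 2 ^ m) * V ^ q := by
  rw [ENNReal.mul_rpow_of_nonneg _ _ hq.le, ENNReal.ofReal_rpow_of_nonneg (by positivity) hq.le,
    ← Real.rpow_mul (by norm_num)]
  congr 2
  rw [neg_mul, div_mul_cancel₀ _ hq.ne', Real.rpow_neg (by norm_num), Real.rpow_natCast, one_div]

theorem main (D : ℕ → ℕ → ℝ≥0∞) (M m : ℕ) (q : ℝ) (V : ℝ≥0∞) (hq : 1 ≤ q)
    (hc : ∀ j k, D j k = D k j) (hV : V ≠ ⊤)
    (h : ∀ (l : ℕ) (t : ℕ → ℕ), Monotone t → (∀ r, t r ≤ M) →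
      ∑ r ∈ Finset.range l, D (t (r + 1)) (t r) ^ q ≤ V ^ q) :
    ∃ b π : ℕ → ℕ,
    (∀ j k, j ≤ k → k ≤ M → b j ≤ b k) ∧ (∀ j ≤ M, b j ≤ 2 ^ m) ∧
    (∀ j ≤ M, π j ≤ M ∧ D j (π j) ≤ ENNReal.ofReal ((2 : ℝ) ^ (-((m : ℝ) / q))) * V) ∧
    (∀ j k, j ≤ M → k ≤ M → b j = b k → π j = π k) ∧ (m = 0 → ∀ j, π j = 0) := by
  have hq0 : 0 < q := by linarith
  have h2 : ∀ j k, j ≤ M → k ≤ M → D j k ^ q ≤ V ^ q := fun j k hj hk => two_le h hc hj hk
  have hVq : V ^ q ≠ ⊤ := ENNReal.rpow_ne_top_of_nonneg hq0.le hV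
  by_cases hcase : V = 0 ∨ m = 0
  · refine ⟨fun _ => 0, fun _ => 0, fun _ _ _ _ => le_rfl, fun _ _ => Nat.zero_le _,
      fun j hj => ⟨Nat.zero_le _, ?_⟩, fun _ _ _ _ _ => rfl, fun _ _ => rfl⟩
    have h3 := h2 j 0 hj (Nat.zero_le _)
    rw [ENNReal.rpow_le_rpow_iff hq0] at h3
    rcases hcase with h0 | h0
    · rw [h0] at h3 ⊢
      simpa using h3
    · rw [h0]
      simpa using h3
  · push Not at hcase
    obtain ⟨hV0, hm⟩ := hcase
    set c : ℝ := (V ^ q).toReal with hcdef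
    have hc0 : 0 < c := by
      refine ENNReal.toReal_pos ?_ hVq
      rw [Ne, ENNReal.rpow_eq_zero_iff]
      rintro (⟨h3, -⟩ | ⟨h3, -⟩)
      · exact hV0 h3
      · exact hV h3
    have hfin : ∀ j k, j ≤ M → k ≤ M → D j k ^ q ≠ ⊤ := fun j k hj hk =>
      ne_top_of_le_ne_top hVq (h2 j k hj hk)
    obtain ⟨G, hG, hG1⟩ := VRC.CHN_.exists_G (M := M) (c := c)
      (d := fun j k => (D j k ^ q).toReal) (fun _ _ => ENNReal.toReal_nonneg) (by
        intro l t ht htM
        rw [← ENNReal.toReal_sum fun r _ => hfin _ _ (htM _) (htM _)]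
        exact ENNReal.toReal_mono hVq (h l t ht htM))
    set b : ℕ → ℕ := fun j => ⌊(2 : ℝ) ^ m * (G j / c)⌋₊ with hb
    have h2m : (0 : ℝ) < 2 ^ m := by positivity
    have hmono : ∀ j k, j ≤ k → k ≤ M → G j ≤ G k := by
      intro j k hjk hk
      have h3 := hG1 j k hjk hk
      have h4 : 0 ≤ (D k j ^ q).toReal := ENNReal.toReal_nonneg
      linarith
    refine ⟨b, fun j => VRC.CHN_.rp M b (b j), fun j k hjk hk => ?_, fun j hj => ?_,
      fun j hj => ⟨(VRC.CHN_.rp_spec hj).1, ?_⟩, fun j k _ _ hjk => congrArg (VRC.CHN_.rp M b) hjk,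
      fun h0 => ?_⟩
    · refine Nat.floor_le_floor ?_
      have h3 := hmono j k hjk hk
      gcongr
    · refine Nat.floor_le_of_le ?_
      push_cast
      have h3 : G j / c ≤ 1 := by
        rw [div_le_one hc0]
        exact (hG j hj).2
      nlinarith
    · obtain ⟨a1, a2⟩ := VRC.CHN_.rp_spec (f := b) hj
      set i : ℕ := VRC.CHN_.rp M b (b j) with hi
      have hdist : |G j - G i| ≤ c / 2 ^ m := by
        have hi0 := hG i a1
        have hj0 := hG j hj
        have b1 := Nat.floor_le (show (0 : ℝ) ≤ 2 ^ m * (G i / c) by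
          have := hi0.1
          positivity)
        have b2 := Nat.lt_floor_add_one ((2 : ℝ) ^ m * (G i / c))
        have b3 := Nat.floor_le (show (0 : ℝ) ≤ 2 ^ m * (G j / c) by
          have := hj0.1
          positivity)
        have b4 := Nat.lt_floor_add_one ((2 : ℝ) ^ m * (G j / c))
        have a3 : (⌊(2 : ℝ) ^ m * (G i / c)⌋₊ : ℝ) = ⌊(2 : ℝ) ^ m * (G j / c)⌋₊ := by
          exact congrArg (fun x : ℕ => (x : ℝ)) a2
        rw [a3] at b1 b2
        have h5 : |(2 : ℝ) ^ m * (G j / c) - 2 ^ m * (G i / c)| ≤ 1 := by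
          rw [abs_le]
          constructor <;> linarith
        have h6 : (2 : ℝ) ^ m * (G j / c) - 2 ^ m * (G i / c) = (2 ^ m / c) * (G j - G i) := by
          ring
        rw [h6, abs_mul, abs_of_pos (by positivity)] at h5
        rw [le_div_iff₀ h2m]
        have h7 : 2 ^ m / c * |G j - G i| * c ≤ 1 * c := mul_le_mul_of_nonneg_right h5 hc0.le
        have h8 : 2 ^ m / c * |G j - G i| * c = |G j - G i| * 2 ^ m := by
          field_simp
        linarith
      have hD : (D j i ^ q).toReal ≤ c / 2 ^ m := by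
        refine le_trans ?_ hdist
        rcases le_total i j with h9 | h9
        · exact (hG1 i j h9 hj).trans (le_abs_self _)
        · rw [hc j i, abs_sub_comm]
          exact (hG1 j i h9 a1).trans (le_abs_self _)
      rw [← ENNReal.rpow_le_rpow_iff hq0, pow_eq hq0]
      rw [← ENNReal.ofReal_toReal (hfin j i hj a1), ← ENNReal.ofReal_toReal hVq,
        ← ENNReal.ofReal_mul (by positivity)]
      refine ENNReal.ofReal_le_ofReal (hD.trans (le_of_eq ?_))
      rw [← hcdef]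
      ring
    · exact absurd h0 hm

end NET_

theorem p_NET : T_NET := fun D M m q V hq _ hc _ hV h => NET_.main D M m q V hq hc hV h

end Pool.Agent.VRR
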