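import Pool.Agent.VRR.Targets4

/-!
# OC1: one level of the chaining
-/

set_option autoImplicit false

namespace Pool.Agent.VRR

open MeasureTheory FourierTransform Set Filter Topology
open scoped ENNReal NNReal ComplexConjugate
open Pool.Agent.MBS (E ex)
open Pool.Agent.CRN (sg SH T_POLN)

namespace OC1_

theorem sup_sq_le (N : ℕ) (f : ℕ → ℝ≥0∞) (A : ℝ≥0∞) (h : ∀ c < N, f c ^ 2 ≤ A) :
    (⨆ (c : ℕ) (_ : c < N), f c) ^ 2 ≤ A := by
  have h1 : (⨆ (c : ℕ) (_ : c < N), f c) ≤ A ^ (1 / 2 : ℝ) := by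
    refine iSup₂_le fun c hc => ?_
    have h2 := ENNReal.rpow_le_rpow (h c hc) (by norm_num : (0 : ℝ) ≤ 1 / 2)
    rw [← ENNReal.rpow_natCast, ← ENNReal.rpow_mul] at h2
    norm_num at h2
    exact h2
  calc (⨆ (c : ℕ) (_ : c < N), f c) ^ 2 ≤ (A ^ (1 / 2 : ℝ)) ^ 2 := by gcongr
    _ = A := by
      rw [← ENNReal.rpow_natCast, ← ENNReal.rpow_mul]
      norm_num

/-- the elementary number of the level `m` -/
noncomputable def s (m : ℕ) : ℝ := (2 : ℝ) ^ ((m : ℝ) / 36)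

theorem s_pos (m : ℕ) : 0 < s m := Real.rpow_pos_of_pos (by norm_num) _

theorem s_pow (m : ℕ) : s m ^ 36 = 2 ^ m := by
  unfold s
  rw [← Real.rpow_natCast, ← Real.rpow_mul (by norm_num)]
  have : (m : ℝ) / 36 * ((36 : ℕ) : ℝ) = m := by
    push_cast
    ring
  rw [this, Real.rpow_natCast]

theorem log_s (m : ℕ) : Real.log (s m) = m / 36 * Real.log 2 := by
  unfold s
  rw [Real.log_rpow (by norm_num)]

theorem le_s (m : ℕ) : (m : ℝ) + 1 ≤ 60 * s m := by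
  have h1 : Real.log (s m) + 1 ≤ s m := by
    have := Real.add_one_le_exp (Real.log (s m))
    rwa [Real.exp_log (s_pos m)] at this
  rw [log_s] at h1
  have h2 := Real.log_two_gt_d9
  have hm : (0 : ℝ) ≤ m := Nat.cast_nonneg m
  nlinarith

theorem le_log (m : ℕ) : ((m : ℝ) + 1) / 12 ≤ Real.log (2 + s m ^ 9) := by
  have hs := s_pos m
  have h9 : 0 < s m ^ 9 := by positivity
  have h1 : Real.log 2 ≤ Real.log (2 + s m ^ 9) := Real.log_le_log (by norm_num) (by linarith)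
  have h2 : Real.log (s m ^ 9) ≤ Real.log (2 + s m ^ 9) := Real.log_le_log h9 (by linarith)
  rw [Real.log_pow, log_s] at h2
  push_cast at h2
  have h3 := Real.log_two_gt_d9
  have hm : (0 : ℝ) ≤ m := Nat.cast_nonneg m
  nlinarith

theorem num1 (m : ℕ) : (s m ^ 9) ^ 2 ≤ 60 ^ 18 * (1 / ((m : ℝ) + 1) ^ 18) * 2 ^ m := by
  have hm : (0 : ℝ) < (m : ℝ) + 1 := by positivity
  have hs := s_pos m
  have h1 : ((m : ℝ) + 1) ^ 18 ≤ (60 * s m) ^ 18 := pow_le_pow_left₀ hm.le (le_s m) 18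
  rw [← s_pow m]
  rw [show (60 : ℝ) ^ 18 * (1 / ((m : ℝ) + 1) ^ 18) * s m ^ 36 =
    60 ^ 18 * s m ^ 36 / ((m : ℝ) + 1) ^ 18 by ring, le_div_iff₀ (by positivity)]
  calc (s m ^ 9) ^ 2 * ((m : ℝ) + 1) ^ 18 ≤ (s m ^ 9) ^ 2 * (60 * s m) ^ 18 := by gcongr
    _ = 60 ^ 18 * s m ^ 36 := by ring

theorem num2 (N m : ℕ) (hN : N ≤ 3 * 2 ^ m) :
    (N : ℝ) * (1 / Real.log (2 + s m ^ 9) ^ 18) ≤
      60 ^ 18 * (1 / ((m : ℝ) + 1) ^ 18) * 2 ^ m := by
  have hm : (0 : ℝ) < (m : ℝ) + 1 := by positivity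
  have h1 := le_log m
  have h0 : 0 < ((m : ℝ) + 1) / 12 := by positivity
  have h2 : (((m : ℝ) + 1) / 12) ^ 18 ≤ Real.log (2 + s m ^ 9) ^ 18 :=
    pow_le_pow_left₀ h0.le h1 18
  have h3 : 1 / Real.log (2 + s m ^ 9) ^ 18 ≤ 1 / (((m : ℝ) + 1) / 12) ^ 18 :=
    one_div_le_one_div_of_le (by positivity) h2
  have hN' : (N : ℝ) ≤ 3 * 2 ^ m := by exact_mod_cast hN
  calc (N : ℝ) * (1 / Real.log (2 + s m ^ 9) ^ 18)
      ≤ (3 * 2 ^ m) * (1 / (((m : ℝ) + 1) / 12) ^ 18) := by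
        apply mul_le_mul hN' h3 _ (by positivity)
        have : 0 < Real.log (2 + s m ^ 9) := by linarith
        positivity
    _ = (3 * 12 ^ 18) * (1 / ((m : ℝ) + 1) ^ 18) * 2 ^ m := by
        rw [div_pow]
        field_simp
    _ ≤ 60 ^ 18 * (1 / ((m : ℝ) + 1) ^ 18) * 2 ^ m := by
        gcongr
        norm_num

theorem pointwise {Ω : Type} (N : ℕ) (v : ℕ → Ω → ℂ) (a : ℝ) (ω : Ω) :
    (⨆ (c : ℕ) (_ : c < N), ‖v c ω‖ₑ) ^ 2 ≤ ENNReal.ofReal (a ^ 2) +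
      ∑ c ∈ Finset.range N, {ω | a < ‖v c ω‖}.indicator (fun ω => ‖v c ω‖ₑ ^ 2) ω := by
  refine sup_sq_le N _ _ fun c hc => ?_
  by_cases h : a < ‖v c ω‖
  · have h1 : {ω | a < ‖v c ω‖}.indicator (fun ω => ‖v c ω‖ₑ ^ 2) ω = ‖v c ω‖ₑ ^ 2 :=
      indicator_of_mem (s := {ω | a < ‖v c ω‖}) h _
    calc ‖v c ω‖ₑ ^ 2 = {ω | a < ‖v c ω‖}.indicator (fun ω => ‖v c ω‖ₑ ^ 2) ω := h1.symm
      _ ≤ ∑ c ∈ Finset.range N, {ω | a < ‖v c ω‖}.indicator (fun ω => ‖v c ω‖ₑ ^ 2) ω :=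
        Finset.single_le_sum (f := fun c => {ω | a < ‖v c ω‖}.indicator
          (fun ω => ‖v c ω‖ₑ ^ 2) ω) (fun _ _ => zero_le) (Finset.mem_range.2 hc)
      _ ≤ _ := le_add_self
  · have h1 : ‖v c ω‖ ≤ a := not_lt.1 h
    calc ‖v c ω‖ₑ ^ 2 = ENNReal.ofReal (‖v c ω‖ ^ 2) := by
          rw [ENNReal.ofReal_pow (norm_nonneg _), ofReal_norm]
      _ ≤ ENNReal.ofReal (a ^ 2) :=
        ENNReal.ofReal_le_ofReal (pow_le_pow_left₀ (norm_nonneg _) h1 2)
      _ ≤ _ := le_self_add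

end OC1_

open OC1_ in
theorem p_OC1 : T_OC1 := by
  refine ⟨Real.toNNReal (60 ^ 18), ?_⟩
  intro Ω _ μ N m v B δ hv hμ hB hδ hN h1 h2
  by_cases h0 : δ = 0
  · have hz : ∀ᵐ ω ∂μ, ∀ c, c < N → ‖v c ω‖ₑ = 0 := by
      rw [ae_all_iff]
      intro c
      by_cases hc : c < N
      · have h3 := h1 c hc
        rw [h0, zero_pow two_ne_zero, nonpos_iff_eq_zero,
          lintegral_eq_zero_iff ((hv c).enorm.pow_const 2)] at h3
        filter_upwards [h3] with ω hω _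
        exact pow_eq_zero_iff (two_ne_zero) |>.1 hω
      · exact Filter.Eventually.of_forall fun ω h => absurd h hc
    have h4 : ∫⁻ ω, (⨆ (c : ℕ) (_ : c < N), ‖v c ω‖ₑ) ^ 2 ∂μ = ∫⁻ _, 0 ∂μ := by
      apply lintegral_congr_ae
      filter_upwards [hz] with ω hω
      have : (⨆ (c : ℕ) (_ : c < N), ‖v c ω‖ₑ) ^ 2 ≤ 0 :=
        sup_sq_le N _ _ fun c hc => by rw [hω c hc]; simp
      exact nonpos_iff_eq_zero.1 this
    rw [h4, lintegral_zero]
    exact zero_le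
  · have hd : 0 < δ.toReal := ENNReal.toReal_pos h0 hδ
    have hδ2 : δ ^ 2 = ENNReal.ofReal (δ.toReal ^ 2) := by
      rw [ENNReal.ofReal_pow hd.le, ENNReal.ofReal_toReal hδ]
    have ht : 0 < s m ^ 9 := by
      have := s_pos m
      positivity
    set d := δ.toReal with hdd
    set t := s m ^ 9 with htt
    have hterm : ∀ c ∈ Finset.range N,
        ∫⁻ ω, {ω | t * d < ‖v c ω‖}.indicator (fun ω => ‖v c ω‖ₑ ^ 2) ω ∂μ ≤
          B * ENNReal.ofReal (1 / Real.log (2 + t) ^ 18) * ENNReal.ofReal (d ^ 2) := by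
      intro c hc
      rw [Finset.mem_range] at hc
      rw [lintegral_indicator (measurableSet_lt measurable_const (hv c).norm)]
      exact h2 c hc d t hd ht (by rw [← hδ2]; exact h1 c hc)
    have hX1 : ENNReal.ofReal ((t * d) ^ 2) ≤ ENNReal.ofReal (60 ^ 18) *
        ENNReal.ofReal (1 / ((m : ℝ) + 1) ^ 18) *
        (ENNReal.ofReal (2 ^ m) * ENNReal.ofReal (d ^ 2)) := by
      rw [← ENNReal.ofReal_mul (by positivity), ← ENNReal.ofReal_mul (by positivity),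
        ← ENNReal.ofReal_mul (by positivity)]
      apply ENNReal.ofReal_le_ofReal
      have h5 := mul_le_mul_of_nonneg_right (num1 m) (sq_nonneg d)
      calc (t * d) ^ 2 = t ^ 2 * d ^ 2 := by ring
        _ ≤ 60 ^ 18 * (1 / ((m : ℝ) + 1) ^ 18) * 2 ^ m * d ^ 2 := h5
        _ = _ := by ring
    have hX2 : (N : ℝ≥0∞) * ENNReal.ofReal (1 / Real.log (2 + t) ^ 18) ≤
        ENNReal.ofReal (60 ^ 18) * ENNReal.ofReal (1 / ((m : ℝ) + 1) ^ 18) *
        ENNReal.ofReal (2 ^ m) := by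
      rw [← ENNReal.ofReal_natCast, ← ENNReal.ofReal_mul (by positivity),
        ← ENNReal.ofReal_mul (by positivity), ← ENNReal.ofReal_mul (by positivity)]
      exact ENNReal.ofReal_le_ofReal (num2 N m hN)
    calc ∫⁻ ω, (⨆ (c : ℕ) (_ : c < N), ‖v c ω‖ₑ) ^ 2 ∂μ
        ≤ ∫⁻ ω, (ENNReal.ofReal ((t * d) ^ 2) + ∑ c ∈ Finset.range N,
          {ω | t * d < ‖v c ω‖}.indicator (fun ω => ‖v c ω‖ₑ ^ 2) ω) ∂μ :=
          lintegral_mono fun ω => pointwise N v (t * d) ω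
      _ = ENNReal.ofReal ((t * d) ^ 2) * μ univ + ∑ c ∈ Finset.range N,
          ∫⁻ ω, {ω | t * d < ‖v c ω‖}.indicator (fun ω => ‖v c ω‖ₑ ^ 2) ω ∂μ := by
          rw [lintegral_add_left measurable_const, lintegral_const, lintegral_finsetSum]
          intro c _
          exact ((hv c).enorm.pow_const 2).indicator
            (measurableSet_lt measurable_const (hv c).norm)
      _ ≤ ENNReal.ofReal ((t * d) ^ 2) * μ univ + ∑ c ∈ Finset.range N,
          B * ENNReal.ofReal (1 / Real.log (2 + t) ^ 18) * ENNReal.ofReal (d ^ 2) := by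
          gcongr with c hc
          exact hterm c hc
      _ = ENNReal.ofReal ((t * d) ^ 2) * μ univ +
          (N : ℝ≥0∞) * ENNReal.ofReal (1 / Real.log (2 + t) ^ 18) *
            (B * ENNReal.ofReal (d ^ 2)) := by
          rw [Finset.sum_const, Finset.card_range, nsmul_eq_mul]
          ring
      _ ≤ ENNReal.ofReal (60 ^ 18) * ENNReal.ofReal (1 / ((m : ℝ) + 1) ^ 18) *
            (ENNReal.ofReal (2 ^ m) * ENNReal.ofReal (d ^ 2)) * μ univ +
          ENNReal.ofReal (60 ^ 18) * ENNReal.ofReal (1 / ((m : ℝ) + 1) ^ 18) *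
            ENNReal.ofReal (2 ^ m) * (B * ENNReal.ofReal (d ^ 2)) := by
          gcongr
      _ = ENNReal.ofReal (60 ^ 18) * (μ univ + B) *
            ENNReal.ofReal (1 / ((m : ℝ) + 1) ^ 18) *
            (ENNReal.ofReal (2 ^ m) * ENNReal.ofReal (d ^ 2)) := by ring
      _ ≤ ENNReal.ofReal (60 ^ 18) * (1 + μ univ + B) *
            ENNReal.ofReal (1 / ((m : ℝ) + 1) ^ 18) *
            (ENNReal.ofReal (2 ^ m) * ENNReal.ofReal (d ^ 2)) := by
          gcongr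
          exact le_add_self
      _ = _ := by
          rw [hδ2]
          rfl

end Pool.Agent.VRR
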