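import Pool.Agent.VRR.Targets4

set_option autoImplicit false

/-!
# VRR, OCH: chaining with level dependent exponents
-/

namespace Pool.Agent.VRR

open MeasureTheory FourierTransform Set Filter Topology
open scoped ENNReal NNReal ComplexConjugate

namespace OCH_

theorem sum_inv_sq (L : ℕ) :
    ∑ m ∈ Finset.range L, (1 / ((m : ℝ) + 1)) ^ 2 ≤ 2 - 2 / ((L : ℝ) + 1) := by
  induction L with
  | zero => norm_num
  | succ L ih =>
    rw [Finset.sum_range_succ]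
    have h : (1 / ((L : ℝ) + 1)) ^ 2 ≤ 2 / ((L : ℝ) + 1) - 2 / ((L : ℝ) + 1 + 1) := by
      have h1 : (0 : ℝ) < (L : ℝ) + 1 := by positivity
      rw [div_sub_div _ _ (by positivity) (by positivity), one_div, inv_pow, ← one_div,
        div_le_div_iff₀ (by positivity) (by positivity)]
      nlinarith
    push_cast
    linarith

theorem hr {a : ℝ≥0∞} : (a ^ (1 / 2 : ℝ)) ^ 2 = a := by
  rw [← ENNReal.rpow_natCast, ← ENNReal.rpow_mul]
  norm_num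

/-- Cauchy-Schwarz -/
theorem cs (F : ℕ → ℝ≥0∞) (L : ℕ) :
    (∑ m ∈ Finset.range L, F m) ^ 2 ≤
      2 * ∑ m ∈ Finset.range L, ENNReal.ofReal (((m : ℝ) + 1) ^ 2) * F m ^ 2 := by
  have h := ENNReal.inner_le_Lp_mul_Lq (Finset.range L)
    (fun m => ENNReal.ofReal (1 / ((m : ℝ) + 1))) (fun m => ENNReal.ofReal ((m : ℝ) + 1) * F m)
    (p := 2) (q := 2) Real.HolderConjugate.two_two
  have e1 : ∀ m : ℕ, ENNReal.ofReal (1 / ((m : ℝ) + 1)) *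
      (ENNReal.ofReal ((m : ℝ) + 1) * F m) = F m := by
    intro m
    have hm : (0 : ℝ) < (m : ℝ) + 1 := by positivity
    rw [← mul_assoc, ← ENNReal.ofReal_mul (by positivity), one_div_mul_cancel hm.ne',
      ENNReal.ofReal_one, one_mul]
  simp only [e1, ENNReal.rpow_two] at h
  have e2 : ∑ m ∈ Finset.range L, ENNReal.ofReal (1 / ((m : ℝ) + 1)) ^ 2 ≤ 2 := by
    have e3 : ∑ m ∈ Finset.range L, ENNReal.ofReal (1 / ((m : ℝ) + 1)) ^ 2 =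
        ENNReal.ofReal (∑ m ∈ Finset.range L, (1 / ((m : ℝ) + 1)) ^ 2) := by
      rw [ENNReal.ofReal_sum_of_nonneg (fun m _ => by positivity)]
      refine Finset.sum_congr rfl fun m _ => ?_
      rw [ENNReal.ofReal_pow (by positivity)]
    rw [e3, show (2 : ℝ≥0∞) = ENNReal.ofReal 2 by norm_num]
    refine ENNReal.ofReal_le_ofReal ((sum_inv_sq L).trans ?_)
    have : (0 : ℝ) ≤ 2 / ((L : ℝ) + 1) := by positivity
    linarith
  calc (∑ m ∈ Finset.range L, F m) ^ 2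
      ≤ ((∑ m ∈ Finset.range L, ENNReal.ofReal (1 / ((m : ℝ) + 1)) ^ 2) ^ (1 / 2 : ℝ) *
        (∑ m ∈ Finset.range L, (ENNReal.ofReal ((m : ℝ) + 1) * F m) ^ 2) ^ (1 / 2 : ℝ)) ^ 2 := by
        gcongr
    _ = (∑ m ∈ Finset.range L, ENNReal.ofReal (1 / ((m : ℝ) + 1)) ^ 2) *
        ∑ m ∈ Finset.range L, (ENNReal.ofReal ((m : ℝ) + 1) * F m) ^ 2 := by
        rw [mul_pow, hr, hr]
    _ ≤ 2 * ∑ m ∈ Finset.range L, (ENNReal.ofReal ((m : ℝ) + 1) * F m) ^ 2 := by gcongr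
    _ = 2 * ∑ m ∈ Finset.range L, ENNReal.ofReal (((m : ℝ) + 1) ^ 2) * F m ^ 2 := by
        congr 1
        refine Finset.sum_congr rfl fun m _ => ?_
        rw [mul_pow, ENNReal.ofReal_pow (by positivity)]

theorem sq2 (x y : ℝ≥0∞) : (x + y) ^ 2 ≤ 2 * (x ^ 2 + y ^ 2) := by
  have h := ENNReal.rpow_add_le_mul_rpow_add_rpow x y (p := 2) (by norm_num)
  have e : (2 : ℝ) - 1 = 1 := by norm_num
  rw [e, ENNReal.rpow_one, ENNReal.rpow_two, ENNReal.rpow_two, ENNReal.rpow_two] at h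
  exact h

theorem qm_bd (m : ℕ) : 2 < qm m ∧ qm m ≤ 3 := by
  rw [qm]
  have h1 : (0 : ℝ) < (m : ℝ) + 1 := by positivity
  have h2 : (0 : ℝ) < 1 / ((m : ℝ) + 1) := by positivity
  have h3 : 1 / ((m : ℝ) + 1) ≤ 1 := by
    rw [div_le_one h1]
    have : (0 : ℝ) ≤ m := by positivity
    linarith
  constructor <;> linarith

theorem del (m : ℕ) : ((2 : ℝ) ^ (-((m : ℝ) / qm m))) ^ 2 ≤ 2 * (1 / 2) ^ m := by
  obtain ⟨hq, -⟩ := qm_bd m
  have hq0 : 0 < qm m := by linarith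
  rw [← Real.rpow_natCast, ← Real.rpow_mul (by norm_num)]
  have h1 : (0 : ℝ) < (m : ℝ) + 1 := by positivity
  have hm : (0 : ℝ) ≤ (m : ℝ) := by positivity
  have h : -((m : ℝ) / qm m) * ((2 : ℕ) : ℝ) ≤ 1 - m := by
    have h2 : ((m : ℝ) - 1) * qm m ≤ 2 * m := by
      have e : ((m : ℝ) - 1) * qm m = 2 * m - 2 + (m - 1) / (m + 1) := by
        rw [qm]
        field_simp
      have h3 : ((m : ℝ) - 1) / (m + 1) ≤ 2 := by
        rw [div_le_iff₀ h1]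
        linarith
      rw [e]
      linarith
    have h4 : (m : ℝ) - 1 ≤ 2 * m / qm m := by
      rw [le_div_iff₀ hq0]
      exact h2
    have e5 : -((m : ℝ) / qm m) * ((2 : ℕ) : ℝ) = -(2 * m / qm m) := by
      push_cast
      ring
    rw [e5]
    linarith
  calc (2 : ℝ) ^ (-((m : ℝ) / qm m) * ((2 : ℕ) : ℝ)) ≤ 2 ^ (1 - (m : ℝ)) :=
        Real.rpow_le_rpow_of_exponent_le (by norm_num) h
    _ = 2 * (1 / 2) ^ m := by
        rw [Real.rpow_sub (by norm_num), Real.rpow_one, Real.rpow_natCast, one_div, inv_pow]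
        rfl

theorem tri {Ω : Type} [MeasurableSpace Ω] {μ : Measure Ω} {f g h : Ω → ℂ} (hf : Measurable f)
    (hg : Measurable g) (hh : Measurable h) :
    (∫⁻ ω, ‖f ω - h ω‖ₑ ^ 2 ∂μ) ^ (1 / 2 : ℝ) ≤
      (∫⁻ ω, ‖f ω - g ω‖ₑ ^ 2 ∂μ) ^ (1 / 2 : ℝ) + (∫⁻ ω, ‖g ω - h ω‖ₑ ^ 2 ∂μ) ^ (1 / 2 : ℝ) := by
  have h1 := ENNReal.lintegral_Lp_add_le (μ := μ) (p := 2) (f := fun ω => ‖f ω - g ω‖ₑ)
    (g := fun ω => ‖g ω - h ω‖ₑ) ((hf.sub hg).enorm).aemeasurable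
    ((hg.sub hh).enorm).aemeasurable (by norm_num)
  simp only [ENNReal.rpow_two, Pi.add_apply] at h1
  refine le_trans ?_ h1
  refine ENNReal.rpow_le_rpow (lintegral_mono fun ω => ?_) (by norm_num)
  show ‖f ω - h ω‖ₑ ^ 2 ≤ (‖f ω - g ω‖ₑ + ‖g ω - h ω‖ₑ) ^ 2
  have h2 : ‖f ω - h ω‖ₑ ≤ ‖f ω - g ω‖ₑ + ‖g ω - h ω‖ₑ := by
    calc ‖f ω - h ω‖ₑ = ‖(f ω - g ω) + (g ω - h ω)‖ₑ := by
          congr 1
          ring
      _ ≤ _ := enorm_add_le _ _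
  gcongr

theorem sup_sq {M : ℕ} {x : ℕ → ℝ≥0∞} {y : ℝ≥0∞} (h : ∀ j ≤ M, x j ^ 2 ≤ y) :
    (⨆ (j : ℕ) (_ : j ≤ M), x j) ^ 2 ≤ y := by
  have h1 : (⨆ (j : ℕ) (_ : j ≤ M), x j) ≤ y ^ (1 / 2 : ℝ) := by
    refine iSup_le fun j => iSup_le fun hj => ?_
    calc x j = (x j ^ 2) ^ (1 / 2 : ℝ) := by
          rw [← ENNReal.rpow_natCast, ← ENNReal.rpow_mul]
          norm_num
      _ ≤ y ^ (1 / 2 : ℝ) := ENNReal.rpow_le_rpow (h j hj) (by norm_num)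
  calc (⨆ (j : ℕ) (_ : j ≤ M), x j) ^ 2 ≤ (y ^ (1 / 2 : ℝ)) ^ 2 := by gcongr
    _ = y := hr

theorem lev (m : ℕ) {a b x y : ℝ≥0∞} (ha : a ^ 2 ≤ ENNReal.ofReal (2 * (1 / 2) ^ (m + 1)) * x)
    (hb : b ^ 2 ≤ ENNReal.ofReal (2 * (1 / 2) ^ m) * y) :
    ENNReal.ofReal (2 ^ (m + 1)) * (a + b) ^ 2 ≤ 8 * (x + y) := by
  have e1 : ENNReal.ofReal (2 ^ (m + 1)) * ENNReal.ofReal (2 * (1 / 2) ^ (m + 1)) = 2 := by
    rw [← ENNReal.ofReal_mul (by positivity)]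
    have : (2 : ℝ) ^ (m + 1) * (2 * (1 / 2) ^ (m + 1)) = 2 := by
      have h : (2 : ℝ) ^ (m + 1) * (1 / 2) ^ (m + 1) = 1 := by
        rw [← mul_pow]
        norm_num
      calc (2 : ℝ) ^ (m + 1) * (2 * (1 / 2) ^ (m + 1)) =
          2 * (2 ^ (m + 1) * (1 / 2) ^ (m + 1)) := by ring
        _ = 2 := by rw [h, mul_one]
    rw [this]
    norm_num
  have e2 : ENNReal.ofReal (2 ^ (m + 1)) * ENNReal.ofReal (2 * (1 / 2) ^ m) = 4 := by
    rw [← ENNReal.ofReal_mul (by positivity)]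
    have : (2 : ℝ) ^ (m + 1) * (2 * (1 / 2) ^ m) = 4 := by
      have h : (2 : ℝ) ^ m * (1 / 2) ^ m = 1 := by
        rw [← mul_pow]
        norm_num
      calc (2 : ℝ) ^ (m + 1) * (2 * (1 / 2) ^ m) =
          4 * (2 ^ m * (1 / 2) ^ m) := by ring
        _ = 4 := by rw [h, mul_one]
    rw [this]
    norm_num
  calc ENNReal.ofReal (2 ^ (m + 1)) * (a + b) ^ 2
      ≤ ENNReal.ofReal (2 ^ (m + 1)) * (2 * (ENNReal.ofReal (2 * (1 / 2) ^ (m + 1)) * x +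
        ENNReal.ofReal (2 * (1 / 2) ^ m) * y)) := by
        gcongr
        exact (sq2 a b).trans (by gcongr)
    _ = 2 * ((ENNReal.ofReal (2 ^ (m + 1)) * ENNReal.ofReal (2 * (1 / 2) ^ (m + 1))) * x +
        (ENNReal.ofReal (2 ^ (m + 1)) * ENNReal.ofReal (2 * (1 / 2) ^ m)) * y) := by ring
    _ = 4 * x + 8 * y := by rw [e1, e2]; ring
    _ ≤ 8 * x + 8 * y := by
        gcongr
        norm_num
    _ = 8 * (x + y) := by ring

theorem lim (K : ℝ) : Tendsto (fun L : ℕ => ENNReal.ofReal (K * (((L : ℝ) + 1) ^ 16 *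
    (1 / 2) ^ L))) atTop (𝓝 0) := by
  rw [← ENNReal.ofReal_zero]
  refine ENNReal.tendsto_ofReal ?_
  have h := tendsto_pow_const_mul_const_pow_of_abs_lt_one 16 (r := (1 / 2 : ℝ))
    (by rw [abs_of_pos (by norm_num)]; norm_num)
  have h1 := (h.comp (tendsto_add_atTop_nat 1)).const_mul (2 * K)
  rw [mul_zero] at h1
  refine h1.congr fun L => ?_
  show 2 * K * (((L + 1 : ℕ) : ℝ) ^ 16 * (1 / 2) ^ (L + 1)) = _
  push_cast
  rw [pow_succ (1 / 2 : ℝ) L]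
  ring

end OCH_

open OCH_ in
/-- **OCH** -/
theorem p_OCH (h1 : T_NET) (h2 : T_OC1) : T_OCH := by
  obtain ⟨C1, hC1⟩ := h2
  refine ⟨64 * C1 + 1, le_add_self, fun Ω _ μ M X B V hm hX0 hμ hB hK hvar => ?_⟩
  obtain ⟨S, hS⟩ : ∃ S : ℝ≥0∞, S =
      ∑' m : ℕ, ENNReal.ofReal (1 / ((m : ℝ) + 1) ^ 16) * V m ^ 2 := ⟨_, rfl⟩
  rw [← hS]
  rcases eq_or_ne S ⊤ with hSt | hSt
  · have hne : ((64 * C1 + 1 : ℝ≥0) : ℝ≥0∞) * (1 + μ univ + B) ≠ 0 := by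
      refine mul_ne_zero ?_ ?_
      · rw [Ne, ENNReal.coe_eq_zero]
        positivity
      · have h3 : (1 : ℝ≥0∞) ≤ 1 + μ univ + B := by
          rw [add_assoc]
          exact le_self_add
        exact (lt_of_lt_of_le one_pos h3).ne'
    rw [hSt, ENNReal.mul_top hne]
    exact le_top
  have hterm : ∀ m : ℕ, ENNReal.ofReal (1 / ((m : ℝ) + 1) ^ 16) * V m ^ 2 ≤ S := by
    intro m
    rw [hS]
    exact ENNReal.le_tsum (f := fun m : ℕ => ENNReal.ofReal (1 / ((m : ℝ) + 1) ^ 16) * V m ^ 2) m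
  have hVS : ∀ m : ℕ, V m ^ 2 ≤ ENNReal.ofReal (((m : ℝ) + 1) ^ 16) * S := by
    intro m
    have hm1 : (0 : ℝ) < ((m : ℝ) + 1) ^ 16 := by positivity
    calc V m ^ 2 = ENNReal.ofReal (((m : ℝ) + 1) ^ 16) *
          (ENNReal.ofReal (1 / ((m : ℝ) + 1) ^ 16) * V m ^ 2) := by
          rw [← mul_assoc, ← ENNReal.ofReal_mul hm1.le, mul_one_div_cancel hm1.ne',
            ENNReal.ofReal_one, one_mul]
      _ ≤ ENNReal.ofReal (((m : ℝ) + 1) ^ 16) * S := by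
          gcongr
          exact hterm m
  have hVt : ∀ m, V m ≠ ⊤ := by
    intro m h
    have h3 := hVS m
    have h4 : ENNReal.ofReal (((m : ℝ) + 1) ^ 16) * S ≠ ⊤ :=
      ENNReal.mul_ne_top ENNReal.ofReal_ne_top hSt
    rw [h] at h3
    exact h4 (top_le_iff.1 (le_trans (by simp) h3))
  obtain ⟨J, hJ⟩ : ∃ J : ℕ → ℕ → ℝ≥0∞, J = fun j k => ∫⁻ ω, ‖X j ω - X k ω‖ₑ ^ 2 ∂μ :=
    ⟨_, rfl⟩
  have hJc : ∀ j k, J j k = J k j := by
    intro j k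
    rw [hJ]
    show ∫⁻ ω, ‖X j ω - X k ω‖ₑ ^ 2 ∂μ = ∫⁻ ω, ‖X k ω - X j ω‖ₑ ^ 2 ∂μ
    refine lintegral_congr fun ω => ?_
    rw [← enorm_neg, neg_sub]
  have hJ0 : ∀ j, J j j = 0 := by
    intro j
    rw [hJ]
    simp
  have hvar' : ∀ (m l : ℕ) (t : ℕ → ℕ), Monotone t → (∀ r, t r ≤ M) →
      ∑ r ∈ Finset.range l, (J (t (r + 1)) (t r) ^ (1 / 2 : ℝ)) ^ qm m ≤ V m ^ qm m := by
    intro m l t ht htM
    refine le_trans (le_of_eq ?_) (hvar m l t ht htM)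
    refine Finset.sum_congr rfl fun r _ => ?_
    rw [hJ, ← ENNReal.rpow_mul]
    congr 1
    ring
  have htri : ∀ i j k, J i k ^ (1 / 2 : ℝ) ≤ J i j ^ (1 / 2 : ℝ) + J j k ^ (1 / 2 : ℝ) := by
    intro i j k
    rw [hJ]
    exact tri (hm i) (hm j) (hm k)
  have hnet := fun m => h1 (fun j k => J j k ^ (1 / 2 : ℝ)) M m (qm m) (V m)
    (by linarith [(qm_bd m).1]) (by linarith [(qm_bd m).2]) (fun j k => by rw [hJc])
    (fun j => by
      show J j j ^ (1 / 2 : ℝ) = 0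
      rw [hJ0, ENNReal.zero_rpow_of_pos (by norm_num)]) (hVt m) (hvar' m)
  choose b π hb1 hb2 hb3 hb4 hb5 using hnet
  obtain ⟨δ, hδ⟩ : ∃ δ : ℕ → ℝ≥0∞,
      δ = fun m : ℕ => ENNReal.ofReal ((2 : ℝ) ^ (-((m : ℝ) / qm m))) * V m := ⟨_, rfl⟩
  have hδt : ∀ m, δ m ≠ ⊤ := by
    intro m
    rw [hδ]
    exact ENNReal.mul_ne_top ENNReal.ofReal_ne_top (hVt m)
  have hδ2 : ∀ m, δ m ^ 2 ≤ ENNReal.ofReal (2 * (1 / 2) ^ m) * V m ^ 2 := by
    intro m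
    rw [hδ]
    show (ENNReal.ofReal ((2 : ℝ) ^ (-((m : ℝ) / qm m))) * V m) ^ 2 ≤ _
    rw [mul_pow, ← ENNReal.ofReal_pow (by positivity)]
    gcongr
    exact del m
  have hδJ : ∀ m, ∀ j ≤ M, J j (π m j) ^ (1 / 2 : ℝ) ≤ δ m := by
    intro m j hj
    rw [hδ]
    exact (hb3 m j hj).2
  have hcode : ∀ m c : ℕ, ∃ α β : ℕ, α ≤ M ∧ β ≤ M ∧ J α β ≤ (δ (m + 1) + δ m) ^ 2 ∧
      ∀ j ≤ M, b (m + 1) j + b m j = c → π (m + 1) j = α ∧ π m j = β := by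
    intro m c
    by_cases h : ∃ j ≤ M, b (m + 1) j + b m j = c
    · obtain ⟨j, hj, hc⟩ := h
      refine ⟨π (m + 1) j, π m j, (hb3 (m + 1) j hj).1, (hb3 m j hj).1, ?_, ?_⟩
      · have h3 : J (π (m + 1) j) (π m j) ^ (1 / 2 : ℝ) ≤ δ (m + 1) + δ m := by
          refine (htri _ j _).trans (add_le_add ?_ (hδJ m j hj))
          rw [hJc]
          exact hδJ (m + 1) j hj
        calc J (π (m + 1) j) (π m j) = (J (π (m + 1) j) (π m j) ^ (1 / 2 : ℝ)) ^ 2 := hr.symm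
          _ ≤ _ := by gcongr
      · intro k hk hc'
        have h4 : b (m + 1) k = b (m + 1) j ∧ b m k = b m j := by
          rcases le_total j k with h | h
          · have := hb1 (m + 1) j k h hk
            have := hb1 m j k h hk
            omega
          · have := hb1 (m + 1) k j h hj
            have := hb1 m k j h hj
            omega
        exact ⟨hb4 (m + 1) k j hk hj h4.1, hb4 m k j hk hj h4.2⟩
    · refine ⟨0, 0, Nat.zero_le _, Nat.zero_le _, ?_, ?_⟩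
      · rw [hJ0]
        exact zero_le
      · intro j hj hc
        exact absurd ⟨j, hj, hc⟩ h
  choose α β hα hβ hαβ hc using hcode
  obtain ⟨F, hF⟩ : ∃ F : ℕ → Ω → ℝ≥0∞, F = fun m ω =>
      ⨆ (c : ℕ) (_ : c < 3 * 2 ^ (m + 1)), ‖X (α m c) ω - X (β m c) ω‖ₑ := ⟨_, rfl⟩
  have hFm : ∀ m, Measurable (F m) := by
    intro m
    rw [hF]
    exact Measurable.iSup fun c => Measurable.iSup_Prop _ (((hm _).sub (hm _)).enorm)
  have hFi : ∀ m : ℕ, ENNReal.ofReal (((m : ℝ) + 1) ^ 2) * ∫⁻ ω, F m ω ^ 2 ∂μ ≤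
      8 * (C1 * (1 + μ univ + B)) *
        (ENNReal.ofReal (1 / (((m + 1 : ℕ) : ℝ) + 1) ^ 16) * V (m + 1) ^ 2 +
        ENNReal.ofReal (1 / ((m : ℝ) + 1) ^ 16) * V m ^ 2) := by
    intro m
    have h3 := hC1 Ω μ (3 * 2 ^ (m + 1)) (m + 1) (fun c ω => X (α m c) ω - X (β m c) ω) B
      (δ (m + 1) + δ m) (fun c => (hm _).sub (hm _)) hμ hB
      (ENNReal.add_ne_top.2 ⟨hδt _, hδt _⟩) le_rfl
      (fun c _ => by
        have h5 := hαβ m c
        rw [hJ] at h5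
        exact h5)
      (fun c _ d t hd ht h => hK _ _ d t (hα m c) (hβ m c) hd ht h)
    have h4 : ∫⁻ ω, F m ω ^ 2 ∂μ ≤ C1 * (1 + μ univ + B) *
        ENNReal.ofReal (1 / (((m + 1 : ℕ) : ℝ) + 1) ^ 18) *
          (ENNReal.ofReal (2 ^ (m + 1)) * (δ (m + 1) + δ m) ^ 2) := by
      rw [hF]
      exact h3
    have h5 := lev m (hδ2 (m + 1)) (hδ2 m)
    have hm0 : (0 : ℝ) ≤ m := by positivity
    have e6 : ((m : ℝ) + 1) ^ 2 * (1 / (((m + 1 : ℕ) : ℝ) + 1) ^ 18) ≤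
        1 / (((m + 1 : ℕ) : ℝ) + 1) ^ 16 := by
      rw [mul_one_div, div_le_div_iff₀ (by positivity) (by positivity)]
      have e7 : ((m : ℝ) + 1) ^ 2 ≤ (((m + 1 : ℕ) : ℝ) + 1) ^ 2 := by
        push_cast
        gcongr
        linarith
      calc ((m : ℝ) + 1) ^ 2 * (((m + 1 : ℕ) : ℝ) + 1) ^ 16
          ≤ (((m + 1 : ℕ) : ℝ) + 1) ^ 2 * (((m + 1 : ℕ) : ℝ) + 1) ^ 16 := by gcongr
        _ = 1 * (((m + 1 : ℕ) : ℝ) + 1) ^ 18 := by ring
    have e8 : 1 / (((m + 1 : ℕ) : ℝ) + 1) ^ 16 ≤ 1 / ((m : ℝ) + 1) ^ 16 := by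
      push_cast
      gcongr
      linarith
    calc ENNReal.ofReal (((m : ℝ) + 1) ^ 2) * ∫⁻ ω, F m ω ^ 2 ∂μ
        ≤ ENNReal.ofReal (((m : ℝ) + 1) ^ 2) * (C1 * (1 + μ univ + B) *
          ENNReal.ofReal (1 / (((m + 1 : ℕ) : ℝ) + 1) ^ 18) *
          (8 * (V (m + 1) ^ 2 + V m ^ 2))) := by
          gcongr
          exact h4.trans (by gcongr)
      _ = 8 * (C1 * (1 + μ univ + B)) * ((ENNReal.ofReal (((m : ℝ) + 1) ^ 2) *
          ENNReal.ofReal (1 / (((m + 1 : ℕ) : ℝ) + 1) ^ 18)) * V (m + 1) ^ 2 +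
          (ENNReal.ofReal (((m : ℝ) + 1) ^ 2) *
          ENNReal.ofReal (1 / (((m + 1 : ℕ) : ℝ) + 1) ^ 18)) * V m ^ 2) := by ring
      _ ≤ _ := by
          rw [← ENNReal.ofReal_mul (by positivity)]
          gcongr
          exact e6.trans e8
  have hpt : ∀ L ω, ∀ j ≤ M, ‖X j ω‖ₑ ≤ (∑ m ∈ Finset.range L, F m ω) +
      ‖X j ω - X (π L j) ω‖ₑ := by
    intro L ω j hj
    have e1 : X j ω = (∑ m ∈ Finset.range L, (X (π (m + 1) j) ω - X (π m j) ω)) +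
        (X j ω - X (π L j) ω) := by
      rw [Finset.sum_range_sub (fun m => X (π m j) ω), hb5 0 rfl j, hX0]
      ring
    have e2 : ‖X j ω‖ₑ ≤ (∑ m ∈ Finset.range L, ‖X (π (m + 1) j) ω - X (π m j) ω‖ₑ) +
        ‖X j ω - X (π L j) ω‖ₑ := by
      conv_lhs => rw [e1]
      exact (enorm_add_le _ _).trans (add_le_add (enorm_sum_le _ _) le_rfl)
    refine e2.trans (add_le_add (Finset.sum_le_sum fun m _ => ?_) le_rfl)
    obtain ⟨h5, h6⟩ := hc m (b (m + 1) j + b m j) j hj rfl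
    rw [hF, h5, h6]
    have h7 : b (m + 1) j + b m j < 3 * 2 ^ (m + 1) := by
      have h8 := hb2 (m + 1) j hj
      have h9 := hb2 m j hj
      have h10 : 2 ^ (m + 1) = 2 * 2 ^ m := by ring
      have h11 : 0 < 2 ^ m := by positivity
      omega
    exact le_iSup₂_of_le (f := fun (c : ℕ) (_ : c < 3 * 2 ^ (m + 1)) =>
      ‖X (α m c) ω - X (β m c) ω‖ₑ) (b (m + 1) j + b m j) h7 le_rfl
  have hmain : ∀ L : ℕ, ∫⁻ ω, (⨆ (j : ℕ) (_ : j ≤ M), ‖X j ω‖ₑ) ^ 2 ∂μ ≤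
      64 * (C1 * (1 + μ univ + B)) * S +
        ENNReal.ofReal ((4 * (M + 1)) * (((L : ℝ) + 1) ^ 16 * (1 / 2) ^ L)) * S := by
    intro L
    have hmr : ∀ j, Measurable (fun ω => ‖X j ω - X (π L j) ω‖ₑ ^ 2) := fun j =>
      (((hm j).sub (hm _)).enorm).pow_const 2
    have hFm2 : ∀ m : ℕ, Measurable (fun ω => ENNReal.ofReal (((m : ℝ) + 1) ^ 2) * F m ω ^ 2) :=
      fun m => ((hFm m).pow_const 2).const_mul _
    have h3 : ∫⁻ ω, (⨆ (j : ℕ) (_ : j ≤ M), ‖X j ω‖ₑ) ^ 2 ∂μ ≤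
        ∫⁻ ω, (4 * ∑ m ∈ Finset.range L, ENNReal.ofReal (((m : ℝ) + 1) ^ 2) * F m ω ^ 2) +
          2 * ∑ j ∈ Finset.range (M + 1), ‖X j ω - X (π L j) ω‖ₑ ^ 2 ∂μ := by
      refine lintegral_mono fun ω => sup_sq fun j hj => ?_
      have h4 := cs (fun m => F m ω) L
      have h5 : ‖X j ω - X (π L j) ω‖ₑ ^ 2 ≤
          ∑ j ∈ Finset.range (M + 1), ‖X j ω - X (π L j) ω‖ₑ ^ 2 :=
        Finset.single_le_sum (f := fun j => ‖X j ω - X (π L j) ω‖ₑ ^ 2)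
          (fun _ _ => zero_le) (Finset.mem_range.2 (Nat.lt_succ_of_le hj))
      calc ‖X j ω‖ₑ ^ 2 ≤ ((∑ m ∈ Finset.range L, F m ω) + ‖X j ω - X (π L j) ω‖ₑ) ^ 2 := by
            gcongr
            exact hpt L ω j hj
        _ ≤ 2 * ((∑ m ∈ Finset.range L, F m ω) ^ 2 + ‖X j ω - X (π L j) ω‖ₑ ^ 2) := sq2 _ _
        _ ≤ 2 * (2 * (∑ m ∈ Finset.range L, ENNReal.ofReal (((m : ℝ) + 1) ^ 2) * F m ω ^ 2) +
            ∑ j ∈ Finset.range (M + 1), ‖X j ω - X (π L j) ω‖ₑ ^ 2) := by gcongr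
        _ = _ := by ring
    have h6 : ∫⁻ ω, (4 * ∑ m ∈ Finset.range L, ENNReal.ofReal (((m : ℝ) + 1) ^ 2) * F m ω ^ 2) +
          2 * ∑ j ∈ Finset.range (M + 1), ‖X j ω - X (π L j) ω‖ₑ ^ 2 ∂μ =
        4 * (∑ m ∈ Finset.range L, ENNReal.ofReal (((m : ℝ) + 1) ^ 2) * ∫⁻ ω, F m ω ^ 2 ∂μ) +
          2 * ∑ j ∈ Finset.range (M + 1), J j (π L j) := by
      rw [lintegral_add_left ((Finset.measurable_fun_sum _ fun m _ => hFm2 m).const_mul 4),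
        lintegral_const_mul _ (Finset.measurable_fun_sum _ fun m _ => hFm2 m),
        lintegral_const_mul _ (Finset.measurable_fun_sum _ fun j _ => hmr j),
        lintegral_finsetSum _ (fun m _ => hFm2 m), lintegral_finsetSum _ (fun j _ => hmr j), hJ]
      congr 2
      refine Finset.sum_congr rfl fun m _ => ?_
      rw [lintegral_const_mul _ ((hFm m).pow_const 2)]
    have h7 : ∑ m ∈ Finset.range L, ENNReal.ofReal (((m : ℝ) + 1) ^ 2) * ∫⁻ ω, F m ω ^ 2 ∂μ ≤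
        16 * (C1 * (1 + μ univ + B)) * S := by
      refine (Finset.sum_le_sum fun m _ => hFi m).trans ?_
      rw [← Finset.mul_sum, Finset.sum_add_distrib]
      have h8 : ∑ m ∈ Finset.range L,
          ENNReal.ofReal (1 / (((m + 1 : ℕ) : ℝ) + 1) ^ 16) * V (m + 1) ^ 2 ≤ S := by
        rw [hS]
        have h9 := ENNReal.sum_le_tsum (f := fun m : ℕ =>
          ENNReal.ofReal (1 / ((m : ℝ) + 1) ^ 16) * V m ^ 2) (Finset.range (L + 1))
        refine le_trans ?_ h9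
        rw [Finset.sum_range_succ']
        exact le_self_add
      have h10 : ∑ m ∈ Finset.range L,
          ENNReal.ofReal (1 / ((m : ℝ) + 1) ^ 16) * V m ^ 2 ≤ S := by
        rw [hS]
        exact ENNReal.sum_le_tsum (f := fun m : ℕ =>
          ENNReal.ofReal (1 / ((m : ℝ) + 1) ^ 16) * V m ^ 2) (Finset.range L)
      calc 8 * (C1 * (1 + μ univ + B)) * (∑ m ∈ Finset.range L,
            ENNReal.ofReal (1 / (((m + 1 : ℕ) : ℝ) + 1) ^ 16) * V (m + 1) ^ 2 +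
            ∑ m ∈ Finset.range L, ENNReal.ofReal (1 / ((m : ℝ) + 1) ^ 16) * V m ^ 2)
          ≤ 8 * (C1 * (1 + μ univ + B)) * (S + S) := by gcongr
        _ = 16 * (C1 * (1 + μ univ + B)) * S := by ring
    have h11 : 2 * ∑ j ∈ Finset.range (M + 1), J j (π L j) ≤
        ENNReal.ofReal ((4 * (M + 1)) * (((L : ℝ) + 1) ^ 16 * (1 / 2) ^ L)) * S := by
      have h12 : ∀ j ∈ Finset.range (M + 1), J j (π L j) ≤
          ENNReal.ofReal (2 * (1 / 2) ^ L) * (ENNReal.ofReal (((L : ℝ) + 1) ^ 16) * S) := by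
        intro j hj
        have hj' := Nat.le_of_lt_succ (Finset.mem_range.1 hj)
        calc J j (π L j) = (J j (π L j) ^ (1 / 2 : ℝ)) ^ 2 := hr.symm
          _ ≤ δ L ^ 2 := by
              gcongr
              exact hδJ L j hj'
          _ ≤ ENNReal.ofReal (2 * (1 / 2) ^ L) * V L ^ 2 := hδ2 L
          _ ≤ _ := by
              gcongr
              exact hVS L
      have h13 := Finset.sum_le_sum h12
      rw [Finset.sum_const, Finset.card_range, nsmul_eq_mul] at h13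
      have e14 : (((M + 1 : ℕ) : ℝ≥0∞)) = ENNReal.ofReal ((M : ℝ) + 1) := by
        rw [← Nat.cast_succ, ENNReal.ofReal_natCast]
      calc 2 * ∑ j ∈ Finset.range (M + 1), J j (π L j)
          ≤ 2 * (((M + 1 : ℕ) : ℝ≥0∞) * (ENNReal.ofReal (2 * (1 / 2) ^ L) *
            (ENNReal.ofReal (((L : ℝ) + 1) ^ 16) * S))) := by gcongr
        _ = (ENNReal.ofReal 2 * (ENNReal.ofReal ((M : ℝ) + 1) * (ENNReal.ofReal
            (2 * (1 / 2) ^ L) * ENNReal.ofReal (((L : ℝ) + 1) ^ 16)))) * S := by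
            rw [e14, show ENNReal.ofReal 2 = 2 by norm_num]
            ring
        _ = _ := by
            rw [← ENNReal.ofReal_mul (by positivity), ← ENNReal.ofReal_mul (by positivity),
              ← ENNReal.ofReal_mul (by positivity)]
            congr 2
            ring
    calc ∫⁻ ω, (⨆ (j : ℕ) (_ : j ≤ M), ‖X j ω‖ₑ) ^ 2 ∂μ
        ≤ 4 * (∑ m ∈ Finset.range L, ENNReal.ofReal (((m : ℝ) + 1) ^ 2) *
            ∫⁻ ω, F m ω ^ 2 ∂μ) + 2 * ∑ j ∈ Finset.range (M + 1), J j (π L j) :=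
          h3.trans h6.le
      _ ≤ 4 * (16 * (C1 * (1 + μ univ + B)) * S) +
          ENNReal.ofReal ((4 * (M + 1)) * (((L : ℝ) + 1) ^ 16 * (1 / 2) ^ L)) * S := by gcongr
      _ = _ := by ring
  have hlim : Tendsto (fun L : ℕ => 64 * (C1 * (1 + μ univ + B)) * S +
      ENNReal.ofReal ((4 * (M + 1)) * (((L : ℝ) + 1) ^ 16 * (1 / 2) ^ L)) * S) atTop
      (𝓝 (64 * (C1 * (1 + μ univ + B)) * S + 0 * S)) :=
    (ENNReal.Tendsto.mul_const (lim (4 * (M + 1))) (Or.inr hSt)).const_add _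
  have h15 := ge_of_tendsto' hlim hmain
  rw [zero_mul, add_zero] at h15
  refine h15.trans ?_
  calc 64 * (C1 * (1 + μ univ + B)) * S = (64 * (C1 : ℝ≥0∞)) * (1 + μ univ + B) * S := by ring
    _ ≤ ((64 * C1 + 1 : ℝ≥0) : ℝ≥0∞) * (1 + μ univ + B) * S := by
        gcongr
        push_cast
        exact le_self_add

end Pool.Agent.VRR
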