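import Pool.Agent.VRR.Targets3

set_option autoImplicit false

/-!
# VRR, LPN: the maximal inequality for systems of spherical harmonics with an `L^p` bound

Chaining in `L^p` of the sphere (LCP) and the `q`-variation of the coefficients (VEC), `q = (p + 2) / 2`.
-/

namespace Pool.Agent.VRR

open MeasureTheory FourierTransform Set Filter Topology
open scoped ENNReal NNReal ComplexConjugate
open Pool.Agent.MBS (E ex)
open Pool.Agent.CRN (sg T_POLN)
open Pool.Agent.CRW (T_LCP)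

namespace LPN_

theorem rpow_le (x : ℝ≥0∞) {a : ℝ} (ha : 0 ≤ a) (ha1 : a ≤ 1) : x ^ a ≤ 1 + x := by
  rcases le_total x 1 with h | h
  · exact (ENNReal.rpow_le_one h ha).trans le_self_add
  · have h1 := ENNReal.rpow_le_rpow_of_exponent_le h ha1
    rw [ENNReal.rpow_one] at h1
    exact h1.trans le_add_self

/-- the powers of `p - 2` -/
theorem cst {p : ℝ} (hp : 2 < p) (hp4 : p ≤ 4) :
    ENNReal.ofReal ((1 / (p - (p + 2) / 2)) ^ 2) * ENNReal.ofReal (kr ((p + 2) / 2) ^ 14) ≤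
      ((4 * 6 ^ 14 : ℝ≥0) : ℝ≥0∞) * ENNReal.ofReal ((1 / (p - 2)) ^ 16) := by
  have h0 : 0 < p - 2 := by linarith
  have e1 : 1 / (p - (p + 2) / 2) = 2 * (1 / (p - 2)) := by
    have e0 : p - (p + 2) / 2 = (p - 2) / 2 := by ring
    rw [e0, one_div_div]
    ring
  have e2 : kr ((p + 2) / 2) ≤ 6 * (1 / (p - 2)) := by
    unfold kr
    rw [mul_one_div, div_le_div_iff₀ (by linarith) h0]
    nlinarith
  have e3 : 0 ≤ kr ((p + 2) / 2) := by
    unfold kr
    exact div_nonneg (by linarith) (by linarith)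
  have e4 : ((4 * 6 ^ 14 : ℝ≥0) : ℝ≥0∞) = ENNReal.ofReal (4 * 6 ^ 14) := by
    rw [ENNReal.ofReal]
    congr 1
    ext
    push_cast
    rw [Real.coe_toNNReal _ (by positivity)]
  rw [e1, e4, ← ENNReal.ofReal_mul (by positivity), ← ENNReal.ofReal_mul (by positivity)]
  refine ENNReal.ofReal_le_ofReal ?_
  calc (2 * (1 / (p - 2))) ^ 2 * kr ((p + 2) / 2) ^ 14
      ≤ (2 * (1 / (p - 2))) ^ 2 * (6 * (1 / (p - 2))) ^ 14 :=
        mul_le_mul_of_nonneg_left (pow_le_pow_left₀ e3 e2 14) (by positivity)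
    _ = _ := by ring

theorem hold {n : ℕ} (μ : Measure (Metric.sphere (0 : E n) 1))
    (g : Metric.sphere (0 : E n) 1 → ℝ≥0∞) (hg : Measurable g) {p : ℝ} (hp : 2 < p) :
    ∫⁻ θ, g θ ^ 2 ∂μ ≤ (∫⁻ θ, g θ ^ p ∂μ) ^ (2 / p) * (μ univ) ^ (1 - 2 / p) := by
  have hp0 : 0 < p := by linarith
  have hpq : (p / 2).HolderConjugate (p / 2).conjExponent :=
    Real.HolderConjugate.conjExponent (by linarith)
  have h := ENNReal.lintegral_mul_le_Lp_mul_Lq μ hpq (f := fun θ => g θ ^ 2) (g := fun _ => 1)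
    (hg.pow_const 2).aemeasurable aemeasurable_const
  simp only [Pi.mul_apply, mul_one, ENNReal.one_rpow, lintegral_const, one_mul] at h
  have e1 : ∀ θ, (g θ ^ 2) ^ (p / 2) = g θ ^ p := by
    intro θ
    rw [← ENNReal.rpow_natCast, ← ENNReal.rpow_mul]
    congr 1
    push_cast
    ring
  simp only [e1] at h
  have e2 : 1 / (p / 2) = 2 / p := one_div_div _ _
  have e3 : 1 / (p / 2).conjExponent = 1 - 2 / p := by
    have := hpq.inv_add_inv_eq_one
    rw [one_div, ← this, inv_div]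
    ring
  rw [e2, e3] at h
  exact h

/-- the maximum over a dyadic grid of radii -/
noncomputable def gg (H : ℝ → ℂ) (m : ℕ) : ℝ≥0∞ :=
  ⨆ (j : ℕ) (_ : j ≤ 4 ^ m), ‖H ((j : ℝ) / 2 ^ m)‖ₑ

theorem gg_mono (H : ℝ → ℂ) : Monotone (gg H) := by
  refine monotone_nat_of_le_succ fun n => ?_
  unfold gg
  refine iSup_le fun j => iSup_le fun hj => ?_
  refine le_iSup_of_le (2 * j) (le_iSup_of_le ?_ ?_)
  · have h1 : 0 < 4 ^ n := by positivity
    rw [pow_succ]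
    omega
  · have e : (((2 * j : ℕ) : ℝ)) / 2 ^ (n + 1) = (j : ℝ) / 2 ^ n := by
      push_cast
      rw [pow_succ]
      field_simp
    rw [e]

theorem gg_eq {H : ℝ → ℂ} (hc : Continuous H) (h0 : ∀ R : ℝ, R ≤ 0 → H R = 0) :
    (⨆ (R : ℝ) (_ : 0 < R), ‖H R‖ₑ) = ⨆ m, gg H m := by
  refine le_antisymm ?_ ?_
  · refine iSup_le fun R => iSup_le fun hR => ?_
    have h2 : Tendsto (fun n : ℕ => (2 : ℝ) ^ n) atTop atTop :=
      tendsto_pow_atTop_atTop_of_one_lt (by norm_num)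
    have h1 : Tendsto (fun n : ℕ => ((⌊R * 2 ^ n⌋₊ : ℕ) : ℝ) / 2 ^ n) atTop (𝓝 R) :=
      (tendsto_nat_floor_mul_div_atTop hR.le).comp h2
    have h3 : Tendsto (fun n : ℕ => ‖H (((⌊R * 2 ^ n⌋₊ : ℕ) : ℝ) / 2 ^ n)‖ₑ) atTop
        (𝓝 ‖H R‖ₑ) := (hc.enorm.tendsto R).comp h1
    refine le_of_tendsto h3 ?_
    filter_upwards [h2.eventually_ge_atTop R] with n hn
    refine le_iSup_of_le n ?_
    unfold gg
    refine le_iSup_of_le ⌊R * 2 ^ n⌋₊ (le_iSup_of_le ?_ le_rfl)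
    have h4 : R * 2 ^ n ≤ ((4 ^ n : ℕ) : ℝ) := by
      push_cast
      have : (4 : ℝ) ^ n = 2 ^ n * 2 ^ n := by rw [← mul_pow]; norm_num
      rw [this]
      exact mul_le_mul_of_nonneg_right hn (by positivity)
    have h6 := Nat.floor_le_floor h4
    rwa [Nat.floor_natCast] at h6
  · refine iSup_le fun n => ?_
    unfold gg
    refine iSup_le fun j => iSup_le fun hj => ?_
    rcases Nat.eq_zero_or_pos j with h | h
    · rw [h, Nat.cast_zero, zero_div, h0 0 le_rfl, enorm_zero]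
      exact zero_le
    · refine le_iSup_of_le ((j : ℝ) / 2 ^ n) (le_iSup_of_le ?_ le_rfl)
      positivity

/-- orthonormality -/
theorem orth {n K : ℕ} {l : ℕ → ℕ} {Y : ℕ → E n → ℂ} (hY : Sys n K l Y)
    (hfin : IsFiniteMeasure (sg n)) (b : ℕ → ℂ) :
    ∫⁻ θ, ‖∑ i ∈ Finset.range K, b i * Y i (θ : E n)‖ₑ ^ 2 ∂(sg n) =
      ∑ i ∈ Finset.range K, ‖b i‖ₑ ^ 2 := by
  have hc : ∀ i < K, Continuous fun θ : Metric.sphere (0 : E n) 1 => Y i (θ : E n) :=
    fun i hi => (hY.har i hi).c2.continuous.comp continuous_subtype_val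
  have hint : ∀ {F : Metric.sphere (0 : E n) 1 → ℂ}, Continuous F → Integrable F (sg n) :=
    fun hF => hF.integrable_of_hasCompactSupport (HasCompactSupport.of_compactSpace _)
  have hintR : ∀ {F : Metric.sphere (0 : E n) 1 → ℝ}, Continuous F → Integrable F (sg n) :=
    fun hF => hF.integrable_of_hasCompactSupport (HasCompactSupport.of_compactSpace _)
  have hf : Continuous fun θ : Metric.sphere (0 : E n) 1 =>
      ∑ i ∈ Finset.range K, b i * Y i (θ : E n) :=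
    continuous_finsetSum _ fun i hi => continuous_const.mul (hc i (Finset.mem_range.1 hi))
  have e : ∀ θ : Metric.sphere (0 : E n) 1,
      ((‖∑ i ∈ Finset.range K, b i * Y i (θ : E n)‖ ^ 2 : ℝ) : ℂ) =
      ∑ i ∈ Finset.range K, ∑ j ∈ Finset.range K,
        (b i * conj (b j)) * (Y i (θ : E n) * conj (Y j (θ : E n))) := by
    intro θ
    rw [Complex.ofReal_pow, ← Complex.mul_conj', map_sum, Finset.sum_mul_sum]
    refine Finset.sum_congr rfl fun i _ => Finset.sum_congr rfl fun j _ => ?_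
    rw [map_mul]
    ring
  have hI : ∀ i ∈ Finset.range K, ∀ j ∈ Finset.range K,
      Integrable (fun θ : Metric.sphere (0 : E n) 1 =>
        (b i * conj (b j)) * (Y i (θ : E n) * conj (Y j (θ : E n)))) (sg n) := fun i hi j hj =>
    hint (continuous_const.mul ((hc i (Finset.mem_range.1 hi)).mul
      (Complex.continuous_conj.comp (hc j (Finset.mem_range.1 hj)))))
  have h1 : ((∫ θ, ‖∑ i ∈ Finset.range K, b i * Y i (θ : E n)‖ ^ 2 ∂(sg n) : ℝ) : ℂ) =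
      ((∑ i ∈ Finset.range K, ‖b i‖ ^ 2 : ℝ) : ℂ) := by
    rw [← integral_complex_ofReal]
    simp only [e]
    rw [integral_finsetSum _ fun i hi => integrable_finsetSum _ fun j hj => hI i hi j hj]
    rw [Complex.ofReal_sum]
    refine Finset.sum_congr rfl fun i hi => ?_
    rw [integral_finsetSum _ fun j hj => hI i hi j hj]
    have e2 : ∀ j ∈ Finset.range K, ∫ θ, (b i * conj (b j)) * (Y i (θ : E n) *
        conj (Y j (θ : E n))) ∂(sg n) = if i = j then b i * conj (b j) else 0 := by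
      intro j hj
      rw [integral_const_mul, hY.ort i (Finset.mem_range.1 hi) j (Finset.mem_range.1 hj)]
      split_ifs <;> simp
    rw [Finset.sum_congr rfl e2, Finset.sum_ite_eq, if_pos hi, Complex.mul_conj',
      Complex.ofReal_pow]
  rw [Complex.ofReal_inj] at h1
  have e3 := ofReal_integral_eq_lintegral_ofReal
    (hintR (F := fun θ => ‖∑ i ∈ Finset.range K, b i * Y i (θ : E n)‖ ^ 2) (hf.norm.pow 2))
    (ae_of_all _ fun θ => by positivity)
  rw [h1, ENNReal.ofReal_sum_of_nonneg fun i _ => by positivity] at e3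
  simp only [ENNReal.ofReal_pow (norm_nonneg _), ofReal_norm] at e3
  exact e3.symm

/-- the body of `T_LCP` -/
def LCB (C : ℝ≥0) : Prop := ∀ (Ω : Type) [MeasurableSpace Ω] (μ : Measure Ω) (M : ℕ)
  (X : ℕ → Ω → ℂ) (B V : ℝ≥0∞) (p q : ℝ), 2 < q → q < p → p ≤ 4 → (∀ j, Measurable (X j)) →
  (∀ ω, X 0 ω = 0) → B ≠ ⊤ → V ≠ ⊤ →
  (∀ j k, j ≤ M → k ≤ M → (∫⁻ ω, ‖X j ω - X k ω‖ₑ ^ p ∂μ) ^ (1 / p) ≤
    B * (∫⁻ ω, ‖X j ω - X k ω‖ₑ ^ 2 ∂μ) ^ (1 / 2 : ℝ)) →
  (∀ (l : ℕ) (t : ℕ → ℕ), Monotone t → (∀ r, t r ≤ M) →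
    ∑ r ∈ Finset.range l, (∫⁻ ω, ‖X (t (r + 1)) ω - X (t r) ω‖ₑ ^ 2 ∂μ) ^ (q / 2) ≤ V ^ q) →
    (∫⁻ ω, (⨆ (j : ℕ) (_ : j ≤ M), ‖X j ω‖ₑ) ^ p ∂μ) ^ (1 / p) ≤
      C * ENNReal.ofReal (1 / (p - q)) * B * V

theorem WV_ge {q : ℝ} (hq : 2 < q) (K : ℕ) (c : ℕ → ℝ → ℝ → ℂ) (r : ℝ) (L : ℕ) (N : ℕ → ℝ)
    (hN : Monotone N) :
    ∑ j ∈ Finset.range L, (∑ i ∈ Finset.range K, ‖c i (N (j + 1)) r - c i (N j) r‖ₑ ^ 2) ^
      (q / 2) ≤ WV q K c r ^ q := by
  have h1 : (∑ j ∈ Finset.range L,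
      (∑ i ∈ Finset.range K, ‖c i (N (j + 1)) r - c i (N j) r‖ₑ ^ 2) ^ (q / 2)) ^ (1 / q) ≤
      WV q K c r := by
    unfold WV
    exact le_iSup_of_le L (le_iSup_of_le N (le_iSup_of_le hN le_rfl))
  have h2 := ENNReal.rpow_le_rpow h1 (by linarith : 0 ≤ q)
  rwa [← ENNReal.rpow_mul, one_div_mul_cancel (by linarith : q ≠ 0), ENNReal.rpow_one] at h2

theorem diff {n K : ℕ} (Y : ℕ → E n → ℂ) (c : ℕ → ℝ → ℝ → ℂ) (R R' r : ℝ) (x : E n) :
    (∑ i ∈ Finset.range K, c i R r * Y i x) - (∑ i ∈ Finset.range K, c i R' r * Y i x) =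
      ∑ i ∈ Finset.range K, (c i R r - c i R' r) * Y i x := by
  rw [← Finset.sum_sub_distrib]
  exact Finset.sum_congr rfl fun i _ => by ring

/-- one grid -/
theorem grid {n K : ℕ} (hfin : IsFiniteMeasure (sg n)) {C : ℝ≥0} (hC : LCB C)
    {l : ℕ → ℕ} {Y : ℕ → E n → ℂ} (hY : Sys n K l Y) {p q : ℝ} (hq : 2 < q) (hqp : q < p)
    (hp : p ≤ 4) {B : ℝ≥0} (hL : LPS n K p Y B) {c : ℕ → ℝ → ℝ → ℂ}
    (h0 : ∀ i R r, R ≤ 0 → c i R r = 0) (r : ℝ) (hV : WV q K c r ≠ ⊤) (m : ℕ) :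
    ∫⁻ θ, gg (fun R => ∑ i ∈ Finset.range K, c i R r * Y i (θ : E n)) m ^ p ∂(sg n) ≤
      (C * ENNReal.ofReal (1 / (p - q)) * B * WV q K c r) ^ p := by
  have hp0 : 0 < p := by linarith
  have h := hC (Metric.sphere (0 : E n) 1) (sg n) (4 ^ m)
    (fun j θ => ∑ i ∈ Finset.range K, c i ((j : ℝ) / 2 ^ m) r * Y i (θ : E n)) B (WV q K c r)
    p q hq hqp hp
    (fun j => Finset.measurable_fun_sum _ fun i hi => measurable_const.mul
      ((hY.har i (Finset.mem_range.1 hi)).c2.continuous.comp continuous_subtype_val).measurable)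
    (fun θ => by
      refine Finset.sum_eq_zero fun i _ => ?_
      rw [Nat.cast_zero, zero_div, h0 i 0 r le_rfl, zero_mul])
    ENNReal.coe_ne_top hV
    (fun j k _ _ => by
      simp only [diff]
      rw [orth hY hfin]
      exact hL _)
    (fun l t ht _ => by
      simp only [diff, orth hY hfin]
      refine WV_ge hq K c r l (fun i => ((t i : ℕ) : ℝ) / 2 ^ m) fun i j hij => ?_
      have := ht hij
      have h2 : ((t i : ℕ) : ℝ) ≤ ((t j : ℕ) : ℝ) := by exact_mod_cast this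
      exact div_le_div_of_nonneg_right h2 (by positivity))
  have h2 := ENNReal.rpow_le_rpow h hp0.le
  rw [← ENNReal.rpow_mul, one_div_mul_cancel hp0.ne', ENNReal.rpow_one] at h2
  exact h2

/-- the sphere of radius `r` -/
theorem circ {n K : ℕ} (hfin : IsFiniteMeasure (sg n)) {C : ℝ≥0} (hC : LCB C)
    {l : ℕ → ℕ} {Y : ℕ → E n → ℂ} (hY : Sys n K l Y) {p q : ℝ} (hq : 2 < q) (hqp : q < p)
    (hp : p ≤ 4) {B : ℝ≥0} (hL : LPS n K p Y B) {c : ℕ → ℝ → ℝ → ℂ}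
    (h0 : ∀ i R r, R ≤ 0 → c i R r = 0) (hpq : p - q ≤ 1) (r : ℝ) :
    ∫⁻ θ, (⨆ m, gg (fun R => ∑ i ∈ Finset.range K, c i R r * Y i (θ : E n)) m) ^ 2 ∂(sg n) ≤
      (1 + sg n univ) * (ENNReal.ofReal ((1 / (p - q)) ^ 2) * ((1 + C ^ 2) * (1 + B ^ 2))) *
        WV q K c r ^ 2 := by
  have hp0 : 0 < p := by linarith
  have hp2 : 2 < p := by linarith
  have hpq0 : 0 < p - q := by linarith
  have hK1 : (1 : ℝ≥0∞) ≤ ENNReal.ofReal ((1 / (p - q)) ^ 2) := by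
    rw [ENNReal.one_le_ofReal]
    have : 1 ≤ 1 / (p - q) := by
      rw [le_div_iff₀ hpq0]
      linarith
    exact one_le_pow₀ this
  have hgm : ∀ m, Measurable fun θ : Metric.sphere (0 : E n) 1 =>
      gg (fun R => ∑ i ∈ Finset.range K, c i R r * Y i (θ : E n)) m := by
    intro m
    unfold gg
    refine Measurable.iSup fun j => Measurable.iSup fun _ => Measurable.enorm ?_
    exact Finset.measurable_fun_sum _ fun i hi => measurable_const.mul
      ((hY.har i (Finset.mem_range.1 hi)).c2.continuous.comp continuous_subtype_val).measurable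
  by_cases hV : WV q K c r = ⊤
  · rw [hV]
    refine le_trans le_top (le_of_eq ?_)
    rw [ENNReal.top_pow (by norm_num), ENNReal.mul_top]
    have h1 : (1 : ℝ≥0∞) ≤ (1 + sg n univ) * (ENNReal.ofReal ((1 / (p - q)) ^ 2) *
        ((1 + C ^ 2) * (1 + B ^ 2))) := by
      have a1 : (1 : ℝ≥0∞) ≤ 1 + sg n univ := le_self_add
      have a2 : (1 : ℝ≥0∞) ≤ 1 + C ^ 2 := le_self_add
      have a3 : (1 : ℝ≥0∞) ≤ 1 + B ^ 2 := le_self_add
      exact one_le_mul a1 (one_le_mul hK1 (one_le_mul a2 a3))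
    exact (zero_lt_one.trans_le h1).ne'
  · have h6 : ∫⁻ θ, (⨆ m, gg (fun R => ∑ i ∈ Finset.range K, c i R r * Y i (θ : E n)) m) ^ p
        ∂(sg n) ≤ (C * ENNReal.ofReal (1 / (p - q)) * B * WV q K c r) ^ p := by
      have e : ∀ θ : Metric.sphere (0 : E n) 1,
          (⨆ m, gg (fun R => ∑ i ∈ Finset.range K, c i R r * Y i (θ : E n)) m) ^ p =
          ⨆ m, gg (fun R => ∑ i ∈ Finset.range K, c i R r * Y i (θ : E n)) m ^ p := by
        intro θ
        exact (ENNReal.orderIsoRpow p hp0).map_iSup fun m =>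
          gg (fun R => ∑ i ∈ Finset.range K, c i R r * Y i (θ : E n)) m
      simp only [e]
      rw [lintegral_iSup (f := fun m (θ : Metric.sphere (0 : E n) 1) =>
          gg (fun R => ∑ i ∈ Finset.range K, c i R r * Y i (θ : E n)) m ^ p)
        (fun m => (hgm m).pow_const p)
        (fun a b hab θ => ENNReal.rpow_le_rpow (gg_mono _ hab) hp0.le)]
      exact iSup_le fun m => grid hfin hC hY hq hqp hp hL h0 r hV m
    refine (hold (sg n) (fun θ => ⨆ m, gg (fun R => ∑ i ∈ Finset.range K,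
      c i R r * Y i (θ : E n)) m) (Measurable.iSup hgm) hp2).trans ?_
    have h7 : (∫⁻ θ, (⨆ m, gg (fun R => ∑ i ∈ Finset.range K, c i R r * Y i (θ : E n)) m) ^ p
        ∂(sg n)) ^ (2 / p) ≤
        (ENNReal.ofReal ((1 / (p - q)) ^ 2) * ((1 + C ^ 2) * (1 + B ^ 2))) *
          WV q K c r ^ 2 := by
      refine (ENNReal.rpow_le_rpow h6 (by positivity)).trans ?_
      rw [← ENNReal.rpow_mul, mul_div_cancel₀ _ hp0.ne']
      have e4 : ∀ x : ℝ≥0∞, x ^ (2 : ℝ) = x ^ 2 := fun x => by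
        rw [← ENNReal.rpow_natCast]
        norm_num
      rw [e4, ENNReal.ofReal_pow (by positivity)]
      have a2 : (C : ℝ≥0∞) ^ 2 ≤ 1 + C ^ 2 := le_add_self
      have a3 : (B : ℝ≥0∞) ^ 2 ≤ 1 + B ^ 2 := le_add_self
      calc (C * ENNReal.ofReal (1 / (p - q)) * B * WV q K c r) ^ 2
          = ENNReal.ofReal (1 / (p - q)) ^ 2 * ((C : ℝ≥0∞) ^ 2 * (B : ℝ≥0∞) ^ 2) *
            WV q K c r ^ 2 := by ring
        _ ≤ _ := by gcongr
    have h8 : (sg n univ) ^ (1 - 2 / p) ≤ 1 + sg n univ := by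
      have h9 : 2 / p ≤ 1 := by
        rw [div_le_one hp0]
        linarith
      have h10 : 0 < 2 / p := by positivity
      exact rpow_le _ (by linarith) (by linarith)
    calc _ ≤ (ENNReal.ofReal ((1 / (p - q)) ^ 2) * ((1 + C ^ 2) * (1 + B ^ 2))) *
          WV q K c r ^ 2 * (1 + sg n univ) := mul_le_mul' h7 h8
      _ = _ := by ring

/-- the ball sums in polar coordinates -/
noncomputable def GP {n : ℕ} (K : ℕ) (c : ℕ → ℝ → ℝ → ℂ) (Y : ℕ → E n → ℂ) (x : E n)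
    (R : ℝ) : ℂ :=
  ∑ i ∈ Finset.range K, c i R ‖x‖ * Y i (‖x‖⁻¹ • x)

theorem GP_meas {n K : ℕ} {l : ℕ → ℕ} {Y : ℕ → E n → ℂ} (hY : Sys n K l Y)
    {c : ℕ → ℝ → ℝ → ℂ} (hc : ∀ i, Continuous (fun z : ℝ × ℝ => c i z.1 z.2)) (R : ℝ) :
    Measurable fun x : E n => GP K c Y x R := by
  unfold GP
  refine Finset.measurable_fun_sum _ fun i hi => Measurable.mul ?_ ?_
  · exact ((hc i).comp (continuous_const.prodMk continuous_norm)).measurable
  · have h1 : Measurable fun x : E n => ‖x‖⁻¹ • x :=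
      (measurable_norm.inv).smul measurable_id
    exact (hY.har i (Finset.mem_range.1 hi)).c2.continuous.measurable.comp h1

theorem GP_smul {n K : ℕ} (c : ℕ → ℝ → ℝ → ℂ) (Y : ℕ → E n → ℂ) {r : ℝ} (hr : 0 < r)
    (θ : E n) (hθ : ‖θ‖ = 1) (R : ℝ) :
    GP K c Y (r • θ) R = ∑ i ∈ Finset.range K, c i R r * Y i θ := by
  have e1 : ‖r • θ‖ = r := by
    rw [norm_smul, hθ, mul_one, Real.norm_eq_abs, abs_of_pos hr]
  unfold GP
  rw [e1, inv_smul_smul₀ hr.ne']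

end LPN_

open LPN_ in
/-- **LPN** -/
theorem p_LPN (h1 : T_VEC) (h2 : Pool.Agent.CRW.T_LCP) (h3 : Pool.Agent.CRN.T_POLN) : T_LPN := by
  intro n hn
  obtain ⟨C, hC⟩ := h2
  obtain ⟨D, hD⟩ := h1 n hn
  obtain ⟨hpol, -, hfin⟩ := h3 n (by omega)
  have hs : sg n univ ≠ ⊤ := measure_ne_top _ _
  refine ⟨(1 + (sg n univ).toNNReal) * (1 + C ^ 2) * D * (4 * 6 ^ 14),
    fun p B K l Y a hp2 hp4 hY hL hm hnn => ?_⟩
  obtain ⟨c, hc, h0, hBN, hWV⟩ := hD K l Y a hY hm hnn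
  set q : ℝ := (p + 2) / 2 with hq
  have hq2 : 2 < q := by rw [hq]; linarith
  have hqp : q < p := by rw [hq]; linarith
  have hpq : p - q ≤ 1 := by rw [hq]; linarith
  set A : ℝ≥0∞ := (1 + sg n univ) * (ENNReal.ofReal ((1 / (p - q)) ^ 2) *
    ((1 + (C : ℝ≥0∞) ^ 2) * (1 + (B : ℝ≥0∞) ^ 2))) with hAd
  have hA : A ≠ ⊤ :=
    ENNReal.mul_ne_top (ENNReal.add_ne_top.2 ⟨ENNReal.one_ne_top, hs⟩)
      (ENNReal.mul_ne_top ENNReal.ofReal_ne_top (ENNReal.mul_ne_top (by simp) (by simp)))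
  -- the supremum in polar coordinates
  have hGc : ∀ x : E n, Continuous (GP K c Y x) := fun x => by
    unfold GP
    exact continuous_finsetSum _ fun i _ =>
      ((hc i).comp (continuous_id.prodMk continuous_const)).mul continuous_const
  have hG0 : ∀ (x : E n) (R : ℝ), R ≤ 0 → GP K c Y x R = 0 := fun x R hR => by
    unfold GP
    exact Finset.sum_eq_zero fun i _ => by rw [h0 i R _ hR, zero_mul]
  have hne : ∀ x : E n, x ≠ 0 → (⨆ (R : ℝ) (_ : 0 < R), ‖BN (fs K a Y) R x‖ₑ) =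
      ⨆ m, gg (GP K c Y x) m := by
    intro x hx
    have hx0 : 0 < ‖x‖ := norm_pos_iff.2 hx
    have e1 : ‖(‖x‖⁻¹ • x)‖ = 1 := by
      rw [norm_smul, norm_inv, norm_norm, inv_mul_cancel₀ hx0.ne']
    have e2 : ∀ R, BN (fs K a Y) R x = GP K c Y x R := by
      intro R
      have h := hBN R ‖x‖ (‖x‖⁻¹ • x) hx0 e1
      rw [smul_inv_smul₀ hx0.ne'] at h
      rw [h]
      rfl
    simp only [e2]
    exact gg_eq (hGc x) (hG0 x)
  have hae : ∀ᵐ x : E n, (⨆ (R : ℝ) (_ : 0 < R), ‖BN (fs K a Y) R x‖ₑ) ^ 2 =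
      (⨆ m, gg (GP K c Y x) m) ^ 2 := by
    have hnt : Nontrivial (E n) := by
      have : Nonempty (Fin n) := ⟨⟨0, by omega⟩⟩
      infer_instance
    have h4 : ∀ᵐ x : E n, x ≠ 0 := by
      rw [ae_iff]
      simp only [not_not]
      exact measure_singleton 0
    filter_upwards [h4] with x hx
    rw [hne x hx]
  have hgm : Measurable fun x : E n => ⨆ m, gg (GP K c Y x) m := by
    refine Measurable.iSup fun m => ?_
    unfold gg
    exact Measurable.iSup fun j => Measurable.iSup fun _ => (GP_meas hY hc _).enorm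
  rw [lintegral_congr_ae hae, hpol (fun x => (⨆ m, gg (GP K c Y x) m) ^ 2) (hgm.pow_const 2)]
  calc ∫⁻ r in Ioi (0 : ℝ), ∫⁻ ω, ENNReal.ofReal (r ^ (n - 1)) *
        (⨆ m, gg (GP K c Y (r • (ω : E n))) m) ^ 2 ∂(sg n)
      ≤ ∫⁻ r in Ioi (0 : ℝ), A * (WV q K c r ^ 2 * ENNReal.ofReal (r ^ (n - 1))) := by
        refine setLIntegral_mono' measurableSet_Ioi fun r hr => ?_
        rw [lintegral_const_mul' _ _ ENNReal.ofReal_ne_top]
        have e5 : ∀ ω : Metric.sphere (0 : E n) 1, GP K c Y (r • (ω : E n)) =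
            fun R => ∑ i ∈ Finset.range K, c i R r * Y i (ω : E n) := fun ω =>
          funext fun R => GP_smul c Y hr _ (by simp) R
        simp only [e5]
        calc _ ≤ ENNReal.ofReal (r ^ (n - 1)) * (A * WV q K c r ^ 2) :=
              mul_le_mul_right (circ hfin hC hY hq2 hqp hp4 hL h0 hpq r) _
          _ = _ := by ring
    _ = A * ∫⁻ r in Ioi (0 : ℝ), WV q K c r ^ 2 * ENNReal.ofReal (r ^ (n - 1)) :=
        lintegral_const_mul' _ _ hA
    _ ≤ A * (D * ENNReal.ofReal (kr q ^ 14) * ∑ i ∈ Finset.range K, nn n (a i)) :=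
        mul_le_mul_right (hWV q hq2 (by linarith)) _
    _ = (1 + sg n univ) * ((1 + (C : ℝ≥0∞) ^ 2) * (1 + (B : ℝ≥0∞) ^ 2)) * D *
        (ENNReal.ofReal ((1 / (p - q)) ^ 2) * ENNReal.ofReal (kr q ^ 14)) *
          ∑ i ∈ Finset.range K, nn n (a i) := by
        rw [hAd]
        ring
    _ ≤ (1 + sg n univ) * ((1 + (C : ℝ≥0∞) ^ 2) * (1 + (B : ℝ≥0∞) ^ 2)) * D *
        (((4 * 6 ^ 14 : ℝ≥0) : ℝ≥0∞) * ENNReal.ofReal ((1 / (p - 2)) ^ 16)) *
          ∑ i ∈ Finset.range K, nn n (a i) := by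
        exact mul_le_mul_left (mul_le_mul_right (cst hp2 hp4) _) _
    _ = _ := by
        push_cast
        rw [ENNReal.coe_toNNReal hs]
        ring

end Pool.Agent.VRR
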