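import Pool.Agent.VRR.Targets3
import Pool.Agent.CRN.P_POLN
import Pool.Agent.CRN.P_BESN
import Pool.Agent.CRF.P_RMG

set_option autoImplicit false

/-!
# VRR: VEC, finitely many harmonics
-/

namespace Pool.Agent.VRR

open MeasureTheory FourierTransform Set Filter Topology
open scoped ENNReal NNReal ComplexConjugate
open Pool.Agent.MBS (E ex)
open Pool.Agent.CRN (sg SH T_POLN p_POLN)
open Pool.Agent.CRR (Sol NSol T_UNI)
open Pool.Agent.VRC (Pure od T_ODV T_GMV)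
open Pool.Agent.CRW (T_LCP)

namespace VEC_

/-! ### Minkowski -/

theorem mink {p : ℝ} (hp : 1 ≤ p) (L : ℕ) (x : ℕ → ℕ → ℝ≥0∞) (K : ℕ) :
    (∑ j ∈ Finset.range L, (∑ i ∈ Finset.range K, x i j) ^ p) ^ (1 / p) ≤
      ∑ i ∈ Finset.range K, (∑ j ∈ Finset.range L, x i j ^ p) ^ (1 / p) := by
  have hp0 : 0 < p := by linarith
  induction K with
  | zero =>
    simp only [Finset.range_zero, Finset.sum_empty]
    rw [ENNReal.zero_rpow_of_pos hp0, Finset.sum_const_zero,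
      ENNReal.zero_rpow_of_pos (by positivity)]
  | succ K ih =>
    simp only [Finset.sum_range_succ]
    exact (ENNReal.Lp_add_le _ _ _ hp).trans (add_le_add ih le_rfl)

theorem sq_rpow {q : ℝ} (y : ℝ≥0∞) : (y ^ (1 / q)) ^ 2 = y ^ (1 / (q / 2)) := by
  rw [← ENNReal.rpow_natCast, ← ENNReal.rpow_mul]
  congr 1
  push_cast
  rw [one_div_div]
  ring

theorem WV_term {q : ℝ} (K : ℕ) (c : ℕ → ℝ → ℝ → ℂ) (r : ℝ) (L : ℕ) (N : ℕ → ℝ)
    (hN : Monotone N) : (∑ j ∈ Finset.range L,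
      (∑ i ∈ Finset.range K, ‖c i (N (j + 1)) r - c i (N j) r‖ₑ ^ 2) ^ (q / 2)) ^ (1 / q) ≤
        WV q K c r := by
  unfold WV
  exact le_iSup_of_le L (le_iSup_of_le N (le_iSup_of_le hN le_rfl))

theorem WV_sq_le {q : ℝ} {K : ℕ} {c : ℕ → ℝ → ℝ → ℂ} {r : ℝ} {B : ℝ≥0∞}
    (h : ∀ (L : ℕ) (N : ℕ → ℝ), Monotone N → (∑ j ∈ Finset.range L,
      (∑ i ∈ Finset.range K, ‖c i (N (j + 1)) r - c i (N j) r‖ₑ ^ 2) ^ (q / 2)) ^
        (1 / (q / 2)) ≤ B) : WV q K c r ^ 2 ≤ B := by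
  have hle : WV q K c r ≤ B ^ (1 / 2 : ℝ) := by
    unfold WV
    refine iSup_le fun L => iSup_le fun N => iSup_le fun hN => ?_
    have h1 := h L N hN
    rw [← sq_rpow] at h1
    have h2 := ENNReal.rpow_le_rpow h1 (by norm_num : (0 : ℝ) ≤ 1 / 2)
    rw [← ENNReal.rpow_natCast, ← ENNReal.rpow_mul] at h2
    norm_num at h2
    norm_num
    exact h2
  calc WV q K c r ^ 2 ≤ (B ^ (1 / 2 : ℝ)) ^ 2 := by gcongr
    _ = B := by
        rw [← ENNReal.rpow_natCast, ← ENNReal.rpow_mul]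
        norm_num

theorem WV_le {q : ℝ} (hq : 2 < q) (K : ℕ) (c : ℕ → ℝ → ℝ → ℂ) (r : ℝ) :
    WV q K c r ^ 2 ≤ ∑ i ∈ Finset.range K, WV q 1 (fun _ => c i) r ^ 2 := by
  refine WV_sq_le fun L N hN => ?_
  refine (mink (by linarith) L (fun i j => ‖c i (N (j + 1)) r - c i (N j) r‖ₑ ^ 2) K).trans ?_
  refine Finset.sum_le_sum fun i _ => ?_
  have h1 := WV_term (q := q) 1 (fun _ => c i) r L N hN
  simp only [Finset.range_one, Finset.sum_singleton] at h1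
  calc (∑ j ∈ Finset.range L, (‖c i (N (j + 1)) r - c i (N j) r‖ₑ ^ 2) ^ (q / 2)) ^
        (1 / (q / 2))
      = ((∑ j ∈ Finset.range L, (‖c i (N (j + 1)) r - c i (N j) r‖ₑ ^ 2) ^ (q / 2)) ^
        (1 / q)) ^ 2 := (sq_rpow _).symm
    _ ≤ _ := by gcongr

theorem WV_meas (q : ℝ) (K : ℕ) {c : ℕ → ℝ → ℝ → ℂ}
    (hc : ∀ i, Continuous (fun z : ℝ × ℝ => c i z.1 z.2)) : Measurable (WV q K c) := by
  have h1 : ∀ (i : ℕ) (R : ℝ), Continuous fun r : ℝ => c i R r := fun i R =>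
    (hc i).comp (Continuous.prodMk_right R)
  have h2 : LowerSemicontinuous (WV q K c) := by
    unfold WV
    refine lowerSemicontinuous_iSup fun L => lowerSemicontinuous_iSup fun N =>
      lowerSemicontinuous_iSup fun _ => Continuous.lowerSemicontinuous ?_
    refine ENNReal.continuous_rpow_const.comp (continuous_finsetSum _ fun j _ => ?_)
    refine ENNReal.continuous_rpow_const.comp (continuous_finsetSum _ fun i _ => ?_)
    exact (ENNReal.continuous_pow 2).comp (continuous_enorm.comp ((h1 i _).sub (h1 i _)))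
  exact h2.measurable

/-! ### norms -/

variable {n : ℕ}

theorem norm_one [IsFiniteMeasure (sg n)] {Y : E n → ℂ} (hY : Continuous Y)
    (h : ∫ θ, Y (θ : E n) * conj (Y (θ : E n)) ∂(sg n) = 1) :
    ∫⁻ θ, ‖Y (θ : E n)‖ₑ ^ 2 ∂(sg n) = 1 := by
  have hc : Continuous fun θ : Metric.sphere (0 : E n) 1 => Y θ * conj (Y θ) := by
    have h1 : Continuous fun θ : Metric.sphere (0 : E n) 1 => Y θ :=
      hY.comp continuous_subtype_val
    exact h1.mul (Complex.continuous_conj.comp h1)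
  have hi := Pool.Agent.CRN.BESN_.integ hc
  have e1 : ∀ θ : Metric.sphere (0 : E n) 1, Y θ * conj (Y θ) =
      ((‖Y θ * conj (Y θ)‖ : ℝ) : ℂ) := by
    intro θ
    rw [norm_mul, RCLike.norm_conj, Complex.mul_conj']
    push_cast
    ring
  have e2 : ∫ θ, ‖Y (θ : E n) * conj (Y (θ : E n))‖ ∂(sg n) = 1 := by
    have h2 : ((∫ θ, ‖Y (θ : E n) * conj (Y (θ : E n))‖ ∂(sg n) : ℝ) : ℂ) = 1 := by
      have e := integral_ofReal (𝕜 := ℂ) (μ := sg n)
        (f := fun θ : Metric.sphere (0 : E n) 1 => ‖Y (θ : E n) * conj (Y (θ : E n))‖)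
      refine e.symm.trans (Eq.trans ?_ h)
      refine integral_congr_ae (ae_of_all _ fun θ => ?_)
      exact (e1 θ).symm
    exact_mod_cast h2
  have e3 := ofReal_integral_norm_eq_lintegral_enorm hi
  rw [e2, ENNReal.ofReal_one] at e3
  rw [e3]
  refine lintegral_congr fun θ => ?_
  rw [enorm_mul, sq]
  congr 1
  rw [← ofReal_norm, ← ofReal_norm, RCLike.norm_conj]

theorem rh_meas {a : ℝ → ℂ} {Y : E n → ℂ} (ha : Measurable a) (hY : Continuous Y) :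
    Measurable (rh a Y) := by
  unfold rh
  exact (ha.comp measurable_norm).mul
    (hY.measurable.comp (measurable_norm.inv.smul measurable_id))

theorem rh_sq (hn : 1 ≤ n) {a : ℝ → ℂ} {Y : E n → ℂ} (ha : Measurable a) (hY : Continuous Y)
    (h : ∫⁻ θ, ‖Y (θ : E n)‖ₑ ^ 2 ∂(sg n) = 1) :
    ∫⁻ ξ, ‖rh a Y ξ‖ₑ ^ 2 = nn n a := by
  have hP := (p_POLN n (by omega)).1 (fun ξ => ‖rh a Y ξ‖ₑ ^ 2)
    ((rh_meas ha hY).enorm.pow_const 2)
  rw [hP]
  unfold nn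
  refine setLIntegral_congr_fun measurableSet_Ioi fun r hr => ?_
  have hr0 : (0 : ℝ) < r := hr
  have e1 : ∀ ω : Metric.sphere (0 : E n) 1, ENNReal.ofReal (r ^ (n - 1)) *
      ‖rh a Y (r • (ω : E n))‖ₑ ^ 2 =
      (‖a r‖ₑ ^ 2 * ENNReal.ofReal (r ^ (n - 1))) * ‖Y ω‖ₑ ^ 2 := by
    intro ω
    have h1 : ‖r • (ω : E n)‖ = r := by
      rw [norm_smul, Real.norm_of_nonneg hr0.le, mem_sphere_zero_iff_norm.1 ω.2, mul_one]
    unfold rh
    rw [h1, smul_smul, inv_mul_cancel₀ hr0.ne', one_smul, enorm_mul, mul_pow]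
    ring
  simp only [e1]
  have hm : Measurable fun ω : Metric.sphere (0 : E n) 1 => ‖Y (ω : E n)‖ₑ ^ 2 :=
    (hY.comp continuous_subtype_val).measurable.enorm.pow_const 2
  rw [lintegral_const_mul _ hm, h, mul_one]

theorem rh_L2 (hn : 1 ≤ n) {a : ℝ → ℂ} {Y : E n → ℂ} (ha : Measurable a) (hY : Continuous Y)
    (h : ∫⁻ θ, ‖Y (θ : E n)‖ₑ ^ 2 ∂(sg n) = 1) (hf : nn n a ≠ ⊤) : MemLp (rh a Y) 2 := by
  refine ⟨(rh_meas ha hY).aestronglyMeasurable, ?_⟩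
  rw [eLpNorm_lt_top_iff_lintegral_rpow_enorm_lt_top (by norm_num) (by norm_num)]
  simp only [ENNReal.toReal_ofNat, ENNReal.rpow_ofNat]
  rw [rh_sq hn ha hY h]
  exact lt_top_iff_ne_top.2 hf

theorem BN_sum {K : ℕ} {a : ℕ → ℝ → ℂ} {Y : ℕ → E n → ℂ}
    (h : ∀ i < K, MemLp (rh (a i) (Y i)) 2) (R : ℝ) (x : E n) :
    BN (fs K a Y) R x = ∑ i ∈ Finset.range K, BN (rh (a i) (Y i)) R x := by
  have hi : ∀ i ∈ Finset.range K, IntegrableOn (fun ξ : E n => rh (a i) (Y i) ξ * ex x ξ)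
      (Metric.closedBall (0 : E n) R) := by
    intro i hi
    exact Integrable.mul_bdd (c := 1)
      (Pool.Agent.CRF.RMG_.ball_int (h i (Finset.mem_range.1 hi)) R)
      (Pool.Agent.CRF.RMG_.ex_c x).aestronglyMeasurable
      (ae_of_all _ fun ξ => (Pool.Agent.CRF.RMG_.ex_norm x ξ).le)
  unfold BN fs
  rw [← integral_finsetSum _ hi]
  refine integral_congr_ae (ae_of_all _ fun ξ => ?_)
  simp only
  rw [Finset.sum_mul]

end VEC_

open VEC_ in
theorem p_VEC (h1 : T_HCO) : T_VEC := by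
  intro n hn
  obtain ⟨C, hC⟩ := h1 n hn
  refine ⟨C, fun K l Y a hS ha hfin => ?_⟩
  have hfm : IsFiniteMeasure (sg n) := (p_POLN n (by omega)).2.2
  have hYc : ∀ i < K, Continuous (Y i) := fun i hi => (hS.har i hi).c2.continuous
  have hY1 : ∀ i < K, ∫⁻ θ, ‖Y i (θ : E n)‖ₑ ^ 2 ∂(sg n) = 1 := by
    intro i hi
    refine norm_one (hYc i hi) ?_
    have := hS.ort i hi i hi
    rwa [if_pos rfl] at this
  have key : ∀ i, ∃ c : ℝ → ℝ → ℂ, Continuous (fun z : ℝ × ℝ => c z.1 z.2) ∧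
      (∀ R r, R ≤ 0 → c R r = 0) ∧
      (i < K → (∀ (R r : ℝ) (θ : E n), 0 < r → ‖θ‖ = 1 →
        BN (rh (a i) (Y i)) R (r • θ) = c R r * Y i θ) ∧
        ∀ q : ℝ, 2 < q → q ≤ 4 →
          ∫⁻ r in Ioi (0 : ℝ), WV q 1 (fun _ => c) r ^ 2 * ENNReal.ofReal (r ^ (n - 1)) ≤
            C * ENNReal.ofReal (kr q ^ 14) * nn n (a i)) := by
    intro i
    by_cases hi : i < K
    · obtain ⟨c, hc1, hc2, hc3, hc4⟩ := hC (l i) (Y i) (a i) (hS.har i hi) (hY1 i hi) (ha i)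
        (hfin i)
      exact ⟨c, hc1, hc2, fun _ => ⟨hc3, hc4⟩⟩
    · exact ⟨fun _ _ => 0, continuous_const, fun _ _ _ => rfl, fun h => absurd h hi⟩
  choose c hc using key
  refine ⟨c, fun i => (hc i).1, fun i R r h => (hc i).2.1 R r h, ?_, ?_⟩
  · intro R r θ hr hθ
    rw [BN_sum (fun i hi => rh_L2 (by omega) (ha i) (hYc i hi) (hY1 i hi) (hfin i))]
    refine Finset.sum_congr rfl fun i hi => ?_
    exact ((hc i).2.2 (Finset.mem_range.1 hi)).1 R r θ hr hθ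
  · intro q hq2 hq4
    have hm : ∀ i, Measurable fun r : ℝ =>
        WV q 1 (fun _ => c i) r ^ 2 * ENNReal.ofReal (r ^ (n - 1)) := by
      intro i
      exact ((WV_meas q 1 fun _ => (hc i).1).pow_const 2).mul
        ((measurable_id.pow_const (n - 1)).ennreal_ofReal)
    calc ∫⁻ r in Ioi (0 : ℝ), WV q K c r ^ 2 * ENNReal.ofReal (r ^ (n - 1))
        ≤ ∫⁻ r in Ioi (0 : ℝ), ∑ i ∈ Finset.range K,
            WV q 1 (fun _ => c i) r ^ 2 * ENNReal.ofReal (r ^ (n - 1)) := by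
          refine lintegral_mono fun r => ?_
          rw [← Finset.sum_mul]
          exact mul_le_mul_left (WV_le hq2 K c r) _
      _ = ∑ i ∈ Finset.range K, ∫⁻ r in Ioi (0 : ℝ),
            WV q 1 (fun _ => c i) r ^ 2 * ENNReal.ofReal (r ^ (n - 1)) :=
          lintegral_finsetSum _ fun i _ => hm i
      _ ≤ ∑ i ∈ Finset.range K, C * ENNReal.ofReal (kr q ^ 14) * nn n (a i) :=
          Finset.sum_le_sum fun i hi => ((hc i).2.2 (Finset.mem_range.1 hi)).2 q hq2 hq4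
      _ = _ := by rw [Finset.mul_sum]

end Pool.Agent.VRR
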