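import Pool.Agent.VRR.Targets4
import Pool.Agent.VRR.P_LPN
import Pool.Agent.VRR.P_VEC

set_option autoImplicit false

/-!
# VRR, OPN: the maximal inequality for systems with a logarithmic gain over `L²`

Chaining on the sphere (OCH) and the `q`-variation of the coefficients (VEC), `q = qm m`.
-/

namespace Pool.Agent.VRR

open MeasureTheory FourierTransform Set Filter Topology
open scoped ENNReal NNReal ComplexConjugate
open Pool.Agent.MBS (E ex)
open Pool.Agent.CRN (sg T_POLN)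

namespace OPN_

open LPN_

theorem qm_gt (m : ℕ) : 2 < qm m := by
  unfold qm
  have : (0 : ℝ) < 1 / ((m : ℝ) + 1) := by positivity
  linarith

theorem qm_le (m : ℕ) : qm m ≤ 4 := by
  unfold qm
  have : (1 : ℝ) / ((m : ℝ) + 1) ≤ 1 := by
    rw [div_le_one (by positivity)]
    have : (0 : ℝ) ≤ m := by positivity
    linarith
  linarith

theorem kr_qm (m : ℕ) : kr (qm m) = 2 * m + 3 := by
  unfold kr qm
  have : ((m : ℝ) + 1) ≠ 0 := by positivity
  rw [add_sub_cancel_left]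
  field_simp
  ring

/-- the sum of the weights -/
noncomputable def Zs : ℝ≥0∞ :=
  ∑' m : ℕ, ENNReal.ofReal (1 / ((m : ℝ) + 1) ^ 16) * ENNReal.ofReal (kr (qm m) ^ 14)

theorem Zs_ne : Zs ≠ ⊤ := by
  have h1 : ∀ m : ℕ, ENNReal.ofReal (1 / ((m : ℝ) + 1) ^ 16) * ENNReal.ofReal (kr (qm m) ^ 14) ≤
      ENNReal.ofReal (3 ^ 14 * (1 / ((m : ℝ) + 1) ^ 2)) := by
    intro m
    rw [← ENNReal.ofReal_mul (by positivity)]
    refine ENNReal.ofReal_le_ofReal ?_
    rw [kr_qm]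
    have h2 : (2 * (m : ℝ) + 3) ^ 14 ≤ (3 * ((m : ℝ) + 1)) ^ 14 := by
      refine pow_le_pow_left₀ (by positivity) ?_ 14
      have : (0 : ℝ) ≤ m := by positivity
      linarith
    calc 1 / ((m : ℝ) + 1) ^ 16 * (2 * (m : ℝ) + 3) ^ 14
        ≤ 1 / ((m : ℝ) + 1) ^ 16 * (3 * ((m : ℝ) + 1)) ^ 14 :=
          mul_le_mul_of_nonneg_left h2 (by positivity)
      _ = 3 ^ 14 * (1 / ((m : ℝ) + 1) ^ 2) := by
          have : ((m : ℝ) + 1) ≠ 0 := by positivity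
          field_simp
  have h2 : Summable fun m : ℕ => (3 : ℝ) ^ 14 * (1 / ((m : ℝ) + 1) ^ 2) := by
    refine Summable.mul_left _ ?_
    have h3 := (summable_nat_add_iff 1).2 (Real.summable_one_div_nat_pow.2 (by norm_num : 1 < 2))
    refine h3.congr fun m => ?_
    push_cast
    rfl
  exact ne_top_of_le_ne_top h2.tsum_ofReal_ne_top (ENNReal.tsum_le_tsum h1)

/-- the hypothesis on the level sets, scaled -/
theorem ui {n K : ℕ} (hfin : IsFiniteMeasure (sg n)) {l : ℕ → ℕ} {Y : ℕ → E n → ℂ}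
    (hY : Sys n K l Y) {B : ℝ≥0} (hU : UIN n K Y B) (b : ℕ → ℂ) {d t : ℝ} (hd : 0 < d)
    (ht : 0 < t)
    (h : ∫⁻ θ, ‖∑ i ∈ Finset.range K, b i * Y i (θ : E n)‖ₑ ^ 2 ∂(sg n) ≤
      ENNReal.ofReal (d ^ 2)) :
    ∫⁻ θ in {θ : Metric.sphere (0 : E n) 1 |
        t * d < ‖∑ i ∈ Finset.range K, b i * Y i (θ : E n)‖},
      ‖∑ i ∈ Finset.range K, b i * Y i (θ : E n)‖ₑ ^ 2 ∂(sg n) ≤
      B * ENNReal.ofReal (1 / Real.log (2 + t) ^ 18) * ENNReal.ofReal (d ^ 2) := by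
  rw [orth hY hfin] at h
  have hd0 : (d : ℂ) ≠ 0 := by exact_mod_cast hd.ne'
  have h1 : ∑ i ∈ Finset.range K, ‖b i / (d : ℂ)‖ ^ 2 ≤ 1 := by
    have h2 : ∑ i ∈ Finset.range K, ‖b i‖ ^ 2 ≤ d ^ 2 := by
      have e : ∑ i ∈ Finset.range K, ‖b i‖ₑ ^ 2 =
          ENNReal.ofReal (∑ i ∈ Finset.range K, ‖b i‖ ^ 2) := by
        rw [ENNReal.ofReal_sum_of_nonneg fun i _ => by positivity]
        simp only [ENNReal.ofReal_pow (norm_nonneg _), ofReal_norm]
      rw [e] at h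
      exact (ENNReal.ofReal_le_ofReal_iff (by positivity)).1 h
    calc ∑ i ∈ Finset.range K, ‖b i / (d : ℂ)‖ ^ 2
        = (∑ i ∈ Finset.range K, ‖b i‖ ^ 2) / d ^ 2 := by
          rw [Finset.sum_div]
          refine Finset.sum_congr rfl fun i _ => ?_
          rw [norm_div, div_pow, Complex.norm_real, Real.norm_eq_abs, abs_of_pos hd]
      _ ≤ 1 := by
          rw [div_le_one (by positivity)]
          exact h2
  have h3 := hU (fun i => b i / (d : ℂ)) t ht h1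
  have e1 : ∀ θ : Metric.sphere (0 : E n) 1,
      ∑ i ∈ Finset.range K, b i / (d : ℂ) * Y i (θ : E n) =
        (∑ i ∈ Finset.range K, b i * Y i (θ : E n)) / (d : ℂ) := by
    intro θ
    rw [Finset.sum_div]
    exact Finset.sum_congr rfl fun i _ => by ring
  simp only [e1] at h3
  have e2 : {θ : Metric.sphere (0 : E n) 1 |
      t < ‖(∑ i ∈ Finset.range K, b i * Y i (θ : E n)) / (d : ℂ)‖} =
      {θ : Metric.sphere (0 : E n) 1 |
        t * d < ‖∑ i ∈ Finset.range K, b i * Y i (θ : E n)‖} := by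
    ext θ
    simp only [mem_setOf_eq, norm_div, Complex.norm_real, Real.norm_eq_abs, abs_of_pos hd]
    exact lt_div_iff₀ hd
  rw [e2] at h3
  have e3 : ∀ z : ℂ, ‖z‖ₑ ^ 2 = ENNReal.ofReal (d ^ 2) * ‖z / (d : ℂ)‖ₑ ^ 2 := by
    intro z
    have e4 : z = (d : ℂ) * (z / (d : ℂ)) := by field_simp
    have e5 : ‖(d : ℂ)‖ₑ = ENNReal.ofReal d := by
      rw [← ofReal_norm, Complex.norm_real, Real.norm_eq_abs, abs_of_pos hd]
    conv_lhs => rw [e4]
    rw [enorm_mul, mul_pow, ENNReal.ofReal_pow hd.le, e5]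
  calc _ = ∫⁻ θ in {θ : Metric.sphere (0 : E n) 1 |
        t * d < ‖∑ i ∈ Finset.range K, b i * Y i (θ : E n)‖}, ENNReal.ofReal (d ^ 2) *
        ‖(∑ i ∈ Finset.range K, b i * Y i (θ : E n)) / (d : ℂ)‖ₑ ^ 2 ∂(sg n) := by
        refine lintegral_congr fun θ => ?_
        exact e3 _
    _ = ENNReal.ofReal (d ^ 2) * ∫⁻ θ in {θ : Metric.sphere (0 : E n) 1 |
        t * d < ‖∑ i ∈ Finset.range K, b i * Y i (θ : E n)‖},
        ‖(∑ i ∈ Finset.range K, b i * Y i (θ : E n)) / (d : ℂ)‖ₑ ^ 2 ∂(sg n) :=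
        lintegral_const_mul' _ _ ENNReal.ofReal_ne_top
    _ ≤ ENNReal.ofReal (d ^ 2) * (B * ENNReal.ofReal (1 / Real.log (2 + t) ^ 18)) :=
        mul_le_mul' le_rfl h3
    _ = _ := by ring

/-- the body of `T_OCH` -/
def OCB (C : ℝ≥0) : Prop := ∀ (Ω : Type) [MeasurableSpace Ω] (μ : Measure Ω) (M : ℕ)
  (X : ℕ → Ω → ℂ) (B : ℝ≥0∞) (V : ℕ → ℝ≥0∞), (∀ j, Measurable (X j)) → (∀ ω, X 0 ω = 0) →
  μ univ ≠ ⊤ → B ≠ ⊤ →
  (∀ (j k : ℕ) (d t : ℝ), j ≤ M → k ≤ M → 0 < d → 0 < t →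
    ∫⁻ ω, ‖X j ω - X k ω‖ₑ ^ 2 ∂μ ≤ ENNReal.ofReal (d ^ 2) →
      ∫⁻ ω in {ω | t * d < ‖X j ω - X k ω‖}, ‖X j ω - X k ω‖ₑ ^ 2 ∂μ ≤
        B * ENNReal.ofReal (1 / Real.log (2 + t) ^ 18) * ENNReal.ofReal (d ^ 2)) →
  (∀ (m l : ℕ) (t : ℕ → ℕ), Monotone t → (∀ r, t r ≤ M) →
    ∑ r ∈ Finset.range l, (∫⁻ ω, ‖X (t (r + 1)) ω - X (t r) ω‖ₑ ^ 2 ∂μ) ^ (qm m / 2) ≤
      V m ^ qm m) →
    ∫⁻ ω, (⨆ (j : ℕ) (_ : j ≤ M), ‖X j ω‖ₑ) ^ 2 ∂μ ≤
      C * (1 + μ univ + B) * ∑' m : ℕ, ENNReal.ofReal (1 / ((m : ℝ) + 1) ^ 16) * V m ^ 2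

/-- the weighted sum of the variations -/
noncomputable def TW (K : ℕ) (c : ℕ → ℝ → ℝ → ℂ) (r : ℝ) : ℝ≥0∞ :=
  ∑' m : ℕ, ENNReal.ofReal (1 / ((m : ℝ) + 1) ^ 16) * WV (qm m) K c r ^ 2

/-- one grid -/
theorem grid {n K : ℕ} (hfin : IsFiniteMeasure (sg n)) {C : ℝ≥0} (hC : OCB C)
    {l : ℕ → ℕ} {Y : ℕ → E n → ℂ} (hY : Sys n K l Y) {B : ℝ≥0} (hU : UIN n K Y B)
    {c : ℕ → ℝ → ℝ → ℂ} (h0 : ∀ i R r, R ≤ 0 → c i R r = 0) (r : ℝ) (m : ℕ) :
    ∫⁻ θ, gg (fun R => ∑ i ∈ Finset.range K, c i R r * Y i (θ : E n)) m ^ 2 ∂(sg n) ≤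
      C * (1 + sg n univ + B) * TW K c r := by
  refine hC (Metric.sphere (0 : E n) 1) (sg n) (4 ^ m)
    (fun j θ => ∑ i ∈ Finset.range K, c i ((j : ℝ) / 2 ^ m) r * Y i (θ : E n)) B
    (fun k => WV (qm k) K c r)
    (fun j => Finset.measurable_fun_sum _ fun i hi => measurable_const.mul
      ((hY.har i (Finset.mem_range.1 hi)).c2.continuous.comp continuous_subtype_val).measurable)
    (fun θ => by
      refine Finset.sum_eq_zero fun i _ => ?_
      rw [Nat.cast_zero, zero_div, h0 i 0 r le_rfl, zero_mul])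
    (measure_ne_top _ _) ENNReal.coe_ne_top ?_ ?_
  · intro j k d t _ _ hd ht h
    simp only [diff] at h ⊢
    exact ui hfin hY hU _ hd ht h
  · intro k l t ht _
    simp only [diff, orth hY hfin]
    refine WV_ge (qm_gt k) K c r l (fun i => ((t i : ℕ) : ℝ) / 2 ^ m) fun i j hij => ?_
    have := ht hij
    have h2 : ((t i : ℕ) : ℝ) ≤ ((t j : ℕ) : ℝ) := by exact_mod_cast this
    exact div_le_div_of_nonneg_right h2 (by positivity)

/-- the sphere of radius `r` -/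
theorem circ {n K : ℕ} (hfin : IsFiniteMeasure (sg n)) {C : ℝ≥0} (hC : OCB C)
    {l : ℕ → ℕ} {Y : ℕ → E n → ℂ} (hY : Sys n K l Y) {B : ℝ≥0} (hU : UIN n K Y B)
    {c : ℕ → ℝ → ℝ → ℂ} (h0 : ∀ i R r, R ≤ 0 → c i R r = 0) (r : ℝ) :
    ∫⁻ θ, (⨆ m, gg (fun R => ∑ i ∈ Finset.range K, c i R r * Y i (θ : E n)) m) ^ 2 ∂(sg n) ≤
      C * (1 + sg n univ + B) * TW K c r := by
  have hgm : ∀ m, Measurable fun θ : Metric.sphere (0 : E n) 1 =>
      gg (fun R => ∑ i ∈ Finset.range K, c i R r * Y i (θ : E n)) m := by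
    intro m
    unfold gg
    refine Measurable.iSup fun j => Measurable.iSup fun _ => Measurable.enorm ?_
    exact Finset.measurable_fun_sum _ fun i hi => measurable_const.mul
      ((hY.har i (Finset.mem_range.1 hi)).c2.continuous.comp continuous_subtype_val).measurable
  have e : ∀ θ : Metric.sphere (0 : E n) 1,
      (⨆ m, gg (fun R => ∑ i ∈ Finset.range K, c i R r * Y i (θ : E n)) m) ^ 2 =
      ⨆ m, gg (fun R => ∑ i ∈ Finset.range K, c i R r * Y i (θ : E n)) m ^ 2 := by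
    intro θ
    have h := (ENNReal.orderIsoRpow 2 two_pos).map_iSup fun m =>
      gg (fun R => ∑ i ∈ Finset.range K, c i R r * Y i (θ : E n)) m
    simpa only [ENNReal.orderIsoRpow_apply, ENNReal.rpow_two] using h
  simp only [e]
  rw [lintegral_iSup (f := fun m (θ : Metric.sphere (0 : E n) 1) =>
      gg (fun R => ∑ i ∈ Finset.range K, c i R r * Y i (θ : E n)) m ^ 2)
    (fun m => (hgm m).pow_const 2)
    (fun a b hab θ => pow_le_pow_left' (gg_mono _ hab) 2)]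
  exact iSup_le fun m => grid hfin hC hY hU h0 r m

end OPN_

open LPN_ OPN_ in
/-- **OPN** -/
theorem p_OPN (h1 : T_VEC) (h2 : T_OCH) (h3 : Pool.Agent.CRN.T_POLN) : T_OPN := by
  intro n hn
  obtain ⟨C, -, hC⟩ := h2
  obtain ⟨D, hD⟩ := h1 n hn
  obtain ⟨hpol, -, hfin⟩ := h3 n (by omega)
  have hs : sg n univ ≠ ⊤ := measure_ne_top _ _
  refine ⟨C * (1 + (sg n univ).toNNReal) * D * Zs.toNNReal,
    fun B K l Y a hY hU hm hnn => ?_⟩
  obtain ⟨c, hc, h0, hBN, hWV⟩ := hD K l Y a hY hm hnn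
  set A : ℝ≥0∞ := C * (1 + sg n univ + B) with hAd
  have hA : A ≠ ⊤ :=
    ENNReal.mul_ne_top ENNReal.coe_ne_top
      (ENNReal.add_ne_top.2 ⟨ENNReal.add_ne_top.2 ⟨ENNReal.one_ne_top, hs⟩, ENNReal.coe_ne_top⟩)
  have hAB : A ≤ C * ((1 + sg n univ) * (1 + B)) := by
    rw [hAd]
    refine mul_le_mul' le_rfl ?_
    calc 1 + sg n univ + (B : ℝ≥0∞) ≤ 1 + sg n univ + B + sg n univ * B := le_self_add
      _ = (1 + sg n univ) * (1 + B) := by ring
  -- the supremum in polar coordinates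
  have hGc : ∀ x : E n, Continuous (GP K c Y x) := fun x => by
    unfold GP
    exact continuous_finsetSum _ fun i _ =>
      ((hc i).comp (continuous_id.prodMk continuous_const)).mul continuous_const
  have hG0 : ∀ (x : E n) (R : ℝ), R ≤ 0 → GP K c Y x R = 0 := fun x R hR => by
    unfold GP
    exact Finset.sum_eq_zero fun i _ => by rw [h0 i R _ hR, zero_mul]
  have hne : ∀ x : E n, x ≠ 0 → (⨆ (R : ℝ) (_ : 0 < R), ‖BN (fs K a Y) R x‖ₑ) =
      ⨆ m, gg (GP K c Y x) m := by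
    intro x hx
    have hx0 : 0 < ‖x‖ := norm_pos_iff.2 hx
    have e1 : ‖(‖x‖⁻¹ • x)‖ = 1 := by
      rw [norm_smul, norm_inv, norm_norm, inv_mul_cancel₀ hx0.ne']
    have e2 : ∀ R, BN (fs K a Y) R x = GP K c Y x R := by
      intro R
      have h := hBN R ‖x‖ (‖x‖⁻¹ • x) hx0 e1
      rw [smul_inv_smul₀ hx0.ne'] at h
      rw [h]
      rfl
    simp only [e2]
    exact gg_eq (hGc x) (hG0 x)
  have hae : ∀ᵐ x : E n, (⨆ (R : ℝ) (_ : 0 < R), ‖BN (fs K a Y) R x‖ₑ) ^ 2 =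
      (⨆ m, gg (GP K c Y x) m) ^ 2 := by
    have hnt : Nontrivial (E n) := by
      have : Nonempty (Fin n) := ⟨⟨0, by omega⟩⟩
      infer_instance
    have h4 : ∀ᵐ x : E n, x ≠ 0 := by
      rw [ae_iff]
      simp only [not_not]
      exact measure_singleton 0
    filter_upwards [h4] with x hx
    rw [hne x hx]
  have hgm : Measurable fun x : E n => ⨆ m, gg (GP K c Y x) m := by
    refine Measurable.iSup fun m => ?_
    unfold gg
    exact Measurable.iSup fun j => Measurable.iSup fun _ => (GP_meas hY hc _).enorm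
  rw [lintegral_congr_ae hae, hpol (fun x => (⨆ m, gg (GP K c Y x) m) ^ 2) (hgm.pow_const 2)]
  calc ∫⁻ r in Ioi (0 : ℝ), ∫⁻ ω, ENNReal.ofReal (r ^ (n - 1)) *
        (⨆ m, gg (GP K c Y (r • (ω : E n))) m) ^ 2 ∂(sg n)
      ≤ ∫⁻ r in Ioi (0 : ℝ), A * ∑' m : ℕ, ENNReal.ofReal (1 / ((m : ℝ) + 1) ^ 16) *
          (WV (qm m) K c r ^ 2 * ENNReal.ofReal (r ^ (n - 1))) := by
        refine setLIntegral_mono' measurableSet_Ioi fun r hr => ?_
        rw [lintegral_const_mul' _ _ ENNReal.ofReal_ne_top]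
        have e5 : ∀ ω : Metric.sphere (0 : E n) 1, GP K c Y (r • (ω : E n)) =
            fun R => ∑ i ∈ Finset.range K, c i R r * Y i (ω : E n) := fun ω =>
          funext fun R => GP_smul c Y hr _ (by simp) R
        simp only [e5]
        calc _ ≤ ENNReal.ofReal (r ^ (n - 1)) * (A * TW K c r) :=
              mul_le_mul' le_rfl (circ hfin hC hY hU h0 r)
          _ = A * (TW K c r * ENNReal.ofReal (r ^ (n - 1))) := by ring
          _ = _ := by
              unfold TW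
              rw [← ENNReal.tsum_mul_right]
              simp only [mul_assoc]
    _ = A * ∫⁻ r in Ioi (0 : ℝ), ∑' m : ℕ, ENNReal.ofReal (1 / ((m : ℝ) + 1) ^ 16) *
          (WV (qm m) K c r ^ 2 * ENNReal.ofReal (r ^ (n - 1))) :=
        lintegral_const_mul' _ _ hA
    _ = A * ∑' m : ℕ, ENNReal.ofReal (1 / ((m : ℝ) + 1) ^ 16) *
          ∫⁻ r in Ioi (0 : ℝ), WV (qm m) K c r ^ 2 * ENNReal.ofReal (r ^ (n - 1)) := by
        rw [lintegral_tsum fun m => ?_]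
        · simp only [lintegral_const_mul' _ _ ENNReal.ofReal_ne_top]
        · refine Measurable.aemeasurable ?_
          exact measurable_const.mul (((VEC_.WV_meas _ K hc).pow_const 2).mul
            (measurable_id.pow_const (n - 1)).ennreal_ofReal)
    _ ≤ A * ∑' m : ℕ, ENNReal.ofReal (1 / ((m : ℝ) + 1) ^ 16) *
          (D * ENNReal.ofReal (kr (qm m) ^ 14) * ∑ i ∈ Finset.range K, nn n (a i)) := by
        refine mul_le_mul' le_rfl (ENNReal.tsum_le_tsum fun m => ?_)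
        exact mul_le_mul' le_rfl (hWV (qm m) (qm_gt m) (qm_le m))
    _ = A * (Zs * (D * ∑ i ∈ Finset.range K, nn n (a i))) := by
        congr 1
        unfold Zs
        rw [← ENNReal.tsum_mul_right]
        refine tsum_congr fun m => ?_
        ring
    _ ≤ C * ((1 + sg n univ) * (1 + B)) * (Zs * (D * ∑ i ∈ Finset.range K, nn n (a i))) :=
        mul_le_mul' hAB le_rfl
    _ = _ := by
        push_cast
        rw [ENNReal.coe_toNNReal hs, ENNReal.coe_toNNReal Zs_ne]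
        ring

end Pool.Agent.VRR
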