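import Pool.Agent.VRR.Targets3

set_option autoImplicit false

/-!
# VRR: SYF, the final theorem for systems of spherical harmonics
-/

namespace Pool.Agent.VRR

open MeasureTheory FourierTransform Set Filter Topology
open scoped ENNReal NNReal ComplexConjugate
open Pool.Agent.MBS (E ex)
open Pool.Agent.CRN (sg)

namespace SYF_

/-- the coefficients beyond the radius `ρ` -/
noncomputable def cut (ρ : ℝ) (a : ℕ → ℝ → ℂ) (i : ℕ) : ℝ → ℂ := (Ioi ρ).indicator (a i)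

lemma cut_meas {ρ : ℝ} {a : ℕ → ℝ → ℂ} (ha : ∀ i, Measurable (a i)) (i : ℕ) :
    Measurable (cut ρ a i) := (ha i).indicator measurableSet_Ioi

lemma cut_nn {n : ℕ} {ρ : ℝ} {a : ℕ → ℝ → ℂ} (ha : ∀ i, nn n (a i) ≠ ⊤) (i : ℕ) :
    nn n (cut ρ a i) ≠ ⊤ := by
  refine ne_top_of_le_ne_top (ha i) ?_
  unfold nn
  refine lintegral_mono fun s => ?_
  gcongr
  unfold cut
  by_cases h : s ∈ Ioi ρ
  · rw [Set.indicator_of_mem h]
  · rw [Set.indicator_of_notMem h, enorm_zero]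
    exact zero_le

lemma far_meas {n : ℕ} (ρ : ℝ) : MeasurableSet {ξ : E n | ρ < ‖ξ‖} :=
  measurableSet_lt measurable_const measurable_norm

lemma fs_cut {n : ℕ} (K : ℕ) (ρ : ℝ) (a : ℕ → ℝ → ℂ) (Y : ℕ → E n → ℂ) (ξ : E n) :
    fs K (cut ρ a) Y ξ = {ξ : E n | ρ < ‖ξ‖}.indicator (fs K a Y) ξ := by
  by_cases h : ρ < ‖ξ‖
  · rw [Set.indicator_of_mem (s := {ξ : E n | ρ < ‖ξ‖}) h]
    unfold fs rh cut
    refine Finset.sum_congr rfl fun i _ => ?_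
    rw [Set.indicator_of_mem (s := Ioi ρ) h]
  · rw [Set.indicator_of_notMem (s := {ξ : E n | ρ < ‖ξ‖}) h]
    unfold fs rh cut
    refine Finset.sum_eq_zero fun i _ => ?_
    rw [Set.indicator_of_notMem (s := Ioi ρ) h, zero_mul]

lemma far_norm {n : ℕ} (ρ : ℝ) (g : E n → ℂ) :
    ∫⁻ ξ, ‖{ξ : E n | ρ < ‖ξ‖}.indicator g ξ‖ₑ ^ 2 = ∫⁻ ξ in {ξ : E n | ρ < ‖ξ‖}, ‖g ξ‖ₑ ^ 2 := by
  rw [← lintegral_indicator (far_meas ρ)]
  refine lintegral_congr fun ξ => ?_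
  by_cases h : ξ ∈ {ξ : E n | ρ < ‖ξ‖}
  · rw [Set.indicator_of_mem h, Set.indicator_of_mem h]
  · rw [Set.indicator_of_notMem h, Set.indicator_of_notMem h, enorm_zero]
    simp

lemma far_le {n : ℕ} (ρ : ℝ) (g : E n → ℂ) :
    ∫⁻ ξ in {ξ : E n | ρ < ‖ξ‖}, ‖g ξ‖ₑ ^ 2 ≤ ∫⁻ ξ, ‖g ξ‖ₑ ^ 2 :=
  setLIntegral_le_lintegral _ _

lemma BN_congr {n : ℕ} {g f : E n → ℂ} (h : ∀ᵐ ξ, g ξ = f ξ) (R : ℝ) (x : E n) :
    BN g R x = BN f R x := by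
  unfold BN
  refine integral_congr_ae (ae_restrict_of_ae ?_)
  filter_upwards [h] with ξ hξ
  rw [hξ]

end SYF_

open SYF_ in
theorem p_SYF (h1 : T_LIN) (h2 : T_LKN) (h3 : T_NRS) (h4 : T_CVG) : T_SYF := by
  intro n hn
  obtain ⟨C1, hC1⟩ := h1 n hn
  obtain ⟨C2, hC2⟩ := h2 n hn
  refine ⟨C1 + C2, fun l Y a g ha hnn hg hg2 => ⟨fun p B hp hp4 hS hL hT => ?_,
    fun K hK hS hgf => ?_⟩⟩
  · have key : ∀ (b : ℕ → ℝ → ℂ) (f : E n → ℂ), (∀ i, Measurable (b i)) → (∀ i, nn n (b i) ≠ ⊤) →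
        Measurable f → ∫⁻ ξ, ‖f ξ‖ₑ ^ 2 ≠ ⊤ →
        Tendsto (fun K : ℕ => ∫⁻ ξ, ‖f ξ - fs K b Y ξ‖ₑ ^ 2) atTop (𝓝 0) →
        ∫⁻ x, (⨆ (R : ℝ) (_ : 0 < R), ‖BN f R x‖ₑ) ^ 2 ≤
          ((C1 + C2 : ℝ≥0) : ℝ≥0∞) * ENNReal.ofReal ((1 / (p - 2)) ^ 16) * (1 + B ^ 2) *
            ∫⁻ ξ, ‖f ξ‖ₑ ^ 2 := by
      intro b f hb hbn hf hf2 hbT
      refine (hC1 p B l Y b f hp hp4 hS hL hb hbn hf hf2 hbT).trans ?_
      gcongr
      exact le_self_add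
    refine ⟨key a g ha hnn hg hg2 hT, ?_⟩
    refine h4 n g ((C1 + C2) * Real.toNNReal ((1 / (p - 2)) ^ 16) * (1 + B ^ 2)) (by omega) hg
      hg2 fun ρ hρ => ?_
    have e1 : (((C1 + C2) * Real.toNNReal ((1 / (p - 2)) ^ 16) * (1 + B ^ 2) : ℝ≥0) : ℝ≥0∞) =
        ((C1 + C2 : ℝ≥0) : ℝ≥0∞) * ENNReal.ofReal ((1 / (p - 2)) ^ 16) * (1 + B ^ 2) := by
      rw [ENNReal.ofReal]
      push_cast
      rfl
    rw [e1, ← far_norm]
    refine key (cut ρ a) _ (cut_meas ha) (cut_nn hnn) (hg.indicator (far_meas ρ)) ?_ ?_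
    · rw [far_norm]
      exact ne_top_of_le_ne_top hg2 (far_le ρ g)
    · refine tendsto_of_tendsto_of_tendsto_of_le_of_le tendsto_const_nhds hT
        (fun K => zero_le) (fun K => ?_)
      refine lintegral_mono fun ξ => ?_
      have e2 : {ξ : E n | ρ < ‖ξ‖}.indicator g ξ - fs K (cut ρ a) Y ξ =
          {ξ : E n | ρ < ‖ξ‖}.indicator (fun ξ => g ξ - fs K a Y ξ) ξ := by
        rw [fs_cut]
        by_cases h : ξ ∈ {ξ : E n | ρ < ‖ξ‖}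
        · rw [Set.indicator_of_mem h, Set.indicator_of_mem h, Set.indicator_of_mem h]
        · rw [Set.indicator_of_notMem h, Set.indicator_of_notMem h, Set.indicator_of_notMem h,
            sub_zero]
      show ‖{ξ : E n | ρ < ‖ξ‖}.indicator g ξ - fs K (cut ρ a) Y ξ‖ₑ ^ 2 ≤
        ‖g ξ - fs K a Y ξ‖ₑ ^ 2
      rw [e2]
      by_cases h : ξ ∈ {ξ : E n | ρ < ‖ξ‖}
      · rw [Set.indicator_of_mem h]
      · rw [Set.indicator_of_notMem h, enorm_zero]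
        simp
  · have key : ∀ (b : ℕ → ℝ → ℂ) (f : E n → ℂ), (∀ i, Measurable (b i)) → (∀ i, nn n (b i) ≠ ⊤) →
        (∀ᵐ ξ, f ξ = fs K b Y ξ) →
        ∫⁻ x, (⨆ (R : ℝ) (_ : 0 < R), ‖BN f R x‖ₑ) ^ 2 ≤
          ((C1 + C2 : ℝ≥0) : ℝ≥0∞) * ENNReal.ofReal (Real.log (2 + K) ^ 16) *
            ∫⁻ ξ, ‖f ξ‖ₑ ^ 2 := by
      intro b f hb hbn hf
      have e1 : ∫⁻ x, (⨆ (R : ℝ) (_ : 0 < R), ‖BN f R x‖ₑ) ^ 2 =
          ∫⁻ x, (⨆ (R : ℝ) (_ : 0 < R), ‖BN (fs K b Y) R x‖ₑ) ^ 2 := by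
        refine lintegral_congr fun x => ?_
        simp only [BN_congr hf]
      have e2 : ∫⁻ ξ, ‖f ξ‖ₑ ^ 2 = ∫⁻ ξ, ‖fs K b Y ξ‖ₑ ^ 2 := by
        refine lintegral_congr_ae ?_
        filter_upwards [hf] with ξ hξ
        rw [hξ]
      rw [e1, e2, (h3 n K l Y b (by omega) hS hb hbn).2]
      refine (hC2 K l Y b hK hS hb hbn).trans ?_
      gcongr
      exact le_add_self
    refine ⟨key a g ha hnn hgf, ?_⟩
    refine h4 n g ((C1 + C2) * Real.toNNReal (Real.log (2 + K) ^ 16)) (by omega) hg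
      hg2 fun ρ hρ => ?_
    have e1 : (((C1 + C2) * Real.toNNReal (Real.log (2 + K) ^ 16) : ℝ≥0) : ℝ≥0∞) =
        ((C1 + C2 : ℝ≥0) : ℝ≥0∞) * ENNReal.ofReal (Real.log (2 + K) ^ 16) := by
      rw [ENNReal.ofReal]
      push_cast
      rfl
    rw [e1, ← far_norm]
    refine key (cut ρ a) _ (cut_meas ha) (cut_nn hnn) ?_
    filter_upwards [hgf] with ξ hξ
    rw [fs_cut]
    by_cases h : ξ ∈ {ξ : E n | ρ < ‖ξ‖}
    · rw [Set.indicator_of_mem h, Set.indicator_of_mem h, hξ]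
    · rw [Set.indicator_of_notMem h, Set.indicator_of_notMem h]

end Pool.Agent.VRR
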