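import Pool.Agent.VRR.Targets4
import Pool.Agent.VRR.P_LIN
import Pool.Agent.VRR.P_SYF

set_option autoImplicit false

/-!
# VRR: OYF, the final theorem for systems with a logarithmic gain over `L²`
-/

namespace Pool.Agent.VRR

open MeasureTheory FourierTransform Set Filter Topology
open scoped ENNReal NNReal ComplexConjugate
open Pool.Agent.MBS (E ex)
open Pool.Agent.CRN (sg)

namespace OYF_

open LIN_ SYF_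

/-- the maximal inequality for a limit in `L²` -/
theorem fatou {n : ℕ} (c : ℝ≥0∞) (hctop : c ≠ ⊤) (f : ℕ → E n → ℂ) (g : E n → ℂ)
    (hf : ∀ K, Measurable (f K)) (hf2 : ∀ K, ∫⁻ ξ, ‖f K ξ‖ₑ ^ 2 ≠ ⊤) (hg : Measurable g)
    (hg2 : ∫⁻ ξ, ‖g ξ‖ₑ ^ 2 ≠ ⊤)
    (hlim : Tendsto (fun K : ℕ => ∫⁻ ξ, ‖g ξ - f K ξ‖ₑ ^ 2) atTop (𝓝 0))
    (hmax : ∀ K, ∫⁻ x, (⨆ (R : ℝ) (_ : 0 < R), ‖BN (f K) R x‖ₑ) ^ 2 ≤
      c * ∫⁻ ξ, ‖f K ξ‖ₑ ^ 2) :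
    ∫⁻ x, (⨆ (R : ℝ) (_ : 0 < R), ‖BN g R x‖ₑ) ^ 2 ≤ c * ∫⁻ ξ, ‖g ξ‖ₑ ^ 2 := by
  set D : ℕ → ℝ≥0∞ := fun K => ∫⁻ ξ, ‖g ξ - f K ξ‖ₑ ^ 2 with hD
  have hDr : Tendsto (fun K => D K ^ (1 / 2 : ℝ)) atTop (𝓝 0) := by
    have := hlim.ennrpow_const (1 / 2 : ℝ)
    rwa [ENNReal.zero_rpow_of_pos (by norm_num)] at this
  -- pointwise convergence
  have hpt : ∀ (R : ℝ) (x : E n),
      Tendsto (fun K => ‖BN (f K) R x‖ₑ ^ 2) atTop (𝓝 (‖BN g R x‖ₑ ^ 2)) := by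
    intro R x
    have k1 : Tendsto (fun K => BN (f K) R x) atTop (𝓝 (BN g R x)) := by
      rw [tendsto_iff_edist_tendsto_0]
      have k2 : Tendsto (fun K => D K ^ (1 / 2 : ℝ) *
          volume (Metric.closedBall (0 : E n) R) ^ (1 / 2 : ℝ)) atTop (𝓝 0) := by
        have := ENNReal.Tendsto.mul_const (b := volume (Metric.closedBall (0 : E n) R) ^
          (1 / 2 : ℝ)) hDr (Or.inr (ENNReal.rpow_ne_top_of_nonneg (by norm_num)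
            measure_closedBall_lt_top.ne))
        rwa [zero_mul] at this
      refine tendsto_of_tendsto_of_tendsto_of_le_of_le tendsto_const_nhds k2
        (fun K => zero_le) (fun K => ?_)
      rw [edist_comm, edist_eq_enorm_sub]
      exact BN_sub_le hg (hf K) hg2 (hf2 K) R x
    exact ENNReal.Tendsto.pow ((continuous_enorm.tendsto _).comp k1)
  -- the suprema
  have hsup : ∀ x : E n, (⨆ (R : ℝ) (_ : 0 < R), ‖BN g R x‖ₑ) ^ 2 ≤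
      liminf (fun K => (⨆ (R : ℝ) (_ : 0 < R), ‖BN (f K) R x‖ₑ) ^ 2) atTop := by
    intro x
    set Λ := liminf (fun K => (⨆ (R : ℝ) (_ : 0 < R), ‖BN (f K) R x‖ₑ) ^ 2) atTop with hΛ
    have k1 : ∀ R : ℝ, 0 < R → ‖BN g R x‖ₑ ^ 2 ≤ Λ := by
      intro R hR
      rw [← (hpt R x).liminf_eq]
      refine liminf_le_liminf (Eventually.of_forall fun K => ?_)
      gcongr
      exact le_iSup₂_of_le R hR le_rfl
    have k2 : (⨆ (R : ℝ) (_ : 0 < R), ‖BN g R x‖ₑ) ≤ Λ ^ (1 / 2 : ℝ) := by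
      refine iSup₂_le fun R hR => ?_
      have k3 := ENNReal.rpow_le_rpow (k1 R hR) (show (0 : ℝ) ≤ 1 / 2 by norm_num)
      rwa [← ENNReal.rpow_natCast, ← ENNReal.rpow_mul, show ((2 : ℕ) : ℝ) * (1 / 2) = 1 by norm_num,
        ENNReal.rpow_one] at k3
    calc (⨆ (R : ℝ) (_ : 0 < R), ‖BN g R x‖ₑ) ^ 2 ≤ (Λ ^ (1 / 2 : ℝ)) ^ 2 := by gcongr
      _ = Λ := by
        rw [← ENNReal.rpow_natCast, ← ENNReal.rpow_mul, show (1 / 2 : ℝ) * ((2 : ℕ) : ℝ) = 1 by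
          norm_num, ENNReal.rpow_one]
  -- the norms
  set G : ℝ≥0∞ := ∫⁻ ξ, ‖g ξ‖ₑ ^ 2 with hG
  have hnorm : ∀ K, ∫⁻ ξ, ‖f K ξ‖ₑ ^ 2 ≤ (G ^ (1 / 2 : ℝ) + D K ^ (1 / 2 : ℝ)) ^ 2 := by
    intro K
    have k1 : eLpNorm (f K) 2 volume ≤ G ^ (1 / 2 : ℝ) + D K ^ (1 / 2 : ℝ) := by
      have k2 := eLpNorm_sub_le (μ := (volume : Measure (E n))) (p := 2)
        hg.aestronglyMeasurable (hg.sub (hf K)).aestronglyMeasurable (by norm_num)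
      have k3 : g - (g - f K) = f K := by
        rw [sub_sub_cancel]
      have k4 : eLpNorm (g - f K) 2 volume = D K ^ (1 / 2 : ℝ) := eL2 _ _
      rw [k3, k4, eL2 g] at k2
      exact k2
    rw [eL2] at k1
    calc ∫⁻ ξ, ‖f K ξ‖ₑ ^ 2 = ((∫⁻ ξ, ‖f K ξ‖ₑ ^ 2) ^ (1 / 2 : ℝ)) ^ 2 := by
          rw [← ENNReal.rpow_natCast, ← ENNReal.rpow_mul, show (1 / 2 : ℝ) * ((2 : ℕ) : ℝ) = 1 by
            norm_num, ENNReal.rpow_one]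
      _ ≤ _ := by gcongr
  have hGlim : Tendsto (fun K => c * (G ^ (1 / 2 : ℝ) + D K ^ (1 / 2 : ℝ)) ^ 2) atTop
      (𝓝 (c * G)) := by
    have k1 : Tendsto (fun K => (G ^ (1 / 2 : ℝ) + D K ^ (1 / 2 : ℝ)) ^ 2) atTop
        (𝓝 ((G ^ (1 / 2 : ℝ) + 0) ^ 2)) := ENNReal.Tendsto.pow (tendsto_const_nhds.add hDr)
    have k2 : (G ^ (1 / 2 : ℝ) + 0) ^ 2 = G := by
      rw [add_zero, ← ENNReal.rpow_natCast, ← ENNReal.rpow_mul,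
        show (1 / 2 : ℝ) * ((2 : ℕ) : ℝ) = 1 by norm_num, ENNReal.rpow_one]
    rw [k2] at k1
    exact ENNReal.Tendsto.const_mul k1 (Or.inr hctop)
  calc ∫⁻ x, (⨆ (R : ℝ) (_ : 0 < R), ‖BN g R x‖ₑ) ^ 2
      ≤ ∫⁻ x, liminf (fun K => (⨆ (R : ℝ) (_ : 0 < R), ‖BN (f K) R x‖ₑ) ^ 2) atTop :=
        lintegral_mono hsup
    _ ≤ liminf (fun K => ∫⁻ x, (⨆ (R : ℝ) (_ : 0 < R), ‖BN (f K) R x‖ₑ) ^ 2) atTop :=
        lintegral_liminf_le fun K =>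
          (sup_meas fun R => int_ball (hf K) (hf2 K) R).pow_const 2
    _ ≤ liminf (fun K => c * (G ^ (1 / 2 : ℝ) + D K ^ (1 / 2 : ℝ)) ^ 2) atTop := by
        refine liminf_le_liminf (Eventually.of_forall fun K => ?_)
        refine (hmax K).trans ?_
        gcongr
        exact hnorm K
    _ = c * G := hGlim.liminf_eq

/-- the distance of the tails -/
theorem cut_dist {n : ℕ} (K : ℕ) (ρ : ℝ) (a : ℕ → ℝ → ℂ) (Y : ℕ → E n → ℂ) (g : E n → ℂ) :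
    ∫⁻ ξ, ‖{ξ : E n | ρ < ‖ξ‖}.indicator g ξ - fs K (cut ρ a) Y ξ‖ₑ ^ 2 ≤
      ∫⁻ ξ, ‖g ξ - fs K a Y ξ‖ₑ ^ 2 := by
  refine lintegral_mono fun ξ => ?_
  have e2 : {ξ : E n | ρ < ‖ξ‖}.indicator g ξ - fs K (cut ρ a) Y ξ =
      {ξ : E n | ρ < ‖ξ‖}.indicator (fun ξ => g ξ - fs K a Y ξ) ξ := by
    rw [fs_cut]
    by_cases h : ξ ∈ {ξ : E n | ρ < ‖ξ‖}
    · rw [Set.indicator_of_mem h, Set.indicator_of_mem h, Set.indicator_of_mem h]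
    · rw [Set.indicator_of_notMem h, Set.indicator_of_notMem h, Set.indicator_of_notMem h,
        sub_zero]
  show ‖{ξ : E n | ρ < ‖ξ‖}.indicator g ξ - fs K (cut ρ a) Y ξ‖ₑ ^ 2 ≤
    ‖g ξ - fs K a Y ξ‖ₑ ^ 2
  rw [e2]
  by_cases h : ξ ∈ {ξ : E n | ρ < ‖ξ‖}
  · rw [Set.indicator_of_mem h]
  · rw [Set.indicator_of_notMem h, enorm_zero]
    simp

/-- the maximal inequality for a function which agrees almost everywhere with another one -/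
theorem congr_max {n : ℕ} (c : ℝ≥0∞) {f h : E n → ℂ} (hf : ∀ᵐ ξ, f ξ = h ξ)
    (hmax : ∫⁻ x, (⨆ (R : ℝ) (_ : 0 < R), ‖BN h R x‖ₑ) ^ 2 ≤ c * ∫⁻ ξ, ‖h ξ‖ₑ ^ 2) :
    ∫⁻ x, (⨆ (R : ℝ) (_ : 0 < R), ‖BN f R x‖ₑ) ^ 2 ≤ c * ∫⁻ ξ, ‖f ξ‖ₑ ^ 2 := by
  have e1 : ∫⁻ x, (⨆ (R : ℝ) (_ : 0 < R), ‖BN f R x‖ₑ) ^ 2 =
      ∫⁻ x, (⨆ (R : ℝ) (_ : 0 < R), ‖BN h R x‖ₑ) ^ 2 := by
    refine lintegral_congr fun x => ?_
    simp only [BN_congr hf]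
  have e2 : ∫⁻ ξ, ‖f ξ‖ₑ ^ 2 = ∫⁻ ξ, ‖h ξ‖ₑ ^ 2 := by
    refine lintegral_congr_ae ?_
    filter_upwards [hf] with ξ hξ
    rw [hξ]
  rw [e1, e2]
  exact hmax

end OYF_

open SYF_ OYF_ in
theorem p_OYF (h1 : T_OPN) (h2 : T_NRS) (h3 : T_CVG) : T_OYF := by
  intro n hn
  obtain ⟨C, hC⟩ := h1 n hn
  refine ⟨C, fun B l Y a g ha hnn hg hg2 hcase => ?_⟩
  have hfin : ∀ (K : ℕ) (b : ℕ → ℝ → ℂ), Sys n K l Y → UIN n K Y B → (∀ i, Measurable (b i)) →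
      (∀ i, nn n (b i) ≠ ⊤) →
      ∫⁻ x, (⨆ (R : ℝ) (_ : 0 < R), ‖BN (fs K b Y) R x‖ₑ) ^ 2 ≤
        C * (1 + B) * ∫⁻ ξ, ‖fs K b Y ξ‖ₑ ^ 2 := by
    intro K b hS hU hb hbn
    rw [(h2 n K l Y b (by omega) hS hb hbn).2]
    exact hC B K l Y b hS hU hb hbn
  have hctop : (C : ℝ≥0∞) * (1 + B) ≠ ⊤ :=
    ENNReal.mul_ne_top ENNReal.coe_ne_top
      (ENNReal.add_ne_top.2 ⟨ENNReal.one_ne_top, ENNReal.coe_ne_top⟩)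
  have key : ∀ (b : ℕ → ℝ → ℂ) (f : E n → ℂ), (∀ i, Measurable (b i)) → (∀ i, nn n (b i) ≠ ⊤) →
      Measurable f → ∫⁻ ξ, ‖f ξ‖ₑ ^ 2 ≠ ⊤ →
      (((∀ K, Sys n K l Y) ∧ (∀ K, UIN n K Y B) ∧
        Tendsto (fun K : ℕ => ∫⁻ ξ, ‖f ξ - fs K b Y ξ‖ₑ ^ 2) atTop (𝓝 0)) ∨
        ∃ K : ℕ, Sys n K l Y ∧ UIN n K Y B ∧ ∀ᵐ ξ, f ξ = fs K b Y ξ) →
      ∫⁻ x, (⨆ (R : ℝ) (_ : 0 < R), ‖BN f R x‖ₑ) ^ 2 ≤ C * (1 + B) * ∫⁻ ξ, ‖f ξ‖ₑ ^ 2 := by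
    intro b f hb hbn hf hf2 hc
    rcases hc with ⟨hS, hU, hT⟩ | ⟨K, hS, hU, hae⟩
    · have hK : ∀ K, Measurable (fs K b Y) ∧
          ∫⁻ ξ, ‖fs K b Y ξ‖ₑ ^ 2 = ∑ i ∈ Finset.range K, nn n (b i) :=
        fun K => h2 n K l Y b (by omega) (hS K) hb hbn
      refine fatou _ hctop (fun K => fs K b Y) f (fun K => (hK K).1) (fun K => ?_) hf hf2 hT
        fun K => hfin K b (hS K) (hU K) hb hbn
      rw [(hK K).2]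
      exact ENNReal.sum_ne_top.2 fun i _ => hbn i
    · exact congr_max _ hae (hfin K b hS hU hb hbn)
  refine ⟨key a g ha hnn hg hg2 hcase, ?_⟩
  refine h3 n g (C * (1 + B)) (by omega) hg hg2 fun ρ hρ => ?_
  have e1 : ((C * (1 + B) : ℝ≥0) : ℝ≥0∞) = (C : ℝ≥0∞) * (1 + B) := by
    push_cast
    rfl
  rw [e1, ← far_norm]
  refine key (cut ρ a) _ (cut_meas ha) (cut_nn hnn) (hg.indicator (far_meas ρ)) ?_ ?_
  · rw [far_norm]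
    exact ne_top_of_le_ne_top hg2 (far_le ρ g)
  · rcases hcase with ⟨hS, hU, hT⟩ | ⟨K, hS, hU, hae⟩
    · refine Or.inl ⟨hS, hU, ?_⟩
      exact tendsto_of_tendsto_of_tendsto_of_le_of_le tendsto_const_nhds hT
        (fun K => zero_le) (fun K => cut_dist K ρ a Y g)
    · refine Or.inr ⟨K, hS, hU, ?_⟩
      filter_upwards [hae] with ξ hξ
      rw [fs_cut]
      by_cases h : ξ ∈ {ξ : E n | ρ < ‖ξ‖}
      · rw [Set.indicator_of_mem h, Set.indicator_of_mem h, hξ]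
      · rw [Set.indicator_of_notMem h, Set.indicator_of_notMem h]

end Pool.Agent.VRR
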