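import Pool.Agent.VRR.All2
import Pool.Agent.VRR.P_NET
import Pool.Agent.VRR.P_OC1
import Pool.Agent.VRR.P_OCH
import Pool.Agent.VRR.P_OPN
import Pool.Agent.VRR.P_OYF
import Pool.Agent.VRR.P_LFF

set_option autoImplicit false

/-!
# VRR: assembly, fourth part (MP_ee701d_an): systems of spherical harmonics with a logarithmic gain over `L²`
-/

namespace Pool.Agent.VRR

theorem q_OCH : T_OCH := p_OCH p_NET p_OC1

theorem q_OPN : T_OPN := p_OPN q_VEC q_OCH Pool.Agent.CRN.p_POLN

theorem q_OYF : T_OYF := p_OYF q_OPN q_NRS p_CVG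

theorem q_LFF : T_LFF := p_LFF q_LPN q_NRS p_CVG

end Pool.Agent.VRR
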