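import Pool.Agent.VRR.Targets3
import Pool.Agent.VRC.P_RAC

set_option autoImplicit false

/-!
# VRR, target CVG: convergence from the maximal inequality
-/

namespace Pool.Agent.VRR

open MeasureTheory FourierTransform Set Filter Topology
open scoped ENNReal NNReal
open Pool.Agent.MBS (E ex)
open Pool.Agent.CRF (Mx)
open Pool.Agent.CRF.FAE_
open Pool.Agent.VRC.RAC_

namespace CVG_

variable {n : ℕ}

theorem tr_sq_int {g : E n → ℂ} (N : ℕ) :
    ∫⁻ ξ, ‖tr g N ξ‖ₑ ^ 2 = ∫⁻ ξ in {ξ : E n | (N : ℝ) < ‖ξ‖}, ‖g ξ‖ₑ ^ 2 := by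
  rw [← lintegral_indicator (tr_set_meas N)]
  refine lintegral_congr fun ξ => ?_
  unfold tr
  by_cases h : ξ ∈ {ξ : E n | (N : ℝ) < ‖ξ‖}
  · rw [indicator_of_mem h, indicator_of_mem h]
  · rw [indicator_of_notMem h, indicator_of_notMem h]
    simp

theorem tr_fin {g : E n → ℂ} (h2 : ∫⁻ ξ, ‖g ξ‖ₑ ^ 2 ≠ ⊤) (N : ℕ) :
    ∫⁻ ξ, ‖tr g N ξ‖ₑ ^ 2 ≠ ⊤ :=
  ne_top_of_le_ne_top h2 (lintegral_mono fun ξ => tr_enorm_sq g N ξ)

theorem Mx_meas {g : E n → ℂ} (hg : Measurable g) (h2 : ∫⁻ ξ, ‖g ξ‖ₑ ^ 2 ≠ ⊤) :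
    Measurable (Mx g) := by
  unfold Mx
  refine LowerSemicontinuous.measurable ?_
  refine lowerSemicontinuous_iSup fun R => lowerSemicontinuous_iSup fun _ => ?_
  exact (BI_cont (intOn hg h2 R)).enorm.lowerSemicontinuous

end CVG_

open CVG_ in
/-- CVG -/
theorem p_CVG : T_CVG := by
  intro n g C _ hg h2 hM
  have htr : Tendsto (fun N : ℕ => ∫⁻ ξ, ‖tr g N ξ‖ₑ ^ 2) atTop (𝓝 0) := by
    have := tr_lim (W := fun _ : E n => (1 : ℝ≥0∞)) measurable_const hg (by simpa using h2)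
    simpa using this
  have hm : ∀ N : ℕ, Measurable fun x => Mx (tr g N) x ^ 2 := fun N =>
    (Mx_meas (tr_meas hg N) (tr_fin h2 N)).pow_const 2
  have hl2 : Tendsto (fun N : ℕ => ∫⁻ x, Mx (tr g N) x ^ 2) atTop (𝓝 0) := by
    have h6 := ENNReal.Tendsto.const_mul htr (Or.inr (ENNReal.coe_ne_top (r := C)))
    rw [mul_zero] at h6
    refine tendsto_of_tendsto_of_tendsto_of_le_of_le' tendsto_const_nhds h6
      (Eventually.of_forall fun _ => zero_le) ?_
    filter_upwards [eventually_ge_atTop 1] with N hN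
    have hN0 : (0 : ℝ) < N := by exact_mod_cast hN
    rw [tr_sq_int]
    exact hM N hN0
  have hfat : ∫⁻ x, liminf (fun N : ℕ => Mx (tr g N) x ^ 2) atTop = 0 := by
    refine le_antisymm ?_ zero_le
    refine le_trans (lintegral_liminf_le hm) ?_
    rw [hl2.liminf_eq]
  rw [lintegral_eq_zero_iff (Measurable.liminf hm)] at hfat
  refine l2part hg h2 ?_
  filter_upwards [hfat] with x hx
  exact conv_of_freq hg h2 fun m => freq_of_liminf hx m

end Pool.Agent.VRR
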