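import Pool.Agent.VRR.Targets3

set_option autoImplicit false

/-!
# VRR: the Funk-Hecke formula
-/

namespace Pool.Agent.VRR

open MeasureTheory FourierTransform Set Filter Topology
open scoped ENNReal NNReal ComplexConjugate
open Pool.Agent.MBS (E ex)
open Pool.Agent.CRN (sg SH T_POLN)
open Pool.Agent.CRR (Sol NSol T_UNI)
open Pool.Agent.VRC (Pure od T_ODV T_GMV)

namespace FHK_

variable {n l : ℕ} {p : E n → ℂ}

theorem pure_of_har (h : Har n l p) : Pure n l p := by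
  intro ρ hρ
  have hc : ContDiff ℝ 2 (((ρ ^ l : ℝ)) • p) := contDiff_const.smul h.c2
  refine ⟨((ρ ^ l : ℝ)) • p, hc, fun x => ?_, fun t x ht => ?_, fun θ _ => ?_⟩
  · rw [InnerProductSpace.laplacian_smul _ h.c2.contDiffAt, h.lap, smul_zero]
  · simp only [Pi.smul_apply]
    rw [h.hom t x ht, mul_smul_comm]
  · simp only [Pi.smul_apply]
    rw [h.hom ρ θ hρ.le, Complex.real_smul]
    push_cast
    rfl

/-- the integral over the sphere -/
noncomputable def A (p : E n → ℂ) (s : ℝ) (θ : E n) : ℂ :=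
  ∫ ω, p (ω : E n) * ex (s • θ) (ω : E n) ∂(sg n)

theorem SH_one (s : ℝ) (θ : E n) : SH p 1 (s • θ) = A p s θ := by
  unfold SH A
  simp only [one_pow, Complex.ofReal_one, one_smul, one_mul]

theorem norm_ex (x y : E n) : ‖ex x y‖ = 1 := by
  unfold ex
  have h : 2 * (Real.pi : ℂ) * Complex.I * ((inner ℝ x y : ℝ) : ℂ) =
      ((2 * Real.pi * inner ℝ x y : ℝ) : ℂ) * Complex.I := by
    push_cast
    ring
  rw [h, Complex.norm_exp_ofReal_mul_I]

theorem ex_smul (s : ℝ) (x y : E n) : ex x (s • y) = ex (s • x) y := by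
  unfold ex
  rw [inner_smul_left, inner_smul_right]
  simp

theorem cont_ex (y : E n) : Continuous fun x : E n => ex y x := by
  unfold ex
  fun_prop

theorem bound (hp : Continuous p) : ∃ B : ℝ, 0 ≤ B ∧ ∀ u : E n, ‖u‖ = 1 → ‖p u‖ ≤ B := by
  obtain ⟨B, hB⟩ := (isCompact_sphere (0 : E n) 1).exists_bound_of_continuousOn
    hp.continuousOn
  refine ⟨max B 0, le_max_right _ _, fun u hu => (hB u ?_).trans (le_max_left _ _)⟩
  rwa [mem_sphere_zero_iff_norm]

theorem cont_A [IsFiniteMeasure (sg n)] (hp : Continuous p) (θ : E n) :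
    Continuous fun s => A p s θ := by
  obtain ⟨B, -, hB⟩ := bound hp
  unfold A
  refine continuous_of_dominated (bound := fun _ => B) (fun s => ?_) (fun s => ?_)
    (integrable_const B) ?_
  · exact ((hp.comp continuous_subtype_val).mul
      ((cont_ex _).comp continuous_subtype_val)).aestronglyMeasurable
  · refine Filter.Eventually.of_forall fun ω => ?_
    rw [norm_mul, norm_ex, mul_one]
    exact hB _ (by simp)
  · refine Filter.Eventually.of_forall fun ω => ?_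
    unfold ex
    fun_prop

theorem polar (hn : 1 ≤ n) (y : E n) : ∃ u : E n, ‖u‖ = 1 ∧ y = ‖y‖ • u := by
  by_cases hy : y = 0
  · refine ⟨EuclideanSpace.single ⟨0, by omega⟩ 1, by simp, ?_⟩
    rw [hy, norm_zero, zero_smul]
  · have h0 : ‖y‖ ≠ 0 := norm_ne_zero_iff.2 hy
    refine ⟨‖y‖⁻¹ • y, ?_, ?_⟩
    · rw [norm_smul, norm_inv, norm_norm, inv_mul_cancel₀ h0]
    · rw [smul_smul, mul_inv_cancel₀ h0, one_smul]

theorem growth (hn : 1 ≤ n) (h : Har n l p) {B : ℝ} (hB : ∀ u : E n, ‖u‖ = 1 → ‖p u‖ ≤ B)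
    (y : E n) : ‖p y‖ ≤ ‖y‖ ^ l * B := by
  obtain ⟨u, hu, hy⟩ := polar hn y
  have h1 : p y = (‖y‖ : ℂ) ^ l * p u := by
    conv_lhs => rw [hy]
    exact h.hom _ _ (norm_nonneg _)
  rw [h1, norm_mul, norm_pow, Complex.norm_real, norm_norm]
  exact mul_le_mul_of_nonneg_left (hB u hu) (by positivity)

theorem gauss_bound (l : ℕ) {t : ℝ} (ht : 0 ≤ t) :
    t ^ l * Real.exp (-(Real.pi * t ^ 2)) ≤
      (l.factorial : ℝ) * Real.exp 1 * Real.exp (-(t ^ 2)) := by
  have h1 : t ^ l ≤ l.factorial * Real.exp t := by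
    have h2 := Real.pow_div_factorial_le_exp t ht l
    rw [div_le_iff₀ (by positivity)] at h2
    linarith
  have h3 : t + -(Real.pi * t ^ 2) ≤ 1 + -(t ^ 2) := by
    nlinarith [Real.pi_gt_three, sq_nonneg t, sq_nonneg (t - 1)]
  calc t ^ l * Real.exp (-(Real.pi * t ^ 2))
      ≤ l.factorial * Real.exp t * Real.exp (-(Real.pi * t ^ 2)) := by gcongr
    _ = l.factorial * Real.exp (t + -(Real.pi * t ^ 2)) := by rw [Real.exp_add]; ring
    _ ≤ l.factorial * Real.exp (1 + -(t ^ 2)) := by gcongr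
    _ = _ := by rw [Real.exp_add]; ring

theorem int_gauss (n : ℕ) : Integrable fun y : E n => Real.exp (-(‖y‖ ^ 2)) := by
  have h := (GaussianFourier.integrable_cexp_neg_mul_sq_norm_add (V := E n) (b := 1)
    (by simp) 0 0).norm
  refine h.congr (Filter.Eventually.of_forall fun y => ?_)
  simp only [Complex.norm_exp]
  congr 1
  simp [← Complex.ofReal_pow]

/-- the Gaussian integrand -/
noncomputable def F (p : E n → ℂ) (θ y : E n) : ℂ :=
  p y * ((Real.exp (-(Real.pi * ‖y‖ ^ 2)) : ℝ) : ℂ) * ex θ y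

theorem int_F (hn : 1 ≤ n) (h : Har n l p) (θ : E n) : Integrable (F p θ) := by
  have hp : Continuous p := h.c2.continuous
  obtain ⟨B, hB0, hB⟩ := bound hp
  refine ((int_gauss n).const_mul (B * ((l.factorial : ℝ) * Real.exp 1))).mono' ?_ ?_
  · refine Continuous.aestronglyMeasurable ?_
    unfold F
    refine (hp.mul ?_).mul (cont_ex θ)
    fun_prop
  · refine Filter.Eventually.of_forall fun y => ?_
    unfold F
    rw [norm_mul, norm_mul, norm_ex, mul_one, Complex.norm_real, Real.norm_eq_abs,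
      abs_of_pos (Real.exp_pos _)]
    calc ‖p y‖ * Real.exp (-(Real.pi * ‖y‖ ^ 2))
        ≤ ‖y‖ ^ l * B * Real.exp (-(Real.pi * ‖y‖ ^ 2)) := by
          gcongr
          exact growth hn h hB y
      _ = B * (‖y‖ ^ l * Real.exp (-(Real.pi * ‖y‖ ^ 2))) := by ring
      _ ≤ B * ((l.factorial : ℝ) * Real.exp 1 * Real.exp (-(‖y‖ ^ 2))) :=
          mul_le_mul_of_nonneg_left (gauss_bound l (norm_nonneg y)) hB0
      _ = _ := by ring

theorem sphere_F (h : Har n l p) (θ : E n) {r : ℝ} (hr : 0 < r) :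
    ∫ ω, F p θ (r • (ω : E n)) ∂(sg n) =
      (r : ℂ) ^ l * ((Real.exp (-(Real.pi * r ^ 2)) : ℝ) : ℂ) * A p r θ := by
  unfold A
  rw [← integral_const_mul]
  congr 1
  funext ω
  have hω : ‖(ω : E n)‖ = 1 := by simp
  unfold F
  rw [h.hom r _ hr.le, norm_smul, hω, mul_one, Real.norm_eq_abs, sq_abs, ex_smul]
  ring

end FHK_

open FHK_ in
/-- FHK -/
theorem p_FHK (h1 : T_HBO) (h2 : Pool.Agent.VRC.T_ODV) (h3 : Pool.Agent.CRR.T_UNI)
    (h4 : Pool.Agent.CRN.T_POLN) : T_FHK := by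
  intro n l p hn h
  have hp : Continuous p := h.c2.continuous
  have hfin : IsFiniteMeasure (sg n) := (h4 n (by omega)).2.2
  have hν : 0 ≤ od n l := by
    unfold od
    have : (2 : ℝ) ≤ n := by exact_mod_cast hn
    have : (0 : ℝ) ≤ l := by positivity
    linarith
  set a : ℝ := ((n : ℝ) - 2) / 2 with ha
  -- the solution in the direction `θ`
  set Z : E n → ℝ → ℂ := fun θ x =>
    (((Real.exp x / (2 * Real.pi * 1)) ^ a : ℝ) : ℂ) *
      SH p 1 ((Real.exp x / (2 * Real.pi * 1)) • θ) with hZ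
  have hZr : ∀ (θ : E n) (r : ℝ), 0 < r →
      Z θ (Real.log (2 * Real.pi * r)) = ((r ^ a : ℝ) : ℂ) * A p r θ := by
    intro θ r hr
    have e : Real.exp (Real.log (2 * Real.pi * r)) / (2 * Real.pi * 1) = r := by
      rw [Real.exp_log (by positivity)]
      field_simp
    simp only [hZ]
    rw [e, SH_one]
  have hAr : ∀ (θ : E n) (r : ℝ), 0 < r →
      A p r θ = (((r ^ a)⁻¹ : ℝ) : ℂ) * Z θ (Real.log (2 * Real.pi * r)) := by
    intro θ r hr
    rw [hZr θ r hr, ← mul_assoc, ← Complex.ofReal_mul, inv_mul_cancel₀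
      (Real.rpow_pos_of_pos hr a).ne', Complex.ofReal_one, one_mul]
  have hsol : ∀ θ : E n, ‖θ‖ = 1 → ∃ Z1 : ℝ → ℂ,
      Sol (od n l) (fun x => (Z θ x).re) (fun x => (Z1 x).re) ∧
      Sol (od n l) (fun x => (Z θ x).im) (fun x => (Z1 x).im) :=
    fun θ hθ => h2 n l p 1 θ hn (pure_of_har h) one_pos hθ
  -- closing the argument at `s = 0`
  have hclose : ∀ (c : ℝ → ℂ), Continuous c →
      (∀ (s : ℝ) (θ : E n), 0 < s → ‖θ‖ = 1 → A p s θ = c s * p θ) →
      ∀ (s : ℝ) (θ : E n), 0 ≤ s → ‖θ‖ = 1 → A p s θ = c s * p θ := by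
    intro c hc hpos s θ hs hθ
    rcases hs.lt_or_eq with hs | hs
    · exact hpos s θ hs hθ
    · subst hs
      have t1 : Tendsto (fun s => A p s θ) (𝓝[>] 0) (𝓝 (A p 0 θ)) :=
        ((cont_A hp θ).tendsto 0).mono_left nhdsWithin_le_nhds
      have t2 : Tendsto (fun s => c s * p θ) (𝓝[>] 0) (𝓝 (c 0 * p θ)) :=
        ((hc.mul continuous_const).tendsto 0).mono_left nhdsWithin_le_nhds
      refine tendsto_nhds_unique t1 (t2.congr' ?_)
      filter_upwards [self_mem_nhdsWithin] with s hs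
      exact (hpos s θ hs hθ).symm
  by_cases hall : ∀ (θ : E n) (x : ℝ), ‖θ‖ = 1 → Z θ x = 0
  · refine ⟨fun _ => 0, continuous_const, hclose _ continuous_const ?_⟩
    intro s θ hs hθ
    rw [hAr θ s hs, hall θ _ hθ, mul_zero, zero_mul]
  push Not at hall
  obtain ⟨θ₀, x₀, hθ₀, hx₀⟩ := hall
  -- a real solution which is not zero
  obtain ⟨J, J', hJ, hJ0⟩ : ∃ J J' : ℝ → ℝ, Sol (od n l) J J' ∧ ∃ x, J x ≠ 0 := by
    obtain ⟨Z1, hre, him⟩ := hsol θ₀ hθ₀
    by_cases hr : (Z θ₀ x₀).re = 0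
    · refine ⟨_, _, him, x₀, fun hi => hx₀ (Complex.ext hr hi)⟩
    · exact ⟨_, _, hre, x₀, hr⟩
  have hγ : ∀ θ : E n, ‖θ‖ = 1 → ∃ g : ℂ, ∀ x, Z θ x = g * J x := by
    intro θ hθ
    obtain ⟨Z1, hre, him⟩ := hsol θ hθ
    obtain ⟨c1, hc1⟩ := h3 _ _ _ _ _ hν hre hJ hJ0
    obtain ⟨c2, hc2⟩ := h3 _ _ _ _ _ hν him hJ hJ0
    refine ⟨⟨c1, c2⟩, fun x => ?_⟩
    refine Complex.ext ?_ ?_
    · exact (hc1 x).1.trans (by simp [Complex.mul_re])
    · exact (hc2 x).1.trans (by simp [Complex.mul_im])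
  choose! γ hγ using hγ
  set κ : ℂ := ∫ r in Ioi (0 : ℝ), (((r ^ (n - 1) : ℝ) : ℂ) *
    ((r : ℂ) ^ l * ((Real.exp (-(Real.pi * r ^ 2)) : ℝ) : ℂ) *
      ((((r ^ a)⁻¹ : ℝ) : ℂ) * (J (Real.log (2 * Real.pi * r)) : ℂ)))) with hκ
  have hmain : ∀ θ : E n, ‖θ‖ = 1 →
      κ * γ θ = Complex.I ^ l * p θ * ((Real.exp (-(Real.pi * ‖θ‖ ^ 2)) : ℝ) : ℂ) := by
    intro θ hθ
    rw [← h1 n l p (by omega) h θ]
    have e1 := (h4 n (by omega)).2.1 (F p θ) (int_F (by omega) h θ)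
    have e2 : ∫ y, F p θ y = ∫ y, p y * ((Real.exp (-(Real.pi * ‖y‖ ^ 2)) : ℝ) : ℂ) * ex θ y := rfl
    rw [← e2, e1, hκ, ← integral_mul_const]
    refine setIntegral_congr_fun measurableSet_Ioi fun r hr => ?_
    have hr' : 0 < r := hr
    rw [sphere_F h θ hr', hAr θ r hr', hγ θ hθ]
    ring
  have hγ₀ : γ θ₀ ≠ 0 := by
    intro h0
    apply hx₀
    rw [hγ θ₀ hθ₀, h0, zero_mul]
  by_cases hκ0 : κ = 0
  · -- then `p` vanishes on the sphere
    exfalso
    have hp0 : ∀ θ : E n, ‖θ‖ = 1 → p θ = 0 := by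
      intro θ hθ
      have e := hmain θ hθ
      rw [hκ0, zero_mul] at e
      rcases mul_eq_zero.1 e.symm with e1 | e1
      · exact (mul_eq_zero.1 e1).resolve_left (pow_ne_zero _ Complex.I_ne_zero)
      · exact absurd e1 (by simp)
    apply hx₀
    have hA0 : ∀ s, A p s θ₀ = 0 := by
      intro s
      unfold A
      rw [integral_eq_zero_of_ae]
      refine Filter.Eventually.of_forall fun ω => ?_
      simp only [Pi.zero_apply]
      rw [hp0 _ (by simp), zero_mul]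
    simp only [hZ]
    rw [SH_one, hA0, mul_zero]
  · have hγp : ∀ θ : E n, ‖θ‖ = 1 →
        γ θ = Complex.I ^ l * ((Real.exp (-Real.pi) : ℝ) : ℂ) / κ * p θ := by
      intro θ hθ
      have e := hmain θ hθ
      rw [hθ, one_pow, mul_one] at e
      field_simp
      rw [mul_comm, e]
      ring
    have hp₀ : p θ₀ ≠ 0 := by
      intro h0
      apply hγ₀
      rw [hγp θ₀ hθ₀, h0, mul_zero]
    refine ⟨fun s => A p s θ₀ / p θ₀, (cont_A hp θ₀).div_const _, hclose _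
      ((cont_A hp θ₀).div_const _) ?_⟩
    intro s θ hs hθ
    rw [hAr θ s hs, hAr θ₀ s hs, hγ θ hθ, hγ θ₀ hθ₀, hγp θ hθ, hγp θ₀ hθ₀]
    field_simp

end Pool.Agent.VRR
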