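import Pool.Agent.VRR.Targets3

set_option autoImplicit false

/-!
# VRR: Gaussian averages of harmonic functions (target GAU)
-/

namespace Pool.Agent.VRR

open MeasureTheory Set Filter Topology
open Pool.Agent.MBS (E)

namespace GAU_

variable {n : ℕ}

/-- the Gaussian -/
noncomputable def ga (y : E n) : ℝ := Real.exp (-(Real.pi * ‖y‖ ^ 2))

theorem ga_pos (y : E n) : 0 < ga y := Real.exp_pos _

theorem ga_cont : Continuous (fun y : E n => ga y) := by
  unfold ga
  fun_prop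

theorem exp_int (a : ℝ) (ha : 0 < a) : Integrable (fun x : E n => Real.exp (-(a * ‖x‖ ^ 2))) := by
  have h := GaussianFourier.integrable_cexp_neg_mul_sq_norm_add (V := E n) (b := (a : ℂ))
    (by simpa using ha) 0 0
  refine h.norm.congr (ae_of_all _ fun x => ?_)
  show ‖Complex.exp (-(a : ℂ) * (‖x‖ : ℂ) ^ 2 + 0 * _)‖ = Real.exp (-(a * ‖x‖ ^ 2))
  rw [zero_mul, add_zero, Complex.norm_exp]
  congr 1
  have : (-(a : ℂ) * (‖x‖ : ℂ) ^ 2) = ((-(a * ‖x‖ ^ 2) : ℝ) : ℂ) := by
    push_cast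
    ring
  rw [this, Complex.ofReal_re]

/-- polynomials times the Gaussian are integrable -/
theorem pol_int (m : ℕ) : Integrable (fun y : E n => (1 + ‖y‖) ^ m * ga y) := by
  have hpi := Real.pi_gt_three
  have h1 := (exp_int (n := n) (Real.pi - 1) (by linarith)).const_mul
    ((m.factorial : ℝ) * Real.exp 2)
  refine h1.mono' (by
    refine Continuous.aestronglyMeasurable ?_
    exact ((continuous_const.add continuous_norm).pow m).mul ga_cont) (ae_of_all _ fun y => ?_)
  have hy : 0 ≤ ‖y‖ := norm_nonneg y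
  rw [Real.norm_of_nonneg (mul_nonneg (pow_nonneg (by linarith) m) (ga_pos y).le)]
  have h2 : (1 + ‖y‖) ^ m ≤ (m.factorial : ℝ) * Real.exp (1 + ‖y‖) := by
    have h3 := Real.pow_div_factorial_le_exp (1 + ‖y‖) (by linarith) m
    rw [div_le_iff₀ (by positivity)] at h3
    linarith
  have h4 : Real.exp (1 + ‖y‖) ≤ Real.exp 2 * Real.exp (‖y‖ ^ 2) := by
    rw [← Real.exp_add]
    refine Real.exp_le_exp.2 ?_
    nlinarith [sq_nonneg (‖y‖ - 1)]
  have h5 : Real.exp (‖y‖ ^ 2) * ga y = Real.exp (-((Real.pi - 1) * ‖y‖ ^ 2)) := by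
    unfold ga
    rw [← Real.exp_add]
    congr 1
    ring
  calc (1 + ‖y‖) ^ m * ga y ≤ ((m.factorial : ℝ) * (Real.exp 2 * Real.exp (‖y‖ ^ 2))) * ga y := by
        refine mul_le_mul_of_nonneg_right (h2.trans ?_) (ga_pos y).le
        exact mul_le_mul_of_nonneg_left h4 (by positivity)
    _ = (m.factorial : ℝ) * Real.exp 2 * (Real.exp (‖y‖ ^ 2) * ga y) := by ring
    _ = (m.factorial : ℝ) * Real.exp 2 * Real.exp (-((Real.pi - 1) * ‖y‖ ^ 2)) := by rw [h5]

/-- growth from homogeneity -/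
theorem growth {F : Type} [NormedAddCommGroup F] {f : E n → F} (hf : Continuous f) {l : ℕ}
    (h : ∀ (t : ℝ) (x : E n), 1 ≤ t → ‖f (t • x)‖ ≤ t ^ l * ‖f x‖) :
    ∃ C : ℝ, 0 ≤ C ∧ ∀ x, ‖f x‖ ≤ C * (1 + ‖x‖) ^ l := by
  obtain ⟨C, hC⟩ := (isCompact_closedBall (0 : E n) 1).exists_bound_of_continuousOn
    hf.continuousOn
  have hC0 : 0 ≤ C := (norm_nonneg _).trans (hC 0 (by simp))
  refine ⟨C, hC0, fun x => ?_⟩
  rcases le_total ‖x‖ 1 with h1 | h1
  · have h2 : ‖f x‖ ≤ C := hC x (by simpa using h1)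
    have h3 : (1 : ℝ) ≤ (1 + ‖x‖) ^ l := one_le_pow₀ (by linarith [norm_nonneg x])
    nlinarith
  · have hx : ‖x‖ ≠ 0 := by linarith
    have e1 : x = ‖x‖ • (‖x‖⁻¹ • x) := by rw [smul_smul, mul_inv_cancel₀ hx, one_smul]
    have h2 : ‖f (‖x‖⁻¹ • x)‖ ≤ C := by
      refine hC _ ?_
      rw [mem_closedBall_zero_iff, norm_smul, norm_inv, norm_norm, inv_mul_cancel₀ hx]
    calc ‖f x‖ = ‖f (‖x‖ • (‖x‖⁻¹ • x))‖ := by rw [← e1]
      _ ≤ ‖x‖ ^ l * ‖f (‖x‖⁻¹ • x)‖ := h _ _ h1
      _ ≤ ‖x‖ ^ l * C := by gcongr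
      _ ≤ (1 + ‖x‖) ^ l * C := by
        refine mul_le_mul_of_nonneg_right ?_ hC0
        exact pow_le_pow_left₀ (norm_nonneg x) (by linarith) l
      _ = C * (1 + ‖x‖) ^ l := mul_comm _ _

theorem hom1 {l : ℕ} {p : E n → ℂ} (hp : Har n l p) {t : ℝ} (ht : 0 ≤ t) (x : E n) :
    t • fderiv ℝ p (t • x) = t ^ l • fderiv ℝ p x := by
  have e1 : (fun x : E n => p (t • x)) = fun x => (t ^ l : ℝ) • p x := by
    funext x
    rw [hp.hom t x ht, Complex.real_smul]
    push_cast
    rfl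
  have e2 : fderiv ℝ (fun x : E n => p (t • x)) x = t • fderiv ℝ p (t • x) := by
    have hd : DifferentiableAt ℝ p (t • x) := (hp.c2.differentiable (by norm_num)) _
    have h1 : HasFDerivAt (fun x : E n => t • x) (t • ContinuousLinearMap.id ℝ (E n)) x :=
      (hasFDerivAt_id x).const_smul t
    have h2 := hd.hasFDerivAt.comp x h1
    rw [show (fun x : E n => p (t • x)) = p ∘ fun x : E n => t • x from rfl, h2.fderiv]
    ext v
    simp
  rw [← e2, e1]
  have hd : DifferentiableAt ℝ p x := (hp.c2.differentiable (by norm_num)) _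
  rw [fderiv_fun_const_smul hd]

theorem hom2 {l : ℕ} {p : E n → ℂ} (hp : Har n l p) {t : ℝ} (ht : 0 ≤ t) (x : E n) :
    t • t • fderiv ℝ (fderiv ℝ p) (t • x) = t ^ l • fderiv ℝ (fderiv ℝ p) x := by
  have hD : Differentiable ℝ (fderiv ℝ p) :=
    (hp.c2.fderiv_right (m := 1) (by norm_num)).differentiable (by norm_num)
  have e1 : (fun x : E n => t • fderiv ℝ p (t • x)) = fun x => (t ^ l : ℝ) • fderiv ℝ p x := by
    funext x
    exact hom1 hp ht x
  have e2 : fderiv ℝ (fun x : E n => t • fderiv ℝ p (t • x)) x =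
      t • t • fderiv ℝ (fderiv ℝ p) (t • x) := by
    have hd : DifferentiableAt ℝ (fderiv ℝ p) (t • x) := hD _
    have h1 : HasFDerivAt (fun x : E n => t • x) (t • ContinuousLinearMap.id ℝ (E n)) x :=
      (hasFDerivAt_id x).const_smul t
    have h2 := (hd.hasFDerivAt.comp x h1).const_smul t
    have h3 : fderiv ℝ (fun x : E n => t • fderiv ℝ p (t • x)) x = _ := h2.fderiv
    rw [h3]
    ext v w
    simp
  rw [← e2, e1, fderiv_fun_const_smul (hD x)]

theorem bounds {l : ℕ} {p : E n → ℂ} (hp : Har n l p) : ∃ C : ℝ, 0 ≤ C ∧ ∀ x,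
    ‖p x‖ ≤ C * (1 + ‖x‖) ^ l ∧ ‖fderiv ℝ p x‖ ≤ C * (1 + ‖x‖) ^ l := by
  have hc1 : ContDiff ℝ 1 (fderiv ℝ p) := hp.c2.fderiv_right (m := 1) (by norm_num)
  obtain ⟨C0, h0, g0⟩ := growth (l := l) hp.c2.continuous (fun t x ht => by
    rw [hp.hom t x (by linarith), norm_mul, norm_pow, Complex.norm_real,
      Real.norm_of_nonneg (by linarith : (0 : ℝ) ≤ t)])
  obtain ⟨C1, h1, g1⟩ := growth (l := l) hc1.continuous (fun t x ht => by
    have ht0 : (0 : ℝ) ≤ t := by linarith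
    have h := congrArg norm (hom1 hp ht0 x)
    rw [norm_smul, norm_smul, Real.norm_of_nonneg ht0, norm_pow, Real.norm_of_nonneg ht0] at h
    rw [← h]
    exact le_mul_of_one_le_left (norm_nonneg _) ht)
  refine ⟨C0 + C1, by positivity, fun x => ⟨(g0 x).trans ?_, (g1 x).trans ?_⟩⟩ <;>
  · have : (0 : ℝ) ≤ (1 + ‖x‖) ^ l := by positivity
    nlinarith

theorem bound2 {l : ℕ} {p : E n → ℂ} (hp : Har n l p) (v : E n) : ∃ C : ℝ, 0 ≤ C ∧ ∀ x,
    ‖fderiv ℝ (fderiv ℝ p) x v v‖ ≤ C * (1 + ‖x‖) ^ l := by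
  have hc1 : ContDiff ℝ 1 (fderiv ℝ p) := hp.c2.fderiv_right (m := 1) (by norm_num)
  have hc0 : Continuous (fderiv ℝ (fderiv ℝ p)) :=
    (hc1.fderiv_right (m := 0) (by norm_num)).continuous
  refine growth (F := ℂ) (f := fun x => fderiv ℝ (fderiv ℝ p) x v v) (l := l)
    ((hc0.clm_apply continuous_const).clm_apply continuous_const) (fun t x ht => ?_)
  have ht0 : (0 : ℝ) ≤ t := by linarith
  have h := congrArg (fun L : E n →L[ℝ] E n →L[ℝ] ℂ => ‖L v v‖) (hom2 hp ht0 x)
  simp only [ContinuousLinearMap.smul_apply, norm_smul, Real.norm_of_nonneg ht0, norm_pow] at h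
  rw [← h]
  exact (le_mul_of_one_le_left (norm_nonneg _) ht).trans
    (le_mul_of_one_le_left (mul_nonneg ht0 (norm_nonneg _)) ht)

theorem base_le (z y : E n) {t T : ℝ} (ht : |t| ≤ T) (l : ℕ) :
    (1 + ‖z + t • y‖) ^ l ≤ (1 + ‖z‖ + T) ^ l * (1 + ‖y‖) ^ l := by
  rw [← mul_pow]
  refine pow_le_pow_left₀ (by positivity) ?_ l
  have h1 : ‖z + t • y‖ ≤ ‖z‖ + |t| * ‖y‖ := by
    refine (norm_add_le _ _).trans ?_
    rw [norm_smul, Real.norm_eq_abs]
  have hT : 0 ≤ T := (abs_nonneg t).trans ht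
  have h2 : |t| * ‖y‖ ≤ T * ‖y‖ := mul_le_mul_of_nonneg_right ht (norm_nonneg y)
  nlinarith [norm_nonneg z, norm_nonneg y, mul_nonneg (norm_nonneg z) (norm_nonneg y)]

/-- integrability of functions with polynomial growth against the Gaussian -/
theorem int_of {F : Type} [NormedAddCommGroup F] [NormedSpace ℝ F] {f : E n → F} {C : ℝ} {l : ℕ}
    (hf : Continuous f) (h : ∀ x, ‖f x‖ ≤ C * (1 + ‖x‖) ^ l) :
    Integrable (fun y : E n => ga y • f y) := by
  refine ((pol_int (n := n) l).const_mul C).mono' (ga_cont.smul hf).aestronglyMeasurable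
    (ae_of_all _ fun y => ?_)
  rw [norm_smul, Real.norm_of_nonneg (ga_pos y).le]
  calc ga y * ‖f y‖ ≤ ga y * (C * (1 + ‖y‖) ^ l) :=
        mul_le_mul_of_nonneg_left (h y) (ga_pos y).le
    _ = C * ((1 + ‖y‖) ^ l * ga y) := by ring

/-- the Gaussian average -/
noncomputable def phi (p : E n → ℂ) (z : E n) (t : ℝ) : ℂ := ∫ y, p (z + t • y) * (ga y : ℂ)

theorem phi_deriv {l : ℕ} {p : E n → ℂ} (hp : Har n l p) (z : E n) (t : ℝ) :
    HasDerivAt (phi p z) (∫ y, fderiv ℝ p (z + t • y) y * (ga y : ℂ)) t := by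
  obtain ⟨C, hC, hb⟩ := bounds hp
  have hpd : Differentiable ℝ p := hp.c2.differentiable (by norm_num)
  have hc1 : ContDiff ℝ 1 (fderiv ℝ p) := hp.c2.fderiv_right (m := 1) (by norm_num)
  have hcga : Continuous (fun y : E n => ((ga y : ℝ) : ℂ)) :=
    Complex.continuous_ofReal.comp ga_cont
  have hcF : ∀ s : ℝ, Continuous (fun y : E n => p (z + s • y) * (ga y : ℂ)) := fun s =>
    (hp.c2.continuous.comp (by fun_prop)).mul hcga
  have hcF' : ∀ s : ℝ, Continuous (fun y : E n => fderiv ℝ p (z + s • y) y * (ga y : ℂ)) :=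
    fun s => ((hc1.continuous.comp (by fun_prop : Continuous fun y : E n => z + s • y)).clm_apply
      continuous_id).mul hcga
  set K : ℝ := 1 + ‖z‖ + (|t| + 1) with hK
  have hK0 : 0 ≤ K := by positivity
  refine (hasDerivAt_integral_of_dominated_loc_of_deriv_le (s := Metric.ball t 1)
    (F := fun s y => p (z + s • y) * (ga y : ℂ))
    (F' := fun s y => fderiv ℝ p (z + s • y) y * (ga y : ℂ))
    (bound := fun y => C * K ^ l * ((1 + ‖y‖) ^ (l + 1) * ga y)) (Metric.ball_mem_nhds t one_pos)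
    (Eventually.of_forall fun s => (hcF s).aestronglyMeasurable) ?_
    (hcF' t).aestronglyMeasurable ?_ ((pol_int (n := n) (l + 1)).const_mul _) ?_).2
  · refine ((pol_int (n := n) l).const_mul (C * K ^ l)).mono' (hcF t).aestronglyMeasurable
      (ae_of_all _ fun y => ?_)
    rw [norm_mul, Complex.norm_real, Real.norm_of_nonneg (ga_pos y).le]
    have h1 := (hb (z + t • y)).1
    have h2 := base_le z y (le_add_of_nonneg_right zero_le_one : |t| ≤ |t| + 1) l
    calc ‖p (z + t • y)‖ * ga y ≤ (C * (K ^ l * (1 + ‖y‖) ^ l)) * ga y := by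
          refine mul_le_mul_of_nonneg_right (h1.trans ?_) (ga_pos y).le
          exact mul_le_mul_of_nonneg_left h2 hC
      _ = C * K ^ l * ((1 + ‖y‖) ^ l * ga y) := by ring
  · refine ae_of_all _ fun y s hs => ?_
    have hs1 : |s| ≤ |t| + 1 := by
      rw [Metric.mem_ball, Real.dist_eq] at hs
      have := abs_sub_abs_le_abs_sub s t
      linarith
    rw [norm_mul, Complex.norm_real, Real.norm_of_nonneg (ga_pos y).le]
    have h1 := (hb (z + s • y)).2
    have h2 := base_le z y hs1 l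
    have h3 : ‖fderiv ℝ p (z + s • y) y‖ ≤ C * (K ^ l * (1 + ‖y‖) ^ l) * (1 + ‖y‖) := by
      refine (ContinuousLinearMap.le_opNorm _ _).trans ?_
      refine mul_le_mul (h1.trans (mul_le_mul_of_nonneg_left h2 hC)) (by linarith)
        (norm_nonneg _) (by positivity)
    calc ‖fderiv ℝ p (z + s • y) y‖ * ga y ≤ (C * (K ^ l * (1 + ‖y‖) ^ l) * (1 + ‖y‖)) * ga y :=
          mul_le_mul_of_nonneg_right h3 (ga_pos y).le
      _ = C * K ^ l * ((1 + ‖y‖) ^ (l + 1) * ga y) := by ring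
  · refine ae_of_all _ fun y s _ => ?_
    have h1 : HasDerivAt (fun s : ℝ => z + s • y) y s := by
      have h := ((hasDerivAt_id s).smul_const y).const_add z
      simpa using h
    have h2 := (hpd (z + s • y)).hasFDerivAt.comp_hasDerivAt s h1
    exact h2.mul_const _

theorem ga_fderiv (y : E n) : HasFDerivAt (fun y : E n => ((ga y : ℝ) : ℂ))
    (Complex.ofRealCLM.comp (ga y • (-(Real.pi • (2 • innerSL ℝ y))))) y := by
  have h1 : HasFDerivAt (fun y : E n => ‖y‖ ^ 2) (2 • innerSL ℝ y) y :=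
    (hasStrictFDerivAt_norm_sq y).hasFDerivAt
  have h2 : HasFDerivAt (fun y : E n => -(Real.pi * ‖y‖ ^ 2)) (-(Real.pi • (2 • innerSL ℝ y))) y :=
    (h1.const_mul Real.pi).neg
  exact Complex.ofRealCLM.hasFDerivAt.comp y h2.exp

theorem ibp {l : ℕ} {p : E n → ℂ} (hp : Har n l p) (z : E n) (t : ℝ) (v : E n) :
    Integrable (fun y => fderiv ℝ p (z + t • y) v * ((inner ℝ y v : ℝ) : ℂ) * (ga y : ℂ)) ∧
    Integrable (fun y => fderiv ℝ (fderiv ℝ p) (z + t • y) v v * (ga y : ℂ)) ∧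
    2 * (Real.pi : ℂ) * ∫ y, fderiv ℝ p (z + t • y) v * ((inner ℝ y v : ℝ) : ℂ) * (ga y : ℂ) =
      t * ∫ y, fderiv ℝ (fderiv ℝ p) (z + t • y) v v * (ga y : ℂ) := by
  obtain ⟨C, hC, hb⟩ := bounds hp
  obtain ⟨C2, hC2, hb2⟩ := bound2 hp v
  have hc1 : ContDiff ℝ 1 (fderiv ℝ p) := hp.c2.fderiv_right (m := 1) (by norm_num)
  have hD : Differentiable ℝ (fderiv ℝ p) := hc1.differentiable (by norm_num)
  have hc0 : Continuous (fderiv ℝ (fderiv ℝ p)) :=
    (hc1.fderiv_right (m := 0) (by norm_num)).continuous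
  have hlin : Continuous (fun y : E n => z + t • y) := by fun_prop
  set K : ℝ := 1 + ‖z‖ + |t| with hK
  have hK0 : 0 ≤ K := by positivity
  have i1 : Integrable
      (fun y => fderiv ℝ p (z + t • y) v * ((inner ℝ y v : ℝ) : ℂ) * (ga y : ℂ)) := by
    have h := int_of (n := n) (f := fun y => fderiv ℝ p (z + t • y) v * ((inner ℝ y v : ℝ) : ℂ))
      (C := C * K ^ l * ‖v‖ * ‖v‖) (l := l + 1)
      (((hc1.continuous.comp hlin).clm_apply continuous_const).mul
        (Complex.continuous_ofReal.comp (by fun_prop))) (fun y => by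
        rw [norm_mul, Complex.norm_real]
        have h1 : ‖fderiv ℝ p (z + t • y) v‖ ≤ C * (K ^ l * (1 + ‖y‖) ^ l) * ‖v‖ := by
          refine (ContinuousLinearMap.le_opNorm _ _).trans ?_
          refine mul_le_mul_of_nonneg_right ((hb _).2.trans ?_) (norm_nonneg v)
          exact mul_le_mul_of_nonneg_left (base_le z y le_rfl l) hC
        have h2 : ‖(inner ℝ y v : ℝ)‖ ≤ (1 + ‖y‖) * ‖v‖ := by
          refine (norm_inner_le_norm _ _).trans ?_
          exact mul_le_mul_of_nonneg_right (by linarith) (norm_nonneg v)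
        refine (mul_le_mul h1 h2 (norm_nonneg _) (by positivity)).trans (le_of_eq ?_)
        ring)
    refine h.congr (ae_of_all _ fun y => ?_)
    show ga y • _ = _
    rw [Complex.real_smul, mul_comm]
  have i2 : Integrable (fun y => fderiv ℝ (fderiv ℝ p) (z + t • y) v v * (ga y : ℂ)) := by
    have h := int_of (n := n) (f := fun y => fderiv ℝ (fderiv ℝ p) (z + t • y) v v)
      (C := C2 * K ^ l) (l := l)
      (((hc0.comp hlin).clm_apply continuous_const).clm_apply continuous_const) (fun y => by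
        refine ((hb2 _).trans (mul_le_mul_of_nonneg_left (base_le z y le_rfl l) hC2)).trans
          (le_of_eq ?_)
        ring)
    refine h.congr (ae_of_all _ fun y => ?_)
    show ga y • _ = _
    rw [Complex.real_smul, mul_comm]
  have i3 : Integrable (fun y => fderiv ℝ p (z + t • y) v * (ga y : ℂ)) := by
    have h := int_of (n := n) (f := fun y => fderiv ℝ p (z + t • y) v)
      (C := C * K ^ l * ‖v‖) (l := l)
      ((hc1.continuous.comp hlin).clm_apply continuous_const) (fun y => by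
        refine (ContinuousLinearMap.le_opNorm _ _).trans ?_
        refine (mul_le_mul_of_nonneg_right ((hb _).2.trans
          (mul_le_mul_of_nonneg_left (base_le z y le_rfl l) hC)) (norm_nonneg v)).trans
          (le_of_eq ?_)
        ring)
    refine h.congr (ae_of_all _ fun y => ?_)
    show ga y • _ = _
    rw [Complex.real_smul, mul_comm]
  refine ⟨i1, i2, ?_⟩
  have df : ∀ y, HasFDerivAt (fun y : E n => fderiv ℝ p (z + t • y) v)
      ((ContinuousLinearMap.apply ℝ ℂ v).comp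
        ((fderiv ℝ (fderiv ℝ p) (z + t • y)).comp (t • ContinuousLinearMap.id ℝ (E n)))) y := by
    intro y
    have h1 : HasFDerivAt (fun y : E n => z + t • y) (t • ContinuousLinearMap.id ℝ (E n)) y :=
      ((hasFDerivAt_id y).const_smul t).const_add z
    have h2 := (hD (z + t • y)).hasFDerivAt.comp y h1
    exact (ContinuousLinearMap.apply ℝ ℂ v).hasFDerivAt.comp y h2
  have ef : ∀ y, fderiv ℝ (fun y : E n => fderiv ℝ p (z + t • y) v) y v =
      t * fderiv ℝ (fderiv ℝ p) (z + t • y) v v := by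
    intro y
    rw [(df y).fderiv]
    simp
  have eg : ∀ y : E n, fderiv ℝ (fun y : E n => ((ga y : ℝ) : ℂ)) y v =
      -(2 * (Real.pi : ℂ)) * (((inner ℝ y v : ℝ) : ℂ) * (ga y : ℂ)) := by
    intro y
    rw [(ga_fderiv y).fderiv]
    simp
    ring
  have key := integral_mul_fderiv_eq_neg_fderiv_mul_of_integrable (μ := (volume : Measure (E n)))
    (f := fun y : E n => fderiv ℝ p (z + t • y) v) (g := fun y : E n => ((ga y : ℝ) : ℂ)) (v := v)
    (by
      refine (i2.const_mul (t : ℂ)).congr (ae_of_all _ fun y => ?_)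
      show (t : ℂ) * (_ * _) =
        fderiv ℝ (fun y : E n => fderiv ℝ p (z + t • y) v) y v * (ga y : ℂ)
      rw [ef y]
      ring)
    (by
      refine (i1.const_mul (-(2 * (Real.pi : ℂ)))).congr (ae_of_all _ fun y => ?_)
      show -(2 * (Real.pi : ℂ)) * (_ * _ * _) =
        fderiv ℝ p (z + t • y) v * fderiv ℝ (fun y : E n => ((ga y : ℝ) : ℂ)) y v
      rw [eg y]
      ring)
    i3 (fun y _ => (df y).differentiableAt) (fun y _ => (ga_fderiv y).differentiableAt)
  simp only [ef, eg] at key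
  have e1 : ∫ y, fderiv ℝ p (z + t • y) v *
      (-(2 * (Real.pi : ℂ)) * (((inner ℝ y v : ℝ) : ℂ) * (ga y : ℂ))) =
      -(2 * (Real.pi : ℂ) *
        ∫ y, fderiv ℝ p (z + t • y) v * ((inner ℝ y v : ℝ) : ℂ) * (ga y : ℂ)) := by
    rw [← integral_const_mul, ← integral_neg]
    refine integral_congr_ae (ae_of_all _ fun y => ?_)
    show _ = -(2 * (Real.pi : ℂ) * (_ * _ * _))
    ring
  have e2 : ∫ y, t * fderiv ℝ (fderiv ℝ p) (z + t • y) v v * (ga y : ℂ) =
      t * ∫ y, fderiv ℝ (fderiv ℝ p) (z + t • y) v v * (ga y : ℂ) := by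
    rw [← integral_const_mul]
    refine integral_congr_ae (ae_of_all _ fun y => ?_)
    show _ = (t : ℂ) * (_ * _)
    ring
  rw [e1, e2] at key
  exact neg_injective key

theorem phi_zero {l : ℕ} {p : E n → ℂ} (hp : Har n l p) (z : E n) (t : ℝ) :
    ∫ y, fderiv ℝ p (z + t • y) y * (ga y : ℂ) = 0 := by
  set b := stdOrthonormalBasis ℝ (E n) with hb
  have e1 : ∀ y : E n, fderiv ℝ p (z + t • y) y * (ga y : ℂ) =
      ∑ i, fderiv ℝ p (z + t • y) (b i) * ((inner ℝ y (b i) : ℝ) : ℂ) * (ga y : ℂ) := by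
    intro y
    have h1 : y = ∑ i, (inner ℝ (b i) y : ℝ) • b i := (b.sum_repr' y).symm
    have h2 : fderiv ℝ p (z + t • y) y =
        ∑ i, fderiv ℝ p (z + t • y) (b i) * ((inner ℝ y (b i) : ℝ) : ℂ) := by
      have h3 : fderiv ℝ p (z + t • y) y =
          fderiv ℝ p (z + t • y) (∑ i, (inner ℝ (b i) y : ℝ) • b i) := by rw [← h1]
      rw [h3, map_sum]
      refine Finset.sum_congr rfl fun i _ => ?_
      rw [map_smul, Complex.real_smul, real_inner_comm, mul_comm]
    rw [h2, Finset.sum_mul]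
  simp_rw [e1]
  rw [integral_finsetSum _ fun i _ => (ibp hp z t (b i)).1]
  have h2 : 2 * (Real.pi : ℂ) * ∑ i, ∫ y, fderiv ℝ p (z + t • y) (b i) *
      ((inner ℝ y (b i) : ℝ) : ℂ) * (ga y : ℂ) = 0 := by
    rw [Finset.mul_sum]
    rw [Finset.sum_congr rfl fun i _ => (ibp hp z t (b i)).2.2]
    rw [← Finset.mul_sum, ← integral_finsetSum _ fun i _ => (ibp hp z t (b i)).2.1]
    have h3 : ∀ y : E n, ∑ i, fderiv ℝ (fderiv ℝ p) (z + t • y) (b i) (b i) * (ga y : ℂ) = 0 := by
      intro y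
      rw [← Finset.sum_mul]
      have h4 := hp.lap (z + t • y)
      rw [InnerProductSpace.laplacian_eq_iteratedFDeriv_stdOrthonormalBasis] at h4
      simp only [iteratedFDeriv_two_apply] at h4
      have h5 : ∑ i, fderiv ℝ (fderiv ℝ p) (z + t • y) (b i) (b i) = 0 := by
        rw [← h4]
        rfl
      rw [h5, zero_mul]
    simp_rw [h3]
    simp
  have hpi : 2 * (Real.pi : ℂ) ≠ 0 :=
    mul_ne_zero two_ne_zero (by exact_mod_cast Real.pi_ne_zero)
  exact (mul_eq_zero.1 h2).resolve_left hpi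

theorem ga_one : ∫ y : E n, ga y = 1 := by
  have h := GaussianFourier.integral_rexp_neg_mul_sq_norm (V := E n) Real.pi_pos
  rw [div_self Real.pi_ne_zero, Real.one_rpow] at h
  rw [← h]
  refine integral_congr_ae (ae_of_all _ fun y => ?_)
  show Real.exp _ = Real.exp _
  congr 1
  ring

end GAU_

open GAU_ in
/-- **GAU** -/
theorem p_GAU : T_GAU := by
  intro n l p _ hp z
  have h1 : phi p z 1 = phi p z 0 := by
    refine is_const_of_deriv_eq_zero (fun t => (phi_deriv hp z t).differentiableAt) (fun t => ?_) 1 0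
    rw [(phi_deriv hp z t).deriv, phi_zero hp z t]
  have h2 : phi p z 0 = p z := by
    unfold phi
    have : ∀ y : E n, p (z + (0 : ℝ) • y) * (ga y : ℂ) = p z * (ga y : ℂ) := by
      intro y
      rw [zero_smul, add_zero]
    simp_rw [this]
    rw [integral_const_mul, integral_complex_ofReal, ga_one]
    simp
  have h3 : phi p z 1 = ∫ y, p (z + y) * ((Real.exp (-(Real.pi * ‖y‖ ^ 2)) : ℝ) : ℂ) := by
    unfold phi ga
    simp_rw [one_smul]
  rw [← h3, h1, h2]

end Pool.Agent.VRR
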