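import Pool.Agent.VRR.Targets3

set_option autoImplicit false

/-!
# VRR-HBO: the Hecke-Bochner formula
-/

namespace Pool.Agent.VRR

open MeasureTheory FourierTransform Set Filter Topology
open scoped ENNReal NNReal ComplexConjugate
open Pool.Agent.MBS (E ex)

namespace HBO_

lemma growth {n l : ℕ} {p : E n → ℂ} (hp : Har n l p) :
    ∃ C : ℝ, 0 ≤ C ∧ ∀ x, ‖p x‖ ≤ C * (1 + ‖x‖) ^ l := by
  obtain ⟨C, hC⟩ := (isCompact_closedBall (0 : E n) 1).exists_bound_of_continuousOn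
    hp.c2.continuous.continuousOn
  have hC0 : 0 ≤ C := (norm_nonneg _).trans (hC 0 (by simp))
  refine ⟨C, hC0, fun x => ?_⟩
  have h1 : 0 < 1 + ‖x‖ := by positivity
  have h2 := hp.hom (1 + ‖x‖) ((1 + ‖x‖)⁻¹ • x) h1.le
  rw [smul_smul, mul_inv_cancel₀ h1.ne', one_smul] at h2
  rw [h2, norm_mul, norm_pow, Complex.norm_real, Real.norm_of_nonneg h1.le, mul_comm]
  refine mul_le_mul_of_nonneg_right (hC _ ?_) (by positivity)
  rw [mem_closedBall_zero_iff, norm_smul, Real.norm_of_nonneg (inv_nonneg.2 h1.le),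
    inv_mul_le_iff₀ h1]
  linarith [norm_nonneg x]

lemma exp_bound (k : ℕ) (B : ℝ) : ∃ K : ℝ, 0 ≤ K ∧ ∀ t : ℝ, 0 ≤ t →
    (1 + t) ^ k * Real.exp (B * t) * Real.exp (-(Real.pi * t ^ 2)) ≤
      K * Real.exp (-(Real.pi / 2 * t ^ 2)) := by
  refine ⟨(Nat.factorial k : ℝ) * Real.exp (1 + (B + 1) ^ 2 / (2 * Real.pi)), by positivity,
    fun t ht => ?_⟩
  have h1 : (1 + t) ^ k ≤ (Nat.factorial k : ℝ) * Real.exp (1 + t) := by
    have := Real.pow_div_factorial_le_exp (1 + t) (by linarith) k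
    rwa [div_le_iff₀ (by positivity), mul_comm] at this
  have hpi := Real.pi_pos
  have h2 : (1 + t) + B * t + -(Real.pi * t ^ 2) ≤
      1 + (B + 1) ^ 2 / (2 * Real.pi) + -(Real.pi / 2 * t ^ 2) := by
    have h3 : 0 ≤ (Real.pi * t - (B + 1)) ^ 2 / (2 * Real.pi) := by positivity
    have h4 : (Real.pi * t - (B + 1)) ^ 2 / (2 * Real.pi) =
        Real.pi / 2 * t ^ 2 - (B + 1) * t + (B + 1) ^ 2 / (2 * Real.pi) := by
      field_simp
      ring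
    linarith
  calc (1 + t) ^ k * Real.exp (B * t) * Real.exp (-(Real.pi * t ^ 2))
      ≤ ((Nat.factorial k : ℝ) * Real.exp (1 + t)) * Real.exp (B * t) *
        Real.exp (-(Real.pi * t ^ 2)) := by gcongr
    _ = (Nat.factorial k : ℝ) * Real.exp ((1 + t) + B * t + -(Real.pi * t ^ 2)) := by
        rw [Real.exp_add ((1 + t) + B * t), Real.exp_add (1 + t)]
        ring
    _ ≤ (Nat.factorial k : ℝ) * Real.exp (1 + (B + 1) ^ 2 / (2 * Real.pi) +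
        -(Real.pi / 2 * t ^ 2)) := by gcongr
    _ = _ := by
        rw [Real.exp_add (1 + (B + 1) ^ 2 / (2 * Real.pi))]
        ring

lemma gauss_int (n : ℕ) : Integrable (fun y : E n => Real.exp (-(Real.pi / 2 * ‖y‖ ^ 2))) := by
  have hb : 0 < (((Real.pi / 2 : ℝ) : ℂ)).re := by
    rw [Complex.ofReal_re]
    positivity
  have h := (GaussianFourier.integrable_cexp_neg_mul_sq_norm_add (V := E n) hb 0 0).norm
  refine h.congr (Eventually.of_forall fun y => ?_)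
  have : (-((Real.pi / 2 : ℝ) : ℂ) * (‖y‖ : ℂ) ^ 2 + 0 * ((inner ℝ (0 : E n) y : ℝ) : ℂ)) =
      ((-(Real.pi / 2 * ‖y‖ ^ 2) : ℝ) : ℂ) := by
    push_cast
    ring
  change ‖Complex.exp (-((Real.pi / 2 : ℝ) : ℂ) * (‖y‖ : ℂ) ^ 2 +
    0 * ((inner ℝ (0 : E n) y : ℝ) : ℂ))‖ = _
  rw [this, Complex.norm_exp, Complex.ofReal_re]

/-- the integrand -/
noncomputable def F {n : ℕ} (p : E n → ℂ) (ξ : E n) (s : ℂ) (y : E n) : ℂ :=
  p y * ((Real.exp (-(Real.pi * ‖y‖ ^ 2)) : ℝ) : ℂ) *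
    Complex.exp (2 * Real.pi * s * ((inner ℝ ξ y : ℝ) : ℂ))

/-- its derivative in `s` -/
noncomputable def F' {n : ℕ} (p : E n → ℂ) (ξ : E n) (s : ℂ) (y : E n) : ℂ :=
  p y * ((Real.exp (-(Real.pi * ‖y‖ ^ 2)) : ℝ) : ℂ) *
    (Complex.exp (2 * Real.pi * s * ((inner ℝ ξ y : ℝ) : ℂ)) *
      (2 * Real.pi * ((inner ℝ ξ y : ℝ) : ℂ)))

lemma exp_norm {n : ℕ} (ξ y : E n) (s : ℂ) (M : ℝ) (hM : ‖s‖ ≤ M) :
    ‖Complex.exp (2 * Real.pi * s * ((inner ℝ ξ y : ℝ) : ℂ))‖ ≤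
      Real.exp (2 * Real.pi * M * ‖ξ‖ * ‖y‖) := by
  refine (Complex.norm_exp_le_exp_norm _).trans (Real.exp_le_exp.2 ?_)
  have h1 : |inner ℝ ξ y| ≤ ‖ξ‖ * ‖y‖ := abs_real_inner_le_norm ξ y
  have hpi := Real.pi_pos
  rw [norm_mul, norm_mul, norm_mul, Complex.norm_real, Complex.norm_real,
    Real.norm_of_nonneg hpi.le, Real.norm_eq_abs, Complex.norm_two]
  have hM0 : 0 ≤ M := (norm_nonneg s).trans hM
  calc 2 * Real.pi * ‖s‖ * |inner ℝ ξ y| ≤ 2 * Real.pi * M * (‖ξ‖ * ‖y‖) := by gcongr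
    _ = _ := by ring

lemma cont_F {n : ℕ} {p : E n → ℂ} (hp : Continuous p) (ξ : E n) (s : ℂ) :
    Continuous (F p ξ s) := by
  unfold F
  fun_prop

lemma cont_F' {n : ℕ} {p : E n → ℂ} (hp : Continuous p) (ξ : E n) (s : ℂ) :
    Continuous (F' p ξ s) := by
  unfold F'
  fun_prop

lemma int_F {n l : ℕ} {p : E n → ℂ} (hp : Har n l p) (ξ : E n) (s : ℂ) :
    Integrable (F p ξ s) := by
  obtain ⟨C, hC0, hC⟩ := growth hp
  obtain ⟨K, hK0, hK⟩ := exp_bound l (2 * Real.pi * ‖s‖ * ‖ξ‖)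
  refine Integrable.mono' ((gauss_int n).const_mul (C * K))
    (cont_F hp.c2.continuous ξ s).aestronglyMeasurable (Eventually.of_forall fun y => ?_)
  unfold F
  rw [norm_mul, norm_mul, Complex.norm_real, Real.norm_of_nonneg (Real.exp_pos _).le]
  have h1 := exp_norm ξ y s ‖s‖ le_rfl
  calc ‖p y‖ * Real.exp (-(Real.pi * ‖y‖ ^ 2)) *
      ‖Complex.exp (2 * Real.pi * s * ((inner ℝ ξ y : ℝ) : ℂ))‖
      ≤ (C * (1 + ‖y‖) ^ l) * Real.exp (-(Real.pi * ‖y‖ ^ 2)) *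
        Real.exp (2 * Real.pi * ‖s‖ * ‖ξ‖ * ‖y‖) := by
        gcongr
        exact hC y
    _ = C * ((1 + ‖y‖) ^ l * Real.exp (2 * Real.pi * ‖s‖ * ‖ξ‖ * ‖y‖) *
        Real.exp (-(Real.pi * ‖y‖ ^ 2))) := by ring
    _ ≤ C * (K * Real.exp (-(Real.pi / 2 * ‖y‖ ^ 2))) :=
        mul_le_mul_of_nonneg_left (hK _ (norm_nonneg y)) hC0
    _ = _ := by ring

lemma diff_F {n l : ℕ} {p : E n → ℂ} (hp : Har n l p) (ξ : E n) :
    Differentiable ℂ fun s : ℂ => ∫ y, F p ξ s y := by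
  intro s₀
  obtain ⟨C, hC0, hC⟩ := growth hp
  obtain ⟨K, hK0, hK⟩ := exp_bound (l + 1) (2 * Real.pi * (‖s₀‖ + 1) * ‖ξ‖)
  refine (hasDerivAt_integral_of_dominated_loc_of_deriv_le (F' := F' p ξ)
    (bound := fun y => (C * K * (2 * Real.pi * ‖ξ‖)) * Real.exp (-(Real.pi / 2 * ‖y‖ ^ 2)))
    (Metric.ball_mem_nhds s₀ one_pos) ?_ (int_F hp ξ s₀) ?_ ?_ ?_ ?_).2.differentiableAt
  · exact Eventually.of_forall fun s => (cont_F hp.c2.continuous ξ s).aestronglyMeasurable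
  · exact (cont_F' hp.c2.continuous ξ s₀).aestronglyMeasurable
  · refine Eventually.of_forall fun y s hs => ?_
    have hs' : ‖s‖ ≤ ‖s₀‖ + 1 := by
      have h1 : ‖s - s₀‖ < 1 := by
        rw [← dist_eq_norm]
        exact hs
      have h2 := norm_sub_norm_le s s₀
      linarith
    have h1 := exp_norm ξ y s _ hs'
    have h2 : |inner ℝ ξ y| ≤ ‖ξ‖ * ‖y‖ := abs_real_inner_le_norm ξ y
    have hpi := Real.pi_pos
    unfold F'
    rw [norm_mul, norm_mul, norm_mul, Complex.norm_real, Real.norm_of_nonneg (Real.exp_pos _).le,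
      norm_mul, norm_mul, Complex.norm_real, Complex.norm_real, Real.norm_eq_abs (inner ℝ ξ y),
      Real.norm_of_nonneg hpi.le, Complex.norm_two]
    calc ‖p y‖ * Real.exp (-(Real.pi * ‖y‖ ^ 2)) *
        (‖Complex.exp (2 * Real.pi * s * ((inner ℝ ξ y : ℝ) : ℂ))‖ *
          (2 * Real.pi * |inner ℝ ξ y|))
        ≤ (C * (1 + ‖y‖) ^ l) * Real.exp (-(Real.pi * ‖y‖ ^ 2)) *
          (Real.exp (2 * Real.pi * (‖s₀‖ + 1) * ‖ξ‖ * ‖y‖) *
            (2 * Real.pi * (‖ξ‖ * (1 + ‖y‖)))) := by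
          gcongr
          · exact hC y
          · refine h2.trans ?_
            gcongr
            linarith
      _ = C * (2 * Real.pi * ‖ξ‖) * ((1 + ‖y‖) ^ (l + 1) *
          Real.exp (2 * Real.pi * (‖s₀‖ + 1) * ‖ξ‖ * ‖y‖) *
          Real.exp (-(Real.pi * ‖y‖ ^ 2))) := by ring
      _ ≤ C * (2 * Real.pi * ‖ξ‖) * (K * Real.exp (-(Real.pi / 2 * ‖y‖ ^ 2))) :=
          mul_le_mul_of_nonneg_left (hK _ (norm_nonneg y)) (by positivity)
      _ = _ := by ring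
  · exact (gauss_int n).const_mul _
  · refine Eventually.of_forall fun y s _ => ?_
    unfold F F'
    refine HasDerivAt.const_mul _ ?_
    refine HasDerivAt.cexp ?_
    have h := ((hasDerivAt_id s).const_mul (2 * Real.pi : ℂ)).mul_const ((inner ℝ ξ y : ℝ) : ℂ)
    simpa using h

lemma real_F {n l : ℕ} {p : E n → ℂ} (hn : 1 ≤ n) (hG : T_GAU) (hp : Har n l p) (ξ : E n)
    (s : ℝ) (hs : 0 ≤ s) : ∫ y, F p ξ (s : ℂ) y =
      Complex.exp (Real.pi * (s : ℂ) ^ 2 * (‖ξ‖ : ℂ) ^ 2) * (s : ℂ) ^ l * p ξ := by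
  have h1 : ∀ y, F p ξ (s : ℂ) y = Complex.exp (Real.pi * (s : ℂ) ^ 2 * (‖ξ‖ : ℂ) ^ 2) *
      (fun u : E n => p (s • ξ + u) * ((Real.exp (-(Real.pi * ‖u‖ ^ 2)) : ℝ) : ℂ))
        (y - s • ξ) := by
    intro y
    simp only [add_sub_cancel]
    have h2 : ‖y - s • ξ‖ ^ 2 = ‖y‖ ^ 2 - 2 * (s * inner ℝ ξ y) + s ^ 2 * ‖ξ‖ ^ 2 := by
      rw [norm_sub_sq_real, inner_smul_right, real_inner_comm, norm_smul, Real.norm_of_nonneg hs]
      ring
    unfold F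
    rw [h2, Complex.ofReal_exp, Complex.ofReal_exp, mul_assoc, ← Complex.exp_add, mul_left_comm,
      ← Complex.exp_add]
    congr 2
    push_cast
    ring
  rw [integral_congr_ae (Eventually.of_forall h1), integral_const_mul,
    integral_sub_right_eq_self (fun u : E n => p (s • ξ + u) *
      ((Real.exp (-(Real.pi * ‖u‖ ^ 2)) : ℝ) : ℂ)) (s • ξ), hG n l p hn hp (s • ξ),
    hp.hom s ξ hs]
  ring

end HBO_

open HBO_ in
/-- the Hecke-Bochner formula -/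
theorem p_HBO (h1 : T_GAU) : T_HBO := by
  intro n l p hn hp ξ
  have hA : AnalyticOnNhd ℂ (fun s : ℂ => ∫ y, F p ξ s y) univ :=
    fun z _ => (diff_F hp ξ).analyticAt z
  have hB : AnalyticOnNhd ℂ (fun s : ℂ => Complex.exp (Real.pi * s ^ 2 * (‖ξ‖ : ℂ) ^ 2) *
      s ^ l * p ξ) univ := by
    intro z _
    have hd : Differentiable ℂ (fun s : ℂ => Complex.exp (Real.pi * s ^ 2 * (‖ξ‖ : ℂ) ^ 2) *
      s ^ l * p ξ) := by fun_prop
    exact hd.analyticAt z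
  have hT : Tendsto (fun s : ℝ => (s : ℂ)) (𝓝[>] 0) (𝓝[≠] 0) := by
    refine tendsto_nhdsWithin_iff.2 ⟨?_, ?_⟩
    · have : Tendsto (fun s : ℝ => (s : ℂ)) (𝓝 0) (𝓝 ((0 : ℝ) : ℂ)) :=
        Complex.continuous_ofReal.tendsto 0
      rw [Complex.ofReal_zero] at this
      exact this.mono_left nhdsWithin_le_nhds
    · filter_upwards [self_mem_nhdsWithin] with s hs
      simpa using (ne_of_gt hs : s ≠ 0)
  have hE : ∀ᶠ s : ℝ in 𝓝[>] 0, (∫ y, F p ξ (s : ℂ) y) =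
      Complex.exp (Real.pi * (s : ℂ) ^ 2 * (‖ξ‖ : ℂ) ^ 2) * (s : ℂ) ^ l * p ξ := by
    filter_upwards [self_mem_nhdsWithin] with s hs
    exact real_F hn h1 hp ξ s (le_of_lt hs)
  have hF := AnalyticOnNhd.eq_of_frequently_eq hA hB (hT.frequently hE.frequently)
  have h2 := congrFun hF Complex.I
  have h3 : ∫ y, p y * ((Real.exp (-(Real.pi * ‖y‖ ^ 2)) : ℝ) : ℂ) * ex ξ y =
      ∫ y, F p ξ Complex.I y := by
    rfl
  rw [h3]
  refine h2.trans ?_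
  have h4 : (Real.pi * Complex.I ^ 2 * (‖ξ‖ : ℂ) ^ 2 : ℂ) = ((-(Real.pi * ‖ξ‖ ^ 2) : ℝ) : ℂ) := by
    rw [Complex.I_sq]
    push_cast
    ring
  simp only [h4, Complex.ofReal_exp]
  ring

end Pool.Agent.VRR
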