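import Pool.Agent.VRR.Targets3
import Pool.Agent.VRC.P_RDV

set_option autoImplicit false

/-!
# VRR, target HCO: one spherical harmonic
-/

namespace Pool.Agent.VRR

open MeasureTheory FourierTransform Set Filter Topology
open scoped ENNReal NNReal ComplexConjugate
open Pool.Agent.MBS (E ex)
open Pool.Agent.CRN (sg SH T_POLN)
open Pool.Agent.VRC (Pure)
open Pool.Agent.VRC.RDV_ (intEx int_cont int_ball sh_sub sh_meas)

namespace HCO_

variable {n : ℕ}

/-! ### the function `a(|ξ|) Y(ξ/|ξ|)` -/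

theorem rh_meas {a : ℝ → ℂ} (ha : Measurable a) {Y : E n → ℂ} (hY : Continuous Y) :
    Measurable (rh a Y) := by
  unfold rh
  refine (ha.comp measurable_norm).mul (hY.measurable.comp ?_)
  exact measurable_norm.inv.smul measurable_id

theorem rh_smul (a : ℝ → ℂ) (Y : E n → ℂ) {ρ : ℝ} (hρ : 0 < ρ) {θ : E n} (hθ : ‖θ‖ = 1) :
    rh a Y (ρ • θ) = a ρ * Y θ := by
  unfold rh
  rw [norm_smul, Real.norm_of_nonneg hρ.le, hθ, mul_one, smul_smul, inv_mul_cancel₀ hρ.ne',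
    one_smul]

theorem rh_pure {l : ℕ} (a : ℝ → ℂ) {Y : E n → ℂ} (hY : Har n l Y) : Pure n l (rh a Y) := by
  intro ρ hρ
  refine ⟨a ρ • Y, ?_, ?_, ?_, ?_⟩
  · exact contDiff_const.smul hY.c2
  · intro x
    rw [InnerProductSpace.laplacian_smul (a ρ) hY.c2.contDiffAt, hY.lap, smul_zero]
  · intro t x ht
    rw [Pi.smul_apply, Pi.smul_apply, hY.hom t x ht, smul_eq_mul, smul_eq_mul]
    ring
  · intro θ hθ
    rw [rh_smul a Y hρ hθ, Pi.smul_apply, smul_eq_mul]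

theorem rh_norm (h4 : T_POLN) (hn : 0 < n) {a : ℝ → ℂ} (ha : Measurable a) {Y : E n → ℂ}
    (hY : Continuous Y) (h1 : ∫⁻ θ, ‖Y (θ : E n)‖ₑ ^ 2 ∂(sg n) = 1) :
    ∫⁻ ξ, ‖rh a Y ξ‖ₑ ^ 2 = nn n a := by
  rw [(h4 n hn).1 _ ((rh_meas ha hY).enorm.pow_const 2)]
  unfold nn
  refine setLIntegral_congr_fun measurableSet_Ioi fun ρ hρ => ?_
  have hρ0 : (0 : ℝ) < ρ := hρ
  have e : ∀ ω : Metric.sphere (0 : E n) 1, ENNReal.ofReal (ρ ^ (n - 1)) *
      ‖rh a Y (ρ • (ω : E n))‖ₑ ^ 2 =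
      (‖a ρ‖ₑ ^ 2 * ENNReal.ofReal (ρ ^ (n - 1))) * ‖Y (ω : E n)‖ₑ ^ 2 := by
    intro ω
    rw [rh_smul a Y hρ0 (mem_sphere_zero_iff_norm.1 ω.2), enorm_mul, mul_pow]
    ring
  simp only [e]
  rw [lintegral_const_mul, h1, mul_one]
  exact ((hY.comp continuous_subtype_val).measurable.enorm).pow_const 2

/-! ### the coefficient -/

/-- the radial weight -/
noncomputable def wt (n : ℕ) (a : ℝ → ℂ) (ρ : ℝ) : ℂ := ((ρ ^ (n - 1) : ℝ) : ℂ) * a ρ

theorem wt_meas {a : ℝ → ℂ} (ha : Measurable a) : Measurable (wt n a) := by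
  unfold wt
  refine Measurable.mul ?_ ha
  exact (Complex.continuous_ofReal.comp (continuous_pow (n - 1))).measurable

theorem wt_int {a : ℝ → ℂ} (ha : Measurable a) (hf : nn n a ≠ ⊤) (T : ℝ) :
    IntegrableOn (wt n a) (Ioc 0 T) := by
  refine ⟨(wt_meas ha).aestronglyMeasurable, ?_⟩
  have h1 : ∀ x : ℝ≥0∞, x ≤ 1 + x ^ 2 := by
    intro x
    rcases le_total x 1 with hx | hx
    · exact hx.trans le_self_add
    · calc x = x * 1 := (mul_one x).symm
        _ ≤ x * x := by gcongr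
        _ = x ^ 2 := (sq x).symm
        _ ≤ 1 + x ^ 2 := le_add_self
  unfold HasFiniteIntegral
  calc ∫⁻ ρ in Ioc (0 : ℝ) T, ‖wt n a ρ‖ₑ
      ≤ ∫⁻ ρ in Ioc (0 : ℝ) T, (ENNReal.ofReal (T ^ (n - 1)) +
          ‖a ρ‖ₑ ^ 2 * ENNReal.ofReal (ρ ^ (n - 1))) := by
        refine setLIntegral_mono' measurableSet_Ioc fun ρ hρ => ?_
        have hp : (0 : ℝ) ≤ ρ ^ (n - 1) := pow_nonneg hρ.1.le _
        have hT : ρ ^ (n - 1) ≤ T ^ (n - 1) := pow_le_pow_left₀ hρ.1.le hρ.2 _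
        unfold wt
        rw [enorm_mul]
        have e1 : ‖((ρ ^ (n - 1) : ℝ) : ℂ)‖ₑ = ENNReal.ofReal (ρ ^ (n - 1)) := by
          rw [← ofReal_norm, Complex.norm_real, Real.norm_of_nonneg hp]
        rw [e1]
        calc ENNReal.ofReal (ρ ^ (n - 1)) * ‖a ρ‖ₑ
            ≤ ENNReal.ofReal (ρ ^ (n - 1)) * (1 + ‖a ρ‖ₑ ^ 2) := by
              gcongr
              exact h1 _
          _ = ENNReal.ofReal (ρ ^ (n - 1)) + ‖a ρ‖ₑ ^ 2 * ENNReal.ofReal (ρ ^ (n - 1)) := by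
              ring
          _ ≤ _ := by
              gcongr
    _ = ENNReal.ofReal (T ^ (n - 1)) * volume (Ioc (0 : ℝ) T) +
          ∫⁻ ρ in Ioc (0 : ℝ) T, ‖a ρ‖ₑ ^ 2 * ENNReal.ofReal (ρ ^ (n - 1)) := by
        rw [lintegral_add_left measurable_const, setLIntegral_const]
    _ < ⊤ := by
        refine ENNReal.add_lt_top.2 ⟨ENNReal.mul_lt_top ENNReal.ofReal_lt_top ?_, ?_⟩
        · rw [Real.volume_Ioc]
          exact ENNReal.ofReal_lt_top
        · refine lt_of_le_of_lt (lintegral_mono_set ?_) (lt_top_iff_ne_top.2 hf)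
          exact fun ρ hρ => hρ.1

/-- the coefficient of the ball integral -/
noncomputable def cf (n : ℕ) (a c₀ : ℝ → ℂ) (R r : ℝ) : ℂ :=
  ∫ ρ in Ioc 0 R, wt n a ρ * c₀ (r * ρ)

theorem cf_cont {a c₀ : ℝ → ℂ} (ha : Measurable a) (hf : nn n a ≠ ⊤) (hc : Continuous c₀) :
    Continuous (fun z : ℝ × ℝ => cf n a c₀ z.1 z.2) := by
  rw [continuous_iff_continuousAt]
  rintro ⟨R0, r0⟩
  set T : ℝ := |R0| + 1 with hT
  set S : ℝ := |r0| + 1 with hS
  have hT0 : 0 < T := by positivity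
  have hS0 : 0 < S := by positivity
  obtain ⟨M, hM⟩ := (isCompact_Icc (a := -(S * T)) (b := S * T)).exists_bound_of_continuousOn
    hc.continuousOn
  have e : ∀ z : ℝ × ℝ, cf n a c₀ z.1 z.2 =
      ∫ ρ, (Ioc 0 z.1).indicator (fun ρ => wt n a ρ * c₀ (z.2 * ρ)) ρ := fun z =>
    (integral_indicator measurableSet_Ioc).symm
  suffices hmain : Tendsto (fun z : ℝ × ℝ =>
      ∫ ρ, (Ioc 0 z.1).indicator (fun ρ => wt n a ρ * c₀ (z.2 * ρ)) ρ) (𝓝 (R0, r0))
      (𝓝 (∫ ρ, (Ioc 0 R0).indicator (fun ρ => wt n a ρ * c₀ (r0 * ρ)) ρ)) by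
    have e2 : (fun z : ℝ × ℝ => cf n a c₀ z.1 z.2) = fun z : ℝ × ℝ =>
        ∫ ρ, (Ioc 0 z.1).indicator (fun ρ => wt n a ρ * c₀ (z.2 * ρ)) ρ := funext e
    show Tendsto _ _ _
    rw [e2]
    exact hmain
  refine tendsto_integral_filter_of_dominated_convergence
    (fun ρ => (Ioc 0 T).indicator (fun ρ => ‖wt n a ρ‖ * M) ρ) ?_ ?_ ?_ ?_
  · refine Eventually.of_forall fun z => ?_
    refine Measurable.aestronglyMeasurable ?_
    refine Measurable.indicator ?_ measurableSet_Ioc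
    exact (wt_meas ha).mul (hc.measurable.comp (measurable_const.mul measurable_id))
  · have h1 : ∀ᶠ z : ℝ × ℝ in 𝓝 (R0, r0), z.1 < T ∧ |z.2| < S := by
      have h2 : ∀ᶠ z : ℝ × ℝ in 𝓝 (R0, r0), z.1 < T :=
        (continuous_fst.tendsto (R0, r0)).eventually_lt_const
          (lt_of_le_of_lt (le_abs_self R0) (lt_add_one _))
      have h3 : ∀ᶠ z : ℝ × ℝ in 𝓝 (R0, r0), |z.2| < S :=
        (continuous_snd.abs.tendsto (R0, r0)).eventually_lt_const (lt_add_one _)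
      exact h2.and h3
    filter_upwards [h1] with z hz
    refine ae_of_all _ fun ρ => ?_
    by_cases hρ : ρ ∈ Ioc 0 z.1
    · have hρT : ρ ∈ Ioc 0 T := ⟨hρ.1, hρ.2.trans hz.1.le⟩
      rw [indicator_of_mem hρ, indicator_of_mem hρT, norm_mul]
      refine mul_le_mul_of_nonneg_left (hM _ ?_) (norm_nonneg _)
      have h4 : |z.2 * ρ| ≤ S * T := by
        rw [abs_mul, abs_of_pos hρ.1]
        exact mul_le_mul hz.2.le hρT.2 hρ.1.le hS0.le
      exact abs_le.1 h4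
    · rw [indicator_of_notMem hρ, norm_zero]
      refine indicator_nonneg (fun ρ _ => ?_) _
      exact mul_nonneg (norm_nonneg _) ((norm_nonneg _).trans (hM 0 ⟨by nlinarith, by positivity⟩))
  · have hI : IntegrableOn (fun ρ => ‖wt n a ρ‖ * M) (Ioc 0 T) := (wt_int ha hf T).norm.mul_const M
    exact hI.integrable_indicator measurableSet_Ioc
  · have h0 : ∀ᵐ ρ : ℝ, ρ ≠ R0 := by
      have : (volume : Measure ℝ) {R0} = 0 := measure_singleton _
      exact compl_mem_ae_iff.2 this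
    filter_upwards [h0] with ρ hρ
    by_cases hρ1 : ρ ∈ Ioc 0 R0
    · have h1 : ρ < R0 := lt_of_le_of_ne hρ1.2 hρ
      have h2 : ∀ᶠ z : ℝ × ℝ in 𝓝 (R0, r0), ρ < z.1 :=
        (continuous_fst.tendsto (R0, r0)).eventually_const_lt h1
      have h3 : Tendsto (fun z : ℝ × ℝ => wt n a ρ * c₀ (z.2 * ρ)) (𝓝 (R0, r0))
          (𝓝 (wt n a ρ * c₀ (r0 * ρ))) := by
        have h4 : Continuous (fun z : ℝ × ℝ => wt n a ρ * c₀ (z.2 * ρ)) :=
          continuous_const.mul (hc.comp (continuous_snd.mul continuous_const))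
        exact h4.tendsto (R0, r0)
      rw [indicator_of_mem hρ1]
      refine h3.congr' ?_
      filter_upwards [h2] with z hz
      rw [indicator_of_mem (show ρ ∈ Ioc 0 z.1 from ⟨hρ1.1, hz.le⟩)]
    · rw [indicator_of_notMem hρ1]
      refine tendsto_const_nhds.congr' ?_
      rcases le_or_gt ρ 0 with h1 | h1
      · refine Eventually.of_forall fun z => ?_
        have hz0 : ρ ∉ Ioc 0 z.1 := fun h => absurd h.1 (not_lt.2 h1)
        exact (indicator_of_notMem hz0 _).symm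
      · have h2 : R0 < ρ := by
          by_contra h3
          exact hρ1 ⟨h1, not_lt.1 h3⟩
        have h4 : ∀ᶠ z : ℝ × ℝ in 𝓝 (R0, r0), z.1 < ρ :=
          (continuous_fst.tendsto (R0, r0)).eventually_lt_const h2
        filter_upwards [h4] with z hz
        have hz0 : ρ ∉ Ioc 0 z.1 := fun h => absurd h.2 (not_le.2 hz)
        exact (indicator_of_notMem hz0 _).symm

/-! ### the ball integral -/

theorem BN_eq (h4 : T_POLN) (hn : 0 < n) {a c₀ : ℝ → ℂ} {Y : E n → ℂ}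
    (hc : ∀ (s : ℝ) (θ : E n), 0 ≤ s → ‖θ‖ = 1 →
      ∫ ω, Y (ω : E n) * ex (s • θ) (ω : E n) ∂(sg n) = c₀ s * Y θ)
    (h : ∀ R : ℝ, IntegrableOn (rh a Y) (Metric.closedBall (0 : E n) R)) (R : ℝ) {r : ℝ}
    (hr : 0 < r) {θ : E n} (hθ : ‖θ‖ = 1) :
    BN (rh a Y) R (r • θ) = cf n a c₀ R r * Y θ := by
  have hI : Integrable ((Metric.closedBall (0 : E n) R).indicator
      (fun ξ => rh a Y ξ * ex (r • θ) ξ)) :=
    (intEx (h R) _).integrable_indicator measurableSet_closedBall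
  have e : ∀ ρ ∈ Ioi (0 : ℝ), ((ρ ^ (n - 1) : ℝ) : ℂ) * ∫ ω,
      (Metric.closedBall (0 : E n) R).indicator (fun ξ => rh a Y ξ * ex (r • θ) ξ)
        (ρ • (ω : E n)) ∂(sg n) =
      (Ioc 0 R).indicator (fun ρ => wt n a ρ * c₀ (r * ρ) * Y θ) ρ := by
    intro ρ hρ
    have hρ0 : (0 : ℝ) < ρ := hρ
    have hnm : ∀ ω : Metric.sphere (0 : E n) 1, ‖ρ • (ω : E n)‖ = ρ := by
      intro ω
      rw [norm_smul, Real.norm_of_nonneg hρ0.le, mem_sphere_zero_iff_norm.1 ω.2, mul_one]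
    by_cases hρR : ρ ≤ R
    · rw [indicator_of_mem (show ρ ∈ Ioc 0 R from ⟨hρ0, hρR⟩)]
      have e1 : ∀ ω : Metric.sphere (0 : E n) 1,
          (Metric.closedBall (0 : E n) R).indicator (fun ξ => rh a Y ξ * ex (r • θ) ξ)
            (ρ • (ω : E n)) = a ρ * (Y (ω : E n) * ex ((r * ρ) • θ) (ω : E n)) := by
        intro ω
        have h1 : ρ • (ω : E n) ∈ Metric.closedBall (0 : E n) R := by
          rw [mem_closedBall_zero_iff, hnm]
          exact hρR
        rw [indicator_of_mem h1, rh_smul a Y hρ0 (mem_sphere_zero_iff_norm.1 ω.2)]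
        have h2 : ex (r • θ) (ρ • (ω : E n)) = ex ((r * ρ) • θ) (ω : E n) := by
          unfold ex
          rw [real_inner_smul_right, real_inner_smul_left, real_inner_smul_left]
          congr 3
          ring
        rw [h2]
        ring
      simp only [e1]
      rw [integral_const_mul, hc _ _ (by positivity) hθ]
      unfold wt
      ring
    · rw [indicator_of_notMem (fun h => hρR h.2)]
      have : ∀ ω : Metric.sphere (0 : E n) 1,
          (Metric.closedBall (0 : E n) R).indicator (fun ξ => rh a Y ξ * ex (r • θ) ξ)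
            (ρ • (ω : E n)) = 0 := by
        intro ω
        refine indicator_of_notMem ?_ _
        rw [mem_closedBall_zero_iff, hnm]
        exact hρR
      simp only [this, integral_zero, mul_zero]
  unfold BN
  rw [← integral_indicator measurableSet_closedBall, (h4 n hn).2.1 _ hI,
    setIntegral_congr_fun measurableSet_Ioi e, setIntegral_indicator measurableSet_Ioc]
  have h5 : Ioi (0 : ℝ) ∩ Ioc 0 R = Ioc 0 R := inter_eq_self_of_subset_right fun r hr => hr.1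
  rw [h5, integral_mul_const]
  rfl

theorem shell {g : E n → ℂ} (h : ∀ R : ℝ, IntegrableOn g (Metric.closedBall (0 : E n) R))
    (x : E n) {u v : ℝ} (huv : u ≤ v) :
    ∫ ξ in {ξ : E n | u < ‖ξ‖ ∧ ‖ξ‖ ≤ v}, g ξ * ex x ξ = BN g v x - BN g u x := by
  have hU : Metric.closedBall (0 : E n) v =
      Metric.closedBall (0 : E n) u ∪ {ξ : E n | u < ‖ξ‖ ∧ ‖ξ‖ ≤ v} := by
    ext ξ
    simp only [mem_union, mem_closedBall_zero_iff, mem_ofPred_eq]
    constructor
    · intro h1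
      rcases le_or_gt ‖ξ‖ u with h2 | h2
      · exact Or.inl h2
      · exact Or.inr ⟨h2, h1⟩
    · rintro (h1 | h1)
      · exact h1.trans huv
      · exact h1.2
  have hd : Disjoint (Metric.closedBall (0 : E n) u) {ξ : E n | u < ‖ξ‖ ∧ ‖ξ‖ ≤ v} := by
    rw [disjoint_left]
    intro ξ h1 h2
    rw [mem_closedBall_zero_iff] at h1
    exact absurd h1 (not_le.2 h2.1)
  unfold BN
  rw [hU, setIntegral_union hd (sh_meas u v) (intEx (h u) x)
    (intEx ((h v).mono_set (sh_sub u v)) x)]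
  ring

/-! ### the variation -/

theorem VQ_meas (q : ℝ) {g : E n → ℂ}
    (h : ∀ R : ℝ, IntegrableOn g (Metric.closedBall (0 : E n) R)) : Measurable (VQ q g) := by
  refine LowerSemicontinuous.measurable ?_
  refine lowerSemicontinuous_iSup fun L => lowerSemicontinuous_iSup fun N =>
    lowerSemicontinuous_iSup fun _ => ?_
  refine Continuous.lowerSemicontinuous ?_
  refine ENNReal.continuous_rpow_const.comp (continuous_finsetSum _ fun j _ => ?_)
  refine ENNReal.continuous_rpow_const.comp ?_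
  exact (int_cont ((h (N (j + 1))).mono_set (sh_sub _ _))).enorm

theorem pow_aux (x : ℝ≥0∞) (q : ℝ) : (x ^ 2) ^ (q / 2) = x ^ q := by
  rw [← ENNReal.rpow_natCast, ← ENNReal.rpow_mul]
  congr 1
  push_cast
  ring

theorem VQ_eq {q : ℝ} (hq : 2 < q) {g : E n → ℂ} {c : ℝ → ℝ → ℂ} {Y : E n → ℂ}
    (h : ∀ R : ℝ, IntegrableOn g (Metric.closedBall (0 : E n) R)) {r : ℝ} {θ : E n}
    (hB : ∀ R, BN g R (r • θ) = c R r * Y θ) :
    VQ q g (r • θ) = WV q 1 (fun _ => c) r * ‖Y θ‖ₑ := by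
  unfold VQ WV
  simp only [ENNReal.iSup_mul]
  refine iSup_congr fun L => iSup_congr fun N => iSup_congr fun hN => ?_
  have hq0 : 0 ≤ q := by linarith
  have e1 : ∀ j ∈ Finset.range L,
      ‖∫ ξ in {ξ : E n | N j < ‖ξ‖ ∧ ‖ξ‖ ≤ N (j + 1)}, g ξ * ex (r • θ) ξ‖ₑ ^ q =
      (∑ i ∈ Finset.range 1, ‖c (N (j + 1)) r - c (N j) r‖ₑ ^ 2) ^ (q / 2) * ‖Y θ‖ₑ ^ q := by
    intro j _
    rw [shell h _ (hN (Nat.le_succ j)), hB, hB, ← sub_mul, enorm_mul,
      ENNReal.mul_rpow_of_nonneg _ _ hq0, Finset.sum_range_one, pow_aux]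
  rw [Finset.sum_congr rfl e1, ← Finset.sum_mul, ENNReal.mul_rpow_of_nonneg _ _ (by positivity)]
  congr 1
  rw [← ENNReal.rpow_mul, mul_one_div_cancel (by linarith), ENNReal.rpow_one]

end HCO_

open HCO_ in
theorem p_HCO (h1 : T_FHK) (h2 : T_RDQ) (h3 : Pool.Agent.CRN.T_POLN) : T_HCO := by
  intro n hn
  obtain ⟨C, hC⟩ := h2 n hn
  refine ⟨C, fun l Y a hY hY1 ha hfin => ?_⟩
  obtain ⟨c₀, hc₀, hFH⟩ := h1 n l Y hn hY
  have hn0 : 0 < n := by omega
  have hYc : Continuous Y := hY.c2.continuous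
  have hm := rh_meas ha hYc
  have hnorm := rh_norm h3 hn0 ha hYc hY1
  have hI : ∀ R : ℝ, IntegrableOn (rh a Y) (Metric.closedBall (0 : E n) R) :=
    int_ball hm (by rw [hnorm]; exact hfin)
  have hB : ∀ (R r : ℝ) (θ : E n), 0 < r → ‖θ‖ = 1 →
      BN (rh a Y) R (r • θ) = cf n a c₀ R r * Y θ := fun R r θ hr hθ =>
    BN_eq h3 hn0 hFH hI R hr hθ
  refine ⟨cf n a c₀, cf_cont ha hfin hc₀, ?_, hB, ?_⟩
  · intro R r hR
    unfold cf
    rw [Ioc_eq_empty (not_lt.2 hR), Measure.restrict_empty, integral_zero_measure]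
  · intro q hq hq4
    have h5 := hC q hq hq4 l (rh a Y) hm (rh_pure a hY)
    rw [hnorm, (h3 n hn0).1 _ ((VQ_meas q hI).pow_const 2)] at h5
    refine le_trans (le_of_eq ?_) h5
    refine setLIntegral_congr_fun measurableSet_Ioi fun r hr => ?_
    have hr0 : (0 : ℝ) < r := hr
    have e : ∀ ω : Metric.sphere (0 : E n) 1, ENNReal.ofReal (r ^ (n - 1)) *
        VQ q (rh a Y) (r • (ω : E n)) ^ 2 =
        (WV q 1 (fun _ => cf n a c₀) r ^ 2 * ENNReal.ofReal (r ^ (n - 1))) *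
          ‖Y (ω : E n)‖ₑ ^ 2 := by
      intro ω
      rw [VQ_eq hq hI (fun R => hB R r _ hr0 (mem_sphere_zero_iff_norm.1 ω.2)), mul_pow]
      ring
    simp only [e]
    rw [lintegral_const_mul, hY1, mul_one]
    exact ((hYc.comp continuous_subtype_val).measurable.enorm).pow_const 2

end Pool.Agent.VRR
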