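import Pool.Agent.VRR.Targets3
import Pool.Agent.CRW.P_LCP

set_option autoImplicit false

/-!
# VRR, LCK: chaining in dimension `K`
-/

namespace Pool.Agent.VRR

open MeasureTheory Set Filter Topology
open scoped ENNReal NNReal

namespace LCK_

open Pool.Agent.CRW.LCP_ (mink link)
open Pool.Agent.VRC.CHN_ (geo_le)

theorem tau_le {q : ℝ} (hq : 2 < q) (hq4 : q ≤ 4) : (16 : ℝ) ^ (-(1 / q)) ≤ 1 / 2 := by
  have h1 : (16 : ℝ) ^ (-(1 / q)) ≤ 16 ^ (-(1 / 4 : ℝ)) := by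
    refine Real.rpow_le_rpow_of_exponent_le (by norm_num) ?_
    have := one_div_le_one_div_of_le (show (0 : ℝ) < q by linarith) hq4
    linarith
  refine h1.trans (le_of_eq ?_)
  rw [show (16 : ℝ) = 2 ^ (4 : ℝ) by norm_num, ← Real.rpow_mul (by norm_num)]
  norm_num

/-- the number of levels -/
theorem exists_m0 {K : ℕ} (hK : 1 ≤ K) {q : ℝ} (hq : 2 < q) (hq4 : q ≤ 4) :
    ∃ m : ℕ, ((16 : ℝ) ^ (-(1 / q))) ^ m * √K ≤ 1 ∧
      (4 * (16 : ℝ) ^ (-(1 / q))) ^ m ≤ 2 * (K : ℝ) ^ ((q - 2) / 4) ∧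
      (m : ℝ) ≤ 2 * Real.log (2 + K) := by
  have hK1 : (1 : ℝ) ≤ K := by exact_mod_cast hK
  have hK0 : (0 : ℝ) < K := by linarith
  have hq0 : 0 < q := by linarith
  have hl : Real.log 16 = 4 * Real.log 2 := by
    rw [show (16 : ℝ) = 2 ^ 4 by norm_num, Real.log_pow]
    norm_num
  have hl1 : 2 ≤ Real.log 16 := by
    rw [hl]
    have := Real.log_two_gt_d9
    linarith
  have hl0 : 0 < Real.log 16 := by linarith
  have hlK : 0 ≤ Real.log K := Real.log_nonneg hK1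
  obtain ⟨y, hy⟩ : ∃ y : ℝ, y = q / 2 * Real.log K / Real.log 16 := ⟨_, rfl⟩
  have hy0 : 0 ≤ y := by rw [hy]; positivity
  have hyl : y * Real.log 16 = q / 2 * Real.log K := by
    rw [hy, div_mul_cancel₀ _ hl0.ne']
  have hm1 : y ≤ (⌈y⌉₊ : ℝ) := Nat.le_ceil y
  have hm2 : (⌈y⌉₊ : ℝ) < y + 1 := Nat.ceil_lt_add_one hy0
  have e1 : ∀ (t : ℝ) (m : ℕ), ((16 : ℝ) ^ t) ^ m = Real.exp (t * (m * Real.log 16)) := by
    intro t m
    rw [← Real.rpow_natCast, ← Real.rpow_mul (by norm_num), Real.rpow_def_of_pos (by norm_num)]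
    congr 1
    ring
  refine ⟨⌈y⌉₊, ?_, ?_, ?_⟩
  · have e2 : √(K : ℝ) = Real.exp (1 / 2 * Real.log K) := by
      rw [Real.sqrt_eq_rpow, Real.rpow_def_of_pos hK0]
      congr 1
      ring
    rw [e1, e2, ← Real.exp_add]
    refine Real.exp_le_one_iff.2 ?_
    have h1 : 1 / q * (y * Real.log 16) ≤ 1 / q * ((⌈y⌉₊ : ℝ) * Real.log 16) := by
      have : 0 ≤ 1 / q := by positivity
      gcongr
    rw [hyl] at h1
    have h2 : 1 / q * (q / 2 * Real.log K) = 1 / 2 * Real.log K := by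
      field_simp
    rw [h2] at h1
    linarith
  · have e3 : (4 : ℝ) * (16 : ℝ) ^ (-(1 / q)) = 16 ^ (1 / 2 - 1 / q) := by
      rw [show (1 / 2 - 1 / q : ℝ) = 1 / 2 + -(1 / q) by ring, Real.rpow_add (by norm_num)]
      congr 1
      rw [show (16 : ℝ) = 4 ^ (2 : ℝ) by norm_num, ← Real.rpow_mul (by norm_num)]
      norm_num
    have hx0 : 0 ≤ 1 / 2 - 1 / q := by
      have := one_div_le_one_div_of_le (show (0 : ℝ) < 2 by norm_num) hq.le
      linarith
    have hx1 : 1 / 2 - 1 / q ≤ 1 / 4 := by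
      have := one_div_le_one_div_of_le hq0 hq4
      linarith
    rw [e3, e1, Real.rpow_def_of_pos hK0]
    have h1 : (1 / 2 - 1 / q) * ((⌈y⌉₊ : ℝ) * Real.log 16) ≤
        (1 / 2 - 1 / q) * ((y + 1) * Real.log 16) := by
      gcongr
    have h2 : (1 / 2 - 1 / q) * ((y + 1) * Real.log 16) =
        (1 / 2 - 1 / q) * Real.log 16 + Real.log K * ((q - 2) / 4) := by
      rw [add_mul, one_mul, hyl]
      field_simp
      ring
    have h3 : (1 / 2 - 1 / q) * Real.log 16 ≤ Real.log 2 := by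
      rw [hl]
      have := Real.log_two_gt_d9
      nlinarith
    calc Real.exp ((1 / 2 - 1 / q) * ((⌈y⌉₊ : ℝ) * Real.log 16))
        ≤ Real.exp (Real.log 2 + Real.log K * ((q - 2) / 4)) := Real.exp_le_exp.2 (by linarith)
      _ = 2 * Real.exp (Real.log K * ((q - 2) / 4)) := by
          rw [Real.exp_add, Real.exp_log (by norm_num)]
  · have h1 : y ≤ Real.log K := by
      rw [hy, div_le_iff₀ hl0]
      nlinarith
    have h2 : Real.log K ≤ Real.log (2 + K) := Real.log_le_log hK0 (by linarith)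
    have h3 : 1 ≤ Real.log (2 + K) := by
      rw [Real.le_log_iff_exp_le (by linarith)]
      have := Real.exp_one_lt_d9
      linarith
    linarith

/-- the distance to the points of the last level -/
theorem tail {F : Type} [SeminormedAddCommGroup F] {z : ℕ → F} {π : ℕ → ℕ → ℕ} {Kf m0 : ℕ}
    {τ v : ℝ} (hτ : 0 ≤ τ) (hτ2 : τ ≤ 1 / 2) (hv : 0 ≤ v) (j : ℕ) (hend : z j = z (π Kf j))
    (hstep : ∀ k, ‖z (π (k + 1) j) - z (π k j)‖ ≤ 2 * τ ^ k * v) :
    ‖z j - z (π (min Kf m0) j)‖ ≤ 4 * τ ^ m0 * v := by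
  rcases le_total m0 Kf with h | h
  · rw [min_eq_right h, hend]
    obtain ⟨n, rfl⟩ := Nat.exists_eq_add_of_le h
    have e1 : z (π (m0 + n) j) - z (π m0 j) =
        ∑ k ∈ Finset.range n, (z (π (m0 + k + 1) j) - z (π (m0 + k) j)) := by
      have := Finset.sum_range_sub (fun k => z (π (m0 + k) j)) n
      rw [add_zero] at this
      rw [← this]
      rfl
    rw [e1]
    refine (norm_sum_le _ _).trans ?_
    have h1 : ∑ k ∈ Finset.range n, ‖z (π (m0 + k + 1) j) - z (π (m0 + k) j)‖ ≤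
        ∑ k ∈ Finset.range n, 2 * τ ^ m0 * v * τ ^ k := by
      refine Finset.sum_le_sum fun k _ => (hstep (m0 + k)).trans (le_of_eq ?_)
      rw [pow_add]
      ring
    refine h1.trans ?_
    rw [← Finset.mul_sum]
    have h2 := geo_le (q := τ) hτ (by linarith) n
    have h3 : (1 - τ)⁻¹ ≤ 2 := by
      rw [inv_le_comm₀ (by linarith) (by norm_num)]
      linarith
    calc 2 * τ ^ m0 * v * ∑ i ∈ Finset.range n, τ ^ i ≤ 2 * τ ^ m0 * v * 2 := by
          gcongr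
          exact h2.trans h3
      _ = 4 * τ ^ m0 * v := by ring
  · rw [min_eq_left h, ← hend, sub_self, norm_zero]
    positivity

/-- the pointwise bound -/
theorem chain {M : ℕ} {x : ℕ → ℂ} (hX : x 0 = 0)
    {π : ℕ → ℕ → ℕ} {α β : ℕ → ℕ → ℕ} (h0 : ∀ j ≤ M, π 0 j = 0)
    (h2 : ∀ k, ∀ j ≤ M, ∃ c < 16 ^ (k + 1), π (k + 1) j = α k c ∧ π k j = β k c)
    (k1 j : ℕ) (hj : j ≤ M) :
    ‖x j‖ₑ ≤ ∑ k ∈ Finset.range k1,
      (∑ c ∈ Finset.range (16 ^ (k + 1)), ‖x (α k c) - x (β k c)‖ₑ ^ (2 : ℝ)) ^ (1 / 2 : ℝ) +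
        ‖x j - x (π k1 j)‖ₑ := by
  have e1 : x (π k1 j) = ∑ k ∈ Finset.range k1, (x (π (k + 1) j) - x (π k j)) := by
    rw [Finset.sum_range_sub (fun k => x (π k j)), h0 j hj, hX, sub_zero]
  have e2 : x j = x (π k1 j) + (x j - x (π k1 j)) := by ring
  calc ‖x j‖ₑ = ‖x (π k1 j) + (x j - x (π k1 j))‖ₑ := by rw [← e2]
    _ ≤ ‖x (π k1 j)‖ₑ + ‖x j - x (π k1 j)‖ₑ := enorm_add_le _ _
    _ ≤ _ := by
        refine add_le_add ?_ le_rfl
        rw [e1]
        refine (enorm_sum_le _ _).trans (Finset.sum_le_sum fun k _ => ?_)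
        obtain ⟨c, hc, ha, hb⟩ := h2 k j hj
        rw [ha, hb]
        calc ‖x (α k c) - x (β k c)‖ₑ = (‖x (α k c) - x (β k c)‖ₑ ^ (2 : ℝ)) ^ (1 / 2 : ℝ) := by
              rw [← ENNReal.rpow_mul]
              norm_num
          _ ≤ _ := by
              refine ENNReal.rpow_le_rpow ?_ (by norm_num)
              exact Finset.single_le_sum (f := fun c => ‖x (α k c) - x (β k c)‖ₑ ^ (2 : ℝ))
                (fun _ _ => zero_le) (Finset.mem_range.2 hc)

theorem sum_enorm_sq (K : ℕ) (a : ℕ → ℂ) :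
    ∑ i ∈ Finset.range K, ‖a i‖ₑ ^ 2 =
      ENNReal.ofReal (‖(WithLp.toLp 2 (fun i : Fin K => a i) : EuclideanSpace ℂ (Fin K))‖ ^ 2) := by
  rw [EuclideanSpace.norm_sq_eq, ENNReal.ofReal_sum_of_nonneg (fun _ _ => sq_nonneg _),
    Finset.sum_range]
  refine Finset.sum_congr rfl fun i _ => ?_
  rw [ENNReal.ofReal_pow (norm_nonneg _), ofReal_norm]

/-- Cauchy-Schwarz -/
theorem cs (K : ℕ) (a y : ℕ → ℂ) : ‖∑ i ∈ Finset.range K, a i * y i‖ₑ ≤
    (∑ i ∈ Finset.range K, ‖a i‖ₑ ^ 2) ^ (1 / 2 : ℝ) *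
      (∑ i ∈ Finset.range K, ‖y i‖ₑ ^ 2) ^ (1 / 2 : ℝ) := by
  have h1 := ENNReal.inner_le_Lp_mul_Lq (Finset.range K) (fun i => ‖a i‖ₑ) (fun i => ‖y i‖ₑ)
    Real.HolderConjugate.two_two
  simp only [ENNReal.rpow_two] at h1
  refine (enorm_sum_le _ _).trans (le_trans (le_of_eq ?_) h1)
  exact Finset.sum_congr rfl fun i _ => enorm_mul _ _

end LCK_

open LCK_ Pool.Agent.CRW.LCP_ Pool.Agent.VRC.CHN_ in
/-- **LCK** -/
theorem p_LCK : T_LCK := by
  refine ⟨1296, fun Ω _ μ M K c Y V q hq hq4 hK hY hc0 hV horth hvar => ?_⟩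
  have hq0 : 0 < q := by linarith
  have hK1 : (1 : ℝ) ≤ K := by exact_mod_cast hK
  obtain ⟨X, hX⟩ : ∃ X : ℕ → Ω → ℂ, X = fun j ω => ∑ i ∈ Finset.range K, c i j * Y i ω :=
    ⟨_, rfl⟩
  obtain ⟨z, hz⟩ : ∃ z : ℕ → EuclideanSpace ℂ (Fin K),
    z = fun j => WithLp.toLp 2 (fun i : Fin K => c i j) := ⟨_, rfl⟩
  have hzd : ∀ j k, ∑ i ∈ Finset.range K, ‖c i j - c i k‖ₑ ^ 2 =
      ENNReal.ofReal (‖z j - z k‖ ^ 2) := by
    intro j k
    rw [sum_enorm_sq K (fun i => c i j - c i k), hz]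
    rfl
  have hXd : ∀ j k ω, X j ω - X k ω = ∑ i ∈ Finset.range K, (c i j - c i k) * Y i ω := by
    intro j k ω
    rw [hX, ← Finset.sum_sub_distrib]
    exact Finset.sum_congr rfl fun i _ => by ring
  have hXm : ∀ j, Measurable (X j) := by
    intro j
    rw [hX]
    exact Finset.measurable_fun_sum _ fun i _ => (hY i).const_mul _
  have hX0 : ∀ ω, X 0 ω = 0 := by
    intro ω
    rw [hX]
    exact Finset.sum_eq_zero fun i _ => by rw [hc0 i, zero_mul]
  obtain ⟨v, hv⟩ : ∃ v : ℝ, v = V.toReal := ⟨_, rfl⟩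
  have hv0 : 0 ≤ v := by rw [hv]; positivity
  have hve : ENNReal.ofReal v = V := by rw [hv, ENNReal.ofReal_toReal hV]
  have hVq : V ^ q ≠ ⊤ := ENNReal.rpow_ne_top_of_nonneg hq0.le hV
  have hvr : ∀ (l : ℕ) (t : ℕ → ℕ), Monotone t → (∀ r, t r ≤ M) →
      ∑ r ∈ Finset.range l, (‖z (t (r + 1)) - z (t r)‖ ^ 2) ^ (q / 2) ≤ v ^ q := by
    intro l t ht htM
    have h3 := hvar l t ht htM
    simp only [hzd] at h3
    have e1 : ∑ r ∈ Finset.range l, ENNReal.ofReal (‖z (t (r + 1)) - z (t r)‖ ^ 2) ^ (q / 2) =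
        ENNReal.ofReal (∑ r ∈ Finset.range l, (‖z (t (r + 1)) - z (t r)‖ ^ 2) ^ (q / 2)) := by
      rw [ENNReal.ofReal_sum_of_nonneg (fun r _ => by positivity)]
      refine Finset.sum_congr rfl fun r _ => ?_
      rw [ENNReal.ofReal_rpow_of_nonneg (by positivity) (by positivity)]
    rw [e1, ← hve, ENNReal.ofReal_rpow_of_nonneg hv0 hq0.le,
      ENNReal.ofReal_le_ofReal_iff (by positivity)] at h3
    exact h3
  have hsup : ∀ ω, (⨆ (j : ℕ) (_ : j ≤ M), ‖∑ i ∈ Finset.range K, c i j * Y i ω‖ₑ) =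
      ⨆ (j : ℕ) (_ : j ≤ M), ‖X j ω‖ₑ := by
    intro ω
    rw [hX]
  simp only [hsup]
  rcases hv0.eq_or_lt with hWz | hWp
  · -- zero variation
    have h2 : ∀ j ≤ M, ∀ ω, X j ω = 0 := by
      intro j hj ω
      have h3 := hvr 1 (fun r => if r = 0 then 0 else j) (by
        intro a b hab
        show (if a = 0 then 0 else j) ≤ (if b = 0 then 0 else j)
        split_ifs <;> omega) (by
        intro r
        show (if r = 0 then 0 else j) ≤ M
        split_ifs <;> omega)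
      rw [← hWz, Real.zero_rpow hq0.ne'] at h3
      have h4 : (‖z j - z 0‖ ^ 2) ^ (q / 2) = 0 := by
        refine le_antisymm ?_ (by positivity)
        simpa using h3
      have h5 : ‖z j - z 0‖ ^ 2 = 0 :=
        ((Real.rpow_eq_zero_iff_of_nonneg (by positivity)).1 h4).1
      have h6 := hzd j 0
      rw [h5, ENNReal.ofReal_zero, Finset.sum_eq_zero_iff] at h6
      have h7 := hXd j 0 ω
      rw [hX0, sub_zero] at h7
      rw [h7]
      refine Finset.sum_eq_zero fun i hi => ?_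
      have h8 := h6 i hi
      rw [pow_eq_zero_iff two_ne_zero, enorm_eq_zero] at h8
      rw [h8, zero_mul]
    have h3 : ∀ ω, (⨆ (j : ℕ) (_ : j ≤ M), ‖X j ω‖ₑ) = 0 := by
      intro ω
      refine le_antisymm (iSup_le fun j => iSup_le fun hj => ?_) zero_le
      rw [h2 j hj ω, enorm_zero]
    simp only [h3]
    simp
  obtain ⟨τ, hτ⟩ : ∃ τ : ℝ, τ = (16 : ℝ) ^ (-(1 / q)) := ⟨_, rfl⟩
  have hτ0 : 0 < τ := by rw [hτ]; positivity
  have hτ2 : τ ≤ 1 / 2 := by rw [hτ]; exact tau_le hq hq4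
  have hτ4 : 1 ≤ 4 * τ := by
    have h1 : (16 : ℝ) ^ (-(1 / 2 : ℝ)) ≤ τ := by
      rw [hτ]
      refine Real.rpow_le_rpow_of_exponent_le (by norm_num) ?_
      have := one_div_le_one_div_of_le (show (0 : ℝ) < 2 by norm_num) hq.le
      linarith
    have h2 : (16 : ℝ) ^ (-(1 / 2 : ℝ)) = 1 / 4 := by
      rw [show (16 : ℝ) = 4 ^ (2 : ℝ) by norm_num, ← Real.rpow_mul (by norm_num)]
      norm_num
    linarith
  obtain ⟨m0, hm1, hm2, hm3⟩ := exists_m0 hK hq hq4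
  rw [← hτ] at hm1 hm2
  have hD2 : ∀ j k, ((‖z j - z k‖ ^ 2) ^ (q / 4)) ^ 2 = (‖z j - z k‖ ^ 2) ^ (q / 2) := by
    intro j k
    rw [← Real.rpow_natCast ((‖z j - z k‖ ^ 2) ^ (q / 4)), ← Real.rpow_mul (by positivity)]
    congr 1
    push_cast
    ring
  obtain ⟨π, Kf, α, β, g1, g2, g3⟩ := Pool.Agent.CRW.LCH_.nets (M := M)
    (D := fun j k => (‖z j - z k‖ ^ 2) ^ (q / 4))
    (fun j k => by positivity) (fun j k => by rw [norm_sub_rev]) (by
      show (‖z 0 - z 0‖ ^ 2) ^ (q / 4) = 0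
      rw [sub_self, norm_zero, zero_pow two_ne_zero, Real.zero_rpow (by positivity)])
    (Real.rpow_pos_of_pos hWp (q / 2)) (by
      intro l t ht htM
      have e1 : (v ^ (q / 2)) ^ 2 = v ^ q := by
        rw [← Real.rpow_natCast, ← Real.rpow_mul hv0]
        congr 1
        push_cast
        ring
      rw [e1]
      simp only [hD2]
      exact hvr l t ht htM)
  have hlink : ∀ k c', ‖z (α k c') - z (β k c')‖ ≤ 2 * τ ^ k * v := by
    intro k c'
    have h1 := link (J := ‖z (α k c') - z (β k c')‖ ^ 2) hq (by positivity) hv0 k (g3 k c').1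
    rwa [← Real.sqrt_eq_rpow, Real.sqrt_sq (norm_nonneg _), ← hτ] at h1
  have htail : ∀ j ≤ M, ‖z j - z (π (min Kf m0) j)‖ ≤ 4 * τ ^ m0 * v := by
    intro j hj
    refine tail hτ0.le hτ2 hv0 j ?_ ?_
    · obtain ⟨-, h4, -⟩ := g1 j hj
      have h5 := ((Real.rpow_eq_zero_iff_of_nonneg (by positivity)).1 h4).1
      rw [pow_eq_zero_iff two_ne_zero, norm_eq_zero] at h5
      exact sub_eq_zero.1 h5
    · intro k
      obtain ⟨c', -, ha, hb⟩ := g2 k j hj
      rw [ha, hb]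
      exact hlink k c'
  obtain ⟨Q, hQ⟩ : ∃ Q : Ω → ℝ≥0∞, Q = fun ω =>
      ENNReal.ofReal (4 * τ ^ m0 * v) * (∑ i ∈ Finset.range K, ‖Y i ω‖ₑ ^ 2) ^ (1 / 2 : ℝ) :=
    ⟨_, rfl⟩
  obtain ⟨F, hF⟩ : ∃ F : ℕ → Ω → ℝ≥0∞, F = fun k ω => if k < min Kf m0 then
      (∑ c' ∈ Finset.range (16 ^ (k + 1)), ‖X (α k c') ω - X (β k c') ω‖ₑ ^ (2 : ℝ)) ^
        (1 / 2 : ℝ) else Q ω := ⟨_, rfl⟩
  have hQm : Measurable Q := by
    rw [hQ]
    exact ((Finset.measurable_fun_sum _ fun i _ => ((hY i).enorm).pow_const 2).pow_const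
      _).const_mul _
  have hmeas : ∀ k c', Measurable (fun ω => ‖X (α k c') ω - X (β k c') ω‖ₑ ^ (2 : ℝ)) :=
    fun k c' => (((hXm _).sub (hXm _)).enorm).pow_const _
  have hFm : ∀ k, Measurable (F k) := by
    intro k
    rw [hF]
    by_cases hk : k < min Kf m0
    · simp only [if_pos hk]
      exact (Finset.measurable_fun_sum _ fun c' _ => hmeas k c').pow_const _
    · simp only [if_neg hk]
      exact hQm
  -- pointwise bound
  have hpt : ∀ ω, (⨆ (j : ℕ) (_ : j ≤ M), ‖X j ω‖ₑ) ≤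
      ∑ k ∈ Finset.range (min Kf m0 + 1), F k ω := by
    intro ω
    refine iSup_le fun j => iSup_le fun hj => ?_
    refine (chain (x := fun j => X j ω) (hX0 ω) (fun j hj => (g1 j hj).1) g2
      (min Kf m0) j hj).trans ?_
    rw [Finset.sum_range_succ, hF]
    refine add_le_add (le_of_eq (Finset.sum_congr rfl fun k hk => ?_)) ?_
    · simp only [if_pos (Finset.mem_range.1 hk)]
    · simp only [lt_irrefl, if_false]
      rw [hXd, hQ]
      refine (cs K _ _).trans (mul_le_mul' ?_ le_rfl)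
      rw [hzd, ENNReal.ofReal_rpow_of_nonneg (by positivity) (by norm_num),
        ← Real.sqrt_eq_rpow, Real.sqrt_sq (norm_nonneg _)]
      exact ENNReal.ofReal_le_ofReal (htail j hj)
  -- the levels
  have hFk : ∀ k, k < min Kf m0 → (∫⁻ ω, F k ω ^ (2 : ℝ) ∂μ) ^ (1 / 2 : ℝ) ≤
      ENNReal.ofReal (8 * (4 * τ) ^ m0 * v) := by
    intro k hk
    have e1 : ∀ ω, F k ω ^ (2 : ℝ) =
        ∑ c' ∈ Finset.range (16 ^ (k + 1)), ‖X (α k c') ω - X (β k c') ω‖ₑ ^ (2 : ℝ) := by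
      intro ω
      rw [hF]
      simp only [if_pos hk]
      exact rr' (by norm_num)
    have hchk : ∀ c', ∫⁻ ω, ‖X (α k c') ω - X (β k c') ω‖ₑ ^ (2 : ℝ) ∂μ ≤
        ENNReal.ofReal ((2 * τ ^ k * v) ^ 2) := by
      intro c'
      simp only [ENNReal.rpow_two, hXd]
      refine (horth (fun i => c i (α k c') - c i (β k c'))).trans ?_
      rw [hzd]
      refine ENNReal.ofReal_le_ofReal ?_
      have := hlink k c'
      gcongr
    have h1 : ∫⁻ ω, F k ω ^ (2 : ℝ) ∂μ ≤ ENNReal.ofReal ((8 * (4 * τ) ^ k * v) ^ 2) := by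
      simp only [e1]
      rw [lintegral_finsetSum _ (fun c' _ => hmeas k c')]
      refine (Finset.sum_le_sum fun c' _ => hchk c').trans (le_of_eq ?_)
      rw [Finset.sum_const, Finset.card_range, nsmul_eq_mul]
      have e3 : (((16 ^ (k + 1) : ℕ) : ℝ≥0∞)) = ENNReal.ofReal ((16 : ℝ) ^ (k + 1)) := by
        rw [ENNReal.ofReal_pow (by norm_num)]
        push_cast
        norm_num
      rw [e3, ← ENNReal.ofReal_mul (by positivity)]
      congr 1
      rw [mul_pow 4 τ, pow_succ (16 : ℝ) k, show (16 : ℝ) = 4 * 4 by norm_num, mul_pow 4 4 k]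
      ring
    calc (∫⁻ ω, F k ω ^ (2 : ℝ) ∂μ) ^ (1 / 2 : ℝ)
        ≤ (ENNReal.ofReal ((8 * (4 * τ) ^ k * v) ^ 2)) ^ (1 / 2 : ℝ) :=
          ENNReal.rpow_le_rpow h1 (by norm_num)
      _ = ENNReal.ofReal (8 * (4 * τ) ^ k * v) := by
          rw [ENNReal.ofReal_rpow_of_nonneg (by positivity) (by norm_num), ← Real.sqrt_eq_rpow,
            Real.sqrt_sq (by positivity)]
      _ ≤ _ := by
          refine ENNReal.ofReal_le_ofReal ?_
          have h3 : (4 * τ) ^ k ≤ (4 * τ) ^ m0 :=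
            pow_le_pow_right₀ hτ4 (by have := min_le_right Kf m0; omega)
          gcongr
  have hFl : (∫⁻ ω, F (min Kf m0) ω ^ (2 : ℝ) ∂μ) ^ (1 / 2 : ℝ) ≤
      ENNReal.ofReal (4 * v) := by
    have e1 : ∀ ω, F (min Kf m0) ω ^ (2 : ℝ) = ENNReal.ofReal ((4 * τ ^ m0 * v) ^ 2) *
        ∑ i ∈ Finset.range K, ‖Y i ω‖ₑ ^ 2 := by
      intro ω
      rw [hF, hQ]
      simp only [lt_irrefl, if_false]
      rw [ENNReal.mul_rpow_of_nonneg _ _ (by norm_num), rr' (by norm_num), ENNReal.rpow_two,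
        ENNReal.ofReal_pow (by positivity)]
    have h1 : ∀ i ∈ Finset.range K, ∫⁻ ω, ‖Y i ω‖ₑ ^ 2 ∂μ ≤ 1 := by
      intro i hi
      have h2 := horth (fun i' => if i' = i then 1 else 0)
      have e2 : ∀ ω, ∑ i' ∈ Finset.range K, (if i' = i then (1 : ℂ) else 0) * Y i' ω = Y i ω := by
        intro ω
        rw [Finset.sum_eq_single i]
        · simp
        · intro b _ hb
          simp [hb]
        · intro h
          exact absurd hi h
      simp only [e2] at h2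
      refine h2.trans (le_of_eq ?_)
      rw [Finset.sum_eq_single i]
      · simp
      · intro b _ hb
        simp [hb]
      · intro h
        exact absurd hi h
    have h2 : ∫⁻ ω, F (min Kf m0) ω ^ (2 : ℝ) ∂μ ≤
        ENNReal.ofReal ((4 * τ ^ m0 * v * √K) ^ 2) := by
      simp only [e1]
      rw [lintegral_const_mul _
        (Finset.measurable_fun_sum _ fun i _ => ((hY i).enorm).pow_const 2),
        lintegral_finsetSum _ (fun i _ => ((hY i).enorm).pow_const 2)]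
      calc ENNReal.ofReal ((4 * τ ^ m0 * v) ^ 2) *
            ∑ i ∈ Finset.range K, ∫⁻ ω, ‖Y i ω‖ₑ ^ 2 ∂μ
          ≤ ENNReal.ofReal ((4 * τ ^ m0 * v) ^ 2) * ∑ _i ∈ Finset.range K, 1 := by
            gcongr with i hi
            exact h1 i hi
        _ = ENNReal.ofReal ((4 * τ ^ m0 * v * √K) ^ 2) := by
            rw [Finset.sum_const, Finset.card_range, nsmul_eq_mul, mul_one, mul_pow _ (√(K : ℝ)) 2,
              Real.sq_sqrt (by positivity), ENNReal.ofReal_mul (by positivity),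
              ENNReal.ofReal_natCast]
    calc (∫⁻ ω, F (min Kf m0) ω ^ (2 : ℝ) ∂μ) ^ (1 / 2 : ℝ)
        ≤ (ENNReal.ofReal ((4 * τ ^ m0 * v * √K) ^ 2)) ^ (1 / 2 : ℝ) :=
          ENNReal.rpow_le_rpow h2 (by norm_num)
      _ = ENNReal.ofReal (4 * τ ^ m0 * v * √K) := by
          rw [ENNReal.ofReal_rpow_of_nonneg (by positivity) (by norm_num), ← Real.sqrt_eq_rpow,
            Real.sqrt_sq (by positivity)]
      _ ≤ _ := by
          refine ENNReal.ofReal_le_ofReal ?_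
          calc 4 * τ ^ m0 * v * √K = 4 * v * (τ ^ m0 * √K) := by ring
            _ ≤ 4 * v * 1 := by gcongr
            _ = 4 * v := by ring
  obtain ⟨Λ, hΛ⟩ : ∃ Λ : ℝ, Λ = Real.log (2 + K) := ⟨_, rfl⟩
  obtain ⟨κ, hκ⟩ : ∃ κ : ℝ, κ = (K : ℝ) ^ ((q - 2) / 4) := ⟨_, rfl⟩
  have hΛ1 : 1 ≤ Λ := by
    rw [hΛ, Real.le_log_iff_exp_le (by linarith)]
    have := Real.exp_one_lt_d9
    linarith
  have hκ1 : 1 ≤ κ := by
    rw [hκ]
    exact Real.one_le_rpow hK1 (by linarith)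
  have hkap : (K : ℝ) ^ ((q - 2) / 2) = κ ^ 2 := by
    rw [hκ, ← Real.rpow_natCast, ← Real.rpow_mul (by positivity)]
    congr 1
    push_cast
    ring
  rw [← hΛ] at hm3
  rw [← hκ] at hm2
  have hfin : (∫⁻ ω, (⨆ (j : ℕ) (_ : j ≤ M), ‖X j ω‖ₑ) ^ (2 : ℝ) ∂μ) ^ (1 / 2 : ℝ) ≤
      ENNReal.ofReal (36 * (Λ * κ) * v) := by
    calc (∫⁻ ω, (⨆ (j : ℕ) (_ : j ≤ M), ‖X j ω‖ₑ) ^ (2 : ℝ) ∂μ) ^ (1 / 2 : ℝ)
        ≤ (∫⁻ ω, (∑ k ∈ Finset.range (min Kf m0 + 1), F k ω) ^ (2 : ℝ) ∂μ) ^ (1 / 2 : ℝ) := by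
          refine ENNReal.rpow_le_rpow (lintegral_mono fun ω => ?_) (by norm_num)
          exact ENNReal.rpow_le_rpow (hpt ω) (by norm_num)
      _ ≤ ∑ k ∈ Finset.range (min Kf m0 + 1), (∫⁻ ω, F k ω ^ (2 : ℝ) ∂μ) ^ (1 / 2 : ℝ) :=
          mink (by norm_num) F hFm _
      _ ≤ ∑ _k ∈ Finset.range (min Kf m0), ENNReal.ofReal (8 * (4 * τ) ^ m0 * v) +
          ENNReal.ofReal (4 * v) := by
          rw [Finset.sum_range_succ]
          refine add_le_add (Finset.sum_le_sum fun k hk => ?_) hFl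
          exact hFk k (Finset.mem_range.1 hk)
      _ = ENNReal.ofReal ((min Kf m0 : ℕ) * (8 * (4 * τ) ^ m0 * v) + 4 * v) := by
          rw [Finset.sum_const, Finset.card_range, nsmul_eq_mul,
            ENNReal.ofReal_add (by positivity) (by positivity),
            ENNReal.ofReal_mul (p := ((min Kf m0 : ℕ) : ℝ)) (by positivity),
            ENNReal.ofReal_natCast]
      _ ≤ ENNReal.ofReal (36 * (Λ * κ) * v) := by
          refine ENNReal.ofReal_le_ofReal ?_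
          have h1 : ((min Kf m0 : ℕ) : ℝ) ≤ 2 * Λ := by
            refine le_trans ?_ hm3
            exact_mod_cast min_le_right Kf m0
          have h2 : ((min Kf m0 : ℕ) : ℝ) * (8 * (4 * τ) ^ m0 * v) ≤
              2 * Λ * (8 * (2 * κ) * v) := by
            have h4 : 8 * (4 * τ) ^ m0 * v ≤ 8 * (2 * κ) * v := by gcongr
            exact mul_le_mul h1 h4 (by positivity) (by positivity)
          have h3 : 1 ≤ Λ * κ := by nlinarith
          have h5 : 4 * v * 1 ≤ 4 * v * (Λ * κ) := by gcongr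
          calc ((min Kf m0 : ℕ) : ℝ) * (8 * (4 * τ) ^ m0 * v) + 4 * v
              ≤ 2 * Λ * (8 * (2 * κ) * v) + 4 * v * (Λ * κ) := by linarith
            _ = 36 * (Λ * κ) * v := by ring
  have hsq : ∫⁻ ω, (⨆ (j : ℕ) (_ : j ≤ M), ‖X j ω‖ₑ) ^ 2 ∂μ ≤
      (ENNReal.ofReal (36 * (Λ * κ) * v)) ^ 2 := by
    have h1 := ENNReal.rpow_le_rpow hfin (show (0 : ℝ) ≤ 2 by norm_num)
    rw [rr' (by norm_num)] at h1
    simpa only [ENNReal.rpow_two] using h1
  refine hsq.trans (le_of_eq ?_)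
  rw [← hΛ, hkap, ← hve, ← ENNReal.ofReal_pow (by positivity), ← ENNReal.ofReal_pow (by positivity),
    ← ENNReal.ofReal_coe_nnreal, ← ENNReal.ofReal_mul (by positivity),
    ← ENNReal.ofReal_mul (by positivity)]
  congr 1
  push_cast
  ring

end Pool.Agent.VRR
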