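import Pool.Agent.VRR.Targets3

set_option autoImplicit false

/-!
# VRR, LKN: the maximal inequality for `K` spherical harmonics (helper83)

Chaining in a space of dimension `K` (LCK) on every sphere and the `q`-variation theorem (VEC) with
`q = 2 + 2 / (2 + log K)`.
-/

namespace Pool.Agent.VRR

open MeasureTheory FourierTransform Set Filter Topology
open scoped ENNReal NNReal ComplexConjugate
open Pool.Agent.MBS (E ex)
open Pool.Agent.CRN (sg SH T_POLN)

namespace LKN_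

/-- the ball integral in polar coordinates -/
noncomputable def bc {n : ℕ} (K : ℕ) (c : ℕ → ℝ → ℝ → ℂ) (Y : ℕ → E n → ℂ) (R : ℝ) (x : E n) : ℂ :=
  ∑ i ∈ Finset.range K, c i R ‖x‖ * Y i (‖x‖⁻¹ • x)

/-- the maximum over a dyadic grid of radii -/
noncomputable def gd {n : ℕ} (K : ℕ) (c : ℕ → ℝ → ℝ → ℂ) (Y : ℕ → E n → ℂ) (m : ℕ) (x : E n) :
    ℝ≥0∞ :=
  ⨆ (j : ℕ) (_ : j ≤ 4 ^ m), ‖bc K c Y ((j : ℝ) / 2 ^ m) x‖ₑ

section

variable {n K : ℕ} {c : ℕ → ℝ → ℝ → ℂ} {Y : ℕ → E n → ℂ}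

theorem bc_meas (hc : ∀ i, Continuous (fun z : ℝ × ℝ => c i z.1 z.2))
    (hY : ∀ i < K, Continuous (Y i)) (R : ℝ) : Measurable (bc K c Y R) := by
  unfold bc
  refine Finset.measurable_fun_sum _ fun i hi => ?_
  refine Measurable.mul ?_ ?_
  · exact (hc i).measurable.comp (measurable_const.prodMk measurable_norm)
  · exact (hY i (Finset.mem_range.1 hi)).measurable.comp
      ((measurable_norm.inv).smul measurable_id)

theorem bc_contR (hc : ∀ i, Continuous (fun z : ℝ × ℝ => c i z.1 z.2)) (x : E n) :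
    Continuous fun R => bc K c Y R x := by
  unfold bc
  refine continuous_finsetSum _ fun i _ => ?_
  exact ((hc i).comp (continuous_id.prodMk continuous_const)).mul continuous_const

theorem bc_nonpos (h0 : ∀ i R r, R ≤ 0 → c i R r = 0) {R : ℝ} (hR : R ≤ 0) (x : E n) :
    bc K c Y R x = 0 := by
  unfold bc
  refine Finset.sum_eq_zero fun i _ => ?_
  rw [h0 i R _ hR, zero_mul]

theorem gd_meas (hc : ∀ i, Continuous (fun z : ℝ × ℝ => c i z.1 z.2))
    (hY : ∀ i < K, Continuous (Y i)) (m : ℕ) : Measurable (gd K c Y m) := by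
  unfold gd
  refine Measurable.iSup fun j => Measurable.iSup fun _ => ?_
  exact (bc_meas hc hY _).enorm

theorem gd_mono (x : E n) : Monotone fun m => gd K c Y m x := by
  refine monotone_nat_of_le_succ fun m => ?_
  unfold gd
  refine iSup_le fun j => iSup_le fun hj => ?_
  refine le_iSup_of_le (2 * j) (le_iSup_of_le ?_ ?_)
  · have h1 : 0 < 4 ^ m := by positivity
    rw [pow_succ]
    omega
  · have e : (((2 * j : ℕ) : ℝ)) / 2 ^ (m + 1) = (j : ℝ) / 2 ^ m := by
      push_cast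
      rw [pow_succ]
      field_simp
    rw [e]

theorem sup_eq (hc : ∀ i, Continuous (fun z : ℝ × ℝ => c i z.1 z.2))
    (h0 : ∀ i R r, R ≤ 0 → c i R r = 0) (x : E n) :
    (⨆ (R : ℝ) (_ : 0 < R), ‖bc K c Y R x‖ₑ) = ⨆ m, gd K c Y m x := by
  refine le_antisymm ?_ ?_
  · refine iSup_le fun R => iSup_le fun hR => ?_
    have h2 : Tendsto (fun n : ℕ => (2 : ℝ) ^ n) atTop atTop :=
      tendsto_pow_atTop_atTop_of_one_lt (by norm_num)
    have h1 : Tendsto (fun n : ℕ => ((⌊R * 2 ^ n⌋₊ : ℕ) : ℝ) / 2 ^ n) atTop (𝓝 R) :=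
      (tendsto_nat_floor_mul_div_atTop hR.le).comp h2
    have h3 : Tendsto (fun n : ℕ => ‖bc K c Y (((⌊R * 2 ^ n⌋₊ : ℕ) : ℝ) / 2 ^ n) x‖ₑ) atTop
        (𝓝 ‖bc K c Y R x‖ₑ) := ((bc_contR hc x).enorm.tendsto R).comp h1
    refine le_of_tendsto h3 ?_
    filter_upwards [h2.eventually_ge_atTop R] with n hn
    refine le_iSup_of_le n ?_
    unfold gd
    refine le_iSup_of_le ⌊R * 2 ^ n⌋₊ (le_iSup_of_le ?_ le_rfl)
    have h4 : R * 2 ^ n ≤ ((4 ^ n : ℕ) : ℝ) := by
      push_cast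
      have : (4 : ℝ) ^ n = 2 ^ n * 2 ^ n := by rw [← mul_pow]; norm_num
      rw [this]
      exact mul_le_mul_of_nonneg_right hn (by positivity)
    have h6 := Nat.floor_le_floor h4
    rwa [Nat.floor_natCast] at h6
  · refine iSup_le fun n => ?_
    unfold gd
    refine iSup_le fun j => iSup_le fun hj => ?_
    rcases Nat.eq_zero_or_pos j with h | h
    · rw [h, Nat.cast_zero, zero_div, bc_nonpos h0 le_rfl, enorm_zero]
      exact zero_le
    · refine le_iSup_of_le ((j : ℝ) / 2 ^ n) (le_iSup_of_le ?_ le_rfl)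
      positivity

theorem bc_polar {r : ℝ} (hr : 0 < r) (R : ℝ) {θ : E n} (hθ : ‖θ‖ = 1) :
    bc K c Y R (r • θ) = ∑ i ∈ Finset.range K, c i R r * Y i θ := by
  have h1 : ‖r • θ‖ = r := by rw [norm_smul, hθ, mul_one, Real.norm_of_nonneg hr.le]
  unfold bc
  rw [h1, smul_smul, inv_mul_cancel₀ hr.ne', one_smul]

/-- the `L²` norm of a linear combination -/
theorem orth (hfin : IsFiniteMeasure (sg n)) {l : ℕ → ℕ} (hS : Sys n K l Y) (b : ℕ → ℂ) :
    ∫⁻ θ, ‖∑ i ∈ Finset.range K, b i * Y i (θ : E n)‖ₑ ^ 2 ∂(sg n) =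
      ∑ i ∈ Finset.range K, ‖b i‖ₑ ^ 2 := by
  have hY : ∀ i < K, Continuous (Y i) := fun i hi => (hS.har i hi).c2.continuous
  have hYs : ∀ i < K, Continuous fun θ : Metric.sphere (0 : E n) 1 => Y i (θ : E n) :=
    fun i hi => (hY i hi).comp continuous_subtype_val
  set F : Metric.sphere (0 : E n) 1 → ℂ := fun θ => ∑ i ∈ Finset.range K, b i * Y i (θ : E n)
    with hF
  have hFc : Continuous F :=
    continuous_finsetSum _ fun i hi => continuous_const.mul (hYs i (Finset.mem_range.1 hi))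
  have hint : ∀ G : Metric.sphere (0 : E n) 1 → ℂ, Continuous G → Integrable G (sg n) :=
    fun G hG => hG.integrable_of_hasCompactSupport (HasCompactSupport.of_compactSpace _)
  have h1 : ∫ θ, F θ * conj (F θ) ∂(sg n) =
      ((∑ i ∈ Finset.range K, ‖b i‖ ^ 2 : ℝ) : ℂ) := by
    have e1 : ∀ θ, F θ * conj (F θ) = ∑ i ∈ Finset.range K, ∑ j ∈ Finset.range K,
        (b i * conj (b j)) * (Y i (θ : E n) * conj (Y j (θ : E n))) := by
      intro θ
      simp only [hF, map_sum, map_mul, Finset.sum_mul_sum]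
      refine Finset.sum_congr rfl fun i _ => Finset.sum_congr rfl fun j _ => ?_
      ring
    have hYY : ∀ i ∈ Finset.range K, ∀ j ∈ Finset.range K, Integrable
        (fun θ : Metric.sphere (0 : E n) 1 =>
          (b i * conj (b j)) * (Y i (θ : E n) * conj (Y j (θ : E n)))) (sg n) := by
      intro i hi j hj
      refine hint _ (continuous_const.mul ((hYs i (Finset.mem_range.1 hi)).mul ?_))
      exact Complex.continuous_conj.comp (hYs j (Finset.mem_range.1 hj))
    simp only [e1]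
    rw [integral_finsetSum _ fun i hi => integrable_finsetSum _ fun j hj => hYY i hi j hj]
    have e2 : ∀ i ∈ Finset.range K, ∫ θ, ∑ j ∈ Finset.range K,
        (b i * conj (b j)) * (Y i (θ : E n) * conj (Y j (θ : E n))) ∂(sg n) =
        ((‖b i‖ ^ 2 : ℝ) : ℂ) := by
      intro i hi
      rw [integral_finsetSum _ fun j hj => hYY i hi j hj]
      have e3 : ∀ j ∈ Finset.range K,
          ∫ θ, (b i * conj (b j)) * (Y i (θ : E n) * conj (Y j (θ : E n))) ∂(sg n) =
          if i = j then b i * conj (b j) else 0 := by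
        intro j hj
        rw [integral_const_mul, hS.ort i (Finset.mem_range.1 hi) j (Finset.mem_range.1 hj)]
        split_ifs <;> simp
      rw [Finset.sum_congr rfl e3, Finset.sum_ite_eq, if_pos hi, Complex.mul_conj,
        Complex.normSq_eq_norm_sq]
    rw [Finset.sum_congr rfl e2]
    push_cast
    rfl
  have h2 : ∫ θ, ‖F θ‖ ^ 2 ∂(sg n) = ∑ i ∈ Finset.range K, ‖b i‖ ^ 2 := by
    have e4 : ∀ θ, F θ * conj (F θ) = ((‖F θ‖ ^ 2 : ℝ) : ℂ) := by
      intro θ
      rw [Complex.mul_conj, Complex.normSq_eq_norm_sq]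
    simp only [e4] at h1
    rw [integral_complex_ofReal] at h1
    exact Complex.ofReal_injective h1
  have hi : Integrable (fun θ => ‖F θ‖ ^ 2) (sg n) := by
    have hc2 : Continuous fun θ => ‖F θ‖ ^ 2 := hFc.norm.pow 2
    exact hc2.integrable_of_hasCompactSupport (HasCompactSupport.of_compactSpace _)
  have h3 := ofReal_integral_eq_lintegral_ofReal hi (ae_of_all _ fun θ => by positivity)
  simp only [ENNReal.ofReal_pow (norm_nonneg _), ofReal_norm] at h3
  rw [← h3, h2, ENNReal.ofReal_sum_of_nonneg fun i _ => by positivity]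
  refine Finset.sum_congr rfl fun i _ => ?_
  rw [ENNReal.ofReal_pow (norm_nonneg _), ofReal_norm]

theorem WV_ge {q : ℝ} (hq : 0 < q) (r : ℝ) (L : ℕ) (N : ℕ → ℝ) (hN : Monotone N) :
    ∑ j ∈ Finset.range L,
      (∑ i ∈ Finset.range K, ‖c i (N (j + 1)) r - c i (N j) r‖ₑ ^ 2) ^ (q / 2) ≤
      WV q K c r ^ q := by
  have h1 : (∑ j ∈ Finset.range L,
      (∑ i ∈ Finset.range K, ‖c i (N (j + 1)) r - c i (N j) r‖ₑ ^ 2) ^ (q / 2)) ^ (1 / q) ≤
      WV q K c r := by
    unfold WV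
    exact le_iSup_of_le L (le_iSup_of_le N (le_iSup_of_le hN le_rfl))
  have h2 := ENNReal.rpow_le_rpow h1 hq.le
  rwa [← ENNReal.rpow_mul, one_div_mul_cancel hq.ne', ENNReal.rpow_one] at h2

/-- the sphere of radius `r` -/
theorem sph (h5 : T_POLN) (hn : 0 < n) {C : ℝ≥0}
    (hC : ∀ (Ω : Type) [MeasurableSpace Ω] (μ : Measure Ω) (M K : ℕ)
      (c : ℕ → ℕ → ℂ) (Y : ℕ → Ω → ℂ) (V : ℝ≥0∞) (q : ℝ), 2 < q → q ≤ 4 → 1 ≤ K →
      (∀ i, Measurable (Y i)) → (∀ i, c i 0 = 0) → V ≠ ⊤ →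
      (∀ b : ℕ → ℂ, ∫⁻ ω, ‖∑ i ∈ Finset.range K, b i * Y i ω‖ₑ ^ 2 ∂μ ≤
        ∑ i ∈ Finset.range K, ‖b i‖ₑ ^ 2) →
      (∀ (l : ℕ) (t : ℕ → ℕ), Monotone t → (∀ r, t r ≤ M) →
        ∑ r ∈ Finset.range l, (∑ i ∈ Finset.range K, ‖c i (t (r + 1)) - c i (t r)‖ₑ ^ 2) ^
          (q / 2) ≤ V ^ q) →
        ∫⁻ ω, (⨆ (j : ℕ) (_ : j ≤ M), ‖∑ i ∈ Finset.range K, c i j * Y i ω‖ₑ) ^ 2 ∂μ ≤
          C * ENNReal.ofReal (Real.log (2 + K) ^ 2 * (K : ℝ) ^ ((q - 2) / 2)) * V ^ 2)
    (hK : 1 ≤ K) {l : ℕ → ℕ} (hS : Sys n K l Y)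
    (hc : ∀ i, Continuous (fun z : ℝ × ℝ => c i z.1 z.2))
    (h0 : ∀ i R r, R ≤ 0 → c i R r = 0) {q : ℝ} (hq : 2 < q) (hq4 : q ≤ 4) {r : ℝ} (hr : 0 < r) :
    ∫⁻ θ, (⨆ m, gd K c Y m (r • (θ : E n))) ^ 2 ∂(sg n) ≤
      (1 + C) * ENNReal.ofReal (Real.log (2 + K) ^ 2 * (K : ℝ) ^ ((q - 2) / 2)) *
        WV q K c r ^ 2 := by
  have hfin : IsFiniteMeasure (sg n) := (h5 n hn).2.2
  have hY : ∀ i < K, Continuous (Y i) := fun i hi => (hS.har i hi).c2.continuous
  have hpos : 0 < Real.log (2 + K) ^ 2 * (K : ℝ) ^ ((q - 2) / 2) := by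
    have h1 : 0 < Real.log (2 + K) := Real.log_pos (by
      have : (0 : ℝ) ≤ K := Nat.cast_nonneg K
      linarith)
    have h2 : (0 : ℝ) < K := by exact_mod_cast hK
    positivity
  by_cases hV : WV q K c r = ⊤
  · rw [hV]
    refine le_trans le_top (le_of_eq ?_)
    rw [ENNReal.top_pow (by norm_num), ENNReal.mul_top]
    refine mul_ne_zero ?_ (ENNReal.ofReal_pos.2 hpos).ne'
    have a2 : (1 : ℝ≥0∞) ≤ 1 + C := le_self_add
    exact (zero_lt_one.trans_le a2).ne'
  · have hm : Measurable fun θ : Metric.sphere (0 : E n) 1 => r • (θ : E n) :=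
      (continuous_subtype_val.const_smul r).measurable
    have e : ∀ θ : Metric.sphere (0 : E n) 1, (⨆ m, gd K c Y m (r • (θ : E n))) ^ 2 =
        ⨆ m, gd K c Y m (r • (θ : E n)) ^ 2 := by
      intro θ
      rw [ENNReal.iSup_pow]
    simp only [e]
    rw [lintegral_iSup (f := fun m (θ : Metric.sphere (0 : E n) 1) =>
        gd K c Y m (r • (θ : E n)) ^ 2) (fun m => ((gd_meas hc hY m).comp hm).pow_const 2)
      (fun a b hab θ => pow_le_pow_left' (gd_mono _ hab) 2)]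
    refine iSup_le fun m => ?_
    -- one grid
    set Z : ℕ → Metric.sphere (0 : E n) 1 → ℂ := fun i θ => if i < K then Y i (θ : E n) else 0
      with hZ
    have hZs : ∀ (b : ℕ → ℂ) (θ : Metric.sphere (0 : E n) 1),
        ∑ i ∈ Finset.range K, b i * Z i θ = ∑ i ∈ Finset.range K, b i * Y i (θ : E n) := by
      intro b θ
      refine Finset.sum_congr rfl fun i hi => ?_
      rw [hZ]
      simp only [if_pos (Finset.mem_range.1 hi)]
    have h := hC (Metric.sphere (0 : E n) 1) (sg n) (4 ^ m) K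
      (fun i j => c i ((j : ℝ) / 2 ^ m) r) Z (WV q K c r) q hq hq4 hK
      (fun i => by
        by_cases hi : i < K
        · have : Z i = fun θ : Metric.sphere (0 : E n) 1 => Y i (θ : E n) := by
            funext θ
            rw [hZ]
            simp only [if_pos hi]
          rw [this]
          exact ((hY i hi).comp continuous_subtype_val).measurable
        · have : Z i = fun _ => 0 := by
            funext θ
            rw [hZ]
            simp only [if_neg hi]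
          rw [this]
          exact measurable_const)
      (fun i => h0 i _ r (by simp)) hV
      (fun b => by
        simp only [hZs]
        exact (orth hfin hS b).le)
      (fun L t ht _ => WV_ge (by linarith) r L (fun i => ((t i : ℕ) : ℝ) / 2 ^ m)
        fun i j hij => by
          have := ht hij
          have h2 : ((t i : ℕ) : ℝ) ≤ ((t j : ℕ) : ℝ) := by exact_mod_cast this
          exact div_le_div_of_nonneg_right h2 (by positivity))
    have e2 : ∀ θ : Metric.sphere (0 : E n) 1, gd K c Y m (r • (θ : E n)) =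
        ⨆ (j : ℕ) (_ : j ≤ 4 ^ m), ‖∑ i ∈ Finset.range K, c i ((j : ℝ) / 2 ^ m) r * Z i θ‖ₑ := by
      intro θ
      unfold gd
      refine iSup_congr fun j => iSup_congr fun _ => ?_
      rw [bc_polar hr _ (mem_sphere_zero_iff_norm.1 θ.2), hZs fun i => c i ((j : ℝ) / 2 ^ m) r]
    simp only [e2]
    refine h.trans ?_
    gcongr
    exact le_add_self

end

/-- the constant -/
theorem num {K : ℕ} (hK : 1 ≤ K) {q : ℝ} (hq : q = 2 + 2 / (2 + Real.log K)) :
    2 < q ∧ q ≤ 4 ∧ Real.log (2 + K) ^ 2 * (K : ℝ) ^ ((q - 2) / 2) * kr q ^ 14 ≤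
      (Real.exp 1 * 8 ^ 14) * Real.log (2 + K) ^ 16 := by
  have hK1 : (1 : ℝ) ≤ K := by exact_mod_cast hK
  have hl : 0 ≤ Real.log K := Real.log_nonneg hK1
  set a := 2 + Real.log K with ha
  have ha2 : 2 ≤ a := by linarith
  have h1 : q - 2 = 2 / a := by rw [hq]; ring
  have h2 : 0 < q - 2 := by rw [h1]; positivity
  have h3 : q - 2 ≤ 1 := by
    rw [h1, div_le_one (by linarith)]
    exact ha2
  have hL1 : 1 ≤ Real.log (2 + K) := by
    rw [Real.le_log_iff_exp_le (by linarith)]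
    have := Real.exp_one_lt_d9
    linarith
  have hLK : Real.log K ≤ Real.log (2 + K) := Real.log_le_log (by linarith) (by linarith)
  have h4 : kr q ≤ 8 * Real.log (2 + K) := by
    unfold kr
    rw [div_le_iff₀ h2, h1]
    have h5 : a ≤ 3 * Real.log (2 + K) := by rw [ha]; linarith
    have h6 : 8 * Real.log (2 + K) * (2 / a) = (8 * Real.log (2 + K) * 2) / a := by ring
    rw [h6, le_div_iff₀ (by linarith)]
    have h7 : q ≤ 3 := by linarith
    have h8 : 0 < a := by linarith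
    nlinarith
  have h0 : 0 ≤ kr q := by
    unfold kr
    exact div_nonneg (by linarith) h2.le
  have h5 : (K : ℝ) ^ ((q - 2) / 2) ≤ Real.exp 1 := by
    rw [Real.rpow_def_of_pos (by linarith), Real.exp_le_exp, h1]
    have e : Real.log K * (2 / a / 2) = Real.log K / a := by
      field_simp
    rw [e, div_le_one (by linarith)]
    linarith
  have h6 : kr q ^ 14 ≤ (8 * Real.log (2 + K)) ^ 14 := pow_le_pow_left₀ h0 h4 14
  refine ⟨by linarith, by linarith, ?_⟩
  calc Real.log (2 + K) ^ 2 * (K : ℝ) ^ ((q - 2) / 2) * kr q ^ 14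
      ≤ Real.log (2 + K) ^ 2 * Real.exp 1 * (8 * Real.log (2 + K)) ^ 14 := by
        gcongr
    _ = _ := by ring

end LKN_

open LKN_ in
/-- **LKN** -/
theorem p_LKN (h1 : T_VEC) (h2 : T_LCK) (h3 : T_POLN) : T_LKN := by
  intro n hn
  obtain ⟨C, hC⟩ := h2
  obtain ⟨D, hD⟩ := h1 n hn
  have hn0 : 0 < n := by omega
  obtain ⟨hp, -, -⟩ := h3 n hn0
  refine ⟨(1 + C) * D * (Real.exp 1 * 8 ^ 14).toNNReal, fun K l Y a hK hS ha hna => ?_⟩
  obtain ⟨c, hc, h0, hB, hW⟩ := hD K l Y a hS ha hna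
  have hY : ∀ i < K, Continuous (Y i) := fun i hi => (hS.har i hi).c2.continuous
  obtain ⟨hq, hq4, hnum⟩ := num hK (q := 2 + 2 / (2 + Real.log K)) rfl
  set q : ℝ := 2 + 2 / (2 + Real.log K) with hqdef
  have hae : ∀ᵐ x : E n, (⨆ (R : ℝ) (_ : 0 < R), ‖BN (fs K a Y) R x‖ₑ) ^ 2 =
      (⨆ m, gd K c Y m x) ^ 2 := by
    have hne : NeZero n := ⟨by omega⟩
    have hnt : Nontrivial (E n) := by
      have : Nonempty (Fin n) := ⟨⟨0, hn0⟩⟩
      infer_instance
    have h00 : ∀ᵐ x : E n, x ≠ 0 := by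
      rw [ae_iff]
      simp only [ne_eq, not_not]
      exact measure_singleton (0 : E n)
    filter_upwards [h00] with x hx
    rw [← sup_eq hc h0 x]
    congr 1
    refine iSup_congr fun R => iSup_congr fun _ => ?_
    have hx0 : 0 < ‖x‖ := norm_pos_iff.2 hx
    have e1 : x = ‖x‖ • (‖x‖⁻¹ • x) := by
      rw [smul_smul, mul_inv_cancel₀ hx0.ne', one_smul]
    have e2 : ‖‖x‖⁻¹ • x‖ = 1 := by
      rw [norm_smul, norm_inv, norm_norm, inv_mul_cancel₀ hx0.ne']
    have e3 := hB R ‖x‖ (‖x‖⁻¹ • x) hx0 e2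
    rw [← e1] at e3
    rw [e3]
    rfl
  rw [lintegral_congr_ae hae]
  have hGm : Measurable fun x : E n => (⨆ m, gd K c Y m x) ^ 2 :=
    (Measurable.iSup fun m => gd_meas hc hY m).pow_const 2
  rw [hp _ hGm]
  set Q : ℝ≥0∞ := (1 + (C : ℝ≥0∞)) *
    ENNReal.ofReal (Real.log (2 + K) ^ 2 * (K : ℝ) ^ ((q - 2) / 2)) with hQ
  have hQt : Q ≠ ⊤ := ENNReal.mul_ne_top (by simp) ENNReal.ofReal_ne_top
  calc ∫⁻ r in Ioi (0 : ℝ), ∫⁻ ω, ENNReal.ofReal (r ^ (n - 1)) *
        (⨆ m, gd K c Y m (r • (ω : E n))) ^ 2 ∂(sg n)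
      ≤ ∫⁻ r in Ioi (0 : ℝ), Q * (WV q K c r ^ 2 * ENNReal.ofReal (r ^ (n - 1))) := by
        refine setLIntegral_mono' measurableSet_Ioi fun r hr => ?_
        rw [lintegral_const_mul' _ _ ENNReal.ofReal_ne_top]
        calc _ ≤ ENNReal.ofReal (r ^ (n - 1)) * (Q * WV q K c r ^ 2) :=
              mul_le_mul_right (sph h3 hn0 hC hK hS hc h0 hq hq4 hr) _
          _ = _ := by ring
    _ = Q * ∫⁻ r in Ioi (0 : ℝ), WV q K c r ^ 2 * ENNReal.ofReal (r ^ (n - 1)) :=
        lintegral_const_mul' _ _ hQt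
    _ ≤ Q * (D * ENNReal.ofReal (kr q ^ 14) * ∑ i ∈ Finset.range K, nn n (a i)) :=
        mul_le_mul_right (hW q hq hq4) _
    _ = ((1 + (C : ℝ≥0∞)) * D) * (ENNReal.ofReal (Real.log (2 + K) ^ 2 *
          (K : ℝ) ^ ((q - 2) / 2)) * ENNReal.ofReal (kr q ^ 14)) *
          ∑ i ∈ Finset.range K, nn n (a i) := by
        rw [hQ]
        ring
    _ ≤ ((1 + (C : ℝ≥0∞)) * D) * (ENNReal.ofReal (Real.exp 1 * 8 ^ 14) *
          ENNReal.ofReal (Real.log (2 + K) ^ 16)) * ∑ i ∈ Finset.range K, nn n (a i) := by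
        refine mul_le_mul' (mul_le_mul' le_rfl ?_) le_rfl
        rw [← ENNReal.ofReal_mul' (by
          have hk : 0 ≤ kr q := div_nonneg (by linarith) (by linarith)
          positivity), ← ENNReal.ofReal_mul (by positivity)]
        exact ENNReal.ofReal_le_ofReal hnum
    _ = _ := by
        push_cast
        rw [ENNReal.ofReal]
        ring

end Pool.Agent.VRR
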