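import Pool.Agent.VRR.Targets3

set_option autoImplicit false

/-!
# VRR, block NRS: norms of sums of spherical harmonics (MP_ee701d_an)
-/

namespace Pool.Agent.VRR

open MeasureTheory FourierTransform Set Filter Topology
open scoped ENNReal NNReal ComplexConjugate
open Pool.Agent.MBS (E ex)
open Pool.Agent.CRN (sg SH T_POLN)

namespace NRS_

lemma enorm_sq (z : ℂ) : ‖z‖ₑ ^ 2 = ENNReal.ofReal (‖z‖ ^ 2) := by
  rw [ENNReal.ofReal_pow (norm_nonneg _), ofReal_norm]

lemma contY {n l : ℕ} {Y : E n → ℂ} (h : Har n l Y) :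
    Continuous (fun θ : Metric.sphere (0 : E n) 1 => Y (θ : E n)) :=
  h.c2.continuous.comp continuous_subtype_val

lemma intC {n : ℕ} [IsFiniteMeasure (sg n)] {F : Type} [NormedAddCommGroup F]
    {f : Metric.sphere (0 : E n) 1 → F} (hf : Continuous f) : Integrable f (sg n) :=
  hf.integrable_of_hasCompactSupport (HasCompactSupport.of_compactSpace f)

lemma intY {n l l' : ℕ} {Y Z : E n → ℂ} [IsFiniteMeasure (sg n)] (h : Har n l Y)
    (h' : Har n l' Z) :
    Integrable (fun θ : Metric.sphere (0 : E n) 1 => Y (θ : E n) * conj (Z (θ : E n))) (sg n) :=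
  intC ((contY h).mul (Complex.continuous_conj.comp (contY h')))

lemma contS {n K : ℕ} {l : ℕ → ℕ} {Y : ℕ → E n → ℂ} (hS : Sys n K l Y) (b : ℕ → ℂ) :
    Continuous (fun θ : Metric.sphere (0 : E n) 1 =>
      ∑ i ∈ Finset.range K, b i * Y i (θ : E n)) :=
  continuous_finsetSum _ fun i hi =>
    continuous_const.mul (contY (hS.har i (Finset.mem_range.1 hi)))

lemma sumsq {n K : ℕ} {l : ℕ → ℕ} {Y : ℕ → E n → ℂ} [IsFiniteMeasure (sg n)]
    (hS : Sys n K l Y) (b : ℕ → ℂ) :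
    ∫⁻ θ, ‖∑ i ∈ Finset.range K, b i * Y i (θ : E n)‖ₑ ^ 2 ∂(sg n) =
      ∑ i ∈ Finset.range K, ‖b i‖ₑ ^ 2 := by
  simp_rw [enorm_sq]
  have hc : Continuous fun θ : Metric.sphere (0 : E n) 1 =>
      ‖∑ i ∈ Finset.range K, b i * Y i (θ : E n)‖ ^ 2 := (contS hS b).norm.pow 2
  rw [← ofReal_integral_eq_lintegral_ofReal (intC hc)
    (Eventually.of_forall fun θ => by positivity),
    ← ENNReal.ofReal_sum_of_nonneg (fun i _ => by positivity)]
  congr 1
  have key : ((∫ θ, ‖∑ i ∈ Finset.range K, b i * Y i (θ : E n)‖ ^ 2 ∂(sg n) : ℝ) : ℂ) =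
      ((∑ i ∈ Finset.range K, ‖b i‖ ^ 2 : ℝ) : ℂ) := by
    rw [← integral_complex_ofReal]
    have e1 : ∀ θ : Metric.sphere (0 : E n) 1,
        ((‖∑ i ∈ Finset.range K, b i * Y i (θ : E n)‖ ^ 2 : ℝ) : ℂ) =
          ∑ i ∈ Finset.range K, ∑ j ∈ Finset.range K,
            (b i * conj (b j)) * (Y i (θ : E n) * conj (Y j (θ : E n))) := by
      intro θ
      rw [Complex.ofReal_pow, ← Complex.mul_conj', map_sum, Finset.sum_mul_sum]
      refine Finset.sum_congr rfl fun i _ => Finset.sum_congr rfl fun j _ => ?_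
      rw [map_mul]
      ring
    simp_rw [e1]
    rw [integral_finsetSum]
    · rw [Complex.ofReal_sum]
      refine Finset.sum_congr rfl fun i hi => ?_
      rw [integral_finsetSum]
      · have e2 : ∀ j ∈ Finset.range K,
            ∫ θ, (b i * conj (b j)) * (Y i (θ : E n) * conj (Y j (θ : E n))) ∂(sg n) =
              if i = j then b i * conj (b j) else 0 := by
          intro j hj
          rw [integral_const_mul, hS.ort i (Finset.mem_range.1 hi) j (Finset.mem_range.1 hj)]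
          split_ifs <;> simp
        rw [Finset.sum_congr rfl e2, Finset.sum_ite_eq, if_pos hi, Complex.mul_conj',
          Complex.ofReal_pow]
      · intro j hj
        exact (intY (hS.har i (Finset.mem_range.1 hi))
          (hS.har j (Finset.mem_range.1 hj))).const_mul _
    · intro i hi
      exact integrable_finsetSum _ fun j hj => (intY (hS.har i (Finset.mem_range.1 hi))
          (hS.har j (Finset.mem_range.1 hj))).const_mul _
  exact_mod_cast key

lemma meas_rh {n l : ℕ} {a : ℝ → ℂ} {Y : E n → ℂ} (ha : Measurable a) (h : Har n l Y) :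
    Measurable (rh a Y) := by
  have h1 : Measurable fun ξ : E n => ‖ξ‖⁻¹ • ξ :=
    (measurable_norm.inv).smul measurable_id
  exact (ha.comp measurable_norm).mul (h.c2.continuous.measurable.comp h1)

lemma meas_fs {n K : ℕ} {l : ℕ → ℕ} {Y : ℕ → E n → ℂ} {a : ℕ → ℝ → ℂ} (hS : Sys n K l Y)
    (ha : ∀ i, Measurable (a i)) : Measurable (fs K a Y) :=
  Finset.measurable_fun_sum _ fun i hi => meas_rh (ha i) (hS.har i (Finset.mem_range.1 hi))

lemma rh_polar {n : ℕ} (a : ℝ → ℂ) (Y : E n → ℂ) {r : ℝ} (hr : 0 < r)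
    (θ : Metric.sphere (0 : E n) 1) : rh a Y (r • (θ : E n)) = a r * Y θ := by
  have h1 : ‖(θ : E n)‖ = 1 := by
    have := θ.2
    rwa [mem_sphere_zero_iff_norm] at this
  have h2 : ‖r • (θ : E n)‖ = r := by rw [norm_smul, h1, Real.norm_of_nonneg hr.le, mul_one]
  unfold rh
  rw [h2, smul_smul, inv_mul_cancel₀ hr.ne', one_smul]

lemma fs_polar {n : ℕ} (K : ℕ) (a : ℕ → ℝ → ℂ) (Y : ℕ → E n → ℂ) {r : ℝ} (hr : 0 < r)
    (θ : Metric.sphere (0 : E n) 1) :
    fs K a Y (r • (θ : E n)) = ∑ i ∈ Finset.range K, a i r * Y i θ := by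
  unfold fs
  exact Finset.sum_congr rfl fun i _ => rh_polar (a i) (Y i) hr θ

end NRS_

open NRS_ in
theorem p_NRS (h1 : Pool.Agent.CRN.T_POLN) : T_NRS := by
  intro n K l Y a hn hS ha _
  refine ⟨meas_fs hS ha, ?_⟩
  obtain ⟨hP, -, hfin⟩ := h1 n (by omega)
  have := hfin
  rw [hP (fun ξ => ‖fs K a Y ξ‖ₑ ^ 2) ((meas_fs hS ha).enorm.pow_const 2)]
  have e1 : ∫⁻ r in Ioi (0 : ℝ), ∫⁻ ω, ENNReal.ofReal (r ^ (n - 1)) *
      ‖fs K a Y (r • (ω : E n))‖ₑ ^ 2 ∂(sg n) =
      ∫⁻ r in Ioi (0 : ℝ), ∑ i ∈ Finset.range K,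
        ‖a i r‖ₑ ^ 2 * ENNReal.ofReal (r ^ (n - 1)) := by
    refine setLIntegral_congr_fun measurableSet_Ioi fun r hr => ?_
    have hr' : (0 : ℝ) < r := hr
    rw [lintegral_const_mul' _ _ ENNReal.ofReal_ne_top]
    simp_rw [fs_polar K a Y hr']
    rw [sumsq hS (fun i => a i r), mul_comm, Finset.sum_mul]
  have hm : ∀ i ∈ Finset.range K, Measurable fun r : ℝ =>
      ‖a i r‖ₑ ^ 2 * ENNReal.ofReal (r ^ (n - 1)) := fun i _ =>
    ((ha i).enorm.pow_const 2).mul (ENNReal.measurable_ofReal.comp (measurable_id.pow_const _))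
  rw [e1, lintegral_finsetSum _ hm]
  rfl

end Pool.Agent.VRR
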