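import Pool.Agent.VRR.Targets3
import Pool.Agent.VRC.P_RDV

set_option autoImplicit false

/-!
# VRR, target RDQ: the variation estimate for functions of pure angular degree
-/

namespace Pool.Agent.VRR

open MeasureTheory FourierTransform Set Filter Topology
open scoped ENNReal NNReal
open Pool.Agent.MBS (E ex)
open Pool.Agent.CAR (e1)
open Pool.Agent.CRN (sg SH T_POLN)
open Pool.Agent.CRR (NSol kap)
open Pool.Agent.VRC (Pure od T_GMV)
open Pool.Agent.VRC.RDV_ (intEx int_cont int_ball sh_sub sh_meas sI eps_pos lim polar pow_eq FF int_log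
  od_nonneg lint_log lint_G enorm_real)

namespace RDQ_

variable {n : ℕ}

theorem VQ_meas {q : ℝ} {g : E n → ℂ}
    (h : ∀ R : ℝ, IntegrableOn g (Metric.closedBall (0 : E n) R)) :
    Measurable (VQ q g) := by
  refine LowerSemicontinuous.measurable ?_
  refine lowerSemicontinuous_iSup fun L => lowerSemicontinuous_iSup fun N =>
    lowerSemicontinuous_iSup fun _ => ?_
  refine Continuous.lowerSemicontinuous ?_
  refine ENNReal.continuous_rpow_const.comp (continuous_finsetSum _ fun j _ => ?_)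
  refine ENNReal.continuous_rpow_const.comp ?_
  exact (int_cont ((h (N (j + 1))).mono_set (sh_sub _ _))).enorm

theorem VQ_le {q : ℝ} (hn : 2 ≤ n) {g : E n → ℂ}
    (h : ∀ R : ℝ, IntegrableOn g (Metric.closedBall (0 : E n) R)) {x : E n} {B : ℝ≥0∞}
    (hB : ∀ (L : ℕ) (N : ℕ → ℝ), Monotone N → (∀ j, 0 < N j) →
      (∑ j ∈ Finset.range L, ‖sI g x (N j) (N (j + 1))‖ₑ ^ q) ^ (1 / q) ≤ B) :
    VQ q g x ≤ B := by
  unfold VQ
  refine iSup_le fun L => iSup_le fun N => iSup_le fun hN => ?_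
  have hlim : Tendsto (fun m : ℕ => (∑ j ∈ Finset.range L,
      ‖sI g x (max (N j) (1 / ((m : ℝ) + 1))) (max (N (j + 1)) (1 / ((m : ℝ) + 1)))‖ₑ ^ q) ^
        (1 / q)) atTop
      (𝓝 ((∑ j ∈ Finset.range L, ‖sI g x (N j) (N (j + 1))‖ₑ ^ q) ^ (1 / q))) := by
    refine (ENNReal.continuous_rpow_const.tendsto _).comp ?_
    refine tendsto_finsetSum _ fun j _ => ?_
    refine (ENNReal.continuous_rpow_const.tendsto _).comp ?_
    exact (continuous_enorm.tendsto _).comp (lim hn h x (N j) (N (j + 1)))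
  refine le_of_tendsto' hlim fun m => ?_
  exact hB L (fun j => max (N j) (1 / ((m : ℝ) + 1)))
    (fun i j hij => max_le_max (hN hij) le_rfl) (fun j => lt_max_of_lt_right (eps_pos m))

theorem scale {q : ℝ} (hq : 0 < q) (L : ℕ) (A B : ℕ → ℂ) (c : ℝ≥0∞)
    (h : ∀ j < L, ‖A j‖ₑ = c * ‖B j‖ₑ) :
    (∑ j ∈ Finset.range L, ‖A j‖ₑ ^ q) ^ (1 / q) =
      c * (∑ j ∈ Finset.range L, ‖B j‖ₑ ^ q) ^ (1 / q) := by
  have h1 : ∑ j ∈ Finset.range L, ‖A j‖ₑ ^ q = c ^ q * ∑ j ∈ Finset.range L, ‖B j‖ₑ ^ q := by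
    rw [Finset.mul_sum]
    refine Finset.sum_congr rfl fun j hj => ?_
    rw [h j (Finset.mem_range.1 hj), ENNReal.mul_rpow_of_nonneg _ _ hq.le]
  rw [h1, ENNReal.mul_rpow_of_nonneg _ _ (by positivity), ← ENNReal.rpow_mul,
    mul_one_div_cancel hq.ne', ENNReal.rpow_one]

theorem VQ_bound {q : ℝ} (hq : 0 < q) (h4 : T_POLN) (hn : 2 ≤ n) {g : E n → ℂ}
    (h : ∀ R : ℝ, IntegrableOn g (Metric.closedBall (0 : E n) R)) {J : ℝ → ℝ}
    {G : ℝ → E n → ℂ} {r : ℝ} {θ : E n} (hr : 0 < r)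
    (hG : ∀ ρ : ℝ, 0 < ρ → ((r ^ (((n : ℝ) - 2) / 2) : ℝ) : ℂ) * SH g ρ (r • θ) =
        G ρ θ * J (Real.log (2 * Real.pi * r * ρ))) :
    ENNReal.ofReal (r ^ (n - 1)) * VQ q g (r • θ) ^ 2 ≤
      ENNReal.ofReal r⁻¹ *
        Vo q (FF J (fun v => G (Real.exp v / (2 * Real.pi)) θ) (Real.log r)) ^ 2 := by
  set w : ℝ := r ^ (((n : ℝ) - 2) / 2) with hw
  have hw0 : 0 < w := Real.rpow_pos_of_pos hr _
  obtain ⟨c, hc⟩ : ∃ c : ℝ, c = w⁻¹ * (2 * Real.pi * r)⁻¹ := ⟨_, rfl⟩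
  have hc0 : 0 ≤ c := by rw [hc]; positivity
  set F := FF J (fun v => G (Real.exp v / (2 * Real.pi)) θ) (Real.log r) with hF
  have key : ∀ a b : ℝ, 0 < a → 0 < b →
      sI g (r • θ) a b = (c : ℂ) * F (Real.log (2 * Real.pi * a)) (Real.log (2 * Real.pi * b)) := by
    intro a b ha hb
    have h1 : (w : ℂ) * sI g (r • θ) a b = (((2 * Real.pi * r)⁻¹ : ℝ) : ℂ) *
        F (Real.log (2 * Real.pi * a)) (Real.log (2 * Real.pi * b)) := by
      rw [polar h4 hn h (r • θ) ha, ← integral_const_mul, hF]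
      unfold Pool.Agent.VRC.RDV_.FF
      rw [← int_log (fun ρ => G ρ θ) J hr ha hb]
      exact setIntegral_congr_fun measurableSet_Ioc fun ρ hρ => hG ρ (ha.trans hρ.1)
    have hwc : (w : ℂ) ≠ 0 := by exact_mod_cast hw0.ne'
    have h2 : sI g (r • θ) a b = (w : ℂ)⁻¹ * ((w : ℂ) * sI g (r • θ) a b) := by
      rw [← mul_assoc, inv_mul_cancel₀ hwc, one_mul]
    rw [h2, h1, hc]
    push_cast
    ring
  have hVB : VQ q g (r • θ) ≤ ENNReal.ofReal c * Vo q F := by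
    refine VQ_le hn h fun L N hN hp => ?_
    have hV : Monotone (fun j => Real.log (2 * Real.pi * N j)) := by
      intro i j hij
      have := hp i
      have := hN hij
      exact Real.log_le_log (by positivity) (by gcongr)
    rw [scale hq L (fun j => sI g (r • θ) (N j) (N (j + 1)))
      (fun j => F (Real.log (2 * Real.pi * N j)) (Real.log (2 * Real.pi * N (j + 1))))
      (ENNReal.ofReal c) (fun j _ => by
        rw [key _ _ (hp j) (hp (j + 1)), enorm_mul, enorm_real hc0])]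
    refine mul_le_mul_right ?_ _
    unfold Vo
    exact le_iSup_of_le L (le_iSup_of_le (fun j => Real.log (2 * Real.pi * N j))
      (le_iSup_of_le hV le_rfl))
  have h1 : r ^ (n - 1) * c ^ 2 ≤ r⁻¹ := by
    have hpi : 1 ≤ 2 * Real.pi := by linarith [Real.pi_gt_three]
    have h2 : r ^ (n - 1) * c ^ 2 = ((2 * Real.pi) ^ 2)⁻¹ * r⁻¹ := by
      rw [pow_eq hn hr, ← hw, hc]
      field_simp
    rw [h2]
    have h3 : ((2 * Real.pi) ^ 2)⁻¹ ≤ 1 := inv_le_one_of_one_le₀ (one_le_pow₀ hpi)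
    calc ((2 * Real.pi) ^ 2)⁻¹ * r⁻¹ ≤ 1 * r⁻¹ := by gcongr
      _ = r⁻¹ := one_mul _
  calc ENNReal.ofReal (r ^ (n - 1)) * VQ q g (r • θ) ^ 2
      ≤ ENNReal.ofReal (r ^ (n - 1)) * (ENNReal.ofReal c * Vo q F) ^ 2 := by gcongr
    _ = ENNReal.ofReal (r ^ (n - 1) * c ^ 2) * Vo q F ^ 2 := by
        rw [ENNReal.ofReal_mul (by positivity), ENNReal.ofReal_pow hc0]
        ring
    _ ≤ ENNReal.ofReal r⁻¹ * Vo q F ^ 2 := by gcongr

theorem ray {q : ℝ} (hq : 0 < q) {CH : ℝ≥0∞} (hH : ∀ (ν : ℝ) (J J' : ℝ → ℝ) (g : ℝ → ℂ), 0 ≤ ν →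
    NSol ν J J' → Measurable g →
    ∫⁻ u, Vo q (fun V1 V2 => ∫ v in Ioc V1 V2, kap J (u + v) * g v) ^ 2 ≤ CH * ∫⁻ v, ‖g v‖ₑ ^ 2)
    {ν : ℝ} (hν : 0 ≤ ν) {J J' : ℝ → ℝ} {G : ℝ → ℂ} (hGm : Measurable G)
    (hNS : (∀ ρ, G ρ = 0) ∨ NSol ν J J') :
    ∫⁻ r in Ioi (0 : ℝ), ENNReal.ofReal r⁻¹ *
      Vo q (FF J (fun v => G (Real.exp v / (2 * Real.pi))) (Real.log r)) ^ 2 ≤
      CH * ∫⁻ ρ in Ioi (0 : ℝ), ‖G ρ‖ₑ ^ 2 * ENNReal.ofReal ρ⁻¹ := by
  rw [lint_log (fun u => Vo q (FF J (fun v => G (Real.exp v / (2 * Real.pi))) u) ^ 2), ← lint_G]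
  rcases hNS with h | h
  · have h0 : ∀ u, Vo q (FF J (fun v => G (Real.exp v / (2 * Real.pi))) u) = 0 := by
      intro u
      unfold Vo Pool.Agent.VRC.RDV_.FF
      simp only [h, mul_zero, integral_zero, enorm_zero, ENNReal.zero_rpow_of_pos hq,
        Finset.sum_const_zero]
      rw [ENNReal.zero_rpow_of_pos (by positivity)]
      simp
    simp only [h0, ne_eq, OfNat.ofNat_ne_zero, not_false_eq_true, zero_pow, lintegral_zero]
    exact zero_le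
  · exact hH ν J J' _ hν h (hGm.comp (by fun_prop))

end RDQ_

open RDQ_ in
theorem p_RDQ (_h0 : T_REX) (h1 : T_HAV) (h2 : Pool.Agent.VRC.T_GMV) (h3 : Pool.Agent.CRN.T_POLN)
    (_h4 : T_VCM) : T_RDQ := by
  intro n hn
  obtain ⟨CH, hH⟩ := h1
  obtain ⟨CG, hG⟩ := h2 n hn
  have hfin : IsFiniteMeasure (sg n) := (h3 n (by omega)).2.2
  refine ⟨CH * CG + 1, fun q hq hq4 l g hg hp => ?_⟩
  have hq0 : 0 < q := by linarith
  have hk : 0 < kr q := by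
    unfold kr
    have : 0 < q - 2 := by linarith
    positivity
  by_cases hfi : ∫⁻ ξ, ‖g ξ‖ₑ ^ 2 = ⊤
  · rw [hfi, ENNReal.mul_top (mul_ne_zero (by
      push_cast
      exact (lt_of_lt_of_le one_pos le_add_self).ne')
      (ENNReal.ofReal_pos.2 (by positivity)).ne')]
    exact le_top
  have hb := int_ball hg hfi
  obtain ⟨J, J', G, hGm, hNS, hco, hsum⟩ := hG l g hg hp
  have hVm : Measurable (fun x => VQ q g x ^ 2) := (VQ_meas hb).pow_const 2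
  have hm2 : Measurable (fun z : ℝ × Metric.sphere (0 : E n) 1 =>
      ENNReal.ofReal (z.1 ^ (n - 1)) * VQ q g (z.1 • (z.2 : E n)) ^ 2) := by
    refine Measurable.mul (by fun_prop) ?_
    exact hVm.comp (by fun_prop)
  have hKt : (CH : ℝ≥0∞) * ENNReal.ofReal (kr q ^ 14) ≠ ⊤ :=
    ENNReal.mul_ne_top ENNReal.coe_ne_top ENNReal.ofReal_ne_top
  calc ∫⁻ x, VQ q g x ^ 2
      = ∫⁻ r in Ioi (0 : ℝ), ∫⁻ ω, ENNReal.ofReal (r ^ (n - 1)) *
          VQ q g (r • (ω : E n)) ^ 2 ∂(sg n) := (h3 n (by omega)).1 _ hVm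
    _ = ∫⁻ ω, ∫⁻ r in Ioi (0 : ℝ), ENNReal.ofReal (r ^ (n - 1)) *
          VQ q g (r • (ω : E n)) ^ 2 ∂(volume : Measure ℝ) ∂(sg n) :=
        lintegral_lintegral_swap hm2.aemeasurable
    _ ≤ ∫⁻ ω, ((CH : ℝ≥0∞) * ENNReal.ofReal (kr q ^ 14) *
          ∫⁻ ρ in Ioi (0 : ℝ), ‖G ρ (ω : E n)‖ₑ ^ 2 * ENNReal.ofReal ρ⁻¹) ∂(sg n) := by
        refine lintegral_mono fun ω => ?_
        have hω : ‖(ω : E n)‖ = 1 := mem_sphere_zero_iff_norm.1 ω.2
        have hGω : Measurable (fun ρ => G ρ (ω : E n)) :=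
          hGm.comp (measurable_id.prodMk measurable_const)
        refine le_trans ?_ (ray hq0 (hH q hq hq4) (od_nonneg hn l) hGω
          (hNS.imp (fun h ρ => h ρ _) (fun h => h)))
        exact setLIntegral_mono' measurableSet_Ioi fun r hr =>
          VQ_bound hq0 h3 hn hb hr fun ρ hρ => hco ρ r _ hρ hr hω
    _ = (CH : ℝ≥0∞) * ENNReal.ofReal (kr q ^ 14) *
          ∫⁻ ω, (∫⁻ ρ in Ioi (0 : ℝ), ‖G ρ (ω : E n)‖ₑ ^ 2 * ENNReal.ofReal ρ⁻¹) ∂(sg n) :=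
        lintegral_const_mul' _ _ hKt
    _ ≤ (CH : ℝ≥0∞) * ENNReal.ofReal (kr q ^ 14) * (CG * ∫⁻ ξ, ‖g ξ‖ₑ ^ 2) := by gcongr
    _ = ((CH : ℝ≥0∞) * CG) * ENNReal.ofReal (kr q ^ 14) * ∫⁻ ξ, ‖g ξ‖ₑ ^ 2 := by ring
    _ ≤ ((CH * CG + 1 : ℝ≥0) : ℝ≥0∞) * ENNReal.ofReal (kr q ^ 14) * ∫⁻ ξ, ‖g ξ‖ₑ ^ 2 := by
        gcongr
        push_cast
        exact le_self_add

end Pool.Agent.VRR
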