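import Pool.Agent.VRR.All
import Pool.Agent.CRW.P_LCP
import Pool.Agent.VRR.P_GAU
import Pool.Agent.VRR.P_HBO
import Pool.Agent.VRR.P_FHK
import Pool.Agent.VRR.P_RDQ
import Pool.Agent.VRR.P_HCO
import Pool.Agent.VRR.P_VEC
import Pool.Agent.VRR.P_LCK
import Pool.Agent.VRR.P_LPN
import Pool.Agent.VRR.P_LKN
import Pool.Agent.VRR.P_NRS
import Pool.Agent.VRR.P_LIN
import Pool.Agent.VRR.P_CVG
import Pool.Agent.VRR.P_SYF

set_option autoImplicit false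

/-!
# VRR: assembly, third part (MP_ee701d_an): systems of spherical harmonics, all dimensions
-/

namespace Pool.Agent.VRR

theorem q_HBO : T_HBO := p_HBO p_GAU

theorem q_FHK : T_FHK := p_FHK q_HBO Pool.Agent.VRC.q_ODV Pool.Agent.CRR.q_UNI
  Pool.Agent.CRN.p_POLN

theorem q_RDQ : T_RDQ := p_RDQ p_REX q_HAV Pool.Agent.VRC.q_GMV Pool.Agent.CRN.p_POLN p_VCM

theorem q_HCO : T_HCO := p_HCO q_FHK q_RDQ Pool.Agent.CRN.p_POLN

theorem q_VEC : T_VEC := p_VEC q_HCO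

theorem q_LPN : T_LPN := p_LPN q_VEC Pool.Agent.CRW.p_LCP Pool.Agent.CRN.p_POLN

theorem q_LKN : T_LKN := p_LKN q_VEC p_LCK Pool.Agent.CRN.p_POLN

theorem q_NRS : T_NRS := p_NRS Pool.Agent.CRN.p_POLN

theorem q_LIN : T_LIN := p_LIN q_LPN q_NRS

theorem q_SYF : T_SYF := p_SYF q_LIN q_LKN q_NRS p_CVG

end Pool.Agent.VRR
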