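import Pool.Agent.VRC.Targets

set_option autoImplicit false

/-!
# VRR: the variation norm Carleson theorem, `V^r`, `2 < r ≤ 4`, with constants `C K^a`, `K = r/(r-2)`: definitions

Same as `Pool/Agent/VRC/Defs.lean` with `4/3` replaced by `rc r = r/(r-1)`, `3/4` by `1 - 1/r` and `4` by `r`. The
structures `PQ`, `GG2`, `Act`, `vc`, `vav` of VRC do not contain the exponent and are used as they are.
-/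

namespace Pool.Agent.VRR

open MeasureTheory Set ComplexConjugate
open scoped ENNReal NNReal
open Pool.Agent.CAR
open Pool.Agent.VRC (PQ Act vc vav)

/-- the conjugate exponent, in `[4/3, 2)` -/
noncomputable def rc (r : ℝ) : ℝ := r / (r - 1)

/-- `K = r/(r-2) ≥ 2`, `1/K = 1 - 2/r` -/
noncomputable def kr (r : ℝ) : ℝ := r / (r - 2)

/-- weights: `∑_{j<L} |a j x|^(r') ≤ h^(r') 1_E(x)` -/
structure AB (r : ℝ) (L : ℕ) (a : ℕ → ℝ → ℂ) (h : ℝ) (E : Set ℝ) : Prop where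
  ma : ∀ j, Measurable (a j)
  mE : MeasurableSet E
  fE : volume E ≠ ⊤
  h0 : 0 ≤ h
  bd : ∀ x, ∑ j ∈ Finset.range L, ‖a j x‖ ^ rc r ≤ h ^ rc r
  z : ∀ j < L, ∀ x, x ∉ E → a j x = 0

/-- the weight of the frequencies in `U` at `x` -/
noncomputable def vm (r : ℝ) (L : ℕ) (p : ℕ → ℝ → ℝ) (a : ℕ → ℝ → ℂ) (U : Set ℝ) (x : ℝ) : ℝ :=
  ∑ j ∈ Finset.range L, (p j ⁻¹' U).indicator (fun y => ‖a j y‖ ^ rc r) x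

/-- the density of a tile -/
noncomputable def vdn (r : ℝ) (L : ℕ) (p : ℕ → ℝ → ℝ) (a : ℕ → ℝ → ℂ) (u : Tile) : ℝ :=
  ∫ x, (2 : ℝ) ^ (-u.k) * (wt 8 (u.u x) * vm r L p a u.om x)

/-- the mass of `S` is at most `mu` -/
def VMs (r : ℝ) (L : ℕ) (p : ℕ → ℝ → ℝ) (a : ℕ → ℝ → ℂ) (S : Finset Tile) (mu : ℝ) : Prop :=
  ∀ s ∈ S, ∀ u : Tile, TLE s u → vdn r L p a u ≤ mu

/-- `(∑_{j<L} |a j x|^(r'))^(1/r')` -/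
noncomputable def amp (r : ℝ) (L : ℕ) (a : ℕ → ℝ → ℂ) (x : ℝ) : ℝ :=
  (∑ j ∈ Finset.range L, ‖a j x‖ ^ rc r) ^ (1 - 1 / r)

/-- `‖amp‖₂` -/
noncomputable def na (r : ℝ) (L : ℕ) (a : ℕ → ℝ → ℂ) : ℝ := Real.sqrt (∫ x, amp r L a x ^ 2)

/-- the `r`-variation of `z` on `[m, M]` -/
noncomputable def Vz (r : ℝ) (z : ℤ → ℂ) (m M : ℤ) : ℝ≥0∞ :=
  ⨆ (P : Finset (ℤ × ℤ)) (_ : (∀ c ∈ P, m ≤ c.1 ∧ c.1 ≤ c.2 ∧ c.2 ≤ M) ∧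
    ∀ c ∈ P, ∀ d ∈ P, c ≠ d → c.2 ≤ d.1 ∨ d.2 ≤ c.1),
    (∑ c ∈ P, ‖z c.2 - z c.1‖ₑ ^ r) ^ (1 / r)

/-- the `r`-variation in `N` of `∫_{ξ < N} g(ξ) e^{2 π i x ξ} dξ` -/
noncomputable def VC (r : ℝ) (g : ℝ → ℂ) (x : ℝ) : ℝ≥0∞ :=
  ⨆ (L : ℕ) (N : ℕ → ℝ) (_ : Monotone N),
    (∑ j ∈ Finset.range L, ‖∫ ξ in Ico (N j) (N (j + 1)), g ξ * e1 (x * ξ)‖ₑ ^ r) ^ (1 / r)

end Pool.Agent.VRR
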