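import Pool.Agent.VRR.Targets
import Pool.Agent.VRC.P_VLIM

set_option autoImplicit false

/-!
# VRR: the limit operator (target LIM)
-/

namespace Pool.Agent.VRR

open MeasureTheory Set ComplexConjugate Filter Topology
open scoped ENNReal NNReal
open Pool.Agent.CAR
open Pool.Agent.VRC (PQ Act vc vav GG2 NJ da ps Gm bp Yk)

/-- the integrability of the weights -/
theorem LIM_.int_a {r : ℝ} (h0 : 0 < rc r) {L : ℕ} {a : ℕ → ℝ → ℂ} {h : ℝ} {E : Set ℝ}
    (hA : AB r L a h E) : ∀ j < L, Integrable (a j) := by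
  intro j hj
  have h1 : Integrable (E.indicator fun _ => h) :=
    (integrable_indicator_iff hA.mE).2 (integrableOn_const hA.fE)
  refine h1.mono' (hA.ma j).aestronglyMeasurable (Eventually.of_forall fun x => ?_)
  by_cases hx : x ∈ E
  · rw [indicator_of_mem hx]
    have h2 : ‖a j x‖ ^ rc r ≤ h ^ rc r :=
      (Finset.single_le_sum (f := fun j => ‖a j x‖ ^ rc r)
        (fun i _ => Real.rpow_nonneg (norm_nonneg _) _) (Finset.mem_range.2 hj)).trans (hA.bd x)
    exact (Real.rpow_le_rpow_iff (norm_nonneg _) hA.h0 h0).1 h2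
  · rw [indicator_of_notMem hx, hA.z j hj x hx, norm_zero]

theorem LIM_.MM_def (ρ : ℝ → ℝ) (K : ℕ) (d a : ℝ) :
    Pool.Agent.VRC.VLIM_.MM ρ K d a =
      ∫ κ in (0 : ℝ)..1, Pool.Agent.VRC.VLIM_.SS ρ K κ d a := rfl

attribute [local irreducible] Pool.Agent.VRC.VLIM_.SS Pool.Agent.VRC.VLIM_.MM

open Pool.Agent.VRC.VLIM_ in
/-- **LIM** -/
theorem p_LIM (h0 : T_REX) (h1 : T_SCK) : T_LIM := by
  intro A ρ hρ
  obtain ⟨C, hC0, hC⟩ := h1 A ρ hρ
  obtain ⟨c, M', -, hM', -⟩ := p_BT A ρ hρ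
  obtain ⟨M, hM0, hM⟩ := Pool.Agent.CAR.LIM_.bd_rho hρ
  refine ⟨C, hC0, ?_⟩
  intro r hr hr4 g L p q a h E hg hpq hab
  have hrc : 0 < rc r := by
    have h2 := (h0 r hr hr4).1
    linarith
  have ha := LIM_.int_a hrc hab
  have hgi := hg.ig
  have hdm : ∀ j, Measurable (fun P : ℝ × ℝ => (p j P.1 - q j P.1, p j P.1 - P.2)) := by
    intro j
    exact (((hpq.mp j).comp measurable_fst).sub ((hpq.mq j).comp measurable_fst)).prodMk
      (((hpq.mp j).comp measurable_fst).sub measurable_snd)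
  -- the bound for finite `K`
  have hK : ∀ K : ℕ, ‖∫ P : ℝ × ℝ, ∑ j ∈ Finset.range L, a j P.1 * (g P.2 *
      ((MM ρ K (p j P.1 - q j P.1) (p j P.1 - P.2) : ℂ) * e1 (P.1 * P.2)))
      ∂(volume.prod volume)‖ ≤ C * kr r ^ 3 * n2 g * na r L a := by
    intro K
    have hF : ∀ j < L, Measurable (fun Q : ℝ × (ℝ × ℝ) =>
        SS ρ K Q.1 (p j Q.2.1 - q j Q.2.1) (p j Q.2.1 - Q.2.2)) := by
      intro j _
      exact (meas_SS hρ.cont K).comp (measurable_fst.prodMk ((hdm j).comp measurable_snd))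
    have e := avg (F := fun j κ P => SS ρ K κ (p j P.1 - q j P.1) (p j P.1 - P.2)) ha hgi hF
      (M := (Finset.Icc (-(K : ℤ)) K).card * M) (fun j _ κ P => abs_SS hM K κ _ _)
    have e' : ∫ P : ℝ × ℝ, ∑ j ∈ Finset.range L, a j P.1 * (g P.2 *
      ((MM ρ K (p j P.1 - q j P.1) (p j P.1 - P.2) : ℂ) * e1 (P.1 * P.2)))
      ∂(volume.prod volume) = ∫ κ in (0 : ℝ)..1, ∫ P : ℝ × ℝ, ∑ j ∈ Finset.range L,
        a j P.1 * (g P.2 * ((SS ρ K κ (p j P.1 - q j P.1) (p j P.1 - P.2) : ℂ) *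
          e1 (P.1 * P.2))) ∂(volume.prod volume) := by
      simp only [LIM_.MM_def]
      exact e
    rw [e']
    have h2 := intervalIntegral.norm_integral_le_of_norm_le_const (a := (0 : ℝ)) (b := 1)
      (f := fun κ => ∫ P : ℝ × ℝ, ∑ j ∈ Finset.range L,
        a j P.1 * (g P.2 * ((SS ρ K κ (p j P.1 - q j P.1) (p j P.1 - P.2) : ℂ) *
          e1 (P.1 * P.2))) ∂(volume.prod volume))
      (C := C * kr r ^ 3 * n2 g * na r L a) (fun κ _ => by
        have hm : ∀ j < L, Measurable (fun P : ℝ × ℝ =>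
            SS ρ K κ (p j P.1 - q j P.1) (p j P.1 - P.2)) := fun j _ =>
          (meas_SS hρ.cont K).comp ((measurable_const (a := κ)).prodMk (hdm j))
        have e2 := sum2 (f := fun j P => SS ρ K κ (p j P.1 - q j P.1) (p j P.1 - P.2)) ha hgi hm
          (M := (Finset.Icc (-(K : ℤ)) K).card * M) (fun j _ P => abs_SS hM K κ _ _)
        rw [← e2]
        have h3 := hC r hr hr4 g L p q a h E hg hpq hab K ((2 : ℝ) ^ κ)
          (Real.rpow_pos_of_pos (by norm_num) _)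
        have h4 : ∀ x, ∑ j ∈ Finset.range L, a j x * ∑ k ∈ Finset.Icc (-(K : ℤ)) K,
            {y | 5 / 4 ≤ (2 : ℝ) ^ κ * (2 : ℝ) ^ k * (p j y - q j y)}.indicator
              (fun y => ∫ ξ, g ξ * (Bt ρ ((2 : ℝ) ^ κ * (2 : ℝ) ^ k) (p j y - ξ) : ℂ) *
                e1 (y * ξ)) x = ∑ j ∈ Finset.range L, a j x *
            ∫ ξ, g ξ * (SS ρ K κ (p j x - q j x) (p j x - ξ) : ℂ) * e1 (x * ξ) := by
          intro x
          refine Finset.sum_congr rfl fun j _ => ?_
          rw [sum_in hgi hρ.cont hM K κ x (p j) (q j)]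
        simp only [h4] at h3
        exact h3)
    simpa using h2
  -- the limit
  have hGb : ∀ j < L, ∀ P : ℝ × ℝ, |Gm ρ ((p j P.1 - P.2) / (p j P.1 - q j P.1))| ≤ M' := by
    intro j hj P
    have h3 := lim_MM hρ hM (sub_nonneg.2 (hpq.le j hj P.1)) (p j P.1 - P.2)
    exact le_of_tendsto h3.abs (Eventually.of_forall fun K => abs_MM hρ.cont hM hM' K _ _)
  have hGm : ∀ j < L, Measurable (fun P : ℝ × ℝ =>
      Gm ρ ((p j P.1 - P.2) / (p j P.1 - q j P.1))) := by
    intro j hj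
    refine measurable_of_tendsto_metrizable (f := fun (K : ℕ) (P : ℝ × ℝ) =>
      MM ρ K (p j P.1 - q j P.1) (p j P.1 - P.2))
      (fun K => (meas_MM hρ.cont K).comp (hdm j)) ?_
    rw [tendsto_pi_nhds]
    intro P
    exact lim_MM hρ hM (sub_nonneg.2 (hpq.le j hj P.1)) (p j P.1 - P.2)
  have hT := tendsto_integral_of_dominated_convergence (μ := (volume.prod volume : Measure (ℝ × ℝ)))
    (F := fun K : ℕ => fun P : ℝ × ℝ => ∑ j ∈ Finset.range L, a j P.1 * (g P.2 *
      ((MM ρ K (p j P.1 - q j P.1) (p j P.1 - P.2) : ℂ) * e1 (P.1 * P.2))))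
    (f := fun P : ℝ × ℝ => ∑ j ∈ Finset.range L, a j P.1 * (g P.2 *
      ((Gm ρ ((p j P.1 - P.2) / (p j P.1 - q j P.1)) : ℂ) * e1 (P.1 * P.2))))
    (fun P => ∑ j ∈ Finset.range L, ‖a j P.1 * g P.2‖ * M')
    (fun K => (integrable_finsetSum (Finset.range L) fun j hj =>
      int_w (ha j (Finset.mem_range.1 hj)) hgi ((meas_MM hρ.cont K).comp (hdm j))
        (fun P => abs_MM hρ.cont hM hM' K _ _)).aestronglyMeasurable)
    (integrable_finsetSum (Finset.range L) fun j hj =>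
      (((ha j (Finset.mem_range.1 hj)).mul_prod hgi).norm.mul_const M'))
    (fun K => Eventually.of_forall fun P => by
      refine (norm_sum_le _ _).trans (Finset.sum_le_sum fun j _ => ?_)
      rw [norm_mul, norm_mul, norm_mul, Pool.Agent.CAR.LIM_.norm_e1, mul_one,
        Complex.norm_real, norm_mul, mul_assoc]
      have h5 := abs_MM hρ.cont hM hM' K (p j P.1 - q j P.1) (p j P.1 - P.2)
      rw [← Real.norm_eq_abs] at h5
      gcongr)
    (Eventually.of_forall fun P => by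
      refine tendsto_finsetSum _ fun j hj => ?_
      refine Tendsto.const_mul _ (Tendsto.const_mul _ (Tendsto.mul_const _ ?_))
      exact (Complex.continuous_ofReal.tendsto _).comp
        (lim_MM hρ hM (sub_nonneg.2 (hpq.le j (Finset.mem_range.1 hj) P.1)) (p j P.1 - P.2)))
  have hbd := le_of_tendsto hT.norm (Eventually.of_forall hK)
  have e3 := sum2 (f := fun j P => Gm ρ ((p j P.1 - P.2) / (p j P.1 - q j P.1))) ha hgi hGm hGb
  rw [← e3] at hbd
  exact hbd

end Pool.Agent.VRR
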