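import Pool.Agent.VRR.Targets

set_option autoImplicit false

/-!
# VRR: REX, the exponents
-/

namespace Pool.Agent.VRR

theorem p_REX : T_REX := by
  intro r h2 h4
  have hr : 0 < r := by linarith
  have hr1 : 0 < r - 1 := by linarith
  have hr2 : 0 < r - 2 := by linarith
  have e1 : 1 / rc r = 1 - 1 / r := by
    unfold rc
    field_simp
  have e2 : 1 / kr r = 1 - 2 / r := by
    unfold kr
    field_simp
  have hx0 : 0 < 1 - 2 / r := by
    rw [sub_pos, div_lt_one hr]
    exact h2
  have hx1 : 1 - 2 / r ≤ 1 / 2 := by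
    have : 1 / 2 ≤ 2 / r := by
      rw [div_le_div_iff₀ (by norm_num) hr]
      linarith
    linarith
  have hB := rpow_one_add_le_one_add_mul_self (s := -(1 / 2)) (by norm_num)
    (p := 1 - 2 / r) hx0.le (by linarith)
  have hB' := rpow_one_add_le_one_add_mul_self (s := -(1 / 10)) (by norm_num)
    (p := (1 - 2 / r) / 2) (by linarith) (by linarith)
  refine ⟨?_, ?_, e1, ?_, ?_, ?_, ?_, ?_, ?_, e2, hx0, hx1, ?_, ?_, ?_⟩
  · unfold rc
    rw [div_le_div_iff₀ (by norm_num) hr1]
    linarith
  · unfold rc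
    rw [div_lt_iff₀ hr1]
    linarith
  · unfold rc
    field_simp
  · have : 1 / r < 1 / 2 := by
      rw [div_lt_div_iff₀ hr (by norm_num)]
      linarith
    linarith
  · have : 1 / 4 ≤ 1 / r := by
      rw [div_le_div_iff₀ (by norm_num) hr]
      linarith
    linarith
  · rw [div_le_div_iff₀ (by norm_num) hr]
    linarith
  · rw [div_lt_div_iff₀ hr (by norm_num)]
    linarith
  · unfold kr
    rw [le_div_iff₀ hr2]
    linarith
  · rw [Real.holderConjugate_iff]
    constructor
    · unfold rc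
      rw [lt_div_iff₀ hr1]
      linarith
    · rw [inv_eq_one_div, e1, inv_eq_one_div]
      ring
  · have e3 : 1 / (2 * kr r) = (1 - 2 / r) / 2 := by
      rw [← e2]
      field_simp
    have e4 : (2 : ℝ) ^ (-(1 - 2 / r)) = (1 + -(1 / 2)) ^ (1 - 2 / r) := by
      rw [Real.rpow_neg (by norm_num), ← Real.inv_rpow (by norm_num)]
      norm_num
    rw [e3, e4]
    linarith
  · have e3 : 1 / (20 * kr r) = (1 - 2 / r) / 20 := by
      rw [← e2]
      field_simp
    have e4 : (9 / 10 : ℝ) ^ ((1 - 2 / r) / 2) = (1 + -(1 / 10)) ^ ((1 - 2 / r) / 2) := by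
      norm_num
    rw [e3, e4]
    linarith

end Pool.Agent.VRR
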