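import Pool.Agent.VRR.Targets2
import Pool.Agent.VRC.P_VCV

set_option autoImplicit false

/-!
# VRR.VCV: one strip of the kernel, `r`-variation
-/

namespace Pool.Agent.VRR

open MeasureTheory FourierTransform Set Filter Topology
open scoped ENNReal NNReal ComplexConjugate
open Pool.Agent.CAR (e1)
open Pool.Agent.CRR
open Pool.Agent.VRC (NF VCV_NFeq VCV_NFc VCV_NFm VCV_c VCV_cmono VCV_clo VCV_chi VCV_cmid VCV_cleft
  VCV_cright VCV_F VCV_T VCV_even VCV_ii VCV_split VCV_Zs)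

/-! ### finite sums in `ℓ^r` -/

/-- the local quantity -/
noncomputable def VCV_Q (r a d w : ℝ) (Θ1 : ℝ → ℝ) (h : ℝ → ℂ) (s u : ℝ) : ℝ≥0∞ :=
  ∑' i : ℤ, (Icc (a - d / 16) (a + d + d / 16)).indicator
    (fun x => NV r w h i (s * Θ1 x) ^ 2) (u + i * w)

/-- windows: WIV -/
def VCV_W (r A : ℝ) (C : ℝ≥0) : Prop := ∀ (lam d w : ℝ)
  (Θ Θ1 Θ2 : ℝ → ℝ) (s u : ℝ) (i : ℤ) (b b' h : ℝ → ℂ), Ph A lam d Θ Θ1 Θ2 →
  0 < lam → 0 < d → 0 < w → w ≤ d → w ^ 2 * lam ≤ 1 → (s = 1 ∨ s = -1) → Continuous h →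
  ∀ (L : ℕ) (N : ℕ → ℝ), Monotone N → i * w ≤ N 0 → N L ≤ (i + 1) * w →
    (∀ x ∈ Icc (u + N 0) (u + N L), HasDerivAt b (b' x) x ∧ ‖b x‖ ≤ A ∧ ‖b' x‖ ≤ A / w) →
    ContinuousOn b' (Icc (u + N 0) (u + N L)) →
    (∑ j ∈ Finset.range L,
      ‖∫ v in Ioc (N j) (N (j + 1)), e1 (s * Θ (u + v)) * b (u + v) * h v‖ₑ ^ r) ^ (1 / r) ≤
      C * NV r w h i (s * Θ1 (u + i * w))

/-- sums with frozen amplitudes -/
noncomputable def VCV_S (r : ℝ) (Θ : ℝ → ℝ) (s w y : ℝ) (N : ℕ) (a : ℕ → ℂ) (u : ℝ) : ℝ≥0∞ :=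
  Vs r fun n => ∑ i ∈ Finset.range (min n N), a i * e1 (s * Θ (u + (y + i * w)))

/-- the conclusion of ACV -/
def VCV_AC (r A : ℝ) (C : ℝ≥0) : Prop := ∀ (lam d w : ℝ) (Θ Θ1 Θ2 : ℝ → ℝ)
  (s x y : ℝ) (N : ℕ) (a : ℕ → ℂ), Ph A lam d Θ Θ1 Θ2 → 0 < lam → 0 < d → 0 < w →
  1 / A ≤ w ^ 2 * lam → w ^ 2 * lam ≤ 1 → (N : ℝ) * w ≤ 2 * d → (s = 1 ∨ s = -1) →
    ∫⁻ u in Icc x (x + w), Vs r (fun j =>
      ∑ i ∈ Finset.range (min j N), a i * e1 (s * Θ (u + (y + i * w)))) ^ 2 ≤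
      C * ENNReal.ofReal w * ∑ i ∈ Finset.range N, ‖a i‖ₑ ^ 2

section
variable {r : ℝ} [RF : Fact (2 < r ∧ r ≤ 4)]

omit RF in
theorem VCV_two (h : Fact (2 < r ∧ r ≤ 4)) : 0 < r := by linarith [h.out.1]

theorem VCV_lradd (L : ℕ) (f g : ℕ → ℝ≥0∞) :
    (∑ j ∈ Finset.range L, (f j + g j) ^ r) ^ (1 / r) ≤
      (∑ j ∈ Finset.range L, f j ^ r) ^ (1 / r) +
        (∑ j ∈ Finset.range L, g j ^ r) ^ (1 / r) :=
  ENNReal.Lp_add_le (Finset.range L) f g (by linarith [RF.out.1])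

theorem VCV_lrmono {L : ℕ} {f g : ℕ → ℝ≥0∞} (h : ∀ j < L, f j ≤ g j) :
    (∑ j ∈ Finset.range L, f j ^ r) ^ (1 / r) ≤
      (∑ j ∈ Finset.range L, g j ^ r) ^ (1 / r) := by
  have hr := VCV_two RF
  refine ENNReal.rpow_le_rpow (Finset.sum_le_sum fun j hj => ?_) (by positivity)
  exact ENNReal.rpow_le_rpow (h j (Finset.mem_range.1 hj)) hr.le

theorem VCV_rootr (x : ℝ≥0∞) : (x ^ r) ^ (1 / r) = x := by
  have hr := VCV_two RF
  rw [← ENNReal.rpow_mul, mul_one_div_cancel hr.ne', ENNReal.rpow_one]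

theorem VCV_powr (x : ℝ≥0∞) : (x ^ (1 / r)) ^ r = x := by
  have hr := VCV_two RF
  rw [← ENNReal.rpow_mul, one_div_mul_cancel hr.ne', ENNReal.rpow_one]

theorem VCV_singler (N : ℕ) (f : ℕ → ℝ≥0∞) (k : ℕ) (hk : k < N) :
    f k ≤ (∑ k ∈ Finset.range N, f k ^ r) ^ (1 / r) := by
  have hr := VCV_two RF
  calc f k = (f k ^ r) ^ (1 / r) := (VCV_rootr _).symm
    _ ≤ _ := by
      refine ENNReal.rpow_le_rpow ?_ (by positivity)
      exact Finset.single_le_sum (f := fun k => f k ^ r) (fun _ _ => zero_le)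
        (Finset.mem_range.2 hk)

omit RF in
theorem VCV_sump (p : ℝ) (hp : 1 ≤ p) (N : ℕ) (f : ℕ → ℝ≥0∞) :
    ∑ k ∈ Finset.range N, f k ^ p ≤ (∑ k ∈ Finset.range N, f k) ^ p := by
  induction N with
  | zero => simp
  | succ N ih =>
    rw [Finset.sum_range_succ, Finset.sum_range_succ]
    exact (add_le_add ih le_rfl).trans (ENNReal.add_rpow_le_rpow_add _ _ hp)

/-- `ℓ²` is contained in `ℓ^r` -/
theorem VCV_lr2 (N : ℕ) (f : ℕ → ℝ≥0∞) :
    (∑ k ∈ Finset.range N, f k ^ r) ^ (1 / r) ≤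
      (∑ k ∈ Finset.range N, f k ^ 2) ^ (1 / 2 : ℝ) := by
  have hr := VCV_two RF
  have h2 := RF.out.1
  have h1 : ∑ k ∈ Finset.range N, f k ^ r ≤ (∑ k ∈ Finset.range N, f k ^ 2) ^ (r / 2) := by
    refine le_trans (le_of_eq ?_) (VCV_sump (r / 2) (by linarith) N fun k => f k ^ 2)
    refine Finset.sum_congr rfl fun k _ => ?_
    rw [← ENNReal.rpow_natCast, ← ENNReal.rpow_mul]
    congr 1
    push_cast
    ring
  refine (ENNReal.rpow_le_rpow h1 (by positivity)).trans (le_of_eq ?_)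
  rw [← ENNReal.rpow_mul]
  congr 1
  field_simp

theorem VCV_two_mulr (L : ℕ) (f : ℕ → ℝ≥0∞) :
    (∑ j ∈ Finset.range L, (2 * f j) ^ r) ^ (1 / r) =
      2 * (∑ j ∈ Finset.range L, f j ^ r) ^ (1 / r) := by
  have hr := VCV_two RF
  have h1 : ∑ j ∈ Finset.range L, (2 * f j) ^ r = 2 ^ r * ∑ j ∈ Finset.range L, f j ^ r := by
    rw [Finset.mul_sum]
    exact Finset.sum_congr rfl fun j _ => by rw [ENNReal.mul_rpow_of_nonneg _ _ hr.le]
  rw [h1, ENNReal.mul_rpow_of_nonneg _ _ (by positivity), VCV_rootr]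

/-! ### measurability -/

theorem VCV_nvm (hm : T_VCM) (w : ℝ) (h : ℝ → ℂ) (i : ℤ) (hh : Continuous h) :
    Measurable (NV r w h i) :=
  (hm r RF.out.1 RF.out.2).1 ℝ (fun X => NF w h i X) (fun a b => VCV_NFm w h i a b hh) (fun X => VCV_NFc w h i X hh)

/-- the maximal function is at most the variation -/
theorem VCV_NN (hv : T_VCO) (w : ℝ) (h : ℝ → ℂ) (i : ℤ) (X : ℝ) :
    NN w h i X ≤ NV r w h i X := by
  unfold NN
  refine iSup_le fun V => ?_
  rcases le_total (i * w) V with h1 | h1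
  · have h2 : ∫ v in Ioc (i * w) (min V ((i + 1) * w)), h v * e1 (X * v) =
        NF w h i X (i * w) V := by
      unfold NF
      rw [Ioc_inter_Ioc, max_self]
    rw [h2]
    exact (hv r RF.out.1 RF.out.2).2.2.1 (NF w h i X) (i * w) V h1
  · rw [Ioc_eq_empty (not_lt.2 ((min_le_left _ _).trans h1))]
    simp

theorem VCV_Qm1 (hm : T_VCM) (a d w s : ℝ) (Θ1 : ℝ → ℝ) (h : ℝ → ℂ) (i : ℤ) (hh : Continuous h)
    (hc : Continuous Θ1) : Measurable fun u : ℝ => (Icc (a - d / 16) (a + d + d / 16)).indicator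
    (fun x => NV r w h i (s * Θ1 x) ^ 2) (u + i * w) := by
  have h1 : Measurable fun x => NV r w h i (s * Θ1 x) ^ 2 :=
    ((VCV_nvm hm w h i hh).comp (hc.measurable.const_mul s)).pow_const 2
  exact (h1.indicator measurableSet_Icc).comp (measurable_id.add_const _)

theorem VCV_Qm (hm : T_VCM) (a d w s : ℝ) (Θ1 : ℝ → ℝ) (h : ℝ → ℂ) (hh : Continuous h)
    (hc : Continuous Θ1) : Measurable (VCV_Q r a d w Θ1 h s) := by
  unfold VCV_Q
  exact Measurable.tsum fun i => VCV_Qm1 hm a d w s Θ1 h i hh hc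

theorem VCV_QQ (hv : T_VCO) (a d w : ℝ) (Θ1 : ℝ → ℝ) (h : ℝ → ℂ) (s u : ℝ) :
    VCR_Q a d w Θ1 h s u ≤ VCV_Q r a d w Θ1 h s u := by
  unfold VCR_Q VCV_Q
  refine ENNReal.tsum_le_tsum fun i => ?_
  refine indicator_le_indicator ?_
  exact pow_le_pow_left' (VCV_NN hv w h i _) 2

theorem VCV_Qint (hm : T_VCM) (A lam a d w s : ℝ) (Θ Θ1 Θ2 : ℝ → ℝ) (h : ℝ → ℂ) (hA : 1 ≤ A)
    (hl : 0 < lam) (hd : 0 < d) (hs : s = 1 ∨ s = -1) (hP : Ph A lam d Θ Θ1 Θ2)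
    (hh : Continuous h)
    (hr : ∀ x ∈ Icc (a - d / 16) (a + d + d / 16), lam * d / A ≤ Θ1 x ∧ Θ1 x ≤ A * (lam * d)) :
    ∫⁻ u, VCV_Q r a d w Θ1 h s u ≤ ENNReal.ofReal (A / lam) *
      ∑' i : ℤ, ∫⁻ X in {X : ℝ | lam * d / A ≤ |X| ∧ |X| ≤ A * (lam * d)}, NV r w h i X ^ 2 := by
  have hc1 : Continuous Θ1 := (VCR_thc A lam d Θ Θ1 Θ2 hP).2
  have hs1 : |s| = 1 := by rcases hs with rfl | rfl <;> simp
  have hs0 : s ≠ 0 := by rintro rfl; simp at hs1
  have hpos : ∀ x, 0 < Θ2 x := fun x => lt_of_lt_of_le (by positivity) (hP.lo x)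
  have hmono : StrictMono Θ1 := strictMono_of_deriv_pos fun x => by
    rw [(hP.d2 x).deriv]; exact hpos x
  unfold VCV_Q
  rw [lintegral_tsum fun i => (VCV_Qm1 hm a d w s Θ1 h i hh hc1).aemeasurable,
    ← ENNReal.tsum_mul_left]
  refine ENNReal.tsum_le_tsum fun i => ?_
  rw [lintegral_add_right_eq_self (fun u => (Icc (a - d / 16) (a + d + d / 16)).indicator
    (fun x => NV r w h i (s * Θ1 x) ^ 2) u), lintegral_indicator measurableSet_Icc]
  have hinj : InjOn (fun x => s * Θ1 x) (Icc (a - d / 16) (a + d + d / 16)) := by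
    intro x _ y _ hxy
    exact hmono.injective (mul_left_cancel₀ hs0 hxy)
  have h1 := lintegral_image_eq_lintegral_abs_deriv_mul
    (measurableSet_Icc : MeasurableSet (Icc (a - d / 16) (a + d + d / 16)))
    (f' := fun x => s * Θ2 x)
    (fun x _ => ((hP.d2 x).const_mul s).hasDerivWithinAt) hinj (fun X => NV r w h i X ^ 2)
  calc ∫⁻ x in Icc (a - d / 16) (a + d + d / 16), NV r w h i (s * Θ1 x) ^ 2
      ≤ ∫⁻ x in Icc (a - d / 16) (a + d + d / 16), ENNReal.ofReal (A / lam) *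
        (ENNReal.ofReal |s * Θ2 x| * NV r w h i (s * Θ1 x) ^ 2) := by
        refine lintegral_mono fun x => ?_
        rw [← mul_assoc, ← ENNReal.ofReal_mul (by positivity), abs_mul, hs1, one_mul,
          abs_of_pos (hpos x)]
        have h2 : 1 ≤ A / lam * Θ2 x := by
          have := mul_le_mul_of_nonneg_left (hP.lo x) (by positivity : 0 ≤ A / lam)
          have h3 : A / lam * (lam / A) = 1 := by field_simp
          rwa [h3] at this
        calc NV r w h i (s * Θ1 x) ^ 2 = ENNReal.ofReal 1 * NV r w h i (s * Θ1 x) ^ 2 := by simp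
          _ ≤ _ := by gcongr
    _ = ENNReal.ofReal (A / lam) * ∫⁻ x in Icc (a - d / 16) (a + d + d / 16),
        (ENNReal.ofReal |s * Θ2 x| * NV r w h i (s * Θ1 x) ^ 2) :=
        lintegral_const_mul' _ _ ENNReal.ofReal_ne_top
    _ = ENNReal.ofReal (A / lam) *
        ∫⁻ X in (fun x => s * Θ1 x) '' (Icc (a - d / 16) (a + d + d / 16)), NV r w h i X ^ 2 := by
        rw [h1]
    _ ≤ _ := by
        gcongr
        rintro _ ⟨x, hx, rfl⟩
        have h2 := hr x hx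
        have h3 : 0 < Θ1 x := lt_of_lt_of_le (by positivity) h2.1
        simp only [Set.mem_ofPred_eq, abs_mul, hs1, one_mul, abs_of_pos h3]
        exact h2

theorem VCV_Qle (a d w s u : ℝ) (Θ1 : ℝ → ℝ) (h : ℝ → ℂ) (i : ℤ)
    (hu : u + i * w ∈ Icc (a - d / 16) (a + d + d / 16)) :
    NV r w h i (s * Θ1 (u + i * w)) ≤ VCV_Q r a d w Θ1 h s u ^ (1 / 2 : ℝ) := by
  apply VCR_sqrt
  unfold VCV_Q
  refine le_trans (le_of_eq ?_) (ENNReal.le_tsum i)
  rw [indicator_of_mem hu]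

/-! ### windows -/

section
variable {A a d lam w s : ℝ} {Θ Θ1 Θ2 : ℝ → ℝ} {b b' h : ℝ → ℂ}

/-- one window -/
theorem VCV_w1 (C : ℝ≥0) (hW : VCV_W r A C) (X : VCR_X A a d lam w s Θ Θ1 Θ2 b b' h)
    (u α β : ℝ) (i : ℤ) (h1 : a - u ≤ α) (h12 : α ≤ β) (h2 : β ≤ a + d - u)
    (hi1 : i * w ≤ α) (hi2 : β ≤ (i + 1) * w) (L : ℕ) (N : ℕ → ℝ) (hN : Monotone N) :
    (∑ j ∈ Finset.range L, ‖VCV_F Θ b h s u α β (N j) (N (j + 1))‖ₑ ^ r) ^ (1 / r) ≤
      C * NV r w h i (s * Θ1 (u + i * w)) := by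
  have hw := X.hw
  have hd := X.hd
  have hwd := X.hwd
  have hA := X.hA
  have hM : Monotone fun j => VCV_c α β (N j) := fun x y hxy => VCV_cmono α β (hN hxy)
  have e : ∀ j ∈ Finset.range L, ‖VCV_F Θ b h s u α β (N j) (N (j + 1))‖ₑ ^ r =
      ‖∫ v in Ioc (VCV_c α β (N j)) (VCV_c α β (N (j + 1))),
        e1 (s * Θ (u + v)) * b (u + v) * h v‖ₑ ^ r := by
    intro j _
    unfold VCV_F
    rw [intervalIntegral.integral_of_le (hM (Nat.le_succ j))]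
  rw [Finset.sum_congr rfl e]
  refine hW lam d w Θ Θ1 Θ2 s u i b b' h X.hP X.hl X.hd X.hw (by linarith) X.hwl X.hs X.hh
    L (fun j => VCV_c α β (N j)) hM (hi1.trans (VCV_clo _ _ _)) ((VCV_chi h12 _).trans hi2) ?_ ?_
  · intro x hx
    have hx' : x ∈ Icc a (a + d) := ⟨by linarith [hx.1, VCV_clo α β (N 0)],
      by linarith [hx.2, VCV_chi h12 (N L)]⟩
    obtain ⟨e1, e2, e3⟩ := X.hb x hx'
    refine ⟨e1, e2, e3.trans ?_⟩
    gcongr
    linarith
  · refine X.hb'.mono ?_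
    intro x hx
    exact ⟨by linarith [hx.1, VCV_clo α β (N 0)], by linarith [hx.2, VCV_chi h12 (N L)]⟩

theorem VCV_sh0 (C : ℝ≥0) (hW : VCV_W r A C) (X : VCR_X A a d lam w s Θ Θ1 Θ2 b b' h)
    (u α β : ℝ) (i : ℤ) (h1 : a - u ≤ α) (h12 : α ≤ β) (h2 : β ≤ a + d - u)
    (hi1 : i * w ≤ α) (hi2 : β ≤ (i + 1) * w) :
    Vo r (VCV_F Θ b h s u α β) ≤ C * VCV_Q r a d w Θ1 h s u ^ (1 / 2 : ℝ) := by
  have hw := X.hw
  have hd := X.hd
  have hwd := X.hwd
  unfold Vo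
  refine iSup_le fun L => iSup_le fun N => iSup_le fun hN => ?_
  refine (VCV_w1 C hW X u α β i h1 h12 h2 hi1 hi2 L N hN).trans ?_
  gcongr
  apply VCV_Qle
  constructor <;> linarith

theorem VCV_add (hv : T_VCO) (X : VCR_X A a d lam w s Θ Θ1 Θ2 b b' h)
    (u α β γ : ℝ) (h1 : a - u ≤ α) (h12 : α ≤ β) (h23 : β ≤ γ) (h3 : γ ≤ a + d - u) :
    Vo r (VCV_F Θ b h s u α γ) ≤ Vo r (VCV_F Θ b h s u α β) + Vo r (VCV_F Θ b h s u β γ) := by
  refine (hv r RF.out.1 RF.out.2).2.2.2.2.2.2 _ _ _ fun V1 V2 _ => ?_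
  rw [VCV_split X u α β γ h1 h12 h23 h3]
  exact enorm_add_le _ _

theorem VCV_sh1 (hv : T_VCO) (C : ℝ≥0) (hW : VCV_W r A C)
    (X : VCR_X A a d lam w s Θ Θ1 Θ2 b b' h)
    (u α β : ℝ) (h1 : a - u ≤ α) (h12 : α ≤ β) (h2 : β ≤ a + d - u) (h3 : β ≤ α + w) :
    Vo r (VCV_F Θ b h s u α β) ≤ 2 * (C * VCV_Q r a d w Θ1 h s u ^ (1 / 2 : ℝ)) := by
  have hw := X.hw
  set i : ℤ := ⌊α / w⌋ with hi
  have hi1 : (i : ℝ) * w ≤ α := by
    have := Int.floor_le (α / w)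
    rwa [← hi, le_div_iff₀ hw] at this
  have hi2 : α < ((i : ℝ) + 1) * w := by
    have := Int.lt_floor_add_one (α / w)
    rwa [← hi, div_lt_iff₀ hw] at this
  rcases le_total β (((i : ℝ) + 1) * w) with h4 | h4
  · refine (VCV_sh0 C hW X u α β i h1 h12 h2 hi1 h4).trans ?_
    rw [two_mul]
    exact le_self_add
  · refine (VCV_add hv X u α (((i : ℝ) + 1) * w) β h1 hi2.le h4 h2).trans ?_
    rw [two_mul]
    refine add_le_add (VCV_sh0 C hW X u α _ i h1 hi2.le (by linarith) hi1 le_rfl)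
      (VCV_sh0 C hW X u _ β (i + 1) (by linarith) h4 h2 ?_ ?_)
    · push_cast
      exact le_rfl
    · push_cast
      linarith

theorem VCV_sh2 (hv : T_VCO) (C : ℝ≥0) (hW : VCV_W r A C)
    (X : VCR_X A a d lam w s Θ Θ1 Θ2 b b' h)
    (u α β : ℝ) (h1 : a - u ≤ α) (h12 : α ≤ β) (h2 : β ≤ a + d - u) (h3 : β ≤ α + 2 * w) :
    Vo r (VCV_F Θ b h s u α β) ≤ 4 * (C * VCV_Q r a d w Θ1 h s u ^ (1 / 2 : ℝ)) := by
  have hw := X.hw
  rcases le_total β (α + w) with h4 | h4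
  · refine (VCV_sh1 hv C hW X u α β h1 h12 h2 h4).trans ?_
    gcongr
    norm_num
  · refine (VCV_add hv X u α (α + w) β h1 (by linarith) (by linarith) h2).trans ?_
    refine (add_le_add (VCV_sh1 hv C hW X u α _ h1 (by linarith) (by linarith) le_rfl)
      (VCV_sh1 hv C hW X u _ β (by linarith) (by linarith) h2 (by linarith))).trans (le_of_eq ?_)
    ring

/-- one increment: full windows and two pieces -/
theorem VCV_inc (X : VCR_X A a d lam w s Θ Θ1 Θ2 b b' h) (u : ℝ) (i0 : ℤ) (N : ℕ)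
    (h1 : a - u ≤ i0 * w) (h2 : (i0 + N) * w ≤ a + d - u) (z1 z2 : ℝ) (hz0 : i0 * w ≤ z1)
    (hz12 : z1 ≤ z2) (hzN : z2 ≤ (i0 + N) * w) :
    ‖∫ v in z1..z2, e1 (s * Θ (u + v)) * b (u + v) * h v‖ₑ ≤
      ‖VCV_T Θ b h s w i0 N u (max ⌈z1 / w - i0⌉₊ ⌊z2 / w - i0⌋₊) -
        VCV_T Θ b h s w i0 N u ⌈z1 / w - i0⌉₊‖ₑ +
      2 * (∑ k ∈ Finset.range N,
        ‖VCV_F Θ b h s u ((i0 + k) * w) ((i0 + k) * w + w) z1 z2‖ₑ ^ r) ^ (1 / r) := by
  have hw := X.hw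
  set f : ℝ → ℂ := fun v => e1 (s * Θ (u + v)) * b (u + v) * h v with hf
  set S : ℝ≥0∞ := (∑ k ∈ Finset.range N,
        ‖VCV_F Θ b h s u ((i0 + k) * w) ((i0 + k) * w + w) z1 z2‖ₑ ^ r) ^ (1 / r) with hS
  have hSk : ∀ k < N, ‖VCV_F Θ b h s u ((i0 + k) * w) ((i0 + k) * w + w) z1 z2‖ₑ ≤ S :=
    fun k hk => VCV_singler N
      (fun k => ‖VCV_F Θ b h s u ((i0 + k) * w) ((i0 + k) * w + w) z1 z2‖ₑ) k hk
  have hx1 : 0 ≤ z1 / w - i0 := by
    have : (i0 : ℝ) ≤ z1 / w := by rw [le_div_iff₀ hw]; exact hz0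
    linarith
  have hx12 : z1 / w - i0 ≤ z2 / w - i0 := by
    have : z1 / w ≤ z2 / w := by gcongr
    linarith
  have hx2 : 0 ≤ z2 / w - i0 := hx1.trans hx12
  have hx2N : z2 / w - i0 ≤ N := by
    have : z2 / w ≤ i0 + N := by rw [div_le_iff₀ hw]; exact hzN
    linarith
  have hz1 : z1 = (i0 + (z1 / w - i0)) * w := by field_simp; ring
  have hz2 : z2 = (i0 + (z2 / w - i0)) * w := by field_simp; ring
  have a1 := Nat.le_ceil (z1 / w - i0)
  have a2 := Nat.ceil_lt_add_one hx1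
  have a3 := Nat.floor_le hx2
  have a4 := Nat.lt_floor_add_one (z2 / w - i0)
  set m1 := ⌈z1 / w - i0⌉₊ with hm1
  set m2 := ⌊z2 / w - i0⌋₊ with hm2
  have hm2N : m2 ≤ N := by
    have : (m2 : ℝ) ≤ N := a3.trans hx2N
    exact_mod_cast this
  have e1' : ∀ k : ℕ, ((i0 : ℝ) + k) * w + w = (i0 + ((k + 1 : ℕ) : ℝ)) * w := by
    intro k; push_cast; ring
  have lo1 : ∀ x : ℝ, 0 ≤ x → a - u ≤ (i0 + x) * w := by
    intro x hx
    have : 0 ≤ x * w := by positivity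
    linarith
  have up1 : ∀ x : ℝ, x ≤ N → (i0 + x) * w ≤ a + d - u := by
    intro x hx
    have : x * w ≤ N * w := by gcongr
    linarith
  rcases le_or_gt m1 m2 with hm | hm
  · -- three pieces
    rw [max_eq_right hm]
    have hm' : (m1 : ℝ) ≤ m2 := by exact_mod_cast hm
    have hm2N' : (m2 : ℝ) ≤ N := by exact_mod_cast hm2N
    have b1 : z1 ≤ (i0 + m1) * w := by
      rw [hz1]; gcongr
    have b2 : (i0 + m2) * w ≤ z2 := by
      rw [hz2]; gcongr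
    have b3 : ((i0 : ℝ) + m1) * w ≤ (i0 + m2) * w := by gcongr
    have I1 : IntervalIntegrable f volume z1 ((i0 + m1) * w) :=
      VCV_ii X (h1.trans hz0) (by linarith) (lo1 _ (by positivity)) (up1 _ (hm'.trans hm2N'))
    have I2 : IntervalIntegrable f volume ((i0 + m1) * w) ((i0 + m2) * w) :=
      VCV_ii X (lo1 _ (by positivity)) (up1 _ (hm'.trans hm2N')) (lo1 _ (by positivity))
        (up1 _ hm2N')
    have I3 : IntervalIntegrable f volume ((i0 + m2) * w) z2 :=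
      VCV_ii X (lo1 _ (by positivity)) (up1 _ hm2N') (by linarith) (by linarith)
    have hsum : VCV_T Θ b h s w i0 N u m2 - VCV_T Θ b h s w i0 N u m1 =
        ∫ v in ((i0 + m1) * w)..((i0 + m2) * w), f v := by
      unfold VCV_T
      rw [min_eq_left hm2N, min_eq_left (hm.trans hm2N), ← Finset.sum_Ico_eq_sub _ hm]
      have h6 := intervalIntegral.sum_integral_adjacent_intervals_Ico
        (a := fun k : ℕ => ((i0 : ℝ) + k) * w) (μ := volume) (f := f) hm (fun k hk => by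
          have hk' := hk.2
          have hk2 : (k : ℝ) + 1 ≤ N := by
            have : k + 1 ≤ N := by omega
            exact_mod_cast this
          refine VCV_ii X (lo1 _ (by positivity)) (up1 _ (by linarith)) (lo1 _ (by positivity))
            (up1 _ ?_)
          push_cast
          exact hk2)
      rw [← h6]
      refine Finset.sum_congr rfl fun k _ => ?_
      rw [e1' k]
    rw [← intervalIntegral.integral_add_adjacent_intervals I1 (I2.trans I3),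
      ← intervalIntegral.integral_add_adjacent_intervals I2 I3, ← hsum]
    have c1 : ‖∫ v in z1..((i0 + m1) * w), f v‖ₑ ≤ S := by
      rcases Nat.eq_zero_or_pos m1 with h0 | h0
      · have : z1 = (i0 + m1) * w := by
          rw [h0] at b1 ⊢
          simp only [Nat.cast_zero, add_zero] at b1 ⊢
          linarith
        rw [← this, intervalIntegral.integral_same]
        simp
      · obtain ⟨k, hk⟩ : ∃ k, m1 = k + 1 := ⟨m1 - 1, by omega⟩
        refine le_trans (le_of_eq ?_) (hSk k (by omega))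
        unfold VCV_F
        have hk1 : (m1 : ℝ) = (k : ℝ) + 1 := by rw [hk]; push_cast; rfl
        have d1 : VCV_c ((i0 + k) * w) ((i0 + k) * w + w) z1 = z1 := by
          apply VCV_cmid
          · rw [hz1]
            gcongr
            linarith
          · rw [e1' k, ← hk]; exact b1
        have d2 : VCV_c ((i0 + k) * w) ((i0 + k) * w + w) z2 = (i0 + m1) * w := by
          rw [VCV_cright (by linarith) (by rw [e1' k, ← hk]; linarith), e1' k, ← hk]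
        rw [d1, d2]
    have c3 : ‖∫ v in ((i0 + m2) * w)..z2, f v‖ₑ ≤ S := by
      rcases Nat.lt_or_ge m2 N with h0 | h0
      · refine le_trans (le_of_eq ?_) (hSk m2 h0)
        unfold VCV_F
        have d1 : VCV_c ((i0 + m2) * w) ((i0 + m2) * w + w) z1 = (i0 + m2) * w :=
          VCV_cleft (by linarith)
        have d2 : VCV_c ((i0 + m2) * w) ((i0 + m2) * w + w) z2 = z2 := by
          apply VCV_cmid b2
          have : z2 ≤ (i0 + (m2 + 1)) * w := by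
            rw [hz2]
            gcongr
          linarith
        rw [d1, d2]
      · have h3 : m2 = N := le_antisymm hm2N h0
        have : (i0 + m2) * w = z2 := by
          rw [h3] at b2 ⊢
          linarith
        rw [this, intervalIntegral.integral_same]
        simp
    calc ‖(∫ v in z1..((i0 + m1) * w), f v) + ((VCV_T Θ b h s w i0 N u m2 -
          VCV_T Θ b h s w i0 N u m1) + ∫ v in ((i0 + m2) * w)..z2, f v)‖ₑ
        ≤ S + (‖VCV_T Θ b h s w i0 N u m2 - VCV_T Θ b h s w i0 N u m1‖ₑ + S) :=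
          (enorm_add_le _ _).trans (add_le_add c1 ((enorm_add_le _ _).trans (add_le_add le_rfl c3)))
      _ = _ := by ring
  · -- one piece
    rw [max_eq_left hm.le, sub_self, enorm_zero, zero_add]
    have hlt : (m2 : ℝ) < z1 / w - i0 := by
      have h3 : m2 + 1 ≤ m1 := hm
      have h4 : (m2 : ℝ) + 1 ≤ m1 := by exact_mod_cast h3
      linarith
    have h0 : m2 < N := by
      have : (m2 : ℝ) < N := by linarith
      exact_mod_cast this
    have d1 : VCV_c ((i0 + m2) * w) ((i0 + m2) * w + w) z1 = z1 := by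
      apply VCV_cmid
      · rw [hz1]
        gcongr
      · have : z1 ≤ (i0 + (m2 + 1)) * w := by
          rw [hz1]
          gcongr
          linarith
        linarith
    have d2 : VCV_c ((i0 + m2) * w) ((i0 + m2) * w + w) z2 = z2 := by
      apply VCV_cmid
      · rw [hz2]
        gcongr
      · have : z2 ≤ (i0 + (m2 + 1)) * w := by
          rw [hz2]
          gcongr
        linarith
    have h3 := hSk m2 h0
    unfold VCV_F at h3
    rw [d1, d2] at h3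
    refine h3.trans ?_
    rw [two_mul]
    exact le_self_add

theorem VCV_q1 (hw : 0 < w) (hwd : w ≤ d / 32) (u : ℝ) (i0 : ℤ) (N : ℕ)
    (h1 : a - u ≤ i0 * w) (h2 : (i0 + N) * w ≤ a + d - u) :
    ∑ k ∈ Finset.range N, NV r w h (i0 + k) (s * Θ1 (u + (i0 + k) * w)) ^ 2 ≤
      VCV_Q r a d w Θ1 h s u := by
  unfold VCV_Q
  have hinj : Function.Injective fun k : ℕ => i0 + (k : ℤ) := by
    intro k l hkl
    simp only at hkl
    omega
  refine le_trans ?_ (ENNReal.tsum_comp_le_tsum_of_injective hinj _)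
  refine le_trans ?_ (ENNReal.sum_le_tsum (Finset.range N))
  refine Finset.sum_le_sum fun k hk => ?_
  have hk' : (k : ℝ) + 1 ≤ N := by exact_mod_cast Finset.mem_range.1 hk
  have h3 : ((k : ℝ) + 1) * w ≤ N * w := by gcongr
  have h0 : (0 : ℝ) ≤ k * w := by positivity
  rw [indicator_of_mem]
  · push_cast
    exact le_rfl
  · push_cast
    constructor <;> linarith

/-- the full windows -/
theorem VCV_mid (C : ℝ≥0) (hW : VCV_W r A C) (X : VCR_X A a d lam w s Θ Θ1 Θ2 b b' h) (u : ℝ)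
    (i0 : ℤ) (N : ℕ) (h1 : a - u ≤ i0 * w) (h2 : (i0 + N) * w ≤ a + d - u) :
    Vo r (VCV_F Θ b h s u (i0 * w) ((i0 + N) * w)) ≤
      Vs r (VCV_T Θ b h s w i0 N u) + 2 * (C * VCV_Q r a d w Θ1 h s u ^ (1 / 2 : ℝ)) := by
  have hw := X.hw
  have h0N : (i0 : ℝ) * w ≤ (i0 + N) * w := by
    have : (0 : ℝ) ≤ N * w := by positivity
    linarith
  unfold Vo
  refine iSup_le fun L => iSup_le fun M => iSup_le fun hM => ?_
  set z : ℕ → ℝ := fun j => VCV_c (i0 * w) ((i0 + N) * w) (M j) with hz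
  have zm : Monotone z := fun x y hxy => VCV_cmono _ _ (hM hxy)
  have z0 : ∀ j, i0 * w ≤ z j := fun j => VCV_clo _ _ _
  have zN : ∀ j, z j ≤ (i0 + N) * w := fun j => VCV_chi h0N _
  set m1 : ℕ → ℕ := fun j => ⌈z j / w - i0⌉₊ with hm1
  set m2 : ℕ → ℕ := fun j => ⌊z j / w - i0⌋₊ with hm2
  set Y : ℕ → ℝ≥0∞ := fun j => (∑ k ∈ Finset.range N,
        ‖VCV_F Θ b h s u ((i0 + k) * w) ((i0 + k) * w + w) (z j) (z (j + 1))‖ₑ ^ r) ^ (1 / r)
    with hY
  have step : ∀ j < L, ‖VCV_F Θ b h s u (i0 * w) ((i0 + N) * w) (M j) (M (j + 1))‖ₑ ≤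
      ‖VCV_T Θ b h s w i0 N u (max (m1 j) (m2 (j + 1))) - VCV_T Θ b h s w i0 N u (m1 j)‖ₑ +
        2 * Y j := by
    intro j _
    exact VCV_inc X u i0 N h1 h2 (z j) (z (j + 1)) (z0 j) (zm (Nat.le_succ j)) (zN (j + 1))
  refine (VCV_lrmono step).trans ((VCV_lradd L _ _).trans (add_le_add ?_ ?_))
  · -- the sequence of indices
    set t : ℕ → ℕ := fun q => if q % 2 = 0 then m1 (q / 2) else max (m1 (q / 2)) (m2 (q / 2 + 1))
      with ht
    have zd : ∀ j, z j / w - i0 ≤ z (j + 1) / w - i0 := by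
      intro j
      have : z j / w ≤ z (j + 1) / w := by
        gcongr
        exact zm (Nat.le_succ j)
      linarith
    have tm : Monotone t := by
      refine monotone_nat_of_le_succ fun q => ?_
      rcases Nat.mod_two_eq_zero_or_one q with hr | hr
      · have e1 : (q + 1) % 2 = 1 := by omega
        have e2 : (q + 1) / 2 = q / 2 := by omega
        simp only [ht, hr, e1, e2, if_true, one_ne_zero, if_false]
        exact le_max_left _ _
      · have e1 : (q + 1) % 2 = 0 := by omega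
        have e2 : (q + 1) / 2 = q / 2 + 1 := by omega
        simp only [ht, hr, e1, e2, if_true, one_ne_zero, if_false]
        exact max_le (Nat.ceil_mono (zd _)) (Nat.floor_le_ceil _)
    have e : ∀ j ∈ Finset.range L,
        ‖VCV_T Θ b h s w i0 N u (max (m1 j) (m2 (j + 1))) - VCV_T Θ b h s w i0 N u (m1 j)‖ₑ ^ r =
        (fun q => ‖VCV_T Θ b h s w i0 N u (t (q + 1)) -
          VCV_T Θ b h s w i0 N u (t q)‖ₑ ^ r) (2 * j) := by
      intro j _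
      have e1 : (2 * j + 1) % 2 = 1 := by omega
      have e2 : (2 * j + 1) / 2 = j := by omega
      have e3 : (2 * j) % 2 = 0 := by omega
      have e4 : (2 * j) / 2 = j := by omega
      simp only [ht, e1, e2, e3, e4, if_true, one_ne_zero, if_false]
    rw [Finset.sum_congr rfl e]
    refine le_trans (ENNReal.rpow_le_rpow (z := 1 / r) (VCV_even L
      (fun q => ‖VCV_T Θ b h s w i0 N u (t (q + 1)) -
          VCV_T Θ b h s w i0 N u (t q)‖ₑ ^ r)) (one_div_nonneg.mpr (VCV_two RF).le)) ?_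
    unfold Vs
    exact le_iSup_of_le (2 * L) (le_iSup_of_le t (le_iSup_of_le tm le_rfl))
  · rw [VCV_two_mulr]
    gcongr
    have e : ∀ j ∈ Finset.range L, Y j ^ r = ∑ k ∈ Finset.range N,
        ‖VCV_F Θ b h s u ((i0 + k) * w) ((i0 + k) * w + w) (z j) (z (j + 1))‖ₑ ^ r :=
      fun j _ => VCV_powr _
    rw [Finset.sum_congr rfl e, Finset.sum_comm]
    have hk : ∀ k < N, (∑ j ∈ Finset.range L,
        ‖VCV_F Θ b h s u ((i0 + k) * w) ((i0 + k) * w + w) (z j) (z (j + 1))‖ₑ ^ r) ^ (1 / r) ≤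
        C * NV r w h (i0 + k) (s * Θ1 (u + (i0 + k) * w)) := by
      intro k hk
      have hk' : (k : ℝ) + 1 ≤ N := by exact_mod_cast hk
      have h3 : ((k : ℝ) + 1) * w ≤ N * w := by gcongr
      have h0 : (0 : ℝ) ≤ k * w := by positivity
      have h5 := VCV_w1 C hW X u ((i0 + k) * w) ((i0 + k) * w + w) (i0 + k) (by linarith)
        (by linarith) (by linarith) (by push_cast; exact le_rfl) (by push_cast; linarith) L z zm
      push_cast at h5
      exact h5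
    have hk2 := VCV_lrmono (r := r) hk
    simp only [VCV_powr] at hk2
    refine hk2.trans ((VCV_lr2 N
      fun k => C * NV r w h (i0 + k) (s * Θ1 (u + (i0 + k) * w))).trans ?_)
    calc (∑ k ∈ Finset.range N,
          (C * NV r w h (i0 + k) (s * Θ1 (u + (i0 + k) * w))) ^ 2) ^ (1 / 2 : ℝ)
        ≤ (C ^ 2 * VCV_Q r a d w Θ1 h s u) ^ (1 / 2 : ℝ) := by
          refine ENNReal.rpow_le_rpow ?_ (by norm_num)
          simp_rw [mul_pow]
          rw [← Finset.mul_sum]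
          gcongr
          exact VCV_q1 hw X.hwd u i0 N h1 h2
      _ = C * VCV_Q r a d w Θ1 h s u ^ (1 / 2 : ℝ) := by
          rw [ENNReal.mul_rpow_of_nonneg _ _ (by norm_num)]
          congr 1
          rw [← ENNReal.rpow_natCast, ← ENNReal.rpow_mul]
          norm_num

end

/-! ### full windows: linearised -/

section
variable {A a d lam w s : ℝ} {Θ Θ1 Θ2 : ℝ → ℝ} {b b' h : ℝ → ℂ}

theorem VCV_Tb (hc : T_VCS) (C : ℝ≥0) (hW : VCR_W A C) (X : VCR_X A a d lam w s Θ Θ1 Θ2 b b' h)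
    (p i0 : ℤ) (N : ℕ) (hF : VCR_F a d w p i0 N) (u : ℝ) (hu1 : p * w ≤ u)
    (hu2 : u ≤ (p + 1) * w) :
    Vs r (VCV_T Θ b h s w i0 N u) ≤
      C * VCR_Q a d w Θ1 h s u ^ (1 / 2 : ℝ) +
        2 * ENNReal.ofReal A * Vs r (VCV_Zs Θ h s w i0 N u) := by
  have hw := X.hw
  have hd := X.hd
  have hwd := X.hwd
  have hA := X.hA
  obtain ⟨f1, f2, f3, f4⟩ := hF
  set y : ℕ → ℝ := fun k => (i0 + k) * w with hy
  have hlo : ∀ k : ℕ, a ≤ u + y k := by
    intro k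
    have : (0 : ℝ) ≤ k * w := by positivity
    simp only [hy]
    linarith
  have hup : ∀ k : ℕ, k ≤ N → u + (y k + w) ≤ a + d + w := by
    intro k hk
    have h5 : (k : ℝ) ≤ N := by exact_mod_cast hk
    have : (k : ℝ) * w ≤ N * w := by gcongr
    simp only [hy]
    linarith
  have hup' : ∀ k : ℕ, k ≤ N → u + y k ≤ a + d := by
    intro k hk
    linarith [hup k hk]
  have hys : ∀ k : ℕ, y (k + 1) = y k + w := by
    intro k
    simp only [hy]
    push_cast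
    ring
  set ρ : ℕ → ℂ := fun k => (∫ v in (y k)..(y k + w), e1 (s * Θ (u + v)) * b (u + v) * h v) -
        b (u + y k) * VCR_I Θ h s w (y k) u with hr
  set R : ℕ → ℂ := fun n => ∑ k ∈ Finset.range (min n N), ρ k with hR
  set B : ℕ → ℂ := fun n => ∑ k ∈ Finset.range (min n N),
    b (u + y k) * VCR_I Θ h s w (y k) u with hB
  have hT : ∀ n, VCV_T Θ b h s w i0 N u n = R n + B n := by
    intro n
    simp only [hR, hB, hr, VCV_T]
    rw [← Finset.sum_add_distrib]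
    exact Finset.sum_congr rfl fun k _ => by ring
  have hadd := (hc r RF.out.1 RF.out.2).2.2.2.2.2.2.2.2.2 (VCV_T Θ b h s w i0 N u) R B (fun x z _ => by
    rw [hT, hT, show R z + B z - (R x + B x) = (R z - R x) + (B z - B x) by ring]
    exact enorm_add_le _ _)
  refine hadd.trans (add_le_add ?_ ?_)
  · refine ((hc r RF.out.1 RF.out.2).2.2.2.2.2.2.2.2.1 R).trans ?_
    have hstep : ∀ n, R (n + 1) - R n = if n < N then ρ n else 0 := by
      intro n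
      simp only [hR]
      split_ifs with hn
      · rw [min_eq_left (by omega : n + 1 ≤ N), min_eq_left hn.le, Finset.sum_range_succ]
        ring
      · rw [min_eq_right (by omega : N ≤ n + 1), min_eq_right (by omega : N ≤ n), sub_self]
    rw [tsum_eq_sum (s := Finset.range N) (fun n hn => by
      rw [hstep, if_neg (by simpa using hn), enorm_zero])]
    calc ∑ n ∈ Finset.range N, ‖R (n + 1) - R n‖ₑ
        ≤ ∑ k ∈ Finset.range N, ENNReal.ofReal (w / d) *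
            (C * VCR_Q a d w Θ1 h s u ^ (1 / 2 : ℝ)) := by
          refine Finset.sum_le_sum fun k hk => ?_
          have hk' := Finset.mem_range.1 hk
          rw [hstep, if_pos hk']
          refine VCR_rem C hW X u (y k) (i0 + k) (by simp [hy]) (hlo k) ?_
          rw [← hys]
          exact hup' (k + 1) (by omega)
      _ = (N * ENNReal.ofReal (w / d)) * (C * VCR_Q a d w Θ1 h s u ^ (1 / 2 : ℝ)) := by
          simp [mul_assoc]
      _ ≤ 1 * (C * VCR_Q a d w Θ1 h s u ^ (1 / 2 : ℝ)) := by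
          gcongr
          have h8 : (N : ℝ≥0∞) = ENNReal.ofReal (N : ℝ) := by simp
          rw [h8, ← ENNReal.ofReal_mul (by positivity)]
          rw [← ENNReal.ofReal_one]
          apply ENNReal.ofReal_le_ofReal
          rw [mul_div_assoc', div_le_one hd]
          linarith
      _ = _ := one_mul _
  · set m : ℕ → ℂ := fun i => b (u + y (min i N)) with hm
    have hstep : ∀ n, B (n + 1) - B n =
        m n * (VCV_Zs Θ h s w i0 N u (n + 1) - VCV_Zs Θ h s w i0 N u n) := by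
      intro n
      simp only [hB, hm, VCV_Zs]
      rcases lt_or_ge n N with hn | hn
      · rw [min_eq_left (by omega : n + 1 ≤ N), min_eq_left hn.le, Finset.sum_range_succ,
          Finset.sum_range_succ]
        ring
      · rw [min_eq_right (by omega : N ≤ n + 1), min_eq_right (by omega : N ≤ n), sub_self,
          sub_self, mul_zero]
    have h7 := (hc r RF.out.1 RF.out.2).2.2.2.2.2.2.1 B (VCV_Zs Θ h s w i0 N u) m (ENNReal.ofReal A)
      (ENNReal.ofReal A) ?_ ?_ ?_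
    · refine h7.trans (le_of_eq ?_)
      rw [two_mul]
    · intro x z hxz
      simp_rw [← hstep]
      rw [Finset.sum_Ico_eq_sub _ hxz, Finset.sum_range_sub, Finset.sum_range_sub]
      ring
    · intro i
      rw [← ofReal_norm]
      exact ENNReal.ofReal_le_ofReal
        (X.hb _ ⟨hlo _, hup' _ (min_le_right _ _)⟩).2.1
    · have hm0 : ∀ n, N ≤ n → m (n + 1) - m n = 0 := by
        intro n hn
        simp only [hm]
        rw [min_eq_right (by omega : N ≤ n + 1), min_eq_right hn, sub_self]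
      rw [tsum_eq_sum (s := Finset.range N) (fun n hn => by
        rw [hm0 n (by simpa using hn), enorm_zero])]
      calc ∑ n ∈ Finset.range N, ‖m (n + 1) - m n‖ₑ
          ≤ ∑ n ∈ Finset.range N, ENNReal.ofReal (A / d * w) := by
            refine Finset.sum_le_sum fun k hk => ?_
            have hk' := Finset.mem_range.1 hk
            simp only [hm]
            rw [min_eq_left (by omega : k + 1 ≤ N), min_eq_left hk'.le, ← ofReal_norm]
            refine ENNReal.ofReal_le_ofReal ((VCR_mv X _ _ ⟨hlo k, hup' k (by omega)⟩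
              ⟨hlo (k + 1), hup' (k + 1) (by omega)⟩).trans ?_)
            gcongr
            rw [hys]
            rw [show u + (y k + w) - (u + y k) = w by ring, abs_of_pos hw]
        _ = ENNReal.ofReal (N : ℝ) * ENNReal.ofReal (A / d * w) := by simp
        _ ≤ ENNReal.ofReal A := by
            rw [← ENNReal.ofReal_mul (by positivity)]
            apply ENNReal.ofReal_le_ofReal
            have : (N : ℝ) * (A / d * w) = A * ((N * w) / d) := by field_simp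
            rw [this]
            have h9 : (N * w) / d ≤ 1 := by
              rw [div_le_one hd]
              linarith
            calc A * ((N * w) / d) ≤ A * 1 := by gcongr
              _ = A := mul_one A

/-- pointwise -/
theorem VCV_pt (hv : T_VCO) (hc : T_VCS) (C : ℝ≥0) (hW : VCV_W r A C) (hW' : VCR_W A C)
    (X : VCR_X A a d lam w s Θ Θ1 Θ2 b b' h)
    (p i0 : ℤ) (N : ℕ) (hF : VCR_F a d w p i0 N) (u : ℝ) (hu1 : p * w ≤ u)
    (hu2 : u ≤ (p + 1) * w) :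
    Vo r (VCV_F Θ b h s u (a - u) (a + d - u)) ≤
      11 * (C * VCV_Q r a d w Θ1 h s u ^ (1 / 2 : ℝ)) +
        2 * ENNReal.ofReal A * Vs r (VCV_Zs Θ h s w i0 N u) := by
  have hw := X.hw
  have hd := X.hd
  have hwd := X.hwd
  have hA := X.hA
  have hTb := VCV_Tb (r := r) hc C hW' X p i0 N hF u hu1 hu2
  obtain ⟨f1, f2, f3, f4⟩ := hF
  have hN0 : (0 : ℝ) ≤ N * w := by positivity
  have g1 : a - u ≤ i0 * w := by linarith
  have g2 : (i0 : ℝ) * w ≤ a - u + 2 * w := by linarith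
  have g3 : ((i0 : ℝ) + N) * w ≤ a + d - u := by linarith
  have g4 : a + d - u ≤ ((i0 : ℝ) + N) * w + 2 * w := by linarith
  have g5 : (i0 : ℝ) * w ≤ (i0 + N) * w := by linarith
  have h1 := VCV_add (r := r) hv X u (a - u) (i0 * w) (a + d - u) le_rfl g1 (g5.trans g3) le_rfl
  have h2 := VCV_add (r := r) hv X u (i0 * w) ((i0 + N) * w) (a + d - u) g1 g5 g3 le_rfl
  have h3 := VCV_sh2 (r := r) hv C hW X u (a - u) (i0 * w) le_rfl g1 (g5.trans g3) g2
  have h4 := VCV_sh2 (r := r) hv C hW X u ((i0 + N) * w) (a + d - u) (g1.trans g5) g3 le_rfl g4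
  have h5 := VCV_mid (r := r) C hW X u i0 N g1 g3
  have h6 : (C : ℝ≥0∞) * VCR_Q a d w Θ1 h s u ^ (1 / 2 : ℝ) ≤
      C * VCV_Q r a d w Θ1 h s u ^ (1 / 2 : ℝ) := by
    gcongr
    exact VCV_QQ hv a d w Θ1 h s u
  set q := (C : ℝ≥0∞) * VCV_Q r a d w Θ1 h s u ^ (1 / 2 : ℝ)
  set Z := 2 * ENNReal.ofReal A * Vs r (VCV_Zs Θ h s w i0 N u)
  calc Vo r (VCV_F Θ b h s u (a - u) (a + d - u))
      ≤ 4 * q + (((q + Z) + 2 * q) + 4 * q) := by
        refine h1.trans (add_le_add h3 (h2.trans (add_le_add (h5.trans (add_le_add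
          (hTb.trans (add_le_add h6 le_rfl)) le_rfl)) h4)))
    _ = _ := by ring

end

/-! ### averaging -/

theorem VCV_Sm (hm : T_VCM) (Θ : ℝ → ℝ) (s w y : ℝ) (N : ℕ) (a : ℕ → ℝ → ℂ)
    (ht : Continuous Θ) (ha : ∀ i, Continuous (a i)) :
    Measurable fun z : ℝ × ℝ => VCV_S r Θ s w y N (fun i => a i z.1) z.2 := by
  have hc := VCR_e1c
  unfold VCV_S
  refine (hm r RF.out.1 RF.out.2).2 (ℝ × ℝ) (fun z n => ∑ i ∈ Finset.range (min n N),
    a i z.1 * e1 (s * Θ (z.2 + (y + i * w)))) fun n => ?_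
  apply Continuous.measurable
  refine continuous_finsetSum _ fun i _ => ?_
  have := ha i
  fun_prop

theorem VCV_Sm1 (hm : T_VCM) (Θ : ℝ → ℝ) (s w y : ℝ) (N : ℕ) (a : ℕ → ℂ)
    (ht : Continuous Θ) : Measurable fun u : ℝ => VCV_S r Θ s w y N a u := by
  have hc := VCR_e1c
  unfold VCV_S
  refine (hm r RF.out.1 RF.out.2).2 ℝ (fun u n => ∑ i ∈ Finset.range (min n N),
    a i * e1 (s * Θ (u + (y + i * w)))) fun n => ?_
  apply Continuous.measurable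
  refine continuous_finsetSum _ fun i _ => ?_
  fun_prop

theorem VCV_Zm (hm : T_VCM) (Θ : ℝ → ℝ) (h : ℝ → ℂ) (s w : ℝ) (i0 : ℤ) (N : ℕ)
    (ht : Continuous Θ) (hh : Continuous h) :
    Measurable fun u : ℝ => Vs r (VCV_Zs Θ h s w i0 N u) := by
  unfold VCV_Zs
  refine (hm r RF.out.1 RF.out.2).2 ℝ (fun u n => ∑ k ∈ Finset.range (min n N), VCR_I Θ h s w ((i0 + k) * w) u)
    fun n => ?_
  apply Continuous.measurable
  exact continuous_finsetSum _ fun i _ => VCR_Ic Θ h s w _ ht hh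

theorem VCV_Zpt (hcs : T_VCS) (A : ℝ) (lam d : ℝ) (Θ Θ1 Θ2 : ℝ → ℝ)
    (hP : Ph A lam d Θ Θ1 Θ2) (hl : 0 < lam) (hA : 1 ≤ A) (h : ℝ → ℂ)
    (s w : ℝ) (i0 : ℤ) (N : ℕ) (hs : s = 1 ∨ s = -1) (hw : 0 < w)
    (hh : Continuous h) (x u u' : ℝ) (hu : u ∈ Icc x (x + w)) (hu' : u' ∈ Icc x (x + w)) :
    Vs r (VCV_Zs Θ h s w i0 N u) ≤
      VCV_S r Θ s w (i0 * w) N (fun k => VCR_a Θ h s w ((i0 + k) * w) u') u +
      ∫⁻ t in Icc x (x + w),
        VCV_S r Θ s w (i0 * w) N (fun k => VCR_D Θ Θ1 h s w ((i0 + k) * w) t) u := by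
  have hc := VCR_e1c
  have ht := (VCR_thc A lam d Θ Θ1 Θ2 hP).1
  have ht1 := (VCR_thc A lam d Θ Θ1 Θ2 hP).2
  have h1 : ∀ k : ℕ, VCR_I Θ h s w ((i0 + k) * w) u =
      VCR_a Θ h s w ((i0 + k) * w) u' * e1 (s * Θ (u + (i0 * w + k * w))) +
      ∫ t in u'..u, VCR_D Θ Θ1 h s w ((i0 + k) * w) t * e1 (s * Θ (u + (i0 * w + k * w))) := by
    intro k
    rw [VCR_aI, intervalIntegral.integral_mul_const]
    have h2 := intervalIntegral.integral_eq_sub_of_hasDerivAt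
      (fun t _ => VCR_aD A lam d Θ Θ1 Θ2 hP hl hA h s w ((i0 + k) * w) t hs hw hh)
      ((VCR_Dc Θ Θ1 h s w ((i0 + k) * w) ht ht1 hh).intervalIntegrable u' u)
    rw [h2, ← add_mul (i0 : ℝ) k w]
    ring
  set Y : ℕ → ℂ := fun n => ∑ k ∈ Finset.range (min n N),
    VCR_a Θ h s w ((i0 + k) * w) u' * e1 (s * Θ (u + (i0 * w + k * w))) with hY
  set y : ℝ → ℕ → ℂ := fun t n => ∑ k ∈ Finset.range (min n N),
    VCR_D Θ Θ1 h s w ((i0 + k) * w) t * e1 (s * Θ (u + (i0 * w + k * w))) with hy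
  have hyc : ∀ n, Continuous fun t => y t n := fun n =>
    continuous_finsetSum _ fun k _ => (VCR_Dc Θ Θ1 h s w ((i0 + k) * w) ht ht1 hh).mul
      continuous_const
  set W : ℕ → ℂ := fun n => ∫ t in u'..u, y t n with hWd
  have h3 : ∀ n, VCV_Zs Θ h s w i0 N u n = Y n + W n := by
    intro n
    simp only [hY, hWd, hy, VCV_Zs]
    rw [intervalIntegral.integral_finsetSum, ← Finset.sum_add_distrib]
    · exact Finset.sum_congr rfl fun k _ => h1 k
    · intro k _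
      exact ((VCR_Dc Θ Θ1 h s w ((i0 + k) * w) ht ht1 hh).mul continuous_const).intervalIntegrable
        _ _
  have hadd := (hcs r RF.out.1 RF.out.2).2.2.2.2.2.2.2.2.2 (VCV_Zs Θ h s w i0 N u) Y W (fun x z _ => by
    rw [h3, h3, show Y z + W z - (Y x + W x) = (Y z - Y x) + (W z - W x) by ring]
    exact enorm_add_le _ _)
  refine hadd.trans (add_le_add le_rfl ?_)
  refine (hcs r RF.out.1 RF.out.2).2.1 ℝ (volume.restrict (Icc x (x + w))) W y
    (fun n => (hyc n).measurable.aemeasurable) ?_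
  intro m n _
  have h4 : W n - W m = ∫ t in u'..u, (y t n - y t m) := by
    simp only [hWd]
    rw [intervalIntegral.integral_sub ((hyc n).intervalIntegrable _ _)
      ((hyc m).intervalIntegrable _ _)]
  rw [h4]
  have h5 : ‖∫ t in u'..u, (y t n - y t m)‖ₑ = ‖∫ t in uIoc u' u, (y t n - y t m)‖ₑ := by
    rw [← ofReal_norm, ← ofReal_norm, intervalIntegral.norm_intervalIntegral_eq]
  rw [h5]
  refine (enorm_integral_le_lintegral_enorm _).trans ?_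
  have h6 : uIoc u' u ⊆ Icc x (x + w) := by
    intro t ht
    rw [mem_uIoc] at ht
    rcases ht with ht | ht
    · exact ⟨by linarith [ht.1, hu'.1], by linarith [ht.2, hu.2]⟩
    · exact ⟨by linarith [ht.1, hu.1], by linarith [ht.2, hu'.2]⟩
  exact lintegral_mono_set h6

theorem VCV_Zb (hcs : T_VCS) (hm : T_VCM) (A : ℝ) (C C' : ℝ≥0) (hW : VCR_W A C)
    (hC : VCV_AC r A C') (lam d : ℝ)
    (Θ Θ1 Θ2 : ℝ → ℝ) (hP : Ph A lam d Θ Θ1 Θ2) (hl : 0 < lam) (hd : 0 < d) (hA : 1 ≤ A)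
    (h : ℝ → ℂ) (s w : ℝ) (i0 : ℤ) (N : ℕ) (hs : s = 1 ∨ s = -1) (hw : 0 < w) (hwd : w ≤ d)
    (hwl : w ^ 2 * lam ≤ 1) (hwA : 1 / A ≤ w ^ 2 * lam) (hN : (N : ℝ) * w ≤ 2 * d)
    (hh : Continuous h) (x : ℝ) :
    ∫⁻ u in Icc x (x + w), Vs r (VCV_Zs Θ h s w i0 N u) ^ 2 ≤
      (2 * (((C' * C ^ 2 : ℝ≥0) : ℝ≥0∞) +
        ((Real.toNNReal (2 * Real.pi) ^ 2 * C' * C ^ 2 : ℝ≥0) : ℝ≥0∞))) *
        ∫⁻ u in Icc x (x + w), VCR_q Θ1 h s w i0 N u := by
  have ht := (VCR_thc A lam d Θ Θ1 Θ2 hP).1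
  have ht1 := (VCR_thc A lam d Θ Θ1 Θ2 hP).2
  refine VCR_avg x w hw (fun u => Vs r (VCV_Zs Θ h s w i0 N u)) (VCR_q Θ1 h s w i0 N)
    (fun t u => VCV_S r Θ s w (i0 * w) N (fun k => VCR_a Θ h s w ((i0 + k) * w) t) u)
    (fun t u => VCV_S r Θ s w (i0 * w) N (fun k => VCR_D Θ Θ1 h s w ((i0 + k) * w) t) u)
    ((C' * C ^ 2 : ℝ≥0) : ℝ≥0∞) ((Real.toNNReal (2 * Real.pi) ^ 2 * C' * C ^ 2 : ℝ≥0) : ℝ≥0∞)
    (C' * ENNReal.ofReal w * (ENNReal.ofReal (2 * Real.pi / w) ^ 2 * C ^ 2))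
    (VCR_qm Θ1 h s w i0 N hh ht1) ?_ ?_ ?_ ?_ ?_ ?_
  · intro t
    exact VCV_Sm1 hm Θ s w (i0 * w) N (fun k => VCR_a Θ h s w ((i0 + k) * w) t) ht
  · exact VCV_Sm hm Θ s w (i0 * w) N (fun k t => VCR_D Θ Θ1 h s w ((i0 + k) * w) t) ht
      (fun k => VCR_Dc Θ Θ1 h s w ((i0 + k) * w) ht ht1 hh)
  · intro u hu t ht'
    exact VCV_Zpt hcs A lam d Θ Θ1 Θ2 hP hl hA h s w i0 N hs hw hh x u t hu ht'
  · intro t
    refine (hC lam d w Θ Θ1 Θ2 s x (i0 * w) N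
      (fun k => VCR_a Θ h s w ((i0 + k) * w) t) hP hl hd hw hwA hwl hN hs).trans ?_
    have h1 : ∑ k ∈ Finset.range N, ‖VCR_a Θ h s w ((i0 + k) * w) t‖ₑ ^ 2 ≤
        C ^ 2 * VCR_q Θ1 h s w i0 N t := by
      unfold VCR_q
      rw [Finset.mul_sum]
      refine Finset.sum_le_sum fun k _ => ?_
      have h1 := VCR_ab A C hW lam d Θ Θ1 Θ2 hP hl hd hA h s w t (i0 + k) hs hw hwd hwl hh
      push_cast at h1
      rw [← mul_pow]
      gcongr
    calc (C' : ℝ≥0∞) * ENNReal.ofReal w *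
          ∑ k ∈ Finset.range N, ‖VCR_a Θ h s w ((i0 + k) * w) t‖ₑ ^ 2
        ≤ C' * ENNReal.ofReal w * (C ^ 2 * VCR_q Θ1 h s w i0 N t) := by gcongr
      _ = _ := by push_cast; ring
  · intro t
    refine (hC lam d w Θ Θ1 Θ2 s x (i0 * w) N
      (fun k => VCR_D Θ Θ1 h s w ((i0 + k) * w) t) hP hl hd hw hwA hwl hN hs).trans ?_
    have h1 : ∑ k ∈ Finset.range N, ‖VCR_D Θ Θ1 h s w ((i0 + k) * w) t‖ₑ ^ 2 ≤
        ENNReal.ofReal (2 * Real.pi / w) ^ 2 * (C ^ 2 * VCR_q Θ1 h s w i0 N t) := by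
      unfold VCR_q
      rw [Finset.mul_sum, Finset.mul_sum]
      refine Finset.sum_le_sum fun k _ => ?_
      have h1 := VCR_Db A C hW lam d Θ Θ1 Θ2 hP hl hd hA h s w t (i0 + k) hs hw hwd hwl hh
      push_cast at h1
      rw [← mul_pow, ← mul_pow]
      gcongr
    calc (C' : ℝ≥0∞) * ENNReal.ofReal w *
          ∑ k ∈ Finset.range N, ‖VCR_D Θ Θ1 h s w ((i0 + k) * w) t‖ₑ ^ 2
        ≤ C' * ENNReal.ofReal w *
          (ENNReal.ofReal (2 * Real.pi / w) ^ 2 * (C ^ 2 * VCR_q Θ1 h s w i0 N t)) := by gcongr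
      _ = _ := by ring
  · have h1 : ENNReal.ofReal w * (C' * ENNReal.ofReal w *
        (ENNReal.ofReal (2 * Real.pi / w) ^ 2 * C ^ 2)) =
        (ENNReal.ofReal w * ENNReal.ofReal (2 * Real.pi / w)) ^ 2 * C' * C ^ 2 := by ring
    rw [h1, ← ENNReal.ofReal_mul hw.le]
    have h2 : w * (2 * Real.pi / w) = 2 * Real.pi := by field_simp
    rw [h2]
    apply le_of_eq
    push_cast
    rfl

theorem VCV_FS (hv : T_VCO) (A a d lam w : ℝ) (Θ Θ1 Θ2 : ℝ → ℝ) (b b' c c' h κ : ℝ → ℂ)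
    (X1 : VCR_X A a d lam w 1 Θ Θ1 Θ2 b b' h) (X2 : VCR_X A a d lam w (-1) Θ Θ1 Θ2 c c' h)
    (hκ : ∀ x ∈ Icc a (a + d), κ x = Real.sqrt lam * (e1 (Θ x) * b x + e1 (-Θ x) * c x))
    (u : ℝ) :
    Vo r (FS κ a d h u) ≤ ENNReal.ofReal (Real.sqrt lam) *
      (Vo r (VCV_F Θ b h 1 u (a - u) (a + d - u)) +
        Vo r (VCV_F Θ c h (-1) u (a - u) (a + d - u))) := by
  have hd := X1.hd
  set F1 := VCV_F Θ b h 1 u (a - u) (a + d - u) with hF1
  set F2 := VCV_F Θ c h (-1) u (a - u) (a + d - u) with hF2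
  have hG : Vo r (fun x y => F1 x y + F2 x y) ≤ Vo r F1 + Vo r F2 :=
    (hv r RF.out.1 RF.out.2).2.2.2.2.2.2 _ _ _ fun x y _ => enorm_add_le _ _
  refine ((hv r RF.out.1 RF.out.2).2.2.2.2.2.1 (FS κ a d h u) (fun x y => F1 x y + F2 x y)
    (ENNReal.ofReal (Real.sqrt lam)) ?_).trans (by gcongr)
  intro V1 V2 hV
  have hab : a - u ≤ a + d - u := by linarith
  have hset : (Ioc V1 V2 ∩ {v | u + v ∈ Ico a (a + d)} : Set ℝ) =ᵐ[volume]
      (Ioc (VCV_c (a - u) (a + d - u) V1) (VCV_c (a - u) (a + d - u) V2) : Set ℝ) := by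
    have h1 : {v | u + v ∈ Ico a (a + d)} = Ico (a - u) (a + d - u) := by
      ext v
      simp only [Set.mem_ofPred_eq, mem_Ico]
      constructor
      · rintro ⟨h1, h2⟩; constructor <;> linarith
      · rintro ⟨h1, h2⟩; constructor <;> linarith
    have h2 : (Ioc (VCV_c (a - u) (a + d - u) V1) (VCV_c (a - u) (a + d - u) V2) : Set ℝ) =
        Ioc V1 V2 ∩ Ioc (a - u) (a + d - u) := by
      ext v
      simp only [VCV_c, mem_Ioc, mem_inter_iff, max_lt_iff, le_max_iff, min_lt_iff, le_min_iff]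
      constructor
      · rintro ⟨⟨h3, h4⟩, h5⟩
        have h6 : v ≤ V2 ∧ v ≤ a + d - u := h5.resolve_left (not_le.2 h3)
        exact ⟨⟨h4.resolve_right (not_lt.2 h6.2), h6.1⟩, h3, h6.2⟩
      · rintro ⟨⟨h3, h4⟩, h5, h6⟩
        exact ⟨⟨h5, Or.inl h3⟩, Or.inr ⟨h4, h6⟩⟩
    rw [h1, h2]
    exact (ae_eq_refl _).inter Ico_ae_eq_Ioc
  unfold FS
  rw [setIntegral_congr_set hset]
  have hW1 := VCV_clo (a - u) (a + d - u) V1
  have hW2 := VCV_chi hab V2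
  have h12 := VCV_cmono (a - u) (a + d - u) hV
  have hF1' : F1 V1 V2 = ∫ v in (VCV_c (a - u) (a + d - u) V1)..(VCV_c (a - u) (a + d - u) V2),
    e1 (1 * Θ (u + v)) * b (u + v) * h v := rfl
  have hF2' : F2 V1 V2 = ∫ v in (VCV_c (a - u) (a + d - u) V1)..(VCV_c (a - u) (a + d - u) V2),
    e1 ((-1) * Θ (u + v)) * c (u + v) * h v := rfl
  rw [hF1', hF2']
  set W1 := VCV_c (a - u) (a + d - u) V1
  set W2 := VCV_c (a - u) (a + d - u) V2
  rw [← intervalIntegral.integral_of_le h12]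
  have e1' : ∫ v in W1..W2, κ (u + v) * h v = (Real.sqrt lam : ℂ) *
      ((∫ v in W1..W2, e1 (1 * Θ (u + v)) * b (u + v) * h v) +
        ∫ v in W1..W2, e1 ((-1) * Θ (u + v)) * c (u + v) * h v) := by
    rw [← intervalIntegral.integral_add (VCR_fc X1 u W1 W2 hW1 h12 hW2)
      (VCR_fc X2 u W1 W2 hW1 h12 hW2), ← intervalIntegral.integral_const_mul]
    apply intervalIntegral.integral_congr
    intro v hv
    rw [uIcc_of_le h12] at hv
    simp only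
    rw [hκ (u + v) ⟨by linarith [hv.1], by linarith [hv.2]⟩, one_mul, neg_one_mul]
    ring
  rw [e1', enorm_mul]
  have h4 : ‖(Real.sqrt lam : ℂ)‖ₑ = ENNReal.ofReal (Real.sqrt lam) := by
    rw [← ofReal_norm, Complex.norm_real, Real.norm_of_nonneg (Real.sqrt_nonneg _)]
  rw [h4]

/-- one block of `u` -/
theorem VCV_blk (hv : T_VCO) (hcs : T_VCS) (hm : T_VCM) (A : ℝ) (C C' : ℝ≥0)
    (hWV : VCV_W r A C) (hW : VCR_W A C) (hC : VCV_AC r A C')
    (a d lam w : ℝ) (Θ Θ1 Θ2 : ℝ → ℝ) (b b' c c' h κ : ℝ → ℂ)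
    (X1 : VCR_X A a d lam w 1 Θ Θ1 Θ2 b b' h) (X2 : VCR_X A a d lam w (-1) Θ Θ1 Θ2 c c' h)
    (hκ : ∀ x ∈ Icc a (a + d), κ x = Real.sqrt lam * (e1 (Θ x) * b x + e1 (-Θ x) * c x))
    (K : ℝ≥0) (hK : K = 2 * (C' * C ^ 2 + Real.toNNReal (2 * Real.pi) ^ 2 * C' * C ^ 2)) (p : ℤ) :
    ∫⁻ u in Icc (p * w) (p * w + w), Vo r (FS κ a d h u) ^ 2 ≤
      ENNReal.ofReal lam * (484 * C ^ 2 + 16 * ENNReal.ofReal A ^ 2 * K) *
        ((∫⁻ u in Icc (p * w) (p * w + w), VCV_Q r a d w Θ1 h 1 u) +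
          ∫⁻ u in Icc (p * w) (p * w + w), VCV_Q r a d w Θ1 h (-1) u) := by
  have hw := X1.hw
  have hd := X1.hd
  have hwd := X1.hwd
  have hA := X1.hA
  have hl := X1.hl
  have ht := (VCR_thc A lam d Θ Θ1 Θ2 X1.hP).1
  have ht1 := (VCR_thc A lam d Θ Θ1 Θ2 X1.hP).2
  obtain ⟨i0, N, hF⟩ := VCR_exF a d w hw hwd p
  have hN : (N : ℝ) * w ≤ 2 * d := by
    obtain ⟨f1, f2, f3, f4⟩ := hF
    nlinarith
  set U := Icc (p * w) (p * w + w) with hU
  have hmQ : ∀ s, Measurable (VCV_Q r a d w Θ1 h s) := fun s => VCV_Qm hm a d w s Θ1 h X1.hh ht1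
  have hmZ : ∀ s, Measurable fun u => Vs r (VCV_Zs Θ h s w i0 N u) :=
    fun s => VCV_Zm hm Θ h s w i0 N ht X1.hh
  have hpt : ∀ u ∈ U, Vo r (FS κ a d h u) ^ 2 ≤
      ENNReal.ofReal lam * (484 * C ^ 2 * VCV_Q r a d w Θ1 h 1 u +
        16 * ENNReal.ofReal A ^ 2 * Vs r (VCV_Zs Θ h 1 w i0 N u) ^ 2 +
        (484 * C ^ 2 * VCV_Q r a d w Θ1 h (-1) u +
        16 * ENNReal.ofReal A ^ 2 * Vs r (VCV_Zs Θ h (-1) w i0 N u) ^ 2)) := by
    intro u hu
    have hu1 : p * w ≤ u := hu.1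
    have hu2 : u ≤ (p + 1) * w := by linarith [hu.2]
    set G : ℝ → ℝ≥0∞ := fun s => 11 * (C * VCV_Q r a d w Θ1 h s u ^ (1 / 2 : ℝ)) +
        2 * ENNReal.ofReal A * Vs r (VCV_Zs Θ h s w i0 N u) with hG
    have hsup : Vo r (FS κ a d h u) ≤ ENNReal.ofReal (Real.sqrt lam) * (G 1 + G (-1)) := by
      refine (VCV_FS hv A a d lam w Θ Θ1 Θ2 b b' c c' h κ X1 X2 hκ u).trans ?_
      gcongr
      · exact VCV_pt hv hcs C hWV hW X1 p i0 N hF u hu1 hu2
      · exact VCV_pt hv hcs C hWV hW X2 p i0 N hF u hu1 hu2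
    have hG2 : ∀ s, G s ^ 2 ≤ 242 * C ^ 2 * VCV_Q r a d w Θ1 h s u +
        8 * ENNReal.ofReal A ^ 2 * Vs r (VCV_Zs Θ h s w i0 N u) ^ 2 := by
      intro s
      refine (VCR_two _ _).trans (le_of_eq ?_)
      rw [mul_pow, mul_pow, VCR_sq]
      ring
    calc Vo r (FS κ a d h u) ^ 2
        ≤ (ENNReal.ofReal (Real.sqrt lam) * (G 1 + G (-1))) ^ 2 := by gcongr
      _ = ENNReal.ofReal (Real.sqrt lam) ^ 2 * (G 1 + G (-1)) ^ 2 := by ring
      _ = ENNReal.ofReal lam * (G 1 + G (-1)) ^ 2 := by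
          rw [← ENNReal.ofReal_pow (Real.sqrt_nonneg _), Real.sq_sqrt hl.le]
      _ ≤ ENNReal.ofReal lam * (2 * (242 * C ^ 2 * VCV_Q r a d w Θ1 h 1 u +
        8 * ENNReal.ofReal A ^ 2 * Vs r (VCV_Zs Θ h 1 w i0 N u) ^ 2) +
          2 * (242 * C ^ 2 * VCV_Q r a d w Θ1 h (-1) u +
        8 * ENNReal.ofReal A ^ 2 * Vs r (VCV_Zs Θ h (-1) w i0 N u) ^ 2)) := by
          gcongr
          refine (VCR_two _ _).trans ?_
          gcongr
          · exact hG2 1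
          · exact hG2 (-1)
      _ = _ := by ring
  have hZ : ∀ s, (s = 1 ∨ s = -1) → ∫⁻ u in U, Vs r (VCV_Zs Θ h s w i0 N u) ^ 2 ≤
      K * ∫⁻ u in U, VCV_Q r a d w Θ1 h s u := by
    intro s hs
    refine (VCV_Zb hcs hm A C C' hW hC lam d Θ Θ1 Θ2 X1.hP hl hd hA h s w i0 N hs hw
      (by linarith) X1.hwl X1.hwA hN X1.hh (p * w)).trans ?_
    have h1 : (2 * (((C' * C ^ 2 : ℝ≥0) : ℝ≥0∞) +
        ((Real.toNNReal (2 * Real.pi) ^ 2 * C' * C ^ 2 : ℝ≥0) : ℝ≥0∞))) = (K : ℝ≥0∞) := by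
      rw [hK]; push_cast; rfl
    rw [h1]
    gcongr 1
    refine setLIntegral_mono' measurableSet_Icc fun u hu => ?_
    exact (VCR_qQ a d w s Θ1 h hw hwd p i0 N hF u hu.1 (by linarith [hu.2])).trans
      (VCV_QQ hv a d w Θ1 h s u)
  calc ∫⁻ u in U, Vo r (FS κ a d h u) ^ 2
      ≤ ∫⁻ u in U, ENNReal.ofReal lam * (484 * C ^ 2 * VCV_Q r a d w Θ1 h 1 u +
        16 * ENNReal.ofReal A ^ 2 * Vs r (VCV_Zs Θ h 1 w i0 N u) ^ 2 +
        (484 * C ^ 2 * VCV_Q r a d w Θ1 h (-1) u +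
        16 * ENNReal.ofReal A ^ 2 * Vs r (VCV_Zs Θ h (-1) w i0 N u) ^ 2)) :=
        setLIntegral_mono' measurableSet_Icc hpt
    _ = ENNReal.ofReal lam * ((484 * C ^ 2 * (∫⁻ u in U, VCV_Q r a d w Θ1 h 1 u) +
        16 * ENNReal.ofReal A ^ 2 * (∫⁻ u in U, Vs r (VCV_Zs Θ h 1 w i0 N u) ^ 2)) +
        (484 * C ^ 2 * (∫⁻ u in U, VCV_Q r a d w Θ1 h (-1) u) +
        16 * ENNReal.ofReal A ^ 2 * ∫⁻ u in U, Vs r (VCV_Zs Θ h (-1) w i0 N u) ^ 2)) := by
        exact VCR_lin U _ _ _ _ _ _ _ (hmQ 1) ((hmZ 1).pow_const 2) (hmQ (-1))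
          ((hmZ (-1)).pow_const 2)
    _ ≤ ENNReal.ofReal lam * ((484 * C ^ 2 * (∫⁻ u in U, VCV_Q r a d w Θ1 h 1 u) +
        16 * ENNReal.ofReal A ^ 2 * (K * ∫⁻ u in U, VCV_Q r a d w Θ1 h 1 u)) +
        (484 * C ^ 2 * (∫⁻ u in U, VCV_Q r a d w Θ1 h (-1) u) +
        16 * ENNReal.ofReal A ^ 2 * (K * ∫⁻ u in U, VCV_Q r a d w Θ1 h (-1) u))) := by
        gcongr
        · exact hZ 1 (Or.inl rfl)
        · exact hZ (-1) (Or.inr rfl)
    _ = _ := by ring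

end

theorem p_VCV (_h0 : Pool.Agent.VRC.T_WIV) (h1 : T_WIV) (h2 : T_ACV) (h3 : T_VCO) (h4 : T_VCS)
    (h5 : T_VCM) : T_VCV := by
  intro A hA
  obtain ⟨C1, hW1⟩ := h1 A hA
  obtain ⟨C2, hW2⟩ := Pool.Agent.CRR.p_WIN Pool.Agent.CRL.p_ABL A hA
  obtain ⟨C0, hAC0⟩ := h2 A hA
  obtain ⟨C, hCd⟩ : ∃ C : ℝ≥0, C = max C1 C2 := ⟨_, rfl⟩
  have hC1 : (C1 : ℝ≥0∞) ≤ C := by
    rw [hCd]; exact_mod_cast le_max_left _ _
  have hC2 : (C2 : ℝ≥0∞) ≤ C := by
    rw [hCd]; exact_mod_cast le_max_right _ _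
  obtain ⟨K0, hK0⟩ : ∃ K : ℝ≥0,
    K = 2 * (C0 * C ^ 2 + Real.toNNReal (2 * Real.pi) ^ 2 * C0 * C ^ 2) := ⟨_, rfl⟩
  refine ⟨2 * Real.toNNReal A * (484 * C ^ 2 + 16 * Real.toNNReal A ^ 2 * K0), ?_⟩
  intro r hr2 hr4
  have RF : Fact (2 < r ∧ r ≤ 4) := ⟨hr2, hr4⟩
  set κ6 : ℝ≥0 := Real.toNNReal (kr r ^ 6) with hκ6
  have hκc : ENNReal.ofReal (kr r ^ 6) = (κ6 : ℝ≥0∞) := rfl
  have hκ1 : (1 : ℝ≥0∞) ≤ κ6 := by
    rw [← hκc, ← ENNReal.ofReal_one]
    refine ENNReal.ofReal_le_ofReal (one_le_pow₀ ?_)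
    unfold kr
    rw [le_div_iff₀ (by linarith)]
    linarith
  set C' : ℝ≥0 := C0 * κ6 with hC'
  have hAC : VCV_AC r A C' := by
    intro lam d w Θ Θ1 Θ2 s x y N a g1 g2 g3 g4 g5 g6 g7 g8
    refine (hAC0 r hr2 hr4 lam d w Θ Θ1 Θ2 s x y N a g1 g2 g3 g4 g5 g6 g7 g8).trans
      (le_of_eq ?_)
    rw [hκc, hC']
    push_cast
    ring
  have hWV : VCV_W r A C := by
    intro lam d w Θ Θ1 Θ2 s u i b b' h g1 g2 g3 g4 g5 g6 g7 g8 L N g9 g10 g11 g12 g13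
    refine ((hW1 r hr2 hr4 lam d w Θ Θ1 Θ2 s u i b b' h g1 g2 g3 g4 g5 g6 g7 g8) L N g9 g10
      g11 g12 g13).trans ?_
    gcongr
  have hW : VCR_W A C := by
    intro lam d w Θ Θ1 Θ2 s u i V1 V2 b b' h g1 g2 g3 g4 g5 g6 g7 g8 g9 g10 g11 g12 g13
    refine (hW2 lam d w Θ Θ1 Θ2 s u i V1 V2 b b' h g1 g2 g3 g4 g5 g6 g7 g8 g9 g10 g11 g12
      g13).trans ?_
    gcongr
  obtain ⟨K, hK⟩ : ∃ K : ℝ≥0,
    K = 2 * (C' * C ^ 2 + Real.toNNReal (2 * Real.pi) ^ 2 * C' * C ^ 2) := ⟨_, rfl⟩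
  have hKK : (K : ℝ≥0∞) = κ6 * K0 := by
    have : K = κ6 * K0 := by
      rw [hK, hK0, hC']
      ring
    rw [this]
    push_cast
    rfl
  intro a d lam w κ h hd hl hS hw hwd hwA hwl hh
  obtain ⟨Θ, Θ1, Θ2, b, c, b', c', hP, hr, hbc, hb', hc'⟩ := hS
  have X1 : VCR_X A a d lam w 1 Θ Θ1 Θ2 b b' h :=
    ⟨hA, hd, hl, hw, hwd, hwl, hwA, Or.inl rfl, hP, hr, fun x hx =>
      ⟨(hbc x hx).1, (hbc x hx).2.2.1, (hbc x hx).2.2.2.2.1⟩, hb', hh⟩
  have X2 : VCR_X A a d lam w (-1) Θ Θ1 Θ2 c c' h :=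
    ⟨hA, hd, hl, hw, hwd, hwl, hwA, Or.inr rfl, hP, hr, fun x hx =>
      ⟨(hbc x hx).2.1, (hbc x hx).2.2.2.1, (hbc x hx).2.2.2.2.2.1⟩, hc', hh⟩
  have hκ := fun x hx => (hbc x hx).2.2.2.2.2.2
  set T := ∑' i : ℤ, ∫⁻ X in {X : ℝ | lam * d / A ≤ |X| ∧ |X| ≤ A * (lam * d)}, NV r w h i X ^ 2
  have hQ : ∀ s, (s = 1 ∨ s = -1) →
      ∫⁻ u, VCV_Q r a d w Θ1 h s u ≤ ENNReal.ofReal (A / lam) * T :=
    fun s hs => VCV_Qint h5 A lam a d w s Θ Θ1 Θ2 h hA hl hd hs hP hh hr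
  rw [VCR_cover w hw]
  calc ∑' p : ℤ, ∫⁻ u in Icc (p * w) (p * w + w), Vo r (FS κ a d h u) ^ 2
      ≤ ∑' p : ℤ, ENNReal.ofReal lam * (484 * C ^ 2 + 16 * ENNReal.ofReal A ^ 2 * K) *
        ((∫⁻ u in Icc (p * w) (p * w + w), VCV_Q r a d w Θ1 h 1 u) +
          ∫⁻ u in Icc (p * w) (p * w + w), VCV_Q r a d w Θ1 h (-1) u) :=
        ENNReal.tsum_le_tsum fun p => VCV_blk h3 h4 h5 A C C' hWV hW hAC a d lam w Θ Θ1 Θ2
          b b' c c' h κ X1 X2 hκ K hK p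
    _ = ENNReal.ofReal lam * (484 * C ^ 2 + 16 * ENNReal.ofReal A ^ 2 * K) *
        ((∫⁻ u, VCV_Q r a d w Θ1 h 1 u) + ∫⁻ u, VCV_Q r a d w Θ1 h (-1) u) := by
        rw [ENNReal.tsum_mul_left, ENNReal.tsum_add, ← VCR_cover w hw, ← VCR_cover w hw]
    _ ≤ ENNReal.ofReal lam * (484 * C ^ 2 + 16 * ENNReal.ofReal A ^ 2 * K) *
        (ENNReal.ofReal (A / lam) * T + ENNReal.ofReal (A / lam) * T) := by
        gcongr
        · exact hQ 1 (Or.inl rfl)
        · exact hQ (-1) (Or.inr rfl)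
    _ ≤ ENNReal.ofReal lam * (κ6 * (484 * C ^ 2 + 16 * ENNReal.ofReal A ^ 2 * K0)) *
        (ENNReal.ofReal (A / lam) * T + ENNReal.ofReal (A / lam) * T) := by
        gcongr
        rw [hKK]
        calc (484 : ℝ≥0∞) * C ^ 2 + 16 * ENNReal.ofReal A ^ 2 * (κ6 * K0)
            ≤ κ6 * (484 * C ^ 2) + 16 * ENNReal.ofReal A ^ 2 * (κ6 * K0) :=
              add_le_add (le_mul_of_one_le_left' hκ1) le_rfl
          _ = _ := by ring
    _ = 2 * (ENNReal.ofReal lam * ENNReal.ofReal (A / lam)) *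
        (484 * C ^ 2 + 16 * ENNReal.ofReal A ^ 2 * K0) * κ6 * T := by ring
    _ = _ := by
        rw [← ENNReal.ofReal_mul hl.le]
        have h6 : lam * (A / lam) = A := by field_simp
        rw [h6, hκc]
        push_cast
        rfl

end Pool.Agent.VRR
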