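import Pool.Agent.VRR.Defs
import Pool.Agent.CAR.STargets

set_option autoImplicit false

/-!
# VRR: `V^r` Carleson theorem on the line, `2 < r ≤ 4`, constants `C K^a` with `K = kr r = r/(r-2)`: targets

Every target `T_X` is to be proved as `theorem p_X : T_X` (targets named in brackets, and the landed theorems of
`Pool/Agent/CAR`, `Pool/Agent/VRC`, may be used; other VRR targets are taken as hypotheses of `p_X`) in a NEW file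
`Pool/Agent/VRR/P_X.lean`, namespace `Pool.Agent.VRR`, helper lemmas in `X_`. Each of them is the landed VRC target
`VX` (file `Pool/Agent/VRC/P_VX.lean`) with `4/3` replaced by `rc r`, `3/4` by `1 - 1/r`, `1/4` by `1/r`, `4` by
`r`; the constants `C` are uniform in `r ∈ (2,4]`, and all dependence on `r` is in the written power of
`K = kr r ≥ 2`. Recall `1/rc r = 1 - 1/r ∈ (1/2, 3/4]`, `rc r ∈ [4/3, 2)`, `1/K = 1 - 2/r ∈ (0, 1/2]`,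
`1 - 2^(-x) ≥ x/2` for `0 ≤ x ≤ 1`.
-/

namespace Pool.Agent.VRR

open MeasureTheory Set ComplexConjugate Filter Topology
open scoped ENNReal NNReal
open Pool.Agent.CAR
open Pool.Agent.VRC (PQ Act vc vav GG2 NJ da ps Gm bp Yk)

/-! ### basic facts -/

/-- **REX** (30 min). The exponents. (the last two: `1 - 2^(-x) ≥ x/2`, `1 - (9/10)^x ≥ x/10` for `0 ≤ x ≤ 1`,
concavity.) -/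
def T_REX : Prop := ∀ r : ℝ, 2 < r → r ≤ 4 →
  4 / 3 ≤ rc r ∧ rc r < 2 ∧ 1 / rc r = 1 - 1 / r ∧ rc r * (1 - 1 / r) = 1 ∧ 1 / 2 < 1 - 1 / r ∧
  1 - 1 / r ≤ 3 / 4 ∧ 1 / 4 ≤ 1 / r ∧ 1 / r < 1 / 2 ∧ 2 ≤ kr r ∧ 1 / kr r = 1 - 2 / r ∧ 0 < 1 - 2 / r ∧
  1 - 2 / r ≤ 1 / 2 ∧ (rc r).HolderConjugate r ∧
  1 / (2 * kr r) ≤ 1 - (2 : ℝ) ^ (-(1 - 2 / r)) ∧
  1 / (20 * kr r) ≤ 1 - (9 / 10 : ℝ) ^ ((1 - 2 / r) / 2)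

/-- **BAS** (20 min). `VBAS` with `rc r` (file `VRC/P_VBAS.lean`). -/
def T_BAS : Prop := ∀ (r : ℝ), 2 < r → r ≤ 4 → ∀ (L : ℕ) (p q : ℕ → ℝ → ℝ) (a : ℕ → ℝ → ℂ)
  (h : ℝ) (E : Set ℝ), PQ L p q → AB r L a h E →
  (∀ (s : Tile) (i j : ℕ) (x : ℝ), i < L → j < L → x ∈ Act p q s i → x ∈ Act p q s j → i = j) ∧
  (∀ (s : Tile) (x : ℝ), ‖vc L p q a s x‖ ^ rc r ≤ vm r L p a s.up x) ∧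
  (∀ (U V : Set ℝ) (x : ℝ), U ⊆ V → vm r L p a U x ≤ vm r L p a V x) ∧
  (∀ (U : Set ℝ) (x : ℝ), 0 ≤ vm r L p a U x ∧ vm r L p a U x ≤ h ^ rc r ∧
    (x ∉ E → vm r L p a U x = 0)) ∧
  (∀ s : Tile, Measurable (vc L p q a s)) ∧
  (∀ U : Set ℝ, MeasurableSet U → Measurable (vm r L p a U)) ∧
  (∀ (I : Finset Tile) (U : Tile → Set ℝ) (V : Set ℝ) (x : ℝ),
    (∀ s ∈ I, ∀ t ∈ I, s ≠ t → Disjoint (U s) (U t)) → (∀ s ∈ I, U s ⊆ V) →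
      ∑ s ∈ I, vm r L p a (U s) x ≤ vm r L p a V x)

/-- **DNB** (20 min; from BAS). `VDNB`. -/
def T_DNB : Prop := ∀ (r : ℝ), 2 < r → r ≤ 4 → ∀ (L : ℕ) (p q : ℕ → ℝ → ℝ) (a : ℕ → ℝ → ℂ)
  (E : Set ℝ), PQ L p q → AB r L a 1 E → ∀ u : Tile,
    0 ≤ vdn r L p a u ∧ vdn r L p a u ≤ 2 ∧ vdn r L p a u ≤ (2 : ℝ) ^ (-u.k) * vol E

/-- **MASS** (30 min; from BAS, DNB). `VMASS`. -/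
def T_MASS : Prop := ∃ C : ℝ, 0 < C ∧ ∀ (r : ℝ), 2 < r → r ≤ 4 → ∀ (L : ℕ) (p q : ℕ → ℝ → ℝ)
  (a : ℕ → ℝ → ℂ) (E : Set ℝ), PQ L p q → AB r L a 1 E → ∀ (S : Finset Tile) (mu : ℝ), 0 < mu →
  ∃ (S' U : Finset Tile), S' ⊆ S ∧ VMs r L p a S' mu ∧ (∀ s ∈ S, s ∉ S' → ∃ u ∈ U, TLE s u) ∧
    ∑ u ∈ U, (2 : ℝ) ^ u.k ≤ C * vol E / mu

/-- **P2** (20 min; from BAS). `VP2`. -/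
def T_P2 : Prop := ∃ C : ℝ, 0 < C ∧ ∀ (r : ℝ), 2 < r → r ≤ 4 → ∀ (L : ℕ) (p q : ℕ → ℝ → ℝ)
  (a : ℕ → ℝ → ℂ) (E : Set ℝ),
  PQ L p q → AB r L a 1 E → ∀ (T : Finset Tile) (K Λ : ℤ) (ξ mu : ℝ) (κ : ℝ → ℤ),
  Tree T K Λ ξ → Stop T κ → VMs r L p a T mu → ∀ x : ℝ,
    ∫⁻ y in Jx κ x, ENNReal.ofReal (vm r L p a {f | ∃ s ∈ T, κ x + 2 ≤ s.k ∧ f ∈ s.om} y) ≤
      ENNReal.ofReal (C * mu) * volume (Jx κ x)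

/-- **AVG** (20 min; from REX). `VAVG`. -/
def T_AVG : Prop := ∀ (r : ℝ), 2 < r → r ≤ 4 → ∀ κ : ℝ → ℤ, Measurable κ →
  (∀ x y, y ∈ Jx κ x → κ y = κ x) →
  ∀ (W : Set ℝ) (Q : ℝ≥0∞) (w h H : ℝ → ℝ≥0∞), MeasurableSet W → Q ≠ ⊤ → Measurable w →
  Measurable h → Measurable H → (∀ x, ∫⁻ y in Jx κ x, w y ≤ Q * volume (Jx κ x)) →
  (∀ x y, y ∈ Jx κ x → h y ≤ w y ^ (1 - 1 / r) * H x) →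
  (∀ x y, y ∈ Jx κ x → w y ≠ 0 → x ∈ W) →
    ∫⁻ x, h x ≤ Q ^ (1 - 1 / r) * ∫⁻ x in W, H x

/-! ### trees -/

/-- **SMA** (45 min; from REX, BAS). `VSMA`; now split `wt 20 = wt 8 * wt 12`; Hölder with `rc r`, `r`:
`(∫ ‖vc‖^(r') (wt 8)^(r'))^(1/r') (∫_R (wt 12)^r)^(1/r)`, `(wt 8)^(r') ≤ wt 8`,
`(wt 12)^r ≤ (wt 10)^(r-1) wt 10 ≤ (C Y)^(r-1) wt 10` on `R`; `(2^k mu)^(1-1/r) ((C Y)^(r-1) 2^k Y)^(1/r) ≤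
C' 2^k mu^(1-1/r) Y`. -/
def T_SMA : Prop := ∀ A : ℝ, ∃ C : ℝ, 0 < C ∧ ∀ (r : ℝ), 2 < r → r ≤ 4 →
  ∀ φ Φ : ℝ → ℂ, WPk A φ Φ →
  ∀ (L : ℕ) (p q : ℕ → ℝ → ℝ) (a : ℕ → ℝ → ℂ) (E : Set ℝ), PQ L p q → AB r L a 1 E →
  ∀ (T : Finset Tile) (κ : ℝ → ℤ) (mu : ℝ), Stop T κ → VMs r L p a T mu → 0 ≤ mu → ∀ s ∈ T,
    Real.sqrt ((2 : ℝ) ^ s.k) * ∫ x in {x | s.k ≤ κ x + 1}, ‖vc L p q a s x‖ * ‖fx φ s x‖ ≤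
      C * mu ^ (1 - 1 / r) * ∫ x in {x | s.k ≤ κ x + 1}, wt 10 (s.u x)

open Classical in
/-- **SPL** (20 min; from BAS). `VSPL`. -/
def T_SPL : Prop := ∀ (r : ℝ), 2 < r → r ≤ 4 → ∀ (A : ℝ) (φ Φ : ℝ → ℂ), WPk A φ Φ →
  ∀ (L : ℕ) (p q : ℕ → ℝ → ℝ) (a : ℕ → ℝ → ℂ) (E : Set ℝ), PQ L p q → AB r L a 1 E →
  ∀ (c : Tile → ℝ) (T : Finset Tile) (κ : ℝ → ℤ), (∀ s ∈ T, 0 ≤ c s) → Measurable κ →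
  ∃ ε : Tile → ℂ, (∀ s, ‖ε s‖ = 1) ∧
    ENNReal.ofReal (∑ s ∈ T, c s * ‖vav φ L p q a s‖) ≤
      ENNReal.ofReal (∑ s ∈ T, c s *
        ∫ x in {x | s.k ≤ κ x + 1}, ‖vc L p q a s x‖ * ‖fx φ s x‖) +
      ∫⁻ x, ‖∑ s ∈ T, if κ x + 2 ≤ s.k then
        ε s * ((c s : ℝ) : ℂ) * fx φ s x * vc L p q a s x else 0‖ₑ

/-- **MIN** (30 min; from REX, BAS, VRC.VTR, P2, AVG, SMA, SPL). `VMIN`. -/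
def T_MIN : Prop := ∀ A : ℝ, ∃ C : ℝ, 0 < C ∧ ∀ (r : ℝ), 2 < r → r ≤ 4 →
  ∀ φ Φ : ℝ → ℂ, WPk A φ Φ →
  ∀ (L : ℕ) (p q : ℕ → ℝ → ℝ) (a : ℕ → ℝ → ℂ) (E : Set ℝ), PQ L p q → AB r L a 1 E →
  ∀ (c : Tile → ℝ) (T : Finset Tile) (K Λ : ℤ) (ξ eps mu : ℝ), MTree T K Λ ξ → 0 ≤ eps →
  0 ≤ mu → (∀ s ∈ T, 0 ≤ c s ∧ c s ≤ eps * Real.sqrt ((2 : ℝ) ^ s.k)) → VMs r L p a T mu →
    ∑ s ∈ T, c s * ‖vav φ L p q a s‖ ≤ C * eps * mu ^ (1 - 1 / r) * (2 : ℝ) ^ K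

/-- **JM** (30 min; from REX, VRC.VJ1). `VJM`, constant `C K`: `Vz r z ≤ ∑_i 2^(i+1) e0 (NJ z (2^i e0))^(1/r)`, for `i < 0`
`∫_W NJ^(1/r) ≤ |W|^(1-1/r) (4 h²/(4^i e0²))^(1/r)`, and `∑_{i<0} 2^(i (1-2/r)) ≤ C K`; `i ≥ 0` as before. -/
def T_JM : Prop := ∃ C : ℝ≥0, ∀ (r : ℝ), 2 < r → r ≤ 4 → ∀ (H : ℝ → ℂ) (m M : ℤ) (W : Set ℝ),
  Measurable H → Integrable H → MeasurableSet W → volume W ≠ ⊤ →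
    ∫⁻ x in W, Vz r (fun k => da H k x) m M ≤
      C * ENNReal.ofReal (kr r) * volume W ^ (1 / 2 : ℝ) * (∫⁻ x, ‖H x‖ₑ ^ 2) ^ (1 / 2 : ℝ)

/-- **V4** (30 min; from REX, JM, VRC.VJD). `VV4`. -/
def T_V4 : Prop := ∀ A : ℝ, ∃ C : ℝ≥0, ∀ (r : ℝ), 2 < r → r ≤ 4 → ∀ φ Φ : ℝ → ℂ, WPk A φ Φ →
  ∀ (T : Finset Tile) (K Λ : ℤ) (ξ : ℝ), PTree T K Λ ξ →
  ∀ (w : Tile → ℂ) (m M : ℤ) (W : Set ℝ), (∀ s ∈ T, m ≤ s.k) → MeasurableSet W →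
  volume W ≠ ⊤ →
    ∫⁻ x in W, Vz r (fun b => ps φ T w ξ b x) m M ≤
      C * ENNReal.ofReal (kr r) * volume W ^ (1 / 2 : ℝ) * (∑ s ∈ T, ‖w s‖ₑ ^ 2) ^ (1 / 2 : ℝ)

/-- **PLU** (45 min; from REX, BAS, VRC.VTR, P2, AVG, SMA, SPL, V4). `VPLU`, constant `C K`. -/
def T_PLU : Prop := ∀ A : ℝ, ∃ C : ℝ, 0 < C ∧ ∀ (r : ℝ), 2 < r → r ≤ 4 →
  ∀ φ Φ : ℝ → ℂ, WPk A φ Φ →
  ∀ (L : ℕ) (p q : ℕ → ℝ → ℝ) (a : ℕ → ℝ → ℂ) (E : Set ℝ), PQ L p q → AB r L a 1 E →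
  ∀ (c : Tile → ℝ) (T : Finset Tile) (K Λ : ℤ) (ξ eps mu : ℝ), (∀ s, 0 ≤ c s) →
  PTree T K Λ ξ → 0 ≤ eps → 0 ≤ mu → En c T eps → VMs r L p a T mu →
    ∑ s ∈ T, c s * ‖vav φ L p q a s‖ ≤ C * kr r * eps * mu ^ (1 - 1 / r) * (2 : ℝ) ^ K

/-- **TREE** (15 min; from REX, MIN, PLU). `VTREE`. -/
def T_TREE : Prop := ∀ A : ℝ, ∃ C : ℝ, 0 < C ∧ ∀ (r : ℝ), 2 < r → r ≤ 4 →
  ∀ φ Φ : ℝ → ℂ, WPk A φ Φ →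
  ∀ (L : ℕ) (p q : ℕ → ℝ → ℝ) (a : ℕ → ℝ → ℂ) (E : Set ℝ), PQ L p q → AB r L a 1 E →
  ∀ (c : Tile → ℝ) (T : Finset Tile) (K Λ : ℤ) (ξ eps mu : ℝ), (∀ s, 0 ≤ c s) →
  Tree T K Λ ξ → 0 ≤ eps → 0 ≤ mu → En c T eps → VMs r L p a T mu →
    ∑ s ∈ T, c s * ‖vav φ L p q a s‖ ≤ C * kr r * eps * mu ^ (1 - 1 / r) * (2 : ℝ) ^ K

/-! ### summation -/

/-- **STP** (30 min; from REX, DNB, MASS, TREE). `VSTP`, constant `C K`. -/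
def T_STP : Prop := ∀ A : ℝ, ∃ C : ℝ, 0 < C ∧ ∀ (r : ℝ), 2 < r → r ≤ 4 →
  ∀ φ Φ g : ℝ → ℂ, WPk A φ Φ → GG2 g →
  ∀ (L : ℕ) (p q : ℕ → ℝ → ℝ) (a : ℕ → ℝ → ℂ) (E : Set ℝ), PQ L p q → AB r L a 1 E →
  ∀ (S : Finset Tile) (eps mu e0 : ℝ), 0 < eps → 0 < mu → 0 ≤ e0 →
  En (cc Φ g) S e0 → En (cc Φ g) S eps → VMs r L p a S mu →
  ∃ S' ⊆ S, En (cc Φ g) S' (eps / 2) ∧ VMs r L p a S' (mu / 4) ∧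
    ∑ s ∈ S \ S', cc Φ g s * ‖vav φ L p q a s‖ ≤
      C * kr r * min eps e0 * (min mu 2) ^ (1 - 1 / r) * (n2 g ^ 2 / eps ^ 2 + vol E / mu)

/-- **SUM** (60 min; from REX, DNB, STP). `VSUM`, constant `C K²`. The term `n = -m ≤ 0` is at most
`2 C K V min (2^(-m) ρ) e0 * 4^(m/r)` (`(4^(-m))^(1-1/r) / 4^(-m) = 4^(m/r)`), and
`∑_{m ≥ 0} min (2^(-m) ρ) e0 * 4^(m/r) ≤ C K ρ^(2/r) e0^(1-2/r)`: the terms with `2^m ≤ ρ/e0` are geometric with ratio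
`4^(1/r) ≥ √2`, the others with ratio `2^(-(1-2/r))` (if `ρ < e0` the sum is at most `2 K ρ ≤ 2 K ρ^(2/r) e0^(1-2/r)`). -/
def T_SUM : Prop := ∀ A : ℝ, ∃ C : ℝ, 0 < C ∧ ∀ (r : ℝ), 2 < r → r ≤ 4 →
  ∀ φ Φ g : ℝ → ℂ, WPk A φ Φ → GG2 g →
  ∀ (L : ℕ) (p q : ℕ → ℝ → ℝ) (a : ℕ → ℝ → ℂ) (E : Set ℝ), PQ L p q → AB r L a 1 E →
  ∀ (S : Finset Tile) (ρ e0 : ℝ), 0 < ρ → 0 < e0 → n2 g ≤ ρ * Real.sqrt (vol E) →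
  En (cc Φ g) S e0 →
    ∑ s ∈ S, cc Φ g s * ‖vav φ L p q a s‖ ≤
      C * kr r ^ 2 * vol E * (e0 + ρ ^ (2 / r) * e0 ^ (1 - 2 / r))

/-! ### the exceptional set -/

/-- **TA1** (60 min; from REX, BAS). `VTA1`; in (2) `(Σ ‖cf‖^r)^(1/r) ≤ (Σ ‖cf‖²)^(1/r) (max ‖cf‖)^(1-2/r) ≤
C 2^(-k(1/2-1/r)) (∫_F wt 10)^(1-1/r)`; Minkowski and Hölder with `r`, `rc r`. -/
def T_TA1 : Prop := ∀ A : ℝ, ∃ C : ℝ, 0 < C ∧ ∀ (r : ℝ), 2 < r → r ≤ 4 →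
  ∀ φ Φ : ℝ → ℂ, WPk A φ Φ →
  ∀ (f : ℝ → ℂ) (F : Set ℝ) (L : ℕ) (p q : ℕ → ℝ → ℝ) (a : ℕ → ℝ → ℂ) (E : Set ℝ), BF 1 F f →
  PQ L p q → AB r L a 1 E → ∀ (k l : ℤ) (S : Finset Tile), (∀ s ∈ S, s.k = k ∧ s.l = l) →
    ∑ s ∈ S, ‖cf φ f s‖ * ‖vav φ L p q a s‖ ≤ C * (2 : ℝ) ^ k *
      ((2 : ℝ) ^ (-k) * ∫ x in F, wt 10 ((2 : ℝ) ^ (-k) * x - l)) ^ (1 - 1 / r) *
        ((2 : ℝ) ^ (-k) * ∫ x in E, wt 20 ((2 : ℝ) ^ (-k) * x - l))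

/-- **TA2** (30 min; from REX). `VTA2`; `((3+D)^4 8 lam)^(1-1/r) ≤ 8 (3+D)^4 lam^(1-1/r)`. -/
def T_TA2 : Prop := ∃ C : ℝ, 0 < C ∧ ∀ (r : ℝ), 2 < r → r ≤ 4 →
  ∀ (lam : ℝ) (F E : Set ℝ) (k l : ℤ), MeasurableSet F →
  volume F ≠ ⊤ → MeasurableSet E → 0 < lam → (∃ x, x ∉ GG lam F) → (∀ x ∈ E, x ∉ GG lam F) →
  ∃ D : ℝ, 0 ≤ D ∧ (∃ x, x ∉ GG lam F ∧ |(2 : ℝ) ^ (-k) * x - l| ≤ D + 1) ∧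
    ((2 : ℝ) ^ (-k) * ∫ x in F, wt 10 ((2 : ℝ) ^ (-k) * x - l)) ^ (1 - 1 / r) *
      ((2 : ℝ) ^ (-k) * ∫ x in E, wt 20 ((2 : ℝ) ^ (-k) * x - l)) ≤
        C * lam ^ (1 - 1 / r) * wt 10 D

/-- **TAI** (30 min; from REX, TA1, TA2). `VTAI`. -/
def T_TAI : Prop := ∀ A : ℝ, ∃ C : ℝ, 0 < C ∧ ∀ (r : ℝ), 2 < r → r ≤ 4 →
  ∀ φ Φ : ℝ → ℂ, WPk A φ Φ →
  ∀ (f : ℝ → ℂ) (F : Set ℝ) (L : ℕ) (p q : ℕ → ℝ → ℝ) (a : ℕ → ℝ → ℂ) (E : Set ℝ) (lam : ℝ),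
  BF 1 F f → PQ L p q → AB r L a 1 E → 0 < lam → (∀ x ∈ E, x ∉ GG lam F) → ∀ S : Finset Tile,
  (∀ s ∈ S, ∃ k l : ℤ, s.I ⊆ dy k l ∧ heavy lam F k l) →
    ∑ s ∈ S, ‖cf φ f s‖ * ‖vav φ L p q a s‖ ≤ C * vol F * lam ^ (-(1 / r))

/-- **RA** (30 min; from REX, SUM). `VRA`: `ρ = √(vol F / vol E) ≥ 1`, `e0 = √C1 + 1`,
`vol E * (e0 + ρ^(2/r) e0^(1-2/r)) ≤ C vol E ρ^(2/r) = C (vol E)^(1-1/r) (vol F)^(1/r)`. -/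
def T_RA : Prop := ∀ A : ℝ, ∃ C : ℝ, 0 < C ∧ ∀ (r : ℝ), 2 < r → r ≤ 4 →
  ∀ φ Φ : ℝ → ℂ, WPk A φ Φ →
  ∀ (f : ℝ → ℂ) (F : Set ℝ) (L : ℕ) (p q : ℕ → ℝ → ℝ) (a : ℕ → ℝ → ℂ) (E : Set ℝ), BF 1 F f →
  PQ L p q → AB r L a 1 E → vol E ≤ vol F → ∀ S : Finset Tile,
    ∑ s ∈ S, ‖cf φ f s‖ * ‖vav φ L p q a s‖ ≤
      C * kr r ^ 2 * (vol E ^ (1 - 1 / r) * vol F ^ (1 / r))

/-- **RB** (60 min; from REX, SUM, TAI, RA). `VRB`: `X = (vol F)^(1-1/r) (vol E)^(1/r)`, `lam = 16 C1 vol F / vol E`. `S1`: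
SUM with `e0 = √C2 lam`, `ρ = √(vol F / vol E)`: `vol E * (δ + δ^(1/r) δ^(1-2/r)) ≤ 2 vol E δ^(1-1/r)`,
`δ = vol F/vol E ≤ 1`. TAI: `C vol F lam^(-1/r)`. `E ∩ GG`: RA or the induction hypothesis, `X` decreases by the factor
`2^(-1/r) ≤ 2^(-1/4)` when `vol E` is halved. -/
def T_RB : Prop := ∀ A : ℝ, ∃ C : ℝ, 0 < C ∧ ∀ (r : ℝ), 2 < r → r ≤ 4 →
  ∀ φ Φ : ℝ → ℂ, WPk A φ Φ →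
  ∀ (f : ℝ → ℂ) (F : Set ℝ) (L : ℕ) (p q : ℕ → ℝ → ℝ) (a : ℕ → ℝ → ℂ) (E : Set ℝ), BF 1 F f →
  PQ L p q → AB r L a 1 E → vol F ≤ vol E → ∀ S : Finset Tile,
    ∑ s ∈ S, ‖cf φ f s‖ * ‖vav φ L p q a s‖ ≤
      C * kr r ^ 2 * (vol F ^ (1 - 1 / r) * vol E ^ (1 / r))

/-- **MAR** (45 min; from REX). Put `x = 4^k al k`, `y = 4^l be l`. The term is at most both
`2^k 2^l (al k)^(1-1/r) (be l)^(1/r) = x^(1-1/r) y^(1/r) 2^((l-k)(1-2/r))` and the same with `k, l` exchanged, so at most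
`(x + y) 2^(-|k-l| (1-2/r))`; `∑_{i : ℤ} 2^(-|i|(1-2/r)) ≤ 4 K`. -/
def T_MAR : Prop := ∃ C : ℝ, 0 < C ∧ ∀ (r : ℝ), 2 < r → r ≤ 4 →
  ∀ (I : Finset ℤ) (al be : ℤ → ℝ), (∀ k, 0 ≤ al k) →
  (∀ k, 0 ≤ be k) → ∑ k ∈ I, (4 : ℝ) ^ k * al k ≤ 1 → ∑ l ∈ I, (4 : ℝ) ^ l * be l ≤ 1 →
    ∑ k ∈ I, ∑ l ∈ I, (2 : ℝ) ^ k * (2 : ℝ) ^ l *
      min (al k ^ (1 - 1 / r) * be l ^ (1 / r)) (be l ^ (1 - 1 / r) * al k ^ (1 / r)) ≤ C * kr r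

/-- **INT** (45 min; from REX, RA, RB, MAR). `VINT`, constant `C K³`. RA and RB together: the sum for `f_k`, `E_l` is at most
`C K² 2^k 2^l` times the minimum in MAR (for `x ≤ y` the smaller of `x^(1-1/r) y^(1/r)`, `y^(1-1/r) x^(1/r)` is the
first). -/
def T_INT : Prop := ∀ A : ℝ, ∃ C : ℝ, 0 < C ∧ ∀ (r : ℝ), 2 < r → r ≤ 4 →
  ∀ φ Φ : ℝ → ℂ, WPk A φ Φ →
  ∀ (f : ℝ → ℂ) (F : Set ℝ) (h h' : ℝ) (L : ℕ) (p q : ℕ → ℝ → ℝ) (a : ℕ → ℝ → ℂ) (E : Set ℝ),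
  BF h F f → PQ L p q → AB r L a h' E → ∀ S : Finset Tile,
    ∑ s ∈ S, ‖cf φ f s‖ * ‖vav φ L p q a s‖ ≤ C * kr r ^ 3 * n2 f * na r L a

/-- **MODS** (20 min; from INT). `VMODS`. -/
def T_MODS : Prop := ∀ A : ℝ, ∃ C : ℝ, 0 < C ∧ ∀ (r : ℝ), 2 < r → r ≤ 4 →
  ∀ φ Φ g : ℝ → ℂ, WPk A φ Φ → GG2 g →
  ∀ (L : ℕ) (p q : ℕ → ℝ → ℝ) (a : ℕ → ℝ → ℂ) (h : ℝ) (E : Set ℝ), PQ L p q → AB r L a h E →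
  ∀ S : Finset Tile,
    ∑ s ∈ S, ‖co Φ g s‖ * ‖vav φ L p q a s‖ ≤ C * kr r ^ 3 * n2 g * na r L a

/-! ### from the model to the operator -/

/-- **AVB** (30 min; from MODS, VRC.VYN). `VAVB`. -/
def T_AVB : Prop := ∀ (A : ℝ) (ρ : ℝ → ℝ), Bmp A ρ → ∃ C : ℝ, 0 < C ∧ ∀ (r : ℝ), 2 < r → r ≤ 4 →
  ∀ (g : ℝ → ℂ) (L : ℕ) (p q : ℕ → ℝ → ℝ) (a : ℕ → ℝ → ℂ) (h : ℝ) (E : Set ℝ), GG2 g →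
  PQ L p q → AB r L a h E → ∀ K : ℕ,
    ‖∫ x, ∑ j ∈ Finset.range L, a j x * ∑ k ∈ Finset.Icc (-(K : ℤ)) K,
      {y | 5 / 4 ≤ (2 : ℝ) ^ k * (p j y - q j y)}.indicator
        (fun y => ∫ ξ, g ξ * (Bt ρ ((2 : ℝ) ^ k) (p j y - ξ) : ℂ) * e1 (y * ξ)) x‖ ≤
      C * kr r ^ 3 * n2 g * na r L a

/-- **SCK** (30 min; from AVB). `VSCK`. -/
def T_SCK : Prop := ∀ (A : ℝ) (ρ : ℝ → ℝ), Bmp A ρ → ∃ C : ℝ, 0 < C ∧ ∀ (r : ℝ), 2 < r → r ≤ 4 →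
  ∀ (g : ℝ → ℂ) (L : ℕ) (p q : ℕ → ℝ → ℝ) (a : ℕ → ℝ → ℂ) (h : ℝ) (E : Set ℝ), GG2 g →
  PQ L p q → AB r L a h E → ∀ (K : ℕ) (τ : ℝ), 0 < τ →
    ‖∫ x, ∑ j ∈ Finset.range L, a j x * ∑ k ∈ Finset.Icc (-(K : ℤ)) K,
      {y | 5 / 4 ≤ τ * (2 : ℝ) ^ k * (p j y - q j y)}.indicator
        (fun y => ∫ ξ, g ξ * (Bt ρ (τ * (2 : ℝ) ^ k) (p j y - ξ) : ℂ) * e1 (y * ξ)) x‖ ≤
      C * kr r ^ 3 * n2 g * na r L a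

/-- the bound for the right model operator -/
def RB1 (r : ℝ) (ρ : ℝ → ℝ) (C : ℝ) : Prop := ∀ (g : ℝ → ℂ) (L : ℕ) (p q : ℕ → ℝ → ℝ)
  (a : ℕ → ℝ → ℂ) (h : ℝ) (E : Set ℝ), GG2 g → PQ L p q → AB r L a h E →
    ‖∫ x, ∑ j ∈ Finset.range L, a j x *
      ∫ ξ, g ξ * (Gm ρ ((p j x - ξ) / (p j x - q j x)) : ℂ) * e1 (x * ξ)‖ ≤ C * n2 g * na r L a

/-- the bound for the left model operator -/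
def RB2 (r : ℝ) (ρ : ℝ → ℝ) (C : ℝ) : Prop := ∀ (g : ℝ → ℂ) (L : ℕ) (p q : ℕ → ℝ → ℝ)
  (a : ℕ → ℝ → ℂ) (h : ℝ) (E : Set ℝ), GG2 g → PQ L p q → AB r L a h E →
    ‖∫ x, ∑ j ∈ Finset.range L, a j x *
      ∫ ξ, g ξ * (Gm ρ ((ξ - q j x) / (p j x - q j x)) : ℂ) * e1 (x * ξ)‖ ≤ C * n2 g * na r L a

/-- **LIM** (45 min; from SCK). `VLIM`. -/
def T_LIM : Prop := ∀ (A : ℝ) (ρ : ℝ → ℝ), Bmp A ρ → ∃ C : ℝ, 0 < C ∧ ∀ (r : ℝ), 2 < r → r ≤ 4 →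
  RB1 r ρ (C * kr r ^ 3)

/-- **REF** (20 min). `VREF`. -/
def T_REF : Prop := ∀ (r : ℝ) (ρ : ℝ → ℝ) (C : ℝ), 2 < r → r ≤ 4 → RB1 r ρ C → RB2 r ρ C

/-- **CAR** (45 min; from REX, LIM, REF, VRC.VGB). `VCAR`, constant `C K³`. -/
def T_CAR : Prop := ∃ C : ℝ, 0 < C ∧ ∀ (r : ℝ), 2 < r → r ≤ 4 → ∀ (g : ℝ → ℂ) (L : ℕ)
  (p q : ℕ → ℝ → ℝ) (a : ℕ → ℝ → ℂ) (h : ℝ) (E : Set ℝ), GG2 g → PQ L p q → AB r L a h E →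
    ‖∫ x, ∑ j ∈ Finset.range L, a j x * ∫ ξ in Ico (q j x) (p j x), g ξ * e1 (x * ξ)‖ ≤
      C * kr r ^ 3 * n2 g * na r L a

/-- **C4** (45 min; from REX, CAR). `VC4`: `a j x = M⁻¹ conj(Δ_j) |Δ_j|^(r-2) v(x)^(2-r)` (`0` if `v(x) = 0`);
`∑ a j Δ_j = M⁻¹ v²`, `amp = M⁻¹ v`. So `∫ v² ≤ C² K⁶ ∫ |g|²`. -/
def T_C4 : Prop := ∃ C : ℝ≥0, ∀ (r : ℝ), 2 < r → r ≤ 4 → ∀ g : ℝ → ℂ, GG2 g →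
  ∫⁻ x, VC r g x ^ 2 ≤ C * ENNReal.ofReal (kr r ^ 6) * ∫⁻ ξ, ‖g ξ‖ₑ ^ 2

end Pool.Agent.VRR
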