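import Pool.Agent.VRR.Targets2
import Pool.Agent.VRC.Targets5
import Pool.Agent.CRW.Targets6

set_option autoImplicit false

/-!
# VRR, third part: systems of spherical harmonics, all dimensions (MP_ee701d_an)

THEOREM (`n ≥ 2`; all radii, all of `ℝⁿ`): let `f^(ξ) = ∑ a_i(|ξ|) Y_i(ξ/|ξ|)` in `L²`, `Y_i` orthonormal spherical harmonics of
arbitrary degrees. (i) If `2 < p ≤ 4` and `‖∑ b_i Y_i‖_p ≤ B ‖b‖_2` for all finite sums, then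
`‖S_* f‖₂ ≤ C(n) (p-2)^{-8} (1+B) ‖f‖₂`; (ii) if there are `K` terms, `‖S_* f‖₂ ≤ C(n) (log (2+K))^8 ‖f‖₂`; in both cases `S_R f` converges a.e.

Every target `T_X` is to be proved as `theorem p_X : T_X` (targets named in brackets are hypotheses) in a NEW file
`Pool/Agent/VRR/P_X.lean` importing this one, helper lemmas in the sub-namespace `X_`.
`ex x ξ = e^{2πi x·ξ}`, `sg n`: surface measure of the unit sphere, `SH h ρ x = ρ^(n-1) ∫ h(ρω) ex x (ρω) dσ(ω)`.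
-/

namespace Pool.Agent.VRR

open MeasureTheory FourierTransform Set Filter Topology
open scoped ENNReal NNReal ComplexConjugate
open Pool.Agent.MBS (E ex)
open Pool.Agent.CRN (sg SH T_POLN)
open Pool.Agent.CRR (Sol NSol T_UNI)
open Pool.Agent.VRC (Pure od T_ODV T_GMV)
open Pool.Agent.CRW (T_LCP)

/-- harmonic and homogeneous of degree `l`; the restriction to the unit sphere is a spherical harmonic of degree `l` -/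
structure Har (n l : ℕ) (p : E n → ℂ) : Prop where
  c2 : ContDiff ℝ 2 p
  lap : ∀ x, Laplacian.laplacian p x = 0
  hom : ∀ (t : ℝ) (x : E n), 0 ≤ t → p (t • x) = (t : ℂ) ^ l * p x

/-- the ball integral `∫_{|ξ| ≤ R} g(ξ) e^{2πi x·ξ} dξ` -/
noncomputable def BN {n : ℕ} (g : E n → ℂ) (R : ℝ) (x : E n) : ℂ :=
  ∫ ξ in Metric.closedBall (0 : E n) R, g ξ * ex x ξ

/-- the `q`-variation in the radius of the ball integrals of `g` -/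
noncomputable def VQ {n : ℕ} (q : ℝ) (g : E n → ℂ) (x : E n) : ℝ≥0∞ :=
  ⨆ (L : ℕ) (N : ℕ → ℝ) (_ : Monotone N),
    (∑ j ∈ Finset.range L, ‖∫ ξ in {ξ : E n | N j < ‖ξ‖ ∧ ‖ξ‖ ≤ N (j + 1)}, g ξ * ex x ξ‖ₑ ^ q) ^
      (1 / q)

/-- the function `a(|ξ|) Y(ξ/|ξ|)` -/
noncomputable def rh {n : ℕ} (a : ℝ → ℂ) (Y : E n → ℂ) (ξ : E n) : ℂ := a ‖ξ‖ * Y (‖ξ‖⁻¹ • ξ)

/-- `∑_{i<K} a_i(|ξ|) Y_i(ξ/|ξ|)` -/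
noncomputable def fs {n : ℕ} (K : ℕ) (a : ℕ → ℝ → ℂ) (Y : ℕ → E n → ℂ) (ξ : E n) : ℂ :=
  ∑ i ∈ Finset.range K, rh (a i) (Y i) ξ

/-- `∫_0^∞ |a(ρ)|² ρ^(n-1) dρ` -/
noncomputable def nn (n : ℕ) (a : ℝ → ℂ) : ℝ≥0∞ :=
  ∫⁻ ρ in Ioi (0 : ℝ), ‖a ρ‖ₑ ^ 2 * ENNReal.ofReal (ρ ^ (n - 1))

/-- `Y_0, ..., Y_{K-1}` are orthonormal spherical harmonics, of the degrees `l_i` -/
structure Sys (n K : ℕ) (l : ℕ → ℕ) (Y : ℕ → E n → ℂ) : Prop where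
  har : ∀ i < K, Har n (l i) (Y i)
  ort : ∀ i < K, ∀ j < K,
    ∫ θ, Y i (θ : E n) * conj (Y j (θ : E n)) ∂(sg n) = if i = j then 1 else 0

/-- `L^p` bound for the linear combinations -/
def LPS (n K : ℕ) (p : ℝ) (Y : ℕ → E n → ℂ) (B : ℝ≥0) : Prop := ∀ b : ℕ → ℂ,
  (∫⁻ θ, ‖∑ i ∈ Finset.range K, b i * Y i (θ : E n)‖ₑ ^ p ∂(sg n)) ^ (1 / p) ≤
    B * (∑ i ∈ Finset.range K, ‖b i‖ₑ ^ 2) ^ (1 / 2 : ℝ)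

/-- `ℓ²`-valued `q`-variation of the coefficients -/
noncomputable def WV (q : ℝ) (K : ℕ) (c : ℕ → ℝ → ℝ → ℂ) (r : ℝ) : ℝ≥0∞ :=
  ⨆ (L : ℕ) (N : ℕ → ℝ) (_ : Monotone N), (∑ j ∈ Finset.range L,
    (∑ i ∈ Finset.range K, ‖c i (N (j + 1)) r - c i (N j) r‖ₑ ^ 2) ^ (q / 2)) ^ (1 / q)

/-! ### Funk-Hecke -/

/-- **GAU** (75 min): Gaussian averages. `φ(t) = ∫ p(z + t y) e^{-π|y|²} dy`, `0 ≤ t ≤ 1`: `φ(0) = p(z)` (`∫ e^{-π|y|²} = 1`),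
`φ'(t) = ∫ Dp(z+ty)[y] e^{-π|y|²} dy` and `y_i e^{-π|y|²} = -(2π)⁻¹ ∂_i e^{-π|y|²}`, so by parts (Mathlib:
`integral_mul_fderiv_eq_neg_fderiv_mul_of_integrable`) `φ'(t) = (t/2π) ∫ Δp(z+ty) e^{-π|y|²} dy = 0`. Growth: by homogeneity and continuity
`|p(x)|, |Dp(x)|, |D²p(x)| ≤ C (1+|x|)^l` (`Dp(tx) = t^{l-1} Dp(x)`, `D²p(tx) = t^{l-2} D²p(x)` for `t > 0`; bounded on the unit ball). -/
def T_GAU : Prop := ∀ (n l : ℕ) (p : E n → ℂ), 1 ≤ n → Har n l p → ∀ z : E n,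
  ∫ y, p (z + y) * ((Real.exp (-(Real.pi * ‖y‖ ^ 2)) : ℝ) : ℂ) = p z

/-- **HBO** (75 min; uses GAU): Hecke-Bochner. `Φ(s) = ∫ p(y) e^{-π|y|²} e^{2πs y·ξ} dy` is entire in `s ∈ ℂ` (derivative under the integral,
`|p(y)| ≤ C|y|^l`); for real `s ≥ 0`, completing the square, GAU with `z = sξ` and homogeneity, `Φ(s) = e^{πs²|ξ|²} s^l p(ξ)`. Both sides are entire:
identity theorem (`AnalyticOnNhd.eqOn_of_preconnected_of_frequently_eq`), `s = i`. -/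
def T_HBO : Prop := ∀ (n l : ℕ) (p : E n → ℂ), 1 ≤ n → Har n l p → ∀ ξ : E n,
  ∫ y, p y * ((Real.exp (-(Real.pi * ‖y‖ ^ 2)) : ℝ) : ℂ) * ex ξ y =
    Complex.I ^ l * p ξ * ((Real.exp (-(Real.pi * ‖ξ‖ ^ 2)) : ℝ) : ℂ)

/-- **FHK** (90 min; uses HBO, VRC.ODV, CRR.UNI, POLN): the Funk-Hecke formula. `A(s,θ) = ∫ p(ω) ex (sθ) ω dσ = SH p 1 (sθ)`. By ODV (`g = p`, `ρ = 1`) the
real and imaginary parts of `s^{(n-2)/2} A(s,θ)`, `s = e^x/(2π)`, are solutions, all of them multiples of one solution `J` (UNI; if all vanish, `c = 0`):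
`s^{(n-2)/2} A(s,θ) = γ(θ) J(log 2πs)`. HBO at `ξ = θ` in polar coordinates: `∫_0^∞ e^{-πρ²} ρ^{n-1+l} A(ρ,θ) dρ = i^l p(θ) e^{-π}`, i.e.
`γ(θ) κ = i^l p(θ) e^{-π}` with `κ = ∫_0^∞ e^{-πρ²} ρ^{n-1+l-(n-2)/2} J(log 2πρ) dρ` (absolutely convergent, as `A` is bounded, if some `γ(θ) ≠ 0`). If `κ = 0`, `p = 0`
on the sphere and `A = 0`. Otherwise `γ(θ) = i^l e^{-π} p(θ)/κ`. `c s = A(s,θ₀)/p(θ₀)` is continuous. (`s = 0` by continuity.) -/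
def T_FHK : Prop := ∀ (n l : ℕ) (p : E n → ℂ), 2 ≤ n → Har n l p → ∃ c : ℝ → ℂ, Continuous c ∧
  ∀ (s : ℝ) (θ : E n), 0 ≤ s → ‖θ‖ = 1 →
    ∫ ω, p (ω : E n) * ex (s • θ) (ω : E n) ∂(sg n) = c s * p θ

/-! ### the variation of the coefficients -/

/-- **RDQ** (45 min; from HAV, VRC.GMV, POLN, VCM): copy of `VRC/P_RDV.lean` with `Vo q`, `VQ q`, `C (kr q)^14`. -/
def T_RDQ : Prop := ∀ n : ℕ, 2 ≤ n → ∃ C : ℝ≥0, ∀ (q : ℝ), 2 < q → q ≤ 4 →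
  ∀ (l : ℕ) (g : E n → ℂ), Measurable g → Pure n l g →
    ∫⁻ x, VQ q g x ^ 2 ≤ C * ENNReal.ofReal (kr q ^ 14) * ∫⁻ ξ, ‖g ξ‖ₑ ^ 2

/-- **HCO** (75 min; from FHK, RDQ, POLN): one harmonic. `g = rh a Y` is `Pure n l`, measurable, `∫ ‖g‖² = nn n a` (POLN). By POLN and FHK
`BN g R (rθ) = ∫_0^R a(ρ) ρ^{n-1} c₀(rρ) dρ Y(θ)`; put `c R r = ∫ BN g R (rθ) conj (Y θ) dσ(θ)` (jointly continuous in `(R,r) ∈ ℝ²`: `g` is integrable on balls,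
spheres are null sets). The shell integral in `VQ` at `rθ` is `(c (N (j+1)) r - c (N j) r) Y(θ)`, so
`VQ q g (rθ) = (q-variation of c(·,r)) ‖Y(θ)‖`; POLN, `∫ ‖Y‖² = 1`, RDQ. -/
def T_HCO : Prop := ∀ n : ℕ, 2 ≤ n → ∃ C : ℝ≥0, ∀ (l : ℕ) (Y : E n → ℂ) (a : ℝ → ℂ), Har n l Y →
  ∫⁻ θ, ‖Y (θ : E n)‖ₑ ^ 2 ∂(sg n) = 1 → Measurable a → nn n a ≠ ⊤ →
  ∃ c : ℝ → ℝ → ℂ, Continuous (fun z : ℝ × ℝ => c z.1 z.2) ∧ (∀ R r, R ≤ 0 → c R r = 0) ∧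
    (∀ (R r : ℝ) (θ : E n), 0 < r → ‖θ‖ = 1 → BN (rh a Y) R (r • θ) = c R r * Y θ) ∧
    ∀ q : ℝ, 2 < q → q ≤ 4 →
      ∫⁻ r in Ioi (0 : ℝ), WV q 1 (fun _ => c) r ^ 2 * ENNReal.ofReal (r ^ (n - 1)) ≤
        C * ENNReal.ofReal (kr q ^ 14) * nn n a

/-- **VEC** (60 min; from HCO): `K` harmonics. `BN` is additive (`rh (a i) (Y i)` is integrable on balls); Minkowski in `ℓ^(q/2)`, `q/2 ≥ 1`: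
`WV q K c r ^ 2 ≤ ∑_{i<K} WV q 1 (fun _ => c i) r ^ 2`. (`WV` is lower semicontinuous in `r`, hence measurable.) -/
def T_VEC : Prop := ∀ n : ℕ, 2 ≤ n → ∃ C : ℝ≥0, ∀ (K : ℕ) (l : ℕ → ℕ) (Y : ℕ → E n → ℂ)
  (a : ℕ → ℝ → ℂ), Sys n K l Y → (∀ i, Measurable (a i)) → (∀ i, nn n (a i) ≠ ⊤) →
  ∃ c : ℕ → ℝ → ℝ → ℂ, (∀ i, Continuous (fun z : ℝ × ℝ => c i z.1 z.2)) ∧
    (∀ i R r, R ≤ 0 → c i R r = 0) ∧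
    (∀ (R r : ℝ) (θ : E n), 0 < r → ‖θ‖ = 1 →
      BN (fs K a Y) R (r • θ) = ∑ i ∈ Finset.range K, c i R r * Y i θ) ∧
    ∀ q : ℝ, 2 < q → q ≤ 4 →
      ∫⁻ r in Ioi (0 : ℝ), WV q K c r ^ 2 * ENNReal.ofReal (r ^ (n - 1)) ≤
        C * ENNReal.ofReal (kr q ^ 14) * ∑ i ∈ Finset.range K, nn n (a i)

/-! ### maximal inequalities -/

/-- **LCK** (75 min): chaining in a space of dimension `K`; see `CRW/P_LCH.lean`. `d(j,k)² = ∑_{i<K} |c i j - c i k|²`, `G` with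
`d(i,j)^q ≤ G j - G i`, `G ≤ V^q`; level `m`: the `2^m` pieces of `[0, V^q]`, `d ≤ (2 · 2^{-m})^{1/q} V` in a piece. The `L²` norm of the `m`-th maximum (over `2^{m+1}`
pairs) is at most `(2^{m+1})^{1/2} (2 · 2^{-m})^{1/q} V`, sum over `m ≤ m₀`: `≤ C (m₀+1) 2^{m₀(1/2-1/q)} V`. After level `m₀`:
`|X j - X (π j)| ≤ d(j, π j) (∑ |Y_i|²)^{1/2}`, whose `L²` norm is at most `(2 · 2^{-m₀})^{1/q} V √K`. Choose `K^(q/2) ≤ 2^{m₀} ≤ 2 K^(q/2)`. -/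
def T_LCK : Prop := ∃ C : ℝ≥0, ∀ (Ω : Type) [MeasurableSpace Ω] (μ : Measure Ω) (M K : ℕ)
  (c : ℕ → ℕ → ℂ) (Y : ℕ → Ω → ℂ) (V : ℝ≥0∞) (q : ℝ), 2 < q → q ≤ 4 → 1 ≤ K →
  (∀ i, Measurable (Y i)) → (∀ i, c i 0 = 0) → V ≠ ⊤ →
  (∀ b : ℕ → ℂ, ∫⁻ ω, ‖∑ i ∈ Finset.range K, b i * Y i ω‖ₑ ^ 2 ∂μ ≤
    ∑ i ∈ Finset.range K, ‖b i‖ₑ ^ 2) →
  (∀ (l : ℕ) (t : ℕ → ℕ), Monotone t → (∀ r, t r ≤ M) →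
    ∑ r ∈ Finset.range l, (∑ i ∈ Finset.range K, ‖c i (t (r + 1)) - c i (t r)‖ₑ ^ 2) ^ (q / 2) ≤
      V ^ q) →
    ∫⁻ ω, (⨆ (j : ℕ) (_ : j ≤ M), ‖∑ i ∈ Finset.range K, c i j * Y i ω‖ₑ) ^ 2 ∂μ ≤
      C * ENNReal.ofReal (Real.log (2 + K) ^ 2 * (K : ℝ) ^ ((q - 2) / 2)) * V ^ 2

/-- **LPN** (75 min; from VEC, CRW.LCP, POLN): see `CRW/P_LAM.lean`. Fix `r > 0` with `WV q K c r < ∞`, `q = (p+2)/2`, `0 = R_0 < R_1 < ... < R_M`,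
`X j θ = BN (fs K a Y) (R_j) (rθ)`: `∫ |X j - X k|² dσ = ∑ |c_i(R_j) - c_i(R_k)|²` (orthonormality), LPS for the differences, `V = WV q K c r`; LCP, Hölder on the sphere; finite
sets of rational radii increase to all radii (`BN` is continuous in `R`); POLN, VEC. `p - q = (p-2)/2`, `kr q ≤ 6/(p-2)`. -/
def T_LPN : Prop := ∀ n : ℕ, 2 ≤ n → ∃ C : ℝ≥0, ∀ (p : ℝ) (B : ℝ≥0) (K : ℕ) (l : ℕ → ℕ)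
  (Y : ℕ → E n → ℂ) (a : ℕ → ℝ → ℂ), 2 < p → p ≤ 4 → Sys n K l Y → LPS n K p Y B →
  (∀ i, Measurable (a i)) → (∀ i, nn n (a i) ≠ ⊤) →
    ∫⁻ x, (⨆ (R : ℝ) (_ : 0 < R), ‖BN (fs K a Y) R x‖ₑ) ^ 2 ≤
      C * ENNReal.ofReal ((1 / (p - 2)) ^ 16) * (1 + B ^ 2) * ∑ i ∈ Finset.range K, nn n (a i)

/-- **LKN** (75 min; from VEC, LCK, POLN): as LPN with LCK; `q - 2 = 2/(2 + log K)` (`≤ 1`): `K^((q-2)/2) ≤ e`, `kr q ≤ 2 (2 + log K) ≤ 8 log (2+K)`. -/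
def T_LKN : Prop := ∀ n : ℕ, 2 ≤ n → ∃ C : ℝ≥0, ∀ (K : ℕ) (l : ℕ → ℕ)
  (Y : ℕ → E n → ℂ) (a : ℕ → ℝ → ℂ), 1 ≤ K → Sys n K l Y →
  (∀ i, Measurable (a i)) → (∀ i, nn n (a i) ≠ ⊤) →
    ∫⁻ x, (⨆ (R : ℝ) (_ : 0 < R), ‖BN (fs K a Y) R x‖ₑ) ^ 2 ≤
      C * ENNReal.ofReal (Real.log (2 + K) ^ 16) * ∑ i ∈ Finset.range K, nn n (a i)

/-- **NRS** (30 min; from POLN): norms. -/
def T_NRS : Prop := ∀ (n K : ℕ) (l : ℕ → ℕ) (Y : ℕ → E n → ℂ) (a : ℕ → ℝ → ℂ), 1 ≤ n →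
  Sys n K l Y → (∀ i, Measurable (a i)) → (∀ i, nn n (a i) ≠ ⊤) → Measurable (fs K a Y) ∧
    ∫⁻ ξ, ‖fs K a Y ξ‖ₑ ^ 2 = ∑ i ∈ Finset.range K, nn n (a i)

/-- **LIN** (60 min; from LPN, NRS): infinite sums. `BN (fs K a Y) R x → BN g R x` for all `R`, `x` (Cauchy-Schwarz on the ball), so
`sup_R |BN g R x| ≤ liminf_K sup_R |BN (fs K a Y) R x|`: Fatou (the suprema are lower semicontinuous in `x`); `∫ |fs K a Y|² → ∫ |g|²`. -/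
def T_LIN : Prop := ∀ n : ℕ, 2 ≤ n → ∃ C : ℝ≥0, ∀ (p : ℝ) (B : ℝ≥0) (l : ℕ → ℕ)
  (Y : ℕ → E n → ℂ) (a : ℕ → ℝ → ℂ) (g : E n → ℂ), 2 < p → p ≤ 4 → (∀ K, Sys n K l Y) →
  (∀ K, LPS n K p Y B) → (∀ i, Measurable (a i)) → (∀ i, nn n (a i) ≠ ⊤) → Measurable g →
  ∫⁻ ξ, ‖g ξ‖ₑ ^ 2 ≠ ⊤ →
  Tendsto (fun K : ℕ => ∫⁻ ξ, ‖g ξ - fs K a Y ξ‖ₑ ^ 2) atTop (𝓝 0) →
    ∫⁻ x, (⨆ (R : ℝ) (_ : 0 < R), ‖BN g R x‖ₑ) ^ 2 ≤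
      C * ENNReal.ofReal ((1 / (p - 2)) ^ 16) * (1 + B ^ 2) * ∫⁻ ξ, ‖g ξ‖ₑ ^ 2

/-- **CVG** (60 min): convergence from the maximal inequality; see `VRC/P_ABC.lean`, `CRN/P_SERN.lean`. `F` = the `L²` limit of `BN g R` (Plancherel). For `R > ρ`:
`BN g R x = BN g ρ x + BN g_ρ R x`, `g_ρ = 1_{|ξ|>ρ} g`; so the oscillation `limsup_{R,R' → ∞} |BN g R x - BN g R' x|` is at most `2 sup_R |BN g_ρ R x|`, whose `L²` norm tends to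
`0` as `ρ → ∞`. -/
def T_CVG : Prop := ∀ (n : ℕ) (g : E n → ℂ) (C : ℝ≥0), 1 ≤ n → Measurable g →
  ∫⁻ ξ, ‖g ξ‖ₑ ^ 2 ≠ ⊤ →
  (∀ ρ : ℝ, 0 < ρ → ∫⁻ x, (⨆ (R : ℝ) (_ : 0 < R), ‖BN ({ξ : E n | ρ < ‖ξ‖}.indicator g) R x‖ₑ) ^ 2 ≤
    C * ∫⁻ ξ in {ξ : E n | ρ < ‖ξ‖}, ‖g ξ‖ₑ ^ 2) →
    ∃ F : E n → ℂ, MemLp F 2 ∧ Tendsto (fun R : ℝ => ∫⁻ x, ‖BN g R x - F x‖ₑ ^ 2) atTop (𝓝 0) ∧
      ∀ᵐ x, Tendsto (fun R : ℝ => BN g R x) atTop (𝓝 (F x))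

/-- **SYF** (60 min; from LIN, LKN, NRS, CVG): the final theorem. `1_{|ξ|>ρ} g` is of the same form with `1_{s>ρ} a_i(s)`. -/
def T_SYF : Prop := ∀ n : ℕ, 2 ≤ n → ∃ C : ℝ≥0, ∀ (l : ℕ → ℕ) (Y : ℕ → E n → ℂ)
  (a : ℕ → ℝ → ℂ) (g : E n → ℂ), (∀ i, Measurable (a i)) → (∀ i, nn n (a i) ≠ ⊤) →
  Measurable g → ∫⁻ ξ, ‖g ξ‖ₑ ^ 2 ≠ ⊤ →
  (∀ (p : ℝ) (B : ℝ≥0), 2 < p → p ≤ 4 → (∀ K, Sys n K l Y) → (∀ K, LPS n K p Y B) →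
    Tendsto (fun K : ℕ => ∫⁻ ξ, ‖g ξ - fs K a Y ξ‖ₑ ^ 2) atTop (𝓝 0) →
      ∫⁻ x, (⨆ (R : ℝ) (_ : 0 < R), ‖BN g R x‖ₑ) ^ 2 ≤
        C * ENNReal.ofReal ((1 / (p - 2)) ^ 16) * (1 + B ^ 2) * ∫⁻ ξ, ‖g ξ‖ₑ ^ 2 ∧
      ∃ F : E n → ℂ, MemLp F 2 ∧
        Tendsto (fun R : ℝ => ∫⁻ x, ‖BN g R x - F x‖ₑ ^ 2) atTop (𝓝 0) ∧
        ∀ᵐ x, Tendsto (fun R : ℝ => BN g R x) atTop (𝓝 (F x))) ∧
  (∀ K : ℕ, 1 ≤ K → Sys n K l Y → (∀ᵐ ξ, g ξ = fs K a Y ξ) →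
      ∫⁻ x, (⨆ (R : ℝ) (_ : 0 < R), ‖BN g R x‖ₑ) ^ 2 ≤
        C * ENNReal.ofReal (Real.log (2 + K) ^ 16) * ∫⁻ ξ, ‖g ξ‖ₑ ^ 2 ∧
      ∃ F : E n → ℂ, MemLp F 2 ∧
        Tendsto (fun R : ℝ => ∫⁻ x, ‖BN g R x - F x‖ₑ ^ 2) atTop (𝓝 0) ∧
        ∀ᵐ x, Tendsto (fun R : ℝ => BN g R x) atTop (𝓝 (F x)))

end Pool.Agent.VRR
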