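import Pool.Agent.VRR.Targets3

set_option autoImplicit false

/-!
# VRR, fourth part: systems of spherical harmonics with a logarithmic gain over `L²` (MP_ee701d_an)

THEOREM (`n ≥ 2`; all radii, all of `ℝⁿ`): let `f^(ξ) = ∑ a_i(|ξ|) Y_i(ξ/|ξ|)` in `L²`, `Y_i` orthonormal spherical harmonics of
arbitrary degrees, and let `∫_{|u| > t} |u|² dσ ≤ B (log (2+t))^{-18}` for all `t > 0` and all finite sums `u = ∑ b_i Y_i`, `∑ |b_i|² ≤ 1`.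
Then `‖S_* f‖₂ ≤ C(n) (1+B)^{1/2} ‖f‖₂` and `S_R f` converges a.e.

Every target `T_X` is to be proved as `theorem p_X : T_X` (targets named in brackets are hypotheses) in a NEW file
`Pool/Agent/VRR/P_X.lean` importing this one, helper lemmas in the sub-namespace `X_`.
Idea: chaining with the exponent `q_m = 2 + 1/(m+1)` at the level `m`: links of size `δ_m = 2^{-m/q_m} V_{q_m} ≤ 2 · 2^{-m/2} V_{q_m}`.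
-/

namespace Pool.Agent.VRR

open MeasureTheory FourierTransform Set Filter Topology
open scoped ENNReal NNReal ComplexConjugate
open Pool.Agent.MBS (E ex)
open Pool.Agent.CRN (sg SH T_POLN)

/-- the exponents -/
noncomputable def qm (m : ℕ) : ℝ := 2 + 1 / ((m : ℝ) + 1)

/-- uniform integrability of the normalised linear combinations on the unit sphere, with a logarithmic rate -/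
def UIN (n K : ℕ) (Y : ℕ → E n → ℂ) (B : ℝ≥0) : Prop := ∀ (b : ℕ → ℂ) (t : ℝ), 0 < t →
  ∑ i ∈ Finset.range K, ‖b i‖ ^ 2 ≤ 1 →
    ∫⁻ θ in {θ : Metric.sphere (0 : E n) 1 | t < ‖∑ i ∈ Finset.range K, b i * Y i (θ : E n)‖},
      ‖∑ i ∈ Finset.range K, b i * Y i (θ : E n)‖ₑ ^ 2 ∂(sg n) ≤
    B * ENNReal.ofReal (1 / Real.log (2 + t) ^ 18)

/-- **NET** (45 min; uses `VRC.CHN_` lemmas: `exists_G`, `lev`, `lev_dist`, `rp`; see `CRW/P_LCH.lean`): one net. `G` with `D(j,k)^q ≤ G j - G k` (`k ≤ j`),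
`0 ≤ G ≤ V^q`, monotone. `V = 0`: `D = 0`, `b = π = 0`. `m = 0`: `b = π = 0`. Otherwise `b j = ⌊2^m G j / V^q⌋ ≤ 2^m` and `π j` = the least index in the same
bin: `D(j, π j)^q ≤ 2^{-m} V^q`. -/
def T_NET : Prop := ∀ (D : ℕ → ℕ → ℝ≥0∞) (M m : ℕ) (q : ℝ) (V : ℝ≥0∞), 1 ≤ q → q ≤ 4 →
  (∀ j k, D j k = D k j) → (∀ j, D j j = 0) → V ≠ ⊤ →
  (∀ (l : ℕ) (t : ℕ → ℕ), Monotone t → (∀ r, t r ≤ M) →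
    ∑ r ∈ Finset.range l, D (t (r + 1)) (t r) ^ q ≤ V ^ q) →
  ∃ b π : ℕ → ℕ,
    (∀ j k, j ≤ k → k ≤ M → b j ≤ b k) ∧ (∀ j ≤ M, b j ≤ 2 ^ m) ∧
    (∀ j ≤ M, π j ≤ M ∧ D j (π j) ≤ ENNReal.ofReal ((2 : ℝ) ^ (-((m : ℝ) / q))) * V) ∧
    (∀ j k, j ≤ M → k ≤ M → b j = b k → π j = π k) ∧ (m = 0 → ∀ j, π j = 0)

/-- **OC1** (45 min): one level. If `δ = 0`, `v_c = 0` a.e. Otherwise, with `t = 2^{m/4}` and `M(ω) = max_c |v_c(ω)|`: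
`M² ≤ (tδ)² + ∑_c |v_c|² 1_{|v_c| > tδ}`, so `∫ M² ≤ δ² (2^{m/2} μ(Ω) + N B (log (2+t))^{-18})`; `log (2+t) ≥ (m+1)/10`,
`2^{-m/2} ≤ 60^18 (m+1)^{-18}` (`2^{m/36} ≥ (m+1)/60`), `N ≤ 3 · 2^m`. -/
def T_OC1 : Prop := ∃ C : ℝ≥0, ∀ (Ω : Type) [MeasurableSpace Ω] (μ : Measure Ω) (N m : ℕ)
  (v : ℕ → Ω → ℂ) (B δ : ℝ≥0∞), (∀ c, Measurable (v c)) → μ univ ≠ ⊤ → B ≠ ⊤ → δ ≠ ⊤ →
  N ≤ 3 * 2 ^ m → (∀ c < N, ∫⁻ ω, ‖v c ω‖ₑ ^ 2 ∂μ ≤ δ ^ 2) →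
  (∀ c < N, ∀ d t : ℝ, 0 < d → 0 < t → ∫⁻ ω, ‖v c ω‖ₑ ^ 2 ∂μ ≤ ENNReal.ofReal (d ^ 2) →
    ∫⁻ ω in {ω | t * d < ‖v c ω‖}, ‖v c ω‖ₑ ^ 2 ∂μ ≤
      B * ENNReal.ofReal (1 / Real.log (2 + t) ^ 18) * ENNReal.ofReal (d ^ 2)) →
    ∫⁻ ω, (⨆ (c : ℕ) (_ : c < N), ‖v c ω‖ₑ) ^ 2 ∂μ ≤
      C * (1 + μ univ + B) * ENNReal.ofReal (1 / ((m : ℝ) + 1) ^ 18) *
        (ENNReal.ofReal (2 ^ m) * δ ^ 2)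

/-- **OCH** (75 min; from NET, OC1): chaining. `S = ∑ V_m²/(m+1)^16`; `S = ∞` is trivial (`C ≥ 1`); else `V_m < ∞`, `V_m² ≤ (m+1)^16 S`. NET for
`D(j,k) = (∫|X_j - X_k|²)^{1/2}`, `q = q_m`: `b_m`, `π_m`, `δ_m = 2^{-m/q_m} V_m`, `δ_m² ≤ 2 · 2^{-m} V_m²` (`2/q_m = 1 - 1/(2m+3)`). For `m ≥ 1` the pair `(π_m j, π_{m-1} j)`
only depends on the code `b_m j + b_{m-1} j < N = 2^{m+1} + 1 ≤ 3 · 2^m` (`b_m`, `b_{m-1}` are monotone, so equal sums have equal terms); for every code `c` of some `j ≤ M` let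
`v_c = X (π_m j) - X (π_{m-1} j)`, `v_c = 0` for the other `c`; `‖v_c‖₂ ≤ δ = δ_m + δ_{m-1}` (Minkowski). OC1 for `F_m = max_c |v_c|`:
`∫ F_m² ≤ C (1 + μ(Ω) + B) (m+1)^{-18} (V_m² + V_{m-1}²)`. For `j ≤ M`: `|X_j| ≤ ∑_{m=1}^L F_m + e_L`, `e_L² = ∑_{j ≤ M} |X_j - X (π_L j)|²`, `∫ e_L² ≤ (M+1) δ_L² → 0`;
`(∑_{m=1}^L F_m + e_L)² ≤ 3 (∑_{m=1}^L (m+1)² F_m² + e_L²)` (Cauchy-Schwarz, `∑ (m+1)^{-2} ≤ 2`); integrate, `L → ∞`. -/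
def T_OCH : Prop := ∃ C : ℝ≥0, 1 ≤ C ∧ ∀ (Ω : Type) [MeasurableSpace Ω] (μ : Measure Ω) (M : ℕ)
  (X : ℕ → Ω → ℂ) (B : ℝ≥0∞) (V : ℕ → ℝ≥0∞), (∀ j, Measurable (X j)) → (∀ ω, X 0 ω = 0) →
  μ univ ≠ ⊤ → B ≠ ⊤ →
  (∀ (j k : ℕ) (d t : ℝ), j ≤ M → k ≤ M → 0 < d → 0 < t →
    ∫⁻ ω, ‖X j ω - X k ω‖ₑ ^ 2 ∂μ ≤ ENNReal.ofReal (d ^ 2) →
      ∫⁻ ω in {ω | t * d < ‖X j ω - X k ω‖}, ‖X j ω - X k ω‖ₑ ^ 2 ∂μ ≤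
        B * ENNReal.ofReal (1 / Real.log (2 + t) ^ 18) * ENNReal.ofReal (d ^ 2)) →
  (∀ (m l : ℕ) (t : ℕ → ℕ), Monotone t → (∀ r, t r ≤ M) →
    ∑ r ∈ Finset.range l, (∫⁻ ω, ‖X (t (r + 1)) ω - X (t r) ω‖ₑ ^ 2 ∂μ) ^ (qm m / 2) ≤
      V m ^ qm m) →
    ∫⁻ ω, (⨆ (j : ℕ) (_ : j ≤ M), ‖X j ω‖ₑ) ^ 2 ∂μ ≤
      C * (1 + μ univ + B) * ∑' m : ℕ, ENNReal.ofReal (1 / ((m : ℝ) + 1) ^ 16) * V m ^ 2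

/-- **OPN** (75 min; from VEC, OCH, POLN), template `VRR/P_LPN.lean` (its lemmas `gg`, `gg_eq`, `orth`, `WV_ge`, `diff`, `GP..` can be used; `VEC_.WV_meas` for the measurability of
`WV q K c`). Fix `r > 0`; OCH with `X j θ = ∑ c_i(j/2^k, r) Y_i(θ)`, `V m = WV (qm m) K c r`; the hypothesis with `δ`, `t` follows from UIN for the coefficients divided by `δ`. So
`∫_sphere sup² dσ ≤ C (1 + σ + B) ∑_m (m+1)^{-16} WV (qm m) K c r ^ 2`. POLN, `lintegral_tsum`, VEC: `kr (qm m) = 2m+3`, `∑ (m+1)^{-16} (2m+3)^14 < ∞`. -/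
def T_OPN : Prop := ∀ n : ℕ, 2 ≤ n → ∃ C : ℝ≥0, ∀ (B : ℝ≥0) (K : ℕ) (l : ℕ → ℕ)
  (Y : ℕ → E n → ℂ) (a : ℕ → ℝ → ℂ), Sys n K l Y → UIN n K Y B →
  (∀ i, Measurable (a i)) → (∀ i, nn n (a i) ≠ ⊤) →
    ∫⁻ x, (⨆ (R : ℝ) (_ : 0 < R), ‖BN (fs K a Y) R x‖ₑ) ^ 2 ≤
      C * (1 + B) * ∑ i ∈ Finset.range K, nn n (a i)

/-- **OYF** (75 min; from OPN, NRS, CVG): finite and infinite systems. Infinite: as `VRR/P_LIN.lean` (Fatou) and `VRR/P_SYF.lean` (`cut`, the tails `1_{|ξ|>ρ} g`); finite: as the second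
part of `VRR/P_SYF.lean`. -/
def T_OYF : Prop := ∀ n : ℕ, 2 ≤ n → ∃ C : ℝ≥0, ∀ (B : ℝ≥0) (l : ℕ → ℕ) (Y : ℕ → E n → ℂ)
  (a : ℕ → ℝ → ℂ) (g : E n → ℂ), (∀ i, Measurable (a i)) → (∀ i, nn n (a i) ≠ ⊤) →
  Measurable g → ∫⁻ ξ, ‖g ξ‖ₑ ^ 2 ≠ ⊤ →
  (((∀ K, Sys n K l Y) ∧ (∀ K, UIN n K Y B) ∧
      Tendsto (fun K : ℕ => ∫⁻ ξ, ‖g ξ - fs K a Y ξ‖ₑ ^ 2) atTop (𝓝 0)) ∨
    ∃ K : ℕ, Sys n K l Y ∧ UIN n K Y B ∧ ∀ᵐ ξ, g ξ = fs K a Y ξ) →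
    ∫⁻ x, (⨆ (R : ℝ) (_ : 0 < R), ‖BN g R x‖ₑ) ^ 2 ≤ C * (1 + B) * ∫⁻ ξ, ‖g ξ‖ₑ ^ 2 ∧
    ∃ F : E n → ℂ, MemLp F 2 ∧
      Tendsto (fun R : ℝ => ∫⁻ x, ‖BN g R x - F x‖ₑ ^ 2) atTop (𝓝 0) ∧
      ∀ᵐ x, Tendsto (fun R : ℝ => BN g R x) atTop (𝓝 (F x))

end Pool.Agent.VRR
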